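import Mathlib

section

/-!
Combinatorial core: definitions.

Rows are numbered `0, …, N-1`.  An *end* is a pair `(t, b)`: row `t`, side `b`; `e (t,b)` is the
vertex at that end.  The vertex `w` sits just below row `r w`, that is, between the
rows `r w - 1` and `r w`.
-/

namespace MP60f107

open Finset

/-- The combinatorial data extracted from an optimal drawing. -/
structure Cfg (V : Type) [Fintype V] [DecidableEq V] where
  /-- number of rows -/
  N : ℕ
  /-- the vertex at an end -/
  e : Fin N × Bool → V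
  /-- the height of a vertex: between the rows `r w - 1` and `r w` -/
  r : V → ℕ
  /-- number of edges at `w` without a row -/
  f : V → ℕ
  hr : ∀ w, r w ≤ N
  hne : ∀ t, e (t, false) ≠ e (t, true)
  hinj : ∀ t t', s(e (t, false), e (t, true)) = s(e (t', false), e (t', true)) → t = t'
  hf : ∀ a, 1 ≤ f (e a)

namespace Cfg

variable {V : Type} [Fintype V] [DecidableEq V] (C : Cfg V)

/-- The ends. -/
abbrev End : Type := Fin C.N × Bool

/-- Row `t` lies strictly between the vertex of the end `a` and the row of `a`. -/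
def Spans (a : C.End) (t : Fin C.N) : Prop :=
  (C.r (C.e a) ≤ t.val ∧ t.val < a.1.val) ∨ (a.1.val < t.val ∧ t.val < C.r (C.e a))

instance (a : C.End) (t : Fin C.N) : Decidable (C.Spans a t) := by
  unfold Spans; infer_instance

/-- Number of ends of `G` spanning row `t`. -/
def A (G : Finset C.End) (t : Fin C.N) : ℕ := (G.filter (fun a => C.Spans a t)).card

/-- Number of rows spanned by the end `a`. -/
def len (a : C.End) : ℕ := (univ.filter (fun t => C.Spans a t)).card

/-- The energy of a set of ends. -/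
def En (G : Finset C.End) : ℕ := ∑ a ∈ G, C.len a

/-- The ends of `G` at the vertex `w`. -/
def endsAt (G : Finset C.End) (w : V) : Finset C.End := G.filter (fun a => C.e a = w)

/-- Number of ends of `G` at `w`. -/
def k (G : Finset C.End) (w : V) : ℕ := (C.endsAt G w).card

/-- Degree of `w` in the graph: edges without a row plus all ends at `w`. -/
def deg (w : V) : ℕ := C.f w + C.k univ w

/-- Number of edge ends at `w` that do not belong to `G` (edges without a row included). -/
def g (G : Finset C.End) (w : V) : ℕ := C.f w + C.k (univ \ G) w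

/-- A row is bad for `G` if one of its two ends is not in `G`. -/
def Bad (G : Finset C.End) (t : Fin C.N) : Prop := ¬ ((t, false) ∈ G ∧ (t, true) ∈ G)

instance (G : Finset C.End) (t : Fin C.N) : Decidable (C.Bad G t) := by
  unfold Bad; infer_instance

/-- The energy on bad rows. -/
def badSum (G : Finset C.End) : ℕ := ∑ t ∈ univ.filter (fun t => C.Bad G t), C.A G t

/-- Sum of the squares of the numbers of ends. -/
def sq (G : Finset C.End) : ℕ := ∑ w, (C.k G w) ^ 2

/-- `G` is `q`-admissible: at each vertex with an end in `G`, at most one edge end in `q` is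
outside `G`. -/
def Adm (q : ℕ) (G : Finset C.End) : Prop := ∀ w, C.k G w = 0 ∨ q * C.g G w ≤ C.k G w

/-- strictly between, for natural numbers -/
def NBtw (a b c : ℕ) : Prop := (a < c ∧ c < b) ∨ (b < c ∧ c < a)

instance (a b c : ℕ) : Decidable (NBtw a b c) := by unfold NBtw; infer_instance

/-- The crossings of moved ends with rows for the order `κ` of the lanes. -/
def T (G : Finset C.End) (κ : V → ℕ) : ℕ :=
  ∑ a ∈ G, (univ.filter (fun t : Fin C.N => C.Spans a t ∧
    (C.Bad G t ∨ NBtw (κ (C.e (t, false))) (κ (C.e (t, true))) (κ (C.e a))))).card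

/-- The move inequality with constant `C₀`, for crossing numbers `c` of the ends with everything
and `x` of pairs of ends. -/
def Move (C₀ : ℕ) (c : C.End → ℕ) (x : C.End → C.End → ℕ) : Prop :=
  ∀ (G : Finset C.End) (κ : V → ℕ) (_ : Function.Injective κ) (h : V → C.End)
    (_ : ∀ w, C.k G w ≠ 0 → h w ∈ C.endsAt G w),
    2 * ∑ a ∈ G, c a ≤ (∑ a ∈ G, ∑ b ∈ G, x a b) + 2 * C.T G κ
      + 2 * ∑ w ∈ univ.filter (fun w => C.k G w ≠ 0),
          C.g G w * (C.len (h w) + c (h w) + C.A G (h w).1 + 3)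
      + 2 * ∑ w ∈ univ.filter (fun w => C.k G w ≠ 0),
          ∑ w' ∈ univ.filter (fun w' => C.k G w' ≠ 0 ∧ w' ≠ w),
          C.g G w * C.g G w' * (x (h w) (h w') + (if C.Spans (h w) (h w').1 then 1 else 0)
            + (if (h w).1 = (h w').1 then 1 else 0))
      + C₀ * ∑ w ∈ univ.filter (fun w => C.k G w ≠ 0), (C.deg w) ^ 2

/-- In the scale where row `t` has coordinate `4t+2` and vertex `w` coordinate `4 (r w)`, the number
of ends of `G` whose open span contains the coordinate `x` (used for odd `x`, the cuts). -/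
def cross (G : Finset C.End) (x : ℤ) : ℕ :=
  (G.filter (fun a => (4 * (C.r (C.e a) : ℤ) < x ∧ x < 4 * (a.1.val : ℤ) + 2) ∨
    (4 * (a.1.val : ℤ) + 2 < x ∧ x < 4 * (C.r (C.e a) : ℤ)))).card

/-- Number of ends of row `t` outside `G`. -/
def rho (G : Finset C.End) (t : Fin C.N) : ℕ := (univ.filter (fun b : Bool => (t, b) ∉ G)).card

/-- The rows strictly between the cuts `x` and `y`. -/
def rowsIn (x y : ℤ) : Finset (Fin C.N) :=
  univ.filter (fun t => x < 4 * (t.val : ℤ) + 2 ∧ 4 * (t.val : ℤ) + 2 < y)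

/-- No end of `G` touches a row of `Y`. -/
def Free (G : Finset C.End) (Y : Finset (Fin C.N)) : Prop :=
  ∀ a ∈ G, a.1 ∉ Y ∧ ∀ t ∈ Y, ¬ C.Spans a t

/-- Few removed ends in every interval of rows without excluded rows. -/
def Few (q M : ℕ) (G : Finset C.End) (Y : Finset (Fin C.N)) : Prop :=
  ∀ x y : ℤ, Odd x → Odd y → (C.rowsIn x y).Nonempty → Disjoint (C.rowsIn x y) Y →
    M * ∑ t ∈ C.rowsIn x y, C.rho G t
      < (C.rowsIn x y).card + M * (2 * q * (C.cross G x + C.cross G y))

end Cfg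

end MP60f107

end

section

/-!
K2, Lemma E: the sum of the squares of the numbers of ends is small against the energy
(this uses that the graph is simple).
-/

namespace MP60f107

open Finset

namespace Cfg

variable {V : Type} [Fintype V] [DecidableEq V] (C : Cfg V)

/-! ### Basic facts about ends -/

/-- the other end of the same row -/
def flip (a : C.End) : C.End := (a.1, !a.2)

theorem flip_flip (a : C.End) : C.flip (C.flip a) = a := by
  simp [flip]

theorem flip_fst (a : C.End) : (C.flip a).1 = a.1 := rfl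

theorem flip_injective : Function.Injective C.flip := fun a b h => by
  rw [← C.flip_flip a, ← C.flip_flip b, h]

theorem end_inj {a a' : C.End} (h1 : C.e a = C.e a') (h2 : a.1 = a'.1) : a = a' := by
  obtain ⟨t, b⟩ := a
  obtain ⟨t', b'⟩ := a'
  simp only at h2
  subst h2
  have h := C.hne t
  cases b <;> cases b'
  · rfl
  · exact absurd h1 h
  · exact absurd h1.symm h
  · rfl

theorem sym2_flip (a : C.End) :
    s(C.e (a.1, false), C.e (a.1, true)) = s(C.e a, C.e (C.flip a)) := by
  obtain ⟨t, b⟩ := a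
  cases b
  · rfl
  · simp only [flip, Bool.not_true]
    exact Sym2.eq_swap

theorem flip_e_inj {a a' : C.End} (h1 : C.e a = C.e a')
    (h2 : C.e (C.flip a) = C.e (C.flip a')) : a = a' := by
  refine C.end_inj h1 (C.hinj _ _ ?_)
  rw [C.sym2_flip a, C.sym2_flip a', h1, h2]

theorem mem_endsAt {G : Finset C.End} {w : V} {a : C.End} :
    a ∈ C.endsAt G w ↔ a ∈ G ∧ C.e a = w := by
  simp [endsAt]

theorem bad_iff {G : Finset C.End} {a : C.End} (ha : a ∈ G) :
    C.Bad G a.1 ↔ C.flip a ∉ G := by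
  obtain ⟨t, b⟩ := a
  cases b
  · simp only [Bad, flip, Bool.not_false]
    tauto
  · simp only [Bad, flip, Bool.not_true]
    tauto

theorem card_between (lo hi : ℕ) (h : hi ≤ C.N) :
    (univ.filter (fun t : Fin C.N => lo ≤ t.val ∧ t.val < hi)).card = hi - lo := by
  rw [← Nat.card_Ico, ← Finset.card_image_of_injective _ Fin.val_injective]
  congr 1
  ext n
  simp only [mem_image, mem_filter, mem_univ, true_and, mem_Ico]
  constructor
  · rintro ⟨t, ht, rfl⟩
    exact ht
  · intro hn
    exact ⟨⟨n, by omega⟩, hn, rfl⟩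

theorem row_le (a : C.End) : a.1.val ≤ C.r (C.e a) + C.len a := by
  have h := C.card_between (C.r (C.e a)) a.1.val a.1.isLt.le
  have h2 : (univ.filter (fun t : Fin C.N => C.r (C.e a) ≤ t.val ∧ t.val < a.1.val)).card
      ≤ C.len a := by
    apply card_le_card
    intro t ht
    simp only [mem_filter, mem_univ, true_and] at ht ⊢
    exact Or.inl ht
  omega

theorem r_le (a : C.End) : C.r (C.e a) ≤ a.1.val + C.len a + 1 := by
  have h := C.card_between (a.1.val + 1) (C.r (C.e a)) (C.hr _)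
  have h2 : (univ.filter (fun t : Fin C.N => a.1.val + 1 ≤ t.val ∧ t.val < C.r (C.e a))).card
      ≤ C.len a := by
    apply card_le_card
    intro t ht
    simp only [mem_filter, mem_univ, true_and] at ht ⊢
    exact Or.inr ⟨by omega, ht.2⟩
  omega

/-- Number of ends in a window of rows. -/
theorem card_window (s : Finset C.End) (lo hi : ℕ)
    (h : ∀ a ∈ s, lo ≤ a.1.val ∧ a.1.val < hi) : s.card ≤ 2 * (hi - lo) := by
  have hi' : Function.Injective (fun a : C.End => ((a.1 : ℕ), a.2)) := by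
    rintro ⟨t, b⟩ ⟨t', b'⟩ h
    simp only [Prod.mk.injEq] at h
    rw [Fin.ext h.1, h.2]
  have : s.card ≤ (Finset.Ico lo hi ×ˢ (univ : Finset Bool)).card := by
    rw [← Finset.card_image_of_injective s hi']
    apply card_le_card
    intro x hx
    simp only [mem_image] at hx
    obtain ⟨a, ha, rfl⟩ := hx
    simp only [mem_product, mem_Ico, mem_univ, and_true]
    exact h a ha
  rw [card_product, Nat.card_Ico] at this
  simp at this
  omega

/-! ### Pairs in a finite set -/

theorem pairs_lt {α : Type} [LinearOrder α] (s : Finset α) :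
    2 * ∑ t ∈ s, (s.filter (fun t' => t' < t)).card + s.card = s.card ^ 2 := by
  have h1 : ∑ t ∈ s, (s.filter (fun t' => t' < t)).card
      = ∑ t ∈ s, ∑ t' ∈ s, (if t' < t then 1 else 0) := by
    refine sum_congr rfl fun t _ => ?_
    rw [card_filter]
  have h2 : ∑ t ∈ s, ∑ t' ∈ s, (if t' < t then 1 else 0)
      = ∑ t ∈ s, ∑ t' ∈ s, (if t < t' then 1 else 0) := by
    rw [sum_comm]
  have h3 : s.card = ∑ t ∈ s, ∑ t' ∈ s, (if t = t' then 1 else 0) := by
    rw [card_eq_sum_ones]
    refine sum_congr rfl fun t ht => ?_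
    rw [sum_ite_eq]
    simp [ht]
  have h4 : s.card ^ 2 = ∑ t ∈ s, ∑ t' ∈ s, 1 := by
    simp [pow_two]
  rw [h1, h4, two_mul]
  nth_rewrite 2 [h2]
  nth_rewrite 1 [h3]
  rw [← sum_add_distrib, ← sum_add_distrib]
  refine sum_congr rfl fun t _ => ?_
  rw [← sum_add_distrib, ← sum_add_distrib]
  refine sum_congr rfl fun t' _ => ?_
  rcases lt_trichotomy t t' with h | h | h
  · simp [h, h.ne, h.not_gt]
  · simp [h]
  · simp [h, h.ne', h.not_gt]

theorem pairs_gt {α : Type} [LinearOrder α] (s : Finset α) :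
    2 * ∑ t ∈ s, (s.filter (fun t' => t < t')).card + s.card = s.card ^ 2 := by
  rw [← pairs_lt s]
  congr 2
  simp only [card_filter]
  rw [sum_comm]

/-! ### The quantities at a vertex -/

/-- bad crossings of the ends at `w` -/
def P1 (G : Finset C.End) (w : V) : ℕ :=
  ∑ t ∈ univ.filter (fun t => C.Bad G t), ((C.endsAt G w).filter (fun a => C.Spans a t)).card

/-- energy at `w` -/
def P2 (G : Finset C.End) (w : V) : ℕ := ∑ a ∈ C.endsAt G w, C.len a

/-- energy of the other ends of the good rows at `w` -/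
def P3 (G : Finset C.End) (w : V) : ℕ :=
  ∑ a ∈ (C.endsAt G w).filter (fun a => C.flip a ∈ G), C.len (C.flip a)

/-- mean energy at the neighbours of `w` -/
noncomputable def P4 (G : Finset C.End) (w : V) : ℝ :=
  ∑ a ∈ (C.endsAt G w).filter (fun a => C.flip a ∈ G),
    (C.P2 G (C.e (C.flip a)) : ℝ) / (C.k G (C.e (C.flip a)) : ℝ)

theorem sum_endsAt {M : Type} [AddCommMonoid M] (G : Finset C.End) (F : C.End → M) :
    ∑ w, ∑ a ∈ C.endsAt G w, F a = ∑ a ∈ G, F a := by
  unfold endsAt
  exact Finset.sum_fiberwise G C.e F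

theorem sum_P1 (G : Finset C.End) : ∑ w, C.P1 G w = C.badSum G := by
  unfold P1 badSum
  rw [sum_comm]
  refine sum_congr rfl fun t _ => ?_
  have := C.sum_endsAt G (fun a => if C.Spans a t then 1 else 0)
  simp only [← card_filter] at this
  exact this

theorem sum_P2 (G : Finset C.End) : ∑ w, C.P2 G w = C.En G := C.sum_endsAt G _

theorem sum_P3 (G : Finset C.End) : ∑ w, C.P3 G w ≤ C.En G := by
  have h1 : ∑ w, C.P3 G w = ∑ a ∈ G.filter (fun a => C.flip a ∈ G), C.len (C.flip a) := by
    rw [sum_filter, ← C.sum_endsAt G]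
    refine sum_congr rfl fun w _ => ?_
    rw [P3, sum_filter]
  rw [h1, ← sum_image (f := C.len) (g := C.flip) (fun a _ b _ h => C.flip_injective h)]
  refine sum_le_sum_of_subset ?_
  intro a ha
  simp only [mem_image, mem_filter] at ha
  obtain ⟨b, hb, rfl⟩ := ha
  exact hb.2

theorem sum_P4 (G : Finset C.End) : ∑ w, C.P4 G w ≤ (C.En G : ℝ) := by
  set ρ : V → ℝ := fun w => (C.P2 G w : ℝ) / (C.k G w : ℝ) with hρ
  have hρ0 : ∀ w, 0 ≤ ρ w := fun w => by positivity
  have h1 : ∑ w, C.P4 G w = ∑ a ∈ G.filter (fun a => C.flip a ∈ G), ρ (C.e (C.flip a)) := by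
    rw [sum_filter, ← C.sum_endsAt G]
    refine sum_congr rfl fun w _ => ?_
    rw [P4, sum_filter]
  have h2 : ∑ a ∈ G.filter (fun a => C.flip a ∈ G), ρ (C.e (C.flip a))
      ≤ ∑ a ∈ G, ρ (C.e a) := by
    rw [← sum_image (f := fun a => ρ (C.e a)) (g := C.flip)
      (fun a _ b _ h => C.flip_injective h)]
    refine sum_le_sum_of_subset_of_nonneg ?_ (fun a _ _ => hρ0 _)
    intro a ha
    simp only [mem_image, mem_filter] at ha
    obtain ⟨b, hb, rfl⟩ := ha
    exact hb.2
  have h3 : ∑ a ∈ G, ρ (C.e a) ≤ ∑ w, (C.P2 G w : ℝ) := by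
    rw [← C.sum_endsAt G]
    refine sum_le_sum fun w _ => ?_
    have : ∑ a ∈ C.endsAt G w, ρ (C.e a) = (C.k G w : ℝ) * ρ w := by
      rw [sum_congr rfl (fun a ha => by rw [(C.mem_endsAt.mp ha).2] : ∀ a ∈ C.endsAt G w,
        ρ (C.e a) = ρ w), sum_const, nsmul_eq_mul]
      rfl
    rw [this, hρ]
    simp only
    by_cases hk : (C.k G w : ℝ) = 0
    · rw [hk]; simp
    · rw [mul_div_cancel₀ _ hk]
  rw [← C.sum_P2 G]
  push_cast
  linarith only [h1, h2, h3]

/-- Case 1: pairs of bad rows. -/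
theorem four_P1 (G : Finset C.End) (w : V) :
    ((C.endsAt G w).filter (fun a => C.Bad G a.1)).card ^ 2
      ≤ 4 * C.P1 G w + 2 * ((C.endsAt G w).filter (fun a => C.Bad G a.1)).card := by
  set B := (C.endsAt G w).filter (fun a => C.Bad G a.1) with hB
  have hBinj : ∀ a ∈ B, ∀ b ∈ B, a.1 = b.1 → a = b := by
    intro a ha b hb h
    rw [hB, mem_filter, C.mem_endsAt] at ha hb
    exact C.end_inj (by rw [ha.1.2, hb.1.2]) h
  set U := B.filter (fun a => C.r w ≤ a.1.val) with hU
  set D := B.filter (fun a => ¬ C.r w ≤ a.1.val) with hD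
  have hcard : U.card + D.card = B.card := card_filter_add_card_filter_not _
  have hUi : U.card = (U.image Prod.fst).card := by
    rw [card_image_of_injOn]
    intro a ha b hb h
    exact hBinj a (mem_filter.mp ha).1 b (mem_filter.mp hb).1 h
  have hDi : D.card = (D.image Prod.fst).card := by
    rw [card_image_of_injOn]
    intro a ha b hb h
    exact hBinj a (mem_filter.mp ha).1 b (mem_filter.mp hb).1 h
  have hP : C.P1 G w = ∑ a ∈ C.endsAt G w,
      ((univ.filter (fun t => C.Bad G t)).filter (fun t => C.Spans a t)).card := by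
    unfold P1
    simp only [card_filter]
    rw [sum_comm]
  have hPU : ∑ t ∈ U.image Prod.fst, ((U.image Prod.fst).filter (fun t' => t' < t)).card
      + ∑ t ∈ D.image Prod.fst, ((D.image Prod.fst).filter (fun t' => t < t')).card
      ≤ C.P1 G w := by
    rw [sum_image (fun a ha b hb h => hBinj a (mem_filter.mp ha).1 b (mem_filter.mp hb).1 h),
      sum_image (fun a ha b hb h => hBinj a (mem_filter.mp ha).1 b (mem_filter.mp hb).1 h), hP]
    have hd : Disjoint U D := disjoint_filter_filter_not _ _ _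
    have h1 : ∑ a ∈ U ∪ D,
        ((univ.filter (fun t => C.Bad G t)).filter (fun t => C.Spans a t)).card
        ≤ ∑ a ∈ C.endsAt G w,
        ((univ.filter (fun t => C.Bad G t)).filter (fun t => C.Spans a t)).card := by
      refine sum_le_sum_of_subset ?_
      intro a ha
      rw [mem_union] at ha
      rcases ha with ha | ha
      · exact (mem_filter.mp (mem_filter.mp ha).1).1
      · exact (mem_filter.mp (mem_filter.mp ha).1).1
    refine le_trans ?_ h1
    rw [sum_union hd]
    refine add_le_add (sum_le_sum fun a ha => card_le_card ?_)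
      (sum_le_sum fun a ha => card_le_card ?_)
    · intro t ht
      simp only [mem_filter, mem_image, mem_univ, true_and] at ht ⊢
      obtain ⟨⟨b, hb, rfl⟩, hlt⟩ := ht
      have hb1 := mem_filter.mp hb
      have hb2 := mem_filter.mp hb1.1
      have ha1 := mem_filter.mp ha
      have ha2 := mem_filter.mp ha1.1
      refine ⟨hb2.2, Or.inl ⟨?_, hlt⟩⟩
      rw [(C.mem_endsAt.mp ha2.1).2]
      exact hb1.2
    · intro t ht
      simp only [mem_filter, mem_image, mem_univ, true_and] at ht ⊢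
      obtain ⟨⟨b, hb, rfl⟩, hlt⟩ := ht
      have hb1 := mem_filter.mp hb
      have hb2 := mem_filter.mp hb1.1
      have ha1 := mem_filter.mp ha
      have ha2 := mem_filter.mp ha1.1
      refine ⟨hb2.2, Or.inr ⟨hlt, ?_⟩⟩
      rw [(C.mem_endsAt.mp ha2.1).2]
      exact not_le.mp hb1.2
  have e1 := pairs_lt (U.image Prod.fst)
  have e2 := pairs_gt (D.image Prod.fst)
  rw [← hUi] at e1
  rw [← hDi] at e2
  rw [← hcard]
  nlinarith only [sq_nonneg ((U.card : ℤ) - D.card), hPU, e1, e2]

theorem q_le_k {G : Finset C.End} {q : ℕ} (hA : C.Adm q G) {a : C.End} (ha : a ∈ G) :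
    q ≤ C.k G (C.e a) := by
  have h0 : C.k G (C.e a) ≠ 0 := by
    have : a ∈ C.endsAt G (C.e a) := C.mem_endsAt.mpr ⟨ha, rfl⟩
    exact (card_pos.mpr ⟨a, this⟩).ne'
  rcases hA (C.e a) with h | h
  · exact absurd h h0
  · have h1 : 1 ≤ C.g G (C.e a) := le_trans (C.hf a) (Nat.le_add_right _ _)
    calc q = q * 1 := (mul_one q).symm
      _ ≤ q * C.g G (C.e a) := Nat.mul_le_mul_left _ h1
      _ ≤ _ := h

/-- The mean energy at a neighbour. -/
theorem mean_ge {G : Finset C.End} {q : ℕ} (hq : 0 < q) (hA : C.Adm q G) {a : C.End} (ha : a ∈ G)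
    (K : ℕ) :
    (K : ℝ) / 250 * (1 - (((C.endsAt G (C.e a)).filter (fun b => 250 * C.len b < K)).card : ℝ) / q)
      ≤ (C.P2 G (C.e a) : ℝ) / (C.k G (C.e a) : ℝ) := by
  set w := C.e a with hw
  set n := ((C.endsAt G w).filter (fun b => 250 * C.len b < K)).card with hn
  have hk : q ≤ C.k G w := C.q_le_k hA ha
  have hk0 : (0 : ℝ) < C.k G w := by exact_mod_cast lt_of_lt_of_le hq hk
  have hq0 : (0 : ℝ) < q := by exact_mod_cast hq
  have hkq : (q : ℝ) ≤ C.k G w := by exact_mod_cast hk
  have hc : n + ((C.endsAt G w).filter (fun b => ¬ 250 * C.len b < K)).card = C.k G w :=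
    card_filter_add_card_filter_not _
  have h1 : ((C.endsAt G w).filter (fun b => ¬ 250 * C.len b < K)).card * K
      ≤ 250 * C.P2 G w := by
    unfold P2
    rw [mul_sum, card_eq_sum_ones, sum_mul]
    refine le_trans (sum_le_sum (g := fun b => 250 * C.len b) fun b hb => ?_)
      (sum_le_sum_of_subset (filter_subset _ _))
    have := (mem_filter.mp hb).2
    omega
  have h2 : ((C.k G w : ℝ) - n) * K ≤ 250 * (C.P2 G w : ℝ) := by
    have e1 : ((C.k G w : ℝ) - n)
        = (((C.endsAt G w).filter (fun b => ¬ 250 * C.len b < K)).card : ℝ) := by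
      rw [← hc]; push_cast; ring
    rw [e1]
    exact_mod_cast h1
  have hn0 : (0 : ℝ) ≤ n := by positivity
  have h3 : (n : ℝ) / C.k G w ≤ (n : ℝ) / q := by
    exact div_le_div_of_nonneg_left hn0 hq0 hkq
  have h4 : (K : ℝ) / 250 * (1 - (n : ℝ) / C.k G w) ≤ (C.P2 G w : ℝ) / (C.k G w : ℝ) := by
    rw [le_div_iff₀ hk0]
    have : (K : ℝ) / 250 * (1 - (n : ℝ) / C.k G w) * C.k G w
        = (K : ℝ) / 250 * (C.k G w - n) := by
      field_simp
    rw [this]
    linarith only [h2]
  refine le_trans (mul_le_mul_of_nonneg_left ?_ (by positivity)) h4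
  linarith only [h3]

/-- Ends with small length at the near neighbours of `w` lie in a window. -/
theorem sum_near {G : Finset C.End} (w : V) (K : ℕ) (S : Finset C.End)
    (hS : ∀ a ∈ S, C.e a = w ∧ 250 * C.len a < K ∧ 250 * C.len (C.flip a) < K) :
    ∑ a ∈ S, ((C.endsAt G (C.e (C.flip a))).filter (fun b => 250 * C.len b < K)).card
      ≤ 12 * (K / 250) + 8 := by
  have hinj : ∀ a ∈ S, ∀ b ∈ S, C.e (C.flip a) = C.e (C.flip b) → a = b := by
    intro a ha b hb h
    exact C.flip_e_inj (by rw [(hS a ha).1, (hS b hb).1]) h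
  rw [← sum_image (f := fun w' => ((C.endsAt G w').filter (fun b => 250 * C.len b < K)).card)
    (g := fun a => C.e (C.flip a)) hinj]
  set W := S.image (fun a => C.e (C.flip a)) with hW
  set Z := G.filter (fun b => 250 * C.len b < K ∧ C.e b ∈ W) with hZ
  have h1 : ∑ w' ∈ W, ((C.endsAt G w').filter (fun b => 250 * C.len b < K)).card = Z.card := by
    rw [card_eq_sum_card_fiberwise (f := C.e) (t := W)
      (fun b hb => (mem_filter.mp hb).2.2)]
    refine sum_congr rfl fun w' hw' => ?_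
    congr 1
    ext b
    simp only [hZ, mem_filter, mem_endsAt]
    constructor
    · rintro ⟨⟨h1, h2⟩, h3⟩
      exact ⟨⟨h1, h3, by rw [h2]; exact hw'⟩, h2⟩
    · rintro ⟨⟨h1, h3, _⟩, h2⟩
      exact ⟨⟨h1, h2⟩, h3⟩
  rw [h1]
  refine le_trans (C.card_window Z (C.r w - (3 * (K / 250) + 2)) (C.r w + 3 * (K / 250) + 2) ?_)
    (by omega)
  intro b hb
  obtain ⟨hbG, hb1, hb2⟩ := mem_filter.mp hb
  rw [hW, mem_image] at hb2
  obtain ⟨a, ha, hab⟩ := hb2
  obtain ⟨ha1, ha2, ha3⟩ := hS a ha
  have e1 := C.row_le a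
  have e2 := C.r_le a
  have e3 := C.row_le (C.flip a)
  have e4 := C.r_le (C.flip a)
  have e5 := C.row_le b
  have e6 := C.r_le b
  rw [C.flip_fst] at e3 e4
  rw [ha1] at e1 e2
  rw [hab] at e3 e4
  constructor <;> omega

/-- The local estimate. -/
theorem local_est {G : Finset C.End} {q : ℕ} (hq : 100 ≤ q) (hA : C.Adm q G) (w : V) :
    (q : ℝ) * (C.k G w : ℝ) ^ 2 ≤ 22 * q * (C.P1 G w : ℝ) + 1000 * (C.P2 G w : ℝ)
      + 2000 * (C.P3 G w : ℝ) + 4000 * C.P4 G w := by
  have hP4 : 0 ≤ C.P4 G w := by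
    unfold P4
    exact sum_nonneg fun a _ => by positivity
  have hqR : (100 : ℝ) ≤ q := by exact_mod_cast hq
  by_cases hk0 : C.k G w = 0
  · rw [hk0]
    have : (0 : ℝ) ≤ 22 * q * (C.P1 G w : ℝ) + 1000 * (C.P2 G w : ℝ)
      + 2000 * (C.P3 G w : ℝ) + 4000 * C.P4 G w := by positivity
    simpa using this
  have hkq : q ≤ C.k G w := by
    obtain ⟨a, ha⟩ := card_pos.mp (Nat.pos_of_ne_zero hk0)
    obtain ⟨ha1, ha2⟩ := C.mem_endsAt.mp ha
    rw [← ha2]
    exact C.q_le_k hA ha1
  set k := C.k G w with hk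
  have hkR : (100 : ℝ) ≤ k := by exact_mod_cast hq.trans hkq
  have hkqR : (q : ℝ) ≤ k := by exact_mod_cast hkq
  set b := ((C.endsAt G w).filter (fun a => C.Bad G a.1)).card with hb
  have hP1 : (b : ℝ) ^ 2 ≤ 4 * (C.P1 G w : ℝ) + 2 * b := by exact_mod_cast C.four_P1 G w
  have hP10 : (0 : ℝ) ≤ C.P1 G w := by positivity
  have hP20 : (0 : ℝ) ≤ C.P2 G w := by positivity
  have hP30 : (0 : ℝ) ≤ C.P3 G w := by positivity
  have hqP10 : (0 : ℝ) ≤ q * (C.P1 G w : ℝ) := by positivity
  -- Case 1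
  by_cases h1 : k ≤ 2 * b
  · have h1R : (k : ℝ) ≤ 2 * b := by exact_mod_cast h1
    have h2 : (k : ℝ) ^ 2 ≤ 22 * (C.P1 G w : ℝ) := by nlinarith only [hkR, hP1, h1R]
    have h3 : (q : ℝ) * (k : ℝ) ^ 2 ≤ q * (22 * (C.P1 G w : ℝ)) :=
      mul_le_mul_of_nonneg_left h2 (by positivity)
    nlinarith only [hP4, h3]
  -- Case 2
  by_cases h2 : k ^ 2 * q ≤ 1000 * C.P2 G w
  · have h2R : (k : ℝ) ^ 2 * q ≤ 1000 * (C.P2 G w : ℝ) := by exact_mod_cast h2
    nlinarith only [hP4, hqP10, h2R]
  rw [not_le] at h1 h2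
  have h2R : 1000 * (C.P2 G w : ℝ) < (k : ℝ) ^ 2 * q := by exact_mod_cast h2
  set K := k * q with hK
  have hKR : (K : ℝ) = k * q := by rw [hK]; push_cast; ring
  -- long ends
  set F := (C.endsAt G w).filter (fun a => ¬ 250 * C.len a < K) with hF
  have hF1 : F.card * K ≤ 250 * C.P2 G w := by
    unfold P2
    rw [mul_sum, card_eq_sum_ones, sum_mul]
    refine le_trans (sum_le_sum (g := fun b => 250 * C.len b) fun b hb => ?_)
      (sum_le_sum_of_subset (filter_subset _ _))
    have := (mem_filter.mp hb).2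
    omega
  have hF2 : (F.card : ℝ) * (k * q) ≤ 250 * (C.P2 G w : ℝ) := by
    rw [← hKR]; exact_mod_cast hF1
  have hkqpos : (0 : ℝ) < k * q := by positivity
  have hF3 : 4 * (F.card : ℝ) < k := by
    by_contra hcon
    rw [not_lt] at hcon
    nlinarith only [h2R, hF2, hKR, hcon]
  -- the good short ends
  set S := ((C.endsAt G w).filter (fun a => C.flip a ∈ G)).filter
    (fun a => 250 * C.len a < K) with hS
  have hcover : C.endsAt G w ⊆ ((C.endsAt G w).filter (fun a => C.Bad G a.1)) ∪ F ∪ S := by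
    intro a ha
    have haG := (C.mem_endsAt.mp ha).1
    simp only [mem_union]
    by_cases hb1 : C.Bad G a.1
    · exact Or.inl (Or.inl (mem_filter.mpr ⟨ha, hb1⟩))
    · have hfl : C.flip a ∈ G := by
        by_contra hcon
        exact hb1 ((C.bad_iff haG).mpr hcon)
      by_cases hl : 250 * C.len a < K
      · exact Or.inr (mem_filter.mpr ⟨mem_filter.mpr ⟨ha, hfl⟩, hl⟩)
      · exact Or.inl (Or.inr (mem_filter.mpr ⟨ha, hl⟩))
  have hSk : k ≤ b + F.card + S.card := by
    have := (card_le_card hcover).trans (card_union_le _ _)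
    have h3 := card_union_le ((C.endsAt G w).filter (fun a => C.Bad G a.1)) F
    exact this.trans (Nat.add_le_add_right h3 _)
  have hSkR : (k : ℝ) ≤ b + F.card + S.card := by exact_mod_cast hSk
  have h1R : 2 * (b : ℝ) < k := by exact_mod_cast h1
  set S1 := S.filter (fun a => ¬ 250 * C.len (C.flip a) < K) with hS1
  set S2 := S.filter (fun a => 250 * C.len (C.flip a) < K) with hS2
  have hS12 : S2.card + S1.card = S.card := card_filter_add_card_filter_not _
  have hS12R : (S2.card : ℝ) + S1.card = S.card := by exact_mod_cast hS12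
  -- Case 3a
  by_cases h3 : (k : ℝ) ≤ 8 * S1.card
  · have h4 : S1.card * K ≤ 250 * C.P3 G w := by
      unfold P3
      rw [mul_sum, card_eq_sum_ones, sum_mul]
      refine le_trans (sum_le_sum (g := fun b => 250 * C.len (C.flip b)) fun b hb => ?_)
        (sum_le_sum_of_subset ?_)
      · have := (mem_filter.mp hb).2
        omega
      · intro a ha
        exact (mem_filter.mp (mem_filter.mp ha).1).1
    have h4R : (S1.card : ℝ) * (k * q) ≤ 250 * (C.P3 G w : ℝ) := by
      rw [← hKR]; exact_mod_cast h4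
    have h5 : (k : ℝ) * (k * q) ≤ 8 * S1.card * (k * q) :=
      mul_le_mul_of_nonneg_right h3 hkqpos.le
    nlinarith only [hP4, hqP10, h4R, h5]
  -- Case 3b
  rw [not_le] at h3
  have hS2c : (k : ℝ) < 8 * S2.card := by linarith only [hF3, hSkR, h1R, hS12R, h3]
  have hsum := C.sum_near (G := G) w K S2 (by
    intro a ha
    have ha1 := mem_filter.mp ha
    have ha2 := mem_filter.mp ha1.1
    have ha3 := mem_filter.mp ha2.1
    exact ⟨(C.mem_endsAt.mp ha3.1).2, ha2.2, ha1.2⟩)
  have hP4' : ∑ a ∈ S2, ((K : ℝ) / 250 * (1 - (((C.endsAt G (C.e (C.flip a))).filter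
      (fun b => 250 * C.len b < K)).card : ℝ) / q)) ≤ C.P4 G w := by
    unfold P4
    refine le_trans (sum_le_sum fun a ha => ?_) (sum_le_sum_of_subset_of_nonneg
      (s := S2) ?_ (fun a _ _ => by positivity))
    · have ha1 := mem_filter.mp ha
      have ha2 := mem_filter.mp ha1.1
      have ha3 := mem_filter.mp ha2.1
      exact C.mean_ge (by omega) hA ha3.2 K
    · intro a ha
      exact (mem_filter.mp (mem_filter.mp ha).1).1
  have hsumR : ∑ a ∈ S2, (((C.endsAt G (C.e (C.flip a))).filter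
      (fun b => 250 * C.len b < K)).card : ℝ) ≤ 12 * ((K : ℝ) / 250) + 8 := by
    have e1 : ((K / 250 : ℕ) : ℝ) ≤ (K : ℝ) / 250 := by
      have := Nat.cast_div_le (α := ℝ) (m := K) (n := 250)
      simpa using this
    have e2 : ((∑ a ∈ S2, ((C.endsAt G (C.e (C.flip a))).filter
      (fun b => 250 * C.len b < K)).card : ℕ) : ℝ) ≤ ((12 * (K / 250) + 8 : ℕ) : ℝ) := by
      exact_mod_cast hsum
    push_cast at e2
    linarith only [e1, e2]
  rw [← mul_sum, sum_sub_distrib, ← sum_div, sum_const, nsmul_eq_mul, mul_one] at hP4'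
  have hq0 : (0 : ℝ) < q := by linarith only [hqR]
  have h5 : (∑ a ∈ S2, (((C.endsAt G (C.e (C.flip a))).filter
      (fun b => 250 * C.len b < K)).card : ℝ)) / q ≤ k / 20 := by
    rw [div_le_iff₀ hq0]
    refine hsumR.trans ?_
    rw [hKR]
    nlinarith only [hqR, hkR]
  have h6 : (K : ℝ) / 250 * (k / 16) ≤ C.P4 G w := by
    refine le_trans (mul_le_mul_of_nonneg_left ?_ (by positivity)) hP4'
    linarith only [hkR, hF3, hSkR, h1R, hS12R, h3, h5]
  rw [hKR] at h6
  nlinarith only [hqP10, h6]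

/-- K2. Lemma E (uses that the graph is simple). -/
theorem lemmaE : ∃ C₂ q₁ : ℕ, ∀ (V : Type) [Fintype V] [DecidableEq V] (C : Cfg V),
    ∀ q, q₁ ≤ q → ∀ G, C.Adm q G → q * C.sq G ≤ C₂ * (C.En G + q * C.badSum G) := by
  refine ⟨7000, 100, ?_⟩
  intro V _ _ C q hq G hA
  have h1 := sum_le_sum fun w (_ : w ∈ (univ : Finset V)) => C.local_est hq hA w
  rw [sum_add_distrib, sum_add_distrib, sum_add_distrib, ← mul_sum, ← mul_sum, ← mul_sum,
    ← mul_sum, ← mul_sum] at h1
  have e1 : ∑ w, (C.P1 G w : ℝ) = C.badSum G := by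
    rw [← C.sum_P1 G]; push_cast; rfl
  have e2 : ∑ w, (C.P2 G w : ℝ) = C.En G := by
    rw [← C.sum_P2 G]; push_cast; rfl
  have e3 : ∑ w, (C.P3 G w : ℝ) ≤ C.En G := by
    have := C.sum_P3 G
    have h : ((∑ w, C.P3 G w : ℕ) : ℝ) ≤ (C.En G : ℝ) := by exact_mod_cast this
    push_cast at h
    exact h
  have e4 := C.sum_P4 G
  have e5 : ∑ w, (C.k G w : ℝ) ^ 2 = C.sq G := by
    unfold sq; push_cast; rfl
  rw [e1, e2, e5] at h1
  have hb : (0 : ℝ) ≤ q * C.badSum G := by positivity
  have h2 : (q : ℝ) * C.sq G ≤ 7000 * (C.En G + q * C.badSum G) := by nlinarith only [h1, e3, e4, hb]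
  exact_mod_cast h2

end Cfg

end MP60f107

end

section

/-!
K1: averaging the move inequality over the lane orders and the guides.
-/

namespace MP60f107

open Finset

namespace Cfg

section guide

theorem exists_le_avg {E : Type} (S : Finset E) (hS : S.Nonempty) (F : E → ℝ) :
    ∃ a ∈ S, F a ≤ (∑ a ∈ S, F a) / S.card := by
  apply Finset.exists_le_of_sum_le hS
  have hc : (S.card : ℝ) ≠ 0 := by
    have := Finset.card_pos.mpr hS
    positivity
  rw [Finset.sum_const, nsmul_eq_mul]
  rw [mul_div_cancel₀ _ hc]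

theorem exists_guide {V E : Type} [DecidableEq V] (S : V → Finset E) (β : V → V → E → E → ℝ)
    (hβ : ∀ w a b, β w w a b = 0) (h0 : V → E) (s : Finset V) :
    (∀ w ∈ s, (S w).Nonempty) → ∀ (α : V → E → ℝ), ∃ h : V → E, (∀ w ∈ s, h w ∈ S w) ∧
      ∑ w ∈ s, α w (h w) + ∑ w ∈ s, ∑ w' ∈ s, β w w' (h w) (h w')
       ≤ ∑ w ∈ s, (∑ a ∈ S w, α w a) / (S w).card
         + ∑ w ∈ s, ∑ w' ∈ s, (∑ a ∈ S w, ∑ b ∈ S w', β w w' a b) / ((S w).card * (S w').card) := by
  induction s using Finset.induction_on with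
  | empty =>
    intro _ α
    exact ⟨h0, by simp, by simp⟩
  | insert v s hv ih =>
    intro hne α
    have hSv : (S v).Nonempty := hne v (Finset.mem_insert_self _ _)
    obtain ⟨a, ha, hle⟩ := exists_le_avg (S v) hSv
      (fun a => α v a + ∑ w ∈ s, (∑ b ∈ S w, (β w v b a + β v w a b)) / (S w).card)
    obtain ⟨h', hh', hle'⟩ := ih (fun w hw => hne w (Finset.mem_insert_of_mem hw))
      (fun w b => α w b + (β w v b a + β v w a b))
    refine ⟨Function.update h' v a, ?_, ?_⟩
    · intro w hw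
      by_cases hwv : w = v
      · subst hwv
        simpa using ha
      · rw [Function.update_of_ne hwv]
        exact hh' w ((Finset.mem_insert.mp hw).resolve_left hwv)
    · have hup : ∀ w ∈ s, Function.update h' v a w = h' w := by
        intro w hw
        have hwv : w ≠ v := by
          rintro rfl
          exact hv hw
        rw [Function.update_of_ne hwv]
      rw [Finset.sum_insert hv, Finset.sum_insert hv, Finset.sum_insert hv, Finset.sum_insert hv,
        Finset.sum_insert hv, Finset.sum_insert hv]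
      rw [Function.update_self]
      have e1 : ∑ w ∈ s, α w (Function.update h' v a w) = ∑ w ∈ s, α w (h' w) :=
        Finset.sum_congr rfl fun w hw => by rw [hup w hw]
      have e2 : ∑ w' ∈ s, β v w' a (Function.update h' v a w') = ∑ w' ∈ s, β v w' a (h' w') :=
        Finset.sum_congr rfl fun w hw => by rw [hup w hw]
      have e3 : ∑ w ∈ s, ∑ w' ∈ insert v s,
          β w w' (Function.update h' v a w) (Function.update h' v a w')
          = ∑ w ∈ s, β w v (h' w) a + ∑ w ∈ s, ∑ w' ∈ s, β w w' (h' w) (h' w') := by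
        rw [← Finset.sum_add_distrib]
        refine Finset.sum_congr rfl fun w hw => ?_
        rw [Finset.sum_insert hv, hup w hw, Function.update_self]
        congr 1
        exact Finset.sum_congr rfl fun w' hw' => by rw [hup w' hw']
      rw [e1, e2, e3, hβ]
      have e4 : ∑ w ∈ s, ∑ w' ∈ insert v s,
          (∑ a ∈ S w, ∑ b ∈ S w', β w w' a b) / ((S w).card * (S w').card)
          = ∑ w ∈ s, (∑ a ∈ S w, ∑ b ∈ S v, β w v a b) / ((S w).card * (S v).card)
            + ∑ w ∈ s, ∑ w' ∈ s,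
              (∑ a ∈ S w, ∑ b ∈ S w', β w w' a b) / ((S w).card * (S w').card) := by
        rw [← Finset.sum_add_distrib]
        refine Finset.sum_congr rfl fun w hw => ?_
        rw [Finset.sum_insert hv]
      rw [e4]
      have e5 : (∑ a ∈ S v, ∑ b ∈ S v, β v v a b) = 0 := by
        simp [hβ]
      rw [e5, zero_div]
      have f1 : ∑ w ∈ s, (α w (h' w) + (β w v (h' w) a + β v w a (h' w)))
          = ∑ w ∈ s, α w (h' w) + ∑ w ∈ s, β w v (h' w) a + ∑ w ∈ s, β v w a (h' w) := by
        rw [Finset.sum_add_distrib, Finset.sum_add_distrib, add_assoc]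
      have f2 : ∑ w ∈ s, (∑ b ∈ S w, (α w b + (β w v b a + β v w a b))) / ((S w).card : ℝ)
          = ∑ w ∈ s, (∑ b ∈ S w, α w b) / ((S w).card : ℝ)
            + ∑ w ∈ s, (∑ b ∈ S w, (β w v b a + β v w a b)) / ((S w).card : ℝ) := by
        rw [← Finset.sum_add_distrib]
        refine Finset.sum_congr rfl fun w hw => ?_
        rw [Finset.sum_add_distrib, add_div]
      have f3 : (∑ a ∈ S v, (α v a + ∑ w ∈ s, (∑ b ∈ S w, (β w v b a + β v w a b)) / (S w).card))
            / ((S v).card : ℝ)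
          = (∑ a ∈ S v, α v a) / ((S v).card : ℝ)
            + (∑ w ∈ s, (∑ a ∈ S v, ∑ b ∈ S w, β v w a b) / ((S v).card * (S w).card)
              + ∑ w ∈ s, (∑ a ∈ S w, ∑ b ∈ S v, β w v a b) / ((S w).card * (S v).card)) := by
        have g0 : ∑ a ∈ S v, ∑ w ∈ s, (∑ b ∈ S w, (β w v b a + β v w a b)) / ((S w).card : ℝ)
            = ∑ w ∈ s, ∑ a ∈ S v, (∑ b ∈ S w, (β w v b a + β v w a b)) / ((S w).card : ℝ) :=
          Finset.sum_comm
        rw [Finset.sum_add_distrib, add_div, g0, ← Finset.sum_add_distrib, Finset.sum_div s]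
        congr 1
        refine Finset.sum_congr rfl fun w hw => ?_
        have g1 : ∑ a ∈ S v, (∑ b ∈ S w, (β w v b a + β v w a b)) / ((S w).card : ℝ)
            = (∑ a ∈ S w, ∑ b ∈ S v, β w v a b + ∑ a ∈ S v, ∑ b ∈ S w, β v w a b)
              / ((S w).card : ℝ) := by
          rw [← Finset.sum_div]
          congr 1
          simp only [Finset.sum_add_distrib]
          congr 1
          exact Finset.sum_comm
        rw [g1, div_div, mul_comm ((S v).card : ℝ) ((S w).card : ℝ), ← add_div, add_comm]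
      rw [f1, f2] at hle'
      rw [f3] at hle
      linarith only [hle, hle']

end guide

section perm

variable {V : Type} [Fintype V] [DecidableEq V]

/-- position of a vertex -/
noncomputable def pos (v : V) : ℕ := (Fintype.equivFin V v).val

omit [DecidableEq V] in
theorem pos_inj : Function.Injective (pos : V → ℕ) := by
  intro a b h
  unfold pos at h
  exact (Fintype.equivFin V).injective (Fin.ext h)

theorem perm_third (w w' w'' : V) :
    3 * (univ.filter (fun σ : Equiv.Perm V =>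
      NBtw (pos (σ w')) (pos (σ w'')) (pos (σ w)))).card ≤ Fintype.card (Equiv.Perm V) := by
  by_cases h1 : w = w'
  · subst h1
    rw [Finset.filter_false_of_mem]
    · simp
    · intro σ _
      unfold NBtw
      omega
  by_cases h2 : w = w''
  · subst h2
    rw [Finset.filter_false_of_mem]
    · simp
    · intro σ _
      unfold NBtw
      omega
  by_cases h3 : w' = w''
  · subst h3
    rw [Finset.filter_false_of_mem]
    · simp
    · intro σ _
      unfold NBtw
      omega
  have c2 : (univ.filter (fun σ : Equiv.Perm V =>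
      NBtw (pos (σ w)) (pos (σ w'')) (pos (σ w')))).card
      = (univ.filter (fun σ : Equiv.Perm V =>
      NBtw (pos (σ w')) (pos (σ w'')) (pos (σ w)))).card := by
    refine Finset.card_equiv (Equiv.mulRight (Equiv.swap w w')) ?_
    intro σ
    simp only [Finset.mem_filter, Finset.mem_univ, true_and, Equiv.coe_mulRight,
      Equiv.Perm.mul_apply]
    rw [Equiv.swap_apply_left, Equiv.swap_apply_right,
      Equiv.swap_apply_of_ne_of_ne (Ne.symm h2) (Ne.symm h3)]
  have c3 : (univ.filter (fun σ : Equiv.Perm V =>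
      NBtw (pos (σ w')) (pos (σ w)) (pos (σ w'')))).card
      = (univ.filter (fun σ : Equiv.Perm V =>
      NBtw (pos (σ w')) (pos (σ w'')) (pos (σ w)))).card := by
    refine Finset.card_equiv (Equiv.mulRight (Equiv.swap w w'')) ?_
    intro σ
    simp only [Finset.mem_filter, Finset.mem_univ, true_and, Equiv.coe_mulRight,
      Equiv.Perm.mul_apply]
    rw [Equiv.swap_apply_left, Equiv.swap_apply_right,
      Equiv.swap_apply_of_ne_of_ne (Ne.symm h1) h3]
  have hd12 : Disjoint (univ.filter (fun σ : Equiv.Perm V =>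
      NBtw (pos (σ w')) (pos (σ w'')) (pos (σ w)))) (univ.filter (fun σ : Equiv.Perm V =>
      NBtw (pos (σ w)) (pos (σ w'')) (pos (σ w')))) := by
    rw [Finset.disjoint_filter]
    intro σ _
    unfold NBtw
    omega
  have hd123 : Disjoint ((univ.filter (fun σ : Equiv.Perm V =>
      NBtw (pos (σ w')) (pos (σ w'')) (pos (σ w)))) ∪ (univ.filter (fun σ : Equiv.Perm V =>
      NBtw (pos (σ w)) (pos (σ w'')) (pos (σ w'))))) (univ.filter (fun σ : Equiv.Perm V =>
      NBtw (pos (σ w')) (pos (σ w)) (pos (σ w'')))) := by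
    rw [Finset.disjoint_union_left, Finset.disjoint_filter, Finset.disjoint_filter]
    constructor
    · intro σ _
      unfold NBtw
      omega
    · intro σ _
      unfold NBtw
      omega
  have := Finset.card_le_univ (((univ.filter (fun σ : Equiv.Perm V =>
      NBtw (pos (σ w')) (pos (σ w'')) (pos (σ w)))) ∪ (univ.filter (fun σ : Equiv.Perm V =>
      NBtw (pos (σ w)) (pos (σ w'')) (pos (σ w'))))) ∪ (univ.filter (fun σ : Equiv.Perm V =>
      NBtw (pos (σ w')) (pos (σ w)) (pos (σ w'')))))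
  rw [Finset.card_union_of_disjoint hd123, Finset.card_union_of_disjoint hd12, c2, c3] at this
  omega

end perm

variable {V : Type} [Fintype V] [DecidableEq V] (C : Cfg V)

theorem sum_A (G : Finset C.End) (s : Finset (Fin C.N)) :
    ∑ t ∈ s, C.A G t = ∑ a ∈ G, (s.filter (fun t => C.Spans a t)).card := by
  unfold A
  simp only [Finset.card_filter]
  exact Finset.sum_comm

theorem sum_A_univ (G : Finset C.End) : ∑ t, C.A G t = C.En G := by
  rw [sum_A]
  rfl

theorem badSum_eq (G : Finset C.End) :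
    C.badSum G = ∑ a ∈ G, (univ.filter (fun t => C.Spans a t ∧ C.Bad G t)).card := by
  unfold badSum
  rw [sum_A]
  refine Finset.sum_congr rfl fun a _ => ?_
  rw [Finset.filter_filter]
  congr 1
  ext t
  simp [and_comm]

/-- a good lane order -/
theorem exists_kappa (G : Finset C.End) : ∃ κ : V → ℕ, Function.Injective κ ∧
    3 * C.T G κ ≤ 2 * C.badSum G + C.En G := by
  have key : ∑ σ : Equiv.Perm V, 3 * C.T G (fun v => pos (σ v))
      ≤ ∑ _σ : Equiv.Perm V, (2 * C.badSum G + C.En G) := by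
    rw [Finset.sum_const, Finset.card_univ, smul_eq_mul, ← Finset.mul_sum]
    have e1 : ∑ σ : Equiv.Perm V, C.T G (fun v => pos (σ v))
        = ∑ a ∈ G, ∑ t : Fin C.N, (univ.filter (fun σ : Equiv.Perm V => C.Spans a t ∧
    (C.Bad G t ∨ NBtw (pos (σ (C.e (t, false)))) (pos (σ (C.e (t, true))))
      (pos (σ (C.e a)))))).card := by
      unfold T
      rw [Finset.sum_comm]
      refine Finset.sum_congr rfl fun a _ => ?_
      simp only [Finset.card_filter]
      exact Finset.sum_comm
    rw [e1, badSum_eq]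
    unfold En len
    simp only [Finset.mul_sum, Finset.card_filter (fun t => C.Spans _ t ∧ C.Bad G t),
      Finset.card_filter (fun t => C.Spans _ t), ← Finset.sum_add_distrib]
    refine Finset.sum_le_sum fun a _ => Finset.sum_le_sum fun t _ => ?_
    by_cases hs : C.Spans a t
    · by_cases hb : C.Bad G t
      · simp only [hs, hb, true_or, and_self, if_true]
        rw [Finset.filter_true_of_mem (by simp), Finset.card_univ]
        omega
      · simp only [hs, hb, true_and, false_or, and_false, if_true, if_false]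
        have := perm_third (C.e a) (C.e (t, false)) (C.e (t, true))
        omega
    · simp [hs]
  obtain ⟨σ, _, hσ⟩ := Finset.exists_le_of_sum_le (Finset.univ_nonempty) key
  refine ⟨fun v => pos (σ v), ?_, hσ⟩
  intro v w h
  exact σ.injective (pos_inj h)

theorem card_row_le (G : Finset C.End) (t : Fin C.N) :
    (G.filter (fun a => a.1 = t)).card ≤ 2 := by
  have h : G.filter (fun a => a.1 = t) ⊆ ({(t, false), (t, true)} : Finset C.End) := by
    intro a ha
    obtain ⟨_, ha⟩ := Finset.mem_filter.mp ha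
    obtain ⟨t', b⟩ := a
    simp only at ha
    subst ha
    cases b <;> simp
  exact (Finset.card_le_card h).trans (Finset.card_le_two)

theorem sum_endsAt_real (G : Finset C.End) (F : C.End → ℝ) :
    ∑ w ∈ univ.filter (fun w => C.k G w ≠ 0), ∑ a ∈ C.endsAt G w, F a = ∑ a ∈ G, F a := by
  unfold endsAt
  rw [← Finset.sum_fiberwise_of_maps_to (g := fun a => C.e a)
    (t := univ.filter (fun w => C.k G w ≠ 0))]
  intro a ha
  simp only [Finset.mem_filter, Finset.mem_univ, true_and]
  unfold k endsAt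
  rw [Finset.card_ne_zero]
  exact ⟨a, Finset.mem_filter.mpr ⟨ha, rfl⟩⟩

theorem card_eq (G : Finset C.End) :
    G.card = ∑ w ∈ univ.filter (fun w => C.k G w ≠ 0), C.k G w := by
  have := C.sum_endsAt_real G (fun _ => 1)
  simp only [Finset.sum_const, nsmul_eq_mul, mul_one] at this
  have h2 : ((∑ w ∈ univ.filter (fun w => C.k G w ≠ 0), C.k G w : ℕ) : ℝ) = (G.card : ℝ) := by
    rw [← this]
    push_cast
    rfl
  exact_mod_cast h2.symm

theorem deg_eq (G : Finset C.End) (w : V) : C.deg w = C.g G w + C.k G w := by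
  have h : C.k univ w = C.k (univ \ G) w + C.k G w := by
    unfold k endsAt
    rw [← Finset.card_union_of_disjoint]
    · congr 1
      ext a
      simp only [Finset.mem_filter, Finset.mem_univ, true_and, Finset.mem_union,
        Finset.mem_sdiff]
      tauto
    · rw [Finset.disjoint_left]
      intro a ha hb
      simp only [Finset.mem_filter, Finset.mem_univ, true_and,
        Finset.mem_sdiff] at ha hb
      tauto
  unfold deg g
  omega

theorem sum_row_le (G : Finset C.End) (F : Fin C.N → ℝ) (hF : ∀ t, 0 ≤ F t) :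
    ∑ b ∈ G, F b.1 ≤ 2 * ∑ t, F t := by
  rw [← Finset.sum_fiberwise (s := G) (g := fun a : C.End => a.1), Finset.mul_sum]
  refine Finset.sum_le_sum fun t _ => ?_
  have h1 : ∑ b ∈ G with b.1 = t, F b.1 = ∑ b ∈ G with b.1 = t, F t := by
    refine Finset.sum_congr rfl fun b hb => ?_
    rw [(Finset.mem_filter.mp hb).2]
  rw [h1, Finset.sum_const, nsmul_eq_mul]
  have h2 : ((G.filter (fun a => a.1 = t)).card : ℝ) ≤ 2 := by
    exact_mod_cast C.card_row_le G t
  exact mul_le_mul_of_nonneg_right h2 (hF t)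

/-- K1. Averaging the move inequality over the lane orders and the guides. -/
theorem key1 (C₀ : ℕ) : ∃ q₀ C₁ : ℕ, ∀ (V : Type) [Fintype V] [DecidableEq V] (C : Cfg V)
    (c : C.End → ℕ) (x : C.End → C.End → ℕ),
    (∀ a, ∑ b, x a b ≤ c a) → (∀ a, C.len a ≤ c a + 3 * C.deg (C.e a)) → C.Move C₀ c x →
    ∀ q, q₀ ≤ q → ∀ G, C.Adm q G → C.En G ≤ 12 * C.badSum G + C₁ * C.sq G := by
  refine ⟨100, 40 + 16 * C₀, ?_⟩
  intro V _ _ C c x hx hlen hmove q hq G hadm
  by_cases hG : G = ∅
  · subst hG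
    simp [En]
  obtain ⟨a0, ha0⟩ := Finset.nonempty_iff_ne_empty.mpr hG
  obtain ⟨κ, hκ, hT⟩ := C.exists_kappa G
  set V1 : Finset V := univ.filter (fun w => C.k G w ≠ 0) with hV1
  have hmemV1 : ∀ w, w ∈ V1 ↔ C.k G w ≠ 0 := by
    intro w
    simp [hV1]
  have hkpos : ∀ w ∈ V1, (0 : ℝ) < C.k G w := by
    intro w hw
    have := Nat.pos_of_ne_zero ((hmemV1 w).mp hw)
    exact_mod_cast this
  have hqr : (100 : ℝ) ≤ q := by exact_mod_cast hq
  have hqpos : (0 : ℝ) < q := by linarith only [hqr]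
  have hadm' : ∀ w ∈ V1, (q : ℝ) * C.g G w ≤ C.k G w := by
    intro w hw
    have := (hadm w).resolve_left ((hmemV1 w).mp hw)
    exact_mod_cast this
  have hratio : ∀ w ∈ V1, (C.g G w : ℝ) / C.k G w ≤ 1 / q := by
    intro w hw
    rw [div_le_div_iff₀ (hkpos w hw) hqpos]
    have := hadm' w hw
    linarith only [this]
  have hratio0 : ∀ w, (0 : ℝ) ≤ (C.g G w : ℝ) / C.k G w := fun w => by positivity
  -- the guide weights
  let α : V → C.End → ℝ := fun w a => (C.g G w : ℝ) * (C.len a + c a + C.A G a.1 + 3)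
  let γ : C.End → C.End → ℝ := fun a b =>
    x a b + (if C.Spans a b.1 then 1 else 0) + (if a.1 = b.1 then 1 else 0)
  let β : V → V → C.End → C.End → ℝ := fun w w' a b =>
    if w' = w then 0 else (C.g G w : ℝ) * C.g G w' * γ a b
  have hγ0 : ∀ a b, 0 ≤ γ a b := by
    intro a b
    simp only [γ]
    positivity
  obtain ⟨h, hh, hle⟩ := exists_guide (fun w => C.endsAt G w) β (by intro w a b; simp [β])
    (fun _ => a0) V1 (by
      intro w hw
      have := (hmemV1 w).mp hw
      unfold k at this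
      exact Finset.card_ne_zero.mp this) α
  have hm := hmove G κ hκ h (fun w hw => hh w ((hmemV1 w).mpr hw))
  have hm' : 2 * ∑ a ∈ G, (c a : ℝ) ≤ ∑ a ∈ G, ∑ b ∈ G, (x a b : ℝ) + 2 * (C.T G κ : ℝ)
      + 2 * (∑ w ∈ V1, α w (h w) + ∑ w ∈ V1, ∑ w' ∈ V1, β w w' (h w) (h w'))
      + C₀ * ∑ w ∈ V1, (C.deg w : ℝ) ^ 2 := by
    have hm2 : ((2 * ∑ a ∈ G, c a : ℕ) : ℝ) ≤ _ := Nat.cast_le.mpr hm
    push_cast at hm2
    have e1 : ∑ w ∈ V1, ∑ w' ∈ V1, β w w' (h w) (h w')
        = ∑ w ∈ univ.filter (fun w => C.k G w ≠ 0),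
          ∑ w' ∈ univ.filter (fun w' => C.k G w' ≠ 0 ∧ w' ≠ w),
          (C.g G w : ℝ) * C.g G w' * (x (h w) (h w') + (if C.Spans (h w) (h w').1 then 1 else 0)
            + (if (h w).1 = (h w').1 then 1 else 0)) := by
      refine Finset.sum_congr rfl fun w _ => ?_
      rw [← Finset.filter_filter, ← hV1, Finset.sum_filter (fun w' => w' ≠ w)]
      refine Finset.sum_congr rfl fun w' _ => ?_
      simp only [β, γ]
      by_cases hww : w' = w
      · simp [hww]
      · simp [hww]
    rw [e1]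
    have e2 : ∑ w ∈ V1, α w (h w) = ∑ w ∈ univ.filter (fun w => C.k G w ≠ 0),
          (C.g G w : ℝ) * (C.len (h w) + c (h w) + C.A G (h w).1 + 3) := rfl
    rw [e2]
    linarith only [hm2]
  -- bound for the single sums
  have b1 : ∑ w ∈ V1, (∑ a ∈ C.endsAt G w, α w a) / ((C.endsAt G w).card : ℝ)
      ≤ (1 / q) * ∑ a ∈ G, ((C.len a : ℝ) + c a + C.A G a.1 + 3) := by
    rw [← C.sum_endsAt_real G, ← hV1, Finset.mul_sum]
    refine Finset.sum_le_sum fun w hw => ?_
    have e : (∑ a ∈ C.endsAt G w, α w a) / ((C.endsAt G w).card : ℝ)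
        = (C.g G w : ℝ) / C.k G w * ∑ a ∈ C.endsAt G w, ((C.len a : ℝ) + c a + C.A G a.1 + 3) := by
      simp only [α]
      rw [← Finset.mul_sum]
      unfold k
      ring
    rw [e]
    exact mul_le_mul_of_nonneg_right (hratio w hw)
      (Finset.sum_nonneg fun a _ => by positivity)
  have b2 : ∑ w ∈ V1, ∑ w' ∈ V1, (∑ a ∈ C.endsAt G w, ∑ b ∈ C.endsAt G w', β w w' a b)
        / (((C.endsAt G w).card : ℝ) * ((C.endsAt G w').card : ℝ))
      ≤ (1 / q) * (1 / q) * ∑ a ∈ G, ∑ b ∈ G, γ a b := by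
    have e0 : ∑ a ∈ G, ∑ b ∈ G, γ a b
        = ∑ w ∈ V1, ∑ w' ∈ V1, ∑ a ∈ C.endsAt G w, ∑ b ∈ C.endsAt G w', γ a b := by
      rw [← C.sum_endsAt_real G, ← hV1]
      refine Finset.sum_congr rfl fun w _ => ?_
      rw [Finset.sum_comm]
      rw [Finset.sum_comm (s := V1)]
      rw [Finset.sum_comm]
      refine Finset.sum_congr rfl fun a _ => ?_
      rw [← C.sum_endsAt_real G, ← hV1]
    rw [e0, Finset.mul_sum]
    refine Finset.sum_le_sum fun w hw => ?_
    rw [Finset.mul_sum]
    refine Finset.sum_le_sum fun w' hw' => ?_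
    have hs0 : 0 ≤ ∑ a ∈ C.endsAt G w, ∑ b ∈ C.endsAt G w', γ a b :=
      Finset.sum_nonneg fun a _ => Finset.sum_nonneg fun b _ => hγ0 a b
    by_cases hww : w' = w
    · have : (∑ a ∈ C.endsAt G w, ∑ b ∈ C.endsAt G w', β w w' a b) = 0 := by
        simp [β, hww]
      rw [this, zero_div]
      positivity
    · have e : (∑ a ∈ C.endsAt G w, ∑ b ∈ C.endsAt G w', β w w' a b)
          / (((C.endsAt G w).card : ℝ) * ((C.endsAt G w').card : ℝ))
          = ((C.g G w : ℝ) / C.k G w) * ((C.g G w' : ℝ) / C.k G w')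
            * ∑ a ∈ C.endsAt G w, ∑ b ∈ C.endsAt G w', γ a b := by
        simp only [β, hww, if_false]
        simp only [← Finset.mul_sum]
        unfold k
        ring
      rw [e]
      refine mul_le_mul_of_nonneg_right ?_ hs0
      exact mul_le_mul (hratio w hw) (hratio w' hw') (hratio0 w') (by positivity)
  -- the sums over `G`
  have s1 : ∑ a ∈ G, ((C.A G a.1 : ℝ)) ≤ 2 * C.En G := by
    have := C.sum_row_le G (fun t => (C.A G t : ℝ)) (fun t => by positivity)
    refine this.trans (le_of_eq ?_)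
    rw [← C.sum_A_univ G]
    push_cast
    rfl
  have s2 : ∑ a ∈ G, ∑ b ∈ G, (if C.Spans a b.1 then (1 : ℝ) else 0) ≤ 2 * C.En G := by
    unfold En
    push_cast
    rw [Finset.mul_sum]
    refine Finset.sum_le_sum fun a _ => ?_
    have := C.sum_row_le G (fun t => if C.Spans a t then (1 : ℝ) else 0)
      (fun t => by positivity)
    refine this.trans (le_of_eq ?_)
    unfold len
    rw [Finset.card_filter]
    push_cast
    rfl
  have s3 : ∑ a ∈ G, ∑ b ∈ G, (if a.1 = b.1 then (1 : ℝ) else 0) ≤ 2 * G.card := by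
    have : ∀ a ∈ G, ∑ b ∈ G, (if a.1 = b.1 then (1 : ℝ) else 0) ≤ 2 := by
      intro a _
      have h := C.sum_row_le G (fun t => if a.1 = t then (1 : ℝ) else 0)
        (fun t => by positivity)
      refine h.trans (le_of_eq ?_)
      simp
    refine (Finset.sum_le_sum this).trans (le_of_eq ?_)
    rw [Finset.sum_const, nsmul_eq_mul, mul_comm]
  have s4 : ∑ a ∈ G, ∑ b ∈ G, (x a b : ℝ) ≤ ∑ a ∈ G, (c a : ℝ) := by
    refine Finset.sum_le_sum fun a _ => ?_
    have h1 : ∑ b ∈ G, x a b ≤ c a :=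
      (Finset.sum_le_sum_of_subset (Finset.subset_univ G)).trans (hx a)
    exact_mod_cast h1
  have hcard : (G.card : ℝ) ≤ C.sq G := by
    have : G.card ≤ C.sq G := by
      rw [C.card_eq G]
      unfold sq
      refine (Finset.sum_le_sum_of_subset (Finset.subset_univ _)).trans ?_
      refine Finset.sum_le_sum fun w _ => ?_
      nlinarith only [Nat.zero_le (C.k G w), sq_nonneg ((C.k G w : ℤ))]
    exact_mod_cast this
  have hdeg : ∀ w ∈ V1, (C.deg w : ℝ) ≤ 2 * C.k G w := by
    intro w hw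
    rw [C.deg_eq G w]
    push_cast
    have h1 := hadm' w hw
    have h2 : (0 : ℝ) ≤ C.g G w := by positivity
    nlinarith only [h1, hqr]
  have hdegsq : ∑ w ∈ V1, (C.deg w : ℝ) ^ 2 ≤ 4 * C.sq G := by
    have h1 : ∑ w ∈ V1, (C.deg w : ℝ) ^ 2 ≤ ∑ w ∈ V1, 4 * (C.k G w : ℝ) ^ 2 := by
      refine Finset.sum_le_sum fun w hw => ?_
      have h1 := hdeg w hw
      have h2 : (0 : ℝ) ≤ C.deg w := by positivity
      nlinarith only [h1]
    refine h1.trans ?_
    unfold sq
    push_cast
    rw [Finset.mul_sum]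
    exact Finset.sum_le_sum_of_subset_of_nonneg (Finset.subset_univ _)
      (fun w _ _ => by positivity)
  have hcE : (C.En G : ℝ) ≤ ∑ a ∈ G, (c a : ℝ) + 6 * C.sq G := by
    have h1 : (C.En G : ℝ) ≤ ∑ a ∈ G, ((c a : ℝ) + 3 * C.deg (C.e a)) := by
      unfold En
      push_cast
      refine Finset.sum_le_sum fun a _ => ?_
      exact_mod_cast hlen a
    rw [Finset.sum_add_distrib] at h1
    have h2 : ∑ a ∈ G, (3 * C.deg (C.e a) : ℝ) ≤ 6 * C.sq G := by
      rw [← C.sum_endsAt_real G, ← hV1]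
      unfold sq
      push_cast
      rw [Finset.mul_sum]
      refine (Finset.sum_le_sum (g := fun w => 6 * (C.k G w : ℝ) ^ 2) ?_).trans
        (Finset.sum_le_sum_of_subset_of_nonneg (Finset.subset_univ _)
          (fun w _ _ => by positivity))
      intro w hw
      have h3 : ∑ a ∈ C.endsAt G w, (3 * C.deg (C.e a) : ℝ)
          = ∑ a ∈ C.endsAt G w, (3 * C.deg w : ℝ) := by
        refine Finset.sum_congr rfl fun a ha => ?_
        rw [(Finset.mem_filter.mp ha).2]
      rw [h3, Finset.sum_const, nsmul_eq_mul]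
      have h4 := hdeg w hw
      have h5 := hkpos w hw
      change (C.k G w : ℝ) * (3 * C.deg w) ≤ 6 * (C.k G w : ℝ) ^ 2
      nlinarith only [h4]
    linarith only [h1, h2]
  -- conclusion
  have hq1 : (1 : ℝ) / q ≤ 1 / 100 := one_div_le_one_div_of_le (by norm_num) hqr
  have hq0 : (0 : ℝ) ≤ 1 / q := by positivity
  have t1 : ∑ a ∈ G, ((C.len a : ℝ) + c a + C.A G a.1 + 3)
      ≤ 3 * C.En G + ∑ a ∈ G, (c a : ℝ) + 3 * C.sq G := by
    rw [Finset.sum_add_distrib, Finset.sum_add_distrib, Finset.sum_add_distrib,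
      Finset.sum_const, nsmul_eq_mul]
    have e : ∑ a ∈ G, (C.len a : ℝ) = C.En G := by
      unfold En
      push_cast
      rfl
    rw [e]
    linarith only [s1, hcard]
  have t2 : ∑ a ∈ G, ∑ b ∈ G, γ a b
      ≤ ∑ a ∈ G, (c a : ℝ) + 2 * C.En G + 2 * C.sq G := by
    simp only [γ, Finset.sum_add_distrib]
    linarith only [s2, s3, s4, hcard]
  have hE0 : (0 : ℝ) ≤ C.En G := by positivity
  have hs0 : (0 : ℝ) ≤ C.sq G := by positivity
  have hb0 : (0 : ℝ) ≤ C.badSum G := by positivity
  have hX0 : (0 : ℝ) ≤ ∑ a ∈ G, (c a : ℝ) := Finset.sum_nonneg fun a _ => by positivity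
  have u1 : (1 / q : ℝ) * ∑ a ∈ G, ((C.len a : ℝ) + c a + C.A G a.1 + 3)
      ≤ 1 / 100 * (3 * C.En G + ∑ a ∈ G, (c a : ℝ) + 3 * C.sq G) :=
    mul_le_mul hq1 t1 (Finset.sum_nonneg fun a _ => by positivity) (by norm_num)
  have u2 : (1 / q : ℝ) * (1 / q) * ∑ a ∈ G, ∑ b ∈ G, γ a b
      ≤ 1 / 100 * (1 / 100) * (∑ a ∈ G, (c a : ℝ) + 2 * C.En G + 2 * C.sq G) :=
    mul_le_mul (mul_le_mul hq1 hq1 hq0 (by norm_num)) t2
      (Finset.sum_nonneg fun a _ => Finset.sum_nonneg fun b _ => hγ0 a b) (by norm_num)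
  have hTr : 3 * (C.T G κ : ℝ) ≤ 2 * C.badSum G + C.En G := by exact_mod_cast hT
  have u3 : (C₀ : ℝ) * ∑ w ∈ V1, (C.deg w : ℝ) ^ 2 ≤ C₀ * (4 * C.sq G) :=
    mul_le_mul_of_nonneg_left hdegsq (by positivity)
  have hfin : (C.En G : ℝ) ≤ 12 * C.badSum G + (40 + 16 * C₀) * C.sq G := by
    have hC0 : (0 : ℝ) ≤ (C₀ : ℝ) * C.sq G := by positivity
    nlinarith only [hle, hm', b1, b2, u1, u2, u3, hTr, s4, hcE]
  exact_mod_cast hfin

end Cfg

end MP60f107

end

section

/-!
K3: the layer cake lemma.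
-/

namespace MP60f107

open Finset

/-- A sum over the elements satisfying `P` is a sum over maximal intervals. -/
theorem lc_decomp (P : ℕ → Prop) [DecidablePred P] (F H : ℕ → ℕ) (b : ℕ) :
    ∀ n a : ℕ, b - a = n → (∀ s e, a ≤ s → s < e → e ≤ b → (∀ t, s ≤ t → t < e → P t) →
      (s = a ∨ ¬ P (s - 1)) → (e = b ∨ ¬ P e) → ∑ t ∈ Ico s e, F t ≤ ∑ t ∈ Ico s e, H t) →
    ∑ t ∈ (Ico a b).filter P, F t ≤ ∑ t ∈ (Ico a b).filter P, H t := by
  intro n
  induction n using Nat.strong_induction_on with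
  | _ n ih =>
    intro a hn h
    rcases Nat.lt_or_ge a b with hab | hab
    · by_cases hP : P a
      · have hex : ∃ e, a < e ∧ (e = b ∨ ¬ P e) := ⟨b, hab, Or.inl rfl⟩
        obtain ⟨h1, h2⟩ := Nat.find_spec hex
        have hmin : ∀ m, m < Nat.find hex → ¬ (a < m ∧ (m = b ∨ ¬ P m)) :=
          fun m hm => Nat.find_min hex hm
        generalize Nat.find hex = e at h1 h2 hmin
        have heb : e ≤ b := by
          by_contra hc
          exact hmin b (by omega) ⟨hab, Or.inl rfl⟩
        have hall : ∀ t, a ≤ t → t < e → P t := by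
          intro t ht1 ht2
          rcases Nat.eq_or_lt_of_le ht1 with h3 | h3
          · rw [← h3]; exact hP
          · by_contra hc
            exact hmin t ht2 ⟨h3, Or.inr hc⟩
        have hd : (Ico a b).filter P = (Ico a e) ∪ (Ico e b).filter P := by
          ext t
          simp only [mem_filter, mem_Ico, mem_union]
          constructor
          · rintro ⟨⟨h3, h4⟩, h5⟩
            by_cases h6 : t < e
            · left; exact ⟨h3, h6⟩
            · right; exact ⟨⟨by omega, h4⟩, h5⟩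
          · rintro (⟨h3, h4⟩ | ⟨⟨h3, h4⟩, h5⟩)
            · exact ⟨⟨h3, by omega⟩, hall t h3 h4⟩
            · exact ⟨⟨by omega, h4⟩, h5⟩
        have hdj : Disjoint (Ico a e) ((Ico e b).filter P) := by
          rw [Finset.disjoint_left]
          intro t ht
          simp only [mem_filter, mem_Ico, not_and] at ht ⊢
          intro h3
          omega
        rw [hd, Finset.sum_union hdj, Finset.sum_union hdj]
        refine Nat.add_le_add (h a e le_rfl h1 heb hall (Or.inl rfl) h2) ?_
        refine ih (b - e) (by omega) e rfl ?_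
        intro s' e' h3 h4 h5 h6 h7 h8
        refine h s' e' (by omega) h4 h5 h6 ?_ h8
        right
        rcases h7 with h7 | h7
        · exfalso
          rcases h2 with h2 | h2
          · omega
          · apply h2
            rw [← h7]
            exact h6 s' le_rfl h4
        · exact h7
      · have hd : (Ico a b).filter P = (Ico (a + 1) b).filter P := by
          ext t
          simp only [mem_filter, mem_Ico]
          constructor
          · rintro ⟨⟨h3, h4⟩, h5⟩
            refine ⟨⟨?_, h4⟩, h5⟩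
            rcases Nat.eq_or_lt_of_le h3 with h6 | h6
            · exact absurd (h6 ▸ h5) hP
            · omega
          · rintro ⟨⟨h3, h4⟩, h5⟩
            exact ⟨⟨by omega, h4⟩, h5⟩
        rw [hd]
        refine ih (b - (a + 1)) (by omega) (a + 1) rfl ?_
        intro s' e' h3 h4 h5 h6 h7 h8
        refine h s' e' (by omega) h4 h5 h6 ?_ h8
        right
        rcases h7 with h7 | h7
        · rw [h7]; simpa using hP
        · exact h7
    · rw [Finset.Ico_eq_empty (by omega)]
      simp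

/-- `A ≤ ∑_{2^i ≤ A} 2^i`. -/
theorem lc_pow_lower (L A : ℕ) (h : A < 2 ^ L) :
    A ≤ ∑ i ∈ (range L).filter (fun i => 2 ^ i ≤ A), 2 ^ i := by
  induction L generalizing A with
  | zero => simp at h; omega
  | succ L ih =>
    rw [Finset.range_add_one, Finset.filter_insert]
    split_ifs with h1
    · rw [Finset.sum_insert (by simp)]
      have h2 : (range L).filter (fun i => 2 ^ i ≤ A) = range L := by
        rw [Finset.filter_eq_self]
        intro i hi
        exact le_trans (Nat.pow_le_pow_right (by norm_num) (by simpa using (Finset.mem_range.1 hi).le)) h1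
      rw [h2]
      have h3 : ∑ i ∈ range L, 2 ^ i = 2 ^ L - 1 := by
        rw [Nat.geomSum_eq (by norm_num)]; simp
      rw [h3]
      have : 1 ≤ 2 ^ L := Nat.one_le_two_pow
      rw [pow_succ] at h
      omega
    · exact ih A (by omega)

/-- `∑_{2^i < X} 2^i ≤ 2 X`. -/
theorem lc_pow_upper (L X : ℕ) :
    ∑ i ∈ (range L).filter (fun i => 2 ^ i < X), 2 ^ i ≤ 2 * X := by
  induction L with
  | zero => simp
  | succ L ih =>
    rw [Finset.range_add_one, Finset.filter_insert]
    split_ifs with h1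
    · rw [Finset.sum_insert (by simp)]
      have h2 : ∑ i ∈ (range L).filter (fun i => 2 ^ i < X), 2 ^ i ≤ ∑ i ∈ range L, 2 ^ i :=
        Finset.sum_le_sum_of_subset (Finset.filter_subset _ _)
      have h3 : ∑ i ∈ range L, 2 ^ i = 2 ^ L - 1 := by
        rw [Nat.geomSum_eq (by norm_num)]; simp
      have : 1 ≤ 2 ^ L := Nat.one_le_two_pow
      omega
    · exact ih

/-- The sum of `min A (2^i)` over the levels. -/
theorem lc_min_sum (L κ A X : ℕ) (hX : X ≤ 3 * 2 ^ κ * A) :
    ∑ i ∈ (range L).filter (fun i => 2 ^ i < X), min A (2 ^ i) ≤ (κ + 4) * A := by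
  rcases Nat.eq_zero_or_pos A with hA | hA
  · subst hA; simp
  have h1 : (range L).filter (fun i => 2 ^ i < X) ⊆
      (range L).filter (fun i => 2 ^ i < A + 1) ∪
        Ico (Nat.log 2 A + 1) (Nat.log 2 A + 1 + (κ + 2)) := by
    intro i hi
    simp only [mem_filter, mem_range, mem_union, mem_Ico] at hi ⊢
    by_cases h2 : 2 ^ i < A + 1
    · left; exact ⟨hi.1, h2⟩
    · right
      constructor
      · have h3 : A < 2 ^ i := by omega
        have := Nat.log_lt_of_lt_pow (by omega) h3
        omega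
      · have h4 : A < 2 ^ (Nat.log 2 A + 1) := Nat.lt_pow_succ_log_self (by norm_num) A
        have h5 : 2 ^ i < 2 ^ (Nat.log 2 A + 1 + (κ + 2)) := by
          calc 2 ^ i < X := hi.2
            _ ≤ 3 * 2 ^ κ * A := hX
            _ ≤ 2 ^ (κ + 2) * A := by
                rw [pow_add]; nlinarith only [Nat.one_le_two_pow (n := κ), Nat.zero_le (2 ^ κ * A), hX, hA, hi, h2]
            _ ≤ 2 ^ (κ + 2) * 2 ^ (Nat.log 2 A + 1) := Nat.mul_le_mul_left _ h4.le
            _ = 2 ^ (Nat.log 2 A + 1 + (κ + 2)) := by rw [← pow_add]; ring_nf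
        exact (Nat.pow_lt_pow_iff_right (by norm_num)).1 h5
  have h6 : ∑ i ∈ (range L).filter (fun i => 2 ^ i < A + 1), min A (2 ^ i) ≤ 2 * A := by
    -- the sum of the powers at most A is at most 2 A - 1
    have h7 : ∀ L : ℕ, ∑ i ∈ (range L).filter (fun i => 2 ^ i < A + 1), 2 ^ i ≤ 2 * A := by
      intro L
      induction L with
      | zero => simp
      | succ L ih =>
        rw [Finset.range_add_one, Finset.filter_insert]
        split_ifs with h1
        · rw [Finset.sum_insert (by simp)]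
          have h2 : ∑ i ∈ (range L).filter (fun i => 2 ^ i < A + 1), 2 ^ i ≤
              ∑ i ∈ range L, 2 ^ i := Finset.sum_le_sum_of_subset (Finset.filter_subset _ _)
          have h3 : ∑ i ∈ range L, 2 ^ i = 2 ^ L - 1 := by
            rw [Nat.geomSum_eq (by norm_num)]; simp
          have : 1 ≤ 2 ^ L := Nat.one_le_two_pow
          omega
        · exact ih
    exact le_trans (Finset.sum_le_sum (fun i _ => Nat.min_le_right _ _)) (h7 L)
  calc ∑ i ∈ (range L).filter (fun i => 2 ^ i < X), min A (2 ^ i)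
      ≤ ∑ i ∈ (range L).filter (fun i => 2 ^ i < A + 1) ∪
        Ico (Nat.log 2 A + 1) (Nat.log 2 A + 1 + (κ + 2)), min A (2 ^ i) :=
        Finset.sum_le_sum_of_subset h1
    _ ≤ ∑ i ∈ (range L).filter (fun i => 2 ^ i < A + 1), min A (2 ^ i) +
        ∑ i ∈ Ico (Nat.log 2 A + 1) (Nat.log 2 A + 1 + (κ + 2)), min A (2 ^ i) := by
        rw [← Finset.sum_union_inter]; omega
    _ ≤ 2 * A + (κ + 2) * A := by
        refine Nat.add_le_add h6 ?_
        refine le_trans (Finset.sum_le_card_nsmul _ _ A (fun i _ => Nat.min_le_left _ _)) ?_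
        simp
    _ = (κ + 4) * A := by ring

/-- An exponential beats a linear function. -/
theorem lc_exists_kappa (D : ℕ) : ∃ κ : ℕ, 3 ≤ κ ∧ D * (κ + 4) ≤ 2 ^ κ := by
  -- κ = 2 n + 8 with n = D: 2 ^ (2 n + 8) = 2^n * 2^(n+8) ≥ D * (κ + 4)
  refine ⟨2 * D + 8, by omega, ?_⟩
  have h1 : D ≤ 2 ^ D := (Nat.lt_two_pow_self).le
  have h2 : 2 * D + 8 + 4 ≤ 2 ^ (D + 8) := by
    rw [pow_add]
    have : 1 ≤ 2 ^ D := Nat.one_le_two_pow
    omega
  calc D * (2 * D + 8 + 4) ≤ 2 ^ D * 2 ^ (D + 8) := Nat.mul_le_mul h1 h2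
    _ = 2 ^ (2 * D + 8) := by rw [← pow_add]; ring_nf

namespace Cfg

variable {V : Type} [Fintype V] [DecidableEq V] (C : Cfg V) (G : Finset C.End)

/-- Number of ends spanning row `t` from below. -/
def lcUp (t : ℕ) : ℕ := (G.filter (fun a => C.r (C.e a) ≤ t ∧ t < a.1.val)).card

/-- Number of ends spanning row `t` from above. -/
def lcDn (t : ℕ) : ℕ := (G.filter (fun a => a.1.val < t ∧ t < C.r (C.e a))).card

/-- Number of ends spanning row `t`, for `t : ℕ`. -/
def lcA (t : ℕ) : ℕ := C.lcUp G t + C.lcDn G t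

/-- The maximum of the two neighbour cuts. -/
def lcB (t : ℕ) : ℕ := max (C.cross G (4 * (t : ℤ) + 1)) (C.cross G (4 * (t : ℤ) + 3))

/-- Number of removed ends of row `t`, for `t : ℕ`. -/
def lcRho (t : ℕ) : ℕ := if h : t < C.N then C.rho G ⟨t, h⟩ else 0

theorem lcA_card (t : ℕ) : C.lcA G t = (G.filter (fun a => (C.r (C.e a) ≤ t ∧ t < a.1.val) ∨
    (a.1.val < t ∧ t < C.r (C.e a)))).card := by
  unfold lcA lcUp lcDn
  rw [← Finset.card_union_of_disjoint]
  · congr 1
    ext a
    simp only [mem_filter, mem_union]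
    tauto
  · rw [Finset.disjoint_left]
    intro a ha hb
    simp only [mem_filter] at ha hb
    omega

theorem lcA_eq (t : Fin C.N) : C.A G t = C.lcA G t.val := by
  rw [lcA_card]
  rfl

/-- The ends in row `t` are at most two. -/
theorem lc_row_card (t : ℕ) : (G.filter (fun a => a.1.val = t)).card ≤ 2 := by
  by_cases ht : t < C.N
  · have : (G.filter (fun a => a.1.val = t)) ⊆ {(⟨t, ht⟩, false), (⟨t, ht⟩, true)} := by
      intro a ha
      simp only [mem_filter] at ha
      obtain ⟨⟨a1, h1⟩, b⟩ := a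
      simp only at ha
      obtain ⟨_, h2⟩ := ha
      subst h2
      cases b <;> simp
    exact le_trans (Finset.card_le_card this) Finset.card_le_two
  · have : (G.filter (fun a => a.1.val = t)) = ∅ := by
      rw [Finset.filter_eq_empty_iff]
      intro a _ h
      have := a.1.isLt
      omega
    rw [this]; simp

theorem lcA_le_cross1 (t : ℕ) : C.lcA G t ≤ C.cross G (4 * (t : ℤ) + 1) := by
  rw [lcA_card]
  unfold cross
  refine Finset.card_le_card ?_
  intro a ha
  simp only [mem_filter] at ha ⊢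
  refine ⟨ha.1, ?_⟩
  rcases ha.2 with h | h
  · left; omega
  · right; omega

theorem lcA_le_cross3 (t : ℕ) : C.lcA G t ≤ C.cross G (4 * (t : ℤ) + 3) := by
  rw [lcA_card]
  unfold cross
  refine Finset.card_le_card ?_
  intro a ha
  simp only [mem_filter] at ha ⊢
  refine ⟨ha.1, ?_⟩
  rcases ha.2 with h | h
  · left; omega
  · right; omega

theorem cross1_le (t : ℕ) : C.cross G (4 * (t : ℤ) + 1) ≤ C.lcA G t + 2 := by
  rw [lcA_card]
  refine le_trans ?_ (Nat.add_le_add_left (C.lc_row_card G t) _)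
  refine le_trans ?_ (Finset.card_union_le _ _)
  unfold cross
  refine Finset.card_le_card ?_
  intro a ha
  simp only [mem_filter, mem_union] at ha ⊢
  by_cases h : a.1.val = t
  · right; exact ⟨ha.1, h⟩
  · left
    refine ⟨ha.1, ?_⟩
    rcases ha.2 with h1 | h1
    · left; omega
    · right; omega

theorem cross3_le (t : ℕ) : C.cross G (4 * (t : ℤ) + 3) ≤ C.lcA G t + 2 := by
  rw [lcA_card]
  refine le_trans ?_ (Nat.add_le_add_left (C.lc_row_card G t) _)
  refine le_trans ?_ (Finset.card_union_le _ _)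
  unfold cross
  refine Finset.card_le_card ?_
  intro a ha
  simp only [mem_filter, mem_union] at ha ⊢
  by_cases h : a.1.val = t
  · right; exact ⟨ha.1, h⟩
  · left
    refine ⟨ha.1, ?_⟩
    rcases ha.2 with h1 | h1
    · left; omega
    · right; omega

theorem lcA_le_lcB (t : ℕ) : C.lcA G t ≤ C.lcB G t :=
  le_trans (C.lcA_le_cross1 G t) (le_max_left _ _)

theorem lcB_le (t : ℕ) : C.lcB G t ≤ C.lcA G t + 2 :=
  max_le (C.cross1_le G t) (C.cross3_le G t)

theorem lcUp_le (t : ℕ) : C.lcUp G t ≤ C.lcUp G (t + 1) + 2 := by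
  refine le_trans ?_ (Nat.add_le_add_left (C.lc_row_card G (t + 1)) _)
  refine le_trans ?_ (Finset.card_union_le _ _)
  refine Finset.card_le_card ?_
  intro a ha
  simp only [mem_filter, mem_union] at ha ⊢
  by_cases h : a.1.val = t + 1
  · right; exact ⟨ha.1, h⟩
  · left
    refine ⟨ha.1, ?_⟩
    omega

theorem lcDn_le (t : ℕ) : C.lcDn G (t + 1) ≤ C.lcDn G t + 2 := by
  refine le_trans ?_ (Nat.add_le_add_left (C.lc_row_card G t) _)
  refine le_trans ?_ (Finset.card_union_le _ _)
  refine Finset.card_le_card ?_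
  intro a ha
  simp only [mem_filter, mem_union] at ha ⊢
  by_cases h : a.1.val = t
  · right; exact ⟨ha.1, h⟩
  · left
    refine ⟨ha.1, ?_⟩
    omega

theorem lcUp_le_add (t j : ℕ) : C.lcUp G t ≤ C.lcUp G (t + j) + 2 * j := by
  induction j with
  | zero => simp
  | succ j ih =>
    have := C.lcUp_le G (t + j)
    rw [← add_assoc]
    omega

theorem lcDn_le_add (t j : ℕ) : C.lcDn G (t + j) ≤ C.lcDn G t + 2 * j := by
  induction j with
  | zero => simp
  | succ j ih =>
    have := C.lcDn_le G (t + j)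
    rw [← add_assoc]
    omega

theorem lcUp_eq_zero (t : ℕ) (ht : C.N ≤ t) : C.lcUp G t = 0 := by
  unfold lcUp
  rw [Finset.card_eq_zero, Finset.filter_eq_empty_iff]
  intro a _ h
  have := a.1.isLt
  omega

theorem lcDn_eq_zero (t : ℕ) (ht : C.N ≤ t) : C.lcDn G t = 0 := by
  unfold lcDn
  rw [Finset.card_eq_zero, Finset.filter_eq_empty_iff]
  intro a _ h
  have := C.hr (C.e a)
  omega

theorem lcA_eq_zero (t : ℕ) (ht : C.N ≤ t) : C.lcA G t = 0 := by
  unfold lcA
  rw [C.lcUp_eq_zero G t ht, C.lcDn_eq_zero G t ht]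

theorem cross_top : C.cross G (4 * (C.N : ℤ) + 1) = 0 := by
  unfold cross
  rw [Finset.card_eq_zero, Finset.filter_eq_empty_iff]
  intro a _ h
  have h1 := a.1.isLt
  have h2 := C.hr (C.e a)
  omega

theorem cross_bot : C.cross G (-1) = 0 := by
  unfold cross
  rw [Finset.card_eq_zero, Finset.filter_eq_empty_iff]
  intro a _ h
  omega

/-- The energy is the sum of the numbers of spanning ends. -/
theorem lc_En : C.En G = ∑ t ∈ range C.N, C.lcA G t := by
  rw [Finset.sum_range]
  unfold En len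
  simp_rw [← C.lcA_eq G]
  unfold A
  simp_rw [Finset.card_filter]
  rw [Finset.sum_comm]

theorem lc_rho_sum (h : ℕ → Prop) [DecidablePred h] :
    ∑ t ∈ (range C.N).filter h, C.lcRho G t = ∑ t ∈ univ.filter (fun t : Fin C.N => h t.val),
      C.rho G t := by
  rw [Finset.sum_filter, Finset.sum_filter, Finset.sum_range]
  refine Finset.sum_congr rfl ?_
  intro t _
  simp [lcRho]

/-- An end of `G` spanning row `t` gives `1 ≤ lcA G t`. -/
theorem lcA_pos (t : ℕ) (a : C.End) (ha : a ∈ G) (h : (C.r (C.e a) ≤ t ∧ t < a.1.val) ∨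
    (a.1.val < t ∧ t < C.r (C.e a))) : 1 ≤ C.lcA G t := by
  rw [lcA_card, Nat.one_le_iff_ne_zero, ← Nat.pos_iff_ne_zero, Finset.card_pos]
  exact ⟨a, by simp only [mem_filter]; exact ⟨ha, h⟩⟩

/-- Two other ends at the vertex of a given end. -/
theorem lc_two_others (hk : ∀ w, C.k G w = 0 ∨ 3 ≤ C.k G w) (a : C.End) (ha : a ∈ G) :
    ∃ b ∈ G, ∃ c ∈ G, C.e b = C.e a ∧ C.e c = C.e a ∧ b.1.val ≠ a.1.val ∧ c.1.val ≠ a.1.val ∧
      b.1.val ≠ c.1.val := by
  have h1 : a ∈ C.endsAt G (C.e a) := by simp [endsAt, ha]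
  have h2 : 3 ≤ (C.endsAt G (C.e a)).card := by
    rcases hk (C.e a) with h | h
    · exfalso
      unfold k at h
      rw [Finset.card_eq_zero] at h
      rw [h] at h1
      simp at h1
    · exact h
  have h3 : 2 ≤ ((C.endsAt G (C.e a)).erase a).card := by
    rw [Finset.card_erase_of_mem h1]; omega
  obtain ⟨b, hb, c, hc, hbc⟩ := Finset.one_lt_card.1 (show 1 < ((C.endsAt G (C.e a)).erase a).card by omega)
  -- two different ends at the same vertex have different rows
  have key : ∀ u v : C.End, C.e u = C.e v → u ≠ v → u.1.val ≠ v.1.val := by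
    intro u v huv hne h
    obtain ⟨u1, u2⟩ := u
    obtain ⟨v1, v2⟩ := v
    have h4 : u1 = v1 := Fin.ext h
    subst h4
    have h5 := C.hne u1
    cases u2 <;> cases v2 <;> simp_all
  rw [Finset.mem_erase] at hb hc
  simp only [endsAt, mem_filter] at hb hc
  exact ⟨b, hb.2.1, c, hc.2.1, hb.2.2, hc.2.2, key _ _ hb.2.2 hb.1, key _ _ hc.2.2 hc.1,
    key _ _ (hb.2.2.trans hc.2.2.symm) hbc⟩

theorem lc_F2 (hk : ∀ w, C.k G w = 0 ∨ 3 ≤ C.k G w) (t : ℕ) (hB : 1 ≤ C.lcB G t) :
    1 ≤ C.lcA G t ∨ 1 ≤ C.lcA G (t + 1) ∨ (1 ≤ t ∧ 1 ≤ C.lcA G (t - 1)) := by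
  by_contra hcon
  push Not at hcon
  obtain ⟨hc0, hc1, hc2⟩ := hcon
  have hno : ∀ a ∈ G, ¬ ((C.r (C.e a) ≤ t ∧ t < a.1.val) ∨ (a.1.val < t ∧ t < C.r (C.e a))) := by
    intro a ha h
    have := C.lcA_pos G t a ha h
    omega
  have hno1 : ∀ a ∈ G, ¬ ((C.r (C.e a) ≤ t + 1 ∧ t + 1 < a.1.val) ∨
      (a.1.val < t + 1 ∧ t + 1 < C.r (C.e a))) := by
    intro a ha h
    have := C.lcA_pos G (t + 1) a ha h
    omega
  have hno2 : 1 ≤ t → ∀ a ∈ G, ¬ ((C.r (C.e a) ≤ t - 1 ∧ t - 1 < a.1.val) ∨
      (a.1.val < t - 1 ∧ t - 1 < C.r (C.e a))) := by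
    intro ht a ha h
    have := C.lcA_pos G (t - 1) a ha h
    have := hc2 ht
    omega
  have h1 : 1 ≤ C.cross G (4 * (t : ℤ) + 1) ∨ 1 ≤ C.cross G (4 * (t : ℤ) + 3) := by
    unfold lcB at hB
    rcases le_max_iff.1 hB with h | h
    · left; exact h
    · right; exact h
  rcases h1 with h1 | h1
  · unfold cross at h1
    obtain ⟨a, ha⟩ := Finset.card_pos.1 (show 0 < _ from h1)
    simp only [mem_filter] at ha
    obtain ⟨haG, ha⟩ := ha
    obtain ⟨b, hb, c, hc, h2, h3, h4, h5, h6⟩ := C.lc_two_others G hk a haG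
    have ea := hno a haG
    have eb := hno b hb
    have ec := hno c hc
    rw [h2] at eb
    rw [h3] at ec
    have ht : 1 ≤ t := by omega
    have ea2 := hno2 ht a haG
    have eb2 := hno2 ht b hb
    have ec2 := hno2 ht c hc
    rw [h2] at eb2
    rw [h3] at ec2
    omega
  · unfold cross at h1
    obtain ⟨a, ha⟩ := Finset.card_pos.1 (show 0 < _ from h1)
    simp only [mem_filter] at ha
    obtain ⟨haG, ha⟩ := ha
    obtain ⟨b, hb, c, hc, h2, h3, h4, h5, h6⟩ := C.lc_two_others G hk a haG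
    have ea := hno a haG
    have eb := hno b hb
    have ec := hno c hc
    rw [h2] at eb
    rw [h3] at ec
    have ea2 := hno1 a haG
    have eb2 := hno1 b hb
    have ec2 := hno1 c hc
    rw [h2] at eb2
    rw [h3] at ec2
    omega

/-- The sum of the cuts is at most seven times the energy. -/
theorem lc_sumB (hk : ∀ w, C.k G w = 0 ∨ 3 ≤ C.k G w) :
    ∑ t ∈ range C.N, C.lcB G t ≤ 7 * C.En G := by
  have h1 : ∀ t, C.lcB G t ≤ C.lcA G t + 2 * (min (C.lcA G t) 1 + min (C.lcA G (t + 1)) 1 +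
      (if 1 ≤ t then min (C.lcA G (t - 1)) 1 else 0)) := by
    intro t
    rcases Nat.eq_zero_or_pos (C.lcB G t) with h | h
    · omega
    · have h2 := C.lcB_le G t
      rcases C.lc_F2 G hk t h with h3 | h3 | ⟨h3, h4⟩
      · have : min (C.lcA G t) 1 = 1 := by omega
        omega
      · have : min (C.lcA G (t + 1)) 1 = 1 := by omega
        omega
      · rw [if_pos h3]
        have : min (C.lcA G (t - 1)) 1 = 1 := by omega
        omega
  have h2 : ∑ t ∈ range C.N, C.lcA G (t + 1) ≤ C.En G := by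
    rw [C.lc_En G]
    have h3 : ∑ t ∈ range (C.N + 1), C.lcA G t = ∑ t ∈ range C.N, C.lcA G t := by
      rw [Finset.sum_range_succ, C.lcA_eq_zero G C.N le_rfl]; rfl
    rw [Finset.sum_range_succ'] at h3
    omega
  have h3 : ∑ t ∈ range C.N, (if 1 ≤ t then C.lcA G (t - 1) else 0) ≤ C.En G := by
    rw [C.lc_En G]
    generalize C.N = n
    cases n with
    | zero => simp
    | succ n =>
      rw [Finset.sum_range_succ', Finset.sum_range_succ (fun t => C.lcA G t)]
      simp
  calc ∑ t ∈ range C.N, C.lcB G t ≤ ∑ t ∈ range C.N, (C.lcA G t + 2 * (C.lcA G t +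
        C.lcA G (t + 1) + (if 1 ≤ t then C.lcA G (t - 1) else 0))) := by
        refine Finset.sum_le_sum (fun t _ => le_trans (h1 t) ?_)
        split_ifs <;> omega
    _ ≤ 7 * C.En G := by
        rw [Finset.sum_add_distrib, ← Finset.mul_sum, Finset.sum_add_distrib,
          Finset.sum_add_distrib, ← C.lc_En G]
        omega

/-- F5: an interval with many spanned rows near a high row. -/
theorem lc_F5 (K lam s e t0 : ℕ) (hK : 5 ≤ K) (hlam : 1 ≤ lam) (hs : s ≤ t0) (he : t0 < e)
    (_ : e ≤ C.N) (hA : lam ≤ C.lcA G t0)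
    (hse : s = 0 ∨ ¬ lam < K * C.lcB G (s - 1)) (hee : e = C.N ∨ ¬ lam < K * C.lcB G e) :
    lam ^ 2 ≤ 32 * ∑ t ∈ Ico s e, min (C.lcA G t) lam := by
  -- the rows with many spanning ends
  have big : ∀ t, lam ≤ 4 * C.lcA G t → lam < K * C.lcB G t := by
    intro t ht
    have h1 := C.lcA_le_lcB G t
    nlinarith only [hK, hlam, ht, h1]
  have hN : ∀ t, lam ≤ 4 * C.lcA G t → t < C.N := by
    intro t ht
    by_contra hc
    have := C.lcA_eq_zero G t (by omega)
    omega
  set m := lam / 8 with hm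
  have hm1 : 8 * m ≤ lam := by omega
  have hm2 : lam < 8 * (m + 1) := by omega
  have fin : ∀ I : Finset ℕ, I ⊆ Ico s e → I.card = m + 1 → (∀ t ∈ I, lam ≤ 4 * C.lcA G t) →
      lam ^ 2 ≤ 32 * ∑ t ∈ Ico s e, min (C.lcA G t) lam := by
    intro I hI hc hb
    have h1 : (m + 1) * lam ≤ 4 * ∑ t ∈ I, min (C.lcA G t) lam := by
      rw [Finset.mul_sum, ← hc, ← smul_eq_mul, ← Finset.sum_const]
      refine Finset.sum_le_sum (fun t ht => ?_)
      have := hb t ht
      omega
    have h2 : ∑ t ∈ I, min (C.lcA G t) lam ≤ ∑ t ∈ Ico s e, min (C.lcA G t) lam :=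
      Finset.sum_le_sum_of_subset hI
    nlinarith only [hlam, h1, h2, hm2]
  have hA' : lam ≤ C.lcUp G t0 + C.lcDn G t0 := hA
  rcases Nat.lt_or_ge (C.lcDn G t0) (C.lcUp G t0) with hcase | hcase
  · have h1 : ∀ j, j ≤ m → lam ≤ 4 * C.lcA G (t0 + j) := by
      intro j hj
      have h2 := C.lcUp_le_add G t0 j
      unfold lcA
      omega
    have h3 : ∀ j, j ≤ m → t0 + j < e := by
      intro j
      induction j with
      | zero => intro _; simpa using he
      | succ j ih =>
        intro hj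
        have h4 := ih (by omega)
        by_contra hc
        have h5 : e = t0 + (j + 1) := by omega
        rcases hee with h6 | h6
        · have := hN _ (h1 _ hj)
          omega
        · apply h6
          rw [h5]
          exact big _ (h1 _ hj)
    refine fin (Ico t0 (t0 + (m + 1))) ?_ (by simp) ?_
    · intro t ht
      rw [mem_Ico] at ht ⊢
      have := h3 (t - t0) (by omega)
      omega
    · intro t ht
      rw [mem_Ico] at ht
      have := h1 (t - t0) (by omega)
      rwa [show t0 + (t - t0) = t by omega] at this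
  · have h1 : ∀ j, j ≤ m → j ≤ t0 → lam ≤ 4 * C.lcA G (t0 - j) := by
      intro j hj hj2
      have h2 := C.lcDn_le_add G (t0 - j) j
      rw [show t0 - j + j = t0 by omega] at h2
      unfold lcA
      omega
    have h3 : ∀ j, j ≤ m → s + j ≤ t0 := by
      intro j
      induction j with
      | zero => intro _; simpa using hs
      | succ j ih =>
        intro hj
        have h4 := ih (by omega)
        by_contra hc
        have h5 : s = t0 - j := by omega
        -- the row `s` has many ends from above, so `s - 1` has too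
        have h7 : 1 ≤ C.lcDn G (t0 - j) := by
          have h2 := C.lcDn_le_add G (t0 - j) j
          rw [show t0 - j + j = t0 by omega] at h2
          omega
        have h8 : 1 ≤ s := by
          rw [← h5] at h7
          unfold lcDn at h7
          obtain ⟨a, ha⟩ := Finset.card_pos.1 (show 0 < _ from h7)
          simp only [mem_filter] at ha
          omega
        rcases hse with h6 | h6
        · omega
        · apply h6
          rw [show s - 1 = t0 - (j + 1) by omega]
          exact big _ (h1 _ hj (by omega))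
    have hs' := h3 m le_rfl
    refine fin (Ico (t0 - m) (t0 + 1)) ?_ (by simp; omega) ?_
    · intro t ht
      rw [mem_Ico] at ht ⊢
      omega
    · intro t ht
      rw [mem_Ico] at ht
      have := h1 (t0 - t) (by omega) (by omega)
      rwa [show t0 - (t0 - t) = t by omega] at this

/-- Rows in `Y` have no crossing cut. -/
theorem lcB_Y (Y : Finset (Fin C.N)) (hF : C.Free G Y) (t : Fin C.N) (ht : t ∈ Y) :
    C.lcB G t.val = 0 := by
  have key : ∀ a ∈ G, a.1.val ≠ t.val ∧ ¬ C.Spans a t := by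
    intro a ha
    obtain ⟨h1, h2⟩ := hF a ha
    refine ⟨?_, h2 t ht⟩
    intro h
    apply h1
    have : a.1 = t := Fin.ext h
    rw [this]; exact ht
  unfold lcB
  rw [Nat.max_eq_zero_iff]
  unfold cross
  rw [Finset.card_eq_zero, Finset.card_eq_zero, Finset.filter_eq_empty_iff,
    Finset.filter_eq_empty_iff]
  constructor
  · intro a ha h
    obtain ⟨h1, h2⟩ := key a ha
    unfold Spans at h2
    omega
  · intro a ha h
    obtain ⟨h1, h2⟩ := key a ha
    unfold Spans at h2
    omega

theorem lc_rowsIn (s e : ℕ) (F : ℕ → ℕ) (_ : e ≤ C.N) :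
    ∑ t ∈ C.rowsIn (4 * (s : ℤ) - 1) (4 * (e : ℤ) + 1), F t.val = ∑ t ∈ Ico s e, F t := by
  unfold rowsIn
  rw [Finset.sum_filter]
  rw [← Finset.sum_range (fun t => if (4 * (s : ℤ) - 1 < 4 * (t : ℤ) + 2 ∧
    4 * (t : ℤ) + 2 < 4 * (e : ℤ) + 1) then F t else 0)]
  rw [← Finset.sum_filter]
  refine Finset.sum_congr ?_ (fun _ _ => rfl)
  ext t
  simp only [mem_filter, mem_range, mem_Ico]
  omega

/-- The bound on one level. -/
theorem lc_level (q M K lam : ℕ) (Y : Finset (Fin C.N)) (hK : 5 ≤ K) (hlam : 1 ≤ lam)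
    (hF : C.Free G Y) (hfew : C.Few q M G Y) :
    K * M * lam * ∑ t ∈ (range C.N).filter (fun t => lam ≤ C.lcA G t), C.lcRho G t ≤
      ∑ t ∈ (range C.N).filter (fun t => lam < K * C.lcB G t),
        (K * lam + 128 * M * q * min (C.lcA G t) lam) := by
  have hsub : ∀ t, lam ≤ C.lcA G t → lam < K * C.lcB G t := by
    intro t ht
    have h1 := C.lcA_le_lcB G t
    nlinarith only [hK, hlam, ht, h1]
  have h1 : K * M * lam * ∑ t ∈ (range C.N).filter (fun t => lam ≤ C.lcA G t), C.lcRho G t =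
      ∑ t ∈ (Ico 0 C.N).filter (fun t => lam < K * C.lcB G t),
        (if lam ≤ C.lcA G t then K * M * lam * C.lcRho G t else 0) := by
    rw [← Finset.sum_filter, Finset.filter_filter, Finset.mul_sum, Finset.range_eq_Ico]
    refine Finset.sum_congr ?_ (fun _ _ => rfl)
    ext t
    simp only [mem_filter, mem_Ico]
    constructor
    · rintro ⟨h1, h2⟩; exact ⟨h1, hsub t h2, h2⟩
    · rintro ⟨h1, _, h2⟩; exact ⟨h1, h2⟩
  rw [h1, Finset.range_eq_Ico]
  refine lc_decomp (fun t => lam < K * C.lcB G t) _ _ C.N _ 0 rfl ?_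
  intro s e _ hse heN hall hs he
  by_cases hex : ∃ t0, s ≤ t0 ∧ t0 < e ∧ lam ≤ C.lcA G t0
  · obtain ⟨t0, h2, h3, h4⟩ := hex
    have hF5 := C.lc_F5 G K lam s e t0 hK hlam h2 h3 heN h4 hs he
    have hcx : K * C.cross G (4 * (s : ℤ) - 1) ≤ lam := by
      rcases hs with hs | hs
      · subst hs
        have : (4 * ((0 : ℕ) : ℤ) - 1) = -1 := by norm_num
        rw [this, C.cross_bot G]
        simp
      · by_cases hs0 : s = 0
        · subst hs0
          have : (4 * ((0 : ℕ) : ℤ) - 1) = -1 := by norm_num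
          rw [this, C.cross_bot G]
          simp
        · have h5 : C.cross G (4 * (s : ℤ) - 1) ≤ C.lcB G (s - 1) := by
            unfold lcB
            have : (4 * (s : ℤ) - 1) = 4 * ((s - 1 : ℕ) : ℤ) + 3 := by
              rw [Nat.cast_sub (by omega)]; push_cast; ring
            rw [this]
            exact le_max_right _ _
          have h6 : K * C.cross G (4 * (s : ℤ) - 1) ≤ K * C.lcB G (s - 1) :=
            Nat.mul_le_mul_left _ h5
          omega
    have hcy : K * C.cross G (4 * (e : ℤ) + 1) ≤ lam := by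
      rcases he with he | he
      · rw [he, C.cross_top G]
        simp
      · have h5 : C.cross G (4 * (e : ℤ) + 1) ≤ C.lcB G e := le_max_left _ _
        have h6 : K * C.cross G (4 * (e : ℤ) + 1) ≤ K * C.lcB G e := Nat.mul_le_mul_left _ h5
        omega
    have hne : (C.rowsIn (4 * (s : ℤ) - 1) (4 * (e : ℤ) + 1)).Nonempty := by
      refine ⟨⟨s, by omega⟩, ?_⟩
      simp only [rowsIn, mem_filter, mem_univ, true_and]
      omega
    have hdis : Disjoint (C.rowsIn (4 * (s : ℤ) - 1) (4 * (e : ℤ) + 1)) Y := by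
      rw [Finset.disjoint_left]
      intro t ht htY
      simp only [rowsIn, mem_filter, mem_univ, true_and] at ht
      have h7 := hall t.val (by omega) (by omega)
      rw [C.lcB_Y G Y hF t htY] at h7
      omega
    have hfew' := hfew (4 * (s : ℤ) - 1) (4 * (e : ℤ) + 1) (by
      refine ⟨2 * s - 1, by ring⟩) ⟨2 * e, by ring⟩ hne hdis
    have hrho : ∑ t ∈ C.rowsIn (4 * (s : ℤ) - 1) (4 * (e : ℤ) + 1), C.rho G t =
        ∑ t ∈ Ico s e, C.lcRho G t := by
      rw [← C.lc_rowsIn s e _ heN]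
      refine Finset.sum_congr rfl (fun t _ => ?_)
      simp [lcRho]
    have hcard : (C.rowsIn (4 * (s : ℤ) - 1) (4 * (e : ℤ) + 1)).card = e - s := by
      rw [Finset.card_eq_sum_ones, C.lc_rowsIn s e (fun _ => 1) heN]
      simp
    rw [hrho, hcard] at hfew'
    have hl : ∑ t ∈ Ico s e, (if lam ≤ C.lcA G t then K * M * lam * C.lcRho G t else 0) ≤
        K * M * lam * ∑ t ∈ Ico s e, C.lcRho G t := by
      rw [Finset.mul_sum]
      refine Finset.sum_le_sum (fun t _ => ?_)
      split_ifs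
      · exact le_rfl
      · exact Nat.zero_le _
    refine le_trans hl ?_
    have hconst : ∑ t ∈ Ico s e, (K * lam + 128 * M * q * min (C.lcA G t) lam) =
        (e - s) * (K * lam) + 128 * M * q * ∑ t ∈ Ico s e, min (C.lcA G t) lam := by
      rw [Finset.sum_add_distrib, Finset.sum_const, Nat.card_Ico, smul_eq_mul, Finset.mul_sum]
    rw [hconst]
    generalize ∑ t ∈ Ico s e, C.lcRho G t = R at hfew' ⊢
    generalize ∑ t ∈ Ico s e, min (C.lcA G t) lam = S at hF5 ⊢
    generalize C.cross G (4 * (s : ℤ) - 1) = cx at hcx hfew'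
    generalize C.cross G (4 * (e : ℤ) + 1) = cy at hcy hfew'
    generalize e - s = u at hfew' ⊢
    have e1 : K * (M * R) ≤ K * (u + M * (2 * q * (cx + cy))) := Nat.mul_le_mul_left _ hfew'.le
    have e2 : K * (u + M * (2 * q * (cx + cy))) = K * u + 2 * (M * q) * (K * cx + K * cy) := by ring
    have e3 : 2 * (M * q) * (K * cx + K * cy) ≤ 2 * (M * q) * (lam + lam) :=
      Nat.mul_le_mul_left _ (by omega)
    have e4 : K * (M * R) ≤ K * u + 4 * (M * q) * lam := by
      calc K * (M * R) ≤ K * u + 2 * (M * q) * (K * cx + K * cy) := by rw [← e2]; exact e1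
        _ ≤ K * u + 2 * (M * q) * (lam + lam) := by omega
        _ = K * u + 4 * (M * q) * lam := by ring
    have e5 : lam * (K * (M * R)) ≤ lam * (K * u + 4 * (M * q) * lam) := Nat.mul_le_mul_left _ e4
    have e6 : 4 * (M * q) * lam ^ 2 ≤ 4 * (M * q) * (32 * S) := Nat.mul_le_mul_left _ hF5
    calc K * M * lam * R = lam * (K * (M * R)) := by ring
      _ ≤ lam * (K * u + 4 * (M * q) * lam) := e5
      _ = u * (K * lam) + 4 * (M * q) * lam ^ 2 := by ring
      _ ≤ u * (K * lam) + 4 * (M * q) * (32 * S) := by omega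
      _ = u * (K * lam) + 128 * M * q * S := by ring
  · push Not at hex
    have : ∑ t ∈ Ico s e, (if lam ≤ C.lcA G t then K * M * lam * C.lcRho G t else 0) = 0 := by
      refine Finset.sum_eq_zero (fun t ht => ?_)
      rw [mem_Ico] at ht
      rw [if_neg]
      have := hex t ht.1 ht.2
      omega
    rw [this]
    exact Nat.zero_le _

/-- The sum over all levels. -/
theorem lc_all (q M κ : ℕ) (Y : Finset (Fin C.N)) (hκ : 3 ≤ κ)
    (hk : ∀ w, C.k G w = 0 ∨ 3 ≤ C.k G w) (hF : C.Free G Y) (hfew : C.Few q M G Y) :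
    2 ^ κ * M * ∑ t ∈ range C.N, C.lcRho G t * C.lcA G t ≤
      (14 * (2 ^ κ) ^ 2 + 128 * M * q * (κ + 4)) * C.En G := by
  have hK : 5 ≤ 2 ^ κ := by
    calc 5 ≤ 2 ^ 3 := by norm_num
      _ ≤ 2 ^ κ := Nat.pow_le_pow_right (by norm_num) hκ
  -- a bound for all levels
  obtain ⟨L, hL⟩ : ∃ L : ℕ, ∀ t ∈ range C.N, C.lcA G t < 2 ^ L := by
    refine ⟨∑ t ∈ range C.N, C.lcA G t, fun t ht => ?_⟩
    refine lt_of_le_of_lt (Finset.single_le_sum (f := fun t => C.lcA G t)
      (fun _ _ => Nat.zero_le _) ht) Nat.lt_two_pow_self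
  have h1 : ∑ t ∈ range C.N, C.lcRho G t * C.lcA G t ≤
      ∑ i ∈ range L, 2 ^ i * ∑ t ∈ (range C.N).filter (fun t => 2 ^ i ≤ C.lcA G t),
        C.lcRho G t := by
    have h2 : ∀ t ∈ range C.N, C.lcRho G t * C.lcA G t ≤
        ∑ i ∈ range L, (if 2 ^ i ≤ C.lcA G t then 2 ^ i * C.lcRho G t else 0) := by
      intro t ht
      have h3 := lc_pow_lower L _ (hL t ht)
      rw [Finset.sum_filter] at h3
      calc C.lcRho G t * C.lcA G t ≤ C.lcRho G t * ∑ i ∈ range L,
            (if 2 ^ i ≤ C.lcA G t then 2 ^ i else 0) := Nat.mul_le_mul_left _ h3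
        _ = _ := by
          rw [Finset.mul_sum]
          refine Finset.sum_congr rfl (fun i _ => ?_)
          split_ifs <;> ring
    refine le_trans (Finset.sum_le_sum h2) ?_
    rw [Finset.sum_comm]
    refine Finset.sum_le_sum (fun i _ => ?_)
    rw [Finset.mul_sum, Finset.sum_filter]
  calc 2 ^ κ * M * ∑ t ∈ range C.N, C.lcRho G t * C.lcA G t
      ≤ 2 ^ κ * M * ∑ i ∈ range L, 2 ^ i *
          ∑ t ∈ (range C.N).filter (fun t => 2 ^ i ≤ C.lcA G t), C.lcRho G t :=
        Nat.mul_le_mul_left _ h1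
    _ = ∑ i ∈ range L, 2 ^ κ * M * 2 ^ i *
          ∑ t ∈ (range C.N).filter (fun t => 2 ^ i ≤ C.lcA G t), C.lcRho G t := by
        rw [Finset.mul_sum]
        refine Finset.sum_congr rfl (fun i _ => by ring)
    _ ≤ ∑ i ∈ range L, ∑ t ∈ (range C.N).filter (fun t => 2 ^ i < 2 ^ κ * C.lcB G t),
        (2 ^ κ * 2 ^ i + 128 * M * q * min (C.lcA G t) (2 ^ i)) :=
        Finset.sum_le_sum (fun i _ =>
          C.lc_level G q M (2 ^ κ) (2 ^ i) Y hK Nat.one_le_two_pow hF hfew)
    _ = ∑ t ∈ range C.N, ∑ i ∈ (range L).filter (fun i => 2 ^ i < 2 ^ κ * C.lcB G t),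
        (2 ^ κ * 2 ^ i + 128 * M * q * min (C.lcA G t) (2 ^ i)) := by
        simp_rw [Finset.sum_filter]
        rw [Finset.sum_comm]
    _ ≤ ∑ t ∈ range C.N, (2 ^ κ * (2 * (2 ^ κ * C.lcB G t)) +
        128 * M * q * ((κ + 4) * C.lcA G t)) := by
        refine Finset.sum_le_sum (fun t _ => ?_)
        rw [Finset.sum_add_distrib, ← Finset.mul_sum, ← Finset.mul_sum]
        refine Nat.add_le_add (Nat.mul_le_mul_left _ (lc_pow_upper _ _)) ?_
        rcases Nat.eq_zero_or_pos (C.lcA G t) with h0 | h0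
        · rw [h0]; simp
        · refine Nat.mul_le_mul_left _ (lc_min_sum L κ _ _ ?_)
          have h5 := C.lcB_le G t
          have h6 : C.lcB G t ≤ 3 * C.lcA G t := by omega
          calc 2 ^ κ * C.lcB G t ≤ 2 ^ κ * (3 * C.lcA G t) := Nat.mul_le_mul_left _ h6
            _ = 3 * 2 ^ κ * C.lcA G t := by ring
    _ = 2 * (2 ^ κ) ^ 2 * ∑ t ∈ range C.N, C.lcB G t + 128 * M * q * (κ + 4) *
        ∑ t ∈ range C.N, C.lcA G t := by
        rw [Finset.sum_add_distrib, Finset.mul_sum, Finset.mul_sum]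
        congr 1
        · refine Finset.sum_congr rfl (fun t _ => by ring)
        · refine Finset.sum_congr rfl (fun t _ => by ring)
    _ ≤ 2 * (2 ^ κ) ^ 2 * (7 * C.En G) + 128 * M * q * (κ + 4) * C.En G := by
        rw [← C.lc_En G]
        exact Nat.add_le_add_right (Nat.mul_le_mul_left _ (C.lc_sumB G hk)) _
    _ = _ := by ring

/-- K3. The layer cake lemma. -/
theorem layer_cake (q B : ℕ) : ∃ M : ℕ, 0 < M ∧ ∀ (V : Type) [Fintype V] [DecidableEq V]
    (C : Cfg V) (G : Finset C.End) (Y : Finset (Fin C.N)),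
    (∀ w, C.k G w = 0 ∨ 3 ≤ C.k G w) → C.Free G Y → C.Few q M G Y →
    B * ∑ t ∈ univ \ Y, C.rho G t * C.A G t ≤ C.En G := by
  obtain ⟨κ, hκ3, hκ⟩ := lc_exists_kappa (256 * B * q)
  refine ⟨28 * 2 ^ κ * B + 1, by omega, ?_⟩
  intro V _ _ C G Y hk hF hfew
  set M := 28 * 2 ^ κ * B + 1 with hM
  have h1 := C.lc_all G q M κ Y hκ3 hk hF hfew
  have h2 : ∑ t ∈ univ \ Y, C.rho G t * C.A G t ≤
      ∑ t ∈ range C.N, C.lcRho G t * C.lcA G t := by
    rw [Finset.sum_range]
    refine le_trans (Finset.sum_le_sum_of_subset (Finset.subset_univ _)) ?_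
    refine Finset.sum_le_sum (fun t _ => ?_)
    rw [C.lcA_eq G]
    simp [lcRho]
  generalize ∑ t ∈ univ \ Y, C.rho G t * C.A G t = S at h2 ⊢
  generalize ∑ t ∈ range C.N, C.lcRho G t * C.lcA G t = S' at h1 h2
  generalize C.En G = E at h1 ⊢
  have hpow : 0 < 2 ^ κ := by positivity
  generalize 2 ^ κ = K at h1 hκ hM hpow
  have hMpos : 0 < M := by omega
  -- 2 K M (B S) ≤ 2 K M E
  have h3 : 2 * K * M * (B * S) ≤ 2 * K * M * E := by
    have e1 : 2 * K * M * (B * S) ≤ 2 * B * (K * M * S') := by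
      have : K * M * S ≤ K * M * S' := Nat.mul_le_mul_left _ h2
      calc 2 * K * M * (B * S) = 2 * B * (K * M * S) := by ring
        _ ≤ _ := Nat.mul_le_mul_left _ this
    have e2 : 2 * B * (K * M * S') ≤ 2 * B * ((14 * K ^ 2 + 128 * M * q * (κ + 4)) * E) :=
      Nat.mul_le_mul_left _ h1
    have e3 : 2 * B * (14 * K ^ 2 + 128 * M * q * (κ + 4)) ≤ 2 * K * M := by
      have e4 : 28 * B * K ≤ M := by rw [hM]; nlinarith only []
      have e5 : 28 * B * K * K ≤ M * K := Nat.mul_le_mul_right _ e4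
      have e6 : M * (256 * B * q * (κ + 4)) ≤ M * K := Nat.mul_le_mul_left _ hκ
      nlinarith only [e5, e6]
    calc 2 * K * M * (B * S) ≤ _ := e1
      _ ≤ _ := e2
      _ = 2 * B * (14 * K ^ 2 + 128 * M * q * (κ + 4)) * E := by ring
      _ ≤ _ := Nat.mul_le_mul_right _ e3
  exact Nat.le_of_mul_le_mul_left h3 (by positivity)

end Cfg

end MP60f107

end

section

/-!
K4. The extremal (greedy) argument, from the layer cake lemma.
-/

namespace MP60f107

open Finset

namespace Cfg

variable {V : Type} [Fintype V] [DecidableEq V] (C : Cfg V)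

/-- The vertices with an end in `G`. -/
def alive (G : Finset C.End) : Finset V := univ.filter (fun w => C.k G w ≠ 0)

/-- The potential. -/
def Pot (q : ℕ) (Y : Finset (Fin C.N)) (G : Finset C.End) : ℕ :=
  q * ∑ w ∈ C.alive G, C.g G w + ∑ t ∈ univ \ Y, C.rho G t

theorem k_sdiff {G H : Finset C.End} (h : H ⊆ G) (w : V) :
    C.k (univ \ H) w = C.k (univ \ G) w + C.k (G \ H) w := by
  unfold k endsAt
  rw [← card_union_of_disjoint]
  · congr 1
    ext a
    simp only [mem_filter, mem_sdiff, mem_univ, true_and, mem_union]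
    constructor
    · rintro ⟨h1, h2⟩
      by_cases ha : a ∈ G
      · exact Or.inr ⟨⟨ha, h1⟩, h2⟩
      · exact Or.inl ⟨ha, h2⟩
    · rintro (⟨h1, h2⟩ | ⟨⟨h1, h3⟩, h2⟩)
      · exact ⟨fun h' => h1 (h h'), h2⟩
      · exact ⟨h3, h2⟩
  · rw [disjoint_left]
    intro a ha hb
    simp only [mem_filter, mem_sdiff, mem_univ, true_and] at ha hb
    exact ha.1 hb.1.1

theorem g_sdiff {G H : Finset C.End} (h : H ⊆ G) (w : V) :
    C.g H w = C.g G w + C.k (G \ H) w := by
  unfold g
  rw [C.k_sdiff h w]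
  omega

theorem rho_sdiff {G H : Finset C.End} (h : H ⊆ G) (t : Fin C.N) :
    C.rho H t = C.rho G t + ((G \ H).filter (fun a => a.1 = t)).card := by
  unfold rho
  have h1 : ((G \ H).filter (fun a => a.1 = t)).card =
      (univ.filter (fun b : Bool => (t, b) ∈ G \ H)).card := by
    symm
    apply card_bij (fun b _ => (t, b))
    · intro b hb
      simp only [mem_filter, mem_univ, true_and] at hb
      simp only [mem_filter]
      exact ⟨hb, trivial⟩
    · intro b _ b' _ hbb
      exact (Prod.ext_iff.1 hbb).2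
    · rintro ⟨t', b⟩ ha
      simp only [mem_filter] at ha
      obtain ⟨ha, rfl⟩ := ha
      exact ⟨b, by simpa using ha, rfl⟩
  rw [h1, ← card_union_of_disjoint]
  · congr 1
    ext b
    simp only [mem_filter, mem_sdiff, mem_univ, true_and, mem_union]
    constructor
    · intro h2
      by_cases ha : (t, b) ∈ G
      · exact Or.inr ⟨ha, h2⟩
      · exact Or.inl ha
    · rintro (h2 | ⟨_, h2⟩)
      · exact fun h' => h2 (h h')
      · exact h2
  · rw [disjoint_left]
    intro b ha hb
    simp only [mem_filter, mem_sdiff, mem_univ, true_and] at ha hb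
    exact ha hb.1

theorem sum_k (H : Finset C.End) (P : Finset V) :
    ∑ w ∈ P, C.k H w = (H.filter (fun a => C.e a ∈ P)).card := by
  unfold k endsAt
  rw [← card_biUnion]
  · congr 1
    ext a
    simp only [mem_biUnion, mem_filter]
    constructor
    · rintro ⟨w, hw, ha, rfl⟩
      exact ⟨ha, hw⟩
    · rintro ⟨ha, hw⟩
      exact ⟨_, hw, ha, rfl⟩
  · intro w _ w' _ hne
    rw [Function.onFun, disjoint_left]
    intro a ha hb
    simp only [mem_filter] at ha hb
    exact hne (ha.2.symm.trans hb.2)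

theorem sum_rows (H : Finset C.End) (P : Finset (Fin C.N)) :
    ∑ t ∈ P, (H.filter (fun a => a.1 = t)).card = (H.filter (fun a => a.1 ∈ P)).card := by
  rw [← card_biUnion]
  · congr 1
    ext a
    simp only [mem_biUnion, mem_filter]
    constructor
    · rintro ⟨w, hw, ha, rfl⟩
      exact ⟨ha, hw⟩
    · rintro ⟨ha, hw⟩
      exact ⟨_, hw, ha, rfl⟩
  · intro w _ w' _ hne
    rw [Function.onFun, disjoint_left]
    intro a ha hb
    simp only [mem_filter] at ha hb
    exact hne (ha.2.symm.trans hb.2)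

/-- The change of the potential. -/
theorem Pot_sdiff (q : ℕ) (Y : Finset (Fin C.N)) {G H : Finset C.End} (h : H ⊆ G) :
    C.Pot q Y H = q * ∑ w ∈ C.alive H, C.g G w + ∑ t ∈ univ \ Y, C.rho G t
      + (q * ((G \ H).filter (fun a => C.e a ∈ C.alive H)).card
      + ((G \ H).filter (fun a => a.1 ∈ univ \ Y)).card) := by
  unfold Pot
  rw [← C.sum_k, ← C.sum_rows]
  have e1 : ∑ w ∈ C.alive H, C.g H w = ∑ w ∈ C.alive H, C.g G w
      + ∑ w ∈ C.alive H, C.k (G \ H) w := by
    rw [← sum_add_distrib]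
    exact sum_congr rfl (fun w _ => C.g_sdiff h w)
  have e2 : ∑ t ∈ univ \ Y, C.rho H t = ∑ t ∈ univ \ Y, C.rho G t
      + ∑ t ∈ univ \ Y, ((G \ H).filter (fun a => a.1 = t)).card := by
    rw [← sum_add_distrib]
    exact sum_congr rfl (fun t _ => C.rho_sdiff h t)
  rw [e1, e2]
  ring

theorem alive_mono {G H : Finset C.End} (h : H ⊆ G) : C.alive H ⊆ C.alive G := by
  intro w hw
  unfold alive at *
  simp only [mem_filter, mem_univ, true_and] at *
  intro h0
  apply hw
  unfold k at *
  rw [card_eq_zero] at *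
  rw [← subset_empty, ← h0]
  unfold endsAt
  exact filter_subset_filter _ h

/-- The kill step decreases the potential. -/
theorem Pot_kill (q : ℕ) (Y : Finset (Fin C.N)) (G : Finset C.End) (w : V)
    (hw : C.k G w ≠ 0) (hq : C.k G w < q * C.g G w) :
    C.Pot q Y (G.filter (fun a => C.e a ≠ w)) ≤ C.Pot q Y G := by
  set H := G.filter (fun a => C.e a ≠ w) with hH
  have hsub : H ⊆ G := filter_subset _ _
  rw [C.Pot_sdiff q Y hsub]
  have hk : C.k H w = 0 := by
    unfold k endsAt
    rw [card_eq_zero, filter_eq_empty_iff]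
    intro a ha hew
    rw [hH, mem_filter] at ha
    exact ha.2 hew
  have hwH : w ∉ C.alive H := by
    unfold alive
    simp [hk]
  have hwG : w ∈ C.alive G := by
    unfold alive
    simp [hw]
  have hsub2 : C.alive H ⊆ (C.alive G).erase w := by
    intro v hv
    rw [mem_erase]
    exact ⟨fun h => hwH (h ▸ hv), C.alive_mono hsub hv⟩
  have e1 : ∑ v ∈ C.alive H, C.g G v + C.g G w ≤ ∑ v ∈ C.alive G, C.g G v := by
    rw [← sum_erase_add _ _ hwG]
    exact Nat.add_le_add_right (sum_le_sum_of_subset hsub2) _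
  have e2 : ((G \ H).filter (fun a => C.e a ∈ C.alive H)).card = 0 := by
    rw [card_eq_zero, filter_eq_empty_iff]
    intro a ha hea
    rw [mem_sdiff, hH, mem_filter] at ha
    have : C.e a = w := by
      by_contra hne
      exact ha.2 ⟨ha.1, hne⟩
    exact hwH (this ▸ hea)
  have e3 : ((G \ H).filter (fun a => a.1 ∈ univ \ Y)).card ≤ C.k G w := by
    unfold k endsAt
    apply card_le_card
    intro a ha
    rw [mem_filter, mem_sdiff, hH, mem_filter] at ha
    rw [mem_filter]
    refine ⟨ha.1.1, ?_⟩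
    by_contra hne
    exact ha.1.2 ⟨ha.1.1, hne⟩
  rw [e2]
  unfold Pot
  have e4 : q * (∑ v ∈ C.alive H, C.g G v + C.g G w) ≤ q * ∑ v ∈ C.alive G, C.g G v :=
    Nat.mul_le_mul_left _ e1
  rw [mul_add] at e4
  omega

/-- The new set of ends when the rows between two cuts are excluded. -/
def cutEnds (G : Finset C.End) (x y : ℤ) : Finset C.End :=
  G.filter (fun a => ¬ (x < 4 * (C.r (C.e a) : ℤ) ∧ 4 * (C.r (C.e a) : ℤ) < y) ∧
    a.1 ∉ C.rowsIn x y ∧ ∀ t ∈ C.rowsIn x y, ¬ C.Spans a t)

theorem cutEnds_cross (G : Finset C.End) (x y : ℤ) (hx : Odd x) (hy : Odd y) :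
    ((G \ C.cutEnds G x y).filter
      (fun a => ¬ (x < 4 * (C.r (C.e a) : ℤ) ∧ 4 * (C.r (C.e a) : ℤ) < y) ∨
        a.1 ∉ C.rowsIn x y)).card ≤ C.cross G x + C.cross G y := by
  unfold cross
  refine le_trans ?_ (card_union_le _ _)
  apply card_le_card
  intro a ha
  simp only [mem_filter, mem_sdiff, cutEnds, not_and, not_forall, not_not, exists_prop,
    mem_union] at ha ⊢
  obtain ⟨⟨haG, h1⟩, h2⟩ := ha
  have h3 := h1 haG
  obtain ⟨x', hx'⟩ := hx
  obtain ⟨y', hy'⟩ := hy
  unfold rowsIn at h3 h2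
  simp only [mem_filter, mem_univ, true_and, not_and, not_lt, Spans] at h3 h2
  by_cases hv : x < 4 * (C.r (C.e a) : ℤ) ∧ 4 * (C.r (C.e a) : ℤ) < y
  · -- the vertex is inside, hence the row is outside
    have h4 : ¬ (x < 4 * (a.1.val : ℤ) + 2 ∧ 4 * (a.1.val : ℤ) + 2 < y) := by
      rcases h2 with h2 | h2
      · exact absurd hv.2 (not_lt.2 (h2 hv.1))
      · rintro ⟨h5, h6⟩
        exact absurd h6 (not_lt.2 (h2 h5))
    by_cases h5 : x < 4 * (a.1.val : ℤ) + 2
    · have h6 : y ≤ 4 * (a.1.val : ℤ) + 2 := by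
        by_contra h7
        exact h4 ⟨h5, not_le.1 h7⟩
      right
      refine ⟨haG, Or.inl ⟨hv.2, by omega⟩⟩
    · left
      refine ⟨haG, Or.inr ⟨by omega, hv.1⟩⟩
  · have h4 : 4 * (C.r (C.e a) : ℤ) ≤ x ∨ y ≤ 4 * (C.r (C.e a) : ℤ) := by
      by_contra h5
      push Not at h5
      exact hv h5
    have h5 : (x < 4 * (a.1.val : ℤ) + 2 ∧ 4 * (a.1.val : ℤ) + 2 < y) ∨
        ∃ t : Fin C.N, (x < 4 * (t.val : ℤ) + 2 ∧ 4 * (t.val : ℤ) + 2 < y) ∧
          ((C.r (C.e a) ≤ t.val ∧ t.val < a.1.val) ∨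
            (a.1.val < t.val ∧ t.val < C.r (C.e a))) := by
      by_cases h6 : x < 4 * (a.1.val : ℤ) + 2 ∧ 4 * (a.1.val : ℤ) + 2 < y
      · exact Or.inl h6
      · right
        obtain ⟨t, ht1, ht2⟩ := h3 (fun h7 => by
          by_contra h8
          exact hv ⟨h7, by omega⟩) (fun h7 => by
          by_contra h8
          exact h6 ⟨h7, by omega⟩)
        exact ⟨t, ht1, ht2⟩
    rcases h5 with ⟨h5, h6⟩ | ⟨t, ⟨h5, h6⟩, h7⟩
    · rcases h4 with h4 | h4
      · left; exact ⟨haG, Or.inl ⟨by omega, by omega⟩⟩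
      · right; exact ⟨haG, Or.inr ⟨by omega, by omega⟩⟩
    · rcases h4 with h4 | h4
      · left
        refine ⟨haG, Or.inl ⟨by omega, ?_⟩⟩
        omega
      · right
        refine ⟨haG, Or.inr ⟨?_, by omega⟩⟩
        omega

theorem Pot_cut (q : ℕ) (hq : 1 ≤ q) (Y : Finset (Fin C.N)) (G : Finset C.End) (x y : ℤ)
    (hx : Odd x) (hy : Odd y) (hdisj : Disjoint (C.rowsIn x y) Y) :
    C.Pot q (Y ∪ C.rowsIn x y) (C.cutEnds G x y) + ∑ t ∈ C.rowsIn x y, C.rho G t
      ≤ C.Pot q Y G + 2 * q * (C.cross G x + C.cross G y) := by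
  set H := C.cutEnds G x y with hH
  have hsub : H ⊆ G := filter_subset _ _
  rw [C.Pot_sdiff q _ hsub]
  have hc := C.cutEnds_cross G x y hx hy
  rw [← hH] at hc
  have e1 : ∑ w ∈ C.alive H, C.g G w ≤ ∑ w ∈ C.alive G, C.g G w :=
    sum_le_sum_of_subset (C.alive_mono hsub)
  have e2 : ((G \ H).filter (fun a => C.e a ∈ C.alive H)).card ≤ C.cross G x + C.cross G y := by
    refine le_trans (card_le_card ?_) hc
    intro a ha
    rw [mem_filter] at ha ⊢
    refine ⟨ha.1, Or.inl ?_⟩
    intro hin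
    have h1 := ha.2
    unfold alive at h1
    rw [mem_filter] at h1
    apply h1.2
    unfold k endsAt
    rw [card_eq_zero, filter_eq_empty_iff]
    intro b hb hbe
    rw [hH] at hb
    unfold cutEnds at hb
    rw [mem_filter, hbe] at hb
    exact hb.2.1 hin
  have e3 : ((G \ H).filter (fun a => a.1 ∈ univ \ (Y ∪ C.rowsIn x y))).card ≤
      C.cross G x + C.cross G y := by
    refine le_trans (card_le_card ?_) hc
    intro a ha
    rw [mem_filter] at ha ⊢
    refine ⟨ha.1, Or.inr ?_⟩
    intro hin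
    have h1 := ha.2
    rw [mem_sdiff, mem_union] at h1
    exact h1.2 (Or.inr hin)
  have e4 : ∑ t ∈ univ \ (Y ∪ C.rowsIn x y), C.rho G t + ∑ t ∈ C.rowsIn x y, C.rho G t
      = ∑ t ∈ univ \ Y, C.rho G t := by
    rw [← sum_union]
    · congr 1
      ext t
      rw [disjoint_left] at hdisj
      have := @hdisj t
      simp only [mem_union, mem_sdiff, mem_univ, true_and, not_or]
      tauto
    · rw [disjoint_left]
      intro t ht ht'
      rw [mem_sdiff, mem_union] at ht
      exact ht.2 (Or.inr ht')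
  unfold Pot
  have e5 : q * ∑ w ∈ C.alive H, C.g G w ≤ q * ∑ w ∈ C.alive G, C.g G w :=
    Nat.mul_le_mul_left _ e1
  have e6 := Nat.mul_le_mul_left q e2
  have e7 : C.cross G x + C.cross G y ≤ q * (C.cross G x + C.cross G y) :=
    Nat.le_mul_of_pos_left _ hq
  have e8 : 2 * q * (C.cross G x + C.cross G y) =
      q * (C.cross G x + C.cross G y) + q * (C.cross G x + C.cross G y) := by ring
  omega

/-- The states of the extremal argument. -/
def State (q M : ℕ) (p : Finset (Fin C.N) × Finset C.End) : Prop :=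
  C.Free p.2 p.1 ∧ M * C.Pot q p.1 p.2 + p.1.card ≤ M * (q * ∑ w, C.f w)

theorem state_init (q M : ℕ) : C.State q M (∅, univ) := by
  refine ⟨?_, ?_⟩
  · intro a _
    simp
  · have h1 : C.Pot q ∅ univ ≤ q * ∑ w, C.f w := by
      unfold Pot
      have h2 : ∀ t, C.rho univ t = 0 := by
        intro t
        unfold rho
        simp
      have h3 : ∀ w, C.g univ w = C.f w := by
        intro w
        unfold g k endsAt
        simp
      simp only [h2, h3, sum_const_zero, add_zero]
      exact Nat.mul_le_mul_left _ (sum_le_sum_of_subset (subset_univ _))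
    have h2 := Nat.mul_le_mul_left M h1
    simpa using h2

theorem state_kill (q M : ℕ) (Y : Finset (Fin C.N)) (G : Finset C.End) (h : C.State q M (Y, G))
    (w : V) (hw : C.k G w ≠ 0) (hq : C.k G w < q * C.g G w) :
    C.State q M (Y, G.filter (fun a => C.e a ≠ w)) := by
  refine ⟨?_, ?_⟩
  · intro a ha
    exact h.1 a (filter_subset _ _ ha)
  · have h1 := Nat.mul_le_mul_left M (C.Pot_kill q Y G w hw hq)
    have h2 := h.2
    simp only at h2 ⊢
    omega

theorem state_cut (q M : ℕ) (hq : 1 ≤ q) (Y : Finset (Fin C.N)) (G : Finset C.End)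
    (h : C.State q M (Y, G)) (x y : ℤ)
    (hx : Odd x) (hy : Odd y) (hdisj : Disjoint (C.rowsIn x y) Y)
    (hbig : (C.rowsIn x y).card + M * (2 * q * (C.cross G x + C.cross G y)) ≤
      M * ∑ t ∈ C.rowsIn x y, C.rho G t) :
    C.State q M (Y ∪ C.rowsIn x y, C.cutEnds G x y) := by
  refine ⟨?_, ?_⟩
  · intro a ha
    simp only at ha ⊢
    unfold cutEnds at ha
    rw [mem_filter] at ha
    obtain ⟨haG, _, h2, h3⟩ := ha
    have h4 := h.1 a haG
    simp only at h4
    refine ⟨?_, ?_⟩
    · rw [mem_union]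
      rintro (h5 | h5)
      · exact h4.1 h5
      · exact h2 h5
    · intro t ht
      rw [mem_union] at ht
      rcases ht with ht | ht
      · exact h4.2 t ht
      · exact h3 t ht
  · have h1 := Nat.mul_le_mul_left M (C.Pot_cut q hq Y G x y hx hy hdisj)
    have h2 := h.2
    simp only at h2 ⊢
    have h3 : (Y ∪ C.rowsIn x y).card = Y.card + (C.rowsIn x y).card :=
      card_union_of_disjoint hdisj.symm
    rw [mul_add, mul_add] at h1
    omega

theorem card_End : (univ : Finset C.End).card = 2 * C.N := by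
  rw [card_univ, Fintype.card_prod, Fintype.card_fin, Fintype.card_bool]
  ring

/-- A vertex with three ends has an end of positive length. -/
theorem exists_len {G : Finset C.End} {w : V} (hk : 3 ≤ C.k G w) :
    ∃ a ∈ G, 1 ≤ C.len a := by
  -- two ends of `w` with rows on the same side
  have hex : ∃ a ∈ C.endsAt G w, ∃ b ∈ C.endsAt G w, a ≠ b ∧
      ((C.r w ≤ a.1.val) ↔ (C.r w ≤ b.1.val)) := by
    by_contra hcon
    push Not at hcon
    have h1 : (C.endsAt G w).card ≤ (univ : Finset Bool).card := by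
      apply card_le_card_of_injOn (fun a => decide (C.r w ≤ a.1.val))
      · intro a _
        exact mem_coe.2 (mem_univ _)
      · intro a ha b hb hab
        by_contra hne
        have h2 := hcon a ha b hb hne
        simp only [decide_eq_decide] at hab
        omega
    have h2 : (univ : Finset Bool).card = 2 := by decide
    unfold k at hk
    omega
  obtain ⟨a, ha, b, hb, hab, hside⟩ := hex
  unfold endsAt at ha hb
  rw [mem_filter] at ha hb
  have hrow : a.1 ≠ b.1 := by
    intro hrow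
    obtain ⟨t, s⟩ := a
    obtain ⟨t', s'⟩ := b
    simp only at hrow
    subst hrow
    have hss : s ≠ s' := fun h => hab (by rw [h])
    have h1 := C.hne t
    have h2 : C.e (t, s) = C.e (t, s') := ha.2.trans hb.2.symm
    cases s <;> cases s'
    · exact hss rfl
    · exact h1 h2
    · exact h1 h2.symm
    · exact hss rfl
  have hval : a.1.val ≠ b.1.val := fun h => hrow (Fin.ext h)
  have key : ∀ (c d : C.End), C.e c = w → C.Spans c d.1 → 1 ≤ C.len c := by
    intro c d _ hs
    unfold len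
    rw [Nat.one_le_iff_ne_zero, card_ne_zero]
    exact ⟨d.1, by rw [mem_filter]; exact ⟨mem_univ _, hs⟩⟩
  by_cases hs : C.r w ≤ a.1.val
  · have hs' := hside.1 hs
    rcases Nat.lt_or_ge a.1.val b.1.val with hlt | hge
    · refine ⟨b, hb.1, key b a hb.2 (Or.inl ⟨?_, hlt⟩)⟩
      rw [hb.2]; exact hs
    · refine ⟨a, ha.1, key a b ha.2 (Or.inl ⟨?_, by omega⟩)⟩
      rw [ha.2]; exact hs'
  · have hs' : ¬ C.r w ≤ b.1.val := fun h => hs (hside.2 h)
    rcases Nat.lt_or_ge a.1.val b.1.val with hlt | hge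
    · refine ⟨a, ha.1, key a b ha.2 (Or.inr ⟨hlt, ?_⟩)⟩
      rw [ha.2]; omega
    · refine ⟨b, hb.1, key b a hb.2 (Or.inr ⟨by omega, ?_⟩)⟩
      rw [hb.2]; omega

/-- K4, from the statement of the layer cake lemma. -/
theorem greedy_of (q C₆ : ℕ) (hq : 3 ≤ q)
    (hLC : ∃ M : ℕ, 0 < M ∧ ∀ (V : Type) [Fintype V] [DecidableEq V]
      (C : Cfg V) (G : Finset C.End) (Y : Finset (Fin C.N)),
      (∀ w, C.k G w = 0 ∨ 3 ≤ C.k G w) → C.Free G Y → C.Few q M G Y →
      (2 * C₆) * ∑ t ∈ univ \ Y, C.rho G t * C.A G t ≤ C.En G) :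
    ∃ M : ℕ, ∀ (V : Type) [Fintype V] [DecidableEq V]
    (C : Cfg V), (∀ G, C.Adm q G → C.En G ≤ C₆ * C.badSum G) → C.N ≤ M * ∑ w, C.f w := by
  obtain ⟨M, hM, hLC⟩ := hLC
  refine ⟨M * q, ?_⟩
  intro V _ _ C hEn
  let _ : DecidablePred (fun p : Finset (Fin C.N) × Finset C.End => C.State q M p) :=
    Classical.decPred _
  -- an extremal state
  have hne : (univ.filter (fun p : Finset (Fin C.N) × Finset C.End => C.State q M p)).Nonempty :=
    ⟨(∅, univ), by rw [mem_filter]; exact ⟨mem_univ _, C.state_init q M⟩⟩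
  obtain ⟨⟨Y, G⟩, hp, hmax⟩ := exists_max_image _
    (fun p : Finset (Fin C.N) × Finset C.End => p.1.card * (2 * C.N + 1) + (2 * C.N - p.2.card)) hne
  rw [mem_filter] at hp
  have hst := hp.2
  have hGc : G.card ≤ 2 * C.N := by
    rw [← C.card_End]; exact card_le_card (subset_univ _)
  -- admissible
  have hadm : C.Adm q G := by
    intro w
    by_contra hcon
    push Not at hcon
    obtain ⟨hw, hlt⟩ := hcon
    obtain ⟨H, hH⟩ : ∃ H, H = G.filter (fun a => C.e a ≠ w) := ⟨_, rfl⟩
    have h1 := C.state_kill q M Y G hst w hw hlt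
    rw [← hH] at h1
    have h2 := hmax (Y, H) (by
      rw [mem_filter]; exact ⟨mem_univ _, h1⟩)
    simp only at h2
    have h3 : H.card < G.card := by
      rw [hH]
      apply card_lt_card
      rw [ssubset_iff_of_subset (filter_subset _ _)]
      unfold k at hw
      rw [card_ne_zero] at hw
      obtain ⟨a, ha⟩ := hw
      unfold endsAt at ha
      rw [mem_filter] at ha
      refine ⟨a, ha.1, ?_⟩
      rw [mem_filter]
      exact fun h => h.2 ha.2
    omega
  have hfew : C.Few q M G Y := by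
    intro x y hx hy hnon hdisj
    by_contra hcon
    rw [not_lt] at hcon
    have h1 := C.state_cut q M (by omega) Y G hst x y hx hy hdisj hcon
    have h2 := hmax (Y ∪ C.rowsIn x y, C.cutEnds G x y) (by
      rw [mem_filter]; exact ⟨mem_univ _, h1⟩)
    simp only at h2
    have h3 : (Y ∪ C.rowsIn x y).card = Y.card + (C.rowsIn x y).card :=
      card_union_of_disjoint hdisj.symm
    have h4 : 0 < (C.rowsIn x y).card := card_pos.2 hnon
    rw [h3] at h2
    have h5 : (Y.card + (C.rowsIn x y).card) * (2 * C.N + 1) ≥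
        Y.card * (2 * C.N + 1) + (2 * C.N + 1) := by
      rw [add_mul]
      have := Nat.mul_le_mul_right (2 * C.N + 1) h4
      omega
    omega
  have hk3 : ∀ w, C.k G w = 0 ∨ 3 ≤ C.k G w := by
    intro w
    rcases hadm w with h | h
    · exact Or.inl h
    · by_cases h0 : C.k G w = 0
      · exact Or.inl h0
      · right
        have h1 : 1 ≤ C.g G w := by
          have h2 : (C.endsAt G w).card ≠ 0 := h0
          rw [card_ne_zero] at h2
          obtain ⟨a, ha⟩ := h2
          unfold endsAt at ha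
          rw [mem_filter] at ha
          have h3 := C.hf a
          rw [ha.2] at h3
          unfold g
          omega
        have h2 : q * 1 ≤ q * C.g G w := Nat.mul_le_mul_left _ h1
        omega
  have hfree : C.Free G Y := hst.1
  have e1 := hEn G hadm
  have e2 := hLC V C G Y hk3 hfree hfew
  have e3 : C.badSum G ≤ ∑ t ∈ univ \ Y, C.rho G t * C.A G t := by
    unfold badSum
    have hA : ∀ t ∈ Y, C.A G t = 0 := by
      intro t ht
      unfold A
      rw [card_eq_zero, filter_eq_empty_iff]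
      intro a ha
      exact (hfree a ha).2 t ht
    have h1 : ∑ t ∈ univ.filter (fun t => C.Bad G t), C.A G t ≤
        ∑ t ∈ univ.filter (fun t => C.Bad G t), C.rho G t * C.A G t := by
      apply sum_le_sum
      intro t ht
      rw [mem_filter] at ht
      have h2 : 0 < C.rho G t := by
        unfold rho
        rw [card_pos]
        have h3 := ht.2
        unfold Bad at h3
        by_cases h4 : (t, false) ∈ G
        · refine ⟨true, ?_⟩
          rw [mem_filter]
          exact ⟨mem_univ _, fun h5 => h3 ⟨h4, h5⟩⟩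
        · refine ⟨false, ?_⟩
          rw [mem_filter]
          exact ⟨mem_univ _, h4⟩
      exact Nat.le_mul_of_pos_left _ h2
    refine le_trans h1 ?_
    have h2 : ∑ t ∈ univ.filter (fun t => C.Bad G t), C.rho G t * C.A G t ≤
        ∑ t, C.rho G t * C.A G t := sum_le_sum_of_subset (filter_subset _ _)
    have h3 : ∑ t, C.rho G t * C.A G t = ∑ t ∈ univ \ Y, C.rho G t * C.A G t := by
      symm
      apply sum_subset (subset_univ _)
      intro t _ ht
      have : t ∈ Y := by
        by_contra h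
        exact ht (by rw [mem_sdiff]; exact ⟨mem_univ _, h⟩)
      rw [hA t this, mul_zero]
    rw [← h3]
    exact h2
  have e4 := Nat.mul_le_mul_left C₆ e3
  have e5 : C.En G = 0 := by
    have h1 : 2 * C₆ * ∑ t ∈ univ \ Y, C.rho G t * C.A G t =
        2 * (C₆ * ∑ t ∈ univ \ Y, C.rho G t * C.A G t) := by ring
    omega
  have hG : G = ∅ := by
    by_contra hG
    obtain ⟨a, ha⟩ := nonempty_iff_ne_empty.2 hG
    have h1 : C.k G (C.e a) ≠ 0 := by
      unfold k
      rw [card_ne_zero]
      exact ⟨a, by unfold endsAt; rw [mem_filter]; exact ⟨ha, rfl⟩⟩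
    have h2 : 3 ≤ C.k G (C.e a) := by
      rcases hk3 (C.e a) with h | h
      · exact absurd h h1
      · exact h
    obtain ⟨b, hb, hlen⟩ := C.exists_len h2
    have h3 : C.len b ≤ C.En G := single_le_sum (fun _ _ => Nat.zero_le _) hb
    omega
  subst hG
  have e6 := hst.2
  simp only at e6
  have e7 : C.Pot q Y ∅ = 2 * (C.N - Y.card) := by
    unfold Pot
    have h1 : C.alive ∅ = ∅ := by
      unfold alive k endsAt
      simp
    have h2 : ∀ t, C.rho ∅ t = 2 := by
      intro t
      unfold rho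
      simp
    rw [h1]
    simp only [h2, sum_empty, mul_zero, zero_add, sum_const, smul_eq_mul]
    rw [card_sdiff_of_subset (subset_univ _), card_univ, Fintype.card_fin]
    ring
  rw [e7] at e6
  have hYc : Y.card ≤ C.N := by
    have := card_le_card (subset_univ Y)
    rwa [card_univ, Fintype.card_fin] at this
  have e8 : 1 * (2 * (C.N - Y.card)) ≤ M * (2 * (C.N - Y.card)) := Nat.mul_le_mul_right _ hM
  have e9 : M * q * ∑ w, C.f w = M * (q * ∑ w, C.f w) := by ring
  rw [e9]
  omega

end Cfg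

end MP60f107

end

section

/-!
Assembly of the combinatorial core.
-/

namespace MP60f107

open Finset

namespace Cfg

/-- K4. The extremal (greedy) argument. -/
theorem greedy (q C₆ : ℕ) (hq : 3 ≤ q) : ∃ M : ℕ, ∀ (V : Type) [Fintype V] [DecidableEq V]
    (C : Cfg V), (∀ G, C.Adm q G → C.En G ≤ C₆ * C.badSum G) → C.N ≤ M * ∑ w, C.f w :=
  greedy_of q C₆ hq (layer_cake q (2 * C₆))

/-- The combinatorial core. -/
theorem core (C₀ : ℕ) : ∃ M : ℕ, ∀ (V : Type) [Fintype V] [DecidableEq V] (C : Cfg V)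
    (c : C.End → ℕ) (x : C.End → C.End → ℕ),
    (∀ a, ∑ b, x a b ≤ c a) → (∀ a, C.len a ≤ c a + 3 * C.deg (C.e a)) → C.Move C₀ c x →
    C.N ≤ M * ∑ w, C.f w := by
  obtain ⟨q₀, C₁, h1⟩ := key1 C₀
  obtain ⟨C₂, q₁, h2⟩ := lemmaE
  obtain ⟨M, hM⟩ := greedy (q₀ + q₁ + 2 * (C₁ * C₂) + 3) (2 * (12 + C₁ * C₂)) (by omega)
  refine ⟨M, fun V _ _ C c x hx hl hm => hM V C fun G hG => ?_⟩
  have e1 := h1 V C c x hx hl hm _ (by omega) G hG
  have e2 := h2 V C _ (by omega) G hG
  generalize hq : q₀ + q₁ + 2 * (C₁ * C₂) + 3 = q at e2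
  have hq1 : 2 * (C₁ * C₂) ≤ q := by omega
  have hq0 : 0 < q := by omega
  have e3 : C₁ * (q * C.sq G) ≤ C₁ * (C₂ * (C.En G + q * C.badSum G)) := Nat.mul_le_mul_left _ e2
  have e4 : q * C.En G ≤ q * (12 * C.badSum G + C₁ * C.sq G) := Nat.mul_le_mul_left _ e1
  have e5 : 2 * (C₁ * C₂) * C.En G ≤ q * C.En G := Nat.mul_le_mul_right _ hq1
  have e6 : q * C.En G ≤ q * (2 * (12 + C₁ * C₂) * C.badSum G) := by
    nlinarith only [e3, e4, e5]
  exact Nat.le_of_mul_le_mul_left e6 hq0

end Cfg

end MP60f107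

end
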