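import Pool.Agent.Lib.MP_60f107_co.CrPlane
import Pool.Agent.Lib.MP_60f107_co.CrCore

section

/-!
Normalisation of spine drawings (D2): merging, shortcuts, uncrossing.
-/

namespace MP60f107
namespace Nrm

open Finset

section order
variable {L : Type} [LinearOrder L]

theorem btw_or (e f x : L) : Btw e f x ∨ Ots e f x ∨ x = e ∨ x = f := by
  unfold Btw Ots
  grind

theorem ilv_comm {a b c d : L} (h : Ilv a b c d) : Ilv c d a b := by
  unfold Ilv Btw Ots at *
  grind

theorem ilv_comm_iff {a b c d : L} : Ilv a b c d ↔ Ilv c d a b := ⟨ilv_comm, ilv_comm⟩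

theorem ilv_swap {a b c d : L} : Ilv a b c d ↔ Ilv b a c d := by
  unfold Ilv Btw Ots
  grind

theorem ilv_self (a b : L) : ¬ Ilv a b a b := by
  unfold Ilv Btw Ots
  grind

theorem ilv_same (a b d : L) : ¬ Ilv a b a d := by
  unfold Ilv Btw Ots
  grind

theorem uncross0 {a b c d : L} (h : Ilv a b c d) : ¬ Ilv c b a d := by
  unfold Ilv Btw Ots at *
  grind

theorem ilv_merge {a b c e f : L} (h : Ilv a c e f) (he : b ≠ e) (hf : b ≠ f) :
    Ilv a b e f ∨ Ilv b c e f := by
  unfold Ilv Btw Ots at *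
  grind

theorem ilv_shortcut {a b c d e f : L} (h : Ilv a b c d) (h' : Ilv a d e f) :
    Ilv a b e f ∨ Ilv c d e f := by
  unfold Ilv Btw Ots at *
  grind

theorem ilv_uncross {a b c d e f : L} (h : Ilv a b c d) (h' : Ilv a d e f) (h'' : Ilv c b e f) :
    Ilv a b e f ∧ Ilv c d e f := by
  unfold Ilv Btw Ots at *
  grind

theorem X_comm (A B : Arc L) : X A B = X B A := by
  unfold X
  exact if_congr (and_congr eq_comm ilv_comm_iff) rfl rfl

theorem X_self (A : Arc L) : X A A = 0 := by
  unfold X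
  have := ilv_self A.p A.q
  grind

theorem X_le_one (A B : Arc L) : X A B ≤ 1 := by
  unfold X
  split_ifs <;> simp

theorem X_swap (A B : Arc L) : X ⟨A.q, A.p, A.up⟩ B = X A B := by
  unfold X
  exact if_congr (and_congr Iff.rfl ilv_swap) rfl rfl

theorem X_ne {A B : Arc L} : X A B ≠ 0 ↔ A.up = B.up ∧ Ilv A.p A.q B.p B.q := by
  unfold X
  split_ifs with h <;> simp [h]

theorem X_eq_zero {A B : Arc L} : X A B = 0 ↔ ¬ (A.up = B.up ∧ Ilv A.p A.q B.p B.q) := by
  rw [← X_ne, not_not]

/-- merge two consecutive arcs in the same page -/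
theorem X_merge {a b c : L} {s : Bool} (B : Arc L) (hp : b ≠ B.p) (hq : b ≠ B.q) :
    X ⟨a, c, s⟩ B ≤ X ⟨a, b, s⟩ B + X ⟨b, c, s⟩ B := by
  by_cases h : X ⟨a, c, s⟩ B = 0
  · omega
  have h0 := X_le_one (⟨a, c, s⟩ : Arc L) B
  have h1 := X_ne.1 h
  rcases ilv_merge h1.2 hp hq with h' | h'
  · have : X ⟨a, b, s⟩ B ≠ 0 := X_ne.2 ⟨h1.1, h'⟩
    omega
  · have : X ⟨b, c, s⟩ B ≠ 0 := X_ne.2 ⟨h1.1, h'⟩
    omega

theorem X_shortcut {a b c d : L} {s : Bool} (h : Ilv a b c d) (B : Arc L) :
    X ⟨a, d, s⟩ B ≤ X ⟨a, b, s⟩ B + X ⟨c, d, s⟩ B := by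
  by_cases h2 : X ⟨a, d, s⟩ B = 0
  · omega
  have h0 := X_le_one (⟨a, d, s⟩ : Arc L) B
  have h1 := X_ne.1 h2
  rcases ilv_shortcut h h1.2 with h' | h'
  · have : X ⟨a, b, s⟩ B ≠ 0 := X_ne.2 ⟨h1.1, h'⟩
    omega
  · have : X ⟨c, d, s⟩ B ≠ 0 := X_ne.2 ⟨h1.1, h'⟩
    omega

theorem X_shortcut' {a b c d : L} {s : Bool} (h : Ilv a b c d) (B : Arc L) :
    X ⟨c, b, s⟩ B ≤ X ⟨a, b, s⟩ B + X ⟨c, d, s⟩ B := by
  have := X_shortcut (s := s) (ilv_comm h) B
  omega

theorem X_uncross {a b c d : L} {s : Bool} (h : Ilv a b c d) (B : Arc L) :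
    X ⟨c, b, s⟩ B + X ⟨a, d, s⟩ B ≤ X ⟨a, b, s⟩ B + X ⟨c, d, s⟩ B := by
  have h1 := X_shortcut (s := s) h B
  have h2 := X_shortcut' (s := s) h B
  have h3 := X_le_one (⟨c, b, s⟩ : Arc L) B
  have h4 := X_le_one (⟨a, d, s⟩ : Arc L) B
  by_cases h5 : X ⟨c, b, s⟩ B = 0
  · omega
  by_cases h6 : X ⟨a, d, s⟩ B = 0
  · omega
  have h5' := X_ne.1 h5
  have h6' := X_ne.1 h6
  obtain ⟨h7, h8⟩ := ilv_uncross h h6'.2 h5'.2
  have : X ⟨a, b, s⟩ B ≠ 0 := X_ne.2 ⟨h6'.1, h7⟩
  have : X ⟨c, d, s⟩ B ≠ 0 := X_ne.2 ⟨h6'.1, h8⟩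
  omega

theorem X_uncross0 {a b c d : L} {s : Bool} (h : Ilv a b c d) :
    X ⟨c, b, s⟩ ⟨a, d, s⟩ = 0 :=
  X_eq_zero.2 fun h' => uncross0 h h'.2

/-! ### crL -/

theorem crL_nil_left (Q : List (Arc L)) : crL [] Q = 0 := rfl

theorem crL_nil_right (P : List (Arc L)) : crL P [] = 0 := by simp [crL]

theorem crL_cons_left (A : Arc L) (P Q : List (Arc L)) :
    crL (A :: P) Q = crL [A] Q + crL P Q := by simp [crL]

theorem crL_append_left (P P' Q : List (Arc L)) :
    crL (P ++ P') Q = crL P Q + crL P' Q := by simp [crL]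

theorem crL_append_right (P Q Q' : List (Arc L)) :
    crL P (Q ++ Q') = crL P Q + crL P Q' := by
  induction P with
  | nil => simp [crL]
  | cons A P ih =>
    rw [crL_cons_left, ih, crL_cons_left A P Q, crL_cons_left A P Q']
    have : crL [A] (Q ++ Q') = crL [A] Q + crL [A] Q' := by simp [crL]
    omega

theorem crL_cons_right (P Q : List (Arc L)) (B : Arc L) :
    crL P (B :: Q) = crL P [B] + crL P Q := by
  rw [← List.singleton_append, crL_append_right]

theorem crL_single (A B : Arc L) : crL [A] [B] = X A B := by simp [crL]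

theorem crL_swap (p q : L) (s : Bool) (Q : List (Arc L)) :
    crL [⟨q, p, s⟩] Q = crL [⟨p, q, s⟩] Q := by
  simp only [crL, List.map_cons, List.map_nil, List.sum_cons, List.sum_nil]
  congr 2
  refine List.map_congr_left fun B _ => ?_
  exact X_swap ⟨p, q, s⟩ B

theorem crL_pair (A B : Arc L) (Q : List (Arc L)) : crL [A, B] Q = crL [A] Q + crL [B] Q :=
  crL_cons_left A [B] Q

theorem crL_comm (P Q : List (Arc L)) : crL P Q = crL Q P := by
  induction P with
  | nil => rw [crL_nil_left, crL_nil_right]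
  | cons A P ih =>
    rw [crL_cons_left, crL_cons_right, ih]
    congr 1
    clear ih
    induction Q with
    | nil => rfl
    | cons B Q ih' =>
      rw [crL_cons_left B Q, crL_cons_right [A] Q B, crL_single, crL_single, X_comm, ih']

theorem crL_expand (P P' Q Q' : List (Arc L)) (A B : Arc L) :
    crL (P ++ A :: P') (Q ++ B :: Q') = crL P Q + crL P [B] + crL P Q' + crL [A] Q + crL [A] [B] +
      crL [A] Q' + crL P' Q + crL P' [B] + crL P' Q' := by
  rw [crL_append_left, crL_cons_left, crL_append_right, crL_append_right, crL_append_right,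
    crL_cons_right, crL_cons_right [A], crL_cons_right P']
  omega

theorem crL_le_of {A : Arc L} {P : List (Arc L)} {Q : List (Arc L)}
    (h : ∀ B ∈ Q, X A B ≤ crL P [B]) : crL [A] Q ≤ crL P Q := by
  induction Q with
  | nil => rw [crL_nil_right, crL_nil_right]
  | cons B Q ih =>
    rw [crL_cons_right, crL_cons_right P, crL_single]
    have := ih fun B hB => h B (List.mem_cons_of_mem _ hB)
    have := h B List.mem_cons_self
    omega

theorem crL_le_of' {P P' Q : List (Arc L)} (h : ∀ B ∈ Q, crL P [B] ≤ crL P' [B]) :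
    crL P Q ≤ crL P' Q := by
  induction Q with
  | nil => rw [crL_nil_right, crL_nil_right]
  | cons B Q ih =>
    rw [crL_cons_right, crL_cons_right P']
    have := ih fun B hB => h B (List.mem_cons_of_mem _ hB)
    have := h B List.mem_cons_self
    omega

theorem X_le_crL {A B : Arc L} {P Q : List (Arc L)} (hA : A ∈ P) (hB : B ∈ Q) :
    X A B ≤ crL P Q := by
  obtain ⟨P1, P2, rfl⟩ := List.append_of_mem hA
  obtain ⟨Q1, Q2, rfl⟩ := List.append_of_mem hB
  rw [crL_append_left, crL_cons_left, crL_append_right [A], crL_cons_right, crL_single]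
  omega

theorem exists_of_crL_ne {P Q : List (Arc L)} (h : crL P Q ≠ 0) : ∃ A ∈ P, ∃ B ∈ Q, X A B ≠ 0 := by
  by_contra hc
  push Not at hc
  apply h
  clear h
  unfold crL
  apply List.sum_eq_zero
  intro x hx
  rw [List.mem_map] at hx
  obtain ⟨A, hA, rfl⟩ := hx
  apply List.sum_eq_zero
  intro x hx
  rw [List.mem_map] at hx
  obtain ⟨B, hB, rfl⟩ := hx
  exact hc A hA B hB

/-! ### open chains -/

/-- The arcs of the open chain that starts at `a` and passes through the points of the list. -/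
def pre {L : Type} : L → List (Bool × L) → List (Arc L)
  | _, [] => []
  | a, x :: r => ⟨a, x.2, x.1⟩ :: pre x.2 r

/-- The last point of an open chain. -/
def ep {L : Type} : L → List (Bool × L) → L
  | a, [] => a
  | _, x :: r => ep x.2 r

theorem arcs_eq_pre {L : Type} (a : L) (r : List (Bool × L)) (s : Bool) (b : L) :
    arcs a r s b = pre a (r ++ [(s, b)]) := by
  induction r generalizing a with
  | nil => rfl
  | cons x r ih =>
    obtain ⟨s₁, p⟩ := x
    simp only [arcs, List.cons_append, pre]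
    rw [ih]

theorem pre_append {L : Type} (a : L) (R R' : List (Bool × L)) :
    pre a (R ++ R') = pre a R ++ pre (ep a R) R' := by
  induction R generalizing a with
  | nil => rfl
  | cons x R ih => simp only [List.cons_append, pre, ep, ih]

theorem ep_append {L : Type} (a : L) (R R' : List (Bool × L)) :
    ep a (R ++ R') = ep (ep a R) R' := by
  induction R generalizing a with
  | nil => rfl
  | cons x R ih => simp only [List.cons_append, ep, ih]

theorem ep_concat {L : Type} (a : L) (R : List (Bool × L)) (x : Bool × L) :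
    ep a (R ++ [x]) = x.2 := by
  rw [ep_append]; rfl

theorem ep_mem {L : Type} (a : L) (R : List (Bool × L)) : ep a R = a ∨ ∃ x ∈ R, ep a R = x.2 := by
  induction R generalizing a with
  | nil => left; rfl
  | cons x R ih =>
    right
    rcases ih x.2 with h | ⟨y, hy, h⟩
    · exact ⟨x, List.mem_cons_self, h⟩
    · exact ⟨y, List.mem_cons_of_mem _ hy, h⟩

theorem pre_split {L : Type} {a : L} {R : List (Bool × L)} {P1 P2 : List (Arc L)} {A : Arc L}
    (h : pre a R = P1 ++ A :: P2) :
    ∃ R1 R2, R = R1 ++ (A.up, A.q) :: R2 ∧ P1 = pre a R1 ∧ A.p = ep a R1 ∧ P2 = pre A.q R2 := by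
  induction P1 generalizing a R with
  | nil =>
    cases R with
    | nil => simp [pre] at h
    | cons x R =>
      simp only [pre, List.nil_append, List.cons.injEq] at h
      obtain ⟨rfl, rfl⟩ := h
      exact ⟨[], R, rfl, rfl, rfl, rfl⟩
  | cons B P1 ih =>
    cases R with
    | nil => simp [pre] at h
    | cons x R =>
      simp only [pre, List.cons_append, List.cons.injEq] at h
      obtain ⟨rfl, h⟩ := h
      obtain ⟨R1, R2, rfl, rfl, h3, rfl⟩ := ih h
      exact ⟨x :: R1, R2, rfl, rfl, h3, rfl⟩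

/-- A suffix of `r ++ [y]` starting with `x` ends with `y`. -/
theorem suffix_concat {α : Type} {r R1 R2 : List α} {x y : α} (h : r ++ [y] = R1 ++ x :: R2) :
    ∃ T, r = R1 ++ T ∧ x :: R2 = T ++ [y] := by
  rcases List.eq_nil_or_concat R2 with rfl | ⟨R2', z, rfl⟩
  · have h' := List.append_inj' h rfl
    obtain ⟨rfl, h2⟩ := h'
    refine ⟨[], by simp, ?_⟩
    simpa using h2.symm
  · have h1 : r ++ [y] = (R1 ++ x :: R2') ++ [z] := by simpa using h
    have h' := List.append_inj' h1 rfl
    obtain ⟨rfl, h2⟩ := h'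
    refine ⟨x :: R2', by simp, ?_⟩
    simp only [List.cons.injEq, and_true] at h2
    simp [h2]

/-- A chain can be read backwards. -/
theorem exists_rev {L : Type} [LinearOrder L] (a b : L) (T : List (Bool × L)) (s : Bool) :
    ∃ T' s', (∀ Q, crL (pre b (T' ++ [(s', a)])) Q = crL (pre a (T ++ [(s, b)])) Q) ∧
      (T'.map Prod.snd).Perm (T.map Prod.snd) := by
  induction T generalizing a with
  | nil =>
    refine ⟨[], s, fun Q => ?_, List.Perm.refl _⟩
    exact crL_swap _ _ _ _
  | cons x T ih =>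
    obtain ⟨T', s', h1, h2⟩ := ih x.2
    refine ⟨T' ++ [(s', x.2)], x.1, fun Q => ?_, ?_⟩
    · rw [pre_append, crL_append_left, h1, List.cons_append, pre, crL_cons_left, ep_concat]
      simp only [pre]
      rw [add_comm]
      congr 1
      exact crL_swap _ _ _ _
    · rw [List.map_append, List.map_cons, List.map_cons, List.map_nil]
      exact (List.perm_append_comm).trans (List.Perm.cons _ h2)

/-- Uncrossing two chains with the same initial point. -/
theorem exists_uncross {L : Type} [LinearOrder L] {a b b' : L} {T T' : List (Bool × L)}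
    {s s' : Bool} (h : crL (pre a (T ++ [(s, b)])) (pre a (T' ++ [(s', b')])) ≠ 0)
    (h1 : crL (pre a (T ++ [(s, b)])) (pre a (T ++ [(s, b)])) = 0)
    (h2 : crL (pre a (T' ++ [(s', b')])) (pre a (T' ++ [(s', b')])) = 0) :
    ∃ U U', (U ++ U').Perm (T ++ T') ∧
      (∀ Q, crL (pre a (U ++ [(s, b)])) Q + crL (pre a (U' ++ [(s', b')])) Q ≤
        crL (pre a (T ++ [(s, b)])) Q + crL (pre a (T' ++ [(s', b')])) Q) ∧
      crL (pre a (U ++ [(s, b)])) (pre a (U' ++ [(s', b')])) <
        crL (pre a (T ++ [(s, b)])) (pre a (T' ++ [(s', b')])) := by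
  obtain ⟨A, hA, B, hB, hAB⟩ := exists_of_crL_ne h
  obtain ⟨hup, hI⟩ := X_ne.1 hAB
  obtain ⟨P1, P2, hP⟩ := List.append_of_mem hA
  obtain ⟨S1, S2, hS⟩ := List.append_of_mem hB
  clear h
  rw [hP] at h1
  rw [hS] at h2
  rw [hP, hS]
  obtain ⟨R1, R2, hR, rfl, hAp, rfl⟩ := pre_split hP
  obtain ⟨Q1, Q2, hQ, rfl, hBp, rfl⟩ := pre_split hS
  obtain ⟨T2, rfl, hT2⟩ := suffix_concat hR
  obtain ⟨T2', rfl, hT2'⟩ := suffix_concat hQ
  have e1 : pre a (Q1 ++ T2 ++ [(s, b)]) = pre a Q1 ++ ⟨B.p, A.q, A.up⟩ :: pre A.q R2 := by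
    rw [List.append_assoc, ← hT2, pre_append, ← hBp]; rfl
  have e2 : pre a (R1 ++ T2' ++ [(s', b')]) = pre a R1 ++ ⟨A.p, B.q, A.up⟩ :: pre B.q Q2 := by
    rw [List.append_assoc, ← hT2', pre_append, ← hAp, hup]; rfl
  have hB' : B = ⟨B.p, B.q, A.up⟩ := by rw [hup]
  have hunc : ∀ Q, crL [⟨B.p, A.q, A.up⟩] Q + crL [⟨A.p, B.q, A.up⟩] Q ≤
      crL [A] Q + crL [B] Q := by
    intro Q
    rw [← crL_pair, ← crL_pair]
    apply crL_le_of'
    intro C _
    rw [crL_pair, crL_pair, crL_single, crL_single, crL_single, crL_single]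
    have := X_uncross (s := A.up) hI C
    rw [← hB'] at this
    exact this
  have hs1 : ∀ Q, crL [⟨A.p, B.q, A.up⟩] Q ≤ crL [A] Q + crL [B] Q := fun Q =>
    le_trans (Nat.le_add_left _ _) (hunc Q)
  have hs2 : ∀ Q, crL [⟨B.p, A.q, A.up⟩] Q ≤ crL [A] Q + crL [B] Q := fun Q =>
    le_trans (Nat.le_add_right _ _) (hunc Q)
  refine ⟨Q1 ++ T2, R1 ++ T2', ?_, ?_, ?_⟩
  · rw [← Multiset.coe_eq_coe]
    simp only [← Multiset.coe_add]
    abel
  · intro Q
    rw [e1, e2, crL_append_left, crL_append_left, crL_append_left, crL_append_left,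
      crL_cons_left, crL_cons_left ⟨A.p, B.q, A.up⟩, crL_cons_left A, crL_cons_left B]
    have := hunc Q
    omega
  · rw [e1, e2]
    rw [crL_expand, crL_expand]
    rw [crL_expand] at h1 h2
    have g1 := hs1 (pre a Q1)
    have g2 := hs1 (pre A.q R2)
    have g3 := hs2 (pre a R1)
    have g4 := hs2 (pre B.q Q2)
    have g5 : crL [(⟨B.p, A.q, A.up⟩ : Arc L)] [⟨A.p, B.q, A.up⟩] = 0 := by
      rw [crL_single]; exact X_uncross0 hI
    have g6 : crL [A] [B] ≠ 0 := by rw [crL_single]; exact hAB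
    rw [g5, crL_comm (pre a Q1) [_], crL_comm (pre A.q R2) [_], crL_comm (pre a R1) [_],
      crL_comm (pre A.q R2) [B], crL_comm (pre a R1) (pre a Q1)]
    rw [crL_comm (pre a R1) [_], crL_comm (pre A.q R2) [_]] at h1
    rw [crL_comm (pre a Q1) [_], crL_comm (pre B.q Q2) [_]] at h2
    omega

/-- The points met by an arc of an open chain. -/
theorem mem_pre {L : Type} {a : L} {R : List (Bool × L)} {A : Arc L} (h : A ∈ pre a R) :
    (A.p = a ∨ ∃ x ∈ R, A.p = x.2) ∧ ∃ x ∈ R, A.q = x.2 ∧ A.up = x.1 := by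
  obtain ⟨P1, P2, h⟩ := List.append_of_mem h
  obtain ⟨R1, R2, rfl, -, h3, -⟩ := pre_split h
  refine ⟨?_, (A.up, A.q), by simp, rfl, rfl⟩
  rcases ep_mem a R1 with h' | ⟨x, hx, h'⟩
  · left; rw [h3, h']
  · right; exact ⟨x, by simp [hx], by rw [h3, h']⟩

end order

/-! ### changing one edge -/

section upd

variable {V ι : Type} {N : Net V ι} {L : Type} [LinearOrder L]

/-- Remove some inner points of the edge `i`. -/
def upd [DecidableEq ι] (D : Drawing N L) (i : ι) (r : List (Bool × L))
    (hr : r.Sublist (D.inner i)) : Drawing N L where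
  pos := D.pos
  inner := Function.update D.inner i r
  last := D.last
  pos_inj := D.pos_inj
  nodup := by
    intro j
    by_cases h : j = i
    · subst h
      rw [Function.update_self]
      exact (D.nodup j).sublist (hr.map _)
    · rw [Function.update_of_ne h]
      exact D.nodup j
  disj := by
    intro j k hjk x hx y hy
    have key : ∀ j, ∀ x ∈ Function.update D.inner i r j, x ∈ D.inner j := by
      intro j x hx
      by_cases h : j = i
      · subst h
        rw [Function.update_self] at hx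
        exact hr.subset hx
      · rwa [Function.update_of_ne h] at hx
    exact D.disj j k hjk x (key j x hx) y (key k y hy)
  avoid := by
    intro j x hx w
    by_cases h : j = i
    · subst h
      rw [Function.update_self] at hx
      exact D.avoid j x (hr.subset hx) w
    · rw [Function.update_of_ne h] at hx
      exact D.avoid j x hx w

theorem path_eq_pre (D : Drawing N L) (i : ι) :
    D.path i = pre (D.pos (N.src i)) (D.inner i ++ [(D.last i, D.pos (N.tgt i))]) :=
  arcs_eq_pre _ _ _ _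

variable [DecidableEq ι] (D : Drawing N L) (i : ι) (r : List (Bool × L))
    (hr : r.Sublist (D.inner i))

theorem upd_path_self : (upd D i r hr).path i =
    pre (D.pos (N.src i)) (r ++ [(D.last i, D.pos (N.tgt i))]) := by
  rw [path_eq_pre]
  simp only [upd, Function.update_self]

theorem upd_path_of_ne {j : ι} (h : j ≠ i) : (upd D i r hr).path j = D.path j := by
  simp only [Drawing.path, upd, Function.update_of_ne h]

variable [Fintype ι]

theorem upd_dcr_le (h : ∀ j, j ≠ i → crL (pre (D.pos (N.src i))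
    (r ++ [(D.last i, D.pos (N.tgt i))])) (D.path j) ≤ crL (D.path i) (D.path j)) :
    (upd D i r hr).dcr ≤ D.dcr := by
  unfold Drawing.dcr
  refine Finset.sum_le_sum fun k _ => Finset.sum_le_sum fun l _ => ?_
  split_ifs with hkl
  · exact le_rfl
  by_cases hk : k = i
  · subst hk
    rw [upd_path_self, upd_path_of_ne D k r hr (Ne.symm hkl)]
    exact h l (Ne.symm hkl)
  · rw [upd_path_of_ne D i r hr hk]
    by_cases hl : l = i
    · subst hl
      rw [upd_path_self, crL_comm, crL_comm (D.path k)]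
      exact h k hkl
    · rw [upd_path_of_ne D i r hr hl]

theorem upd_rows_le (u v : V) : (upd D i r hr).rows u v ≤ D.rows u v := by
  unfold Drawing.rows
  refine Finset.sum_le_sum fun k _ => ?_
  unfold Drawing.rowsOf
  by_cases hk : k = i
  · subst hk
    simp only [upd, Function.update_self]
    exact hr.countP_le
  · simp only [upd, Function.update_of_ne hk]
    exact le_rfl

theorem upd_size_lt (hlt : r.length < (D.inner i).length) : (upd D i r hr).size < D.size := by
  unfold Drawing.size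
  refine Finset.sum_lt_sum (fun k _ => ?_) ⟨i, Finset.mem_univ _, ?_⟩
  · by_cases hk : k = i
    · subst hk
      simp only [upd, Function.update_self]
      exact hlt.le
    · simp only [upd, Function.update_of_ne hk]
      exact le_rfl
  · simp only [upd, Function.update_self]
    exact hlt

include hr in
theorem not_good_of_upd {u v : V} (hG : D.Good u v) (hlt : r.length < (D.inner i).length)
    (h : ∀ j, j ≠ i → crL (pre (D.pos (N.src i))
      (r ++ [(D.last i, D.pos (N.tgt i))])) (D.path j) ≤ crL (D.path i) (D.path j)) : False := by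
  have h1 := hG.pt_min L (upd D i r hr) hG.nf (upd_dcr_le D i r hr h) (upd_rows_le D i r hr u v)
  exact absurd (upd_size_lt D i r hr hlt) (not_lt.2 h1)

end upd


/-! ### changing two edges -/

theorem sum_swap_lt {ι : Type} [Fintype ι] [DecidableEq ι] (g g' : ι → ι → ℕ) {i j : ι}
    (hij : i ≠ j) (hs : ∀ k l, g k l = g l k) (hs' : ∀ k l, g' k l = g' l k)
    (h0 : ∀ k l, k ≠ i → k ≠ j → l ≠ i → l ≠ j → g' k l ≤ g k l)
    (h1 : ∀ k, k ≠ i → k ≠ j → g' i k + g' j k ≤ g i k + g j k) (h2 : g' i j < g i j)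
    (h3 : g' i i = 0) (h4 : g' j j = 0) : ∑ k, ∑ l, g' k l < ∑ k, ∑ l, g k l := by
  have key : ∀ f : ι → ι → ℕ, ∑ k, ∑ l, (f k l + f (Equiv.swap i j k) l +
      f k (Equiv.swap i j l) + f (Equiv.swap i j k) (Equiv.swap i j l)) = 4 * ∑ k, ∑ l, f k l := by
    intro f
    have e1 : ∑ k, ∑ l, f (Equiv.swap i j k) l = ∑ k, ∑ l, f k l :=
      Equiv.sum_comp (Equiv.swap i j) fun k => ∑ l, f k l
    have e2 : ∀ k, ∑ l, f k (Equiv.swap i j l) = ∑ l, f k l := fun k =>
      Equiv.sum_comp (Equiv.swap i j) fun l => f k l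
    simp only [Finset.sum_add_distrib, e1, e2]
    omega
  suffices h : 4 * ∑ k, ∑ l, g' k l < 4 * ∑ k, ∑ l, g k l by omega
  rw [← key, ← key]
  have term : ∀ k l, g' k l + g' (Equiv.swap i j k) l + g' k (Equiv.swap i j l) +
      g' (Equiv.swap i j k) (Equiv.swap i j l) ≤ g k l + g (Equiv.swap i j k) l +
      g k (Equiv.swap i j l) + g (Equiv.swap i j k) (Equiv.swap i j l) := by
    intro k l
    by_cases ki : k = i
    · subst ki
      rw [Equiv.swap_apply_left]
      by_cases li : l = k
      · subst li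
        rw [Equiv.swap_apply_left, hs j l, hs' j l]
        omega
      by_cases lj : l = j
      · subst lj
        rw [Equiv.swap_apply_right, hs l k, hs' l k]
        omega
      rw [Equiv.swap_apply_of_ne_of_ne li lj]
      have := h1 l li lj
      omega
    by_cases kj : k = j
    · subst kj
      rw [Equiv.swap_apply_right]
      by_cases li : l = i
      · subst li
        rw [Equiv.swap_apply_left, hs k l, hs' k l]
        omega
      by_cases lj : l = k
      · subst lj
        rw [Equiv.swap_apply_right, hs l i, hs' l i]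
        omega
      rw [Equiv.swap_apply_of_ne_of_ne li lj]
      have := h1 l li lj
      omega
    rw [Equiv.swap_apply_of_ne_of_ne ki kj]
    by_cases li : l = i
    · subst li
      rw [Equiv.swap_apply_left, hs k l, hs' k l, hs k j, hs' k j]
      have := h1 k ki kj
      omega
    by_cases lj : l = j
    · subst lj
      rw [Equiv.swap_apply_right, hs k l, hs' k l, hs k i, hs' k i]
      have := h1 k ki kj
      omega
    rw [Equiv.swap_apply_of_ne_of_ne li lj]
    have := h0 k l ki kj li lj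
    omega
  refine Finset.sum_lt_sum (fun k _ => Finset.sum_le_sum fun l _ => term k l)
    ⟨i, Finset.mem_univ _, Finset.sum_lt_sum (fun l _ => term i l) ⟨j, Finset.mem_univ _, ?_⟩⟩
  rw [Equiv.swap_apply_left, Equiv.swap_apply_right, hs j i, hs' j i]
  omega

section upd2

variable {V ι : Type} {N : Net V ι} {L : Type} [LinearOrder L] [DecidableEq ι]

/-- Change the edges `i` and `j`. -/
def upd2 (D : Drawing N L) {i j : ι} (hij : i ≠ j) (r t : List (Bool × L)) (sr st : Bool)
    (h : ((r ++ t).map Prod.snd).Perm ((D.inner i ++ D.inner j).map Prod.snd)) :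
    Drawing N L where
  pos := D.pos
  inner k := if k = i then r else if k = j then t else D.inner k
  last k := if k = i then sr else if k = j then st else D.last k
  pos_inj := D.pos_inj
  nodup := by
    have hnd : ((r ++ t).map Prod.snd).Nodup := by
      rw [h.nodup_iff, List.map_append, List.nodup_append]
      refine ⟨D.nodup i, D.nodup j, ?_⟩
      intro a ha b hb
      rw [List.mem_map] at ha hb
      obtain ⟨x, hx, rfl⟩ := ha
      obtain ⟨y, hy, rfl⟩ := hb
      exact D.disj i j hij x hx y hy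
    rw [List.map_append, List.nodup_append] at hnd
    intro k
    split_ifs
    · exact hnd.1
    · exact hnd.2.1
    · exact D.nodup k
  disj := by
    have hnd : ((r ++ t).map Prod.snd).Nodup := by
      rw [h.nodup_iff, List.map_append, List.nodup_append]
      refine ⟨D.nodup i, D.nodup j, ?_⟩
      intro a ha b hb
      rw [List.mem_map] at ha hb
      obtain ⟨x, hx, rfl⟩ := ha
      obtain ⟨y, hy, rfl⟩ := hb
      exact D.disj i j hij x hx y hy
    rw [List.map_append, List.nodup_append] at hnd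
    have hmem : ∀ x ∈ r ++ t, (∃ y ∈ D.inner i, x.2 = y.2) ∨ ∃ y ∈ D.inner j, x.2 = y.2 := by
      intro x hx
      have h1 : x.2 ∈ (D.inner i ++ D.inner j).map Prod.snd :=
        h.mem_iff.1 (List.mem_map_of_mem hx)
      rw [List.mem_map] at h1
      obtain ⟨y, hy, h2⟩ := h1
      rw [List.mem_append] at hy
      rcases hy with hy | hy
      · left; exact ⟨y, hy, h2.symm⟩
      · right; exact ⟨y, hy, h2.symm⟩
    have hk : ∀ k, k ≠ i → k ≠ j → ∀ x ∈ r ++ t, ∀ z ∈ D.inner k, x.2 ≠ z.2 := by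
      intro k ki kj x hx z hz
      rcases hmem x hx with ⟨y, hy, h2⟩ | ⟨y, hy, h2⟩
      · rw [h2]; exact D.disj i k (Ne.symm ki) y hy z hz
      · rw [h2]; exact D.disj j k (Ne.symm kj) y hy z hz
    intro k l hkl x hx y hy
    have hx2 : x.2 ∈ List.map Prod.snd _ := List.mem_map_of_mem hx
    have hy2 : y.2 ∈ List.map Prod.snd _ := List.mem_map_of_mem hy
    split_ifs at hx hy hx2 hy2 with ki li lj kj li lj li lj
    · exact absurd (ki.trans li.symm) hkl
    · exact hnd.2.2 _ hx2 _ hy2
    · exact hk l li lj x (List.mem_append_left _ hx) y hy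
    · exact fun e => hnd.2.2 _ hy2 _ hx2 e.symm
    · exact absurd (kj.trans lj.symm) hkl
    · exact hk l li lj x (List.mem_append_right _ hx) y hy
    · exact (hk k ki kj y (List.mem_append_left _ hy) x hx).symm
    · exact (hk k ki kj y (List.mem_append_right _ hy) x hx).symm
    · exact D.disj k l hkl x hx y hy
  avoid := by
    have hmem : ∀ x ∈ r ++ t, (∃ y ∈ D.inner i, x.2 = y.2) ∨ ∃ y ∈ D.inner j, x.2 = y.2 := by
      intro x hx
      have h1 : x.2 ∈ (D.inner i ++ D.inner j).map Prod.snd :=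
        h.mem_iff.1 (List.mem_map_of_mem hx)
      rw [List.mem_map] at h1
      obtain ⟨y, hy, h2⟩ := h1
      rw [List.mem_append] at hy
      rcases hy with hy | hy
      · left; exact ⟨y, hy, h2.symm⟩
      · right; exact ⟨y, hy, h2.symm⟩
    have ha : ∀ x ∈ r ++ t, ∀ w, x.2 ≠ D.pos w := by
      intro x hx w
      rcases hmem x hx with ⟨y, hy, h2⟩ | ⟨y, hy, h2⟩
      · rw [h2]; exact D.avoid i y hy w
      · rw [h2]; exact D.avoid j y hy w
    intro k x hx w
    split_ifs at hx with ki kj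
    · exact ha x (List.mem_append_left _ hx) w
    · exact ha x (List.mem_append_right _ hx) w
    · exact D.avoid k x hx w

variable [Fintype ι] (D : Drawing N L) {i j : ι} (hij : i ≠ j) (r t : List (Bool × L))
    (sr st : Bool) (h : ((r ++ t).map Prod.snd).Perm ((D.inner i ++ D.inner j).map Prod.snd))

theorem upd2_dcr_lt
    (h1 : ∀ Q, crL (pre (D.pos (N.src i)) (r ++ [(sr, D.pos (N.tgt i))])) Q +
      crL (pre (D.pos (N.src j)) (t ++ [(st, D.pos (N.tgt j))])) Q ≤
      crL (D.path i) Q + crL (D.path j) Q)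
    (h2 : crL (pre (D.pos (N.src i)) (r ++ [(sr, D.pos (N.tgt i))]))
      (pre (D.pos (N.src j)) (t ++ [(st, D.pos (N.tgt j))])) < crL (D.path i) (D.path j)) :
    (upd2 D hij r t sr st h).dcr < D.dcr := by
  have pi : (upd2 D hij r t sr st h).path i =
      pre (D.pos (N.src i)) (r ++ [(sr, D.pos (N.tgt i))]) := by
    rw [path_eq_pre]; simp [upd2]
  have pj : (upd2 D hij r t sr st h).path j =
      pre (D.pos (N.src j)) (t ++ [(st, D.pos (N.tgt j))]) := by
    rw [path_eq_pre]; simp [upd2, Ne.symm hij]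
  have pk : ∀ k, k ≠ i → k ≠ j → (upd2 D hij r t sr st h).path k = D.path k := by
    intro k ki kj
    rw [path_eq_pre, path_eq_pre]; simp [upd2, ki, kj]
  unfold Drawing.dcr
  refine sum_swap_lt (fun k l => if k = l then 0 else crL (D.path k) (D.path l))
    (fun k l => if k = l then 0 else crL ((upd2 D hij r t sr st h).path k)
      ((upd2 D hij r t sr st h).path l)) hij ?_ ?_ ?_ ?_ ?_ ?_ ?_
  · intro k l
    by_cases hkl : k = l
    · simp [hkl]
    · rw [if_neg hkl, if_neg (Ne.symm hkl), crL_comm]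
  · intro k l
    by_cases hkl : k = l
    · simp [hkl]
    · simp only [if_neg hkl, if_neg (Ne.symm hkl)]
      rw [crL_comm]
  · intro k l ki kj li lj
    simp only [pk k ki kj, pk l li lj]
    exact le_rfl
  · intro k ki kj
    simp only [pk k ki kj, pi, pj, if_neg (Ne.symm ki), if_neg (Ne.symm kj)]
    exact h1 _
  · simp only [if_neg hij, pi, pj]
    exact h2
  · simp
  · simp

end upd2

/-- The end points of the arcs of the edge `j` are not inner points of another edge. -/
theorem ne_of_mem_path {V ι : Type} {N : Net V ι} {L : Type} [LinearOrder L] (D : Drawing N L)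
    {i j : ι} (h : i ≠ j) {x : Bool × L} (hx : x ∈ D.inner i) {B : Arc L} (hB : B ∈ D.path j) :
    x.2 ≠ B.p ∧ x.2 ≠ B.q := by
  rw [path_eq_pre] at hB
  obtain ⟨h1, y, hy, h2, -⟩ := mem_pre hB
  constructor
  · rcases h1 with h1 | ⟨y, hy, h1⟩
    · rw [h1]; exact D.avoid i x hx _
    · rw [h1]
      rw [List.mem_append, List.mem_singleton] at hy
      rcases hy with hy | rfl
      · exact D.disj i j h x hx y hy
      · exact D.avoid i x hx _
  · rw [h2]
    rw [List.mem_append, List.mem_singleton] at hy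
    rcases hy with hy | rfl
    · exact D.disj i j h x hx y hy
    · exact D.avoid i x hx _

/-- The chain of an edge, starting from one of its ends. -/
theorem exists_orient {V ι : Type} {N : Net V ι} {L : Type} [LinearOrder L] (D : Drawing N L)
    {k : ι} {w : V} (h : N.Inc k w) : ∃ T s z,
      (∀ Q, crL (pre (D.pos w) (T ++ [(s, z)])) Q = crL (D.path k) Q) ∧
      (T.map Prod.snd).Perm ((D.inner k).map Prod.snd) ∧
      ((N.src k = w ∧ z = D.pos (N.tgt k)) ∨ (N.tgt k = w ∧ z = D.pos (N.src k))) := by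
  rcases h with h | h
  · subst h
    exact ⟨D.inner k, D.last k, _, fun Q => by rw [path_eq_pre], List.Perm.refl _,
      Or.inl ⟨rfl, rfl⟩⟩
  · subst h
    obtain ⟨T, s, h1, h2⟩ := exists_rev (D.pos (N.src k)) (D.pos (N.tgt k)) (D.inner k) (D.last k)
    exact ⟨T, s, _, fun Q => by rw [path_eq_pre, h1], h2, Or.inr ⟨rfl, rfl⟩⟩

theorem exists_realize {V ι : Type} {N : Net V ι} {L : Type} [LinearOrder L] (D : Drawing N L)
    {k : ι} {w : V} {z : L} (h : (N.src k = w ∧ z = D.pos (N.tgt k)) ∨
      (N.tgt k = w ∧ z = D.pos (N.src k))) (U : List (Bool × L)) (s : Bool) : ∃ r sr,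
      (∀ Q, crL (pre (D.pos (N.src k)) (r ++ [(sr, D.pos (N.tgt k))])) Q =
        crL (pre (D.pos w) (U ++ [(s, z)])) Q) ∧ (r.map Prod.snd).Perm (U.map Prod.snd) := by
  rcases h with ⟨rfl, rfl⟩ | ⟨rfl, rfl⟩
  · exact ⟨U, s, fun Q => rfl, List.Perm.refl _⟩
  · obtain ⟨T, s', h1, h2⟩ := exists_rev (D.pos (N.tgt k)) (D.pos (N.src k)) U s
    exact ⟨T, s', h1, h2⟩

/-- A chain that does not alternate has a point where the pages agree. -/
theorem not_alt {L : Type} {r : List (Bool × L)} {s : Bool} (h : ¬ Alt r s) (b : L) :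
    ∃ R1 p q R2 t, r ++ [(s, b)] = R1 ++ (t, p) :: (t, q) :: R2 := by
  induction r with
  | nil => exact absurd trivial h
  | cons x r ih =>
    obtain ⟨s₁, p⟩ := x
    cases r with
    | nil =>
      simp only [Alt, ne_eq, not_not] at h
      subst h
      exact ⟨[], p, b, [], s₁, rfl⟩
    | cons y r =>
      obtain ⟨s₂, q⟩ := y
      simp only [Alt, ne_eq, not_and_or, not_not] at h
      by_cases h1 : s₁ = s₂
      · subst h1
        exact ⟨[], p, q, r ++ [(s, b)], s₁, rfl⟩
      · rcases h with h | h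
        · exact absurd h h1
        · obtain ⟨R1, p', q', R2, t, h'⟩ := ih h
          exact ⟨(s₁, p) :: R1, p', q', R2, t, by rw [List.cons_append, h']; rfl⟩

/-- Self crossing: two arcs, in this order. -/
theorem exists_self_cross {L : Type} [LinearOrder L] {P : List (Arc L)} (h : crL P P ≠ 0) :
    ∃ P1 A P2 B P3, P = P1 ++ A :: (P2 ++ B :: P3) ∧ X A B ≠ 0 := by
  obtain ⟨A, hA, B, hB, hAB⟩ := exists_of_crL_ne h
  obtain ⟨P1, P2, h⟩ := List.append_of_mem hA
  rw [h, List.mem_append, List.mem_cons] at hB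
  rcases hB with hB | rfl | hB
  · obtain ⟨Q1, Q2, rfl⟩ := List.append_of_mem hB
    exact ⟨Q1, B, Q2, A, P2, by rw [h]; simp, by rwa [X_comm]⟩
  · exact absurd (X_self B) hAB
  · obtain ⟨Q1, Q2, rfl⟩ := List.append_of_mem hB
    exact ⟨P1, A, Q1, B, Q2, h, hAB⟩

/-- Every chain can be shortened to an alternating chain without self crossings, without new
crossings with any list of arcs that avoids the inner points of the chain. -/
theorem exists_normal {L : Type} [LinearOrder L] (a b : L) (s : Bool) (r : List (Bool × L)) :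
    ∃ r' : List (Bool × L), r'.Sublist r ∧ Alt r' s ∧
      crL (arcs a r' s b) (arcs a r' s b) = 0 ∧
      ∀ Q : List (Arc L), (∀ B ∈ Q, ∀ x ∈ r, x.2 ≠ B.p ∧ x.2 ≠ B.q) →
        crL (arcs a r' s b) Q ≤ crL (arcs a r s b) Q := by
  induction hn : r.length using Nat.strong_induction_on generalizing r with
  | _ n ih =>
  subst hn
  by_cases halt : Alt r s
  · by_cases hself : crL (arcs a r s b) (arcs a r s b) = 0
    · exact ⟨r, List.Sublist.refl _, halt, hself, fun Q _ => le_rfl⟩
    obtain ⟨P1, A, P2, B, P3, hP, hAB⟩ := exists_self_cross hself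
    obtain ⟨hup, hI⟩ := X_ne.1 hAB
    have hP' := hP
    rw [arcs_eq_pre] at hP'
    obtain ⟨R1, R, hR, rfl, h1, hR'⟩ := pre_split hP'
    obtain ⟨R2, R3, rfl, rfl, h2, rfl⟩ := pre_split hR'.symm
    have h' : r ++ [(s, b)] = (R1 ++ (A.up, A.q) :: R2) ++ (B.up, B.q) :: R3 := by
      rw [hR]; simp
    obtain ⟨T, hT, hT'⟩ := suffix_concat h'
    have hsub : (R1 ++ T).Sublist r := by
      rw [hT]
      simp
    obtain ⟨r', h3, h4, h5, h6⟩ := ih (R1 ++ T).length (by rw [hT]; simp) (R1 ++ T) rfl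
    refine ⟨r', h3.trans hsub, h4, h5, fun Q hQ => (h6 Q fun B hB x hx =>
      hQ B hB x (hsub.subset hx)).trans ?_⟩
    rw [hP, arcs_eq_pre, List.append_assoc, ← hT', pre_append, crL_append_left, crL_append_left]
    simp only [pre]
    rw [crL_cons_left, crL_cons_left A, crL_append_left, crL_cons_left B, ← h1, ← hup]
    have : crL [⟨A.p, B.q, A.up⟩] Q ≤ crL [A, B] Q := by
      apply crL_le_of
      intro C hC
      rw [crL_cons_left, crL_single, crL_single]
      have := X_shortcut (s := A.up) hI C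
      have e : (⟨B.p, B.q, A.up⟩ : Arc L) = B := by rw [hup]
      rw [e] at this
      exact this
    rw [crL_pair] at this
    omega
  · obtain ⟨R1, p, q, R2, t, h⟩ := not_alt halt b
    have h' : r ++ [(s, b)] = (R1 ++ [(t, p)]) ++ (t, q) :: R2 := by
      rw [h]; simp
    obtain ⟨T, hT, hT'⟩ := suffix_concat h'
    have hsub : (R1 ++ T).Sublist r := by
      rw [hT]
      simp
    have hx : (t, p) ∈ r := by rw [hT]; simp
    obtain ⟨r', h3, h4, h5, h6⟩ := ih (R1 ++ T).length (by rw [hT]; simp) (R1 ++ T) rfl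
    refine ⟨r', h3.trans hsub, h4, h5, fun Q hQ => (h6 Q fun B hB x hx =>
      hQ B hB x (hsub.subset hx)).trans ?_⟩
    rw [arcs_eq_pre, arcs_eq_pre, h, List.append_assoc, ← hT', pre_append, pre_append,
      crL_append_left, crL_append_left]
    simp only [pre]
    rw [crL_cons_left, crL_cons_left ⟨ep _ R1, p, t⟩, crL_cons_left ⟨p, q, t⟩]
    have : crL [⟨ep a R1, q, t⟩] Q ≤ crL [⟨ep a R1, p, t⟩, ⟨p, q, t⟩] Q := by
      apply crL_le_of
      intro B hB
      rw [crL_cons_left, crL_single, crL_single]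
      obtain ⟨h1, h2⟩ := hQ B hB _ hx
      exact X_merge B h1 h2
    rw [crL_pair] at this
    omega

end Nrm

namespace Drawing

open Nrm

variable {V ι : Type} [Fintype ι] [DecidableEq ι] {N : Net V ι} {L : Type} [LinearOrder L]
  {D : Drawing N L} {u v : V}

/-- In a good drawing the pages alternate. -/
theorem good_alt (_hN : N.Simple) (hG : D.Good u v) : ∀ i, Alt (D.inner i) (D.last i) := by
  intro i
  by_contra hc
  obtain ⟨R1, p, q, R2, t, h⟩ := not_alt hc (D.pos (N.tgt i))
  -- inner i = R1 ++ (t,p) :: T , (t,q) :: R2 = T ++ [last]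
  have h' : D.inner i ++ [(D.last i, D.pos (N.tgt i))] = (R1 ++ [(t, p)]) ++ (t, q) :: R2 := by
    rw [h]; simp
  obtain ⟨T, hT, hT'⟩ := suffix_concat h'
  have hsub : (R1 ++ T).Sublist (D.inner i) := by
    rw [hT]
    simp
  have hx : (t, p) ∈ D.inner i := by rw [hT]; simp
  refine not_good_of_upd D i (R1 ++ T) hsub hG (by rw [hT]; simp) fun j hj => ?_
  rw [path_eq_pre D i, h, List.append_assoc, ← hT', pre_append, pre_append, crL_append_left,
    crL_append_left]
  simp only [pre]
  rw [crL_cons_left, crL_cons_left ⟨ep _ R1, p, t⟩, crL_cons_left ⟨p, q, t⟩]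
  have : crL [⟨ep (D.pos (N.src i)) R1, q, t⟩] (D.path j) ≤
      crL [⟨ep (D.pos (N.src i)) R1, p, t⟩, ⟨p, q, t⟩] (D.path j) := by
    apply crL_le_of
    intro B hB
    rw [crL_cons_left, crL_single, crL_single]
    obtain ⟨h1, h2⟩ := ne_of_mem_path D (Ne.symm hj) hx hB
    exact X_merge B h1 h2
  rw [crL_pair] at this
  omega


/-- In a good drawing the edges do not cross themselves. -/
theorem good_nocross (_hN : N.Simple) (hG : D.Good u v) : ∀ i, crL (D.path i) (D.path i) = 0 := by
  intro i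
  by_contra hc
  -- two arcs, in this order, that cross
  obtain ⟨P1, A, P2, B, P3, hP, hAB⟩ : ∃ P1 A P2 B P3, D.path i = P1 ++ A :: (P2 ++ B :: P3) ∧
      X A B ≠ 0 := by
    obtain ⟨A, hA, B, hB, hAB⟩ := exists_of_crL_ne hc
    obtain ⟨P1, P2, h⟩ := List.append_of_mem hA
    rw [h] at hB
    rw [List.mem_append, List.mem_cons] at hB
    rcases hB with hB | rfl | hB
    · obtain ⟨Q1, Q2, rfl⟩ := List.append_of_mem hB
      exact ⟨Q1, B, Q2, A, P2, by rw [h]; simp, by rwa [X_comm]⟩
    · exact absurd (X_self B) hAB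
    · obtain ⟨Q1, Q2, rfl⟩ := List.append_of_mem hB
      exact ⟨P1, A, Q1, B, Q2, h, hAB⟩
  obtain ⟨hup, hI⟩ := X_ne.1 hAB
  have hP' := hP
  rw [path_eq_pre] at hP'
  obtain ⟨R1, R, hR, rfl, h1, hR'⟩ := pre_split hP'
  obtain ⟨R2, R3, rfl, rfl, h2, rfl⟩ := pre_split hR'.symm
  -- full list = R1 ++ (A.up, A.q) :: (R2 ++ (B.up, B.q) :: R3)
  have h' : D.inner i ++ [(D.last i, D.pos (N.tgt i))] =
      (R1 ++ (A.up, A.q) :: R2) ++ (B.up, B.q) :: R3 := by
    rw [hR]; simp
  obtain ⟨T, hT, hT'⟩ := suffix_concat h'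
  have hsub : (R1 ++ T).Sublist (D.inner i) := by
    rw [hT]
    simp
  refine not_good_of_upd D i (R1 ++ T) hsub hG (by rw [hT]; simp) fun j hj => ?_
  rw [hP, List.append_assoc, ← hT', pre_append, crL_append_left, crL_append_left]
  simp only [pre]
  rw [crL_cons_left, crL_cons_left A, crL_append_left, crL_cons_left B, ← h1, ← hup]
  have : crL [⟨A.p, B.q, A.up⟩] (D.path j) ≤ crL [A, B] (D.path j) := by
    apply crL_le_of
    intro C hC
    rw [crL_cons_left, crL_single, crL_single]
    have := X_shortcut (s := A.up) hI C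
    have e : (⟨B.p, B.q, A.up⟩ : Arc L) = B := by rw [hup]
    rw [e] at this
    exact this
  rw [crL_pair] at this
  omega


/-- In a good drawing adjacent edges do not cross. -/
theorem good_adj (hN : N.Simple) (hG : D.Good u v) :
    ∀ i j, i ≠ j → (∃ w, N.Inc i w ∧ N.Inc j w) → crL (D.path i) (D.path j) = 0 := by
  rintro i j hij ⟨w, hi, hj⟩
  by_contra hc
  obtain ⟨T, s, z, hT, hT', hz⟩ := exists_orient D hi
  obtain ⟨T', s', z', hU, hU', hz'⟩ := exists_orient D hj
  have e1 : crL (pre (D.pos w) (T ++ [(s, z)])) (pre (D.pos w) (T' ++ [(s', z')])) =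
      crL (D.path i) (D.path j) := by
    rw [hT, crL_comm, hU, crL_comm]
  have e2 : crL (pre (D.pos w) (T ++ [(s, z)])) (pre (D.pos w) (T ++ [(s, z)])) = 0 := by
    rw [hT, crL_comm, hT, good_nocross hN hG i]
  have e3 : crL (pre (D.pos w) (T' ++ [(s', z')])) (pre (D.pos w) (T' ++ [(s', z')])) = 0 := by
    rw [hU, crL_comm, hU, good_nocross hN hG j]
  obtain ⟨U, U', hp, h1, h2⟩ := exists_uncross (by rwa [e1]) e2 e3
  obtain ⟨r, sr, hr, hr'⟩ := exists_realize D hz U s
  obtain ⟨t, st, ht, ht'⟩ := exists_realize D hz' U' s'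
  have hperm : ((r ++ t).map Prod.snd).Perm ((D.inner i ++ D.inner j).map Prod.snd) := by
    rw [List.map_append, List.map_append]
    refine (hr'.append ht').trans ?_
    rw [← List.map_append]
    refine (hp.map _).trans ?_
    rw [List.map_append]
    exact hT'.append hU'
  have hlt := upd2_dcr_lt D hij r t sr st hperm (fun Q => by
    rw [hr, ht, ← hT, ← hU]; exact h1 Q) (by
    rw [hr, crL_comm, ht, crL_comm, ← e1]; exact h2)
  exact absurd (hG.opt L (upd2 D hij r t sr st hperm)) (not_le.2 hlt)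

end Drawing
end MP60f107

end

section

/-!
Definitions of the drawing part.
-/

namespace MP60f107

open Finset

section Basic

variable {L L' : Type}

/-- The image of an arc under a map of the spine. -/
def Arc.map (φ : L → L') (A : Arc L) : Arc L' := ⟨φ A.p, φ A.q, A.up⟩

/-- The arc traversed in the other direction. -/
def Arc.swap (A : Arc L) : Arc L := ⟨A.q, A.p, A.up⟩

/-- The points of a chain moved by `φ`. -/
def mapPts (φ : L → L') (r : List (Bool × L)) : List (Bool × L') := r.map fun x => (x.1, φ x.2)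

/-- The chain `r, s` read backwards. -/
def rev : List (Bool × L) → Bool → List (Bool × L) × Bool
  | [], s => ([], s)
  | (s₁, p) :: r, s => ((rev r s).1 ++ [((rev r s).2, p)], s₁)

end Basic

variable {V ι : Type}

/-- Add an edge from `u` to `v`. -/
def Net.add (N : Net V ι) (u v : V) : Net V (Option ι) :=
  ⟨fun o => o.elim u N.src, fun o => o.elim v N.tgt⟩

/-- Reverse the orientation of the edges in `S`. -/
def Net.flip (N : Net V ι) (S : ι → Bool) : Net V ι :=
  ⟨fun i => if S i then N.tgt i else N.src i, fun i => if S i then N.src i else N.tgt i⟩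

open Classical in
/-- The degree of `w`. -/
noncomputable def Net.deg [Fintype ι] (N : Net V ι) (w : V) : ℕ :=
  (univ.filter fun i => N.Inc i w).card

/-- The standard form of a good drawing: every edge has at most one row; the edges with a row are
oriented so that they arrive at the row from below (lower page). -/
structure Std [Fintype ι] [DecidableEq ι] (N : Net V ι) (L : Type) [LinearOrder L] (u v : V) where
  D : Drawing N L
  good : D.Good u v
  simple : N.Simple
  nadj : ∀ i, s(N.src i, N.tgt i) ≠ s(u, v)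
  /-- number of rows -/
  n : ℕ
  /-- the edge at a row -/
  row : Fin n → ι
  /-- the point of a row -/
  x : Fin n → L
  lo : Fin n → List (Bool × L)
  hi : Fin n → List (Bool × L)
  row_inj : Function.Injective row
  x_mono : StrictMono x
  x_btw : ∀ t, D.pos u < x t ∧ x t < D.pos v
  inner_eq : ∀ t, D.inner (row t) = lo t ++ (false, x t) :: hi t
  lo_out : ∀ t, ∀ y ∈ lo t, ¬ (D.pos u < y.2 ∧ y.2 < D.pos v)
  hi_out : ∀ t, ∀ y ∈ hi t, ¬ (D.pos u < y.2 ∧ y.2 < D.pos v)
  other : ∀ i, (∀ t, row t ≠ i) → ∀ y ∈ D.inner i, ¬ (D.pos u < y.2 ∧ y.2 < D.pos v)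
  not_inc : ∀ t, ¬ N.Inc (row t) u ∧ ¬ N.Inc (row t) v
  alt : ∀ i, Alt (D.inner i) (D.last i)
  nocross : ∀ i, crL (D.path i) (D.path i) = 0
  adj : ∀ i j, i ≠ j → (∃ w, N.Inc i w ∧ N.Inc j w) → crL (D.path i) (D.path j) = 0

namespace Std

variable [Fintype ι] [DecidableEq ι] {N : Net V ι} {L : Type} [LinearOrder L] {u v : V}
  (S : Std N L u v)

/-- The two parts of the edge at row `t`: side `false` from the source to the row (arrives in the
lower page), side `true` from the row to the target (leaves in the upper page). -/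
def part (a : Fin S.n × Bool) : List (Arc L) :=
  if a.2 then arcs (S.x a.1) (S.hi a.1) (S.D.last (S.row a.1)) (S.D.pos (N.tgt (S.row a.1)))
  else arcs (S.D.pos (N.src (S.row a.1))) (S.lo a.1) false (S.x a.1)

/-- The vertex at an end. -/
def e (a : Fin S.n × Bool) : V := if a.2 then N.tgt (S.row a.1) else N.src (S.row a.1)

/-- Crossings of a part with the other edges. -/
def c (a : Fin S.n × Bool) : ℕ :=
  ∑ j, if j = S.row a.1 then 0 else crL (S.part a) (S.D.path j)

/-- Crossings of two parts of different edges. -/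
def xx (a b : Fin S.n × Bool) : ℕ := if a.1 = b.1 then 0 else crL (S.part a) (S.part b)

open Classical in
/-- The number of edges at `w` without a row. -/
noncomputable def fdeg (w : V) : ℕ := (univ.filter fun i => N.Inc i w ∧ ∀ t, S.row t ≠ i).card

theorem e_ne (t : Fin S.n) : S.e (t, false) ≠ S.e (t, true) := by
  simpa [e] using S.simple.loopless (S.row t)

theorem e_inj (t t' : Fin S.n)
    (h : s(S.e (t, false), S.e (t, true)) = s(S.e (t', false), S.e (t', true))) : t = t' := by
  refine S.row_inj (S.simple.inj _ _ ?_)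
  simpa [e] using h

/-- The configuration of a standard drawing, for given heights of the vertices. -/
noncomputable abbrev cfg [Fintype V] [DecidableEq V] (r : V → ℕ) (hr : ∀ w, r w ≤ S.n)
    (hf : ∀ a, 1 ≤ S.fdeg (S.e a)) : Cfg V where
  N := S.n
  e := S.e
  r := r
  f := S.fdeg
  hr := hr
  hne := S.e_ne
  hinj := S.e_inj
  hf := hf

open Classical in
/-- The place where the side `b` of edge `i` is attached after moving the ends of `G`: the main copy
`inl w` for a moved end or a vertex without moved ends, the old copy `inr w` otherwise. -/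
noncomputable def att (G : Finset (Fin S.n × Bool)) {W : Type} (ω : W → V) (b : Bool) (i : ι) :
    V ⊕ W :=
  if ∃ t, S.row t = i ∧ (t, b) ∈ G then Sum.inl (if b then N.tgt i else N.src i)
  else if h : ∃ w : W, ω w = (if b then N.tgt i else N.src i) then Sum.inr h.choose
  else Sum.inl (if b then N.tgt i else N.src i)

end Std

/-- The net in which each vertex `ω w` (`w : W`) gets a second copy `inr w` joined to it by the
guide edge `inr w`; the edge `i` goes from `σ i` to `τ i`. -/
def splitNet {W : Type} (ω : W → V) (σ τ : ι → V ⊕ W) : Net (V ⊕ W) (ι ⊕ W) :=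
  ⟨Sum.elim σ (fun w => Sum.inl (ω w)), Sum.elim τ Sum.inr⟩

end MP60f107

end

section

/-!
Finger moves, part 1: basic facts on crossings of chains, substitution of chains, duality.
-/

namespace MP60f107
namespace Fg

open Finset

variable {V ι L L' : Type}

theorem arcs_append (a : L) (r : List (Bool × L)) (s₁ : Bool) (p : L) (r' : List (Bool × L))
    (s : Bool) (b : L) :
    arcs a (r ++ (s₁, p) :: r') s b = arcs a r s₁ p ++ arcs p r' s b := by
  induction r generalizing a with
  | nil => simp [arcs]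
  | cons x r ih => simp [arcs, ih]

theorem mem_arcs_left {a b : L} {r : List (Bool × L)} {s : Bool} {A : Arc L}
    (h : A ∈ arcs a r s b) : A.p = a ∨ ∃ y ∈ r, A.p = y.2 := by
  induction r generalizing a with
  | nil => simp [arcs] at h; left; rw [h]
  | cons x r ih =>
    simp only [arcs, List.mem_cons] at h
    rcases h with h | h
    · left; rw [h]
    · right
      rcases ih h with h | ⟨y, hy, h⟩
      · exact ⟨x, by simp, h⟩
      · exact ⟨y, by simp [hy], h⟩

theorem mem_arcs_right {a b : L} {r : List (Bool × L)} {s : Bool} {A : Arc L}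
    (h : A ∈ arcs a r s b) : A.q = b ∨ ∃ y ∈ r, A.q = y.2 := by
  induction r generalizing a with
  | nil => simp [arcs] at h; left; rw [h]
  | cons x r ih =>
    simp only [arcs, List.mem_cons] at h
    rcases h with h | h
    · right; exact ⟨x, by simp, by rw [h]⟩
    · rcases ih h with h | ⟨y, hy, h⟩
      · exact Or.inl h
      · exact Or.inr ⟨y, by simp [hy], h⟩

theorem arcs_map (φ : L → L') (a : L) (r : List (Bool × L)) (s : Bool) (b : L) :
    arcs (φ a) (mapPts φ r) s (φ b) = (arcs a r s b).map (Arc.map φ) := by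
  induction r generalizing a with
  | nil => rfl
  | cons x r ih =>
    obtain ⟨s₁, p⟩ := x
    have := ih p
    simp only [mapPts] at this
    simp [arcs, mapPts, Arc.map, this]

section crossings

variable [LinearOrder L] [LinearOrder L']

theorem Ilv_comm (a b c d : L) : Ilv a b c d ↔ Ilv c d a b := by
  unfold Ilv Btw Ots; grind (splits := 60)

theorem Ilv_swap_left (a b c d : L) : Ilv b a c d ↔ Ilv a b c d := by
  unfold Ilv Btw Ots; grind (splits := 60)

theorem Ilv_swap_right (a b c d : L) : Ilv a b d c ↔ Ilv a b c d := by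
  unfold Ilv Btw Ots; grind (splits := 60)

theorem X_comm (A B : Arc L) : X A B = X B A := by
  unfold X; simp only [Ilv_comm A.p, eq_comm (a := A.up)]

theorem X_swap_left (a b : L) (s : Bool) (B : Arc L) : X ⟨b, a, s⟩ B = X ⟨a, b, s⟩ B := by
  unfold X; simp only [Ilv_swap_left]

theorem X_swap_right (a b : L) (s : Bool) (B : Arc L) : X B ⟨b, a, s⟩ = X B ⟨a, b, s⟩ := by
  rw [X_comm, X_swap_left, X_comm]

theorem X_of_up {A B : Arc L} (h : A.up ≠ B.up) : X A B = 0 := by
  unfold X; rw [if_neg]; exact fun h' => h h'.1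

@[simp] theorem crL_nil_left (Q : List (Arc L)) : crL [] Q = 0 := rfl

@[simp] theorem crL_nil_right (P : List (Arc L)) : crL P [] = 0 := by
  unfold crL; simp

theorem crL_cons_left (A : Arc L) (P Q : List (Arc L)) :
    crL (A :: P) Q = (Q.map fun B => X A B).sum + crL P Q := by
  unfold crL; simp

theorem crL_append_left (P P' Q : List (Arc L)) : crL (P ++ P') Q = crL P Q + crL P' Q := by
  unfold crL; simp

theorem crL_append_right (P Q Q' : List (Arc L)) : crL P (Q ++ Q') = crL P Q + crL P Q' := by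
  induction P with
  | nil => simp
  | cons A P ih =>
    rw [crL_cons_left, crL_cons_left, crL_cons_left, ih]
    simp only [List.map_append, List.sum_append]
    omega

theorem crL_cons_left' (A : Arc L) (P Q : List (Arc L)) :
    crL (A :: P) Q = crL [A] Q + crL P Q := crL_append_left [A] P Q

theorem crL_cons_right (P : List (Arc L)) (B : Arc L) (Q : List (Arc L)) :
    crL P (B :: Q) = crL P [B] + crL P Q := crL_append_right P [B] Q

@[simp] theorem crL_single (A B : Arc L) : crL [A] [B] = X A B := by simp [crL]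

theorem crL_comm (P Q : List (Arc L)) : crL P Q = crL Q P := by
  induction P with
  | nil => simp
  | cons A P ih =>
    rw [crL_cons_left', crL_cons_right, ih]
    congr 1
    induction Q with
    | nil => simp
    | cons B Q ih' => 
      have : crL P (B :: Q) = crL (B :: Q) P := ih
      rw [crL_cons_right, crL_cons_left' B Q]
      rw [crL_single, crL_single, X_comm]
      congr 1
      clear ih this ih'
      induction Q with
      | nil => simp
      | cons C Q ih => rw [crL_cons_right, crL_cons_left' C Q, ih, crL_single, crL_single, X_comm]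

theorem crL_flatMap_left {β : Type} (P : List β) (f : β → List (Arc L)) (Q : List (Arc L)) :
    crL (P.flatMap f) Q = (P.map fun A => crL (f A) Q).sum := by
  induction P with
  | nil => simp
  | cons A P ih => simp [List.flatMap_cons, crL_append_left, ih]

theorem crL_flatMap_right {β : Type} (P : List (Arc L)) (Q : List β) (g : β → List (Arc L)) :
    crL P (Q.flatMap g) = (Q.map fun B => crL P (g B)).sum := by
  rw [crL_comm, crL_flatMap_left]
  simp only [crL_comm P]

theorem crL_eq_sum_right (P Q : List (Arc L)) : crL P Q = (Q.map fun B => crL P [B]).sum := by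
  induction Q with
  | nil => simp
  | cons B Q ih => rw [crL_cons_right]; simp [ih]

theorem crL_flatMap_le (P Q : List (Arc L)) (f g : Arc L → List (Arc L'))
    (h : ∀ A ∈ P, ∀ B ∈ Q, crL (f A) (g B) ≤ X A B) :
    crL (P.flatMap f) (Q.flatMap g) ≤ crL P Q := by
  rw [crL_flatMap_left]
  unfold crL
  apply List.sum_le_sum
  intro A hA
  have := crL_flatMap_right (f A) Q g
  unfold crL at this
  rw [this]
  apply List.sum_le_sum
  intro B hB
  have := h A hA B hB
  unfold crL at this
  exact this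

theorem crL_flatMap_right_le {P : List (Arc L)} {P' : List (Arc L')} (Q : List (Arc L))
    (g : Arc L → List (Arc L'))
    (h : ∀ B ∈ Q, crL P' (g B) ≤ crL P [B]) :
    crL P' (Q.flatMap g) ≤ crL P Q := by
  rw [crL_flatMap_right, crL_eq_sum_right]
  exact List.sum_le_sum h

theorem Ilv_map {φ : L → L'} (hφ : StrictMono φ) (a b c d : L) :
    Ilv (φ a) (φ b) (φ c) (φ d) ↔ Ilv a b c d := by
  simp only [Ilv, Btw, Ots, hφ.lt_iff_lt]

theorem X_map {φ : L → L'} (hφ : StrictMono φ) (A B : Arc L) :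
    X (A.map φ) (B.map φ) = X A B := by
  simp only [X, Arc.map, Ilv_map hφ]

theorem crL_map {φ : L → L'} (hφ : StrictMono φ) (P Q : List (Arc L)) :
    crL (P.map (Arc.map φ)) (Q.map (Arc.map φ)) = crL P Q := by
  unfold crL
  simp only [List.map_map, Function.comp_def, X_map hφ]

theorem Ilv_anti {φ : L → L'} (hφ : StrictAnti φ) (a b c d : L) :
    Ilv (φ a) (φ b) (φ c) (φ d) ↔ Ilv a b c d := by
  simp only [Ilv, Btw, Ots, hφ.lt_iff_gt]
  tauto

theorem X_anti {φ : L → L'} (hφ : StrictAnti φ) (A B : Arc L) :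
    X (A.map φ) (B.map φ) = X A B := by
  simp only [X, Arc.map, Ilv_anti hφ]

theorem crL_anti {φ : L → L'} (hφ : StrictAnti φ) (P Q : List (Arc L)) :
    crL (P.map (Arc.map φ)) (Q.map (Arc.map φ)) = crL P Q := by
  unfold crL
  simp only [List.map_map, Function.comp_def, X_anti hφ]

end crossings

/-! ### Duality -/

/-- The drawing with the spine reversed. -/
def dual {N : Net V ι} [LinearOrder L] (D : Drawing N L) : Drawing N Lᵒᵈ where
  pos w := OrderDual.toDual (D.pos w)
  inner i := mapPts OrderDual.toDual (D.inner i)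
  last := D.last
  pos_inj := fun x y h => D.pos_inj (OrderDual.toDual.injective h)
  nodup i := by
    have h := (D.nodup i).map (OrderDual.toDual : L ≃ Lᵒᵈ).injective
    rw [List.map_map] at h
    unfold mapPts
    rw [List.map_map]
    exact h
  disj i j hij x hx y hy := by
    simp only [mapPts, List.mem_map] at hx hy
    obtain ⟨x', hx', rfl⟩ := hx
    obtain ⟨y', hy', rfl⟩ := hy
    exact fun h => D.disj i j hij x' hx' y' hy' (OrderDual.toDual.injective h)
  avoid i x hx w := by
    simp only [mapPts, List.mem_map] at hx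
    obtain ⟨x', hx', rfl⟩ := hx
    exact fun h => D.avoid i x' hx' w (OrderDual.toDual.injective h)

theorem dual_path {N : Net V ι} [LinearOrder L] (D : Drawing N L) (i : ι) :
    (dual D).path i = (D.path i).map (Arc.map OrderDual.toDual) := by
  unfold Drawing.path
  exact arcs_map (OrderDual.toDual : L → Lᵒᵈ) _ _ _ _

theorem dual_dcr {N : Net V ι} [LinearOrder L] [Fintype ι] [DecidableEq ι] (D : Drawing N L) :
    (dual D).dcr = D.dcr := by
  unfold Drawing.dcr
  simp only [dual_path, crL_anti (φ := (OrderDual.toDual : L → Lᵒᵈ)) (fun a b h => h)]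

/-! ### Substitution of chains -/

/-- The inner points of the chain in which each arc `A` is replaced by the chain from `F A.p` through
`ins A` to `F A.q`. -/
def sub (F : L → L') (ins : Arc L → List (Bool × L')) (fin : Arc L → Bool) :
    L → List (Bool × L) → Bool → L → List (Bool × L')
  | a, [], s, b => ins ⟨a, b, s⟩
  | a, (s₁, p) :: r, s, b => ins ⟨a, p, s₁⟩ ++ (fin ⟨a, p, s₁⟩, F p) :: sub F ins fin p r s b

/-- The last page of the substituted chain. -/
def subLast (fin : Arc L → Bool) : L → List (Bool × L) → Bool → L → Bool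
  | a, [], s, b => fin ⟨a, b, s⟩
  | _, (_, p) :: r, s, b => subLast fin p r s b

/-- The image of an arc. -/
def img (F : L → L') (ins : Arc L → List (Bool × L')) (fin : Arc L → Bool) (A : Arc L) :
    List (Arc L') :=
  arcs (F A.p) (ins A) (fin A) (F A.q)

theorem arcs_sub (F : L → L') (ins : Arc L → List (Bool × L')) (fin : Arc L → Bool) (a : L)
    (r : List (Bool × L)) (s : Bool) (b : L) :
    arcs (F a) (sub F ins fin a r s b) (subLast fin a r s b) (F b) =
      (arcs a r s b).flatMap (img F ins fin) := by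
  induction r generalizing a with
  | nil => simp [sub, subLast, arcs, img]
  | cons x r ih =>
    obtain ⟨s₁, p⟩ := x
    simp only [sub, subLast, arcs_append, ih, arcs, List.flatMap_cons]
    rfl

theorem mem_sub {F : L → L'} {ins : Arc L → List (Bool × L')} {fin : Arc L → Bool} {a : L}
    {r : List (Bool × L)} {s : Bool} {b : L} {x : Bool × L'} (h : x ∈ sub F ins fin a r s b) :
    (∃ y ∈ r, x.2 = F y.2) ∨ ∃ A ∈ arcs a r s b, x ∈ ins A := by
  induction r generalizing a with
  | nil => exact Or.inr ⟨_, by simp [arcs], h⟩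
  | cons z r ih =>
    obtain ⟨s₁, p⟩ := z
    simp only [sub, List.mem_append, List.mem_cons] at h
    rcases h with h | h | h
    · exact Or.inr ⟨_, by simp [arcs], h⟩
    · exact Or.inl ⟨(s₁, p), by simp, by rw [h]⟩
    · rcases ih h with ⟨y, hy, h⟩ | ⟨A, hA, h⟩
      · exact Or.inl ⟨y, by simp [hy], h⟩
      · exact Or.inr ⟨A, by simp [arcs, hA], h⟩

theorem countP_sub (F : L → L') (ins : Arc L → List (Bool × L')) (fin : Arc L → Bool)
    (Q : L' → Bool) (a : L) (r : List (Bool × L)) (s : Bool) (b : L) :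
    (sub F ins fin a r s b).countP (fun x => Q x.2) =
      r.countP (fun x => Q (F x.2)) +
        ((arcs a r s b).map fun A => (ins A).countP (fun x => Q x.2)).sum := by
  induction r generalizing a with
  | nil => simp [sub, arcs]
  | cons z r ih =>
    obtain ⟨s₁, p⟩ := z
    simp only [sub, arcs, List.countP_append, List.countP_cons, ih, List.map_cons, List.sum_cons]
    omega

/-- Conditions on the substitution data. -/
structure Sub (F : L → L') (ins : Arc L → List (Bool × L')) : Prop where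
  inj : Function.Injective F
  fresh : ∀ A, ∀ x ∈ ins A, ∀ y, x.2 ≠ F y
  nodup : ∀ A, ((ins A).map Prod.snd).Nodup
  disj : ∀ A B, s(A.p, A.q) ≠ s(B.p, B.q) → ∀ x ∈ ins A, ∀ y ∈ ins B, x.2 ≠ y.2

theorem Sub.nodup_sub {F : L → L'} {ins : Arc L → List (Bool × L')} (h : Sub F ins)
    (fin : Arc L → Bool) (a : L) (r : List (Bool × L)) (s : Bool) (b : L)
    (hnd : (r.map Prod.snd).Nodup) (ha : ∀ x ∈ r, x.2 ≠ a) (hb : ∀ x ∈ r, x.2 ≠ b) (hab : a ≠ b) :
    ((sub F ins fin a r s b).map Prod.snd).Nodup := by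
  induction r generalizing a with
  | nil => exact h.nodup _
  | cons z r ih =>
    obtain ⟨s₁, p⟩ := z
    simp only [List.map_cons, List.nodup_cons] at hnd
    have hp : ∀ x ∈ r, x.2 ≠ p := fun x hx hxp => hnd.1 (List.mem_map.2 ⟨x, hx, hxp⟩)
    have hpb : p ≠ b := hb (s₁, p) (by simp)
    have hpa : p ≠ a := ha (s₁, p) (by simp)
    have hr := ih p hnd.2 hp (fun x hx => hb x (by simp [hx])) hpb
    simp only [sub, List.map_append, List.map_cons]
    have key : ∀ y ∈ sub F ins fin p r s b, y.2 ≠ F p ∧ ∀ x ∈ ins ⟨a, p, s₁⟩, x.2 ≠ y.2 := by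
      intro y hy
      rcases mem_sub hy with ⟨w, hw, hyw⟩ | ⟨B, hB, hyB⟩
      · rw [hyw]
        exact ⟨fun hh => hp w hw (h.inj hh), fun x hx => h.fresh _ x hx _⟩
      · refine ⟨h.fresh _ y hyB p, fun x hx => h.disj _ B ?_ x hx y hyB⟩
        intro hs
        have hmem : a ∈ s(B.p, B.q) := by rw [← hs]; simp
        simp only [Sym2.mem_iff] at hmem
        rcases hmem with hm | hm
        · rcases mem_arcs_left hB with h' | ⟨w, hw, h'⟩
          · exact hpa (h'.symm.trans hm.symm)
          · exact ha w (by simp [hw]) (h'.symm.trans hm.symm)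
        · rcases mem_arcs_right hB with h' | ⟨w, hw, h'⟩
          · exact hab (hm.trans h')
          · exact ha w (by simp [hw]) (h'.symm.trans hm.symm)
    rw [List.nodup_append]
    refine ⟨h.nodup _, ?_, ?_⟩
    · rw [List.nodup_cons]
      refine ⟨?_, hr⟩
      intro hmem
      obtain ⟨y, hy, hyp⟩ := List.mem_map.1 hmem
      exact (key y hy).1 hyp
    · intro x hx y hy
      obtain ⟨x', hx', rfl⟩ := List.mem_map.1 hx
      rcases List.mem_cons.1 hy with hy | hy
      · rw [hy]; exact h.fresh _ x' hx' _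
      · obtain ⟨y', hy', rfl⟩ := List.mem_map.1 hy
        exact (key y' hy').2 x' hx'

/-- An arc of a path without repeated points is not a loop. -/
theorem arcs_ne {a b : L} {r : List (Bool × L)} {s : Bool} {A : Arc L}
    (h : A ∈ arcs a r s b) (hnd : (r.map Prod.snd).Nodup) (ha : ∀ x ∈ r, x.2 ≠ a)
    (hb : ∀ x ∈ r, x.2 ≠ b) (hab : a ≠ b) : A.p ≠ A.q := by
  induction r generalizing a with
  | nil => simp [arcs] at h; rw [h]; exact hab
  | cons z r ih =>
    obtain ⟨s₁, p⟩ := z
    simp only [List.map_cons, List.nodup_cons] at hnd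
    simp only [arcs, List.mem_cons] at h
    rcases h with h | h
    · rw [h]; exact (ha (s₁, p) (by simp)).symm
    · exact ih h hnd.2 (fun x hx hxp => hnd.1 (List.mem_map.2 ⟨x, hx, hxp⟩))
        (fun x hx => hb x (by simp [hx])) (hb (s₁, p) (by simp))

section draw

variable [LinearOrder L] [LinearOrder L'] {N : Net V ι}

theorem path_ne (hN : N.Simple) (D : Drawing N L) {i : ι} {A : Arc L} (h : A ∈ D.path i) :
    A.p ≠ A.q :=
  arcs_ne h (D.nodup i) (fun x hx => D.avoid i x hx _) (fun x hx => D.avoid i x hx _)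
    (fun h => hN.loopless i (D.pos_inj h))

theorem path_sym2_ne (hN : N.Simple) (D : Drawing N L) {i j : ι} (hij : i ≠ j) {A B : Arc L}
    (hA : A ∈ D.path i) (hB : B ∈ D.path j) : s(A.p, A.q) ≠ s(B.p, B.q) := by
  intro hs
  have h1 := mem_arcs_left hA
  have h2 := mem_arcs_right hA
  have h3 := mem_arcs_left hB
  have h4 := mem_arcs_right hB
  have key : ∀ x ∈ D.inner i, x.2 ≠ B.p ∧ x.2 ≠ B.q := by
    intro x hx
    constructor
    · rcases h3 with h | ⟨y, hy, h⟩
      · rw [h]; exact D.avoid i x hx _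
      · rw [h]; exact D.disj i j hij x hx y hy
    · rcases h4 with h | ⟨y, hy, h⟩
      · rw [h]; exact D.avoid i x hx _
      · rw [h]; exact D.disj i j hij x hx y hy
  have key' : ∀ x ∈ D.inner j, x.2 ≠ A.p ∧ x.2 ≠ A.q := by
    intro x hx
    constructor
    · rcases h1 with h | ⟨y, hy, h⟩
      · rw [h]; exact D.avoid j x hx _
      · rw [h]; exact D.disj j i hij.symm x hx y hy
    · rcases h2 with h | ⟨y, hy, h⟩
      · rw [h]; exact D.avoid j x hx _
      · rw [h]; exact D.disj j i hij.symm x hx y hy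
  have e1 : A.p = D.pos (N.src i) := by
    rcases h1 with h | ⟨y, hy, h⟩
    · exact h
    · have := key y hy
      rw [Sym2.eq_iff] at hs
      rcases hs with ⟨h', -⟩ | ⟨h', -⟩
      · exact absurd (h.symm.trans h') this.1
      · exact absurd (h.symm.trans h') this.2
  have e2 : A.q = D.pos (N.tgt i) := by
    rcases h2 with h | ⟨y, hy, h⟩
    · exact h
    · have := key y hy
      rw [Sym2.eq_iff] at hs
      rcases hs with ⟨-, h'⟩ | ⟨-, h'⟩
      · exact absurd (h.symm.trans h') this.2
      · exact absurd (h.symm.trans h') this.1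
  have e3 : B.p = D.pos (N.src j) := by
    rcases h3 with h | ⟨y, hy, h⟩
    · exact h
    · have := key' y hy
      rw [Sym2.eq_iff] at hs
      rcases hs with ⟨h', -⟩ | ⟨-, h'⟩
      · exact absurd (h.symm.trans h'.symm) this.1
      · exact absurd (h.symm.trans h'.symm) this.2
  have e4 : B.q = D.pos (N.tgt j) := by
    rcases h4 with h | ⟨y, hy, h⟩
    · exact h
    · have := key' y hy
      rw [Sym2.eq_iff] at hs
      rcases hs with ⟨-, h'⟩ | ⟨h', -⟩
      · exact absurd (h.symm.trans h'.symm) this.2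
      · exact absurd (h.symm.trans h'.symm) this.1
  rw [e1, e2, e3, e4] at hs
  apply hij
  apply hN.inj
  rw [Sym2.eq_iff] at hs ⊢
  rcases hs with ⟨h, h'⟩ | ⟨h, h'⟩
  · exact Or.inl ⟨D.pos_inj h, D.pos_inj h'⟩
  · exact Or.inr ⟨D.pos_inj h, D.pos_inj h'⟩

/-- The substituted drawing. -/
def subst (hN : N.Simple) (D : Drawing N L) {F : L → L'} {ins : Arc L → List (Bool × L')}
    (h : Sub F ins) (fin : Arc L → Bool) : Drawing N L' where
  pos w := F (D.pos w)
  inner i := sub F ins fin (D.pos (N.src i)) (D.inner i) (D.last i) (D.pos (N.tgt i))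
  last i := subLast fin (D.pos (N.src i)) (D.inner i) (D.last i) (D.pos (N.tgt i))
  pos_inj := fun x y hxy => D.pos_inj (h.inj hxy)
  nodup i := h.nodup_sub fin _ _ _ _ (D.nodup i) (fun x hx => D.avoid i x hx _)
    (fun x hx => D.avoid i x hx _) (fun h' => hN.loopless i (D.pos_inj h'))
  disj i j hij x hx y hy := by
    rcases mem_sub hx with ⟨x', hx', hxx⟩ | ⟨A, hA, hxA⟩
    · rcases mem_sub hy with ⟨y', hy', hyy⟩ | ⟨B, hB, hyB⟩
      · rw [hxx, hyy]; exact fun h' => D.disj i j hij x' hx' y' hy' (h.inj h')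
      · rw [hxx]; exact (h.fresh _ y hyB _).symm
    · rcases mem_sub hy with ⟨y', hy', hyy⟩ | ⟨B, hB, hyB⟩
      · rw [hyy]; exact h.fresh _ x hxA _
      · exact h.disj A B (path_sym2_ne hN D hij hA hB) x hxA y hyB
  avoid i x hx w := by
    rcases mem_sub hx with ⟨x', hx', hxx⟩ | ⟨A, hA, hxA⟩
    · rw [hxx]; exact fun h' => D.avoid i x' hx' w (h.inj h')
    · exact h.fresh _ x hxA _

theorem subst_path (hN : N.Simple) (D : Drawing N L) {F : L → L'}
    {ins : Arc L → List (Bool × L')} (h : Sub F ins) (fin : Arc L → Bool) (i : ι) :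
    (subst hN D h fin).path i = (D.path i).flatMap (img F ins fin) := by
  unfold Drawing.path
  exact arcs_sub F ins fin _ _ _ _

theorem subst_dcr_le [Fintype ι] [DecidableEq ι] (hN : N.Simple) (D : Drawing N L) {F : L → L'}
    {ins : Arc L → List (Bool × L')} (h : Sub F ins) (fin : Arc L → Bool)
    (hle : ∀ i j, i ≠ j → ∀ A ∈ D.path i, ∀ B ∈ D.path j,
      crL (img F ins fin A) (img F ins fin B) ≤ X A B) :
    (subst hN D h fin).dcr ≤ D.dcr := by
  unfold Drawing.dcr
  refine Finset.sum_le_sum fun i _ => Finset.sum_le_sum fun j _ => ?_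
  split_ifs with hij
  · exact le_rfl
  · rw [subst_path, subst_path]
    exact crL_flatMap_le _ _ _ _ (hle i j hij)

end draw

end Fg
end MP60f107

end

section

/-!
Finger moves, part 2: pushing the arcs that separate `(u, e)` towards `e`.
-/

namespace MP60f107
namespace Fg

variable {L L' : Type} [LinearOrder L] [LinearOrder L']

theorem X_same (a b c d : L) (π : Bool) : X ⟨a, b, π⟩ ⟨c, d, π⟩ = if Ilv a b c d then 1 else 0 := by
  simp [X]

theorem X_diff (a b c d : L) (π : Bool) : X ⟨a, b, π⟩ ⟨c, d, !π⟩ = 0 := by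
  simp [X]

theorem X_diff' (a b c d : L) (π : Bool) : X ⟨a, b, !π⟩ ⟨c, d, π⟩ = 0 := by
  simp [X]

theorem ite_le_of {P Q : Prop} [Decidable P] [Decidable Q] (h : P → Q) :
    (if P then 1 else 0 : ℕ) ≤ if Q then 1 else 0 := by
  split_ifs <;> simp_all

theorem ite2_le_of {P P' Q : Prop} [Decidable P] [Decidable P'] [Decidable Q] (h : P → Q)
    (h' : P' → Q) (h'' : P → P' → False) :
    (if P then 1 else 0 : ℕ) + (if P' then 1 else 0) ≤ if Q then 1 else 0 := by
  split_ifs <;> simp_all

/-- order of the pairs -/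
def klt (u a b a' b' : L) : Prop :=
  a < a' ∨ (a = a' ∧ ((¬ u < b ∧ u < b') ∨ ((u < b ↔ u < b') ∧ b' < b)))

/-- A spine with new points just left of `e`. -/
structure PushData (L L' : Type) [LinearOrder L] [LinearOrder L'] (u e : L) where
  φ : L → L'
  α : L → L → L'
  β : L → L → L'
  c : L'
  hφ : StrictMono φ
  φ_lt_α : ∀ x a b, x < e → φ x < α a b
  α_lt_c : ∀ a b, α a b < c
  c_lt_β : ∀ a b, c < β a b
  β_lt_φ : ∀ x a b, e ≤ x → β a b < φ x
  hα : ∀ a b a' b', α a b < α a' b' ↔ klt u a' b' a b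
  hβ : ∀ a b a' b', β a b < β a' b' ↔ klt u a b a' b'

/-- The key of a pair. -/
def key (u a b : L) : L ×ₗ (Bool ×ₗ Lᵒᵈ) := toLex (a, toLex (decide (u < b), OrderDual.toDual b))

theorem key_lt (u a b a' b' : L) : key u a b < key u a' b' ↔ klt u a b a' b' := by
  unfold key klt
  rw [Prod.Lex.toLex_lt_toLex, Prod.Lex.toLex_lt_toLex]
  simp only [OrderDual.toDual_lt_toDual, decide_eq_decide, Bool.lt_iff, decide_eq_false_iff_not,
    decide_eq_true_eq]

theorem key_inj {u a b a' b' : L} (h : key u a b = key u a' b') : a = a' ∧ b = b' := by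
  unfold key at h
  have h' := toLex_inj.1 h
  rw [Prod.mk.injEq] at h'
  refine ⟨h'.1, ?_⟩
  have h'' := toLex_inj.1 h'.2
  rw [Prod.mk.injEq] at h''
  exact OrderDual.toDual_inj.1 h''.2

theorem klt_trichotomy (u a b a' b' : L) : klt u a b a' b' ∨ (a = a' ∧ b = b') ∨ klt u a' b' a b := by
  rcases lt_trichotomy (key u a b) (key u a' b') with h | h | h
  · exact Or.inl ((key_lt _ _ _ _ _).1 h)
  · exact Or.inr (Or.inl (key_inj h))
  · exact Or.inr (Or.inr ((key_lt _ _ _ _ _).1 h))

theorem klt_asymm {u a b a' b' : L} (h : klt u a b a' b') : ¬ klt u a' b' a b := by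
  rw [← key_lt] at h ⊢
  exact lt_asymm h

theorem exists_push (u e : L) : ∃ (L' : Type) (_ : LinearOrder L'), Nonempty (PushData L L' u e) := by
  refine ⟨L ×ₗ (ℕ ×ₗ ((L ×ₗ (Bool ×ₗ Lᵒᵈ))ᵒᵈ ×ₗ (L ×ₗ (Bool ×ₗ Lᵒᵈ)))), inferInstance, ⟨?_⟩⟩
  have hirr : ¬ klt u e e e e := fun h => klt_asymm h h
  exact
    { φ := fun x => toLex (x, toLex (3, toLex (OrderDual.toDual (key u e e), key u e e)))
      α := fun a b => toLex (e, toLex (0, toLex (OrderDual.toDual (key u a b), key u e e)))
      β := fun a b => toLex (e, toLex (2, toLex (OrderDual.toDual (key u e e), key u a b)))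
      c := toLex (e, toLex (1, toLex (OrderDual.toDual (key u e e), key u e e)))
      hφ := fun x y hxy => by
        simp only [Prod.Lex.toLex_lt_toLex]; exact Or.inl hxy
      φ_lt_α := fun x a b hx => by
        simp only [Prod.Lex.toLex_lt_toLex]; exact Or.inl hx
      α_lt_c := fun a b => by
        simp only [Prod.Lex.toLex_lt_toLex]; simp
      c_lt_β := fun a b => by
        simp only [Prod.Lex.toLex_lt_toLex]; simp
      β_lt_φ := fun x a b hx => by
        simp only [Prod.Lex.toLex_lt_toLex]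
        rcases hx.lt_or_eq with h | h
        · exact Or.inl h
        · right; exact ⟨h, Or.inl (by norm_num)⟩
      hα := fun a b a' b' => by
        simp only [Prod.Lex.toLex_lt_toLex, OrderDual.toDual_lt_toDual, key_lt]
        simp [hirr]
      hβ := fun a b a' b' => by
        simp only [Prod.Lex.toLex_lt_toLex, key_lt]
        simp }

namespace PushData

variable {u e : L} (P : PushData L L' u e) (π : Bool)

theorem α_inj {a b a' b' : L} (h : P.α a b = P.α a' b') : a = a' ∧ b = b' := by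
  rcases klt_trichotomy u a b a' b' with h' | h' | h'
  · exact absurd ((P.hα _ _ _ _).2 h') (by rw [h]; exact lt_irrefl _)
  · exact h'
  · exact absurd ((P.hα _ _ _ _).2 h') (by rw [h]; exact lt_irrefl _)

theorem β_inj {a b a' b' : L} (h : P.β a b = P.β a' b') : a = a' ∧ b = b' := by
  rcases klt_trichotomy u a b a' b' with h' | h' | h'
  · exact absurd ((P.hβ _ _ _ _).2 h') (by rw [h]; exact lt_irrefl _)
  · exact h'
  · exact absurd ((P.hβ _ _ _ _).2 h') (by rw [h]; exact lt_irrefl _)

theorem α_ne_φ (a b x : L) : P.α a b ≠ P.φ x := by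
  rcases lt_or_ge x e with h | h
  · exact (P.φ_lt_α x a b h).ne'
  · exact (((P.α_lt_c a b).trans (P.c_lt_β a b)).trans (P.β_lt_φ x a b h)).ne

theorem β_ne_φ (a b x : L) : P.β a b ≠ P.φ x := by
  rcases lt_or_ge x e with h | h
  · exact (((P.φ_lt_α x a b h).trans (P.α_lt_c a b)).trans (P.c_lt_β a b)).ne'
  · exact (P.β_lt_φ x a b h).ne

theorem c_ne_φ (x : L) : P.c ≠ P.φ x := by
  rcases lt_or_ge x e with h | h
  · exact ((P.φ_lt_α x e e h).trans (P.α_lt_c e e)).ne'
  · exact ((P.c_lt_β e e).trans (P.β_lt_φ x e e h)).ne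

theorem α_ne_β (a b a' b' : L) : P.α a b ≠ P.β a' b' :=
  ((P.α_lt_c a b).trans (P.c_lt_β a' b')).ne

/-- The inserted points. -/
def ins (A : Arc L) : List (Bool × L') :=
  if A.up = π then
    if (u < A.p ∧ A.p < e) ∧ (A.q < u ∨ e < A.q) then [(π, P.α A.p A.q), (!π, P.β A.p A.q)]
    else if (u < A.q ∧ A.q < e) ∧ (A.p < u ∨ e < A.p) then [(π, P.β A.q A.p), (!π, P.α A.q A.p)]
    else if (u < A.p ∧ A.p < e) ∧ A.q = e then [(π, P.α A.p e)]
    else if (u < A.q ∧ A.q < e) ∧ A.p = e then [(!π, P.α A.q e)]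
    else []
  else []

/-- The last page. -/
def fin (_ : PushData L L' u e) (A : Arc L) : Bool :=
  if A.up = π ∧ (u < A.p ∧ A.p < e) ∧ A.q = e then !π else A.up

theorem mem_ins {A : Arc L} {x : Bool × L'} (h : x ∈ P.ins π A) :
    ∃ a b, s(A.p, A.q) = s(a, b) ∧ (u < a ∧ a < e) ∧ (x.2 = P.α a b ∨ x.2 = P.β a b) := by
  unfold ins at h
  split_ifs at h with h0 h1 h2 h3 h4
  · refine ⟨A.p, A.q, rfl, h1.1, ?_⟩
    simp at h
    rcases h with h | h <;> simp [h]
  · refine ⟨A.q, A.p, Sym2.eq_swap, h2.1, ?_⟩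
    simp at h
    rcases h with h | h <;> simp [h]
  · refine ⟨A.p, A.q, rfl, h3.1, ?_⟩
    simp at h
    simp [h, h3.2]
  · refine ⟨A.q, A.p, Sym2.eq_swap, h4.1, ?_⟩
    simp at h
    simp [h, h4.2]
  · simp at h
  · simp at h

theorem toSub : Sub P.φ (P.ins π) where
  inj := P.hφ.injective
  fresh A x hx y := by
    obtain ⟨a, b, -, -, h | h⟩ := P.mem_ins π hx
    · rw [h]; exact P.α_ne_φ _ _ _
    · rw [h]; exact P.β_ne_φ _ _ _
  nodup A := by
    unfold ins
    split_ifs <;> simp [P.α_ne_β, (P.α_ne_β _ _ _ _).symm]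
  disj A B hAB x hx y hy := by
    obtain ⟨a, b, h1, -, h⟩ := P.mem_ins π hx
    obtain ⟨a', b', h1', -, h'⟩ := P.mem_ins π hy
    rw [h1, h1'] at hAB
    have hne : ¬ (a = a' ∧ b = b') := by
      rintro ⟨rfl, rfl⟩; exact hAB rfl
    rcases h with h | h <;> rcases h' with h' | h' <;> rw [h, h']
    · exact fun hh => hne (P.α_inj hh)
    · exact P.α_ne_β _ _ _ _
    · exact (P.α_ne_β _ _ _ _).symm
    · exact fun hh => hne (P.β_inj hh)

/-- The arc separates `u` from the point just left of `e`. -/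
def Sep (u e : L) (A : Arc L) : Prop :=
  ((u < A.p ∧ A.p < e) ∧ (A.q < u ∨ e ≤ A.q)) ∨ ((u < A.q ∧ A.q < e) ∧ (A.p < u ∨ e ≤ A.p))

/-- Image of an arc from the inside to the outside. -/
def c4 (a b : L) : List (Arc L') :=
  [⟨P.φ a, P.α a b, π⟩, ⟨P.α a b, P.β a b, !π⟩, ⟨P.β a b, P.φ b, π⟩]

/-- Image of an arc from the inside to `e`. -/
def c5 (a : L) : List (Arc L') :=
  [⟨P.φ a, P.α a e, π⟩, ⟨P.α a e, P.φ e, !π⟩]

theorem form (A : Arc L) :
    (¬ (A.up = π ∧ Sep u e A) ∧ img P.φ (P.ins π) (P.fin π) A = [A.map P.φ]) ∨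
    (∃ a b, (u < a ∧ a < e) ∧ (b < u ∨ e < b) ∧ (A = ⟨a, b, π⟩ ∨ A = ⟨b, a, π⟩) ∧
      ∀ R, crL (img P.φ (P.ins π) (P.fin π) A) R = crL (P.c4 π a b) R) ∨
    (∃ a, (u < a ∧ a < e) ∧ (A = ⟨a, e, π⟩ ∨ A = ⟨e, a, π⟩) ∧
      ∀ R, crL (img P.φ (P.ins π) (P.fin π) A) R = crL (P.c5 π a) R) := by
  obtain ⟨p, q, s⟩ := A
  by_cases hs : s = π
  · subst hs
    by_cases h1 : (u < p ∧ p < e) ∧ (q < u ∨ e < q)
    · right; left
      refine ⟨p, q, h1.1, h1.2, Or.inl rfl, fun R => ?_⟩
      have : ¬ (q = e) := by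
        rintro rfl
        rcases h1.2 with h | h
        · exact lt_asymm h (h1.1.1.trans h1.1.2)
        · exact lt_irrefl _ h
      simp [img, ins, fin, h1, this, arcs, c4]
    · by_cases h2 : (u < q ∧ q < e) ∧ (p < u ∨ e < p)
      · right; left
        refine ⟨q, p, h2.1, h2.2, Or.inr rfl, fun R => ?_⟩
        have : ¬ (q = e) := h2.1.2.ne
        simp only [img, ins, fin, h1, h2, this, arcs, c4, and_self, and_false, if_true, if_false]
        simp only [crL_nil_left, crL_cons_left, X_swap_left (P.φ q) (P.α q p),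
          X_swap_left (P.α q p) (P.β q p), X_swap_left (P.β q p) (P.φ p)]
        omega
      · by_cases h3 : (u < p ∧ p < e) ∧ q = e
        · right; right
          obtain ⟨h3, rfl⟩ := h3
          refine ⟨p, h3, Or.inl rfl, fun R => ?_⟩
          have : ¬ (q < u) := fun h => lt_asymm h (h3.1.trans h3.2)
          simp [img, ins, fin, h3, this, arcs, c5]
        · by_cases h4 : (u < q ∧ q < e) ∧ p = e
          · right; right
            obtain ⟨h4, rfl⟩ := h4
            refine ⟨q, h4, Or.inr rfl, fun R => ?_⟩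
            have hpu : ¬ (p < u) := fun h => lt_asymm h (h4.1.trans h4.2)
            simp only [img, ins, fin, h4, hpu, arcs, c5, and_self, and_false, false_and, if_true,
              if_false, lt_irrefl, or_false]
            simp only [crL_nil_left, crL_cons_left, X_swap_left (P.φ q) (P.α q p),
              X_swap_left (P.α q p) (P.φ p)]
            omega
          · left
            constructor
            · rintro ⟨-, h⟩
              unfold Sep at h
              simp only [le_iff_lt_or_eq] at h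
              grind
            · simp [img, ins, fin, h1, h2, h3, h4, arcs, Arc.map]
  · left
    constructor
    · rintro ⟨h, -⟩; exact hs h
    · simp [img, ins, fin, hs, arcs, Arc.map]

theorem X_le_of {a b c d : L'} {a' b' c' d' : L} (π : Bool) (h : Ilv a b c d → Ilv a' b' c' d') :
    X ⟨a, b, π⟩ ⟨c, d, π⟩ ≤ X ⟨a', b', π⟩ ⟨c', d', π⟩ := by
  rw [X_same, X_same]; exact ite_le_of h

/-- position facts -/
theorem facts (a b x : L) : (x < e → P.φ x < P.α a b) ∧ (e ≤ x → P.β a b < P.φ x) ∧
    P.α a b < P.c ∧ P.c < P.β a b :=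
  ⟨P.φ_lt_α x a b, P.β_lt_φ x a b, P.α_lt_c a b, P.c_lt_β a b⟩

/-- An unchanged arc and a pushed arc. -/
theorem pair_N4 (x y : L) (s : Bool) (a b : L) (hN : ¬ (s = π ∧ Sep u e ⟨x, y, s⟩))
    (ha : u < a ∧ a < e) (hb : b < u ∨ e < b) :
    crL [⟨P.φ x, P.φ y, s⟩] (P.c4 π a b) ≤ X ⟨x, y, s⟩ ⟨a, b, π⟩ := by
  have fx := P.facts a b x
  have fy := P.facts a b y
  have fa := P.facts a b a
  have fb := P.facts a b b
  have hm := fun z w => P.hφ.lt_iff_lt (a := z) (b := w)
  simp only [c4, crL_cons_left, List.map_cons, List.map_nil, List.sum_cons, List.sum_nil,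
    crL_nil_left, add_zero]
  by_cases hs : s = π
  · subst hs
    simp only [true_and] at hN
    simp only [Sep] at hN
    rw [X_diff, zero_add, X_same, X_same, X_same]
    have h1 := hm x y
    have h2 := hm x a
    have h3 := hm x b
    have h4 := hm y a
    have h5 := hm y b
    have h6 := hm a b
    have h1' := hm y x
    have h2' := hm a x
    have h3' := hm b x
    have h4' := hm a y
    have h5' := hm b y
    have h6' := hm b a
    apply ite2_le_of
    · simp only [Ilv, Btw, Ots]; grind (splits := 60)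
    · simp only [Ilv, Btw, Ots]; grind (splits := 60)
    · simp only [Ilv, Btw, Ots]; grind (splits := 60)
  · have hs' : s = !π := by cases s <;> cases π <;> simp_all
    subst hs'
    rw [X_diff', X_diff', X_diff', X_same, if_neg]
    simp only [Ilv, Btw, Ots]; grind (splits := 60)

/-- An unchanged arc and a pushed arc ending at `e`. -/
theorem pair_N5 (x y : L) (s : Bool) (a : L) (hN : ¬ (s = π ∧ Sep u e ⟨x, y, s⟩))
    (ha : u < a ∧ a < e) :
    crL [⟨P.φ x, P.φ y, s⟩] (P.c5 π a) ≤ X ⟨x, y, s⟩ ⟨a, e, π⟩ := by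
  have fx := P.facts a e x
  have fy := P.facts a e y
  have fa := P.facts a e a
  have fb := P.facts a e e
  have hm := fun z w => P.hφ.lt_iff_lt (a := z) (b := w)
  simp only [c5, crL_cons_left, List.map_cons, List.map_nil, List.sum_cons, List.sum_nil,
    crL_nil_left, add_zero]
  have h1 := hm x y
  have h2 := hm x a
  have h3 := hm x e
  have h4 := hm y a
  have h5 := hm y e
  have h6 := hm a e
  have h1' := hm y x
  have h2' := hm a x
  have h3' := hm e x
  have h4' := hm a y
  have h5' := hm e y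
  have h6' := hm e a
  by_cases hs : s = π
  · subst hs
    simp only [true_and] at hN
    simp only [Sep] at hN
    rw [X_diff, add_zero]
    apply X_le_of
    simp only [Ilv, Btw, Ots]; grind (splits := 60)
  · have hs' : s = !π := by cases s <;> cases π <;> simp_all
    subst hs'
    rw [X_diff', X_diff', X_same, if_neg]
    simp only [Ilv, Btw, Ots]; grind (splits := 60)

/-- Two pushed arcs. -/
theorem pair_44 (a b a' b' : L) (ha : u < a ∧ a < e) (hb : b < u ∨ e < b)
    (ha' : u < a' ∧ a' < e) (hb' : b' < u ∨ e < b') (hk : klt u a b a' b') :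
    crL (P.c4 π a b) (P.c4 π a' b') ≤ X ⟨a, b, π⟩ ⟨a', b', π⟩ := by
  have fa := P.facts a b a
  have fb := P.facts a b b
  have fc := P.facts a b a'
  have fd := P.facts a b b'
  have fa' := P.facts a' b' a
  have fb' := P.facts a' b' b
  have fc' := P.facts a' b' a'
  have fd' := P.facts a' b' b'
  have hα := (P.hα a' b' a b).2 hk
  have hβ := (P.hβ a b a' b').2 hk
  have hm := fun z w => P.hφ.lt_iff_lt (a := z) (b := w)
  have h1 := hm a b
  have h2 := hm a a'
  have h3 := hm a b'
  have h4 := hm b a'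
  have h5 := hm b b'
  have h6 := hm a' b'
  have h1' := hm b a
  have h2' := hm a' a
  have h3' := hm b' a
  have h4' := hm a' b
  have h5' := hm b' b
  have h6' := hm b' a'
  simp only [c4, crL_cons_left, List.map_cons, List.map_nil, List.sum_cons, List.sum_nil,
    crL_nil_left, add_zero, X_diff, X_diff', zero_add]
  have e1 : X ⟨P.φ a, P.α a b, π⟩ ⟨P.φ a', P.α a' b', π⟩ = 0 := by
    rw [X_same, if_neg]
    simp only [Ilv, Btw, Ots]; unfold klt at hk; grind (splits := 60)
  have e2 : X ⟨P.φ a, P.α a b, π⟩ ⟨P.β a' b', P.φ b', π⟩ = 0 := by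
    rw [X_same, if_neg]
    simp only [Ilv, Btw, Ots]; grind (splits := 60)
  have e3 : X ⟨P.α a b, P.β a b, !π⟩ ⟨P.α a' b', P.β a' b', !π⟩ = 0 := by
    rw [X_same, if_neg]
    simp only [Ilv, Btw, Ots]; grind (splits := 60)
  have e4 : X ⟨P.β a b, P.φ b, π⟩ ⟨P.φ a', P.α a' b', π⟩ = 0 := by
    rw [X_same, if_neg]
    simp only [Ilv, Btw, Ots]; grind (splits := 60)
  rw [e1, e2, e3, e4]
  simp only [zero_add]
  apply X_le_of
  simp only [Ilv, Btw, Ots]; unfold klt at hk; grind (splits := 60)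

/-- A pushed arc and a pushed arc ending at `e`. -/
theorem pair_45 (a b a' : L) (ha : u < a ∧ a < e) (hb : b < u ∨ e < b)
    (ha' : u < a' ∧ a' < e) :
    crL (P.c4 π a b) (P.c5 π a') ≤ X ⟨a, b, π⟩ ⟨a', e, π⟩ := by
  have hne : ¬ (a = a' ∧ b = e) := by rintro ⟨-, rfl⟩; rcases hb with h | h
                                      · exact lt_asymm h (ha.1.trans ha.2)
                                      · exact lt_irrefl _ h
  have fa := P.facts a b a
  have fb := P.facts a b b
  have fc := P.facts a b a'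
  have fd := P.facts a b e
  have fa' := P.facts a' e a
  have fb' := P.facts a' e b
  have fc' := P.facts a' e a'
  have fd' := P.facts a' e e
  have hm := fun z w => P.hφ.lt_iff_lt (a := z) (b := w)
  have h1 := hm a b
  have h2 := hm a a'
  have h3 := hm a e
  have h4 := hm b a'
  have h5 := hm b e
  have h6 := hm a' e
  have h1' := hm b a
  have h2' := hm a' a
  have h3' := hm e a
  have h4' := hm a' b
  have h5' := hm e b
  have h6' := hm e a'
  have hk : klt u a b a' e ∨ klt u a' e a b := by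
    rcases klt_trichotomy u a b a' e with h | h | h
    · exact Or.inl h
    · exact absurd h hne
    · exact Or.inr h
  simp only [c4, c5, crL_cons_left, List.map_cons, List.map_nil, List.sum_cons, List.sum_nil,
    crL_nil_left, add_zero, X_diff, X_diff', zero_add]
  rcases hk with hk | hk
  · have hα := (P.hα a' e a b).2 hk
    have hβ := (P.hβ a b a' e).2 hk
    have e1 : X ⟨P.φ a, P.α a b, π⟩ ⟨P.φ a', P.α a' e, π⟩ = 0 := by
      rw [X_same, if_neg]
      simp only [Ilv, Btw, Ots]; unfold klt at hk; grind (splits := 60)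
    have e2 : X ⟨P.α a b, P.β a b, !π⟩ ⟨P.α a' e, P.φ e, !π⟩ = 0 := by
      rw [X_same, if_neg]
      simp only [Ilv, Btw, Ots]; grind (splits := 60)
    have e3 : X ⟨P.β a b, P.φ b, π⟩ ⟨P.φ a', P.α a' e, π⟩ = 0 := by
      rw [X_same, if_neg]
      simp only [Ilv, Btw, Ots]; grind (splits := 60)
    rw [e1, e2, e3]
    simp
  · have hα := (P.hα a b a' e).2 hk
    have hβ := (P.hβ a' e a b).2 hk
    have e1 : X ⟨P.φ a, P.α a b, π⟩ ⟨P.φ a', P.α a' e, π⟩ = 0 := by
      rw [X_same, if_neg]
      simp only [Ilv, Btw, Ots]; unfold klt at hk; grind (splits := 60)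
    have e3 : X ⟨P.β a b, P.φ b, π⟩ ⟨P.φ a', P.α a' e, π⟩ = 0 := by
      rw [X_same, if_neg]
      simp only [Ilv, Btw, Ots]; grind (splits := 60)
    rw [e1, e3]
    simp only [zero_add, add_zero]
    rw [X_same, X_same]
    apply ite_le_of
    simp only [Ilv, Btw, Ots]; unfold klt at hk; grind (splits := 60)

/-- Two pushed arcs ending at `e`. -/
theorem pair_55 (a a' : L) (ha : u < a ∧ a < e) (ha' : u < a' ∧ a' < e) (hne : a ≠ a') :
    crL (P.c5 π a) (P.c5 π a') = 0 := by
  have fa := P.facts a e a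
  have fb := P.facts a e a'
  have fc := P.facts a e e
  have fa' := P.facts a' e a
  have fb' := P.facts a' e a'
  have fc' := P.facts a' e e
  have hm := fun z w => P.hφ.lt_iff_lt (a := z) (b := w)
  have h1 := hm a a'
  have h2 := hm a' a
  have hk := P.hα a e a' e
  have hk' := P.hα a' e a e
  simp only [c5, crL_cons_left, List.map_cons, List.map_nil, List.sum_cons, List.sum_nil,
    crL_nil_left, add_zero, X_diff, X_diff', zero_add]
  rw [X_same, X_same, if_neg, if_neg]
  · simp only [Ilv, Btw, Ots]; unfold klt at hk hk'; grind (splits := 60)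
  · simp only [Ilv, Btw, Ots]; unfold klt at hk hk'; grind (splits := 60)

/-- No new crossings. -/
theorem pair (A B : Arc L) (hAB : s(A.p, A.q) ≠ s(B.p, B.q)) :
    crL (img P.φ (P.ins π) (P.fin π) A) (img P.φ (P.ins π) (P.fin π) B) ≤ X A B := by
  rcases P.form π A with ⟨hA, hA'⟩ | ⟨a, b, ha, hb, hA, hA'⟩ | ⟨a, ha, hA, hA'⟩
  · rw [hA']
    rcases P.form π B with ⟨hB, hB'⟩ | ⟨a', b', ha', hb', hB, hB'⟩ | ⟨a', ha', hB, hB'⟩
    · rw [hB', crL_single, X_map P.hφ]
    · rw [crL_comm, hB', crL_comm]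
      have := P.pair_N4 π A.p A.q A.up a' b' hA ha' hb'
      rcases hB with rfl | rfl
      · exact this
      · rw [X_swap_right]; exact this
    · rw [crL_comm, hB', crL_comm]
      have := P.pair_N5 π A.p A.q A.up a' hA ha'
      rcases hB with rfl | rfl
      · exact this
      · rw [X_swap_right]; exact this
  · rw [hA']
    have hXA : ∀ R, X A R = X ⟨a, b, π⟩ R := by
      intro R; rcases hA with rfl | rfl
      · rfl
      · rw [X_swap_left]
    have hsA : s(A.p, A.q) = s(a, b) := by
      rcases hA with rfl | rfl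
      · rfl
      · exact Sym2.eq_swap
    rw [hXA]
    rcases P.form π B with ⟨hB, hB'⟩ | ⟨a', b', ha', hb', hB, hB'⟩ | ⟨a', ha', hB, hB'⟩
    · rw [hB', crL_comm, X_comm]
      exact P.pair_N4 π B.p B.q B.up a b hB ha hb
    · rw [crL_comm, hB', crL_comm]
      have hXB : ∀ R, X R B = X R ⟨a', b', π⟩ := by
        intro R; rcases hB with rfl | rfl
        · rfl
        · rw [X_swap_right]
      have hsB : s(B.p, B.q) = s(a', b') := by
        rcases hB with rfl | rfl
        · rfl
        · exact Sym2.eq_swap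
      rw [hXB]
      rcases klt_trichotomy u a b a' b' with hk | ⟨rfl, rfl⟩ | hk
      · exact P.pair_44 π a b a' b' ha hb ha' hb' hk
      · exact absurd (hsA.trans hsB.symm) hAB
      · rw [crL_comm, X_comm]
        exact P.pair_44 π a' b' a b ha' hb' ha hb hk
    · rw [crL_comm, hB', crL_comm]
      have := P.pair_45 π a b a' ha hb ha'
      rcases hB with rfl | rfl
      · exact this
      · rw [X_swap_right]; exact this
  · rw [hA']
    have hXA : ∀ R, X A R = X ⟨a, e, π⟩ R := by
      intro R; rcases hA with rfl | rfl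
      · rfl
      · rw [X_swap_left]
    have hsA : s(A.p, A.q) = s(a, e) := by
      rcases hA with rfl | rfl
      · rfl
      · exact Sym2.eq_swap
    rw [hXA]
    rcases P.form π B with ⟨hB, hB'⟩ | ⟨a', b', ha', hb', hB, hB'⟩ | ⟨a', ha', hB, hB'⟩
    · rw [hB', crL_comm, X_comm]
      exact P.pair_N5 π B.p B.q B.up a hB ha
    · rw [crL_comm, hB', X_comm]
      have := P.pair_45 π a' b' a ha' hb' ha
      rcases hB with rfl | rfl
      · exact this
      · rw [X_swap_left]; exact this
    · rw [crL_comm, hB', crL_comm]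
      have hsB : s(B.p, B.q) = s(a', e) := by
        rcases hB with rfl | rfl
        · rfl
        · exact Sym2.eq_swap
      rw [P.pair_55 π a a' ha ha' (by rintro rfl; exact hAB (hsA.trans hsB.symm))]
      exact Nat.zero_le _

/-- No arc of the new drawing in page `π` separates `φ u` and `c`. -/
theorem nosep (hue : u < e) (B : Arc L) :
    crL [⟨P.φ u, P.c, π⟩] (img P.φ (P.ins π) (P.fin π) B) = 0 := by
  rcases P.form π B with ⟨hB, hB'⟩ | ⟨a, b, ha, hb, hB, hB'⟩ | ⟨a, ha, hB, hB'⟩
  · rw [hB', crL_single]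
    obtain ⟨x, y, s⟩ := B
    have fx := P.facts e e x
    have fy := P.facts e e y
    have fu := P.facts e e u
    have h1 := P.hφ.lt_iff_lt (a := x) (b := u)
    have h2 := P.hφ.lt_iff_lt (a := y) (b := u)
    have h3 := P.hφ.lt_iff_lt (a := u) (b := x)
    have h4 := P.hφ.lt_iff_lt (a := u) (b := y)
    simp only [Arc.map]
    by_cases hs : s = π
    · subst hs
      rw [X_same, if_neg]
      simp only [true_and] at hB
      simp only [Sep] at hB
      simp only [Ilv, Btw, Ots]; grind (splits := 60)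
    · have hs' : s = !π := by cases s <;> cases π <;> simp_all
      subst hs'
      exact X_diff _ _ _ _ _
  · rw [crL_comm, hB', crL_comm]
    simp only [c4, crL_cons_left, List.map_cons, List.map_nil, List.sum_cons, List.sum_nil,
      crL_nil_left, add_zero, X_diff, zero_add]
    have fa := P.facts a b a
    have fb := P.facts a b b
    have fu := P.facts a b u
    have h1 := P.hφ.lt_iff_lt (a := a) (b := u)
    have h2 := P.hφ.lt_iff_lt (a := b) (b := u)
    have h3 := P.hφ.lt_iff_lt (a := u) (b := a)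
    have h4 := P.hφ.lt_iff_lt (a := u) (b := b)
    rw [X_same, X_same, if_neg, if_neg]
    · simp only [Ilv, Btw, Ots]; grind (splits := 60)
    · simp only [Ilv, Btw, Ots]; grind (splits := 60)
  · rw [crL_comm, hB', crL_comm]
    simp only [c5, crL_cons_left, List.map_cons, List.map_nil, List.sum_cons, List.sum_nil,
      crL_nil_left, add_zero, X_diff]
    have fa := P.facts a e a
    have fu := P.facts a e u
    have h1 := P.hφ.lt_iff_lt (a := a) (b := u)
    have h3 := P.hφ.lt_iff_lt (a := u) (b := a)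
    rw [X_same, if_neg]
    simp only [Ilv, Btw, Ots]; grind (splits := 60)

/-- Crossings of an unchanged arc. -/
theorem curve_rest (G B : Arc L) (hG : ¬ (G.up = π ∧ Sep u e G)) :
    crL [G.map P.φ] (img P.φ (P.ins π) (P.fin π) B) ≤ crL [G] [B] := by
  rw [crL_single]
  rcases P.form π B with ⟨hB, hB'⟩ | ⟨a', b', ha', hb', hB, hB'⟩ | ⟨a', ha', hB, hB'⟩
  · rw [hB', crL_single, X_map P.hφ]
  · rw [crL_comm, hB', crL_comm]
    have := P.pair_N4 π G.p G.q G.up a' b' hG ha' hb'
    rcases hB with rfl | rfl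
    · exact this
    · rw [X_swap_right]; exact this
  · rw [crL_comm, hB', crL_comm]
    have := P.pair_N5 π G.p G.q G.up a' hG ha'
    rcases hB with rfl | rfl
    · exact this
    · rw [X_swap_right]; exact this

/-- Crossings of the first arc of the new curve. -/
theorem curve_first (hue : u < e) (r : L) (_hr : r ≠ e) (B : Arc L) (hB1 : B.p ≠ e)
    (hB2 : B.q ≠ e) :
    crL [⟨P.c, P.φ r, !π⟩] (img P.φ (P.ins π) (P.fin π) B) ≤
      crL [⟨u, e, π⟩, ⟨e, r, !π⟩] [B] := by
  rw [crL_cons_left' (⟨u, e, π⟩ : Arc L), crL_single, crL_single]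
  rcases P.form π B with ⟨hB, hB'⟩ | ⟨a, b, ha, hb, hB, hB'⟩ | ⟨a, ha, hB, hB'⟩
  · rw [hB', crL_single]
    obtain ⟨x, y, s⟩ := B
    have fx := P.facts e e x
    have fy := P.facts e e y
    have fr := P.facts e e r
    have h1 := P.hφ.lt_iff_lt (a := x) (b := r)
    have h2 := P.hφ.lt_iff_lt (a := y) (b := r)
    have h3 := P.hφ.lt_iff_lt (a := r) (b := x)
    have h4 := P.hφ.lt_iff_lt (a := r) (b := y)
    simp only [Arc.map]
    by_cases hs : s = π
    · subst hs
      rw [X_diff']; exact Nat.zero_le _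
    · have hs' : s = !π := by cases s <;> cases π <;> simp_all
      subst hs'
      refine le_trans ?_ (Nat.le_add_left _ _)
      apply X_le_of
      simp only at hB1 hB2
      simp only [Ilv, Btw, Ots]; grind (splits := 60)
  · rw [crL_comm, hB', crL_comm]
    simp only [c4, crL_cons_left, List.map_cons, List.map_nil, List.sum_cons, List.sum_nil,
      crL_nil_left, add_zero, X_diff', zero_add]
    refine le_trans (?_ : _ ≤ 1) (le_trans ?_ (Nat.le_add_right _ _))
    · unfold X; split_ifs <;> simp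
    · have : X ⟨u, e, π⟩ B = X ⟨u, e, π⟩ ⟨a, b, π⟩ := by
        rcases hB with rfl | rfl
        · rfl
        · rw [X_swap_right]
      rw [this, X_same, if_pos]
      simp only [Ilv, Btw, Ots]; grind (splits := 60)
  · rcases hB with rfl | rfl
    · exact absurd rfl hB2
    · exact absurd rfl hB1

/-- The inserted points between `c` and `e`. -/
theorem rows_le (hue : u < e) (B : Arc L) :
    (P.ins π B).countP (fun x => decide (P.c < x.2 ∧ x.2 < P.φ e)) ≤ crL [⟨u, e, π⟩] [B] := by
  rw [crL_single]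
  obtain ⟨p, q, s⟩ := B
  have hα : ∀ a b, ¬ P.c < P.α a b := fun a b => (P.α_lt_c a b).le.not_gt
  unfold ins
  split_ifs with h0 h1 h2 h3 h4
  · simp only at h0 h1
    subst h0
    rw [X_same, if_pos]
    · simp [hα, List.countP_cons]
      split_ifs <;> simp
    · simp only [Ilv, Btw, Ots]; grind (splits := 60)
  · simp only at h0 h2
    subst h0
    rw [X_same, if_pos]
    · simp [hα, List.countP_cons]
      split_ifs <;> simp
    · simp only [Ilv, Btw, Ots]; grind (splits := 60)
  · simp [hα]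
  · simp [hα]
  · simp
  · simp

end PushData

/-- Pushing the arcs. -/
theorem push {V ι : Type} {N : Net V ι} (hN : N.Simple) [Fintype ι] [DecidableEq ι]
    (D : Drawing N L) (u e : L) (hue : u < e) (π : Bool) :
    ∃ (L' : Type) (_ : LinearOrder L') (φ : L → L') (c : L') (D' : Drawing N L'),
      StrictMono φ ∧ (∀ x, x < e → φ x < c) ∧ (∀ x, e ≤ x → c < φ x) ∧
      (∀ w, D'.pos w = φ (D.pos w)) ∧ D'.dcr ≤ D.dcr ∧
      (∀ i, ∀ y ∈ D'.inner i, y.2 ≠ c ∧ ∀ x, y.2 = φ x → ∃ z ∈ D.inner i, z.2 = x) ∧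
      (∀ i, crL [⟨φ u, c, π⟩] (D'.path i) = 0) ∧
      (∀ i, (D'.inner i).countP (fun x => decide (c < x.2 ∧ x.2 < φ e)) ≤
        crL [⟨u, e, π⟩] (D.path i)) ∧
      (∀ i, (∀ A ∈ D.path i, A.p ≠ e ∧ A.q ≠ e) → ∀ r, r ≠ e →
        crL [⟨c, φ r, !π⟩] (D'.path i) ≤ crL [⟨u, e, π⟩, ⟨e, r, !π⟩] (D.path i)) ∧
      (∀ G : Arc L, ¬ (G.up = π ∧ PushData.Sep u e G) → ∀ i,
        crL [G.map φ] (D'.path i) ≤ crL [G] (D.path i)) := by
  obtain ⟨L', inst, ⟨P⟩⟩ := exists_push u e
  refine ⟨L', inst, P.φ, P.c, subst hN D (P.toSub π) (P.fin π), P.hφ, ?_, ?_, fun w => rfl, ?_, ?_,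
    ?_, ?_, ?_, ?_⟩
  · intro x hx; exact (P.φ_lt_α x e e hx).trans (P.α_lt_c e e)
  · intro x hx; exact (P.c_lt_β e e).trans (P.β_lt_φ x e e hx)
  · apply subst_dcr_le
    intro i j hij A hA B hB
    exact P.pair π A B (path_sym2_ne hN D hij hA hB)
  · intro i y hy
    rcases mem_sub hy with ⟨z, hz, hyz⟩ | ⟨A, hA, hyA⟩
    · rw [hyz]
      exact ⟨(P.c_ne_φ _).symm, fun x hx => ⟨z, hz, P.hφ.injective hx⟩⟩
    · refine ⟨?_, fun x hx => absurd hx ((P.toSub π).fresh A y hyA x)⟩
      obtain ⟨a, b, -, -, h | h⟩ := P.mem_ins π hyA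
      · rw [h]; exact (P.α_lt_c a b).ne
      · rw [h]; exact (P.c_lt_β a b).ne'
  · intro i
    rw [subst_path, crL_flatMap_right]
    rw [List.sum_eq_zero]
    intro x hx
    obtain ⟨B, hB, rfl⟩ := List.mem_map.1 hx
    exact P.nosep π hue B
  · intro i
    have h1 := countP_sub P.φ (P.ins π) (P.fin π) (fun x => decide (P.c < x ∧ x < P.φ e))
      (D.pos (N.src i)) (D.inner i) (D.last i) (D.pos (N.tgt i))
    have h2 : (D.inner i).countP (fun x => decide (P.c < P.φ x.2 ∧ P.φ x.2 < P.φ e)) = 0 := by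
      rw [List.countP_eq_zero]
      intro x hx
      simp only [decide_eq_true_eq, P.hφ.lt_iff_lt]
      rintro ⟨h, h'⟩
      exact lt_asymm h ((P.φ_lt_α x.2 e e h').trans (P.α_lt_c e e))
    show ((sub P.φ (P.ins π) (P.fin π) (D.pos (N.src i)) (D.inner i) (D.last i)
      (D.pos (N.tgt i)))).countP (fun x => decide (P.c < x.2 ∧ x.2 < P.φ e)) ≤ _
    rw [h1, h2, zero_add, crL_eq_sum_right]
    apply List.sum_le_sum
    intro B hB
    exact P.rows_le π hue B
  · intro i hi r hr
    rw [subst_path]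
    apply crL_flatMap_right_le
    intro B hB
    exact P.curve_first π hue r hr B (hi B hB).1 (hi B hB).2
  · intro G hG i
    rw [subst_path]
    apply crL_flatMap_right_le
    intro B hB
    exact P.curve_rest π G B hG

end Fg
end MP60f107

end

section

/-!
Finger moves, part 3: moving the vertex `u` along a free half circle.
-/

namespace MP60f107
namespace Fg

variable {L L' : Type} [LinearOrder L] [LinearOrder L']

/-- A spine with new points just left of `u`. -/
structure RelocData (L L' : Type) [LinearOrder L] [LinearOrder L'] (u : L) where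
  φ : L → L'
  ω : L → L'
  hφ : StrictMono φ
  φ_lt_ω : ∀ x d, x < u → φ x < ω d
  ω_lt_φ : ∀ x d, u ≤ x → ω d < φ x
  hω : ∀ d d', ω d < ω d' ↔ (¬ u < d ∧ u < d') ∨ ((u < d ↔ u < d') ∧ d' < d)

theorem exists_reloc (u : L) : ∃ (L' : Type) (_ : LinearOrder L'), Nonempty (RelocData L L' u) := by
  refine ⟨L ×ₗ (ℕ ×ₗ (Bool ×ₗ Lᵒᵈ)), inferInstance, ⟨?_⟩⟩
  exact
    { φ := fun x => toLex (x, toLex (1, toLex (true, OrderDual.toDual u)))
      ω := fun d => toLex (u, toLex (0, toLex (decide (u < d), OrderDual.toDual d)))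
      hφ := fun x y hxy => by
        simp only [Prod.Lex.toLex_lt_toLex]; exact Or.inl hxy
      φ_lt_ω := fun x d hx => by
        simp only [Prod.Lex.toLex_lt_toLex]; exact Or.inl hx
      ω_lt_φ := fun x d hx => by
        simp only [Prod.Lex.toLex_lt_toLex]
        rcases hx.lt_or_eq with h | h
        · exact Or.inl h
        · right; exact ⟨h, Or.inl (by norm_num)⟩
      hω := fun d d' => by
        simp only [Prod.Lex.toLex_lt_toLex, OrderDual.toDual_lt_toDual, decide_eq_decide,
          Bool.lt_iff, decide_eq_false_iff_not, decide_eq_true_eq]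
        simp }

namespace RelocData

variable {u : L} (P : RelocData L L' u) (c : L) (π : Bool)

theorem ω_inj {d d' : L} (h : P.ω d = P.ω d') : d = d' := by
  have h1 := P.hω d d'
  have h2 := P.hω d' d
  rw [h] at h1 h2
  simp only [lt_irrefl, false_iff] at h1 h2
  grind

theorem ω_ne_φ (d x : L) : P.ω d ≠ P.φ x := by
  rcases lt_or_ge x u with h | h
  · exact (P.φ_lt_ω x d h).ne'
  · exact (P.ω_lt_φ x d h).ne

/-- The new position of a point. -/
def F (x : L) : L' := P.φ (Equiv.swap u c x)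

theorem F_of_ne {x : L} (h : x ≠ u) (h' : x ≠ c) : P.F c x = P.φ x := by
  unfold F; rw [Equiv.swap_apply_of_ne_of_ne h h']

theorem F_u : P.F c u = P.φ c := by
  unfold F; rw [Equiv.swap_apply_left]

/-- The inserted points. -/
def ins (A : Arc L) : List (Bool × L') :=
  if A.up = π then []
  else if A.p = u then [(π, P.ω A.q)]
  else if A.q = u then [(!π, P.ω A.p)]
  else []

/-- The last page. -/
def fin (_ : RelocData L L' u) (A : Arc L) : Bool :=
  if A.up ≠ π ∧ A.p ≠ u ∧ A.q = u then π else A.up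

theorem mem_ins {A : Arc L} {x : Bool × L'} (h : x ∈ P.ins π A) :
    ∃ d, s(A.p, A.q) = s(u, d) ∧ x.2 = P.ω d := by
  unfold ins at h
  split_ifs at h with h0 h1 h2
  · simp at h
  · refine ⟨A.q, by rw [h1], ?_⟩
    simp at h; simp [h]
  · refine ⟨A.p, by rw [h2]; exact Sym2.eq_swap, ?_⟩
    simp at h; simp [h]
  · simp at h

theorem toSub : Sub (P.F c) (P.ins π) where
  inj := P.hφ.injective.comp (Equiv.swap u c).injective
  fresh A x hx y := by
    obtain ⟨d, -, h⟩ := P.mem_ins π hx
    rw [h]; exact P.ω_ne_φ _ _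
  nodup A := by
    unfold ins
    split_ifs <;> simp
  disj A B hAB x hx y hy := by
    obtain ⟨d, h1, h⟩ := P.mem_ins π hx
    obtain ⟨d', h1', h'⟩ := P.mem_ins π hy
    rw [h1, h1'] at hAB
    rw [h, h']
    intro hh
    exact hAB (by rw [P.ω_inj hh])

/-- Image of an arc of the other page at `u`. -/
def c2 (d : L) : List (Arc L') :=
  [⟨P.φ c, P.ω d, π⟩, ⟨P.ω d, P.φ d, !π⟩]

/-- Image of an arc of page `π` at `u`. -/
def c3 (d : L) : List (Arc L') := [⟨P.φ c, P.φ d, π⟩]

theorem form (A : Arc L) (hA : A.p ≠ A.q) (h1 : A.p ≠ c) (h2 : A.q ≠ c) :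
    (A.p ≠ u ∧ A.q ≠ u ∧ img (P.F c) (P.ins π) (P.fin π) A = [A.map P.φ]) ∨
    (∃ d, d ≠ u ∧ d ≠ c ∧ (A = ⟨u, d, !π⟩ ∨ A = ⟨d, u, !π⟩) ∧
      ∀ R, crL (img (P.F c) (P.ins π) (P.fin π) A) R = crL (P.c2 c π d) R) ∨
    (∃ d, d ≠ u ∧ d ≠ c ∧ (A = ⟨u, d, π⟩ ∨ A = ⟨d, u, π⟩) ∧
      ∀ R, crL (img (P.F c) (P.ins π) (P.fin π) A) R = crL (P.c3 c π d) R) := by
  obtain ⟨p, q, s⟩ := A
  simp only at hA h1 h2
  by_cases hp : p = u
  · subst hp
    by_cases hs : s = π
    · subst hs
      right; right
      refine ⟨q, hA.symm, h2, Or.inl rfl, fun R => ?_⟩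
      simp [img, ins, fin, arcs, c3, P.F_of_ne c hA.symm h2, P.F_u c]
    · have hs' : s = !π := by cases s <;> cases π <;> simp_all
      subst hs'
      right; left
      refine ⟨q, hA.symm, h2, Or.inl rfl, fun R => ?_⟩
      simp [img, ins, fin, arcs, c2, P.F_of_ne c hA.symm h2, P.F_u c]
  · by_cases hq : q = u
    · subst hq
      by_cases hs : s = π
      · subst hs
        right; right
        refine ⟨p, hA, h1, Or.inr rfl, fun R => ?_⟩
        simp only [img, ins, fin, arcs, c3, P.F_of_ne c hA h1, P.F_u c, if_true, ne_eq,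
          not_true_eq_false, false_and, if_false]
        simp only [crL_nil_left, crL_cons_left, X_swap_left (P.φ c) (P.φ p)]
      · have hs' : s = !π := by cases s <;> cases π <;> simp_all
        subst hs'
        right; left
        refine ⟨p, hA, h1, Or.inr rfl, fun R => ?_⟩
        simp only [img, ins, fin, arcs, c2, P.F_of_ne c hA h1, P.F_u c, if_true, ne_eq, hs, hA,
          not_false_eq_true, and_self, if_false]
        simp only [crL_nil_left, crL_cons_left, X_swap_left (P.φ c) (P.ω p),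
          X_swap_left (P.ω p) (P.φ p)]
        omega
    · left
      refine ⟨hp, hq, ?_⟩
      simp [img, ins, fin, arcs, Arc.map, P.F_of_ne c hp h1, P.F_of_ne c hq h2, hp, hq]

/-- position facts -/
theorem facts (d x : L) : (x < u → P.φ x < P.ω d) ∧ (u ≤ x → P.ω d < P.φ x) :=
  ⟨P.φ_lt_ω x d, P.ω_lt_φ x d⟩

/-- An arc that does not separate `u` and `c`. -/
def Ns (u c : L) (π : Bool) (A : Arc L) : Prop :=
  A.p ≠ u ∧ A.q ≠ u ∧ (A.up = π → A.p ≠ c ∧ A.q ≠ c ∧ ¬ Ilv u c A.p A.q)

theorem pair_N2 (huc : u < c) (x y : L) (s : Bool) (d : L) (hN : Ns u c π ⟨x, y, s⟩)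
    (_hd : d ≠ u) :
    crL [⟨P.φ x, P.φ y, s⟩] (P.c2 c π d) ≤ X ⟨x, y, s⟩ ⟨u, d, !π⟩ := by
  have fx := P.facts d x
  have fy := P.facts d y
  have fd := P.facts d d
  have fu := P.facts d u
  have fc := P.facts d c
  have hm := fun z w => P.hφ.lt_iff_lt (a := z) (b := w)
  have h1 := hm x y
  have h2 := hm x d
  have h3 := hm x c
  have h4 := hm y d
  have h5 := hm y c
  have h6 := hm d c
  have h1' := hm y x
  have h2' := hm d x
  have h3' := hm c x
  have h4' := hm d y
  have h5' := hm c y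
  have h6' := hm c d
  unfold Ns at hN
  simp only [c2, crL_cons_left, List.map_cons, List.map_nil, List.sum_cons, List.sum_nil,
    crL_nil_left, add_zero]
  by_cases hs : s = π
  · subst hs
    rw [X_diff, X_diff, X_same, if_neg]
    simp only [Ilv, Btw, Ots] at hN ⊢; grind (splits := 60)
  · have hs' : s = !π := by cases s <;> cases π <;> simp_all
    subst hs'
    rw [X_diff', zero_add]
    apply PushData.X_le_of
    simp only [Ilv, Btw, Ots] at hN ⊢; grind (splits := 60)

theorem pair_N3 (huc : u < c) (x y : L) (s : Bool) (d : L) (hN : Ns u c π ⟨x, y, s⟩)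
    (_hd : d ≠ u) (_hdc : d ≠ c) :
    crL [⟨P.φ x, P.φ y, s⟩] (P.c3 c π d) ≤ X ⟨x, y, s⟩ ⟨u, d, π⟩ := by
  simp only [c3, crL_cons_left, List.map_cons, List.map_nil, List.sum_cons, List.sum_nil,
    crL_nil_left, add_zero]
  unfold Ns at hN
  by_cases hs : s = π
  · subst hs
    rw [X_same, X_same]
    apply ite_le_of
    rw [Ilv_map P.hφ]
    simp only [Ilv, Btw, Ots] at hN ⊢; grind (splits := 60)
  · have hs' : s = !π := by cases s <;> cases π <;> simp_all
    subst hs'
    rw [X_diff']
    exact Nat.zero_le _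

theorem X_share (a b b' : L) (s s' : Bool) : X ⟨a, b, s⟩ ⟨a, b', s'⟩ = 0 := by
  unfold X
  rw [if_neg]
  simp only [Ilv, Btw, Ots]
  rintro ⟨-, h⟩
  grind

theorem pair_22 (d d' : L) (hd : d ≠ u) (hd' : d' ≠ u) (_hne : d ≠ d') :
    crL (P.c2 c π d) (P.c2 c π d') = 0 := by
  have f1 := P.facts d d
  have f2 := P.facts d d'
  have f3 := P.facts d' d
  have f4 := P.facts d' d'
  have h1 := P.hω d d'
  have h2 := P.hω d' d
  have h3 := P.hφ.lt_iff_lt (a := d) (b := d')
  have h4 := P.hφ.lt_iff_lt (a := d') (b := d)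
  simp only [c2, crL_cons_left, List.map_cons, List.map_nil, List.sum_cons, List.sum_nil,
    crL_nil_left, add_zero, X_diff, X_diff', X_share, zero_add]
  rw [X_same, if_neg]
  simp only [Ilv, Btw, Ots]; grind (splits := 60)

theorem pair_23 (d d' : L) : crL (P.c2 c π d) (P.c3 c π d') = 0 := by
  simp only [c2, c3, crL_cons_left, List.map_cons, List.map_nil, List.sum_cons, List.sum_nil,
    crL_nil_left, add_zero, X_diff', X_share]

theorem pair_33 (d d' : L) : crL (P.c3 c π d) (P.c3 c π d') = 0 := by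
  simp only [c3, crL_cons_left, List.map_cons, List.map_nil, List.sum_cons, List.sum_nil,
    crL_nil_left, add_zero, X_share]

theorem curve (huc : u < c) (G B : Arc L) (hG : Ns u c π G) (hB : B.p ≠ B.q) (h1 : B.p ≠ c)
    (h2 : B.q ≠ c) :
    crL [G.map P.φ] (img (P.F c) (P.ins π) (P.fin π) B) ≤ X G B := by
  rcases P.form c π B hB h1 h2 with ⟨-, -, hB'⟩ | ⟨d, hd, hdc, hB, hB'⟩ | ⟨d, hd, hdc, hB, hB'⟩
  · rw [hB', crL_single, X_map P.hφ]
  · rw [crL_comm, hB', crL_comm]
    have := P.pair_N2 c π huc G.p G.q G.up d hG hd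
    rcases hB with rfl | rfl
    · exact this
    · rw [X_swap_right]; exact this
  · rw [crL_comm, hB', crL_comm]
    have := P.pair_N3 c π huc G.p G.q G.up d hG hd hdc
    rcases hB with rfl | rfl
    · exact this
    · rw [X_swap_right]; exact this

/-- No new crossings. -/
theorem pair (huc : u < c) (A B : Arc L) (hAB : s(A.p, A.q) ≠ s(B.p, B.q))
    (hA : A.p ≠ A.q) (hA1 : A.p ≠ c) (hA2 : A.q ≠ c) (hA3 : crL [⟨u, c, π⟩] [A] = 0)
    (hB : B.p ≠ B.q) (hB1 : B.p ≠ c) (hB2 : B.q ≠ c) (hB3 : crL [⟨u, c, π⟩] [B] = 0) :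
    crL (img (P.F c) (P.ins π) (P.fin π) A) (img (P.F c) (P.ins π) (P.fin π) B) ≤ X A B := by
  have key : ∀ A : Arc L, A.p ≠ u → A.q ≠ u → A.p ≠ c → A.q ≠ c → crL [⟨u, c, π⟩] [A] = 0 →
      Ns u c π A := by
    intro A h1 h2 h3 h4 h5
    refine ⟨h1, h2, fun h => ⟨h3, h4, fun h' => ?_⟩⟩
    rw [crL_single] at h5
    unfold X at h5
    rw [if_pos ⟨h.symm, h'⟩] at h5
    exact absurd h5 one_ne_zero
  rcases P.form c π A hA hA1 hA2 with ⟨e1, e2, hA'⟩ | ⟨d, hd, hdc, hAf, hA'⟩ | ⟨d, hd, hdc, hAf, hA'⟩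
  · rw [hA']
    exact P.curve c π huc A B (key A e1 e2 hA1 hA2 hA3) hB hB1 hB2
  · rcases P.form c π B hB hB1 hB2 with ⟨e1, e2, hB'⟩ | ⟨d', hd', hdc', hBf, hB'⟩ |
      ⟨d', hd', hdc', hBf, hB'⟩
    · rw [crL_comm, hB', X_comm]
      exact P.curve c π huc B A (key B e1 e2 hB1 hB2 hB3) hA hA1 hA2
    · rw [hA', crL_comm, hB', crL_comm, P.pair_22 c π d d' hd hd']
      · exact Nat.zero_le _
      · rintro rfl
        apply hAB
        rcases hAf with rfl | rfl <;> rcases hBf with rfl | rfl
        · rfl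
        · exact Sym2.eq_swap
        · exact Sym2.eq_swap
        · rfl
    · rw [hA', crL_comm, hB', crL_comm, P.pair_23]
      exact Nat.zero_le _
  · rcases P.form c π B hB hB1 hB2 with ⟨e1, e2, hB'⟩ | ⟨d', hd', hdc', hBf, hB'⟩ |
      ⟨d', hd', hdc', hBf, hB'⟩
    · rw [crL_comm, hB', X_comm]
      exact P.curve c π huc B A (key B e1 e2 hB1 hB2 hB3) hA hA1 hA2
    · rw [hA', crL_comm, hB', P.pair_23]
      exact Nat.zero_le _
    · rw [hA', crL_comm, hB', crL_comm, P.pair_33]
      exact Nat.zero_le _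

end RelocData

/-- Moving the vertex `u` along a free half circle to `c`. -/
theorem reloc {V ι : Type} {N : Net V ι} (hN : N.Simple) [Fintype ι] [DecidableEq ι]
    (D : Drawing N L) (u : V) (c : L) (huc : D.pos u < c) (π : Bool) (hcv : ∀ w, D.pos w ≠ c)
    (hci : ∀ i, ∀ y ∈ D.inner i, y.2 ≠ c) (hsep : ∀ i, crL [⟨D.pos u, c, π⟩] (D.path i) = 0) :
    ∃ (L' : Type) (_ : LinearOrder L') (φ : L → L') (D' : Drawing N L'),
      StrictMono φ ∧ D'.pos u = φ c ∧ (∀ w, w ≠ u → D'.pos w = φ (D.pos w)) ∧ D'.dcr ≤ D.dcr ∧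
      (∀ i, ∀ y ∈ D'.inner i, ∀ x, y.2 = φ x → ∃ z ∈ D.inner i, z.2 = x) ∧
      (∀ e, ∀ i, (D'.inner i).countP (fun x => decide (φ c < x.2 ∧ x.2 < φ e)) =
        (D.inner i).countP (fun x => decide (c < x.2 ∧ x.2 < e))) ∧
      (∀ G : Arc L, RelocData.Ns (D.pos u) c π G → ∀ i,
        crL [G.map φ] (D'.path i) ≤ crL [G] (D.path i)) := by
  obtain ⟨L', inst, ⟨P⟩⟩ := exists_reloc (D.pos u)
  have hend : ∀ i, ∀ A ∈ D.path i, A.p ≠ c ∧ A.q ≠ c ∧ crL [⟨D.pos u, c, π⟩] [A] = 0 := by
    intro i A hA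
    refine ⟨?_, ?_, ?_⟩
    · rcases mem_arcs_left hA with h | ⟨y, hy, h⟩
      · rw [h]; exact hcv _
      · rw [h]; exact hci i y hy
    · rcases mem_arcs_right hA with h | ⟨y, hy, h⟩
      · rw [h]; exact hcv _
      · rw [h]; exact hci i y hy
    · have := hsep i
      rw [crL_eq_sum_right, List.sum_eq_zero_iff] at this
      exact this _ (List.mem_map.2 ⟨A, hA, rfl⟩)
  have hin : ∀ i, ∀ z ∈ D.inner i, P.F c z.2 = P.φ z.2 := fun i z hz =>
    P.F_of_ne c (D.avoid i z hz u) (hci i z hz)
  refine ⟨L', inst, P.φ, subst hN D (P.toSub c π) (P.fin π), P.hφ, P.F_u c, ?_, ?_, ?_, ?_, ?_⟩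
  · intro w hw
    exact P.F_of_ne c (fun h => hw (D.pos_inj h)) (hcv w)
  · apply subst_dcr_le
    intro i j hij A hA B hB
    obtain ⟨a1, a2, a3⟩ := hend i A hA
    obtain ⟨b1, b2, b3⟩ := hend j B hB
    exact P.pair c π huc A B (path_sym2_ne hN D hij hA hB) (path_ne hN D hA) a1 a2 a3
      (path_ne hN D hB) b1 b2 b3
  · intro i y hy x hx
    rcases mem_sub hy with ⟨z, hz, hyz⟩ | ⟨A, hA, hyA⟩
    · rw [hin i z hz] at hyz
      exact ⟨z, hz, P.hφ.injective (hyz.symm.trans hx)⟩
    · obtain ⟨d, -, h⟩ := P.mem_ins π hyA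
      exact absurd (h.symm.trans hx) (P.ω_ne_φ _ _)
  · intro e i
    have h1 := countP_sub (P.F c) (P.ins π) (P.fin π) (fun x => decide (P.φ c < x ∧ x < P.φ e))
      (D.pos (N.src i)) (D.inner i) (D.last i) (D.pos (N.tgt i))
    show ((sub (P.F c) (P.ins π) (P.fin π) (D.pos (N.src i)) (D.inner i) (D.last i)
      (D.pos (N.tgt i)))).countP (fun x => decide (P.φ c < x.2 ∧ x.2 < P.φ e)) = _
    rw [h1, List.sum_eq_zero, add_zero]
    · apply List.countP_congr
      intro z hz
      rw [hin i z hz]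
      simp only [decide_eq_true_eq, P.hφ.lt_iff_lt]
    · intro x hx
      obtain ⟨A, hA, rfl⟩ := List.mem_map.1 hx
      rw [List.countP_eq_zero]
      intro y hy
      obtain ⟨d, -, h⟩ := P.mem_ins π hy
      rw [h]
      simp only [decide_eq_true_eq, not_and]
      intro h'
      exact absurd h' (P.ω_lt_φ c d huc.le).le.not_gt
  · intro G hG i
    rw [subst_path]
    apply crL_flatMap_right_le
    intro B hB
    obtain ⟨b1, b2, -⟩ := hend i B hB
    rw [crL_single]
    exact P.curve c π huc G B hG (path_ne hN D hB) b1 b2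

end Fg
end MP60f107

end

section

/-!
Finger moves, part 4: the induction on the number of points of the curve.
-/

namespace MP60f107
namespace Fg

open Finset

variable {V ι L L' : Type}

/-- Splitting a chain at an arc. -/
theorem split_arc {a b : L} {r : List (Bool × L)} {s : Bool} {G : Arc L}
    (h : G ∈ arcs a r s b) : ∃ (r' : List (Bool × L)) (T P₁ : List (Arc L)), r' <:+ r ∧
      arcs a r s b = P₁ ++ G :: T ∧ ∀ z, arcs z r' s b = ⟨z, G.q, G.up⟩ :: T := by
  induction r generalizing a with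
  | nil =>
    simp only [arcs, List.mem_singleton] at h
    subst h
    exact ⟨[], [], [], List.suffix_rfl, rfl, fun z => rfl⟩
  | cons x r ih =>
    obtain ⟨s₁, p⟩ := x
    simp only [arcs, List.mem_cons] at h
    rcases h with h | h
    · subst h
      exact ⟨(s₁, p) :: r, arcs p r s b, [], List.suffix_rfl, rfl, fun z => rfl⟩
    · obtain ⟨r', T, P₁, h1, h2, h3⟩ := ih h
      refine ⟨r', T, ⟨a, p, s₁⟩ :: P₁, h1.trans (List.suffix_cons _ _), ?_, h3⟩
      simp [arcs, h2]

/-- The first arc of a chain. -/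
theorem first_arc (r : List (Bool × L)) (s : Bool) (b : L) : ∃ (y : L) (σ : Bool)
    (T : List (Arc L)), (y = b ∨ ∃ x ∈ r, y = x.2) ∧ (∀ z, arcs z r s b = ⟨z, y, σ⟩ :: T) ∧
      (∀ G ∈ T, (∃ x ∈ r, G.p = x.2) ∧ (G.q = b ∨ ∃ x ∈ r, G.q = x.2)) ∧
      ∀ (L' : Type) (f : L → L') (z : L'),
        arcs z (mapPts f r) s (f b) = ⟨z, f y, σ⟩ :: T.map (Arc.map f) := by
  cases r with
  | nil => exact ⟨b, s, [], Or.inl rfl, fun z => rfl, by simp, fun _ _ _ => rfl⟩
  | cons x r =>
    obtain ⟨s₁, p⟩ := x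
    refine ⟨p, s₁, arcs p r s b, Or.inr ⟨(s₁, p), by simp, rfl⟩, fun z => rfl, ?_, ?_⟩
    · intro G hG
      constructor
      · rcases mem_arcs_left hG with h | ⟨y, hy, h⟩
        · exact ⟨(s₁, p), by simp, h⟩
        · exact ⟨y, by simp [hy], h⟩
      · rcases mem_arcs_right hG with h | ⟨y, hy, h⟩
        · exact Or.inl h
        · exact Or.inr ⟨y, by simp [hy], h⟩
    · intro L' f z
      rw [← arcs_map]
      rfl

variable [LinearOrder L] [LinearOrder L']

theorem crL_eq_sum_left (P Q : List (Arc L)) : crL P Q = (P.map fun A => crL [A] Q).sum := by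
  rw [crL_comm, crL_eq_sum_right]
  simp only [crL_comm Q]

theorem X_merge (a p b : L) (s : Bool) (B : Arc L) (h1 : B.p ≠ p) (h2 : B.q ≠ p) :
    X ⟨a, b, s⟩ B ≤ X ⟨a, p, s⟩ B + X ⟨p, b, s⟩ B := by
  obtain ⟨x, y, t⟩ := B
  simp only at h1 h2
  unfold X
  simp only [Ilv, Btw, Ots]
  by_cases h : s = t
  · subst h
    simp only [true_and]
    split_ifs <;> simp
    grind (splits := 60)
  · simp [h]

theorem X_shortcut (a b c d : L) (s : Bool) (B : Arc L) (h : Ilv a b c d) (h1 : B.p ≠ b)
    (h2 : B.q ≠ b) (h3 : B.p ≠ c) (h4 : B.q ≠ c) :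
    X ⟨a, d, s⟩ B ≤ X ⟨a, b, s⟩ B + X ⟨c, d, s⟩ B := by
  obtain ⟨x, y, t⟩ := B
  simp only at h1 h2 h3 h4
  unfold X
  simp only [Ilv, Btw, Ots] at h ⊢
  by_cases h : s = t
  · subst h
    simp only [true_and]
    split_ifs <;> simp
    grind (splits := 100)
  · simp [h]

/-- The points of the curve are new. -/
structure New {N : Net V ι} (D : Drawing N L) (γ : List (Bool × L)) : Prop where
  nodup : (γ.map Prod.snd).Nodup
  pos : ∀ x ∈ γ, ∀ w, x.2 ≠ D.pos w
  inner : ∀ x ∈ γ, ∀ i, ∀ y ∈ D.inner i, x.2 ≠ y.2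

theorem New.suffix {N : Net V ι} {D : Drawing N L} {γ γ' : List (Bool × L)} (h : New D γ)
    (h' : γ' <:+ γ) : New D γ' where
  nodup := h.nodup.sublist (h'.sublist.map _)
  pos x hx := h.pos x (h'.subset hx)
  inner x hx := h.inner x (h'.subset hx)

theorem New.arc_ne {N : Net V ι} {D : Drawing N L} {γ : List (Bool × L)} (h : New D γ)
    {x : Bool × L} (hx : x ∈ γ) {i : ι} {B : Arc L} (hB : B ∈ D.path i) :
    B.p ≠ x.2 ∧ B.q ≠ x.2 := by
  constructor
  · rcases mem_arcs_left hB with h' | ⟨y, hy, h'⟩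
    · rw [h']; exact (h.pos x hx _).symm
    · rw [h']; exact (h.inner x hx i y hy).symm
  · rcases mem_arcs_right hB with h' | ⟨y, hy, h'⟩
    · rw [h']; exact (h.pos x hx _).symm
    · rw [h']; exact (h.inner x hx i y hy).symm

theorem New.dual {N : Net V ι} {D : Drawing N L} {γ : List (Bool × L)} (h : New D γ) :
    New (dual D) (mapPts OrderDual.toDual γ) where
  nodup := by
    have h' := h.nodup.map (OrderDual.toDual : L ≃ Lᵒᵈ).injective
    rw [List.map_map] at h'
    unfold mapPts
    rw [List.map_map]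
    exact h'
  pos x hx w := by
    simp only [mapPts, List.mem_map] at hx
    obtain ⟨x, hx, rfl⟩ := hx
    exact fun h' => h.pos x hx w (OrderDual.toDual.injective h')
  inner x hx i y hy := by
    have hy' : y ∈ mapPts OrderDual.toDual (D.inner i) := hy
    simp only [mapPts, List.mem_map] at hx hy'
    obtain ⟨x, hx, rfl⟩ := hx
    obtain ⟨y', hy', rfl⟩ := hy'
    exact fun h' => h.inner x hx i y' hy' (OrderDual.toDual.injective h')

variable [Fintype ι] [DecidableEq ι] {N : Net V ι}

/-- The claim of the induction. -/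
def Claim (N : Net V ι) (u v : V) (n : ℕ) : Prop :=
  ∀ (L : Type) (_ : LinearOrder L) (D : Drawing N L) (γ : List (Bool × L)) (s : Bool),
    γ.length = n → New D γ →
    ∃ (L' : Type) (_ : LinearOrder L') (D' : Drawing N L'), D'.NF u v ∧ D'.dcr ≤ D.dcr ∧
      D'.rows u v ≤ ∑ i, crL (arcs (D.pos u) γ s (D.pos v)) (D.path i)

/-- The last step. -/
theorem final (hN : N.Simple) {u v : V} (huv : u ≠ v) (D : Drawing N L) (s : Bool)
    (hlt : D.pos u < D.pos v) :
    ∃ (L' : Type) (_ : LinearOrder L') (D' : Drawing N L'), D'.NF u v ∧ D'.dcr ≤ D.dcr ∧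
      D'.rows u v ≤ ∑ i, crL (arcs (D.pos u) [] s (D.pos v)) (D.path i) := by
  obtain ⟨L₁, inst₁, φ, c, D₁, hφ, hc1, hc2, hpos, hdcr, hin, hsep, hrow, -, -⟩ :=
    push hN D (D.pos u) (D.pos v) hlt s
  have hcv : ∀ w, D₁.pos w ≠ c := by
    intro w
    rw [hpos w]
    rcases lt_or_ge (D.pos w) (D.pos v) with h | h
    · exact (hc1 _ h).ne
    · exact (hc2 _ h).ne'
  obtain ⟨L₂, inst₂, φ₂, D₂, hφ₂, hu₂, hpos₂, hdcr₂, -, hrow₂, -⟩ :=
    reloc hN D₁ u c (by rw [hpos u]; exact hc1 _ hlt) s hcv (fun i y hy => (hin i y hy).1)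
      (fun i => by rw [hpos u]; exact hsep i)
  have hv₂ : D₂.pos v = φ₂ (φ (D.pos v)) := by rw [hpos₂ v huv.symm, hpos v]
  refine ⟨L₂, inst₂, D₂, ⟨?_, ?_⟩, hdcr₂.trans hdcr, ?_⟩
  · rw [hu₂, hv₂]; exact hφ₂ (hc2 _ le_rfl)
  · rintro w ⟨h1, h2⟩
    by_cases hw : w = u
    · subst hw; exact lt_irrefl _ h1
    · rw [hu₂, hpos₂ w hw, hpos w, hφ₂.lt_iff_lt] at h1
      rw [hv₂, hpos₂ w hw, hpos w, hφ₂.lt_iff_lt, hφ.lt_iff_lt] at h2
      exact lt_asymm h1 (hc1 _ h2)
  · unfold Drawing.rows
    refine Finset.sum_le_sum fun i _ => ?_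
    have h1 := hrow₂ (φ (D.pos v)) i
    have h2 := hrow i
    unfold Drawing.rowsOf
    rw [hu₂, hv₂, h1]
    exact h2

/-- The step. -/
theorem step (hN : N.Simple) {u v : V} (huv : u ≠ v) (n : ℕ) (IH : ∀ m < n, Claim N u v m)
    (D : Drawing N L) (π : Bool) (q : L) (γ : List (Bool × L)) (s : Bool)
    (hn : γ.length + 1 = n) (hnew : New D ((π, q) :: γ)) (hlt : D.pos u < q) :
    ∃ (L' : Type) (_ : LinearOrder L') (D' : Drawing N L'), D'.NF u v ∧ D'.dcr ≤ D.dcr ∧
      D'.rows u v ≤ ∑ i, crL (arcs (D.pos u) ((π, q) :: γ) s (D.pos v)) (D.path i) := by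
  have hnew' : New D γ := hnew.suffix (List.suffix_cons _ _)
  obtain ⟨r, σ, T, hr, hT, hTe, hTm⟩ := first_arc γ s (D.pos v)
  by_cases hσ : σ = π
  · -- merge
    subst hσ
    obtain ⟨L', inst, D', h1, h2, h3⟩ := IH γ.length (by omega) L _ D γ s rfl hnew'
    refine ⟨L', inst, D', h1, h2, h3.trans ?_⟩
    refine Finset.sum_le_sum fun i _ => ?_
    simp only [arcs, hT]
    rw [crL_cons_left', crL_cons_left' _ (_ :: T), crL_cons_left' _ T, ← add_assoc]
    refine Nat.add_le_add_right ?_ _
    rw [crL_eq_sum_right [_], crL_eq_sum_right [_], crL_eq_sum_right [_], ← List.sum_map_add]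
    apply List.sum_le_sum
    intro B hB
    have hne := hnew.arc_ne (x := (σ, q)) (by simp) hB
    simp only [crL_single]
    exact X_merge _ _ _ _ _ hne.1 hne.2
  · by_cases hcr : ∃ G ∈ arcs q γ s (D.pos v), X ⟨D.pos u, q, π⟩ G ≠ 0
    · -- shortcut
      obtain ⟨G, hG, hX⟩ := hcr
      obtain ⟨r', T', P₁, hsuf, h1, h2⟩ := split_arc hG
      have hlen : r'.length ≤ γ.length := hsuf.length_le
      obtain ⟨L', inst, D', h3, h4, h5⟩ := IH r'.length (by omega) L _ D r' s rfl
        (hnew'.suffix hsuf)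
      refine ⟨L', inst, D', h3, h4, h5.trans ?_⟩
      refine Finset.sum_le_sum fun i _ => ?_
      simp only [arcs, h2, h1]
      rw [crL_cons_left', crL_cons_left' _ (P₁ ++ _), crL_append_left, crL_cons_left' _ T']
      have key : crL [⟨D.pos u, G.q, G.up⟩] (D.path i) ≤
          crL [⟨D.pos u, q, π⟩] (D.path i) + crL [G] (D.path i) := by
        rw [crL_eq_sum_right [_], crL_eq_sum_right [_], crL_eq_sum_right [G], ← List.sum_map_add]
        apply List.sum_le_sum
        intro B hB
        have hne := hnew.arc_ne (x := (π, q)) (by simp) hB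
        have hne' : B.p ≠ G.p ∧ B.q ≠ G.p := by
          rcases mem_arcs_left hG with h | ⟨y, hy, h⟩
          · rw [h]; exact hne
          · rw [h]; exact hnew'.arc_ne hy hB
        simp only [crL_single]
        have hup : G.up = π := by
          by_contra hup
          exact hX (X_of_up (fun h => hup h.symm))
        have hI : Ilv (D.pos u) q G.p G.q := by
          by_contra hI
          apply hX
          unfold X
          rw [if_neg]
          exact fun h => hI h.2
        have := X_shortcut (D.pos u) q G.p G.q π B hI hne.1 hne.2 hne'.1 hne'.2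
        rw [hup]
        have hGG : G = ⟨G.p, G.q, π⟩ := by rw [← hup]
        rw [← hGG] at this
        exact this
      omega
    · -- drag
      have hcr' : ∀ G ∈ arcs q γ s (D.pos v), X ⟨D.pos u, q, π⟩ G = 0 := by
        intro G hG
        by_contra h
        exact hcr ⟨G, hG, h⟩
      have hσ' : σ = !π := by cases σ <;> cases π <;> simp_all
      subst hσ'
      have hqv : ∀ w, q ≠ D.pos w := hnew.pos (π, q) (by simp)
      have hqi : ∀ i, ∀ y ∈ D.inner i, q ≠ y.2 := hnew.inner (π, q) (by simp)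
      have hqγ : ∀ x ∈ γ, x.2 ≠ q := by
        intro x hx hxq
        have := hnew.nodup
        simp only [List.map_cons, List.nodup_cons] at this
        exact this.1 (List.mem_map.2 ⟨x, hx, hxq⟩)
      have hrq : r ≠ q := by
        rcases hr with h | ⟨x, hx, h⟩
        · rw [h]; exact (hqv v).symm
        · rw [h]; exact hqγ x hx
      -- the end points of the later arcs
      have hru : r ≠ D.pos u := by
        rcases hr with h | ⟨x, hx, h⟩
        · rw [h]; exact fun h' => huv (D.pos_inj h').symm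
        · rw [h]; exact hnew'.pos x hx u
      have hTend : ∀ G ∈ T, G.p ≠ D.pos u ∧ G.q ≠ D.pos u ∧ G.p ≠ q ∧ G.q ≠ q := by
        intro G hG
        obtain ⟨⟨x, hx, h⟩, h'⟩ := hTe G hG
        rw [h]
        refine ⟨hnew'.pos x hx u, ?_, hqγ x hx, ?_⟩
        · rcases h' with h' | ⟨y, hy, h'⟩
          · rw [h']; exact fun h' => huv (D.pos_inj h').symm
          · rw [h']; exact hnew'.pos y hy u
        · rcases h' with h' | ⟨y, hy, h'⟩
          · rw [h']; exact (hqv v).symm
          · rw [h']; exact hqγ y hy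
      obtain ⟨L₁, inst₁, φ, c, D₁, hφ, hc1, hc2, hpos, hdcr, hin, hsep, -, hfirst, hrest⟩ :=
        push hN D (D.pos u) q hlt π
      have hφc : ∀ x, φ x ≠ c := by
        intro x
        rcases lt_or_ge x q with h | h
        · exact (hc1 _ h).ne
        · exact (hc2 _ h).ne'
      obtain ⟨L₂, inst₂, φ₂, D₂, hφ₂, hu₂, hpos₂, hdcr₂, hin₂, -, hcurve₂⟩ :=
        reloc hN D₁ u c (by rw [hpos u]; exact hc1 _ hlt) π (fun w => by rw [hpos w]; exact hφc _)
          (fun i y hy => (hin i y hy).1) (fun i => by rw [hpos u]; exact hsep i)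
      have hv₂ : D₂.pos v = φ₂ (φ (D.pos v)) := by rw [hpos₂ v huv.symm, hpos v]
      have hnew₂ : New D₂ (mapPts (φ₂ ∘ φ) γ) := by
        refine ⟨?_, ?_, ?_⟩
        · unfold mapPts
          rw [List.map_map]
          have := hnew'.nodup.map (hφ₂.comp hφ).injective
          rw [List.map_map] at this
          exact this
        · intro x hx w
          simp only [mapPts, List.mem_map] at hx
          obtain ⟨x, hx, rfl⟩ := hx
          simp only [Function.comp_apply]
          by_cases hw : w = u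
          · subst hw
            rw [hu₂]
            exact fun h => hφc _ (hφ₂.injective h)
          · rw [hpos₂ w hw, hpos w]
            exact fun h => hnew'.pos x hx w (hφ.injective (hφ₂.injective h))
        · intro x hx i y hy
          simp only [mapPts, List.mem_map] at hx
          obtain ⟨x, hx, rfl⟩ := hx
          simp only [Function.comp_apply]
          intro h
          obtain ⟨z, hz, hzx⟩ := hin₂ i y hy _ h.symm
          obtain ⟨z', hz', hzx'⟩ := (hin i z hz).2 _ hzx
          exact hnew'.inner x hx i z' hz' hzx'.symm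
      obtain ⟨L', inst, D', h3, h4, h5⟩ := IH γ.length (by omega) L₂ _ D₂ (mapPts (φ₂ ∘ φ) γ) s
        (by simp [mapPts]) hnew₂
      refine ⟨L', inst, D', h3, h4.trans (hdcr₂.trans hdcr), h5.trans ?_⟩
      refine Finset.sum_le_sum fun i _ => ?_
      rw [hu₂, hv₂]
      have e1 := hTm L₂ (φ₂ ∘ φ) (φ₂ c)
      simp only [Function.comp_apply] at e1
      rw [e1]
      simp only [arcs, hT]
      have e2 : crL [⟨D.pos u, q, π⟩] (D.path i) + crL [⟨q, r, !π⟩] (D.path i) =
          crL [⟨D.pos u, q, π⟩, ⟨q, r, !π⟩] (D.path i) := (crL_cons_left' _ _ _).symm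
      rw [crL_cons_left', crL_cons_left' _ (_ :: T), crL_cons_left' _ T, ← add_assoc, e2]
      apply Nat.add_le_add
      · -- the first arc
        have h6 := hcurve₂ ⟨c, φ r, !π⟩ ⟨?_, ?_, ?_⟩ i
        · exact h6.trans (hfirst i (fun A hA => hnew.arc_ne (x := (π, q)) (by simp) hA) r hrq)
        · rw [hpos u]; exact (hφc _).symm
        · rw [hpos u]; exact fun h => hru (hφ.injective h)
        · intro h; cases π <;> simp_all
      · -- the other arcs
        rw [crL_eq_sum_left (List.map _ T), crL_eq_sum_left T, List.map_map]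
        apply List.sum_le_sum
        intro G hG
        simp only [Function.comp_apply]
        obtain ⟨g1, g2, g3, g4⟩ := hTend G hG
        have g5 : G.up = π → ¬ Ilv (D.pos u) q G.p G.q := by
          intro h h'
          have := hcr' G (by rw [hT]; simp [hG])
          unfold X at this
          rw [if_pos ⟨h.symm, h'⟩] at this
          exact absurd this one_ne_zero
        have h6 := hcurve₂ (G.map φ) ⟨?_, ?_, ?_⟩ i
        · have h7 := hrest G ?_ i
          · exact h6.trans h7
          · rintro ⟨h, h'⟩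
            have g5' := g5 h
            simp only [PushData.Sep] at h'
            simp only [Ilv, Btw, Ots] at g5'
            grind (splits := 60)
        · rw [hpos u]; exact fun h => g1 (hφ.injective h)
        · rw [hpos u]; exact fun h => g2 (hφ.injective h)
        · intro h
          refine ⟨hφc _, hφc _, ?_⟩
          have g5' := g5 h
          rw [hpos u]
          have f1 := hc1 G.p
          have f2 := hc2 G.p
          have f3 := hc1 G.q
          have f4 := hc2 G.q
          have f5 := hφ.lt_iff_lt (a := D.pos u) (b := G.p)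
          have f6 := hφ.lt_iff_lt (a := D.pos u) (b := G.q)
          have f7 := hφ.lt_iff_lt (a := G.p) (b := D.pos u)
          have f8 := hφ.lt_iff_lt (a := G.q) (b := D.pos u)
          have f9 := hc1 (D.pos u) hlt
          simp only [Arc.map]
          simp only [Ilv, Btw, Ots] at g5' ⊢
          grind (splits := 60)

theorem claim (hN : N.Simple) {u v : V} (huv : u ≠ v) (n : ℕ) : Claim N u v n := by
  induction n using Nat.strong_induction_on with
  | _ n IH =>
    intro L inst D γ s hn hnew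
    have hsum : ∑ i, crL (arcs ((dual D).pos u) (mapPts OrderDual.toDual γ) s ((dual D).pos v))
        ((dual D).path i) = ∑ i, crL (arcs (D.pos u) γ s (D.pos v)) (D.path i) := by
      refine Finset.sum_congr rfl fun i _ => ?_
      rw [dual_path]
      have : arcs ((dual D).pos u) (mapPts OrderDual.toDual γ) s ((dual D).pos v) =
          (arcs (D.pos u) γ s (D.pos v)).map (Arc.map OrderDual.toDual) :=
        arcs_map (OrderDual.toDual : L → Lᵒᵈ) _ _ _ _
      rw [this]
      exact crL_anti (φ := (OrderDual.toDual : L → Lᵒᵈ)) (fun a b h => h) _ _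
    cases γ with
    | nil =>
      rcases lt_trichotomy (D.pos u) (D.pos v) with h | h | h
      · exact final hN huv D s h
      · exact absurd (D.pos_inj h) huv
      · obtain ⟨L', inst', D', h1, h2, h3⟩ := final hN huv (dual D) s h
        exact ⟨L', inst', D', h1, h2.trans (dual_dcr D).le, h3.trans hsum.le⟩
    | cons x γ =>
      obtain ⟨π, q⟩ := x
      rcases lt_trichotomy (D.pos u) q with h | h | h
      · exact step hN huv n IH D π q γ s (by simpa using hn) hnew h
      · exact absurd h.symm (hnew.pos (π, q) (by simp) u)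
      · have hnew' : New (dual D) ((π, OrderDual.toDual q) :: mapPts OrderDual.toDual γ) :=
          hnew.dual
        obtain ⟨L', inst', D', h1, h2, h3⟩ := step hN huv n IH (dual D) π (OrderDual.toDual q)
          (mapPts OrderDual.toDual γ) s (by simpa [mapPts] using hn) hnew' h
        exact ⟨L', inst', D', h1, h2.trans (dual_dcr D).le, h3.trans hsum.le⟩

end Fg

/-- D3 (finger moves). -/
theorem finger {V ι : Type} [Fintype V] [Fintype ι] [DecidableEq ι]
    {N : Net V ι} (hN : N.Simple) {u v : V} (huv : u ≠ v)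
    (_hadj : ∀ i, s(N.src i, N.tgt i) ≠ s(u, v)) {L : Type} [LinearOrder L]
    (D : Drawing N L) (γ : List (Bool × L)) (s : Bool) (hnd : (γ.map Prod.snd).Nodup)
    (hγv : ∀ x ∈ γ, ∀ w, x.2 ≠ D.pos w) (hγi : ∀ x ∈ γ, ∀ i, ∀ y ∈ D.inner i, x.2 ≠ y.2) :
    ∃ (L' : Type) (_ : LinearOrder L') (D' : Drawing N L'), D'.NF u v ∧ D'.dcr ≤ D.dcr ∧
      D'.rows u v ≤ ∑ i, crL (arcs (D.pos u) γ s (D.pos v)) (D.path i) :=
  Fg.claim hN huv γ.length L _ D γ s rfl ⟨hnd, hγv, hγi⟩

end MP60f107

end

section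

/-!
D8: contraction of the guides.
-/

namespace MP60f107

open Finset

namespace Contr

section basic

variable {L : Type} [LinearOrder L]

theorem ilv_symm {a b c d : L} (h : Ilv a b c d) : Ilv c d a b := by
  unfold Ilv Btw Ots at *
  rcases h with ⟨⟨h1, h1'⟩ | ⟨h1, h1'⟩, ⟨h2, h2'⟩ | ⟨h2, h2'⟩⟩ |
    ⟨⟨h1, h1'⟩ | ⟨h1, h1'⟩, ⟨h2, h2'⟩ | ⟨h2, h2'⟩⟩ <;>
    simp only [*, true_and, and_true, or_true, true_or]

theorem ilv_swap {a b c d : L} (h : Ilv a b c d) : Ilv b a c d := by
  unfold Ilv Btw Ots at *; tauto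

theorem X_le_one (A B : Arc L) : X A B ≤ 1 := by
  unfold X; split_ifs <;> simp

theorem X_comm (A B : Arc L) : X A B = X B A := by
  unfold X
  refine if_congr ?_ rfl rfl
  constructor
  · rintro ⟨h1, h2⟩; exact ⟨h1.symm, ilv_symm h2⟩
  · rintro ⟨h1, h2⟩; exact ⟨h1.symm, ilv_symm h2⟩

/-- The arc in the other direction. -/
def sw (A : Arc L) : Arc L := ⟨A.q, A.p, A.up⟩

omit [LinearOrder L] in
theorem sw_sw (A : Arc L) : sw (sw A) = A := rfl

theorem X_sw (A B : Arc L) : X (sw A) B = X A B := by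
  unfold X sw
  refine if_congr ?_ rfl rfl
  constructor
  · rintro ⟨h1, h2⟩; exact ⟨h1, ilv_swap h2⟩
  · rintro ⟨h1, h2⟩; exact ⟨h1, ilv_swap h2⟩

theorem crL_nil_left (Q : List (Arc L)) : crL [] Q = 0 := rfl

theorem crL_nil_right (P : List (Arc L)) : crL P [] = 0 := by
  induction P with
  | nil => rfl
  | cons A P ih => simp [crL]

theorem crL_cons_left (A : Arc L) (P Q : List (Arc L)) :
    crL (A :: P) Q = crL [A] Q + crL P Q := by
  simp [crL]

theorem crL_append_left (P P' Q : List (Arc L)) : crL (P ++ P') Q = crL P Q + crL P' Q := by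
  simp [crL]

theorem crL_comm (P Q : List (Arc L)) : crL P Q = crL Q P := by
  induction P with
  | nil => rw [crL_nil_left, crL_nil_right]
  | cons A P ih =>
    rw [crL_cons_left, ih]
    clear ih
    induction Q with
    | nil => simp [crL]
    | cons B Q ih =>
      rw [crL_cons_left B Q (A :: P), ← ih]
      simp only [crL, List.map_cons, List.map_nil, List.sum_cons, List.sum_nil, X_comm A B]
      omega

theorem crL_append_right (P Q Q' : List (Arc L)) : crL P (Q ++ Q') = crL P Q + crL P Q' := by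
  rw [crL_comm, crL_append_left, crL_comm Q, crL_comm Q']

theorem crL_cons_right (P : List (Arc L)) (B : Arc L) (Q : List (Arc L)) :
    crL P (B :: Q) = crL P [B] + crL P Q := by
  rw [crL_comm, crL_cons_left, crL_comm [B], crL_comm Q]

theorem crL_reverse_sw (P Q : List (Arc L)) : crL ((P.map sw).reverse) Q = crL P Q := by
  induction P with
  | nil => rfl
  | cons A P ih =>
    rw [List.map_cons, List.reverse_cons, crL_append_left, ih, crL_cons_left A P, add_comm]
    congr 1
    simp [crL, X_sw]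

theorem crL_eq_zero_iff (P Q : List (Arc L)) :
    crL P Q = 0 ↔ ∀ A ∈ P, ∀ B ∈ Q, X A B = 0 := by
  induction P with
  | nil => simp [crL]
  | cons A P ih =>
    rw [crL_cons_left, Nat.add_eq_zero_iff, ih]
    simp [crL, List.sum_eq_zero_iff]

end basic

section arcs

variable {L L' : Type}

theorem arcs_append (a : L) (r : List (Bool × L)) (s : Bool) (p : L) (r' : List (Bool × L))
    (s' : Bool) (b : L) :
    arcs a (r ++ (s, p) :: r') s' b = arcs a r s p ++ arcs p r' s' b := by
  induction r generalizing a with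
  | nil => rfl
  | cons x r ih => obtain ⟨s₁, p₁⟩ := x; simp [arcs, ih]

/-- The sum of `f` over the end points of the arcs of a chain. -/
theorem sum_ends (f : L → ℕ) (a : L) (r : List (Bool × L)) (s : Bool) (b : L) :
    ((arcs a r s b).map fun A => f A.p + f A.q).sum = f a + f b + 2 * (r.map fun x => f x.2).sum := by
  induction r generalizing a with
  | nil => simp [arcs]
  | cons x r ih => obtain ⟨s₁, p₁⟩ := x; simp [arcs, ih]; ring

/-- The chain `r, s` read backwards. -/
def rv : List (Bool × L) → Bool → List (Bool × L) × Bool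
  | [], s => ([], s)
  | (s₁, p) :: r, s => ((rv r s).1 ++ [((rv r s).2, p)], s₁)

theorem arcs_rv (a : L) (r : List (Bool × L)) (s : Bool) (b : L) :
    arcs b (rv r s).1 (rv r s).2 a = ((arcs a r s b).map sw).reverse := by
  induction r generalizing a with
  | nil => rfl
  | cons x r ih =>
    obtain ⟨s₁, p₁⟩ := x
    simp only [rv, arcs, List.map_cons, List.reverse_cons]
    rw [arcs_append, ih]
    rfl

theorem rv_pts (r : List (Bool × L)) (s : Bool) :
    ((rv r s).1.map Prod.snd) = (r.map Prod.snd).reverse := by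
  induction r with
  | nil => rfl
  | cons x r ih => obtain ⟨s₁, p₁⟩ := x; simp [rv, ih]

theorem arcs_map (π : L → L') (a : L) (r : List (Bool × L)) (s : Bool) (b : L) :
    (arcs a r s b).map (fun A => (⟨π A.p, π A.q, A.up⟩ : Arc L')) =
      arcs (π a) (r.map fun x => (x.1, π x.2)) s (π b) := by
  induction r generalizing a with
  | nil => rfl
  | cons x r ih => obtain ⟨s₁, p₁⟩ := x; simp [arcs, ih]

end arcs

section lex

variable {L : Type} [LinearOrder L]

/-- base point -/
def pr (x : L ×ₗ ℤ) : L := (ofLex x).1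

/-- second coordinate -/
def ht (x : L ×ₗ ℤ) : ℤ := (ofLex x).2

/-- the point over `p` with second coordinate `n` -/
def mk (p : L) (n : ℤ) : L ×ₗ ℤ := toLex (p, n)

omit [LinearOrder L] in
@[simp] theorem pr_mk (p : L) (n : ℤ) : pr (mk p n) = p := rfl
omit [LinearOrder L] in
@[simp] theorem ht_mk (p : L) (n : ℤ) : ht (mk p n) = n := rfl

omit [LinearOrder L] in
theorem ext_lex {x y : L ×ₗ ℤ} (h1 : pr x = pr y) (h2 : ht x = ht y) : x = y := by
  have : ofLex x = ofLex y := Prod.ext h1 h2
  exact this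

theorem lt_iff {x y : L ×ₗ ℤ} : x < y ↔ pr x < pr y ∨ (pr x = pr y ∧ ht x < ht y) :=
  Prod.Lex.lt_iff

open Classical in
/-- 1 if the points are different but have the same base -/
noncomputable def dl (x y : L ×ₗ ℤ) : ℕ := if pr x = pr y ∧ x ≠ y then 1 else 0

theorem dl_eq_zero {x y : L ×ₗ ℤ} (h : dl x y = 0) : pr x = pr y → x = y := by
  intro h1
  by_contra h2
  simp [dl, h1, h2] at h

theorem dl_of_ne {x y : L ×ₗ ℤ} (h : pr x ≠ pr y) : dl x y = 0 := by simp [dl, h]

theorem dl_self (x : L ×ₗ ℤ) : dl x x = 0 := by simp [dl]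

theorem dl_le_one (x y : L ×ₗ ℤ) : dl x y ≤ 1 := by unfold dl; split_ifs <;> simp

theorem lt_iff_of_dl {x y : L ×ₗ ℤ} (h : dl x y = 0) : x < y ↔ pr x < pr y := by
  rw [lt_iff]
  constructor
  · rintro (h1 | ⟨h1, h2⟩)
    · exact h1
    · exact absurd (dl_eq_zero h h1) (by rintro rfl; exact lt_irrefl _ h2)
  · exact Or.inl

theorem gt_iff_of_dl {x y : L ×ₗ ℤ} (h : dl x y = 0) : y < x ↔ pr y < pr x := by
  refine lt_iff_of_dl ?_
  have := dl_eq_zero h
  unfold dl
  rw [if_neg]
  rintro ⟨h1, h2⟩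
  exact h2 (this h1.symm).symm

/-- the base arc -/
def bs (A : Arc (L ×ₗ ℤ)) : Arc L := ⟨pr A.p, pr A.q, A.up⟩

/-- number of pairs of end points that are different with the same base -/
noncomputable def DA (A B : Arc (L ×ₗ ℤ)) : ℕ :=
  (dl A.p B.p + dl A.p B.q) + (dl A.q B.p + dl A.q B.q)

theorem X_le (A B : Arc (L ×ₗ ℤ)) : X A B ≤ X (bs A) (bs B) + DA A B := by
  by_cases h : DA A B = 0
  · have h1 : dl A.p B.p = 0 := by unfold DA at h; omega
    have h2 : dl A.p B.q = 0 := by unfold DA at h; omega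
    have h3 : dl A.q B.p = 0 := by unfold DA at h; omega
    have h4 : dl A.q B.q = 0 := by unfold DA at h; omega
    rw [h, add_zero]
    refine le_of_eq ?_
    unfold X
    refine if_congr (and_congr Iff.rfl ?_) rfl rfl
    unfold Ilv Btw Ots bs
    simp only [lt_iff_of_dl h1, lt_iff_of_dl h2, lt_iff_of_dl h3, lt_iff_of_dl h4,
      gt_iff_of_dl h1, gt_iff_of_dl h2, gt_iff_of_dl h3, gt_iff_of_dl h4]
  · exact (X_le_one _ _).trans (by omega)

/-- total of `DA` -/
noncomputable def DL (P Q : List (Arc (L ×ₗ ℤ))) : ℕ :=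
  (P.map fun A => (Q.map fun B => DA A B).sum).sum

theorem crL_le (P Q : List (Arc (L ×ₗ ℤ))) :
    crL P Q ≤ crL (P.map bs) (Q.map bs) + DL P Q := by
  unfold crL DL
  simp only [List.map_map]
  rw [← List.sum_map_add]
  refine List.sum_le_sum fun A _ => ?_
  simp only [Function.comp_def]
  rw [← List.sum_map_add]
  exact List.sum_le_sum fun B _ => X_le A B

/-- `dl` of a point against a chain -/
noncomputable def dc (x a : L ×ₗ ℤ) (r : List (Bool × (L ×ₗ ℤ))) (b : L ×ₗ ℤ) : ℕ :=
  dl x a + dl x b + 2 * (r.map fun y => dl x y.2).sum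

theorem DL_arcs (a : L ×ₗ ℤ) (r : List (Bool × (L ×ₗ ℤ))) (s : Bool) (b : L ×ₗ ℤ)
    (a' : L ×ₗ ℤ) (r' : List (Bool × (L ×ₗ ℤ))) (s' : Bool) (b' : L ×ₗ ℤ) :
    DL (arcs a r s b) (arcs a' r' s' b') =
      dc a a' r' b' + dc b a' r' b' + 2 * (r.map fun x => dc x.2 a' r' b').sum := by
  unfold DL
  have h : ∀ A : Arc (L ×ₗ ℤ), ((arcs a' r' s' b').map fun B => DA A B).sum =
      dc A.p a' r' b' + dc A.q a' r' b' := by
    intro A
    unfold DA
    rw [List.sum_map_add, sum_ends (fun y => dl A.p y), sum_ends (fun y => dl A.q y)]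
    rfl
  simp only [h]
  rw [sum_ends (fun y => dc y a' r' b')]

/-- `DL` of two chains whose inner points have different bases from everything in the other. -/
theorem DL_arcs_of_ne {a : L ×ₗ ℤ} {r : List (Bool × (L ×ₗ ℤ))} {s : Bool} {b : L ×ₗ ℤ}
    {a' : L ×ₗ ℤ} {r' : List (Bool × (L ×ₗ ℤ))} {s' : Bool} {b' : L ×ₗ ℤ}
    (h1 : ∀ x ∈ r, ∀ y ∈ r', pr x.2 ≠ pr y.2)
    (h2 : ∀ x ∈ r, pr x.2 ≠ pr a' ∧ pr x.2 ≠ pr b')
    (h3 : ∀ y ∈ r', pr a ≠ pr y.2 ∧ pr b ≠ pr y.2) :
    DL (arcs a r s b) (arcs a' r' s' b') = dl a a' + dl a b' + (dl b a' + dl b b') := by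
  rw [DL_arcs]
  have e1 : (r'.map fun y => dl a y.2).sum = 0 := by
    rw [List.sum_eq_zero_iff]
    simp only [List.mem_map]
    rintro _ ⟨y, hy, rfl⟩
    exact dl_of_ne (h3 y hy).1
  have e2 : (r'.map fun y => dl b y.2).sum = 0 := by
    rw [List.sum_eq_zero_iff]
    simp only [List.mem_map]
    rintro _ ⟨y, hy, rfl⟩
    exact dl_of_ne (h3 y hy).2
  have e3 : (r.map fun x => dc x.2 a' r' b').sum = 0 := by
    rw [List.sum_eq_zero_iff]
    simp only [List.mem_map]
    rintro _ ⟨x, hx, rfl⟩
    unfold dc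
    rw [dl_of_ne (h2 x hx).1, dl_of_ne (h2 x hx).2]
    simp only [add_zero, zero_add, mul_eq_zero, OfNat.ofNat_ne_zero, false_or]
    rw [List.sum_eq_zero_iff]
    simp only [List.mem_map]
    rintro _ ⟨y, hy, rfl⟩
    exact dl_of_ne (h1 x hx y hy)
  unfold dc at *
  rw [e1, e2, e3]
  ring

end lex

section copies

variable {L : Type} [LinearOrder L]

/-- The parallel copy of the inner points: alternating second coordinates, starting with `m`. -/
def sh : ℤ → List (Bool × L) → List (Bool × (L ×ₗ ℤ))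
  | _, [] => []
  | m, (s, p) :: r => (s, mk p m) :: sh (-m) r

/-- The second coordinate of the end. -/
def shE : ℤ → List (Bool × L) → ℤ
  | m, [] => m
  | m, _ :: r => shE (-m) r

/-- The arcs of the parallel copy. -/
def cp (a : L ×ₗ ℤ) (m : ℤ) (r : List (Bool × L)) (s : Bool) (b : L) : List (Arc (L ×ₗ ℤ)) :=
  arcs a (sh m r) s (mk b (shE m r))

omit [LinearOrder L] in
theorem sh_pr (m : ℤ) (r : List (Bool × L)) : (sh m r).map (fun x => (x.1, pr x.2)) = r := by
  induction r generalizing m with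
  | nil => rfl
  | cons x r ih => obtain ⟨s, p⟩ := x; simp [sh, ih]

omit [LinearOrder L] in
theorem sh_snd (m : ℤ) (r : List (Bool × L)) :
    (sh m r).map (fun x => pr x.2) = r.map Prod.snd := by
  induction r generalizing m with
  | nil => rfl
  | cons x r ih => obtain ⟨s, p⟩ := x; simp [sh, ih]

omit [LinearOrder L] in
theorem mem_sh {m : ℤ} {r : List (Bool × L)} {x : Bool × (L ×ₗ ℤ)} (hx : x ∈ sh m r) :
    (x.1, pr x.2) ∈ r ∧ (ht x.2).natAbs = m.natAbs := by
  induction r generalizing m with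
  | nil => simp [sh] at hx
  | cons y r ih =>
    obtain ⟨s, p⟩ := y
    simp only [sh, List.mem_cons] at hx
    rcases hx with rfl | hx
    · simp
    · obtain ⟨h1, h2⟩ := ih hx
      exact ⟨List.mem_cons_of_mem _ h1, by simpa using h2⟩

omit [LinearOrder L] in
theorem shE_natAbs (m : ℤ) (r : List (Bool × L)) : (shE m r).natAbs = m.natAbs := by
  induction r generalizing m with
  | nil => rfl
  | cons x r ih => simp [shE, ih]

omit [LinearOrder L] in
theorem cp_bs (a : L ×ₗ ℤ) (m : ℤ) (r : List (Bool × L)) (s : Bool) (b : L) :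
    (cp a m r s b).map bs = arcs (pr a) r s b := by
  unfold cp
  have := arcs_map (pr (L := L)) a (sh m r) s (mk b (shE m r))
  rw [sh_pr] at this
  exact this

/-- Nested arcs do not cross. -/
theorem nested {p q : L} (hpq : p ≠ q) {m m' : ℤ} (a a' : L ×ₗ ℤ) (ha : pr a = p) (ha' : pr a' = p)
    (h : a = a' ∨ (ht a = -m ∧ ht a' = -m')) (u u' : Bool) :
    X (⟨a, mk q m, u⟩ : Arc (L ×ₗ ℤ)) ⟨a', mk q m', u'⟩ = 0 := by
  unfold X
  rw [if_neg]
  rintro ⟨-, h1⟩
  unfold Ilv Btw Ots at h1
  simp only [lt_iff, pr_mk, ht_mk, ha, ha'] at h1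
  rcases h with rfl | ⟨h2, h3⟩
  · rcases lt_or_gt_of_ne hpq with h4 | h4 <;>
      simp only [h4, h4.ne, h4.ne', not_lt_of_gt h4, lt_irrefl, false_and, and_false, or_false,
        false_or, true_and, and_true, or_true, true_or] at h1 <;> omega
  · rw [h2, h3] at h1
    rcases lt_or_gt_of_ne hpq with h4 | h4 <;>
      simp only [h4, h4.ne, h4.ne', not_lt_of_gt h4, lt_irrefl, false_and, and_false, or_false,
        false_or, true_and, and_true, or_true, true_or] at h1 <;> omega

/-- The first arc of a copy does not cross the rest of another copy. -/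
theorem first_zero {s₁ : Bool} {p a0 : L} {r : List (Bool × L)} {s : Bool} {b : L}
    (halt : Alt ((s₁, p) :: r) s)
    (hz : crL (arcs a0 ((s₁, p) :: r) s b) (arcs a0 ((s₁, p) :: r) s b) = 0)
    (hnd : (a0 :: p :: (r.map Prod.snd ++ [b])).Nodup) (a : L ×ₗ ℤ) (ha : pr a = a0) (m m' : ℤ) :
    crL [(⟨a, mk p m, s₁⟩ : Arc (L ×ₗ ℤ))] (cp (mk p m') (-m') r s b) = 0 := by
  cases r with
  | nil =>
    have h : s₁ ≠ s := halt
    simp [cp, sh, arcs, crL, X, h]
  | cons x r =>
    obtain ⟨s₂, p₂⟩ := x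
    have h : s₁ ≠ s₂ := halt.1
    change crL _ (⟨mk p m', mk p₂ (-m'), s₂⟩ :: cp (mk p₂ (-m')) (- -m') r s b) = 0
    rw [crL_cons_right]
    have e1 : crL [(⟨a, mk p m, s₁⟩ : Arc (L ×ₗ ℤ))] [⟨mk p m', mk p₂ (-m'), s₂⟩] = 0 := by
      simp [crL, X, h]
    rw [e1, zero_add]
    refine Nat.le_zero.mp ((crL_le _ _).trans ?_)
    rw [cp_bs]
    have e2 : crL ([(⟨a, mk p m, s₁⟩ : Arc (L ×ₗ ℤ))].map bs) (arcs p₂ r s b) = 0 := by
      rw [crL_eq_zero_iff] at hz ⊢
      intro A hA B hB
      simp only [List.map_cons, List.map_nil, List.mem_singleton] at hA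
      subst hA
      refine hz _ ?_ _ ?_
      · simp [arcs, bs, ha]
      · simp [arcs, hB]
    simp only [List.map_cons, List.cons_append, List.nodup_cons, List.mem_cons, List.mem_append,
      List.mem_map, not_or] at hnd
    obtain ⟨⟨-, h1, h2, h3⟩, ⟨h4, h5, h6⟩, -⟩ := hnd
    have e3 : DL [(⟨a, mk p m, s₁⟩ : Arc (L ×ₗ ℤ))] (cp (mk p₂ (-m')) (- -m') r s b) = 0 := by
      change DL (arcs a [] s₁ (mk p m)) (arcs _ _ _ _) = 0
      rw [DL_arcs_of_ne]
      · rw [dl_of_ne, dl_of_ne, dl_of_ne, dl_of_ne]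
        · simpa using h6.1
        · simpa using h4
        · simpa [ha] using h3.1
        · simpa [ha] using h1
      · simp
      · simp
      · intro y hy
        have := (mem_sh hy).1
        constructor
        · intro h7
          exact h2 ⟨_, this, by rw [← ha, h7]⟩
        · intro h7
          exact h5 ⟨_, this, by rw [← h7]; simp⟩
    rw [pr_mk, e2, e3]

/-- Two parallel copies do not cross. -/
theorem cp_cross {r : List (Bool × L)} {s : Bool} {b : L} : ∀ {a0 : L} (_ : Alt r s)
    (_ : crL (arcs a0 r s b) (arcs a0 r s b) = 0)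
    (_ : (a0 :: (r.map Prod.snd ++ [b])).Nodup) (a a' : L ×ₗ ℤ) (_ : pr a = a0) (_ : pr a' = a0)
    (m m' : ℤ) (_ : a = a' ∨ (ht a = -m ∧ ht a' = -m')),
    crL (cp a m r s b) (cp a' m' r s b) = 0 := by
  induction r with
  | nil =>
    intro a0 halt hz hnd a a' ha ha' m m' h
    have : a0 ≠ b := by simpa using hnd
    change crL [_] [_] = 0
    simp only [crL, List.map_cons, List.map_nil, List.sum_cons, List.sum_nil, add_zero]
    exact nested this a a' ha ha' h _ _
  | cons x r ih =>
    obtain ⟨s₁, p⟩ := x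
    intro a0 halt hz hnd a a' ha ha' m m' h
    change crL (⟨a, mk p m, s₁⟩ :: cp (mk p m) (-m) r s b)
      (⟨a', mk p m', s₁⟩ :: cp (mk p m') (-m') r s b) = 0
    have hnd' : (a0 :: p :: (r.map Prod.snd ++ [b])).Nodup := hnd
    have hap : a0 ≠ p := by
      simp only [List.nodup_cons, List.mem_cons, not_or] at hnd'
      exact hnd'.1.1
    rw [crL_cons_left, crL_cons_right _ _ (cp _ _ _ _ _), crL_cons_right (cp _ _ _ _ _)]
    have e1 : crL [(⟨a, mk p m, s₁⟩ : Arc (L ×ₗ ℤ))] [⟨a', mk p m', s₁⟩] = 0 := by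
      simp only [crL, List.map_cons, List.map_nil, List.sum_cons, List.sum_nil, add_zero]
      exact nested hap a a' ha ha' h _ _
    have e2 := first_zero halt hz hnd' a ha m m'
    have e3 := first_zero halt hz hnd' a' ha' m' m
    rw [crL_comm] at e3
    have e4 : crL (cp (mk p m) (-m) r s b) (cp (mk p m') (-m') r s b) = 0 := by
      refine ih (a0 := p) ?_ ?_ ?_ _ _ (pr_mk _ _) (pr_mk _ _) _ _ (Or.inr ⟨by simp, by simp⟩)
      · cases r with
        | nil => exact trivial
        | cons y r => exact halt.2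
      · rw [crL_eq_zero_iff] at hz ⊢
        intro A hA B hB
        exact hz A (by simp [arcs, hA]) B (by simp [arcs, hB])
      · exact (List.nodup_cons.mp hnd').2
    rw [e1, e2, e3, e4]

end copies

section main

variable {V ι W : Type} [Fintype ι] {ω : W → V} {σ τ : ι → V ⊕ W} {L : Type} [LinearOrder L]
  (H : Drawing (splitNet ω σ τ) L)

/-- where the side `b` of the edge `i` is attached -/
def att (σ τ : ι → V ⊕ W) (b : Bool) (i : ι) : V ⊕ W := if b then τ i else σ i

/-- number of an end -/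
noncomputable def num (e : ι × Bool) : ℤ := ((Fintype.equivFin (ι × Bool) e : ℕ) : ℤ) + 1

theorem num_pos (e : ι × Bool) : 0 < num e := by unfold num; omega

theorem num_inj {e e' : ι × Bool} (h : (num e).natAbs = (num e').natAbs) : e = e' := by
  have h1 := num_pos e
  have h2 := num_pos e'
  have h3 : num e = num e' := by omega
  unfold num at h3
  have h4 : ((Fintype.equivFin (ι × Bool) e : ℕ)) = (Fintype.equivFin (ι × Bool) e' : ℕ) := by omega
  exact (Fintype.equivFin (ι × Bool)).injective (Fin.ext h4)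

/-- the point where an end starts its way along the copy of the guide -/
noncomputable def Pt (i : ι) (b : Bool) : L ×ₗ ℤ :=
  (att σ τ b i).elim (fun v => mk (H.pos (Sum.inl v)) 0)
    (fun w => mk (H.pos (Sum.inr w)) (shE (-num (i, b)) (H.inner (Sum.inr w))))

/-- the arcs of the copy used by an end -/
noncomputable def Cc (i : ι) (b : Bool) : List (Arc (L ×ₗ ℤ)) :=
  (att σ τ b i).elim (fun _ => [])
    (fun w => cp (mk (H.pos (Sum.inl (ω w))) 0) (-num (i, b)) (H.inner (Sum.inr w))
      (H.last (Sum.inr w)) (H.pos (Sum.inr w)))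

/-- second coordinate 0 -/
def l0 (r : List (Bool × L)) : List (Bool × (L ×ₗ ℤ)) := r.map fun x => (x.1, mk x.2 0)

/-- the middle part -/
noncomputable def mid (i : ι) : List (Arc (L ×ₗ ℤ)) :=
  arcs (Pt H i false) (l0 (H.inner (Sum.inl i))) (H.last (Sum.inl i)) (Pt H i true)

/-- part of the inner points at the source -/
noncomputable def srcP (i : ι) : List (Bool × (L ×ₗ ℤ)) :=
  (σ i).elim (fun _ => [])
    (fun w => sh (-num (i, false)) (H.inner (Sum.inr w)) ++ [(H.last (Sum.inr w), Pt H i false)])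

/-- part of the inner points at the target, and the last page -/
noncomputable def tgtP (i : ι) : List (Bool × (L ×ₗ ℤ)) × Bool :=
  (τ i).elim (fun _ => ([], H.last (Sum.inl i)))
    (fun w => ((H.last (Sum.inl i), Pt H i true) ::
        (rv (sh (-num (i, true)) (H.inner (Sum.inr w))) (H.last (Sum.inr w))).1,
      (rv (sh (-num (i, true)) (H.inner (Sum.inr w))) (H.last (Sum.inr w))).2))

/-- the inner points of the new edge -/
noncomputable def inn (i : ι) : List (Bool × (L ×ₗ ℤ)) :=
  srcP H i ++ (l0 (H.inner (Sum.inl i)) ++ (tgtP H i).1)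

/-- position of the vertices -/
def ps (v : V) : L ×ₗ ℤ := mk (H.pos (Sum.inl v)) 0

theorem crL_path (i : ι) (Q : List (Arc (L ×ₗ ℤ))) :
    crL (arcs (ps H (Sum.elim id ω (σ i))) (inn H i) (tgtP H i).2 (ps H (Sum.elim id ω (τ i)))) Q =
      crL (Cc H i false) Q + (crL (mid H i) Q + crL (Cc H i true) Q) := by
  have h1 : crL (arcs (Pt H i false) (l0 (H.inner (Sum.inl i)) ++ (tgtP H i).1) (tgtP H i).2
      (ps H (Sum.elim id ω (τ i)))) Q = crL (mid H i) Q + crL (Cc H i true) Q := by
    unfold mid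
    rcases hτ : τ i with v | w
    · have e1 : tgtP H i = ([], H.last (Sum.inl i)) := by unfold tgtP; rw [hτ]; rfl
      have e2 : Pt H i true = ps H v := by unfold Pt att; simp only [if_true]; rw [hτ]; rfl
      have e3 : Cc H i true = [] := by unfold Cc att; simp only [if_true]; rw [hτ]; rfl
      rw [e1, e2, e3, crL_nil_left]
      simp
    · have e1 : tgtP H i = ((H.last (Sum.inl i), Pt H i true) ::
        (rv (sh (-num (i, true)) (H.inner (Sum.inr w))) (H.last (Sum.inr w))).1,
          (rv (sh (-num (i, true)) (H.inner (Sum.inr w))) (H.last (Sum.inr w))).2) := by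
        unfold tgtP; rw [hτ]; rfl
      have e2 : Pt H i true =
          mk (H.pos (Sum.inr w)) (shE (-num (i, true)) (H.inner (Sum.inr w))) := by
        unfold Pt att; simp only [if_true]; rw [hτ]; rfl
      have e3 : Cc H i true = arcs (mk (H.pos (Sum.inl (ω w))) 0)
          (sh (-num (i, true)) (H.inner (Sum.inr w))) (H.last (Sum.inr w)) (Pt H i true) := by
        rw [e2]; unfold Cc att; simp only [if_true]; rw [hτ]; rfl
      rw [e1, e3]
      change crL (arcs _ (_ ++ (_, _) :: _) _ (mk (H.pos (Sum.inl (ω w))) 0)) Q = _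
      rw [arcs_append, crL_append_left, arcs_rv, crL_reverse_sw]
  unfold inn
  rcases hσ : σ i with v | w
  · have e1 : srcP H i = [] := by unfold srcP; rw [hσ]; rfl
    have e2 : Pt H i false = ps H v := by unfold Pt att; simp only [Bool.false_eq_true, if_false]; rw [hσ]; rfl
    have e3 : Cc H i false = [] := by
      unfold Cc att; simp only [Bool.false_eq_true, if_false]; rw [hσ]; rfl
    rw [e1, e3, crL_nil_left, zero_add, List.nil_append]
    rw [e2] at h1
    exact h1
  · have e1 : srcP H i = sh (-num (i, false)) (H.inner (Sum.inr w)) ++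
        [(H.last (Sum.inr w), Pt H i false)] := by unfold srcP; rw [hσ]; rfl
    have e2 : Pt H i false =
        mk (H.pos (Sum.inr w)) (shE (-num (i, false)) (H.inner (Sum.inr w))) := by
      unfold Pt att; simp only [Bool.false_eq_true, if_false]; rw [hσ]; rfl
    have e3 : Cc H i false = arcs (mk (H.pos (Sum.inl (ω w))) 0)
        (sh (-num (i, false)) (H.inner (Sum.inr w))) (H.last (Sum.inr w)) (Pt H i false) := by
      rw [e2]; unfold Cc att; simp only [Bool.false_eq_true, if_false]; rw [hσ]; rfl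
    rw [e1, List.append_assoc, List.singleton_append, arcs_append, crL_append_left, h1, e3]
    rfl

/-- indicator: the side `b` of `i` is attached at the old copy `inr w` -/
def I [DecidableEq V] [DecidableEq W] (σ τ : ι → V ⊕ W) (b : Bool) (i : ι) (w : W) : ℕ :=
  if att σ τ b i = Sum.inr w then 1 else 0

/-- number of sides of `i` attached at the old copy `inr w` -/
def J [DecidableEq V] [DecidableEq W] (σ τ : ι → V ⊕ W) (i : ι) (w : W) : ℕ :=
  I σ τ false i w + I σ τ true i w

theorem pr_Pt (i : ι) (b : Bool) : pr (Pt H i b) = H.pos (att σ τ b i) := by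
  unfold Pt
  rcases att σ τ b i with v | w <;> rfl

theorem ht_Pt_inr {i : ι} {b : Bool} {w : W} (h : att σ τ b i = Sum.inr w) :
    (ht (Pt H i b)).natAbs = (num (i, b)).natAbs := by
  unfold Pt
  rw [h]
  simp [shE_natAbs]

theorem Pt_inl {i : ι} {b : Bool} {v : V} (h : att σ τ b i = Sum.inl v) :
    Pt H i b = mk (H.pos (Sum.inl v)) 0 := by
  unfold Pt
  rw [h]
  rfl

theorem l0_pr (r : List (Bool × L)) : (l0 r).map (fun x => (x.1, pr x.2)) = r := by
  unfold l0
  simp [Function.comp_def]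

theorem mid_bs (i : ι) : (mid H i).map bs = H.path (Sum.inl i) := by
  unfold mid
  have := arcs_map (pr (L := L)) (Pt H i false) (l0 (H.inner (Sum.inl i))) (H.last (Sum.inl i))
    (Pt H i true)
  rw [l0_pr, pr_Pt, pr_Pt] at this
  exact this

theorem mem_l0 {r : List (Bool × L)} {x : Bool × (L ×ₗ ℤ)} (hx : x ∈ l0 r) :
    (x.1, pr x.2) ∈ r ∧ ht x.2 = 0 := by
  unfold l0 at hx
  rw [List.mem_map] at hx
  obtain ⟨y, hy, rfl⟩ := hx
  simpa using hy

theorem att_src (i : ι) : (splitNet ω σ τ).src (Sum.inl i) = att σ τ false i := rfl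
theorem att_tgt (i : ι) : (splitNet ω σ τ).tgt (Sum.inl i) = att σ τ true i := rfl

theorem dl_ps (v : V) (j : ι) (b' : Bool) : dl (mk (H.pos (Sum.inl v)) 0) (Pt H j b') = 0 := by
  by_cases h : pr (mk (H.pos (Sum.inl v)) 0 : L ×ₗ ℤ) = pr (Pt H j b')
  · rw [pr_mk, pr_Pt] at h
    rw [Pt_inl H (H.pos_inj h).symm, dl_self]
  · exact dl_of_ne h

section ineq

variable [DecidableEq V] [DecidableEq W] [Fintype W]

theorem dl_le_I (i j : ι) (b b' : Bool) :
    dl (Pt H i b) (Pt H j b') ≤ ∑ w, I σ τ b i w * I σ τ b' j w := by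
  rcases hb : att σ τ b i with v | w
  · rw [Pt_inl H hb, dl_ps]
    exact Nat.zero_le _
  · by_cases h : pr (Pt H i b) = pr (Pt H j b')
    · rw [pr_Pt, pr_Pt] at h
      have h2 := H.pos_inj h
      refine (dl_le_one _ _).trans ?_
      refine le_trans ?_ (Finset.single_le_sum (fun _ _ => Nat.zero_le _) (Finset.mem_univ w))
      unfold I
      rw [← h2, hb]
      simp
    · rw [dl_of_ne h]; exact Nat.zero_le _

theorem sum_J (i j : ι) (w : W) : I σ τ false i w * I σ τ false j w +
    I σ τ false i w * I σ τ true j w + (I σ τ true i w * I σ τ false j w +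
      I σ τ true i w * I σ τ true j w) = J σ τ i w * J σ τ j w := by
  unfold J; ring

theorem mid_mid {i j : ι} (hij : i ≠ j) : crL (mid H i) (mid H j) ≤
    crL (H.path (Sum.inl i)) (H.path (Sum.inl j)) + ∑ w, J σ τ i w * J σ τ j w := by
  refine (crL_le _ _).trans ?_
  rw [mid_bs, mid_bs]
  refine Nat.add_le_add_left ?_ _
  unfold mid
  have hne : (Sum.inl i : ι ⊕ W) ≠ Sum.inl j := fun h => hij (Sum.inl_injective h)
  rw [DL_arcs_of_ne]
  · simp only [← sum_J, Finset.sum_add_distrib]
    exact add_le_add (add_le_add (dl_le_I H _ _ _ _) (dl_le_I H _ _ _ _))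
      (add_le_add (dl_le_I H _ _ _ _) (dl_le_I H _ _ _ _))
  · intro x hx y hy
    exact H.disj _ _ hne _ (mem_l0 hx).1 _ (mem_l0 hy).1
  · intro x hx
    rw [pr_Pt, pr_Pt]
    exact ⟨H.avoid _ _ (mem_l0 hx).1 _, H.avoid _ _ (mem_l0 hx).1 _⟩
  · intro y hy
    rw [pr_Pt, pr_Pt]
    exact ⟨(H.avoid _ _ (mem_l0 hy).1 _).symm, (H.avoid _ _ (mem_l0 hy).1 _).symm⟩

theorem Cc_inl {i : ι} {b : Bool} {v : V} (h : att σ τ b i = Sum.inl v) : Cc H i b = [] := by
  unfold Cc; rw [h]; rfl

theorem Cc_inr {i : ι} {b : Bool} {w : W} (h : att σ τ b i = Sum.inr w) :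
    Cc H i b = cp (mk (H.pos (Sum.inl (ω w))) 0) (-num (i, b)) (H.inner (Sum.inr w))
      (H.last (Sum.inr w)) (H.pos (Sum.inr w)) := by
  unfold Cc; rw [h]; rfl

theorem Pt_inr {i : ι} {b : Bool} {w : W} (h : att σ τ b i = Sum.inr w) :
    Pt H i b = mk (H.pos (Sum.inr w)) (shE (-num (i, b)) (H.inner (Sum.inr w))) := by
  unfold Pt; rw [h]; rfl

theorem Cc_mid (i j : ι) (b : Bool) : crL (Cc H i b) (mid H j) ≤
    ∑ w, I σ τ b i w * crL (H.path (Sum.inr w)) (H.path (Sum.inl j)) +
      ∑ w, I σ τ b i w * J σ τ j w := by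
  rcases hb : att σ τ b i with v | w
  · rw [Cc_inl H hb, crL_nil_left]; exact Nat.zero_le _
  · rw [Cc_inr H hb]
    refine (crL_le _ _).trans ?_
    rw [mid_bs, cp_bs]
    refine add_le_add ?_ ?_
    · refine le_trans ?_ (Finset.single_le_sum (fun _ _ => Nat.zero_le _) (Finset.mem_univ w))
      unfold I
      rw [hb]
      simp only [if_true, one_mul, pr_mk]
      exact le_rfl
    · unfold cp mid
      rw [DL_arcs_of_ne]
      · rw [dl_ps, dl_ps, ← Pt_inr H hb]
        simp only [J, mul_add, Finset.sum_add_distrib]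
        simpa using add_le_add (dl_le_I H i j b false) (dl_le_I H i j b true)
      · intro x hx y hy
        exact H.disj _ _ (by simp) _ (mem_sh hx).1 _ (mem_l0 hy).1
      · intro x hx
        rw [pr_Pt, pr_Pt]
        exact ⟨H.avoid _ _ (mem_sh hx).1 _, H.avoid _ _ (mem_sh hx).1 _⟩
      · intro y hy
        rw [pr_mk, pr_mk]
        exact ⟨(H.avoid _ _ (mem_l0 hy).1 _).symm, (H.avoid _ _ (mem_l0 hy).1 _).symm⟩

theorem Cc_Cc (hω : Function.Injective ω)
    (halt : ∀ w, Alt (H.inner (Sum.inr w)) (H.last (Sum.inr w)))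
    (hsim : ∀ w, crL (H.path (Sum.inr w)) (H.path (Sum.inr w)) = 0)
    (i j : ι) (b b' : Bool) : crL (Cc H i b) (Cc H j b') ≤
    ∑ w, ∑ w', I σ τ b i w * I σ τ b' j w' *
      (if w = w' then 0 else crL (H.path (Sum.inr w)) (H.path (Sum.inr w'))) := by
  rcases hb : att σ τ b i with v | w
  · rw [Cc_inl H hb, crL_nil_left]; exact Nat.zero_le _
  rcases hb' : att σ τ b' j with v | w'
  · rw [Cc_inl H hb', crL_nil_right]; exact Nat.zero_le _
  rw [Cc_inr H hb, Cc_inr H hb']
  by_cases hw : w = w'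
  · subst hw
    have e0 := cp_cross (a0 := H.pos (Sum.inl (ω w))) (b := H.pos (Sum.inr w)) (halt w) (hsim w) ?_
      (mk (H.pos (Sum.inl (ω w))) 0) (mk (H.pos (Sum.inl (ω w))) 0) rfl rfl (-num (i, b))
      (-num (j, b')) (Or.inl rfl)
    · rw [e0]; exact Nat.zero_le _
    · have h1 := H.nodup (Sum.inr w)
      have h2 := H.avoid (Sum.inr w)
      have h3 : H.pos (Sum.inl (ω w)) ≠ H.pos (Sum.inr w) := fun h => by
        simpa using H.pos_inj h
      rw [List.nodup_cons, List.mem_append, List.nodup_append]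
      refine ⟨?_, h1, by simp, ?_⟩
      · rintro (h4 | h4)
        · obtain ⟨x, hx, hx'⟩ := List.mem_map.mp h4
          exact h2 x hx _ hx'
        · exact h3 (List.mem_singleton.mp h4)
      · intro x hx y hy
        obtain ⟨x', hx', rfl⟩ := List.mem_map.mp hx
        rw [List.mem_singleton.mp hy]
        exact h2 x' hx' _
  · refine (crL_le _ _).trans ?_
    rw [cp_bs, cp_bs]
    have e : DL (cp (mk (H.pos (Sum.inl (ω w))) 0) (-num (i, b)) (H.inner (Sum.inr w))
        (H.last (Sum.inr w)) (H.pos (Sum.inr w))) (cp (mk (H.pos (Sum.inl (ω w'))) 0)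
        (-num (j, b')) (H.inner (Sum.inr w')) (H.last (Sum.inr w')) (H.pos (Sum.inr w'))) = 0 := by
      unfold cp
      rw [DL_arcs_of_ne]
      · rw [dl_of_ne, dl_of_ne, dl_of_ne, dl_of_ne]
        · rw [pr_mk, pr_mk]; intro h; exact hw (Sum.inr_injective (H.pos_inj h))
        · rw [pr_mk, pr_mk]; intro h; simpa using H.pos_inj h
        · rw [pr_mk, pr_mk]; intro h; simpa using H.pos_inj h
        · rw [pr_mk, pr_mk]; intro h; exact hw (hω (Sum.inl_injective (H.pos_inj h)))
      · intro x hx y hy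
        exact H.disj _ _ (fun h => hw (Sum.inr_injective h)) _ (mem_sh hx).1 _ (mem_sh hy).1
      · intro x hx
        rw [pr_mk, pr_mk]
        exact ⟨H.avoid _ _ (mem_sh hx).1 _, H.avoid _ _ (mem_sh hx).1 _⟩
      · intro y hy
        rw [pr_mk, pr_mk]
        exact ⟨(H.avoid _ _ (mem_sh hy).1 _).symm, (H.avoid _ _ (mem_sh hy).1 _).symm⟩
    rw [e, add_zero]
    refine le_trans ?_ (Finset.single_le_sum (fun _ _ => Nat.zero_le _) (Finset.mem_univ w))
    refine le_trans ?_ (Finset.single_le_sum (fun _ _ => Nat.zero_le _) (Finset.mem_univ w'))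
    unfold I
    rw [hb, hb', if_neg hw]
    simp only [if_true, one_mul, pr_mk]
    exact le_rfl

end ineq

theorem srcP_ht (i : ι) : ∀ y ∈ (srcP H i).map Prod.snd,
    (ht y).natAbs = (num (i, false)).natAbs := by
  intro y hy
  obtain ⟨x, hx, rfl⟩ := List.mem_map.mp hy
  unfold srcP at hx
  rcases hσ : σ i with v | w
  · rw [hσ] at hx; simp at hx
  · rw [hσ] at hx
    simp only [Sum.elim_inr, List.mem_append, List.mem_singleton] at hx
    rcases hx with hx | hx
    · rw [(mem_sh hx).2, Int.natAbs_neg]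
    · rw [hx]; exact ht_Pt_inr H (b := false) hσ

theorem tgtP_ht (i : ι) : ∀ y ∈ (tgtP H i).1.map Prod.snd,
    (ht y).natAbs = (num (i, true)).natAbs := by
  intro y hy
  unfold tgtP at hy
  rcases hτ : τ i with v | w
  · rw [hτ] at hy; simp at hy
  · rw [hτ] at hy
    simp only [Sum.elim_inr, List.map_cons, rv_pts, List.mem_cons, List.mem_reverse] at hy
    rcases hy with hy | hy
    · rw [hy]; exact ht_Pt_inr H (b := true) hτ
    · obtain ⟨x, hx, rfl⟩ := List.mem_map.mp hy
      rw [(mem_sh hx).2, Int.natAbs_neg]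

theorem nodup_aux (w : W) : (((H.inner (Sum.inr w)).map Prod.snd) ++ [H.pos (Sum.inr w)]).Nodup := by
  rw [List.nodup_append]
  refine ⟨H.nodup _, by simp, ?_⟩
  intro x hx y hy
  obtain ⟨x', hx', rfl⟩ := List.mem_map.mp hx
  rw [List.mem_singleton.mp hy]
  exact H.avoid _ x' hx' _

theorem srcP_nodup (i : ι) : ((srcP H i).map Prod.snd).Nodup := by
  unfold srcP
  rcases hσ : σ i with v | w
  · simp
  · refine List.Nodup.of_map (pr (L := L)) ?_
    simp only [Sum.elim_inr, List.map_append, List.map_map, Function.comp_def, List.map_cons,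
      List.map_nil]
    rw [sh_snd, pr_Pt]
    have : att σ τ false i = Sum.inr w := hσ
    rw [this]
    exact nodup_aux H w

theorem tgtP_nodup (i : ι) : ((tgtP H i).1.map Prod.snd).Nodup := by
  unfold tgtP
  rcases hτ : τ i with v | w
  · simp
  · refine List.Nodup.of_map (pr (L := L)) ?_
    simp only [Sum.elim_inr, List.map_cons, rv_pts, List.map_reverse, List.map_map,
      Function.comp_def]
    rw [sh_snd, pr_Pt]
    have : att σ τ true i = Sum.inr w := hτ
    rw [this]
    have h := nodup_aux H w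
    rw [← List.nodup_reverse] at h
    simpa using h

theorem l0_nodup (i : ι) : ((l0 (H.inner (Sum.inl i))).map Prod.snd).Nodup := by
  refine List.Nodup.of_map (pr (L := L)) ?_
  unfold l0
  simp only [List.map_map, Function.comp_def, pr_mk]
  exact H.nodup _

theorem inn_mem {i : ι} {y : L ×ₗ ℤ} (hy : y ∈ (inn H i).map Prod.snd) :
    (∃ b, (ht y).natAbs = (num (i, b)).natAbs) ∨
      (ht y = 0 ∧ pr y ∈ (H.inner (Sum.inl i)).map Prod.snd) := by
  unfold inn at hy
  simp only [List.map_append, List.mem_append] at hy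
  rcases hy with hy | hy | hy
  · exact Or.inl ⟨false, srcP_ht H i y hy⟩
  · obtain ⟨x, hx, rfl⟩ := List.mem_map.mp hy
    obtain ⟨h1, h2⟩ := mem_l0 hx
    exact Or.inr ⟨h2, List.mem_map.mpr ⟨_, h1, rfl⟩⟩
  · exact Or.inl ⟨true, tgtP_ht H i y hy⟩

theorem inn_nodup (i : ι) : ((inn H i).map Prod.snd).Nodup := by
  unfold inn
  rw [List.map_append, List.map_append, List.nodup_append, List.nodup_append]
  have hl0 : ∀ y ∈ (l0 (H.inner (Sum.inl i))).map Prod.snd, (ht y).natAbs = 0 := by
    intro y hy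
    obtain ⟨x, hx, rfl⟩ := List.mem_map.mp hy
    rw [(mem_l0 hx).2]; rfl
  refine ⟨srcP_nodup H i, ⟨l0_nodup H i, tgtP_nodup H i, ?_⟩, ?_⟩
  · intro x hx y hy hxy
    have h1 := hl0 x hx
    have h2 := tgtP_ht H i y hy
    have h3 := num_pos (i, true)
    rw [hxy] at h1; omega
  · intro x hx y hy hxy
    have h1 := srcP_ht H i x hx
    have h3 := num_pos (i, false)
    rcases List.mem_append.mp hy with hy | hy
    · have h2 := hl0 y hy
      rw [hxy] at h1; omega
    · have h2 := tgtP_ht H i y hy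
      rw [hxy, h2] at h1
      have := num_inj h1
      simp at this

/-- The contracted drawing. -/
noncomputable def ctr (N : Net V ι) (hσ : ∀ i, Sum.elim id ω (σ i) = N.src i)
    (hτ : ∀ i, Sum.elim id ω (τ i) = N.tgt i) : Drawing N (L ×ₗ ℤ) where
  pos := ps H
  inner := inn H
  last := fun i => (tgtP H i).2
  pos_inj := by
    intro v v' h
    have : pr (ps H v) = pr (ps H v') := by rw [h]
    exact Sum.inl_injective (H.pos_inj this)
  nodup := inn_nodup H
  disj := by
    intro i j hij x hx y hy hxy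
    have hne : (Sum.inl i : ι ⊕ W) ≠ Sum.inl j := fun h => hij (Sum.inl_injective h)
    have e1 := inn_mem H (List.mem_map_of_mem (f := Prod.snd) hx)
    have e2 := inn_mem H (List.mem_map_of_mem (f := Prod.snd) hy)
    rw [hxy] at e1
    rcases e1 with ⟨b, h1⟩ | ⟨h1, h1'⟩ <;> rcases e2 with ⟨b', h2⟩ | ⟨h2, h2'⟩
    · rw [h1] at h2
      have := num_inj h2
      exact hij (Prod.ext_iff.mp this).1
    · have := num_pos (i, b)
      omega
    · have := num_pos (j, b')
      omega
    · obtain ⟨x', hx', h3⟩ := List.mem_map.mp h1'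
      obtain ⟨y', hy', h4⟩ := List.mem_map.mp h2'
      exact H.disj _ _ hne x' hx' y' hy' (by rw [h3, h4])
  avoid := by
    intro i x hx v hxv
    rcases inn_mem H (List.mem_map_of_mem (f := Prod.snd) hx) with ⟨b, h1⟩ | ⟨h1, h1'⟩
    · have := num_pos (i, b)
      rw [hxv] at h1
      have h2 : ht (ps H v) = 0 := rfl
      omega
    · obtain ⟨x', hx', h3⟩ := List.mem_map.mp h1'
      refine H.avoid _ x' hx' (Sum.inl v) ?_
      rw [h3, hxv]; rfl

end main

end Contr

open Contr in
/-- D8 (contraction of the guides). -/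
theorem contract {V ι W : Type} [Fintype V] [DecidableEq V] [Fintype ι] [DecidableEq ι] [Fintype W]
    [DecidableEq W] (N : Net V ι)
    (ω : W → V) (hω : Function.Injective ω) (σ τ : ι → V ⊕ W)
    (hσ : ∀ i, Sum.elim id ω (σ i) = N.src i) (hτ : ∀ i, Sum.elim id ω (τ i) = N.tgt i)
    (hN : N.Simple) {L : Type} [LinearOrder L] (H : Drawing (splitNet ω σ τ) L)
    (halt : ∀ w, Alt (H.inner (Sum.inr w)) (H.last (Sum.inr w)))
    (hsim : ∀ w, crL (H.path (Sum.inr w)) (H.path (Sum.inr w)) = 0) :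
    ∃ (L' : Type) (_ : LinearOrder L') (D : Drawing N L'),
      D.dcr ≤ (∑ i, ∑ j, if i = j then 0 else crL (H.path (Sum.inl i)) (H.path (Sum.inl j)))
        + 2 * (∑ w, ((univ.filter fun i => σ i = Sum.inr w).card
              + (univ.filter fun i => τ i = Sum.inr w).card)
            * ∑ j, crL (H.path (Sum.inr w)) (H.path (Sum.inl j)))
        + (∑ w, ∑ w', if w = w' then 0 else
            ((univ.filter fun i => σ i = Sum.inr w).card
              + (univ.filter fun i => τ i = Sum.inr w).card)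
            * ((univ.filter fun i => σ i = Sum.inr w').card
              + (univ.filter fun i => τ i = Sum.inr w').card)
            * crL (H.path (Sum.inr w)) (H.path (Sum.inr w')))
        + 4 * ∑ w, ((univ.filter fun i => σ i = Sum.inr w).card
              + (univ.filter fun i => τ i = Sum.inr w).card) ^ 2 := by
  refine ⟨L ×ₗ ℤ, inferInstance, ctr H N hσ hτ, ?_⟩
  have hg : ∀ w, (univ.filter fun i => σ i = Sum.inr w).card
      + (univ.filter fun i => τ i = Sum.inr w).card = ∑ i, J σ τ i w := by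
    intro w
    rw [Finset.card_filter, Finset.card_filter, ← Finset.sum_add_distrib]
    refine Finset.sum_congr rfl fun i _ => ?_
    simp [J, I, att]
  simp only [hg]
  set GH : W → ι → ℕ := fun w j => crL (H.path (Sum.inr w)) (H.path (Sum.inl j)) with hGH
  set K : W → W → ℕ := fun w w' => if w = w' then 0 else
    crL (H.path (Sum.inr w)) (H.path (Sum.inr w')) with hK
  have key : ∀ i j, i ≠ j → crL ((ctr H N hσ hτ).path i) ((ctr H N hσ hτ).path j) ≤
      crL (H.path (Sum.inl i)) (H.path (Sum.inl j)) + ∑ w, J σ τ i w * GH w j +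
      ∑ w, J σ τ j w * GH w i + ∑ w, ∑ w', J σ τ i w * J σ τ j w' * K w w' +
      3 * ∑ w, J σ τ i w * J σ τ j w := by
    intro i j hij
    have hp : ∀ i Q, crL ((ctr H N hσ hτ).path i) Q =
        crL (Cc H i false) Q + (crL (mid H i) Q + crL (Cc H i true) Q) := by
      intro i Q
      rw [← crL_path H i Q, hσ, hτ]
      rfl
    have hp' : ∀ j P, crL P ((ctr H N hσ hτ).path j) =
        crL P (Cc H j false) + (crL P (mid H j) + crL P (Cc H j true)) := by
      intro j P
      rw [crL_comm, hp, crL_comm P, crL_comm P, crL_comm P]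
    rw [hp, hp', hp', hp']
    have m1 := mid_mid H hij
    have a1 : crL (Cc H i false) (mid H j) ≤
        ∑ w, I σ τ false i w * GH w j + ∑ w, I σ τ false i w * J σ τ j w := Cc_mid H i j false
    have a2 : crL (Cc H i true) (mid H j) ≤
        ∑ w, I σ τ true i w * GH w j + ∑ w, I σ τ true i w * J σ τ j w := Cc_mid H i j true
    have b1 : crL (Cc H j false) (mid H i) ≤
        ∑ w, I σ τ false j w * GH w i + ∑ w, I σ τ false j w * J σ τ i w := Cc_mid H j i false
    have b2 : crL (Cc H j true) (mid H i) ≤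
        ∑ w, I σ τ true j w * GH w i + ∑ w, I σ τ true j w * J σ τ i w := Cc_mid H j i true
    have c1 : crL (Cc H i false) (Cc H j false) ≤
        ∑ w, ∑ w', I σ τ false i w * I σ τ false j w' * K w w' :=
      Cc_Cc H hω halt hsim i j false false
    have c2 : crL (Cc H i false) (Cc H j true) ≤
        ∑ w, ∑ w', I σ τ false i w * I σ τ true j w' * K w w' :=
      Cc_Cc H hω halt hsim i j false true
    have c3 : crL (Cc H i true) (Cc H j false) ≤
        ∑ w, ∑ w', I σ τ true i w * I σ τ false j w' * K w w' :=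
      Cc_Cc H hω halt hsim i j true false
    have c4 : crL (Cc H i true) (Cc H j true) ≤
        ∑ w, ∑ w', I σ τ true i w * I σ τ true j w' * K w w' :=
      Cc_Cc H hω halt hsim i j true true
    rw [crL_comm] at b1 b2
    have s1 : ∑ w, J σ τ i w * GH w j = ∑ w, I σ τ false i w * GH w j +
        ∑ w, I σ τ true i w * GH w j := by
      rw [← Finset.sum_add_distrib]
      exact Finset.sum_congr rfl fun w _ => by unfold J; ring
    have s2 : ∑ w, J σ τ j w * GH w i = ∑ w, I σ τ false j w * GH w i +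
        ∑ w, I σ τ true j w * GH w i := by
      rw [← Finset.sum_add_distrib]
      exact Finset.sum_congr rfl fun w _ => by unfold J; ring
    have s3 : ∑ w, J σ τ i w * J σ τ j w = ∑ w, I σ τ false i w * J σ τ j w +
        ∑ w, I σ τ true i w * J σ τ j w := by
      rw [← Finset.sum_add_distrib]
      exact Finset.sum_congr rfl fun w _ => by unfold J; ring
    have s4 : ∑ w, J σ τ i w * J σ τ j w = ∑ w, I σ τ false j w * J σ τ i w +
        ∑ w, I σ τ true j w * J σ τ i w := by
      rw [← Finset.sum_add_distrib]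
      exact Finset.sum_congr rfl fun w _ => by unfold J; ring
    have s5 : ∑ w, ∑ w', J σ τ i w * J σ τ j w' * K w w' =
        ∑ w, ∑ w', I σ τ false i w * I σ τ false j w' * K w w' +
        ∑ w, ∑ w', I σ τ false i w * I σ τ true j w' * K w w' +
        (∑ w, ∑ w', I σ τ true i w * I σ τ false j w' * K w w' +
        ∑ w, ∑ w', I σ τ true i w * I σ τ true j w' * K w w') := by
      simp only [← Finset.sum_add_distrib]
      exact Finset.sum_congr rfl fun w _ => Finset.sum_congr rfl fun w' _ => by unfold J; ring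
    omega
  have hD : (ctr H N hσ hτ).dcr ≤ ∑ i, ∑ j, ((if i = j then 0 else
      crL (H.path (Sum.inl i)) (H.path (Sum.inl j))) + ∑ w, J σ τ i w * GH w j +
      ∑ w, J σ τ j w * GH w i + ∑ w, ∑ w', J σ τ i w * J σ τ j w' * K w w' +
      3 * ∑ w, J σ τ i w * J σ τ j w) := by
    unfold Drawing.dcr
    refine Finset.sum_le_sum fun i _ => Finset.sum_le_sum fun j _ => ?_
    by_cases hij : i = j
    · simp [hij]
    · rw [if_neg hij, if_neg hij]; exact key i j hij
  refine hD.trans ?_
  simp only [Finset.sum_add_distrib]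
  have sw3 : ∀ F : ι → ι → W → ℕ, ∑ i, ∑ j, ∑ w, F i j w = ∑ w, ∑ i, ∑ j, F i j w := by
    intro F
    calc ∑ i, ∑ j, ∑ w, F i j w = ∑ i, ∑ w, ∑ j, F i j w :=
          Finset.sum_congr rfl fun i _ => Finset.sum_comm
      _ = ∑ w, ∑ i, ∑ j, F i j w := Finset.sum_comm
  have t1 : ∑ i, ∑ j, ∑ w, J σ τ i w * GH w j = ∑ w, (∑ i, J σ τ i w) * ∑ j, GH w j := by
    rw [sw3]
    exact Finset.sum_congr rfl fun w _ => (Finset.sum_mul_sum _ _ _ _).symm
  have t2 : ∑ i, ∑ j, ∑ w, J σ τ j w * GH w i = ∑ w, (∑ i, J σ τ i w) * ∑ j, GH w j := by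
    rw [Finset.sum_comm, t1]
  have t3 : ∑ i, ∑ j, ∑ w, ∑ w', J σ τ i w * J σ τ j w' * K w w' =
      ∑ w, ∑ w', (if w = w' then 0 else (∑ i, J σ τ i w) * (∑ i, J σ τ i w') *
        crL (H.path (Sum.inr w)) (H.path (Sum.inr w'))) := by
    rw [sw3]
    refine Finset.sum_congr rfl fun w _ => ?_
    rw [sw3]
    refine Finset.sum_congr rfl fun w' _ => ?_
    simp only [← Finset.sum_mul, ← Finset.mul_sum, hK]
    split_ifs <;> simp
  have t4 : ∑ i, ∑ j, 3 * ∑ w, J σ τ i w * J σ τ j w = 3 * ∑ w, (∑ i, J σ τ i w) ^ 2 := by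
    simp only [← Finset.mul_sum]
    rw [sw3]
    congr 1
    refine Finset.sum_congr rfl fun w _ => ?_
    rw [pow_two, Finset.sum_mul_sum]
  rw [t1, t2, t3, t4]
  simp only [hGH]
  omega

end MP60f107

end
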