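import Pool.Agent.Lib.MP_60f107_co.CrDraw1

section

/-!
Basic lemmas on arcs, chains, crossing counts and drawings.
-/

namespace MP60f107

open Finset

section order

variable {L L' : Type} [LinearOrder L] [LinearOrder L']

theorem Btw.symm {a b c : L} (h : Btw a b c) : Btw b a c := Or.symm h

theorem Ots.symm {a b c : L} (h : Ots a b c) : Ots b a c :=
  h.elim (fun h => Or.inl ⟨h.2, h.1⟩) (fun h => Or.inr ⟨h.2, h.1⟩)

theorem btw_comm {a b c : L} : Btw a b c ↔ Btw b a c := ⟨Btw.symm, Btw.symm⟩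

theorem ots_comm {a b c : L} : Ots a b c ↔ Ots b a c := ⟨Ots.symm, Ots.symm⟩

theorem ilv_swap_left {a b c d : L} : Ilv a b c d ↔ Ilv b a c d := by
  unfold Ilv; rw [btw_comm, ots_comm, ots_comm (c := c), btw_comm (c := d)]

theorem ilv_swap_right {a b c d : L} : Ilv a b c d ↔ Ilv a b d c := by
  unfold Ilv; tauto

theorem ilv_comm {a b c d : L} : Ilv a b c d ↔ Ilv c d a b := by
  unfold Ilv Btw Ots
  grind

theorem Ilv.ne {a b c d : L} (h : Ilv a b c d) :
    a ≠ b ∧ a ≠ c ∧ a ≠ d ∧ b ≠ c ∧ b ≠ d ∧ c ≠ d := by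
  unfold Ilv Btw Ots at h
  grind

theorem X_le_one (A B : Arc L) : X A B ≤ 1 := by
  unfold X; split <;> omega

theorem X_comm (A B : Arc L) : X A B = X B A := by
  unfold X
  simp only [ilv_comm (a := A.p), eq_comm (a := A.up)]

theorem X_swap_left (A B : Arc L) : X A.swap B = X A B := by
  unfold X Arc.swap
  simp only [ilv_swap_left (a := A.p)]

theorem X_swap_right (A B : Arc L) : X A B.swap = X A B := by
  rw [X_comm, X_swap_left, X_comm]

theorem X_map {φ : L → L'} (hφ : StrictMono φ) (A B : Arc L) :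
    X (A.map φ) (B.map φ) = X A B := by
  unfold X Arc.map Ilv Btw Ots
  simp only [hφ.lt_iff_lt]
  congr

theorem X_of_page_ne {A B : Arc L} (h : A.up ≠ B.up) : X A B = 0 := by
  unfold X; simp [h]

theorem X_eq_one_iff {A B : Arc L} : X A B = 1 ↔ A.up = B.up ∧ Ilv A.p A.q B.p B.q := by
  unfold X; split <;> simp_all

theorem X_eq_zero_iff {A B : Arc L} : X A B = 0 ↔ ¬ (A.up = B.up ∧ Ilv A.p A.q B.p B.q) := by
  unfold X; split <;> simp_all

/-- Arcs with a common end point do not cross. -/
theorem X_of_share {A B : Arc L} (h : A.p = B.p ∨ A.p = B.q ∨ A.q = B.p ∨ A.q = B.q) :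
    X A B = 0 := by
  rw [X_eq_zero_iff]
  rintro ⟨-, h'⟩
  have := h'.ne
  tauto

@[simp] theorem X_self (A : Arc L) : X A A = 0 := X_of_share (Or.inl rfl)

/-- An arc with both end points on one side of `B` does not cross `B`. -/
theorem X_of_not_ilv {A B : Arc L} (h : ¬ Ilv A.p A.q B.p B.q) : X A B = 0 := by
  rw [X_eq_zero_iff]; tauto

/-- The merge inequality. -/
theorem X_merge {a b c : L} {s : Bool} {B : Arc L} (h1 : b ≠ B.p) (h2 : b ≠ B.q) :
    X ⟨a, c, s⟩ B ≤ X ⟨a, b, s⟩ B + X ⟨b, c, s⟩ B := by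
  unfold X Ilv Btw Ots
  dsimp only
  grind

/-- The shortcut inequality. -/
theorem X_shortcut {a b c d : L} {s : Bool} {B : Arc L} (h : Ilv a b c d) :
    X ⟨a, d, s⟩ B ≤ X ⟨a, b, s⟩ B + X ⟨c, d, s⟩ B := by
  unfold X
  unfold Ilv Btw Ots at *
  dsimp only
  grind (splits := 40)

/-- The uncrossing inequality. -/
theorem X_uncross {a b c d : L} {s : Bool} {B : Arc L} (h : Ilv a b c d) :
    X ⟨c, b, s⟩ B + X ⟨a, d, s⟩ B ≤ X ⟨a, b, s⟩ B + X ⟨c, d, s⟩ B := by
  unfold X
  unfold Ilv Btw Ots at *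
  dsimp only
  grind (splits := 40)

theorem not_ilv_uncross {a b c d : L} (h : Ilv a b c d) : ¬ Ilv c b a d := by
  unfold Ilv Btw Ots at *
  grind

/-! ### crL -/

@[simp] theorem crL_nil_left (Q : List (Arc L)) : crL [] Q = 0 := by simp [crL]

@[simp] theorem crL_nil_right (P : List (Arc L)) : crL P [] = 0 := by simp [crL]

theorem crL_cons_left (A : Arc L) (P Q : List (Arc L)) :
    crL (A :: P) Q = (Q.map fun B => X A B).sum + crL P Q := by simp [crL]

theorem crL_singleton_left (A : Arc L) (Q : List (Arc L)) :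
    crL [A] Q = (Q.map fun B => X A B).sum := by simp [crL]

theorem crL_append_left (P P' Q : List (Arc L)) : crL (P ++ P') Q = crL P Q + crL P' Q := by
  simp [crL]

theorem crL_cons (A : Arc L) (P Q : List (Arc L)) : crL (A :: P) Q = crL [A] Q + crL P Q := by
  rw [crL_cons_left, crL_singleton_left]

theorem crL_append_right (P Q Q' : List (Arc L)) : crL P (Q ++ Q') = crL P Q + crL P Q' := by
  induction P with
  | nil => simp
  | cons A P ih => simp only [crL_cons_left, List.map_append, List.sum_append, ih]; omega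

theorem crL_singleton_right (P : List (Arc L)) (B : Arc L) :
    crL P [B] = (P.map fun A => X A B).sum := by simp [crL]

theorem crL_cons_right (P Q : List (Arc L)) (B : Arc L) :
    crL P (B :: Q) = (P.map fun A => X A B).sum + crL P Q := by
  rw [← List.singleton_append, crL_append_right, crL_singleton_right]

theorem crL_cons' (P Q : List (Arc L)) (B : Arc L) : crL P (B :: Q) = crL P [B] + crL P Q := by
  rw [← List.singleton_append, crL_append_right]

theorem crL_comm (P Q : List (Arc L)) : crL P Q = crL Q P := by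
  induction P with
  | nil => simp
  | cons A P ih =>
    rw [crL_cons_left, crL_cons_right, ih]
    simp only [X_comm]

@[simp] theorem crL_singleton (A B : Arc L) : crL [A] [B] = X A B := by simp [crL]

theorem crL_eq_zero_iff {P Q : List (Arc L)} : crL P Q = 0 ↔ ∀ A ∈ P, ∀ B ∈ Q, X A B = 0 := by
  simp [crL, List.sum_eq_zero_iff]

/-- Bound for `crL` against a list from bounds for single arcs. -/
theorem crL_le_of_forall {P P' Q : List (Arc L)} (h : ∀ B ∈ Q, crL P [B] ≤ crL P' [B]) :
    crL P Q ≤ crL P' Q := by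
  induction Q with
  | nil => simp
  | cons B Q ih =>
    rw [crL_cons', crL_cons' P']
    exact Nat.add_le_add (h B (by simp)) (ih fun B' hB' => h B' (by simp [hB']))

theorem crL_eq_of_forall {P P' Q : List (Arc L)} (h : ∀ B ∈ Q, crL P [B] = crL P' [B]) :
    crL P Q = crL P' Q :=
  le_antisymm (crL_le_of_forall fun B hB => (h B hB).le) (crL_le_of_forall fun B hB => (h B hB).ge)

theorem crL_map {φ : L → L'} (hφ : StrictMono φ) (P Q : List (Arc L)) :
    crL (P.map (Arc.map φ)) (Q.map (Arc.map φ)) = crL P Q := by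
  simp only [crL, List.map_map, Function.comp_def, X_map hφ]

theorem crL_swap_left (P Q : List (Arc L)) : crL (P.map Arc.swap) Q = crL P Q := by
  simp only [crL, List.map_map, Function.comp_def, X_swap_left]

theorem crL_reverse_left (P Q : List (Arc L)) : crL P.reverse Q = crL P Q := by
  simp only [crL, List.map_reverse, List.sum_reverse]

theorem crL_swap_right (P Q : List (Arc L)) : crL P (Q.map Arc.swap) = crL P Q := by
  rw [crL_comm, crL_swap_left, crL_comm]

theorem crL_reverse_right (P Q : List (Arc L)) : crL P Q.reverse = crL P Q := by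
  rw [crL_comm, crL_reverse_left, crL_comm]

end order

/-! ### chains -/

section chains

variable {L L' : Type}

@[simp] theorem arcs_nil (a : L) (s : Bool) (b : L) : arcs a [] s b = [⟨a, b, s⟩] := rfl

@[simp] theorem arcs_cons (a : L) (x : Bool × L) (r : List (Bool × L)) (s : Bool) (b : L) :
    arcs a (x :: r) s b = ⟨a, x.2, x.1⟩ :: arcs x.2 r s b := rfl

theorem arcs_append (a : L) (r₁ : List (Bool × L)) (x : Bool × L) (r₂ : List (Bool × L))
    (s : Bool) (b : L) : arcs a (r₁ ++ x :: r₂) s b = arcs a r₁ x.1 x.2 ++ arcs x.2 r₂ s b := by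
  induction r₁ generalizing a with
  | nil => rfl
  | cons y r₁ ih => simp [ih]

theorem length_arcs (a : L) (r : List (Bool × L)) (s : Bool) (b : L) :
    (arcs a r s b).length = r.length + 1 := by
  induction r generalizing a with
  | nil => rfl
  | cons y r ih => simp [ih]

theorem arcs_ne_nil (a : L) (r : List (Bool × L)) (s : Bool) (b : L) : arcs a r s b ≠ [] := by
  cases r <;> simp

theorem mem_arcs_p {a : L} {r : List (Bool × L)} {s : Bool} {b : L} {A : Arc L}
    (h : A ∈ arcs a r s b) : A.p = a ∨ ∃ x ∈ r, A.p = x.2 := by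
  induction r generalizing a with
  | nil => simp_all
  | cons y r ih =>
    rw [arcs_cons, List.mem_cons] at h
    rcases h with rfl | h
    · simp
    · rcases ih h with h | ⟨x, hx, h⟩
      · exact Or.inr ⟨y, by simp, h⟩
      · exact Or.inr ⟨x, by simp [hx], h⟩

theorem mem_arcs_q {a : L} {r : List (Bool × L)} {s : Bool} {b : L} {A : Arc L}
    (h : A ∈ arcs a r s b) : (∃ x ∈ r, A.q = x.2) ∨ A.q = b := by
  induction r generalizing a with
  | nil => simp_all
  | cons y r ih =>
    rw [arcs_cons, List.mem_cons] at h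
    rcases h with rfl | h
    · exact Or.inl ⟨y, by simp⟩
    · rcases ih h with ⟨x, hx, h⟩ | h
      · exact Or.inl ⟨x, by simp [hx], h⟩
      · exact Or.inr h

/-- An arc of a chain: the chain splits there. -/
theorem mem_arcs_split {a : L} {r : List (Bool × L)} {s : Bool} {b : L} {A : Arc L}
    (h : A ∈ arcs a r s b) : (r = [] ∧ A = ⟨a, b, s⟩) ∨
      (∃ x r', r = x :: r' ∧ A = ⟨a, x.2, x.1⟩) ∨
      (∃ r' x, r = r' ++ [x] ∧ A = ⟨x.2, b, s⟩) ∨
      (∃ r' x y r'', r = r' ++ x :: y :: r'' ∧ A = ⟨x.2, y.2, y.1⟩) := by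
  induction r generalizing a with
  | nil => left; simp_all
  | cons z r ih =>
    rw [arcs_cons, List.mem_cons] at h
    rcases h with rfl | h
    · right; left; exact ⟨z, r, rfl, rfl⟩
    · rcases ih h with ⟨rfl, rfl⟩ | ⟨x, r', rfl, rfl⟩ | ⟨r', x, rfl, rfl⟩ | ⟨r', x, y, r'', rfl, rfl⟩
      · right; right; left; exact ⟨[], z, rfl, rfl⟩
      · right; right; right; exact ⟨[], z, x, r', rfl, rfl⟩
      · right; right; left; exact ⟨z :: r', x, rfl, rfl⟩
      · right; right; right; exact ⟨z :: r', x, y, r'', rfl, rfl⟩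

@[simp] theorem mapPts_nil (φ : L → L') : mapPts φ [] = [] := rfl

@[simp] theorem mapPts_cons (φ : L → L') (x : Bool × L) (r : List (Bool × L)) :
    mapPts φ (x :: r) = (x.1, φ x.2) :: mapPts φ r := rfl

@[simp] theorem mapPts_append (φ : L → L') (r r' : List (Bool × L)) :
    mapPts φ (r ++ r') = mapPts φ r ++ mapPts φ r' := by simp [mapPts]

@[simp] theorem length_mapPts (φ : L → L') (r : List (Bool × L)) :
    (mapPts φ r).length = r.length := by simp [mapPts]

theorem mem_mapPts {φ : L → L'} {r : List (Bool × L)} {y : Bool × L'} :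
    y ∈ mapPts φ r ↔ ∃ x ∈ r, (x.1, φ x.2) = y := by simp [mapPts]

theorem map_snd_mapPts (φ : L → L') (r : List (Bool × L)) :
    (mapPts φ r).map Prod.snd = (r.map Prod.snd).map φ := by
  simp [mapPts, Function.comp_def]

theorem arcs_mapPts (φ : L → L') (a : L) (r : List (Bool × L)) (s : Bool) (b : L) :
    arcs (φ a) (mapPts φ r) s (φ b) = (arcs a r s b).map (Arc.map φ) := by
  induction r generalizing a with
  | nil => rfl
  | cons y r ih => simp [ih, Arc.map]

theorem Alt_mapPts (φ : L → L') (r : List (Bool × L)) (s : Bool) :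
    Alt (mapPts φ r) s ↔ Alt r s := by
  induction r with
  | nil => rfl
  | cons y r ih =>
    cases r with
    | nil => rfl
    | cons z r => simp only [mapPts_cons, Alt] at ih ⊢; rw [ih]

/-! ### alternation -/

/-- The page of the first arc of a chain. -/
def hd (r : List (Bool × L)) (s : Bool) : Bool :=
  match r with
  | [] => s
  | x :: _ => x.1

@[simp] theorem hd_nil (s : Bool) : hd ([] : List (Bool × L)) s = s := rfl

@[simp] theorem hd_cons (x : Bool × L) (r : List (Bool × L)) (s : Bool) : hd (x :: r) s = x.1 := rfl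

@[simp] theorem Alt_nil (s : Bool) : Alt ([] : List (Bool × L)) s := trivial

theorem Alt_cons (x : Bool × L) (r : List (Bool × L)) (s : Bool) :
    Alt (x :: r) s ↔ x.1 ≠ hd r s ∧ Alt r s := by
  cases r with
  | nil => simp [Alt]
  | cons y r => rfl

theorem Alt_append (r : List (Bool × L)) (x : Bool × L) (r' : List (Bool × L)) (s : Bool) :
    Alt (r ++ x :: r') s ↔ Alt r x.1 ∧ x.1 ≠ hd r' s ∧ Alt r' s := by
  induction r with
  | nil => simp [Alt_cons]
  | cons y r ih =>
    rw [List.cons_append, Alt_cons, Alt_cons, ih]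
    have : hd (r ++ x :: r') s = hd r x.1 := by cases r <;> rfl
    rw [this]; tauto

/-! ### reading a chain backwards -/

theorem length_rev (r : List (Bool × L)) (s : Bool) : (rev r s).1.length = r.length := by
  induction r with
  | nil => rfl
  | cons y r ih => simp [rev, ih]

theorem rev_snd (r : List (Bool × L)) (s : Bool) : (rev r s).2 = hd r s := by
  cases r <;> rfl

theorem rev_append (r : List (Bool × L)) (x : Bool × L) (r' : List (Bool × L)) (s : Bool) :
    rev (r ++ x :: r') s = ((rev r' s).1 ++ ((rev r' s).2, x.2) :: (rev r x.1).1, (rev r x.1).2) := by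
  induction r with
  | nil => simp [rev]
  | cons y r ih => simp [rev, ih]

theorem map_snd_rev (r : List (Bool × L)) (s : Bool) :
    (rev r s).1.map Prod.snd = (r.map Prod.snd).reverse := by
  induction r with
  | nil => rfl
  | cons y r ih => simp [rev, ih]

theorem rev_rev (r : List (Bool × L)) (s : Bool) : rev (rev r s).1 (rev r s).2 = (r, s) := by
  induction r generalizing s with
  | nil => rfl
  | cons y r ih =>
    have h1 : rev (y :: r) s = ((rev r s).1 ++ [((rev r s).2, y.2)], y.1) := rfl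
    rw [h1]
    dsimp only
    rw [rev_append]
    dsimp only
    rw [ih]
    rfl

theorem arcs_rev (a : L) (r : List (Bool × L)) (s : Bool) (b : L) :
    arcs b (rev r s).1 (rev r s).2 a = ((arcs a r s b).map Arc.swap).reverse := by
  induction r generalizing a with
  | nil => rfl
  | cons y r ih =>
    have h1 : rev (y :: r) s = ((rev r s).1 ++ [((rev r s).2, y.2)], y.1) := rfl
    rw [h1]
    dsimp only
    rw [arcs_append, ih]
    simp [Arc.swap]

theorem Alt_rev (r : List (Bool × L)) (s : Bool) : Alt (rev r s).1 (rev r s).2 ↔ Alt r s := by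
  induction r with
  | nil => simp [rev]
  | cons y r ih =>
    have h1 : rev (y :: r) s = ((rev r s).1 ++ [((rev r s).2, y.2)], y.1) := rfl
    rw [h1]
    dsimp only
    rw [Alt_append, Alt_cons, ih]
    simp only [hd_nil, Alt_nil, and_true, rev_snd]
    tauto

end chains

theorem crL_rev_left {L : Type} [LinearOrder L] (a : L) (r : List (Bool × L)) (s : Bool) (b : L)
    (Q : List (Arc L)) : crL (arcs b (rev r s).1 (rev r s).2 a) Q = crL (arcs a r s b) Q := by
  rw [arcs_rev, crL_reverse_left, crL_swap_left]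

/-! ### Drawings: map, dual, flip -/

theorem X_dual {L : Type} [LinearOrder L] (A B : Arc L) :
    X (A.map OrderDual.toDual) (B.map OrderDual.toDual) = X A B := by
  unfold X Arc.map Ilv Btw Ots
  simp only [OrderDual.toDual_lt_toDual]
  congr 1
  simp only [eq_iff_iff]
  constructor <;> rintro ⟨h1, h2⟩ <;> refine ⟨h1, ?_⟩ <;> tauto

theorem crL_dual {L : Type} [LinearOrder L] (P Q : List (Arc L)) :
    crL (P.map (Arc.map OrderDual.toDual)) (Q.map (Arc.map OrderDual.toDual)) = crL P Q := by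
  simp only [crL, List.map_map, Function.comp_def, X_dual]

namespace Drawing

variable {V ι : Type} {N : Net V ι} {L L' : Type} [LinearOrder L] [LinearOrder L']

/-- Move a drawing by an injective map (crossings are only preserved for monotone maps). -/
def mapInj (D : Drawing N L) (φ : L → L') (hφ : Function.Injective φ) : Drawing N L' where
  pos := fun w => φ (D.pos w)
  inner := fun i => mapPts φ (D.inner i)
  last := D.last
  pos_inj := hφ.comp D.pos_inj
  nodup := fun i => by rw [map_snd_mapPts]; exact (D.nodup i).map hφ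
  disj := fun i j hij x hx y hy => by
    obtain ⟨x', hx', rfl⟩ := mem_mapPts.1 hx
    obtain ⟨y', hy', rfl⟩ := mem_mapPts.1 hy
    exact fun h => D.disj i j hij x' hx' y' hy' (hφ h)
  avoid := fun i x hx w => by
    obtain ⟨x', hx', rfl⟩ := mem_mapPts.1 hx
    exact fun h => D.avoid i x' hx' w (hφ h)

theorem path_mapInj (D : Drawing N L) (φ : L → L') (hφ : Function.Injective φ) (i : ι) :
    (D.mapInj φ hφ).path i = (D.path i).map (Arc.map φ) := arcs_mapPts φ _ _ _ _

/-- Move a drawing by a strictly monotone map. -/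
def map (D : Drawing N L) (φ : L → L') (hφ : StrictMono φ) : Drawing N L' :=
  D.mapInj φ hφ.injective

theorem path_map (D : Drawing N L) (φ : L → L') (hφ : StrictMono φ) (i : ι) :
    (D.map φ hφ).path i = (D.path i).map (Arc.map φ) := D.path_mapInj φ _ i

/-- The mirror image. -/
def dual (D : Drawing N L) : Drawing N Lᵒᵈ := D.mapInj OrderDual.toDual OrderDual.toDual.injective

theorem path_dual (D : Drawing N L) (i : ι) :
    D.dual.path i = (D.path i).map (Arc.map OrderDual.toDual) := D.path_mapInj _ _ i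

section fin

variable [Fintype ι] [DecidableEq ι]

theorem dcr_map (D : Drawing N L) (φ : L → L') (hφ : StrictMono φ) : (D.map φ hφ).dcr = D.dcr := by
  simp only [dcr, path_map, crL_map hφ]

theorem dcr_dual (D : Drawing N L) : D.dual.dcr = D.dcr := by
  simp only [dcr, path_dual, crL_dual]

omit [Fintype ι] [DecidableEq ι] in
theorem NF_map {D : Drawing N L} {u v : V} (φ : L → L') (hφ : StrictMono φ) :
    (D.map φ hφ).NF u v ↔ D.NF u v := by
  simp [NF, map, mapInj, hφ.lt_iff_lt]

omit [Fintype ι] [DecidableEq ι] in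
theorem rowsOf_map (D : Drawing N L) (u v : V) (φ : L → L') (hφ : StrictMono φ) (i : ι) :
    (D.map φ hφ).rowsOf u v i = D.rowsOf u v i := by
  simp only [rowsOf, map, mapInj, mapPts, List.countP_map, Function.comp_def, hφ.lt_iff_lt]

omit [DecidableEq ι] in
theorem rows_map (D : Drawing N L) (u v : V) (φ : L → L') (hφ : StrictMono φ) :
    (D.map φ hφ).rows u v = D.rows u v := by
  simp only [rows, rowsOf_map]

omit [DecidableEq ι] in
theorem size_map (D : Drawing N L) (φ : L → L') (hφ : StrictMono φ) :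
    (D.map φ hφ).size = D.size := by
  simp [size, map, mapInj]

omit [Fintype ι] [DecidableEq ι] in
/-- The mirror image exchanges the roles of `u` and `v`. -/
theorem NF_dual {D : Drawing N L} {u v : V} : D.dual.NF v u ↔ D.NF u v := by
  simp only [NF, dual, mapInj, OrderDual.toDual_lt_toDual]
  constructor <;> rintro ⟨h1, h2⟩ <;> exact ⟨h1, fun w hw => h2 w ⟨hw.2, hw.1⟩⟩

omit [Fintype ι] [DecidableEq ι] in
theorem rowsOf_dual (D : Drawing N L) (u v : V) (i : ι) :
    D.dual.rowsOf v u i = D.rowsOf u v i := by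
  simp only [rowsOf, dual, mapInj, mapPts, List.countP_map, Function.comp_def,
    OrderDual.toDual_lt_toDual]
  congr 1
  funext x
  simp only [decide_eq_decide]
  tauto

omit [DecidableEq ι] in
theorem rows_dual (D : Drawing N L) (u v : V) : D.dual.rows v u = D.rows u v := by
  simp only [rows, rowsOf_dual]

omit [DecidableEq ι] in
theorem size_dual (D : Drawing N L) : D.dual.size = D.size := by
  simp [size, dual, mapInj]

end fin

/-- Reverse the edges in `S`. -/
def flip (D : Drawing N L) (S : ι → Bool) : Drawing (N.flip S) L where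
  pos := D.pos
  inner := fun i => if S i then (rev (D.inner i) (D.last i)).1 else D.inner i
  last := fun i => if S i then (rev (D.inner i) (D.last i)).2 else D.last i
  pos_inj := D.pos_inj
  nodup := fun i => by
    split
    · rw [map_snd_rev, List.nodup_reverse]; exact D.nodup i
    · exact D.nodup i
  disj := fun i j hij x hx y hy => by
    have key : ∀ k : ι, ∀ z ∈ (if S k then (rev (D.inner k) (D.last k)).1 else D.inner k),
        ∃ z' ∈ D.inner k, z'.2 = z.2 := by
      intro k z hz
      split at hz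
      · have : z.2 ∈ (rev (D.inner k) (D.last k)).1.map Prod.snd := List.mem_map_of_mem hz
        rw [map_snd_rev, List.mem_reverse, List.mem_map] at this
        exact this
      · exact ⟨z, hz, rfl⟩
    obtain ⟨x', hx', hx''⟩ := key i x hx
    obtain ⟨y', hy', hy''⟩ := key j y hy
    rw [← hx'', ← hy'']
    exact D.disj i j hij x' hx' y' hy'
  avoid := fun i x hx w => by
    split at hx
    · have : x.2 ∈ (rev (D.inner i) (D.last i)).1.map Prod.snd := List.mem_map_of_mem hx
      rw [map_snd_rev, List.mem_reverse, List.mem_map] at this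
      obtain ⟨x', hx', hx''⟩ := this
      rw [← hx'']
      exact D.avoid i x' hx' w
    · exact D.avoid i x hx w

theorem flip_inner (D : Drawing N L) (S : ι → Bool) (i : ι) : (D.flip S).inner i =
    if S i then (rev (D.inner i) (D.last i)).1 else D.inner i := rfl

theorem flip_last (D : Drawing N L) (S : ι → Bool) (i : ι) : (D.flip S).last i =
    if S i then (rev (D.inner i) (D.last i)).2 else D.last i := rfl

theorem path_flip (D : Drawing N L) (S : ι → Bool) (i : ι) : (D.flip S).path i =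
    if S i then ((D.path i).map Arc.swap).reverse else D.path i := by
  unfold path flip Net.flip
  dsimp only
  split
  · exact arcs_rev _ _ _ _
  · rfl

theorem crL_path_flip (D : Drawing N L) (S : ι → Bool) (i : ι) (Q : List (Arc L)) :
    crL ((D.flip S).path i) Q = crL (D.path i) Q := by
  rw [path_flip]
  split
  · rw [crL_reverse_left, crL_swap_left]
  · rfl

theorem dcr_flip [Fintype ι] [DecidableEq ι] (D : Drawing N L) (S : ι → Bool) :
    (D.flip S).dcr = D.dcr := by
  unfold dcr
  refine Finset.sum_congr rfl fun i _ => Finset.sum_congr rfl fun j _ => ?_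
  split
  · rfl
  · rw [crL_path_flip, crL_comm, crL_path_flip, crL_comm]

theorem NF_flip {D : Drawing N L} {u v : V} (S : ι → Bool) : (D.flip S).NF u v ↔ D.NF u v :=
  Iff.rfl

theorem rowsOf_flip (D : Drawing N L) (S : ι → Bool) (u v : V) (i : ι) :
    (D.flip S).rowsOf u v i = D.rowsOf u v i := by
  unfold rowsOf
  rw [flip_inner]
  split
  · have h : ∀ r : List (Bool × L), r.countP (fun x => D.pos u < x.2 ∧ x.2 < D.pos v)
        = (r.map Prod.snd).countP (fun x => D.pos u < x ∧ x < D.pos v) := by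
      intro r; rw [List.countP_map]; rfl
    have e : ∀ w, (D.flip S).pos w = D.pos w := fun _ => rfl
    simp only [e]
    rw [h, h, map_snd_rev, List.countP_reverse]
  · rfl

theorem rows_flip [Fintype ι] (D : Drawing N L) (S : ι → Bool) (u v : V) :
    (D.flip S).rows u v = D.rows u v := by
  simp only [rows, rowsOf_flip]

theorem size_flip [Fintype ι] (D : Drawing N L) (S : ι → Bool) : (D.flip S).size = D.size := by
  unfold size
  refine Finset.sum_congr rfl fun i _ => ?_
  rw [flip_inner]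
  split
  · rw [length_rev]
  · rfl

end Drawing

theorem Net.flip_flip {V ι : Type} (N : Net V ι) (S : ι → Bool) : (N.flip S).flip S = N := by
  cases N
  simp only [Net.flip, Net.mk.injEq]
  constructor <;> funext i <;> by_cases h : S i <;> simp [h]

theorem Net.Simple.flip {V ι : Type} {N : Net V ι} (hN : N.Simple) (S : ι → Bool) :
    (N.flip S).Simple := by
  have key : ∀ i, s((N.flip S).src i, (N.flip S).tgt i) = s(N.src i, N.tgt i) := by
    intro i
    unfold Net.flip
    dsimp only
    split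
    · exact Sym2.eq_swap
    · rfl
  refine ⟨fun i => ?_, fun i j h => ?_⟩
  · intro h
    have h1 := key i
    rw [h] at h1
    have : N.src i = N.tgt i := by
      have h2 : (s(N.src i, N.tgt i) : Sym2 V).IsDiag := by rw [← h1]; exact rfl
      exact h2
    exact hN.loopless i this
  · rw [key, key] at h
    exact hN.inj i j h

namespace Drawing

theorem Good.flip {V ι : Type} [Fintype ι] [DecidableEq ι] {N : Net V ι} {L : Type}
    [LinearOrder L] {D : Drawing N L} {u v : V} (h : D.Good u v) (S : ι → Bool) :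
    (D.flip S).Good u v := by
  -- drawings of the flipped net and of the net correspond to each other
  have key : ∀ {L' : Type} [LinearOrder L'] (D' : Drawing (N.flip S) L'),
      ∃ D'' : Drawing N L', D''.dcr = D'.dcr ∧ (D''.NF u v ↔ D'.NF u v) ∧
        D''.rows u v = D'.rows u v ∧ D''.size = D'.size := by
    intro L' _ D'
    have e : (N.flip S).flip S = N := Net.flip_flip N S
    have h1 : ∀ (M : Net V ι), M = N → ∀ E : Drawing M L', ∃ D'' : Drawing N L',
        D''.dcr = E.dcr ∧ (D''.NF u v ↔ E.NF u v) ∧ D''.rows u v = E.rows u v ∧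
          D''.size = E.size := by
      rintro M rfl E
      exact ⟨E, rfl, Iff.rfl, rfl, rfl⟩
    obtain ⟨D'', a, b, c, d⟩ := h1 _ e (D'.flip S)
    exact ⟨D'', by rw [a, dcr_flip], by rw [b, NF_flip], by rw [c, rows_flip],
      by rw [d, size_flip]⟩
  refine ⟨h.nf, ?_, ?_, ?_⟩
  · intro L' _ D'
    obtain ⟨D'', a, -, -, -⟩ := key D'
    rw [dcr_flip, ← a]
    exact h.opt L' D''
  · intro L' _ D' h1 h2
    obtain ⟨D'', a, b, c, -⟩ := key D'
    rw [rows_flip, ← c]
    exact h.row_min L' D'' (b.2 h1) (by rw [a, ← dcr_flip D S]; exact h2)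
  · intro L' _ D' h1 h2 h3
    obtain ⟨D'', a, b, c, d⟩ := key D'
    rw [size_flip, ← d]
    exact h.pt_min L' D'' (b.2 h1) (by rw [a, ← dcr_flip D S]; exact h2)
      (by rw [c, ← rows_flip D S]; exact h3)

end Drawing

end MP60f107

end

section

/-!
Parallel curves: lists of arcs, the doubled spine `L ×ₗ ℤ`, arcs running parallel to an edge.
-/

set_option linter.unusedVariables false
set_option linter.unusedSectionVars false
set_option linter.unusedSimpArgs false

namespace MP60f107

namespace Par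

open Finset

/-! ### Lists of arcs -/

section lists

variable {L L' : Type}

theorem arcs_append (a : L) (r₁ : List (Bool × L)) (s : Bool) (x : L) (r₂ : List (Bool × L))
    (s' : Bool) (b : L) :
    arcs a (r₁ ++ (s, x) :: r₂) s' b = arcs a r₁ s x ++ arcs x r₂ s' b := by
  induction r₁ generalizing a with
  | nil => rfl
  | cons y r ih => obtain ⟨t, p⟩ := y; simp [arcs, ih]

theorem arcs_map (φ : L → L') (a : L) (r : List (Bool × L)) (s : Bool) (b : L) :
    (arcs a r s b).map (Arc.map φ) = arcs (φ a) (mapPts φ r) s (φ b) := by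
  induction r generalizing a with
  | nil => rfl
  | cons y r ih =>
    obtain ⟨t, p⟩ := y
    have := ih p
    simp only [mapPts] at this
    simp [arcs, mapPts, Arc.map, this]

theorem rev_pts (r : List (Bool × L)) (s : Bool) :
    (rev r s).1.map Prod.snd = (r.map Prod.snd).reverse := by
  induction r generalizing s with
  | nil => rfl
  | cons y r ih => obtain ⟨t, p⟩ := y; simp [rev, ih]

theorem arcs_rev (a : L) (r : List (Bool × L)) (s : Bool) (b : L) :
    arcs b (rev r s).1 (rev r s).2 a = ((arcs a r s b).map Arc.swap).reverse := by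
  induction r generalizing a with
  | nil => rfl
  | cons y r ih =>
    obtain ⟨t, p⟩ := y
    have := ih p
    simp only [rev, arcs_append, arcs, List.map_cons, List.reverse_cons, this]
    rfl

/-- First page. -/
def hd : List (Bool × L) → Bool → Bool
  | [], s => s
  | (t, _) :: _, _ => t

theorem alt_cons (t : Bool) (p : L) (r : List (Bool × L)) (s : Bool) :
    Alt ((t, p) :: r) s ↔ t ≠ hd r s ∧ Alt r s := by
  cases r with
  | nil => simp [Alt, hd]
  | cons y r => obtain ⟨t', p'⟩ := y; simp [Alt, hd]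

theorem alt_append (r₁ : List (Bool × L)) (t : Bool) (p : L) (r₂ : List (Bool × L)) (s : Bool) :
    Alt (r₁ ++ (t, p) :: r₂) s ↔ Alt r₁ t ∧ t ≠ hd r₂ s ∧ Alt r₂ s := by
  induction r₁ with
  | nil => simp [alt_cons, Alt]
  | cons y r ih =>
    obtain ⟨t', p'⟩ := y
    have : hd (r ++ (t, p) :: r₂) s = hd r t := by
      cases r with
      | nil => rfl
      | cons z r => rfl
    simp only [List.cons_append, alt_cons, ih, this]
    tauto

theorem hd_rev (r : List (Bool × L)) (s : Bool) : hd (rev r s).1 (rev r s).2 = s := by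
  induction r with
  | nil => rfl
  | cons y r ih =>
    obtain ⟨t, p⟩ := y
    simp only [rev]
    cases h : (rev r s).1 with
    | nil =>
      rw [h] at ih
      simpa [hd] using ih
    | cons z l =>
      rw [h] at ih
      obtain ⟨z1, z2⟩ := z
      simpa [hd] using ih

theorem rev_snd (r : List (Bool × L)) (s : Bool) : (rev r s).2 = hd r s := by
  cases r with
  | nil => rfl
  | cons y r => rfl

theorem alt_rev (r : List (Bool × L)) (s : Bool) (h : Alt r s) :
    Alt (rev r s).1 (rev r s).2 := by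
  induction r with
  | nil => trivial
  | cons y r ih =>
    obtain ⟨t, p⟩ := y
    rw [alt_cons] at h
    have h2 := ih h.2
    simp only [rev]
    rw [alt_append]
    refine ⟨h2, ?_, trivial⟩
    rw [rev_snd]
    exact fun e => h.1 e.symm

theorem alt_map (φ : L → L') (r : List (Bool × L)) (s : Bool) : Alt (mapPts φ r) s ↔ Alt r s := by
  induction r with
  | nil => simp [mapPts, Alt]
  | cons y r ih =>
    obtain ⟨t, p⟩ := y
    have h1 : mapPts φ ((t, p) :: r) = (t, φ p) :: mapPts φ r := rfl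
    have h2 : hd (mapPts φ r) s = hd r s := by
      cases r with
      | nil => rfl
      | cons z r => rfl
    rw [h1, alt_cons, alt_cons, ih, h2]

/-- All arcs of a chain but the last one. -/
def ini : L → List (Bool × L) → List (Arc L)
  | _, [] => []
  | a, (t, p) :: r => ⟨a, p, t⟩ :: ini p r

/-- The last point of a chain. -/
def lst : L → List (Bool × L) → L
  | a, [] => a
  | _, (_, p) :: r => lst p r

theorem arcs_eq (a : L) (r : List (Bool × L)) (s : Bool) (b : L) :
    arcs a r s b = ini a r ++ [⟨lst a r, b, s⟩] := by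
  induction r generalizing a with
  | nil => rfl
  | cons y r ih => obtain ⟨t, p⟩ := y; simp [arcs, ini, lst, ih]

theorem ini_append (a : L) (r : List (Bool × L)) (s : Bool) (b : L) :
    ini a (r ++ [(s, b)]) = arcs a r s b := by
  induction r generalizing a with
  | nil => rfl
  | cons y r ih => obtain ⟨t, p⟩ := y; simp [arcs, ini, ih]

theorem lst_append (a : L) (r : List (Bool × L)) (s : Bool) (b : L) :
    lst a (r ++ [(s, b)]) = b := by
  induction r generalizing a with
  | nil => rfl
  | cons y r ih => obtain ⟨t, p⟩ := y; simp [lst, ih]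

/-- End points of arcs of a chain. -/
theorem mem_arcs_avoid {x a : L} {r : List (Bool × L)} {s : Bool} {b : L} (ha : a ≠ x)
    (hr : ∀ y ∈ r, y.2 ≠ x) (hb : b ≠ x) : ∀ A ∈ arcs a r s b, A.p ≠ x ∧ A.q ≠ x := by
  induction r generalizing a with
  | nil =>
    intro A hA
    simp only [arcs, List.mem_singleton] at hA
    subst hA
    exact ⟨ha, hb⟩
  | cons y r ih =>
    obtain ⟨t, p⟩ := y
    intro A hA
    simp only [arcs, List.mem_cons] at hA
    have hp : p ≠ x := hr (t, p) (by simp)
    rcases hA with rfl | hA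
    · exact ⟨ha, hp⟩
    · exact ih hp (fun y hy => hr y (by simp [hy])) A hA

theorem mem_arcs_start {a : L} {r : List (Bool × L)} {s : Bool} {b : L}
    (hr : ∀ y ∈ r, y.2 ≠ a) (hb : b ≠ a) :
    ∀ A ∈ arcs a r s b, (A.p = a → A.up = hd r s) ∧ A.q ≠ a := by
  cases r with
  | nil =>
    intro A hA
    simp only [arcs, List.mem_singleton] at hA
    subst hA
    exact ⟨fun _ => rfl, hb⟩
  | cons y r =>
    obtain ⟨t, p⟩ := y
    intro A hA
    simp only [arcs, List.mem_cons] at hA
    have hp : p ≠ a := hr (t, p) (by simp)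
    rcases hA with rfl | hA
    · exact ⟨fun _ => rfl, hp⟩
    · have := mem_arcs_avoid hp (fun y hy => hr y (by simp [hy])) hb A hA
      exact ⟨fun h => absurd h this.1, this.2⟩

/-- The arcs of a chain: equal, in different pages, or with disjoint ends. -/
theorem own_pair {a : L} {r : List (Bool × L)} {s : Bool} {b : L} (halt : Alt r s)
    (hnd : (r.map Prod.snd).Nodup) (ha : ∀ y ∈ r, y.2 ≠ a) (hb : ∀ y ∈ r, y.2 ≠ b) (hab : b ≠ a) :
    ∀ A ∈ arcs a r s b, ∀ B ∈ arcs a r s b, A = B ∨ A.up ≠ B.up ∨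
      (A.p ≠ B.p ∧ A.p ≠ B.q ∧ A.q ≠ B.p ∧ A.q ≠ B.q) := by
  induction r generalizing a with
  | nil =>
    intro A hA B hB
    simp only [arcs, List.mem_singleton] at hA hB
    exact Or.inl (hA.trans hB.symm)
  | cons y r ih =>
    obtain ⟨t, p⟩ := y
    have hpa : p ≠ a := ha (t, p) (by simp)
    have hpb : p ≠ b := hb (t, p) (by simp)
    rw [alt_cons] at halt
    simp only [List.map_cons, List.nodup_cons] at hnd
    have hpr : ∀ y ∈ r, y.2 ≠ p := by
      intro y hy he
      exact hnd.1 (List.mem_map.2 ⟨y, hy, he⟩)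
    have ha' : ∀ y ∈ r, y.2 ≠ a := fun y hy => ha y (by simp [hy])
    have hb' : ∀ y ∈ r, y.2 ≠ b := fun y hy => hb y (by simp [hy])
    have key : ∀ B ∈ arcs p r s b, t ≠ B.up ∨ (a ≠ B.p ∧ a ≠ B.q ∧ p ≠ B.p ∧ p ≠ B.q) := by
      intro B hB
      have h1 := mem_arcs_avoid hpa ha' hab B hB
      have h2 := mem_arcs_start hpr hpb.symm B hB
      by_cases h3 : B.p = p
      · left
        rw [h2.1 h3]
        exact halt.1
      · right
        exact ⟨h1.1.symm, h1.2.symm, fun e => h3 e.symm, h2.2.symm⟩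
    intro A hA B hB
    simp only [arcs, List.mem_cons] at hA hB
    rcases hA with rfl | hA <;> rcases hB with rfl | hB
    · exact Or.inl rfl
    · right
      exact key B hB
    · right
      rcases key A hA with h | h
      · exact Or.inl h.symm
      · exact Or.inr ⟨h.1.symm, h.2.2.1.symm, h.2.1.symm, h.2.2.2.symm⟩
    · exact ih halt.2 hnd.2 hpr hb' hpb.symm A hA B hB

theorem countP_end {a : L} {r : List (Bool × L)} {s : Bool} {b : L} [DecidableEq L] {w : L}
    (hr : ∀ y ∈ r, y.2 ≠ w) :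
    ((arcs a r s b).map fun B => if B.p = w ∨ B.q = w then 1 else 0).sum
      ≤ (if a = w then 1 else 0) + (if b = w then 1 else 0) := by
  induction r generalizing a with
  | nil =>
    simp only [arcs, List.map_cons, List.map_nil, List.sum_cons, List.sum_nil]
    split_ifs <;> simp_all
  | cons y r ih =>
    obtain ⟨t, p⟩ := y
    have hp : p ≠ w := hr (t, p) (by simp)
    have := ih (a := p) (fun y hy => hr y (by simp [hy]))
    simp only [hp, if_false, zero_add] at this
    simp only [arcs, List.map_cons, List.sum_cons, hp, or_false]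
    omega

end lists

/-! ### Crossings of lists -/

section crl

variable {L L' : Type} [LinearOrder L] [LinearOrder L']

theorem crL_nil_left (Q : List (Arc L)) : crL [] Q = 0 := rfl

theorem crL_cons_left (A : Arc L) (P Q : List (Arc L)) :
    crL (A :: P) Q = (Q.map fun B => X A B).sum + crL P Q := rfl

theorem crL_single (A : Arc L) (Q : List (Arc L)) : crL [A] Q = (Q.map fun B => X A B).sum := by
  simp [crL]

theorem crL_append_left (P P' Q : List (Arc L)) : crL (P ++ P') Q = crL P Q + crL P' Q := by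
  simp [crL]

theorem crL_append_right (P Q Q' : List (Arc L)) : crL P (Q ++ Q') = crL P Q + crL P Q' := by
  induction P with
  | nil => rfl
  | cons A P ih => rw [crL_cons_left, crL_cons_left, crL_cons_left, ih]; simp; omega

theorem crL_nil_right (P : List (Arc L)) : crL P [] = 0 := by
  induction P with
  | nil => rfl
  | cons A P ih => rw [crL_cons_left, ih]; simp

theorem X_swap_left (A B : Arc L) : X A.swap B = X A B := by
  unfold X Ilv Btw Ots Arc.swap
  grind

theorem X_comm (A B : Arc L) : X A B = X B A := by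
  unfold X Ilv Btw Ots
  grind

theorem crL_comm (P Q : List (Arc L)) : crL P Q = crL Q P := by
  induction P with
  | nil => rw [crL_nil_right]; rfl
  | cons A P ih =>
    have h1 : crL Q (A :: P) = crL Q [A] + crL Q P := crL_append_right Q [A] P
    rw [crL_cons_left, ih, h1]
    congr 1
    clear ih h1
    induction Q with
    | nil => rfl
    | cons B Q ih =>
      rw [crL_cons_left, List.map_cons, List.sum_cons, ih, X_comm A B]
      simp

theorem crL_swap_left (P Q : List (Arc L)) : crL (P.map Arc.swap) Q = crL P Q := by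
  induction P with
  | nil => rfl
  | cons A P ih => rw [List.map_cons, crL_cons_left, crL_cons_left, ih]; simp only [X_swap_left]

theorem crL_reverse_left (P Q : List (Arc L)) : crL P.reverse Q = crL P Q := by
  induction P with
  | nil => rfl
  | cons A P ih =>
    rw [List.reverse_cons, crL_append_left, ih, crL_single, crL_cons_left A P Q]
    omega

theorem crL_rev (a : L) (r : List (Bool × L)) (s : Bool) (b : L) (Q : List (Arc L)) :
    crL (arcs b (rev r s).1 (rev r s).2 a) Q = crL (arcs a r s b) Q := by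
  rw [arcs_rev, crL_reverse_left, crL_swap_left]

theorem crL_eq_zero {P Q : List (Arc L)} (h : crL P Q = 0) : ∀ A ∈ P, ∀ B ∈ Q, X A B = 0 := by
  intro A hA B hB
  unfold crL at h
  rw [List.sum_eq_zero_iff] at h
  have h1 := h _ (List.mem_map.2 ⟨A, hA, rfl⟩)
  rw [List.sum_eq_zero_iff] at h1
  exact h1 _ (List.mem_map.2 ⟨B, hB, rfl⟩)

theorem Ilv_map {φ : L → L'} (hφ : StrictMono φ) (a b c d : L) :
    Ilv (φ a) (φ b) (φ c) (φ d) ↔ Ilv a b c d := by
  unfold Ilv Btw Ots
  simp only [hφ.lt_iff_lt]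

theorem X_map {φ : L → L'} (hφ : StrictMono φ) (A B : Arc L) : X (A.map φ) (B.map φ) = X A B := by
  unfold X
  exact if_congr (and_congr Iff.rfl (Ilv_map hφ _ _ _ _)) rfl rfl

theorem crL_map {φ : L → L'} (hφ : StrictMono φ) (P Q : List (Arc L)) :
    crL (P.map (Arc.map φ)) (Q.map (Arc.map φ)) = crL P Q := by
  unfold crL
  simp only [List.map_map]
  congr 1
  refine List.map_congr_left fun A hA => ?_
  simp only [Function.comp]
  congr 1
  refine List.map_congr_left fun B hB => ?_
  exact X_map hφ A B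

/-- A spine arc and an alternating chain with no end inside. -/
theorem spine_arc {α β : L} {s : Bool} {a : L} {r : List (Bool × L)} {s' : Bool} {b : L}
    (halt : Alt r s') (hb : ¬ Btw α β b) :
    crL [⟨α, β, s⟩] (arcs a r s' b) ≤
      r.countP (fun x => Btw α β x.2) + (if Btw α β a ∧ hd r s' = s then 1 else 0) := by
  induction r generalizing a with
  | nil =>
    simp only [arcs, crL_single, List.map_cons, List.map_nil, List.sum_cons, List.sum_nil,
      List.countP_nil, hd, X, Ilv]
    grind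
  | cons y r ih =>
    obtain ⟨t, p⟩ := y
    rw [alt_cons] at halt
    have h1 := ih (a := p) halt.2
    have h2 : crL [⟨α, β, s⟩] (arcs a ((t, p) :: r) s' b)
        = X ⟨α, β, s⟩ ⟨a, p, t⟩ + crL [⟨α, β, s⟩] (arcs p r s' b) := by
      simp [crL_single, arcs]
    have h3 : X ⟨α, β, s⟩ ⟨a, p, t⟩ ≤ (if Btw α β a ∧ t = s then 1 else 0)
        + (if Btw α β p ∧ t = s then 1 else 0) := by
      simp only [X, Ilv]
      grind
    have h4 : (if Btw α β p ∧ t = s then 1 else 0) + (if Btw α β p ∧ hd r s' = s then 1 else 0)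
        ≤ (if Btw α β p then 1 else 0) := by
      have := halt.1
      grind
    have h5 : List.countP (fun x => decide (Btw α β x.2)) ((t, p) :: r)
        = List.countP (fun x => decide (Btw α β x.2)) r + (if Btw α β p then 1 else 0) := by
      rw [List.countP_cons]
      simp
    have h6 : hd ((t, p) :: r) s' = t := rfl
    rw [h2, h5, h6]
    omega

end crl

/-! ### The doubled spine -/

section dbl

variable {L : Type} [LinearOrder L]

/-- A point of the doubled spine. -/
def pt (x : L) (k : ℤ) : L ×ₗ ℤ := toLex (x, k)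

theorem pt_lt {x y : L} {k l : ℤ} : pt x k < pt y l ↔ x < y ∨ (x = y ∧ k < l) := by
  unfold pt
  rw [Prod.Lex.toLex_lt_toLex]

theorem pt_inj {x y : L} {k l : ℤ} : pt x k = pt y l ↔ x = y ∧ k = l := by
  unfold pt
  simp

theorem pt_mono : StrictMono (fun x : L => pt x 0) := by
  intro x y h
  exact pt_lt.2 (Or.inl h)

/-- The shift of a point reached in page `t`. -/
def sg (side t : Bool) : ℤ := if t = side then 1 else -1

theorem sg_cases (side t : Bool) : sg side t = 1 ∨ sg side t = -1 := by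
  unfold sg
  split_ifs <;> simp

theorem sg_ne {side t t' : Bool} (h : t ≠ t') : sg side t = -sg side t' := by
  unfold sg
  cases side <;> cases t <;> cases t' <;> simp at h ⊢

/-- The shifted chain. -/
def sh (side : Bool) (r : List (Bool × L)) : List (Bool × (L ×ₗ ℤ)) :=
  r.map fun x => (x.1, pt x.2 (sg side x.1))

/-- The shifted arc. -/
def lift (side : Bool) (A : Arc L) : Arc (L ×ₗ ℤ) :=
  ⟨pt A.p (-(sg side A.up)), pt A.q (sg side A.up), A.up⟩

theorem sh_append (side : Bool) (r r' : List (Bool × L)) :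
    sh side (r ++ r') = sh side r ++ sh side r' := by
  simp [sh]

theorem ini_sh_aux (side : Bool) (a : L) (r : List (Bool × L)) (s : Bool) (halt : Alt r s) :
    ini (pt a (-(sg side (hd r s)))) (sh side r) = (ini a r).map (lift side) ∧
      lst (pt a (-(sg side (hd r s)))) (sh side r) = pt (lst a r) (-(sg side s)) := by
  induction r generalizing a with
  | nil => exact ⟨rfl, rfl⟩
  | cons y r ih =>
    obtain ⟨t, p⟩ := y
    rw [alt_cons] at halt
    have h := ih p halt.2
    rw [← sg_ne halt.1] at h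
    refine ⟨?_, h.2⟩
    have h1 : ini (pt a (-(sg side (hd ((t, p) :: r) s)))) (sh side ((t, p) :: r))
        = ⟨pt a (-(sg side t)), pt p (sg side t), t⟩ :: ini (pt p (sg side t)) (sh side r) := rfl
    rw [h1, h.1]
    rfl

theorem ini_sh (side : Bool) (α : L ×ₗ ℤ) (t : Bool) (p : L) (r : List (Bool × L)) (s : Bool)
    (halt : Alt ((t, p) :: r) s) :
    ini α (sh side ((t, p) :: r)) = ⟨α, pt p (sg side t), t⟩ :: (ini p r).map (lift side) := by
  rw [alt_cons] at halt
  have h := ini_sh_aux side p r s halt.2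
  rw [← sg_ne halt.1] at h
  rw [← h.1]
  rfl

theorem lst_sh (side : Bool) (α : L ×ₗ ℤ) (t : Bool) (p : L) (r : List (Bool × L)) (s : Bool)
    (halt : Alt ((t, p) :: r) s) :
    lst α (sh side ((t, p) :: r)) = pt (lst p r) (-(sg side s)) := by
  rw [alt_cons] at halt
  have h := ini_sh_aux side p r s halt.2
  rw [← sg_ne halt.1] at h
  rw [← h.2]
  rfl

/-- Parallel arcs cross nothing new. -/
theorem X_par {p q b c : L} {k l : ℤ} {s t : Bool} (h1 : p = b → k = 0) (h2 : p = c → k = 0)
    (h3 : q = b → l = 0) (h4 : q = c → l = 0) :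
    X ⟨pt p k, pt q l, s⟩ ⟨pt b 0, pt c 0, t⟩ ≤ X ⟨p, q, s⟩ ⟨b, c, t⟩ := by
  unfold X Ilv Btw Ots
  simp only [pt_lt]
  grind

theorem X_nest {p q : L} {k l : ℤ} {s t : Bool} (h : k = 0 ∨ l = 0 ∨ l = -k) :
    X ⟨pt p k, pt q l, s⟩ ⟨pt p 0, pt q 0, t⟩ = 0 := by
  unfold X Ilv Btw Ots
  simp only [pt_lt]
  grind

theorem X_nest' {p q : L} {k l : ℤ} {s t : Bool} (h : k = 0 ∨ l = 0 ∨ l = -k) :
    X ⟨pt p k, pt q l, s⟩ ⟨pt q 0, pt p 0, t⟩ = 0 := by
  unfold X Ilv Btw Ots
  simp only [pt_lt]
  grind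

end dbl

/-! ### Crossings of a curve with a drawing -/

section total

variable {V ι : Type} {N : Net V ι} {L : Type} [LinearOrder L] [Fintype ι] [DecidableEq ι]

/-- The crossings of a list of arcs of the doubled spine with the drawing. -/
def T (D : Drawing N L) (P : List (Arc (L ×ₗ ℤ))) : ℕ :=
  ∑ i, crL P ((D.path i).map (Arc.map fun x => pt x 0))

/-- The crossings of a list of arcs with the edges other than `e`. -/
def C (D : Drawing N L) (e : ι) (P : List (Arc L)) : ℕ :=
  ∑ j, if j = e then 0 else crL P (D.path j)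

theorem T_append (D : Drawing N L) (P Q : List (Arc (L ×ₗ ℤ))) : T D (P ++ Q) = T D P + T D Q := by
  simp only [T, crL_append_left, sum_add_distrib]

theorem T_cons (D : Drawing N L) (A : Arc (L ×ₗ ℤ)) (Q : List (Arc (L ×ₗ ℤ))) :
    T D (A :: Q) = T D [A] + T D Q := T_append D [A] Q

theorem T_nil (D : Drawing N L) : T D [] = 0 := by
  simp [T, crL_nil_left]

theorem C_append (D : Drawing N L) (e : ι) (P Q : List (Arc L)) :
    C D e (P ++ Q) = C D e P + C D e Q := by
  simp only [C, crL_append_left, ← sum_add_distrib]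
  refine sum_congr rfl fun i _ => ?_
  split_ifs <;> simp

theorem C_cons (D : Drawing N L) (e : ι) (A : Arc L) (Q : List (Arc L)) :
    C D e (A :: Q) = C D e [A] + C D e Q := C_append D e [A] Q

theorem C_nil (D : Drawing N L) (e : ι) : C D e [] = 0 := by
  simp [C, crL_nil_left]

theorem C_rev (D : Drawing N L) (e : ι) (a : L) (r : List (Bool × L)) (s : Bool) (b : L) :
    C D e (arcs b (rev r s).1 (rev r s).2 a) = C D e (arcs a r s b) := by
  simp only [C, crL_rev]

theorem crL_single_map_le {A' : Arc (L ×ₗ ℤ)} {A : Arc L} {Q : List (Arc L)}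
    (h : ∀ B ∈ Q, X A' (B.map fun x => pt x 0) ≤ X A B) :
    crL [A'] (Q.map (Arc.map fun x => pt x 0)) ≤ crL [A] Q := by
  rw [crL_single, crL_single, List.map_map]
  exact List.sum_le_sum h

/-- The relation between an arc of `e` and its parallel copy. -/
def Copy (D : Drawing N L) (e : ι) (A' : Arc (L ×ₗ ℤ)) (A : Arc L) : Prop :=
  (A ∈ D.path e ∨ A.swap ∈ D.path e) ∧ ∃ k l : ℤ, A' = ⟨pt A.p k, pt A.q l, A.up⟩ ∧
    (k = 0 ∨ l = 0 ∨ l = -k) ∧ (k ≠ 0 → ∃ x ∈ D.inner e, x.2 = A.p) ∧
    (l ≠ 0 → ∃ x ∈ D.inner e, x.2 = A.q)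

theorem path_pair {D : Drawing N L} {e : ι} (hst : N.src e ≠ N.tgt e)
    (halt : Alt (D.inner e) (D.last e)) : ∀ A ∈ D.path e, ∀ B ∈ D.path e, A = B ∨ A.up ≠ B.up ∨
      (A.p ≠ B.p ∧ A.p ≠ B.q ∧ A.q ≠ B.p ∧ A.q ≠ B.q) :=
  own_pair halt (D.nodup e) (fun y hy => D.avoid e y hy _) (fun y hy => D.avoid e y hy _)
    (fun h => hst (D.pos_inj h).symm)

theorem mem_arcs_ends {L : Type} (a : L) (r : List (Bool × L)) (s : Bool) (b : L) :
    ∀ A ∈ arcs a r s b,
      (A.p = a ∨ ∃ x ∈ r, A.p = x.2) ∧ (A.q = b ∨ ∃ x ∈ r, A.q = x.2) := by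
  induction r generalizing a with
  | nil =>
    intro A hA
    simp only [arcs, List.mem_singleton] at hA
    subst hA
    exact ⟨Or.inl rfl, Or.inl rfl⟩
  | cons y r ih =>
    obtain ⟨t, p⟩ := y
    intro A hA
    simp only [arcs, List.mem_cons] at hA
    rcases hA with rfl | hA
    · exact ⟨Or.inl rfl, Or.inr ⟨(t, p), by simp, rfl⟩⟩
    · obtain ⟨h1, h2⟩ := ih p A hA
      constructor
      · rcases h1 with h1 | ⟨x, hx, h1⟩
        · exact Or.inr ⟨(t, p), by simp, h1⟩
        · exact Or.inr ⟨x, by simp [hx], h1⟩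
      · rcases h2 with h2 | ⟨x, hx, h2⟩
        · exact Or.inl h2
        · exact Or.inr ⟨x, by simp [hx], h2⟩

theorem mem_ini_ends {L : Type} (a : L) (r : List (Bool × L)) :
    ∀ A ∈ ini a r, (A.p = a ∨ ∃ x ∈ r, A.p = x.2) ∧ (∃ x ∈ r, A.q = x.2) := by
  induction r generalizing a with
  | nil =>
    intro A hA
    simp [ini] at hA
  | cons y r ih =>
    obtain ⟨t, p⟩ := y
    intro A hA
    simp only [ini, List.mem_cons] at hA
    rcases hA with rfl | hA
    · exact ⟨Or.inl rfl, ⟨(t, p), by simp, rfl⟩⟩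
    · obtain ⟨h1, x, hx, h2⟩ := ih p A hA
      refine ⟨?_, x, by simp [hx], h2⟩
      rcases h1 with h1 | ⟨x, hx, h1⟩
      · exact Or.inr ⟨(t, p), by simp, h1⟩
      · exact Or.inr ⟨x, by simp [hx], h1⟩

theorem path_ends {D : Drawing N L} {e : ι} : ∀ A ∈ D.path e,
    ((∃ w, A.p = D.pos w) ∨ ∃ x ∈ D.inner e, A.p = x.2) ∧
    ((∃ w, A.q = D.pos w) ∨ ∃ x ∈ D.inner e, A.q = x.2) := by
  intro A hA
  obtain ⟨h1, h2⟩ := mem_arcs_ends _ _ _ _ A hA
  exact ⟨h1.imp (fun h => ⟨_, h⟩) id, h2.imp (fun h => ⟨_, h⟩) id⟩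

/-- An inner point of `e` is not an end of an arc of another edge. -/
theorem inner_ne_end {D : Drawing N L} {e j : ι} (hj : j ≠ e) {x : Bool × L} (hx : x ∈ D.inner e) :
    ∀ B ∈ D.path j, x.2 ≠ B.p ∧ x.2 ≠ B.q := by
  intro B hB
  obtain ⟨h1, h2⟩ := path_ends B hB
  constructor
  · rcases h1 with ⟨w, h1⟩ | ⟨y, hy, h1⟩
    · rw [h1]
      exact D.avoid e x hx w
    · rw [h1]
      exact D.disj e j hj.symm x hx y hy
  · rcases h2 with ⟨w, h2⟩ | ⟨y, hy, h2⟩
    · rw [h2]
      exact D.avoid e x hx w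
    · rw [h2]
      exact D.disj e j hj.symm x hx y hy

theorem copy_other {D : Drawing N L} {e j : ι} (hj : j ≠ e) {A' : Arc (L ×ₗ ℤ)} {A : Arc L}
    (h : Copy D e A' A) : ∀ B ∈ D.path j, X A' (B.map fun x => pt x 0) ≤ X A B := by
  intro B hB
  obtain ⟨-, k, l, rfl, -, hk, hl⟩ := h
  have h1 : ∀ z, (∃ x ∈ D.inner e, x.2 = z) → z ≠ B.p ∧ z ≠ B.q := by
    rintro z ⟨x, hx, rfl⟩
    exact inner_ne_end hj hx B hB
  refine X_par (fun h => ?_) (fun h => ?_) (fun h => ?_) (fun h => ?_)
  · by_contra h0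
    exact (h1 _ (hk h0)).1 h
  · by_contra h0
    exact (h1 _ (hk h0)).2 h
  · by_contra h0
    exact (h1 _ (hl h0)).1 h
  · by_contra h0
    exact (h1 _ (hl h0)).2 h

theorem copy_own {D : Drawing N L} {e : ι} (hst : N.src e ≠ N.tgt e)
    (halt : Alt (D.inner e) (D.last e)) (hcr : crL (D.path e) (D.path e) = 0)
    {A' : Arc (L ×ₗ ℤ)} {A : Arc L}
    (h : Copy D e A' A) : ∀ B ∈ D.path e, X A' (B.map fun x => pt x 0) = 0 := by
  intro B hB
  obtain ⟨hA, k, l, rfl, hkl, -, -⟩ := h
  have h0 : X A B = 0 := by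
    rcases hA with hA | hA
    · exact crL_eq_zero hcr A hA B hB
    · rw [← X_swap_left]
      exact crL_eq_zero hcr _ hA B hB
  have h1 : (A = B ∨ A.swap = B) ∨ A.up ≠ B.up ∨
      (A.p ≠ B.p ∧ A.p ≠ B.q ∧ A.q ≠ B.p ∧ A.q ≠ B.q) := by
    rcases hA with hA | hA
    · rcases path_pair hst halt A hA B hB with h | h | h
      · exact Or.inl (Or.inl h)
      · exact Or.inr (Or.inl h)
      · exact Or.inr (Or.inr h)
    · rcases path_pair hst halt _ hA B hB with h | h | h
      · exact Or.inl (Or.inr h)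
      · exact Or.inr (Or.inl h)
      · exact Or.inr (Or.inr ⟨h.2.2.1, h.2.2.2, h.1, h.2.1⟩)
  rcases h1 with (h1 | h1) | h1 | h1
  · subst h1
    exact X_nest hkl
  · subst h1
    exact X_nest' hkl
  · unfold X
    rw [if_neg]
    exact fun h => h1 h.1
  · refine Nat.le_zero.1 (h0 ▸ ?_)
    exact X_par (fun h => absurd h h1.1) (fun h => absurd h h1.2.1) (fun h => absurd h h1.2.2.1)
      (fun h => absurd h h1.2.2.2)

/-- A parallel curve crosses at most what the edge crosses. -/
theorem T_copy {D : Drawing N L} {e : ι} (hst : N.src e ≠ N.tgt e)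
    (halt : Alt (D.inner e) (D.last e)) (hcr : crL (D.path e) (D.path e) = 0)
    {P' : List (Arc (L ×ₗ ℤ))} {P : List (Arc L)} (h : List.Forall₂ (Copy D e) P' P) :
    T D P' ≤ C D e P := by
  induction h with
  | nil => rw [T_nil, C_nil]
  | cons hA _ ih =>
    rename_i A' A P' P
    rw [T_cons, C_cons]
    refine add_le_add ?_ ih
    unfold T C
    refine sum_le_sum fun j _ => ?_
    split_ifs with hj
    · subst hj
      rw [crL_single, List.map_map]
      refine le_of_eq (List.sum_eq_zero ?_)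
      intro x hx
      obtain ⟨B, hB, rfl⟩ := List.mem_map.1 hx
      exact copy_own hst halt hcr hA B hB
    · exact crL_single_map_le (copy_other hj hA)

/-- The parallel copy of a part of `e` between two inner points. -/
theorem copy_lift {D : Drawing N L} {e : ι} (side : Bool) {p : L} {r : List (Bool × L)}
    (hp : ∃ x ∈ D.inner e, x.2 = p) (hr : ∀ y ∈ r, ∃ x ∈ D.inner e, x.2 = y.2)
    (hm : ∀ A ∈ ini p r, A ∈ D.path e ∨ A.swap ∈ D.path e) :
    List.Forall₂ (Copy D e) ((ini p r).map (lift side)) (ini p r) := by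
  rw [List.forall₂_map_left_iff, List.forall₂_same]
  intro A hA
  obtain ⟨h1, y, hy, h2⟩ := mem_ini_ends p r A hA
  refine ⟨hm A hA, _, _, rfl, Or.inr (Or.inr (by ring)), fun _ => ?_, fun _ => ?_⟩
  · rcases h1 with h1 | ⟨z, hz, h1⟩
    · rw [h1]
      exact hp
    · rw [h1]
      exact hr z hz
  · rw [h2]
    exact hr y hy

/-- The parallel copy of a part of `e` that starts at an end of `e`. -/
theorem copy_start {D : Drawing N L} {e : ι} (side : Bool) {a : L} {r : List (Bool × L)} {s : Bool}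
    (halt : Alt r s) (hr : ∀ y ∈ r, ∃ x ∈ D.inner e, x.2 = y.2)
    (hm : ∀ A ∈ ini a r, A ∈ D.path e ∨ A.swap ∈ D.path e) :
    List.Forall₂ (Copy D e) (ini (pt a 0) (sh side r)) (ini a r) := by
  cases r with
  | nil => exact List.Forall₂.nil
  | cons y r =>
    obtain ⟨t, p⟩ := y
    rw [ini_sh side (pt a 0) t p r s halt]
    have hp : ∃ x ∈ D.inner e, x.2 = p := hr (t, p) (by simp)
    refine List.Forall₂.cons ?_ (copy_lift side hp (fun y hy => hr y (by simp [hy]))
      (fun A hA => hm A (by simp [ini, hA])))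
    exact ⟨hm _ (by simp [ini]), 0, sg side t, rfl, Or.inl rfl, fun h => absurd rfl h,
      fun _ => hp⟩

theorem countP_map_le {α : Type} {p q : α → Prop} [DecidablePred p] [DecidablePred q]
    {l : List α} (h : ∀ x ∈ l, p x → q x) :
    l.countP (fun x => p x) ≤ l.countP (fun x => q x) :=
  List.countP_mono_left (fun x hx h' => by simpa using h x hx (by simpa using h'))

/-- The crossings of an arc near the spine. -/
theorem T_spine (D : Drawing N L) (halt : ∀ i, Alt (D.inner i) (D.last i)) {α β : L ×ₗ ℤ}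
    {s : Bool} (hw : ∀ w, ¬ Btw α β (pt (D.pos w) 0)) (p : L → Prop) [DecidablePred p]
    (hp : ∀ x, Btw α β (pt x 0) → p x) :
    T D [⟨α, β, s⟩] ≤ ∑ i, (D.inner i).countP (fun x => p x.2) := by
  unfold T
  refine sum_le_sum fun i _ => ?_
  have h1 : (D.path i).map (Arc.map fun x => pt x 0) = arcs (pt (D.pos (N.src i)) 0)
      (mapPts (fun x => pt x 0) (D.inner i)) (D.last i) (pt (D.pos (N.tgt i)) 0) :=
    arcs_map _ _ _ _ _
  have h2 := spine_arc (α := α) (β := β) (s := s) (a := pt (D.pos (N.src i)) 0)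
    (b := pt (D.pos (N.tgt i)) 0) ((alt_map (fun x : L => pt x 0) _ _).2 (halt i)) (hw _)
  rw [if_neg (fun h => hw _ h.1), add_zero, ← h1] at h2
  refine h2.trans ?_
  rw [mapPts, List.countP_map]
  refine countP_map_le (p := fun x : Bool × L => Btw α β (pt x.2 0)) fun x _ hx => ?_
  exact hp _ hx

/-- The crossings of an arc near the spine with the other edges. -/
theorem C_spine (D : Drawing N L) (halt : ∀ i, Alt (D.inner i) (D.last i)) (e : ι) {α β : L}
    {s : Bool} (hw : ∀ w, ¬ Btw α β (D.pos w)) :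
    C D e [⟨α, β, s⟩] ≤ ∑ i, if i = e then 0 else
      (D.inner i).countP (fun x => Btw α β x.2) := by
  unfold C
  refine sum_le_sum fun i _ => ?_
  split_ifs with hi
  · exact le_rfl
  have h2 := spine_arc (α := α) (β := β) (s := s) (a := D.pos (N.src i)) (halt i) (hw (N.tgt i))
  rw [if_neg (fun h => hw _ h.1), add_zero] at h2
  exact h2

theorem C_swap (D : Drawing N L) (e : ι) (a b : L) (s : Bool) :
    C D e [⟨a, b, s⟩] = C D e [⟨b, a, s⟩] := by
  unfold C
  refine sum_congr rfl fun i _ => ?_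
  split_ifs
  · rfl
  · exact (crL_swap_left [⟨b, a, s⟩] _)

end total

end Par

end MP60f107

end

section

/-!
D4b, D4c: curves in a good drawing; every edge has at most one row, and the edges at `u` or `v`
have none.
-/

set_option linter.unusedVariables false
set_option linter.unusedSectionVars false

namespace MP60f107

open Finset

variable {V ι : Type}

namespace Drawing

variable [Fintype V] [Fintype ι] [DecidableEq ι] {N : Net V ι} {L : Type} [LinearOrder L]
  {D : Drawing N L} {u v : V}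

/-- D4b -/
theorem good_curve (hN : N.Simple) (huv : u ≠ v) (hadj : ∀ i, s(N.src i, N.tgt i) ≠ s(u, v))
    (h : D.Good u v) {L' : Type} [LinearOrder L'] (φ : L → L') (hφ : StrictMono φ)
    (γ : List (Bool × L')) (s : Bool) (hnd : (γ.map Prod.snd).Nodup)
    (hγv : ∀ x ∈ γ, ∀ w, x.2 ≠ φ (D.pos w)) (hγi : ∀ x ∈ γ, ∀ i, ∀ y ∈ D.inner i, x.2 ≠ φ y.2) :
    D.rows u v ≤ ∑ i, crL (arcs (φ (D.pos u)) γ s (φ (D.pos v))) ((D.path i).map (Arc.map φ)) := by
  have hi : ∀ x ∈ γ, ∀ i, ∀ y ∈ (D.map φ hφ).inner i, x.2 ≠ y.2 := by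
    intro x hx i y hy
    change y ∈ mapPts φ (D.inner i) at hy
    obtain ⟨z, hz, rfl⟩ := List.mem_map.1 hy
    exact hγi x hx i z hz
  obtain ⟨L'', _, D', hnf, hdcr, hrows⟩ :=
    finger hN huv hadj (D.map φ hφ) γ s hnd hγv hi
  rw [dcr_map] at hdcr
  refine (h.row_min L'' D' hnf hdcr).trans (hrows.trans (le_of_eq ?_))
  refine sum_congr rfl fun i _ => ?_
  rw [path_map]
  rfl

end Drawing

namespace Par

/-! ### Replacing a part of an edge -/

section opt

variable [Fintype ι] [DecidableEq ι] {N : Net V ι} {L : Type} [LinearOrder L]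
  {D : Drawing N L} {u v : V}

/-- Change the chain of one edge. -/
def repl (D : Drawing N L) (e : ι) (r : List (Bool × L)) (s : Bool)
    (hnd : (r.map Prod.snd).Nodup) (hr : ∀ y ∈ r, ∃ x ∈ D.inner e, x.2 = y.2) : Drawing N L where
  pos := D.pos
  inner := Function.update D.inner e r
  last := Function.update D.last e s
  pos_inj := D.pos_inj
  nodup := by
    intro j
    by_cases h : j = e
    · subst h
      rw [Function.update_self]
      exact hnd
    · rw [Function.update_of_ne h]
      exact D.nodup j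
  disj := by
    have key : ∀ j, ∀ x ∈ Function.update D.inner e r j, ∃ y ∈ D.inner j, y.2 = x.2 := by
      intro j x hx
      by_cases h : j = e
      · subst h
        rw [Function.update_self] at hx
        exact hr x hx
      · rw [Function.update_of_ne h] at hx
        exact ⟨x, hx, rfl⟩
    intro j k hjk x hx y hy
    obtain ⟨x', hx', h1⟩ := key j x hx
    obtain ⟨y', hy', h2⟩ := key k y hy
    rw [← h1, ← h2]
    exact D.disj j k hjk x' hx' y' hy'
  avoid := by
    intro j x hx w
    by_cases h : j = e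
    · subst h
      rw [Function.update_self] at hx
      obtain ⟨x', hx', h1⟩ := hr x hx
      rw [← h1]
      exact D.avoid j x' hx' w
    · rw [Function.update_of_ne h] at hx
      exact D.avoid j x hx w

theorem sum_two (F : ι → ι → ℕ) (hs : ∀ i j, F i j = F j i) (e : ι) (h0 : F e e = 0) :
    ∑ i, ∑ j, F i j = 2 * (∑ j, F e j) + ∑ i ∈ univ.erase e, ∑ j ∈ univ.erase e, F i j := by
  rw [← Finset.add_sum_erase univ _ (mem_univ e)]
  have h1 : ∀ i, ∑ j, F i j = F i e + ∑ j ∈ univ.erase e, F i j := fun i =>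
    (Finset.add_sum_erase univ _ (mem_univ e)).symm
  have h2 : ∑ i ∈ univ.erase e, F i e = ∑ j, F e j := by
    rw [h1 e, h0, zero_add]
    exact sum_congr rfl fun i _ => hs i e
  rw [sum_congr rfl fun i _ => h1 i, sum_add_distrib, h2]
  omega

theorem opt_replace (h : D.Opt) (e : ι) (r : List (Bool × L)) (s : Bool)
    (hnd : (r.map Prod.snd).Nodup) (hr : ∀ y ∈ r, ∃ x ∈ D.inner e, x.2 = y.2) :
    C D e (D.path e) ≤ C D e (arcs (D.pos (N.src e)) r s (D.pos (N.tgt e))) := by
  have h1 := h L (repl D e r s hnd hr)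
  unfold Drawing.dcr at h1
  have hself : (repl D e r s hnd hr).path e = arcs (D.pos (N.src e)) r s (D.pos (N.tgt e)) := by
    simp only [Drawing.path, repl, Function.update_self]
  have hne : ∀ j, j ≠ e → (repl D e r s hnd hr).path j = D.path j := by
    intro j hj
    simp only [Drawing.path, repl, Function.update_of_ne hj]
  rw [sum_two (fun i j => if i = j then 0 else crL (D.path i) (D.path j)) _ e (by simp),
    sum_two (fun i j => if i = j then 0 else
      crL ((repl D e r s hnd hr).path i) ((repl D e r s hnd hr).path j)) _ e (by simp)] at h1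
  · have h2 : ∑ i ∈ univ.erase e, ∑ j ∈ univ.erase e,
        (if i = j then 0 else crL ((repl D e r s hnd hr).path i) ((repl D e r s hnd hr).path j))
        = ∑ i ∈ univ.erase e, ∑ j ∈ univ.erase e,
          (if i = j then 0 else crL (D.path i) (D.path j)) := by
      refine sum_congr rfl fun i hi => sum_congr rfl fun j hj => ?_
      rw [hne i (ne_of_mem_erase hi), hne j (ne_of_mem_erase hj)]
    have h3 : ∑ j, (if e = j then 0 else crL (D.path e) (D.path j)) = C D e (D.path e) := by
      unfold C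
      refine sum_congr rfl fun j _ => ?_
      simp only [eq_comm]
    have h4 : ∑ j, (if e = j then 0 else
        crL ((repl D e r s hnd hr).path e) ((repl D e r s hnd hr).path j))
        = C D e (arcs (D.pos (N.src e)) r s (D.pos (N.tgt e))) := by
      unfold C
      refine sum_congr rfl fun j _ => ?_
      by_cases hj : j = e
      · rw [if_pos hj.symm, if_pos hj]
      · rw [if_neg (Ne.symm hj), if_neg hj, hself, hne j hj]
    simp only [h2, h3, h4] at h1
    omega
  · intro i j
    simp only [crL_comm ((repl D e r s hnd hr).path i), eq_comm]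
  · intro i j
    simp only [crL_comm (D.path i), eq_comm]

theorem opt_short (h : D.Opt) {e : ι} {l₁ l₂ l₃ : List (Bool × L)} {t₁ t₂ : Bool} {x y : L}
    (hin : D.inner e = l₁ ++ (t₁, x) :: (l₂ ++ (t₂, y) :: l₃)) (s : Bool) :
    C D e (arcs x l₂ t₂ y) ≤ C D e [⟨x, y, s⟩] := by
  have hnd := D.nodup e
  rw [hin] at hnd
  have h1 := opt_replace h e (l₁ ++ (t₁, x) :: (s, y) :: l₃) (D.last e) (by
    simp only [List.map_append, List.map_cons] at hnd ⊢
    refine hnd.sublist ?_
    refine List.Sublist.append (List.Sublist.refl _) (List.Sublist.cons_cons _ ?_)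
    exact List.sublist_append_right _ _) (by
    intro z hz
    rw [hin]
    simp only [List.mem_append, List.mem_cons] at hz
    rcases hz with hz | rfl | rfl | hz
    · exact ⟨z, by simp [hz], rfl⟩
    · exact ⟨(t₁, x), by simp, rfl⟩
    · exact ⟨(t₂, y), by simp, rfl⟩
    · exact ⟨z, by simp [hz], rfl⟩)
  have h2 : D.path e = arcs (D.pos (N.src e)) l₁ t₁ x ++ (arcs x l₂ t₂ y ++
      arcs y l₃ (D.last e) (D.pos (N.tgt e))) := by
    rw [Drawing.path, hin, arcs_append, arcs_append]
  rw [h2, arcs_append, C_append, C_append, C_append] at h1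
  have h3 : arcs x ((s, y) :: l₃) (D.last e) (D.pos (N.tgt e))
      = [⟨x, y, s⟩] ++ arcs y l₃ (D.last e) (D.pos (N.tgt e)) := rfl
  rw [h3, C_append] at h1
  omega

theorem opt_short_src (h : D.Opt) {e : ι} {l₂ l₃ : List (Bool × L)} {t₂ : Bool} {y : L}
    (hin : D.inner e = l₂ ++ (t₂, y) :: l₃) (s : Bool) :
    C D e (arcs (D.pos (N.src e)) l₂ t₂ y) ≤ C D e [⟨D.pos (N.src e), y, s⟩] := by
  have hnd := D.nodup e
  rw [hin] at hnd
  have h1 := opt_replace h e ((s, y) :: l₃) (D.last e) (by
    simp only [List.map_append, List.map_cons] at hnd ⊢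
    exact hnd.sublist (List.sublist_append_right _ _)) (by
    intro z hz
    rw [hin]
    simp only [List.mem_cons] at hz
    rcases hz with rfl | hz
    · exact ⟨(t₂, y), by simp, rfl⟩
    · exact ⟨z, by simp [hz], rfl⟩)
  have h2 : D.path e = arcs (D.pos (N.src e)) l₂ t₂ y ++
      arcs y l₃ (D.last e) (D.pos (N.tgt e)) := by
    rw [Drawing.path, hin, arcs_append]
  rw [h2, C_append] at h1
  have h3 : arcs (D.pos (N.src e)) ((s, y) :: l₃) (D.last e) (D.pos (N.tgt e))
      = [⟨D.pos (N.src e), y, s⟩] ++ arcs y l₃ (D.last e) (D.pos (N.tgt e)) := rfl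
  rw [h3, C_append] at h1
  omega

theorem opt_short_tgt (h : D.Opt) {e : ι} {l₁ l₂ : List (Bool × L)} {t₁ : Bool} {x : L}
    (hin : D.inner e = l₁ ++ (t₁, x) :: l₂) (s : Bool) :
    C D e (arcs x l₂ (D.last e) (D.pos (N.tgt e))) ≤ C D e [⟨x, D.pos (N.tgt e), s⟩] := by
  have hnd := D.nodup e
  rw [hin] at hnd
  have h1 := opt_replace h e (l₁ ++ [(t₁, x)]) s (by
    simp only [List.map_append, List.map_cons] at hnd ⊢
    refine hnd.sublist (List.Sublist.append (List.Sublist.refl _) ?_)
    exact List.Sublist.cons_cons _ (List.nil_sublist _)) (by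
    intro z hz
    rw [hin]
    simp only [List.mem_append, List.mem_cons, List.not_mem_nil, or_false] at hz
    rcases hz with hz | rfl
    · exact ⟨z, by simp [hz], rfl⟩
    · exact ⟨(t₁, x), by simp, rfl⟩)
  have h2 : D.path e = arcs (D.pos (N.src e)) l₁ t₁ x ++
      arcs x l₂ (D.last e) (D.pos (N.tgt e)) := by
    rw [Drawing.path, hin, arcs_append]
  rw [h2, arcs_append, C_append, C_append] at h1
  have h3 : arcs x [] s (D.pos (N.tgt e)) = [⟨x, D.pos (N.tgt e), s⟩] := rfl
  rw [h3] at h1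
  omega

end opt

/-! ### Curves -/

section join

variable [Fintype V] [Fintype ι] [DecidableEq ι] {N : Net V ι} {L : Type} [LinearOrder L]
  {D : Drawing N L} {u v : V}

/-- Two chains from `u` and from `v` joined by an arc. -/
theorem good_join (hN : N.Simple) (huv : u ≠ v) (hadj : ∀ i, s(N.src i, N.tgt i) ≠ s(u, v))
    (h : D.Good u v) (A B : List (Bool × (L ×ₗ ℤ))) (s : Bool)
    (hnd : ((A ++ B).map Prod.snd).Nodup)
    (hfr : ∀ x ∈ A ++ B, ∃ z k, k ≠ 0 ∧ x.2 = pt z k) :
    D.rows u v ≤ T D (ini (pt (D.pos u) 0) A)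
      + T D [⟨lst (pt (D.pos u) 0) A, lst (pt (D.pos v) 0) B, s⟩]
      + T D (ini (pt (D.pos v) 0) B) := by
  have hfr' : ∀ x ∈ A ++ B, ∀ z : L, x.2 ≠ pt z 0 := by
    intro x hx z he
    obtain ⟨z', k, hk, h1⟩ := hfr x hx
    rw [h1, pt_inj] at he
    exact hk he.2
  rcases List.eq_nil_or_concat B with rfl | ⟨B₀, ⟨t, q⟩, rfl⟩
  · rw [List.append_nil] at hnd hfr'
    have h1 := Drawing.good_curve hN huv hadj h (fun x => pt x 0) pt_mono A s hnd
      (fun x hx w => hfr' x hx _) (fun x hx i y hy => hfr' x hx _)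
    refine h1.trans (le_of_eq ?_)
    change T D _ = _
    rw [arcs_eq, T_append]
    change _ = _ + _ + T D []
    rw [T_nil, add_zero]
    rfl
  · have h2 : ∀ x ∈ A ++ (s, q) :: (rev B₀ t).1, ∀ z : L, x.2 ≠ pt z 0 := by
      intro x hx z
      simp only [List.mem_append, List.mem_cons] at hx
      rcases hx with hx | rfl | hx
      · exact hfr' x (by simp [hx]) z
      · exact hfr' (t, q) (by simp) z
      · have h3 : x.2 ∈ (rev B₀ t).1.map Prod.snd := List.mem_map.2 ⟨x, hx, rfl⟩
        rw [rev_pts, List.mem_reverse] at h3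
        obtain ⟨y, hy, h4⟩ := List.mem_map.1 h3
        rw [← h4]
        exact hfr' y (by simp [hy]) z
    have h1 := Drawing.good_curve hN huv hadj h (fun x => pt x 0) pt_mono
      (A ++ (s, q) :: (rev B₀ t).1) (rev B₀ t).2 (by
        simp only [List.map_append, List.map_cons, rev_pts, List.concat_eq_append, List.map_nil]
          at hnd ⊢
        refine (List.Perm.nodup_iff ?_).1 hnd
        refine List.Perm.append_left _ ?_
        refine (List.perm_append_singleton _ _).trans (List.Perm.cons _ ?_)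
        exact (List.reverse_perm _).symm)
      (fun x hx w => h2 x hx _) (fun x hx i y hy => h2 x hx _)
    refine h1.trans (le_of_eq ?_)
    change T D _ = _
    rw [arcs_append, arcs_eq, T_append, T_append, List.concat_eq_append, ini_append, lst_append]
    congr 1
    unfold T
    simp only [crL_rev]

end join

/-! ### Counting -/

section count

theorem split_one {α : Type} (p : α → Prop) [DecidablePred p] {l : List α}
    (h : 1 ≤ l.countP (fun x => p x)) : ∃ l₁ a l₂, l = l₁ ++ a :: l₂ ∧ p a := by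
  obtain ⟨a, ha, hp⟩ := List.countP_pos_iff.1 h
  obtain ⟨l₁, l₂, rfl⟩ := List.append_of_mem ha
  exact ⟨l₁, a, l₂, rfl, by simpa using hp⟩

theorem split_two {α : Type} (p : α → Prop) [DecidablePred p] {l : List α}
    (h : 2 ≤ l.countP (fun x => p x)) :
    ∃ l₁ a l₂ b l₃, l = l₁ ++ a :: (l₂ ++ b :: l₃) ∧ p a ∧ p b := by
  induction l with
  | nil => simp at h
  | cons z l ih =>
    by_cases hz : p z
    · rw [List.countP_cons_of_pos (by simpa using hz)] at h
      obtain ⟨l₂, b, l₃, rfl, hb⟩ := split_one p (l := l) (by omega)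
      exact ⟨[], z, l₂, b, l₃, rfl, hz, hb⟩
    · rw [List.countP_cons_of_neg (by simpa using hz)] at h
      obtain ⟨l₁, a, l₂, b, l₃, rfl, ha, hb⟩ := ih h
      exact ⟨z :: l₁, a, l₂, b, l₃, rfl, ha, hb⟩

theorem count_three {α : Type} (p q r m : α → Prop) [DecidablePred p] [DecidablePred q]
    [DecidablePred r] [DecidablePred m] (l : List α)
    (h : ∀ x, (if p x then 1 else 0) + (if q x then 1 else 0) + (if r x then 1 else 0)
      ≤ if m x then 1 else 0) :
    l.countP (fun x => p x) + l.countP (fun x => q x) + l.countP (fun x => r x)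
      ≤ l.countP (fun x => m x) := by
  induction l with
  | nil => simp
  | cons z l ih =>
    have := h z
    simp only [List.countP_cons, decide_eq_true_eq]
    omega

end count

section rows

variable [Fintype V] [Fintype ι] [DecidableEq ι] {N : Net V ι} {L : Type} [LinearOrder L]
  {D : Drawing N L} {u v : V}

theorem nodup_sh {side : Bool} {r : List (Bool × L)} (h : (r.map Prod.snd).Nodup) :
    ((sh side r).map Prod.snd).Nodup := by
  refine List.Nodup.of_map (fun x : L ×ₗ ℤ => (ofLex x).1) ?_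
  rw [sh, List.map_map, List.map_map]
  exact h

theorem fresh_sh {side : Bool} {r : List (Bool × L)} :
    ∀ x ∈ sh side r, ∃ z k, k ≠ 0 ∧ x.2 = pt z k := by
  intro x hx
  obtain ⟨y, hy, rfl⟩ := List.mem_map.1 hx
  refine ⟨y.2, sg side y.1, ?_, rfl⟩
  rcases sg_cases side y.1 with h | h <;> rw [h] <;> norm_num

/-- The final count: the curve costs too little. -/
theorem final_count (e : ι) {a b lo hi : L} (h1 : a ≤ lo) (h2 : lo ≤ hi) (h3 : hi ≤ b) {q : ℕ}
    {p₁ p₃ p₂ : L → Prop} [DecidablePred p₁] [DecidablePred p₃] [DecidablePred p₂] 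
    (hp₁ : ∀ z, p₁ z → a < z ∧ z < b) (hp₂ : ∀ z, p₂ z → a < z ∧ z < b)
    (hp₃ : ∀ z, p₃ z → a < z ∧ z < b)
    (h12 : ∀ z, p₁ z → ¬ p₂ z) (h13 : ∀ z, p₁ z → ¬ p₃ z) (h23 : ∀ z, p₂ z → ¬ p₃ z)
    (D : Drawing N L)
    (hrows : ∑ i, (D.inner i).countP (fun x => a < x.2 ∧ x.2 < b) ≤
      ∑ i, (D.inner i).countP (fun x => p₁ x.2) + q + ∑ i, (D.inner i).countP (fun x => p₃ x.2)) :
    ∑ i, (D.inner i).countP (fun x => p₂ x.2) ≤ q := by
  have h4 : ∑ i, (D.inner i).countP (fun x => p₁ x.2) + ∑ i, (D.inner i).countP (fun x => p₂ x.2)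
      + ∑ i, (D.inner i).countP (fun x => p₃ x.2)
      ≤ ∑ i, (D.inner i).countP (fun x => a < x.2 ∧ x.2 < b) := by
    rw [← sum_add_distrib, ← sum_add_distrib]
    refine sum_le_sum fun i _ => ?_
    refine count_three (fun x : Bool × L => p₁ x.2) (fun x => p₂ x.2) (fun x => p₃ x.2)
      (fun x => a < x.2 ∧ x.2 < b) (D.inner i) fun x => ?_
    have := hp₁ x.2
    have := hp₂ x.2
    have := hp₃ x.2
    have := h12 x.2
    have := h13 x.2
    have := h23 x.2
    by_cases c1 : p₁ x.2 <;> by_cases c2 : p₂ x.2 <;> by_cases c3 : p₃ x.2 <;> simp_all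
  omega

/-- Too few rows strictly between: contradiction. -/
theorem final_contra {e : ι} {D : Drawing N L} {q : ℕ} {p p₂ : L → Prop} [DecidablePred p]
    [DecidablePred p₂] (hpp : ∀ z, p z → p₂ z) {x : Bool × L} (hx : x ∈ D.inner e) (hx2 : p₂ x.2)
    (h1 : ∑ i, (D.inner i).countP (fun x => p₂ x.2) ≤ q)
    (h2 : q ≤ ∑ i, if i = e then 0 else (D.inner i).countP (fun x => p x.2)) : False := by
  have h3 : ∑ i, (if i = e then 0 else (D.inner i).countP (fun x => p x.2))
      < ∑ i, (D.inner i).countP (fun x => p₂ x.2) := by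
    refine sum_lt_sum (fun i _ => ?_) ⟨e, mem_univ _, ?_⟩
    · split_ifs with hi
      · exact Nat.zero_le _
      · exact countP_map_le (p := fun x : Bool × L => p x.2) fun x _ h => hpp _ h
    · rw [if_pos rfl]
      exact List.countP_pos_iff.2 ⟨x, hx, by simpa using hx2⟩
  omega

theorem rows_le_one (hN : N.Simple) (huv : u ≠ v)
    (hadj : ∀ i, s(N.src i, N.tgt i) ≠ s(u, v)) (h : D.Good u v) (e : ι) :
    D.rowsOf u v e ≤ 1 := by
  by_contra hlt
  have halt := Drawing.good_alt hN h
  have hcr := Drawing.good_nocross hN h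
  have hst := hN.loopless e
  obtain ⟨l₁, ⟨t₁, x⟩, l₂, ⟨t₂, y⟩, l₃, hin, hx, hy⟩ :=
    split_two (fun z : Bool × L => D.pos u < z.2 ∧ z.2 < D.pos v) (l := D.inner e) (by
      unfold Drawing.rowsOf at hlt
      omega)
  have hnv := h.nf.2
  dsimp only at hx hy
  have hsub : ∀ z ∈ (t₁, x) :: (l₂ ++ [(t₂, y)]), z ∈ D.inner e := by
    intro z hz
    rw [hin]
    simp only [List.mem_append, List.mem_cons, List.not_mem_nil, or_false] at hz ⊢
    tauto
  have hxm : (t₁, x) ∈ D.inner e := hsub _ (by simp)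
  have hym : (t₂, y) ∈ D.inner e := hsub _ (by simp)
  have halt' : Alt ((t₁, x) :: (l₂ ++ [(t₂, y)])) (!t₂) := by
    have h1 := halt e
    rw [hin, alt_append] at h1
    have h2 := h1.2.2
    rw [alt_append] at h2
    rw [alt_cons, alt_append]
    have h3 : hd (l₂ ++ (t₂, y) :: l₃) (D.last e) = hd (l₂ ++ [(t₂, y)]) (!t₂) := by
      cases l₂ <;> rfl
    refine ⟨h3 ▸ h1.2.1, h2.1, ?_, trivial⟩
    simp [hd]
  have hnd' : (((t₁, x) :: (l₂ ++ [(t₂, y)])).map Prod.snd).Nodup := by
    have h1 := D.nodup e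
    rw [hin] at h1
    refine h1.sublist (List.Sublist.map _ ?_)
    refine (List.Sublist.cons_cons _ ?_).trans (List.sublist_append_right _ _)
    exact List.Sublist.append (List.Sublist.refl _)
      (List.Sublist.cons_cons _ (List.nil_sublist _))
  have hxy : x ≠ y := by
    intro he
    simp only [List.map_cons, List.map_append, List.nodup_cons, List.mem_append] at hnd'
    exact hnd'.1 (Or.inr (by simp [he]))
  have hm : ∀ A ∈ ini x (l₂ ++ [(t₂, y)]), A ∈ D.path e ∨ A.swap ∈ D.path e := by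
    intro A hA
    left
    rw [ini_append] at hA
    rw [Drawing.path, hin, arcs_append, arcs_append]
    simp [hA]
  have hQ : C D e (ini x (l₂ ++ [(t₂, y)])) ≤ C D e [⟨x, y, true⟩] := by
    rw [ini_append]
    exact opt_short h.opt hin true
  have hC := C_spine D halt e (α := x) (β := y) (s := true) (by
    intro w hw
    apply hnv w
    rcases hw with hw | hw
    · exact ⟨hx.1.trans hw.1, hw.2.trans hy.2⟩
    · exact ⟨hy.1.trans hw.1, hw.2.trans hx.2⟩)
  have hQ' := hQ.trans hC
  have hcopy : ∀ side, T D ((ini x (l₂ ++ [(t₂, y)])).map (lift side))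
      ≤ C D e (ini x (l₂ ++ [(t₂, y)])) := fun side =>
    T_copy hst (halt e) (hcr e) (copy_lift side ⟨_, hxm, rfl⟩
      (fun z hz => ⟨z, hsub z (by simp only [List.mem_cons]; exact Or.inr hz), rfl⟩) hm)
  rcases lt_or_gt_of_ne hxy with hlt' | hlt'
  · have hj := good_join hN huv hadj h (sh (!t₁) ((t₁, x) :: (l₂ ++ [(t₂, y)]))) [] true
      (by rw [List.append_nil]; exact nodup_sh hnd') (by rw [List.append_nil]; exact fresh_sh)
    rw [ini_sh _ _ _ _ _ _ halt', lst_sh _ _ _ _ _ _ halt', lst_append, T_cons] at hj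
    have hs1 : sg (!t₁) t₁ = -1 := by
      unfold sg
      cases t₁ <;> simp
    rw [hs1] at hj
    have e1 := T_spine D halt (α := pt (D.pos u) 0) (β := pt x (-1)) (s := t₁) (by
      intro w hw
      simp only [Btw, pt_lt] at hw
      apply hnv w
      grind) (fun z => D.pos u < z ∧ z < x) (by
      intro z hz
      simp only [Btw, pt_lt] at hz
      grind)
    have e2 := T_spine D halt (α := pt y (-(sg (!t₁) (!t₂)))) (β := pt (D.pos v) 0) (s := true) (by
      intro w hw
      simp only [Btw, pt_lt] at hw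
      apply hnv w
      grind) (fun z => y ≤ z ∧ z < D.pos v) (by
      intro z hz
      simp only [Btw, pt_lt] at hz
      grind)
    have e3 := hcopy (!t₁)
    have e4 : T D (ini (pt (D.pos v) 0) []) = 0 := T_nil D
    have e5 : lst (pt (D.pos v) 0) [] = pt (D.pos v) 0 := rfl
    rw [e4, e5] at hj
    have hcount := final_count e (a := D.pos u) (b := D.pos v) (lo := x) (hi := y) hx.1.le hlt'.le
      hy.2.le (q := C D e (ini x (l₂ ++ [(t₂, y)])))
      (p₁ := fun z => D.pos u < z ∧ z < x) (p₂ := fun z => x ≤ z ∧ z < y)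
      (p₃ := fun z => y ≤ z ∧ z < D.pos v)
      (fun z hz => ⟨hz.1, hz.2.trans hx.2⟩) (fun z hz => ⟨hx.1.trans_le hz.1, hz.2.trans hy.2⟩)
      (fun z hz => ⟨hy.1.trans_le hz.1, hz.2⟩)
      (fun z hz hz' => absurd hz.2 (not_lt.2 hz'.1))
      (fun z hz hz' => absurd (hz.2.trans hlt') (not_lt.2 hz'.1))
      (fun z hz hz' => absurd hz.2 (not_lt.2 hz'.1)) D (by
        unfold Drawing.rows Drawing.rowsOf at hj
        omega)
    exact final_contra (p := fun z => Btw x y z) (p₂ := fun z => x ≤ z ∧ z < y) (by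
      intro z hz
      unfold Btw at hz
      grind) hxm ⟨le_rfl, hlt'⟩ hcount hQ'
  · have hj := good_join hN huv hadj h [] (sh (!t₂) ((t₁, x) :: (l₂ ++ [(t₂, y)]))) true
      (by rw [List.nil_append]; exact nodup_sh hnd') (by rw [List.nil_append]; exact fresh_sh)
    rw [ini_sh _ _ _ _ _ _ halt', lst_sh _ _ _ _ _ _ halt', lst_append] at hj
    have e6 := T_cons D ⟨pt (D.pos v) 0, pt x (sg (!t₂) t₁), t₁⟩
      ((ini x (l₂ ++ [(t₂, y)])).map (lift (!t₂)))
    have hs1 : -(sg (!t₂) (!t₂)) = -1 := by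
      unfold sg
      simp
    rw [hs1] at hj
    have e1 := T_spine D halt (α := pt (D.pos v) 0) (β := pt x (sg (!t₂) t₁)) (s := t₁) (by
      intro w hw
      simp only [Btw, pt_lt] at hw
      apply hnv w
      grind) (fun z => x ≤ z ∧ z < D.pos v) (by
      intro z hz
      simp only [Btw, pt_lt] at hz
      grind)
    have e2 := T_spine D halt (α := pt (D.pos u) 0) (β := pt y (-1)) (s := true) (by
      intro w hw
      simp only [Btw, pt_lt] at hw
      apply hnv w
      grind) (fun z => D.pos u < z ∧ z < y) (by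
      intro z hz
      simp only [Btw, pt_lt] at hz
      grind)
    have e3 := hcopy (!t₂)
    have e4 : T D (ini (pt (D.pos u) 0) []) = 0 := T_nil D
    have e5 : lst (pt (D.pos u) 0) [] = pt (D.pos u) 0 := rfl
    rw [e4, e5] at hj
    have hcount := final_count e (a := D.pos u) (b := D.pos v) (lo := y) (hi := x) hy.1.le hlt'.le
      hx.2.le (q := C D e (ini x (l₂ ++ [(t₂, y)])))
      (p₁ := fun z => D.pos u < z ∧ z < y) (p₂ := fun z => y ≤ z ∧ z < x)
      (p₃ := fun z => x ≤ z ∧ z < D.pos v)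
      (fun z hz => ⟨hz.1, hz.2.trans hy.2⟩) (fun z hz => ⟨hy.1.trans_le hz.1, hz.2.trans hx.2⟩)
      (fun z hz => ⟨hx.1.trans_le hz.1, hz.2⟩)
      (fun z hz hz' => absurd hz.2 (not_lt.2 hz'.1))
      (fun z hz hz' => absurd (hz.2.trans hlt') (not_lt.2 hz'.1))
      (fun z hz hz' => absurd hz.2 (not_lt.2 hz'.1)) D (by
        unfold Drawing.rows Drawing.rowsOf at hj
        omega)
    exact final_contra (p := fun z => Btw x y z) (p₂ := fun z => y ≤ z ∧ z < x) (by
      intro z hz
      unfold Btw at hz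
      grind) hym ⟨le_rfl, hlt'⟩ hcount hQ'

/-- An edge from `z ∈ {u, v}` has no row. -/
theorem inc_aux (hN : N.Simple) (huv : u ≠ v)
    (hadj : ∀ i, s(N.src i, N.tgt i) ≠ s(u, v)) (h : D.Good u v) {e : ι}
    {R : List (Bool × L)} {t : Bool} {x : L} {z : V} (hz : z = u ∨ z = v)
    (hx : D.pos u < x ∧ x < D.pos v)
    (halt' : Alt (R ++ [(t, x)]) (!t)) (hnd' : ((R ++ [(t, x)]).map Prod.snd).Nodup)
    (hsub : ∀ z ∈ R ++ [(t, x)], ∃ y ∈ D.inner e, y.2 = z.2)
    (hm : ∀ A ∈ ini (D.pos z) (R ++ [(t, x)]), A ∈ D.path e ∨ A.swap ∈ D.path e)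
    (hQ : C D e (ini (D.pos z) (R ++ [(t, x)])) ≤ C D e [⟨D.pos z, x, true⟩]) : False := by
  have halt := Drawing.good_alt hN h
  have hcr := Drawing.good_nocross hN h
  have hst := hN.loopless e
  have hnv := h.nf.2
  have hzx : ∀ w, ¬ Btw (D.pos z) x (D.pos w) := by
    intro w hw
    unfold Btw at hw
    rcases hz with rfl | rfl
    · apply hnv w
      grind
    · apply hnv w
      grind
  have hC := C_spine D halt e (α := D.pos z) (β := x) (s := true) hzx
  have hQ' := hQ.trans hC
  have hcopy : ∀ side, T D (ini (pt (D.pos z) 0) (sh side (R ++ [(t, x)])))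
      ≤ C D e (ini (D.pos z) (R ++ [(t, x)])) := fun side =>
    T_copy hst (halt e) (hcr e) (copy_start side halt' hsub hm)
  obtain ⟨⟨t', x'⟩, hx', hxe⟩ := hsub (t, x) (by simp)
  dsimp only at hxe
  subst hxe
  have hsh : ∀ side, sh side (R ++ [(t, x')]) = sh side R ++ [(t, pt x' (sg side t))] := by
    intro side
    rw [sh_append]
    rfl
  rcases hz with rfl | rfl
  · have hj := good_join hN huv hadj h (sh t (R ++ [(t, x')])) [] true
      (by rw [List.append_nil]; exact nodup_sh hnd') (by rw [List.append_nil]; exact fresh_sh)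
    have h1 : lst (pt (D.pos z) 0) (sh t (R ++ [(t, x')])) = pt x' 1 := by
      rw [hsh, lst_append]
      simp [sg]
    have e2 := T_spine D halt (α := pt x' 1) (β := pt (D.pos v) 0) (s := true) (by
      intro w hw
      simp only [Btw, pt_lt] at hw
      apply hnv w
      grind) (fun z => x' < z ∧ z < D.pos v) (by
      intro z hz
      simp only [Btw, pt_lt] at hz
      grind)
    have e3 := hcopy t
    have e4 : T D (ini (pt (D.pos v) 0) []) = 0 := T_nil D
    have e5 : lst (pt (D.pos v) 0) [] = pt (D.pos v) 0 := rfl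
    rw [e4, e5, h1] at hj
    have hcount := final_count e (a := D.pos z) (b := D.pos v) (lo := x') (hi := x') hx.1.le le_rfl
      hx.2.le (q := C D e (ini (D.pos z) (R ++ [(t, x')])))
      (p₁ := fun _ => False) (p₂ := fun y => D.pos z < y ∧ y ≤ x')
      (p₃ := fun y => x' < y ∧ y < D.pos v)
      (fun z hz => hz.elim) (fun z hz => ⟨hz.1, hz.2.trans_lt hx.2⟩)
      (fun z hz => ⟨hx.1.trans hz.1, hz.2⟩)
      (fun z hz hz' => hz)
      (fun z hz hz' => hz)
      (fun z hz hz' => absurd hz'.1 (not_lt.2 hz.2)) D (by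
        unfold Drawing.rows Drawing.rowsOf at hj
        omega)
    exact final_contra (p := fun y => Btw (D.pos z) x' y) (p₂ := fun y => D.pos z < y ∧ y ≤ x') (by
      intro y hy
      unfold Btw at hy
      grind) hx' ⟨hx.1, le_rfl⟩ hcount hQ'
  · have hj := good_join hN huv hadj h [] (sh (!t) (R ++ [(t, x')])) true
      (by rw [List.nil_append]; exact nodup_sh hnd') (by rw [List.nil_append]; exact fresh_sh)
    have h1 : lst (pt (D.pos z) 0) (sh (!t) (R ++ [(t, x')])) = pt x' (-1) := by
      rw [hsh, lst_append]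
      cases t <;> simp [sg]
    have e2 := T_spine D halt (α := pt (D.pos u) 0) (β := pt x' (-1)) (s := true) (by
      intro w hw
      simp only [Btw, pt_lt] at hw
      apply hnv w
      grind) (fun z => D.pos u < z ∧ z < x') (by
      intro z hz
      simp only [Btw, pt_lt] at hz
      grind)
    have e3 := hcopy (!t)
    have e4 : T D (ini (pt (D.pos u) 0) []) = 0 := T_nil D
    have e5 : lst (pt (D.pos u) 0) [] = pt (D.pos u) 0 := rfl
    rw [e4, e5, h1] at hj
    have hcount := final_count e (a := D.pos u) (b := D.pos z) (lo := x') (hi := x') hx.1.le le_rfl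
      hx.2.le (q := C D e (ini (D.pos z) (R ++ [(t, x')])))
      (p₁ := fun _ => False) (p₂ := fun y => x' ≤ y ∧ y < D.pos z)
      (p₃ := fun y => D.pos u < y ∧ y < x')
      (fun z hz => hz.elim) (fun z hz => ⟨hx.1.trans_le hz.1, hz.2⟩)
      (fun z hz => ⟨hz.1, hz.2.trans hx.2⟩)
      (fun z hz hz' => hz)
      (fun z hz hz' => hz)
      (fun z hz hz' => absurd hz'.2 (not_lt.2 hz.1)) D (by
        unfold Drawing.rows Drawing.rowsOf at hj
        omega)
    exact final_contra (p := fun y => Btw (D.pos z) x' y) (p₂ := fun y => x' ≤ y ∧ y < D.pos z) (by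
      intro y hy
      unfold Btw at hy
      grind) hx' ⟨le_rfl, hx.2⟩ hcount hQ'

theorem rows_inc (hN : N.Simple) (huv : u ≠ v)
    (hadj : ∀ i, s(N.src i, N.tgt i) ≠ s(u, v)) (h : D.Good u v) (e : ι)
    (hi : N.Inc e u ∨ N.Inc e v) : D.rowsOf u v e = 0 := by
  by_contra hne
  have halt := Drawing.good_alt hN h e
  obtain ⟨l₁, ⟨t₁, x⟩, l₂, hin, hx⟩ :=
    split_one (fun z : Bool × L => D.pos u < z.2 ∧ z.2 < D.pos v) (l := D.inner e) (by
      unfold Drawing.rowsOf at hne
      omega)
  dsimp only at hx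
  have hnd := D.nodup e
  rw [hin] at hnd halt
  rw [alt_append] at halt
  have hsrc : ∀ z, (z = u ∨ z = v) → N.src e = z → False := by
    intro z hz hs
    refine inc_aux hN huv hadj h (e := e) (R := l₁) (t := t₁) (x := x) hz hx ?_ ?_ ?_ ?_ ?_
    · rw [alt_append]
      refine ⟨halt.1, ?_, trivial⟩
      simp [hd]
    · refine hnd.sublist (List.Sublist.map _ (List.Sublist.append (List.Sublist.refl _) ?_))
      exact List.Sublist.cons_cons _ (List.nil_sublist _)
    · intro y hy
      refine ⟨y, ?_, rfl⟩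
      rw [hin]
      simp only [List.mem_append, List.mem_cons, List.not_mem_nil, or_false] at hy ⊢
      tauto
    · intro A hA
      left
      rw [ini_append, ← hs] at hA
      rw [Drawing.path, hin, arcs_append]
      simp [hA]
    · rw [ini_append, ← hs]
      exact opt_short_src h.opt hin true
  have htgt : ∀ z, (z = u ∨ z = v) → N.tgt e = z → False := by
    intro z hz hs
    refine inc_aux hN huv hadj h (e := e) (R := (rev l₂ (D.last e)).1)
      (t := (rev l₂ (D.last e)).2) (x := x) hz hx ?_ ?_ ?_ ?_ ?_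
    · rw [alt_append]
      refine ⟨alt_rev _ _ halt.2.2, ?_, trivial⟩
      simp [hd]
    · rw [List.map_append, rev_pts]
      have h1 : (((t₁, x) :: l₂).map Prod.snd).Nodup :=
        hnd.sublist (List.Sublist.map _ (List.sublist_append_right _ _))
      simp only [List.map_cons, List.map_nil] at h1 ⊢
      refine (List.Perm.nodup_iff ?_).1 h1
      exact (List.Perm.cons _ (List.reverse_perm _).symm).trans
        (List.perm_append_singleton _ _).symm
    · intro y hy
      simp only [List.mem_append, List.mem_cons, List.not_mem_nil, or_false] at hy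
      rcases hy with hy | rfl
      · have h3 : y.2 ∈ (rev l₂ (D.last e)).1.map Prod.snd := List.mem_map.2 ⟨y, hy, rfl⟩
        rw [rev_pts, List.mem_reverse] at h3
        obtain ⟨y', hy', h4⟩ := List.mem_map.1 h3
        exact ⟨y', by rw [hin]; simp [hy'], h4⟩
      · exact ⟨(t₁, x), by rw [hin]; simp, rfl⟩
    · intro A hA
      right
      rw [ini_append, ← hs, arcs_rev, List.mem_reverse] at hA
      obtain ⟨B, hB, rfl⟩ := List.mem_map.1 hA
      rw [Drawing.path, hin, arcs_append]
      have : B.swap.swap = B := rfl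
      rw [this]
      simp [hB]
    · rw [ini_append, ← hs, C_rev, C_swap]
      exact opt_short_tgt h.opt hin true
  rcases hi with (hi | hi) | (hi | hi)
  · exact hsrc u (Or.inl rfl) hi
  · exact htgt u (Or.inl rfl) hi
  · exact hsrc v (Or.inr rfl) hi
  · exact htgt v (Or.inr rfl) hi

end rows

end Par

namespace Drawing

variable [Fintype V] [Fintype ι] [DecidableEq ι] {N : Net V ι} {L : Type} [LinearOrder L]
  {D : Drawing N L} {u v : V}

/-- D4c -/
theorem good_rows_le_one (hN : N.Simple) (huv : u ≠ v)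
    (hadj : ∀ i, s(N.src i, N.tgt i) ≠ s(u, v)) (h : D.Good u v) (i : ι) :
    D.rowsOf u v i ≤ 1 := Par.rows_le_one hN huv hadj h i

/-- D4c -/
theorem good_rows_inc (hN : N.Simple) (huv : u ≠ v)
    (hadj : ∀ i, s(N.src i, N.tgt i) ≠ s(u, v)) (h : D.Good u v) (i : ι)
    (hi : N.Inc i u ∨ N.Inc i v) : D.rowsOf u v i = 0 := Par.rows_inc hN huv hadj h i hi

end Drawing

end MP60f107

end

section

/-!
D5: the parallel curve inequality.
-/

set_option linter.unusedVariables false
set_option linter.unusedSectionVars false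

namespace MP60f107

open Finset

namespace Par

section pointwise

variable {L : Type} [LinearOrder L]

theorem X_page {L : Type} [LinearOrder L] {A B : Arc L} (h : A.up ≠ B.up) : X A B = 0 := by
  unfold X
  rw [if_neg]
  exact fun h' => h h'.1

theorem around_side {p w b c : L} {k : ℤ} {s : Bool} (hk : k = 1 ∨ k = -1)
    (hpw : p ≠ w) (hbc : b ≠ c) (h1 : p = b → c = w) (h2 : p = c → b = w) :
    X ⟨pt p k, pt w 1, s⟩ ⟨pt b 0, pt c 0, s⟩ + X ⟨pt p k, pt w (-1), s⟩ ⟨pt b 0, pt c 0, s⟩
    ≤ 2 * X ⟨p, w, s⟩ ⟨b, c, s⟩ + (if b = w ∨ c = w then 1 else 0) := by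
  unfold X Ilv Btw Ots
  simp only [pt_lt]
  rcases hk with rfl | rfl <;> rcases lt_or_gt_of_ne hpw with h | h <;>
    rcases lt_or_gt_of_ne hbc with h' | h' <;>
  grind (splits := 20)

theorem around_diff {p q w : L} {k l : ℤ} {s s' : Bool} (hs : s ≠ s') (hk : k = 1 ∨ k = -1)
    (hl : l = 1 ∨ l = -1) (hpw : p ≠ w) (hqw : q ≠ w) {B : Arc L} (hbc : B.p ≠ B.q)
    (h1 : B.up = s → p = B.p → B.q = w) (h2 : B.up = s → p = B.q → B.p = w)
    (h3 : B.up = s' → q = B.p → B.q = w) (h4 : B.up = s' → q = B.q → B.p = w) :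
    crL [⟨pt p k, pt w 1, s⟩, ⟨pt w 1, pt q l, s'⟩, ⟨pt p k, pt w (-1), s⟩,
      ⟨pt w (-1), pt q l, s'⟩] [B.map fun x => pt x 0]
    ≤ 2 * (X ⟨p, w, s⟩ B + X ⟨q, w, s'⟩ B) + (if B.p = w ∨ B.q = w then 1 else 0) := by
  obtain ⟨b, c, t⟩ := B
  dsimp only at hbc h1 h2 h3 h4
  have e0 : (Arc.map (fun x => pt x 0) ⟨b, c, t⟩ : Arc (L ×ₗ ℤ)) = ⟨pt b 0, pt c 0, t⟩ := rfl
  simp only [crL_cons_left, crL_nil_left, List.map_cons, List.map_nil, List.sum_cons, List.sum_nil,
    e0]
  have hsw : ∀ k, X ⟨pt w k, pt q l, s'⟩ ⟨pt b 0, pt c 0, t⟩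
      = X ⟨pt q l, pt w k, s'⟩ ⟨pt b 0, pt c 0, t⟩ := fun k =>
    X_swap_left ⟨pt q l, pt w k, s'⟩ ⟨pt b 0, pt c 0, t⟩
  rw [hsw, hsw]
  by_cases ht : t = s
  · subst ht
    have e1 := around_side hk hpw hbc (h1 rfl) (h2 rfl) (s := t)
    have e2 : ∀ k, X ⟨pt q l, pt w k, s'⟩ ⟨pt b 0, pt c 0, t⟩ = 0 := fun k =>
      X_page (fun h => hs h.symm)
    rw [e2, e2]
    omega
  · have ht' : t = s' := by
      cases t <;> cases s <;> cases s' <;> simp_all
    subst ht'
    have e1 := around_side hl hqw hbc (h3 rfl) (h4 rfl) (s := t)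
    have e2 : ∀ k', X ⟨pt p k, pt w k', s⟩ ⟨pt b 0, pt c 0, t⟩ = 0 := fun k' =>
      X_page (fun h => ht h.symm)
    rw [e2, e2]
    omega

theorem around_w {p q w c : L} {k l : ℤ} {s : Bool} (hk : k = 1 ∨ k = -1)
    (hl : l = 1 ∨ l = -1) (hbc : w ≠ c)
    (hc : (p < q ∧ q < w) ∨ (q < w ∧ w < p) ∨ (w < p ∧ p < q)) :
    X ⟨pt p k, pt q l, s⟩ ⟨pt w 0, pt c 0, s⟩ +
    (X ⟨pt p k, pt w 1, s⟩ ⟨pt w 0, pt c 0, s⟩ + X ⟨pt q l, pt w (-1), s⟩ ⟨pt w 0, pt c 0, s⟩)
    ≤ 1 := by
  unfold X Ilv Btw Ots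
  simp only [pt_lt]
  rcases hk with rfl | rfl <;> rcases hl with rfl | rfl <;>
  rcases hc with ⟨h5, h6⟩ | ⟨h5, h6⟩ | ⟨h5, h6⟩ <;>
  grind (splits := 30)

theorem merge {p q w b c : L} {s : Bool} (hb : b ≠ w) (hc : c ≠ w) :
    X ⟨p, q, s⟩ ⟨b, c, s⟩ ≤ X ⟨p, w, s⟩ ⟨b, c, s⟩ + X ⟨q, w, s⟩ ⟨b, c, s⟩ := by
  unfold X Ilv Btw Ots
  grind (splits := 30)

theorem around_same_aux {p q w b c : L} {k l : ℤ} {s : Bool} (hk : k = 1 ∨ k = -1)
    (hl : l = 1 ∨ l = -1) (hbc : b ≠ c) (h1 : p = b → c = w) (h2 : p = c → b = w)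
    (h3 : q = b → c = w) (h4 : q = c → b = w)
    (hc : (p < q ∧ q < w) ∨ (q < w ∧ w < p) ∨ (w < p ∧ p < q)) :
    X ⟨pt p k, pt q l, s⟩ ⟨pt b 0, pt c 0, s⟩ +
    (X ⟨pt p k, pt w 1, s⟩ ⟨pt b 0, pt c 0, s⟩ + X ⟨pt q l, pt w (-1), s⟩ ⟨pt b 0, pt c 0, s⟩)
    ≤ 2 * (X ⟨p, w, s⟩ ⟨b, c, s⟩ + X ⟨q, w, s⟩ ⟨b, c, s⟩) + (if b = w ∨ c = w then 1 else 0) := by
  by_cases hb : b = w
  · subst hb
    have := around_w hk hl hbc hc (s := s)
    rw [if_pos (Or.inl rfl)]
    omega
  by_cases hcw : c = w
  · subst hcw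
    have := around_w hk hl hbc.symm hc (s := s)
    rw [if_pos (Or.inr rfl)]
    have hsw : ∀ A : Arc (L ×ₗ ℤ), X A ⟨pt b 0, pt c 0, s⟩ = X A ⟨pt c 0, pt b 0, s⟩ := by
      intro A
      rw [X_comm, X_comm A]
      exact X_swap_left ⟨pt c 0, pt b 0, s⟩ A
    rw [hsw, hsw, hsw]
    omega
  · have e1 := X_par (p := p) (q := q) (b := b) (c := c) (k := k) (l := l) (s := s) (t := s)
      (fun h => absurd (h1 h) hcw) (fun h => absurd (h2 h) hb)
      (fun h => absurd (h3 h) hcw) (fun h => absurd (h4 h) hb)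
    have e2 := X_par (p := p) (q := w) (b := b) (c := c) (k := k) (l := 1) (s := s) (t := s)
      (fun h => absurd (h1 h) hcw) (fun h => absurd (h2 h) hb)
      (fun h => absurd h.symm hb) (fun h => absurd h.symm hcw)
    have e3 := X_par (p := q) (q := w) (b := b) (c := c) (k := l) (l := -1) (s := s) (t := s)
      (fun h => absurd (h3 h) hcw) (fun h => absurd (h4 h) hb)
      (fun h => absurd h.symm hb) (fun h => absurd h.symm hcw)
    have e4 := merge (p := p) (q := q) (s := s) hb hcw
    omega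

theorem turn {w b c : L} {k : ℤ} {s : Bool} (hk : k = 1 ∨ k = -1) :
    X ⟨pt w k, pt w (-k), s⟩ ⟨pt b 0, pt c 0, s⟩ ≤ (if b = w ∨ c = w then 1 else 0) := by
  unfold X Ilv Btw Ots
  simp only [pt_lt]
  rcases hk with rfl | rfl <;> grind (splits := 30)

theorem around_same {p q w : L} {k l : ℤ} {s : Bool} (hk : k = 1 ∨ k = -1)
    (hl : l = 1 ∨ l = -1) {B : Arc L} (hbc : B.p ≠ B.q)
    (h1 : B.up = s → p = B.p → B.q = w) (h2 : B.up = s → p = B.q → B.p = w)
    (h3 : B.up = s → q = B.p → B.q = w) (h4 : B.up = s → q = B.q → B.p = w)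
    (hc : (p < q ∧ q < w) ∨ (q < w ∧ w < p) ∨ (w < p ∧ p < q)) :
    crL [⟨pt p k, pt q l, s⟩, ⟨pt p k, pt w 1, s⟩, ⟨pt w 1, pt w (-1), !s⟩,
      ⟨pt q l, pt w (-1), s⟩] [B.map fun x => pt x 0]
    ≤ 2 * (X ⟨p, w, s⟩ B + X ⟨q, w, s⟩ B) + (if B.p = w ∨ B.q = w then 1 else 0) := by
  obtain ⟨b, c, t⟩ := B
  dsimp only at hbc h1 h2 h3 h4
  have e0 : (Arc.map (fun x => pt x 0) ⟨b, c, t⟩ : Arc (L ×ₗ ℤ)) = ⟨pt b 0, pt c 0, t⟩ := rfl
  simp only [crL_cons_left, crL_nil_left, List.map_cons, List.map_nil, List.sum_cons, List.sum_nil,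
    e0]
  by_cases ht : t = s
  · subst ht
    have e1 := around_same_aux hk hl hbc (h1 rfl) (h2 rfl) (h3 rfl) (h4 rfl) hc (s := t)
    have e2 : X ⟨pt w 1, pt w (-1), !t⟩ ⟨pt b 0, pt c 0, t⟩ = 0 :=
      X_page (by cases t <;> simp)
    rw [e2]
    omega
  · have ht' : t = !s := by
      cases t <;> cases s <;> simp_all
    subst ht'
    have e1 := turn (w := w) (b := b) (c := c) (k := 1) (s := !s) (Or.inl rfl)
    have e2 : ∀ α β : L ×ₗ ℤ, X ⟨α, β, s⟩ ⟨pt b 0, pt c 0, !s⟩ = 0 := fun α β =>
      X_page (by cases s <;> simp)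
    rw [e2, e2, e2]
    omega

end pointwise

/-! ### Summation -/

section sums

variable {V ι : Type} {N : Net V ι} {L : Type} [LinearOrder L] [Fintype ι] [DecidableEq ι]

theorem crL_sum_right {L : Type} [LinearOrder L] (P Q : List (Arc L)) :
    crL P Q = (Q.map fun B => crL P [B]).sum := by
  induction Q with
  | nil => rw [crL_nil_right]; rfl
  | cons B Q ih =>
    have : crL P (B :: Q) = crL P [B] + crL P Q := crL_append_right P [B] Q
    rw [this, ih, List.map_cons, List.sum_cons]

theorem crL_single_single {L : Type} [LinearOrder L] (A B : Arc L) : crL [A] [B] = X A B := by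
  simp [crL]

theorem C_single (D : Drawing N L) {e : ι} {A : Arc L} (h : crL [A] (D.path e) = 0) :
    ∑ i, crL [A] (D.path i) = C D e [A] := by
  unfold C
  refine sum_congr rfl fun i _ => ?_
  split_ifs with hi
  · rw [hi, h]
  · rfl

theorem sum_ends (D : Drawing N L) (hl : ∀ i, N.src i ≠ N.tgt i) (w : V) :
    ∑ i, ((D.path i).map fun B => if B.p = D.pos w ∨ B.q = D.pos w then 1 else 0).sum
      ≤ N.deg w := by
  classical
  unfold Net.deg
  rw [Finset.card_filter]
  refine sum_le_sum fun i _ => ?_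
  have h1 := countP_end (a := D.pos (N.src i)) (r := D.inner i) (s := D.last i)
    (b := D.pos (N.tgt i)) (w := D.pos w) (fun y hy => D.avoid i y hy w)
  refine h1.trans ?_
  have h2 := hl i
  by_cases h3 : N.src i = w
  · have h4 : ¬ N.tgt i = w := fun h => h2 (h3.trans h.symm)
    have h5 : ¬ D.pos (N.tgt i) = D.pos w := fun h => h4 (D.pos_inj h)
    rw [if_neg h5, if_pos (show N.Inc i w from Or.inl h3)]
    split_ifs <;> simp
  · have h5 : ¬ D.pos (N.src i) = D.pos w := fun h => h3 (D.pos_inj h)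
    rw [if_neg h5]
    by_cases h6 : N.tgt i = w
    · rw [if_pos (show N.Inc i w from Or.inr h6)]
      split_ifs <;> simp
    · have h7 : ¬ D.pos (N.tgt i) = D.pos w := fun h => h6 (D.pos_inj h)
      rw [if_neg h7]
      simp

theorem T_le_point (D : Drawing N L) (hl : ∀ i, N.src i ≠ N.tgt i) (P : List (Arc (L ×ₗ ℤ)))
    {A₁ A₂ : Arc L} {e₁ e₂ : ι} {w : V} (h1 : crL [A₁] (D.path e₁) = 0)
    (h2 : crL [A₂] (D.path e₂) = 0)
    (h : ∀ i, ∀ B ∈ D.path i, crL P [B.map fun x => pt x 0] ≤
      2 * (X A₁ B + X A₂ B) + (if B.p = D.pos w ∨ B.q = D.pos w then 1 else 0)) :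
    T D P ≤ 2 * (C D e₁ [A₁] + C D e₂ [A₂]) + N.deg w := by
  rw [← C_single D h1, ← C_single D h2, ← sum_add_distrib, mul_sum]
  refine le_trans ?_ (Nat.add_le_add_left (sum_ends D hl w) _)
  rw [← sum_add_distrib]
  refine sum_le_sum fun i _ => ?_
  rw [crL_sum_right, List.map_map]
  refine (List.sum_le_sum (fun B hB => h i B hB)).trans (le_of_eq ?_)
  rw [crL_single, crL_single]
  generalize D.path i = Q
  induction Q with
  | nil => rfl
  | cons B Q ih =>
    simp only [List.map_cons, List.sum_cons] at ih ⊢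
    rw [ih]
    ring

/-! ### The half of an edge from a row to its end -/

/-- `(r, s)` is the chain from the row `x` of the edge `e` to its end `w`; `t` is the page in which
the rest of the edge meets `x`. -/
structure Half (D : Drawing N L) (e : ι) (t : Bool) (x : L) (r : List (Bool × L)) (s : Bool)
    (w : V) : Prop where
  alt : Alt ((t, x) :: r) s
  nodup : (((t, x) :: r).map Prod.snd).Nodup
  sub : ∀ y ∈ (t, x) :: r, ∃ z ∈ D.inner e, z.2 = y.2
  mem : ∀ A ∈ arcs x r s (D.pos w), A ∈ D.path e ∨ A.swap ∈ D.path e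

theorem mem_arcs_ne {L : Type} {a : L} {r : List (Bool × L)} {s : Bool} {b : L}
    (hnd : (r.map Prod.snd).Nodup) (ha : ∀ y ∈ r, y.2 ≠ a) (hb : ∀ y ∈ r, y.2 ≠ b)
    (hab : a ≠ b) : ∀ A ∈ arcs a r s b, A.p ≠ A.q := by
  induction r generalizing a with
  | nil =>
    intro A hA
    simp only [arcs, List.mem_singleton] at hA
    subst hA
    exact hab
  | cons y r ih =>
    obtain ⟨t, p⟩ := y
    have hpa : p ≠ a := ha (t, p) (by simp)
    have hpb : p ≠ b := hb (t, p) (by simp)
    simp only [List.map_cons, List.nodup_cons] at hnd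
    intro A hA
    simp only [arcs, List.mem_cons] at hA
    rcases hA with rfl | hA
    · exact hpa.symm
    · refine ih hnd.2 (fun y hy he => hnd.1 (List.mem_map.2 ⟨y, hy, he⟩))
        (fun y hy => hb y (by simp [hy])) hpb A hA

theorem lst_mem {L : Type} (t : Bool) (x : L) (r : List (Bool × L)) :
    ∃ y ∈ (t, x) :: r, y.2 = lst x r := by
  induction r generalizing t x with
  | nil => exact ⟨(t, x), by simp, rfl⟩
  | cons y r ih =>
    obtain ⟨t', p⟩ := y
    obtain ⟨y, hy, h⟩ := ih t' p
    exact ⟨y, List.mem_cons_of_mem _ hy, h⟩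

namespace Half

variable {D : Drawing N L} {e : ι} {t : Bool} {x : L} {r : List (Bool × L)} {s : Bool} {w : V}

theorem lst_inner (H : Half D e t x r s w) : ∃ z ∈ D.inner e, z.2 = lst x r := by
  obtain ⟨y, hy, h⟩ := lst_mem t x r
  rw [← h]
  exact H.sub y hy

theorem lst_ne (H : Half D e t x r s w) (w' : V) : lst x r ≠ D.pos w' := by
  obtain ⟨z, hz, h⟩ := H.lst_inner
  rw [← h]
  exact D.avoid e z hz w'

theorem arc_mem (H : Half D e t x r s w) : (⟨lst x r, D.pos w, s⟩ : Arc L) ∈ D.path e ∨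
    (⟨lst x r, D.pos w, s⟩ : Arc L).swap ∈ D.path e :=
  H.mem _ (by rw [arcs_eq]; simp)

theorem arc_zero (H : Half D e t x r s w) (hcr : crL (D.path e) (D.path e) = 0) :
    crL [(⟨lst x r, D.pos w, s⟩ : Arc L)] (D.path e) = 0 := by
  rw [crL_single]
  refine List.sum_eq_zero ?_
  intro n hn
  obtain ⟨B, hB, rfl⟩ := List.mem_map.1 hn
  rcases H.arc_mem with h | h
  · exact crL_eq_zero hcr _ h B hB
  · rw [← X_swap_left]
    exact crL_eq_zero hcr _ h B hB

/-- The arcs at the last point. -/
theorem at_last (H : Half D e t x r s w) (hst : N.src e ≠ N.tgt e)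
    (halt : Alt (D.inner e) (D.last e)) : ∀ i, ∀ B ∈ D.path i, B.up = s →
      (lst x r = B.p → B.q = D.pos w) ∧ (lst x r = B.q → B.p = D.pos w) := by
  intro i B hB hs
  by_cases hi : i = e
  · subst hi
    have hw := H.lst_ne w
    rcases H.arc_mem with h | h
    · rcases path_pair hst halt _ h B hB with h1 | h1 | h1
      · subst h1
        exact ⟨fun _ => rfl, fun h2 => absurd h2 hw⟩
      · exact absurd hs.symm h1
      · exact ⟨fun h2 => absurd h2 h1.1, fun h2 => absurd h2 h1.2.1⟩
    · rcases path_pair hst halt _ h B hB with h1 | h1 | h1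
      · subst h1
        exact ⟨fun h2 => absurd h2 hw, fun _ => rfl⟩
      · exact absurd hs.symm h1
      · exact ⟨fun h2 => absurd h2 h1.2.2.1, fun h2 => absurd h2 h1.2.2.2⟩
  · obtain ⟨z, hz, h⟩ := H.lst_inner
    have h1 := inner_ne_end hi hz B hB
    rw [h] at h1
    exact ⟨fun h2 => absurd h2 h1.1, fun h2 => absurd h2 h1.2⟩

theorem T_part (H : Half D e t x r s w) (hst : N.src e ≠ N.tgt e)
    (halt : Alt (D.inner e) (D.last e)) (hcr : crL (D.path e) (D.path e) = 0) (side : Bool)
    (α : L ×ₗ ℤ) : T D (ini α (sh side ((t, x) :: r))) ≤ T D [⟨α, pt x (sg side t), t⟩]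
      + C D e (ini x r) := by
  rw [ini_sh side α t x r s H.alt, T_cons]
  refine Nat.add_le_add_left ?_ _
  refine T_copy hst halt hcr (copy_lift side ?_ ?_ ?_)
  · exact H.sub (t, x) (by simp)
  · intro y hy
    exact H.sub y (by simp [hy])
  · intro A hA
    exact H.mem A (by rw [arcs_eq]; simp [hA])

theorem C_part (H : Half D e t x r s w) : C D e (arcs x r s (D.pos w)) =
    C D e (ini x r) + C D e [⟨lst x r, D.pos w, s⟩] := by
  rw [arcs_eq, C_append]

end Half

end sums

/-! ### The two curves -/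

section core

variable {V ι : Type} [Fintype V] [Fintype ι] [DecidableEq ι] {N : Net V ι} {L : Type}
  [LinearOrder L] {D : Drawing N L} {u v : V}

theorem nodup_aux {α : Type} {A B X Y : List α} (hA : A.Nodup) (hB : B.Nodup)
    (hXY : (X ++ Y).Nodup) (hAB : ∀ a ∈ A, ∀ b ∈ B, a ≠ b) (hAX : ∀ a ∈ A, ∀ b ∈ X ++ Y, a ≠ b)
    (hBX : ∀ a ∈ B, ∀ b ∈ X ++ Y, a ≠ b) : ((A ++ X) ++ (B ++ Y)).Nodup := by
  simp only [List.nodup_append, List.mem_append] at *
  refine ⟨⟨hA, hXY.1, fun a ha b hb => hAX a ha b (Or.inl hb)⟩,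
    ⟨hB, hXY.2.1, fun a ha b hb => hBX a ha b (Or.inr hb)⟩, ?_⟩
  rintro a (ha | ha) b (hb | hb)
  · exact hAB a ha b hb
  · exact hAX a ha b (Or.inr hb)
  · exact (hBX b hb a (Or.inl ha)).symm
  · exact hXY.2.2 a ha b hb

theorem T_swap (D : Drawing N L) (a b : L ×ₗ ℤ) (s : Bool) :
    T D [⟨a, b, s⟩] = T D [⟨b, a, s⟩] := by
  unfold T
  refine sum_congr rfl fun i _ => ?_
  exact crL_swap_left [⟨b, a, s⟩] _

theorem half_curve (hN : N.Simple) (huv : u ≠ v) (hadj : ∀ i, s(N.src i, N.tgt i) ≠ s(u, v))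
    (h : D.Good u v) {e₁ e₂ : ι} (he : e₁ ≠ e₂) {t₁ t₂ s₁ s₂ : Bool} {x₁ x₂ : L}
    {r₁ r₂ : List (Bool × L)} {w : V} (H₁ : Half D e₁ t₁ x₁ r₁ s₁ w) (H₂ : Half D e₂ t₂ x₂ r₂ s₂ w)
    (X Y : List (Bool × (L ×ₗ ℤ))) (hXY : ((X ++ Y).map Prod.snd).Nodup)
    (hXw : ∀ x ∈ X ++ Y, ∃ k, k ≠ 0 ∧ x.2 = pt (D.pos w) k) (s a b : Bool) :
    D.rows u v ≤ T D (ini (pt (D.pos u) 0) (sh a ((t₁, x₁) :: r₁) ++ X))
      + T D [⟨lst (pt (D.pos u) 0) (sh a ((t₁, x₁) :: r₁) ++ X),
          lst (pt (D.pos v) 0) (sh b ((t₂, x₂) :: r₂) ++ Y), s⟩]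
      + T D (ini (pt (D.pos v) 0) (sh b ((t₂, x₂) :: r₂) ++ Y)) := by
  have key : ∀ {e : ι} {t s : Bool} {x : L} {r : List (Bool × L)} (H : Half D e t x r s w) (a : Bool),
      ∀ z ∈ (sh a ((t, x) :: r)).map Prod.snd, ∃ y ∈ D.inner e, ∃ k, z = pt y.2 k := by
    intro e t s x r H a z hz
    rw [sh, List.map_map] at hz
    obtain ⟨y, hy, rfl⟩ := List.mem_map.1 hz
    obtain ⟨y', hy', h1⟩ := H.sub y hy
    refine ⟨y', hy', sg a y.1, ?_⟩
    rw [h1]
    rfl
  have hw : ∀ z ∈ (X ++ Y).map Prod.snd, ∃ k, z = pt (D.pos w) k := by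
    intro z hz
    obtain ⟨y, hy, rfl⟩ := List.mem_map.1 hz
    obtain ⟨k, -, h1⟩ := hXw y hy
    exact ⟨k, h1⟩
  refine good_join hN huv hadj h _ _ s ?_ ?_
  · rw [List.map_append, List.map_append, List.map_append]
    rw [List.map_append] at hXY hw
    refine nodup_aux (nodup_sh H₁.nodup) (nodup_sh H₂.nodup) hXY ?_ ?_ ?_
    · intro z hz z' hz' hzz
      obtain ⟨y, hy, k, rfl⟩ := key H₁ a z hz
      obtain ⟨y', hy', k', rfl⟩ := key H₂ b z' hz'
      exact D.disj e₁ e₂ he y hy y' hy' (pt_inj.1 hzz).1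
    · intro z hz z' hz' hzz
      obtain ⟨y, hy, k, rfl⟩ := key H₁ a z hz
      obtain ⟨k', rfl⟩ := hw z' hz'
      exact D.avoid e₁ y hy w (pt_inj.1 hzz).1
    · intro z hz z' hz' hzz
      obtain ⟨y, hy, k, rfl⟩ := key H₂ b z hz
      obtain ⟨k', rfl⟩ := hw z' hz'
      exact D.avoid e₂ y hy w (pt_inj.1 hzz).1
  · intro z hz
    rcases List.mem_append.1 hz with hz | hz <;> rcases List.mem_append.1 hz with hz | hz
    · exact fresh_sh z hz
    · obtain ⟨k, hk, h1⟩ := hXw z (by simp [hz])
      exact ⟨_, k, hk, h1⟩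
    · exact fresh_sh z hz
    · obtain ⟨k, hk, h1⟩ := hXw z (by simp [hz])
      exact ⟨_, k, hk, h1⟩

theorem pcl_core (hN : N.Simple) (huv : u ≠ v) (hadj : ∀ i, s(N.src i, N.tgt i) ≠ s(u, v))
    (h : D.Good u v) {e₁ e₂ : ι} (he : e₁ ≠ e₂) {t₁ t₂ s₁ s₂ : Bool} {x₁ x₂ : L}
    {r₁ r₂ : List (Bool × L)} {w : V} (H₁ : Half D e₁ t₁ x₁ r₁ s₁ w) (H₂ : Half D e₂ t₂ x₂ r₂ s₂ w)
    (hx₁ : D.pos u < x₁ ∧ x₁ < D.pos v) (hx₂ : D.pos u < x₂ ∧ x₂ < D.pos v) :
    2 * D.rows u v ≤ 2 * ((∑ i, (D.inner i).countP (fun z => D.pos u < z.2 ∧ z.2 < x₁))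
        + ∑ i, (D.inner i).countP (fun z => x₂ < z.2 ∧ z.2 < D.pos v))
      + 2 * (C D e₁ (arcs x₁ r₁ s₁ (D.pos w)) + C D e₂ (arcs x₂ r₂ s₂ (D.pos w))) + N.deg w := by
  have halt := Drawing.good_alt hN h
  have hcr := Drawing.good_nocross hN h
  have hst := hN.loopless
  have hnv := h.nf.2
  have hl₁ : ∀ α, lst α (sh (!t₁) ((t₁, x₁) :: r₁)) = pt (lst x₁ r₁) (-(sg (!t₁) s₁)) :=
    fun α => lst_sh _ _ _ _ _ _ H₁.alt
  have hl₂ : ∀ α, lst α (sh t₂ ((t₂, x₂) :: r₂)) = pt (lst x₂ r₂) (-(sg t₂ s₂)) :=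
    fun α => lst_sh _ _ _ _ _ _ H₂.alt
  have hT₁ := H₁.T_part (hst e₁) (halt e₁) (hcr e₁) (!t₁) (pt (D.pos u) 0)
  have hT₂ := H₂.T_part (hst e₂) (halt e₂) (hcr e₂) t₂ (pt (D.pos v) 0)
  have hs₁ : sg (!t₁) t₁ = -1 := by
    unfold sg
    cases t₁ <;> simp
  have hs₂ : sg t₂ t₂ = 1 := by
    unfold sg
    simp
  rw [hs₁] at hT₁
  rw [hs₂] at hT₂
  have f₁ := T_spine D halt (α := pt (D.pos u) 0) (β := pt x₁ (-1)) (s := t₁) (by
      intro w hw
      simp only [Btw, pt_lt] at hw
      apply hnv w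
      grind) (fun z => D.pos u < z ∧ z < x₁) (by
      intro z hz
      simp only [Btw, pt_lt] at hz
      grind)
  have f₂ := T_spine D halt (α := pt (D.pos v) 0) (β := pt x₂ 1) (s := t₂) (by
      intro w hw
      simp only [Btw, pt_lt] at hw
      apply hnv w
      grind) (fun z => x₂ < z ∧ z < D.pos v) (by
      intro z hz
      simp only [Btw, pt_lt] at hz
      grind)
  have hC₁ := H₁.C_part
  have hC₂ := H₂.C_part
  have hz₁ := H₁.arc_zero (hcr e₁)
  have hz₂ := H₂.arc_zero (hcr e₂)
  have hp₁ := H₁.lst_ne w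
  have hp₂ := H₂.lst_ne w
  have ha₁ := H₁.at_last (hst e₁) (halt e₁)
  have ha₂ := H₂.at_last (hst e₂) (halt e₂)
  have hpq : lst x₁ r₁ ≠ lst x₂ r₂ := by
    obtain ⟨z, hz, h1⟩ := H₁.lst_inner
    obtain ⟨z', hz', h2⟩ := H₂.lst_inner
    rw [← h1, ← h2]
    exact D.disj e₁ e₂ he z hz z' hz'
  have hbc : ∀ i, ∀ B ∈ D.path i, B.p ≠ B.q := fun i =>
    mem_arcs_ne (D.nodup i) (fun y hy => D.avoid i y hy _) (fun y hy => D.avoid i y hy _)
      (fun h => hst i (D.pos_inj h))
  have hk₁ : -(sg (!t₁) s₁) = 1 ∨ -(sg (!t₁) s₁) = -1 := by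
    rcases sg_cases (!t₁) s₁ with h | h <;> rw [h] <;> simp
  have hk₂ : -(sg t₂ s₂) = 1 ∨ -(sg t₂ s₂) = -1 := by
    rcases sg_cases t₂ s₂ with h | h <;> rw [h] <;> simp
  by_cases hss : s₁ = s₂
  · subst hss
    have hcyc : ∀ {a b c : L}, a ≠ c → b ≠ c → a ≠ b →
        ((a < b ∧ b < c) ∨ (b < c ∧ c < a) ∨ (c < a ∧ a < b)) ∨
        ((b < a ∧ a < c) ∨ (a < c ∧ c < b) ∨ (c < b ∧ b < a)) := by
      intro a b c h1 h2 h3
      grind
    have hj := half_curve hN huv hadj h he H₁ H₂ [] [] (by simp) (by simp) s₁ (!t₁) t₂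
    rw [List.append_nil, List.append_nil, hl₁, hl₂] at hj
    rcases hcyc hp₁ hp₂ hpq with hc | hc
    · have hj' := half_curve hN huv hadj h he H₁ H₂ [(s₁, pt (D.pos w) 1)]
        [(s₁, pt (D.pos w) (-1))] (by simp [pt_inj]) (by
          intro x hx
          simp only [List.cons_append, List.nil_append, List.mem_cons, List.not_mem_nil,
            or_false] at hx
          rcases hx with rfl | rfl
          · exact ⟨1, by norm_num, rfl⟩
          · exact ⟨-1, by norm_num, rfl⟩) (!s₁) (!t₁) t₂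
      rw [ini_append, ini_append, lst_append, lst_append, arcs_eq, arcs_eq, hl₁, hl₂, T_append,
        T_append] at hj'
      have hm := T_le_point D hst _ hz₁ hz₂ (w := w) (fun i B hB =>
        around_same hk₁ hk₂ (hbc i B hB) (fun hs => (ha₁ i B hB hs).1)
          (fun hs => (ha₁ i B hB hs).2) (fun hs => (ha₂ i B hB hs).1)
          (fun hs => (ha₂ i B hB hs).2) hc)
      rw [T_cons, T_cons D _ [_, _], T_cons D _ [_]] at hm
      omega
    · have hj' := half_curve hN huv hadj h he H₁ H₂ [(s₁, pt (D.pos w) (-1))]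
        [(s₁, pt (D.pos w) 1)] (by simp [pt_inj]) (by
          intro x hx
          simp only [List.cons_append, List.nil_append, List.mem_cons, List.not_mem_nil,
            or_false] at hx
          rcases hx with rfl | rfl
          · exact ⟨-1, by norm_num, rfl⟩
          · exact ⟨1, by norm_num, rfl⟩) (!s₁) (!t₁) t₂
      rw [ini_append, ini_append, lst_append, lst_append, arcs_eq, arcs_eq, hl₁, hl₂, T_append,
        T_append] at hj'
      have hm := T_le_point D hst _ hz₂ hz₁ (w := w) (fun i B hB =>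
        around_same hk₂ hk₁ (hbc i B hB) (fun hs => (ha₂ i B hB hs).1)
          (fun hs => (ha₂ i B hB hs).2) (fun hs => (ha₁ i B hB hs).1)
          (fun hs => (ha₁ i B hB hs).2) hc)
      rw [T_cons, T_cons D _ [_, _], T_cons D _ [_]] at hm
      have g₁ := T_swap D (pt (lst x₂ r₂) (-(sg t₂ s₁))) (pt (lst x₁ r₁) (-(sg (!t₁) s₁))) s₁
      have g₂ := T_swap D (pt (D.pos w) 1) (pt (D.pos w) (-1)) (!s₁)
      omega
  · have hj : ∀ k : ℤ, k ≠ 0 → _ := fun k hk => half_curve hN huv hadj h he H₁ H₂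
      [(s₁, pt (D.pos w) k)] [] (by simp) (by
          intro x hx
          simp only [List.append_nil, List.mem_cons, List.not_mem_nil, or_false] at hx
          subst hx
          exact ⟨k, hk, rfl⟩) s₂ (!t₁) t₂
    have hj₁ := hj 1 (by norm_num)
    have hj₂ := hj (-1) (by norm_num)
    rw [List.append_nil, ini_append, lst_append, arcs_eq, hl₁, hl₂, T_append] at hj₁ hj₂
    have hm := T_le_point D hst _ hz₁ hz₂ (w := w) (fun i B hB =>
      around_diff hss hk₁ hk₂ hp₁ hp₂ (hbc i B hB) (fun hs => (ha₁ i B hB hs).1)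
        (fun hs => (ha₁ i B hB hs).2) (fun hs => (ha₂ i B hB hs).1)
        (fun hs => (ha₂ i B hB hs).2))
    rw [T_cons, T_cons D _ [_, _], T_cons D _ [_]] at hm
    omega

end core

end Par

namespace Std

variable {V ι : Type} [Fintype V] [DecidableEq V] [Fintype ι] [DecidableEq ι] {N : Net V ι}
  {L : Type} [LinearOrder L] {u v : V} (S : Std N L u v)

theorem pcl_half (a : Fin S.n × Bool) : ∃ (t : Bool) (r : List (Bool × L)) (s : Bool),
    Par.Half S.D (S.row a.1) t (S.x a.1) r s (S.e a) ∧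
    Par.C S.D (S.row a.1) (arcs (S.x a.1) r s (S.D.pos (S.e a))) = S.c a := by
  obtain ⟨a, b⟩ := a
  have hin := S.inner_eq a
  have halt := S.alt (S.row a)
  have hnd := S.D.nodup (S.row a)
  rw [hin] at halt hnd
  rw [Par.alt_append] at halt
  cases b with
  | true =>
    refine ⟨false, S.hi a, S.D.last (S.row a), ⟨?_, ?_, ?_, ?_⟩, rfl⟩
    · rw [Par.alt_cons]
      exact halt.2
    · exact hnd.sublist (List.Sublist.map _ (List.sublist_append_right _ _))
    · intro y hy
      exact ⟨y, by rw [hin]; exact List.mem_append_right _ hy, rfl⟩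
    · intro A hA
      left
      rw [Drawing.path, hin, Par.arcs_append]
      exact List.mem_append_right _ hA
  | false =>
    refine ⟨true, (rev (S.lo a) false).1, (rev (S.lo a) false).2, ⟨?_, ?_, ?_, ?_⟩, ?_⟩
    · rw [Par.alt_cons, Par.hd_rev]
      exact ⟨by simp, Par.alt_rev _ _ halt.1⟩
    · rw [List.map_cons, Par.rev_pts]
      have h1 : ((S.lo a ++ [(false, S.x a)]).map Prod.snd).Nodup := by
        refine hnd.sublist (List.Sublist.map _ (List.Sublist.append (List.Sublist.refl _) ?_))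
        exact List.Sublist.cons_cons _ (List.nil_sublist _)
      rw [List.map_append] at h1
      refine (List.Perm.nodup_iff ?_).1 h1
      refine (List.perm_append_singleton _ _).trans ?_
      exact List.Perm.cons _ (List.reverse_perm _).symm
    · intro y hy
      rcases List.mem_cons.1 hy with rfl | hy
      · exact ⟨(false, S.x a), by rw [hin]; simp, rfl⟩
      · have h3 : y.2 ∈ (rev (S.lo a) false).1.map Prod.snd := List.mem_map.2 ⟨y, hy, rfl⟩
        rw [Par.rev_pts, List.mem_reverse] at h3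
        obtain ⟨y', hy', h4⟩ := List.mem_map.1 h3
        exact ⟨y', by rw [hin]; simp [hy'], h4⟩
    · intro A hA
      right
      have hA' : A ∈ arcs (S.x a) (rev (S.lo a) false).1 (rev (S.lo a) false).2
          (S.D.pos (N.src (S.row a))) := hA
      rw [Par.arcs_rev, List.mem_reverse] at hA'
      obtain ⟨B, hB, rfl⟩ := List.mem_map.1 hA'
      rw [Drawing.path, hin, Par.arcs_append]
      exact List.mem_append_left _ hB
    · exact Par.C_rev S.D (S.row a) (S.D.pos (N.src (S.row a))) (S.lo a) false (S.x a)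

/-- Counting rows. -/
theorem pcl_count (p : L → Prop) [DecidablePred p]
    (hp : ∀ z, p z → S.D.pos u < z ∧ z < S.D.pos v) :
    ∑ i, (S.D.inner i).countP (fun z => p z.2) = ∑ t, if p (S.x t) then 1 else 0 := by
  symm
  refine Finset.sum_of_injOn S.row (fun a _ b _ h => S.row_inj h) (fun _ _ => by simp) ?_ ?_
  · intro i _ hi
    refine List.countP_eq_zero.2 fun z hz => ?_
    have h1 := S.other i (fun t ht => hi ⟨t, by simp, ht⟩) z hz
    simp only [decide_eq_true_eq]
    exact fun h => h1 (hp _ h)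
  · intro t _
    rw [S.inner_eq t, List.countP_append, List.countP_cons]
    have h1 : (S.lo t).countP (fun z => decide (p z.2)) = 0 := by
      refine List.countP_eq_zero.2 fun z hz => ?_
      simp only [decide_eq_true_eq]
      exact fun h => S.lo_out t z hz (hp _ h)
    have h2 : (S.hi t).countP (fun z => decide (p z.2)) = 0 := by
      refine List.countP_eq_zero.2 fun z hz => ?_
      simp only [decide_eq_true_eq]
      exact fun h => S.hi_out t z hz (hp _ h)
    rw [h1, h2]
    simp

theorem pcl_rows : S.D.rows u v = S.n := by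
  have h := S.pcl_count (fun z => S.D.pos u < z ∧ z < S.D.pos v) (fun z hz => hz)
  unfold Drawing.rows Drawing.rowsOf
  rw [h]
  simp only [S.x_btw, and_self, if_true, sum_const, card_univ, Fintype.card_fin, smul_eq_mul,
    mul_one]

/-- D5 (parallel curves). -/
theorem pcl (a b : Fin S.n × Bool) (hab : S.e a = S.e b) (hlt : a.1 < b.1) :
    2 * (b.1.val - a.1.val + 1) ≤ 2 * (S.c a + S.c b) + N.deg (S.e a) := by
  have huv : u ≠ v := by
    intro h
    exact absurd (congrArg S.D.pos h) S.good.nf.1.ne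
  obtain ⟨t₁, r₁, s₁, H₁, hC₁⟩ := S.pcl_half a
  obtain ⟨t₂, r₂, s₂, H₂, hC₂⟩ := S.pcl_half b
  rw [← hab] at H₂ hC₂
  have he : S.row a.1 ≠ S.row b.1 := fun h => hlt.ne (S.row_inj h)
  have h := Par.pcl_core S.simple huv S.nadj S.good he H₁ H₂ (S.x_btw a.1) (S.x_btw b.1)
  rw [hC₁, hC₂, S.pcl_rows, S.pcl_count (fun z => S.D.pos u < z ∧ z < S.x a.1)
    (fun z hz => ⟨hz.1, hz.2.trans (S.x_btw a.1).2⟩),
    S.pcl_count (fun z => S.x b.1 < z ∧ z < S.D.pos v)
    (fun z hz => ⟨(S.x_btw b.1).1.trans hz.1, hz.2⟩)] at h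
  have h1 : (∑ t, if S.D.pos u < S.x t ∧ S.x t < S.x a.1 then 1 else 0) = a.1.val := by
    rw [← Fin.card_Iio a.1, ← Finset.card_filter]
    congr 1
    ext t
    simp only [mem_filter, mem_univ, true_and, mem_Iio, S.x_mono.lt_iff_lt, (S.x_btw t).1]
  have h2 : (∑ t, if S.x b.1 < S.x t ∧ S.x t < S.D.pos v then 1 else 0) = S.n - 1 - b.1.val := by
    rw [← Fin.card_Ioi b.1, ← Finset.card_filter]
    congr 1
    ext t
    simp only [mem_filter, mem_univ, true_and, mem_Ioi, S.x_mono.lt_iff_lt, (S.x_btw t).2,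
      and_true]
  rw [h1, h2] at h
  have h3 := b.1.isLt
  have h4 : a.1.val < b.1.val := hlt
  omega

end Std

end MP60f107

end

section

/-!
D4d: existence of a standard form.
-/

namespace MP60f107

open Finset

variable {V ι : Type}

namespace SF

variable [Fintype V] [Fintype ι] [DecidableEq ι]

omit [Fintype ι] [DecidableEq ι] in
theorem exists_any (N : Net V ι) : ∃ (L : Type) (_ : LinearOrder L), Nonempty (Drawing N L) := by
  refine ⟨Fin (Fintype.card V), inferInstance, ⟨⟨Fintype.equivFin V, fun _ => [], fun _ => false,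
    (Fintype.equivFin V).injective, ?_, ?_, ?_⟩⟩⟩
  · intro i
    simp
  · intro i j _ x hx
    simp at hx
  · intro i x hx
    simp at hx

theorem exists_good {N : Net V ι} (hN : N.Simple) {u v : V} (huv : u ≠ v)
    (hadj : ∀ i, s(N.src i, N.tgt i) ≠ s(u, v)) :
    ∃ (L : Type) (_ : LinearOrder L) (D : Drawing N L), D.Good u v := by
  classical
  -- an optimal drawing
  have h0 : ∃ k : ℕ, ∃ (L : Type) (_ : LinearOrder L) (D : Drawing N L), D.dcr = k := by
    obtain ⟨L, i1, ⟨D⟩⟩ := exists_any N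
    exact ⟨D.dcr, L, i1, D, rfl⟩
  obtain ⟨L0, i0, D0, hD0⟩ := Nat.find_spec h0
  have hmin0 : ∀ (L' : Type) [LinearOrder L'] (D' : Drawing N L'), Nat.find h0 ≤ D'.dcr :=
    fun L' _ D' => Nat.find_min' h0 ⟨L', _, D', rfl⟩
  set k0 := Nat.find h0 with hk0
  -- normal form
  have h1 : ∃ r : ℕ, ∃ (L : Type) (_ : LinearOrder L) (D : Drawing N L), D.NF u v ∧ D.dcr ≤ k0 ∧
      D.rows u v = r := by
    obtain ⟨L1, i1, D1, h2, h3, -⟩ := finger hN huv hadj D0 [] true (by simp) (by simp) (by simp)
    exact ⟨_, L1, i1, D1, h2, h3.trans hD0.le, rfl⟩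
  obtain ⟨L1, i1, D1, hnf1, hd1, hr1⟩ := Nat.find_spec h1
  have hmin1 : ∀ (L' : Type) [LinearOrder L'] (D' : Drawing N L'), D'.NF u v → D'.dcr ≤ k0 →
      Nat.find h1 ≤ D'.rows u v :=
    fun L' _ D' h2 h3 => Nat.find_min' h1 ⟨L', _, D', h2, h3, rfl⟩
  set r0 := Nat.find h1 with hr0
  have h2 : ∃ m : ℕ, ∃ (L : Type) (_ : LinearOrder L) (D : Drawing N L), D.NF u v ∧ D.dcr ≤ k0 ∧
      D.rows u v ≤ r0 ∧ D.size = m := ⟨_, L1, i1, D1, hnf1, hd1, hr1.le, rfl⟩
  obtain ⟨L2, i2, D2, hnf2, hd2, hr2, hs2⟩ := Nat.find_spec h2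
  have hmin2 : ∀ (L' : Type) [LinearOrder L'] (D' : Drawing N L'), D'.NF u v → D'.dcr ≤ k0 →
      D'.rows u v ≤ r0 → Nat.find h2 ≤ D'.size :=
    fun L' _ D' h3 h4 h5 => Nat.find_min' h2 ⟨L', _, D', h3, h4, h5, rfl⟩
  refine ⟨L2, i2, D2, hnf2, ?_, ?_, ?_⟩
  · intro L' _ D'
    exact hd2.trans (hmin0 L' D')
  · intro L' _ D' h3 h4
    exact hr2.trans (hmin1 L' D' h3 (h4.trans hd2))
  · intro L' _ D' h3 h4 h5
    rw [hs2]
    exact hmin2 L' D' h3 (h4.trans hd2) (h5.trans hr2)

end SF

variable [Fintype V] [Fintype ι] [DecidableEq ι]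

/-- D4d (normalisation): there is a standard form for a suitable orientation of the edges. -/
theorem exists_std {N : Net V ι} (hN : N.Simple) {u v : V} (huv : u ≠ v)
    (hadj : ∀ i, s(N.src i, N.tgt i) ≠ s(u, v)) :
    ∃ (S : ι → Bool) (L : Type) (_ : LinearOrder L), Nonempty (Std (N.flip S) L u v) := by
  classical
  obtain ⟨L, iL, D₀, hgood₀⟩ := SF.exists_good hN huv hadj
  -- orientation
  let S : ι → Bool := fun i => decide (∃ y ∈ D₀.inner i, (D₀.pos u < y.2 ∧ y.2 < D₀.pos v) ∧
    y.1 = true)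
  have hkey : ∀ i, s((N.flip S).src i, (N.flip S).tgt i) = s(N.src i, N.tgt i) := by
    intro i
    unfold Net.flip
    dsimp only
    split
    · exact Sym2.eq_swap
    · rfl
  have hN' : (N.flip S).Simple := hN.flip S
  have hadj' : ∀ i, s((N.flip S).src i, (N.flip S).tgt i) ≠ s(u, v) := by
    intro i
    rw [hkey]
    exact hadj i
  have hgood : (D₀.flip S).Good u v := hgood₀.flip S
  -- rows of `D₀` come from below after the flip
  have hlow : ∀ i, ∀ y ∈ (D₀.flip S).inner i, ((D₀.flip S).pos u < y.2 ∧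
      y.2 < (D₀.flip S).pos v) → y.1 = false := by
    intro i y hy hbt
    have hbt0 : D₀.pos u < y.2 ∧ y.2 < D₀.pos v := hbt
    have hle := Drawing.good_rows_le_one hN huv hadj hgood₀ i
    have halt := Drawing.good_alt hN hgood₀ i
    rw [Drawing.flip_inner] at hy
    split at hy
    · rename_i hS
      obtain ⟨z, hz, hzb, hz1⟩ : ∃ y ∈ D₀.inner i, (D₀.pos u < y.2 ∧ y.2 < D₀.pos v) ∧
          y.1 = true := by simpa [S] using hS
      obtain ⟨lo, hi, hlh⟩ := List.append_of_mem hz
      obtain ⟨b, x⟩ := z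
      simp only at hz1 hzb
      subst hz1
      have hcount : lo.countP (fun x => decide (D₀.pos u < x.2 ∧ x.2 < D₀.pos v)) = 0 ∧
          hi.countP (fun x => decide (D₀.pos u < x.2 ∧ x.2 < D₀.pos v)) = 0 := by
        unfold Drawing.rowsOf at hle
        rw [hlh, List.countP_append, List.countP_cons] at hle
        simp only [hzb, and_self, decide_true, if_true] at hle
        omega
      rw [hlh, rev_append] at hy
      simp only [List.mem_append, List.mem_cons] at hy
      rcases hy with hy | hy | hy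
      · exfalso
        have h3 : y.2 ∈ (rev hi (D₀.last i)).1.map Prod.snd := List.mem_map_of_mem hy
        rw [map_snd_rev, List.mem_reverse, List.mem_map] at h3
        obtain ⟨z, hz, hzy⟩ := h3
        have := List.countP_eq_zero.1 hcount.2 z hz
        rw [hzy] at this
        simp only [decide_eq_true_eq] at this
        exact this hbt0
      · rw [hy, rev_snd]
        simp only
        rw [hlh, Alt_append] at halt
        have := halt
        grind
      · exfalso
        have h3 : y.2 ∈ (rev lo true).1.map Prod.snd := List.mem_map_of_mem hy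
        rw [map_snd_rev, List.mem_reverse, List.mem_map] at h3
        obtain ⟨z, hz, hzy⟩ := h3
        have := List.countP_eq_zero.1 hcount.1 z hz
        rw [hzy] at this
        simp only [decide_eq_true_eq] at this
        exact this hbt0
    · rename_i hS
      by_contra hcon
      apply hS
      simp only [S, decide_eq_true_eq]
      exact ⟨y, hy, hbt0, by simpa using hcon⟩
  generalize D₀.flip S = D at hgood hlow
  -- row points
  have hle := Drawing.good_rows_le_one hN' huv hadj' hgood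
  let P : Finset L := (Finset.univ : Finset ι).biUnion fun i =>
    (((D.inner i).map Prod.snd).toFinset).filter fun z => D.pos u < z ∧ z < D.pos v
  have hP : ∀ z, z ∈ P ↔ ∃ i, ∃ y ∈ D.inner i, y.2 = z ∧ (D.pos u < z ∧ z < D.pos v) := by
    intro z
    simp only [P, Finset.mem_biUnion, Finset.mem_univ, true_and, Finset.mem_filter,
      List.mem_toFinset, List.mem_map]
    constructor
    · rintro ⟨i, ⟨y, hy, hyz⟩, h⟩
      exact ⟨i, y, hy, hyz, h⟩
    · rintro ⟨i, y, hy, hyz, h⟩
      exact ⟨i, ⟨y, hy, hyz⟩, h⟩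
  have hx : ∀ t : Fin P.card, ∃ (i : ι) (lo hi : List (Bool × L)),
      D.inner i = lo ++ (false, P.orderEmbOfFin rfl t) :: hi := by
    intro t
    obtain ⟨i, y, hy, hyz, hb⟩ := (hP _).1 (P.orderEmbOfFin_mem rfl t)
    have h1 := hlow i y hy (by rw [hyz]; exact hb)
    obtain ⟨lo, hi, hlh⟩ := List.append_of_mem hy
    refine ⟨i, lo, hi, ?_⟩
    rw [hlh, ← hyz, ← h1]
  have hbtw : ∀ t : Fin P.card, D.pos u < P.orderEmbOfFin rfl t ∧
      P.orderEmbOfFin rfl t < D.pos v := by
    intro t
    obtain ⟨i, y, hy, hyz, hb⟩ := (hP _).1 (P.orderEmbOfFin_mem rfl t)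
    exact hb
  choose row lo hi hin using hx
  have hmem : ∀ t, (false, P.orderEmbOfFin rfl t) ∈ D.inner (row t) := by
    intro t
    rw [hin t]
    simp
  have hcount : ∀ t, (lo t).countP (fun x => decide (D.pos u < x.2 ∧ x.2 < D.pos v)) = 0 ∧
      (hi t).countP (fun x => decide (D.pos u < x.2 ∧ x.2 < D.pos v)) = 0 := by
    intro t
    have h1 := hle (row t)
    unfold Drawing.rowsOf at h1
    rw [hin t, List.countP_append, List.countP_cons] at h1
    simp only [hbtw t, and_self, decide_true, if_true] at h1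
    omega
  refine ⟨S, L, iL, ⟨⟨D, hgood, hN', hadj', P.card, row, fun t => P.orderEmbOfFin rfl t, lo, hi, ?_,
    ?_, hbtw, hin, ?_, ?_, ?_, ?_, Drawing.good_alt hN' hgood, Drawing.good_nocross hN' hgood,
    Drawing.good_adj hN' hgood⟩⟩⟩
  · -- one row per edge
    intro t t' htt
    by_contra hne
    have h1 := hmem t'
    rw [← htt, hin t] at h1
    simp only [List.mem_append, List.mem_cons, Prod.mk.injEq, true_and] at h1
    rcases h1 with h1 | h1 | h1
    · have := List.countP_eq_zero.1 (hcount t).1 _ h1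
      simp only [decide_eq_true_eq] at this
      exact this (hbtw t')
    · exact hne ((P.orderEmbOfFin rfl).injective h1.symm)
    · have := List.countP_eq_zero.1 (hcount t).2 _ h1
      simp only [decide_eq_true_eq] at this
      exact this (hbtw t')
  · exact (P.orderEmbOfFin rfl).strictMono
  · intro t y hy hb
    have := List.countP_eq_zero.1 (hcount t).1 _ hy
    simp only [decide_eq_true_eq] at this
    exact this hb
  · intro t y hy hb
    have := List.countP_eq_zero.1 (hcount t).2 _ hy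
    simp only [decide_eq_true_eq] at this
    exact this hb
  · intro i hi y hy hb
    have h1 : y.2 ∈ P := (hP _).2 ⟨i, y, hy, rfl, hb⟩
    have h2 : y.2 ∈ Set.range (P.orderEmbOfFin rfl) := by
      rw [Finset.range_orderEmbOfFin]
      exact h1
    obtain ⟨t, ht⟩ := h2
    have h3 := hmem t
    exact D.disj (row t) i (hi t) _ h3 _ hy ht
  · intro t
    have h1 : D.rowsOf u v (row t) ≠ 0 := by
      unfold Drawing.rowsOf
      intro h0
      have := List.countP_eq_zero.1 h0 _ (hmem t)
      simp only [decide_eq_true_eq] at this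
      exact this (hbtw t)
    constructor
    · intro hc
      exact h1 (Drawing.good_rows_inc hN' huv hadj' hgood (row t) (Or.inl hc))
    · intro hc
      exact h1 (Drawing.good_rows_inc hN' huv hadj' hgood (row t) (Or.inr hc))

end MP60f107

end

section

/-!
D6: relocation of a vertex all of whose edges have a row.
-/

namespace MP60f107

open Finset

namespace D6

/-- Sum of the distances of opposite positions. -/
theorem sum_opp (d : ℕ) : 2 * ∑ j ∈ range d, |2 * (j : ℤ) + 1 - d| = (d : ℤ) ^ 2 - (d % 2 : ℕ) := by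
  induction d using Nat.strong_induction_on with
  | _ d ih =>
    rcases d with _ | _ | d
    · simp
    · simp
    · rw [Finset.sum_range_succ, Finset.sum_range_succ']
      have h1 := ih d (by omega)
      have h2 : ∀ j : ℕ, |2 * ((j + 1 : ℕ) : ℤ) + 1 - ((d + 1 + 1 : ℕ) : ℤ)|
          = |2 * (j : ℤ) + 1 - d| := by
        intro j; congr 1; push_cast; ring
      simp only [h2]
      have h3 : |2 * ((0 : ℕ) : ℤ) + 1 - ((d + 1 + 1 : ℕ) : ℤ)| = d + 1 := by
        rw [abs_of_nonpos (by push_cast; omega)]; push_cast; ring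
      have h4 : |2 * (d : ℤ) + 1 - (d : ℤ)| = d + 1 := by
        rw [abs_of_nonneg (by omega)]; ring
      rw [h3, h4]
      have h5 : (d + 1 + 1) % 2 = d % 2 := by omega
      rw [h5]
      have h6 : ((d + 1 + 1 : ℕ) : ℤ) = (d : ℤ) + 2 := by push_cast; ring
      rw [h6]
      linarith

/-- The combinatorial contradiction. -/
theorem comb {n : ℕ} (T : Finset (Fin n)) (c : Fin n → ℕ)
    (h1 : ∀ t ∈ T, ∀ t' ∈ T, t < t' → 2 * (t'.val - t.val + 1) ≤ 2 * (c t + c t') + T.card)
    (h2 : ∀ m ∈ T, ∑ t ∈ T, c t ≤ ∑ t ∈ T, (univ.filter fun r => r ∉ T ∧ Btw t m r).card) :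
    T.card ≤ 1 := by
  classical
  by_contra hcard
  push Not at hcard
  set d := T.card with hd
  let τ : Fin d → Fin n := T.orderEmbOfFin hd.symm
  have hτ : StrictMono τ := (T.orderEmbOfFin hd.symm).strictMono
  have hτT : ∀ j, τ j ∈ T := fun j => T.orderEmbOfFin_mem hd.symm j
  have hsum : ∀ f : Fin n → ℤ, ∑ t ∈ T, f t = ∑ j, f (τ j) := by
    intro f
    have : T = univ.image τ := by
      ext t
      simp only [mem_image, mem_univ, true_and]
      have h := T.range_orderEmbOfFin hd.symm
      constructor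
      · intro ht
        have : t ∈ Set.range (T.orderEmbOfFin hd.symm) := by rw [h]; exact ht
        exact this
      · rintro ⟨j, rfl⟩; exact hτT j
    conv_lhs => rw [this]
    rw [Finset.sum_image (fun a _ b _ h => hτ.injective h)]
  let m : Fin d := ⟨(d - 1) / 2, by omega⟩
  -- bound of the number of other rows between
  have hM : ∀ j : Fin d, ((univ.filter fun r => r ∉ T ∧ Btw (τ j) (τ m) r).card : ℤ)
      + |(j : ℤ) - m| ≤ |((τ j).val : ℤ) - (τ m).val| := by
    have key : ∀ i j : Fin d, i < j → ((univ.filter fun r => r ∉ T ∧ τ i < r ∧ r < τ j).card : ℤ)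
        + ((j : ℤ) - i) ≤ ((τ j).val : ℤ) - (τ i).val := by
      intro i j hij
      have e1 : (univ.filter fun r => r ∉ T ∧ τ i < r ∧ r < τ j) ∪ (Ioo i j).image τ
          ⊆ Ioo (τ i) (τ j) := by
        intro r hr
        rw [mem_union, mem_filter, mem_image] at hr
        rw [mem_Ioo]
        rcases hr with ⟨-, -, h⟩ | ⟨k, hk, rfl⟩
        · exact h
        · rw [mem_Ioo] at hk
          exact ⟨hτ hk.1, hτ hk.2⟩
      have e2 : Disjoint (univ.filter fun r => r ∉ T ∧ τ i < r ∧ r < τ j) ((Ioo i j).image τ) := by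
        rw [Finset.disjoint_left]
        intro r hr hr'
        rw [mem_filter] at hr
        rw [mem_image] at hr'
        obtain ⟨k, -, rfl⟩ := hr'
        exact hr.2.1 (hτT k)
      have e3 := Finset.card_le_card e1
      rw [Finset.card_union_of_disjoint e2, Finset.card_image_of_injective _ hτ.injective,
        Fin.card_Ioo, Fin.card_Ioo] at e3
      have e4 : (τ i).val < (τ j).val := hτ hij
      have e5 : i.val < j.val := hij
      omega
    intro j
    rcases lt_trichotomy j m with h | h | h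
    · have h3 := key j m h
      have h4 : (univ.filter fun r => r ∉ T ∧ Btw (τ j) (τ m) r)
          = (univ.filter fun r => r ∉ T ∧ τ j < r ∧ r < τ m) := by
        ext r
        simp only [mem_filter, mem_univ, true_and, Btw]
        have := hτ h
        constructor
        · rintro ⟨a, b | b⟩
          · exact ⟨a, b⟩
          · exact absurd (b.1.trans b.2) (not_lt.2 this.le)
        · rintro ⟨a, b⟩; exact ⟨a, Or.inl b⟩
      rw [h4]
      have h5 : (τ j).val < (τ m).val := hτ h
      have h6 : j.val < m.val := h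
      rw [abs_of_neg (by omega), abs_of_neg (by omega)]
      omega
    · rw [h]
      simp only [sub_self, abs_zero, add_zero]
      have : (univ.filter fun r => r ∉ T ∧ Btw (τ m) (τ m) r) = ∅ := by
        ext r
        simp only [mem_filter, mem_univ, true_and, Btw, notMem_empty, iff_false]
        rintro ⟨-, b | b⟩ <;> exact absurd (b.1.trans b.2) (lt_irrefl _)
      rw [this]; simp
    · have h3 := key m j h
      have h4 : (univ.filter fun r => r ∉ T ∧ Btw (τ j) (τ m) r)
          = (univ.filter fun r => r ∉ T ∧ τ m < r ∧ r < τ j) := by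
        ext r
        simp only [mem_filter, mem_univ, true_and, Btw]
        have := hτ h
        constructor
        · rintro ⟨a, b | b⟩
          · exact absurd (b.1.trans b.2) (not_lt.2 this.le)
          · exact ⟨a, b⟩
        · rintro ⟨a, b⟩; exact ⟨a, Or.inr b⟩
      rw [h4]
      have h5 : (τ m).val < (τ j).val := hτ h
      have h6 : m.val < j.val := h
      rw [abs_of_pos (by omega), abs_of_pos (by omega)]
      omega
  -- pairing
  have hrev : ∀ f : Fin d → ℤ, 2 * ∑ j, f j = ∑ j, (f j + f j.rev) := by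
    intro f
    rw [Finset.sum_add_distrib, two_mul]
    congr 1
    exact (Equiv.sum_comp Fin.revPerm f).symm
  -- the sum over all positions
  have hδ : 2 * ∑ j : Fin d, |(j : ℤ) - j.rev| = (d : ℤ) ^ 2 - (d % 2 : ℕ) := by
    rw [← sum_opp d, Finset.sum_range]
    congr 1
    refine Finset.sum_congr rfl fun j _ => ?_
    congr 1
    rw [Fin.val_rev]
    have := j.isLt
    omega
  have hmid : ∀ j : Fin d, (j ≤ m ∧ m ≤ j.rev) ∨ (j.rev ≤ m ∧ m ≤ j) := by
    intro j
    have := j.isLt
    simp only [Fin.le_def, Fin.val_rev, m]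
    omega
  have A1 : ∀ j : Fin d, |(j : ℤ) - m| + |((j.rev : Fin d) : ℤ) - m| = |(j : ℤ) - j.rev| := by
    intro j
    rcases hmid j with ⟨a, b⟩ | ⟨a, b⟩
    · have a' : j.val ≤ m.val := a
      have b' : m.val ≤ j.rev.val := b
      rw [abs_of_nonpos (by omega), abs_of_nonneg (by omega), abs_of_nonpos (by omega)]
      ring
    · have a' : j.rev.val ≤ m.val := a
      have b' : m.val ≤ j.val := b
      rw [abs_of_nonneg (by omega), abs_of_nonpos (by omega), abs_of_nonneg (by omega)]
      ring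
  have A2 : ∀ j : Fin d, |((τ j).val : ℤ) - (τ m).val| + |((τ j.rev).val : ℤ) - (τ m).val|
      = |((τ j).val : ℤ) - (τ j.rev).val| := by
    intro j
    rcases hmid j with ⟨a, b⟩ | ⟨a, b⟩
    · have a' : (τ j).val ≤ (τ m).val := hτ.monotone a
      have b' : (τ m).val ≤ (τ j.rev).val := hτ.monotone b
      rw [abs_of_nonpos (by omega), abs_of_nonneg (by omega), abs_of_nonpos (by omega)]
      ring
    · have a' : (τ j.rev).val ≤ (τ m).val := hτ.monotone a
      have b' : (τ m).val ≤ (τ j).val := hτ.monotone b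
      rw [abs_of_nonneg (by omega), abs_of_nonpos (by omega), abs_of_nonneg (by omega)]
      ring
  -- lower bound for the costs
  have A3 : ∀ j : Fin d, 2 * |((τ j).val : ℤ) - (τ j.rev).val| + (if j = j.rev then 0 else 2 - (d : ℤ))
      ≤ 2 * (c (τ j) + c (τ j.rev)) := by
    intro j
    by_cases h : j = j.rev
    · rw [if_pos h, ← h]
      simp only [sub_self, abs_zero, mul_zero, add_zero]
      positivity
    · rw [if_neg h]
      rcases lt_or_gt_of_ne h with h | h
      · have h3 := h1 _ (hτT j) _ (hτT j.rev) (hτ h)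
        have h5 : (τ j).val < (τ j.rev).val := hτ h
        rw [abs_of_neg (by omega)]
        omega
      · have h3 := h1 _ (hτT j.rev) _ (hτT j) (hτ h)
        have h5 : (τ j.rev).val < (τ j).val := hτ h
        rw [abs_of_pos (by omega)]
        omega
  have B1 : ∑ t ∈ T, (c t : ℤ) ≤
      ∑ t ∈ T, ((univ.filter fun r => r ∉ T ∧ Btw t (τ m) r).card : ℤ) := by
    exact_mod_cast h2 _ (hτT m)
  rw [hsum, hsum] at B1
  have B2 : ∑ j : Fin d, (c (τ j) : ℤ) + ∑ j : Fin d, |(j : ℤ) - m|
      ≤ ∑ j : Fin d, |((τ j).val : ℤ) - (τ m).val| := by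
    refine le_trans (add_le_add_left B1 _) ?_
    rw [← Finset.sum_add_distrib]
    exact Finset.sum_le_sum fun j _ => hM j
  have B3 : 2 * ∑ j : Fin d, |(j : ℤ) - m| = ∑ j : Fin d, |(j : ℤ) - j.rev| := by
    rw [hrev]; exact Finset.sum_congr rfl fun j _ => A1 j
  have B4 : 2 * ∑ j : Fin d, |((τ j).val : ℤ) - (τ m).val|
      = ∑ j : Fin d, |((τ j).val : ℤ) - (τ j.rev).val| := by
    rw [hrev (fun j => |((τ j).val : ℤ) - (τ m).val|)]
    exact Finset.sum_congr rfl fun j _ => A2 j
  have B5 : 2 * ∑ j : Fin d, |((τ j).val : ℤ) - (τ j.rev).val|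
      + ∑ j : Fin d, (if j = j.rev then 0 else 2 - (d : ℤ)) ≤ 4 * ∑ j : Fin d, (c (τ j) : ℤ) := by
    have h3 : 4 * ∑ j : Fin d, (c (τ j) : ℤ) = ∑ j : Fin d, 2 * ((c (τ j) : ℤ) + c (τ j.rev)) := by
      rw [← Finset.mul_sum, ← hrev (fun j => (c (τ j) : ℤ))]; ring
    rw [h3, Finset.mul_sum, ← Finset.sum_add_distrib]
    exact Finset.sum_le_sum fun j _ => A3 j
  have B6 : ∑ j : Fin d, (if j = j.rev then 0 else 2 - (d : ℤ)) = (d - (d % 2 : ℕ)) * (2 - (d : ℤ)) := by
    have h3 : ∀ j : Fin d, (if j = j.rev then 0 else 2 - (d : ℤ))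
        = (2 - (d : ℤ)) - (if j = j.rev then 2 - (d : ℤ) else 0) := by
      intro j; split <;> ring
    simp only [h3, Finset.sum_sub_distrib, Finset.sum_const, card_univ, Fintype.card_fin,
      nsmul_eq_mul]
    rw [← Finset.sum_filter, Finset.sum_const, nsmul_eq_mul]
    have h4 : (univ.filter fun j : Fin d => j = j.rev).card = d % 2 := by
      rcases Nat.even_or_odd' d with ⟨k, hk | hk⟩
      · have : (univ.filter fun j : Fin d => j = j.rev) = ∅ := by
          ext j
          simp only [mem_filter, mem_univ, true_and, notMem_empty, iff_false, Fin.ext_iff,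
            Fin.val_rev]
          have := j.isLt
          omega
        rw [this]; simp; omega
      · have : (univ.filter fun j : Fin d => j = j.rev) = {⟨k, by omega⟩} := by
          ext j
          simp only [mem_filter, mem_univ, true_and, mem_singleton, Fin.ext_iff,
            Fin.val_rev]
          have := j.isLt
          omega
        rw [this]; simp; omega
    rw [h4]; ring
  have hd2 : (2 : ℤ) ≤ d := by exact_mod_cast hcard
  rcases Nat.mod_two_eq_zero_or_one d with h | h
  · rw [h] at hδ B6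
    push_cast at hδ B6
    nlinarith
  · rw [h] at hδ B6
    push_cast at hδ B6
    nlinarith

end D6

theorem D6.crL_zero {L : Type} [LinearOrder L] {P Q : List (Arc L)}
    (h : ∀ A ∈ P, ∀ B ∈ Q, X A B = 0) : crL P Q = 0 := crL_eq_zero_iff.2 h

namespace Std

variable {V ι : Type} [Fintype ι] [DecidableEq ι] {N : Net V ι} {L : Type}
  [LinearOrder L] {u v : V} (S : Std N L u v)

/-- The point is not strictly between `u` and `v`. -/
def Out (y : L) : Prop := ¬ (S.D.pos u < y ∧ y < S.D.pos v)

/-- The part `a` with the row point replaced by `z`. -/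
def far (a : Fin S.n × Bool) (z : L) : List (Arc L) :=
  if a.2 then arcs z (S.hi a.1) (S.D.last (S.row a.1)) (S.D.pos (N.tgt (S.row a.1)))
  else arcs (S.D.pos (N.src (S.row a.1))) (S.lo a.1) false z

theorem far_x (a : Fin S.n × Bool) : S.far a (S.x a.1) = S.part a := rfl

theorem out_pos (w : V) : S.Out (S.D.pos w) := S.good.nf.2 w

theorem first_arc (r : List (Bool × L)) (s : Bool) (b : L) (hb : S.Out b)
    (hr : ∀ y ∈ r, S.Out y.2) : ∃ (y : L) (tl : List (Arc L)),
      (∀ z, arcs z r s b = ⟨z, y, hd r s⟩ :: tl) ∧ S.Out y ∧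
        ∀ A ∈ tl, S.Out A.p ∧ S.Out A.q := by
  cases r with
  | nil => exact ⟨b, [], fun z => rfl, hb, by simp⟩
  | cons y r =>
    refine ⟨y.2, arcs y.2 r s b, fun z => rfl, hr y (by simp), fun A hA => ⟨?_, ?_⟩⟩
    · rcases mem_arcs_p hA with h | ⟨x, hx, h⟩
      · rw [h]; exact hr y (by simp)
      · rw [h]; exact hr x (by simp [hx])
    · rcases mem_arcs_q hA with ⟨x, hx, h⟩ | h
      · rw [h]; exact hr x (by simp [hx])
      · rw [h]; exact hb

theorem far_spec (a : Fin S.n × Bool) : ∃ (y : L) (tl : List (Arc L)),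
    (∀ z Q, crL (S.far a z) Q = crL (⟨z, y, a.2⟩ :: tl) Q) ∧ S.Out y ∧
      ∀ A ∈ tl, S.Out A.p ∧ S.Out A.q := by
  obtain ⟨t, b⟩ := a
  have halt := S.alt (S.row t)
  rw [S.inner_eq t, Alt_append] at halt
  cases b with
  | true =>
    obtain ⟨y, tl, h1, h2, h3⟩ := S.first_arc (S.hi t) (S.D.last (S.row t))
      (S.D.pos (N.tgt (S.row t))) (S.out_pos _) (S.hi_out t)
    refine ⟨y, tl, fun z Q => ?_, h2, h3⟩
    have h4 : hd (S.hi t) (S.D.last (S.row t)) = true := by
      have := halt.2.1
      revert this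
      cases hd (S.hi t) (S.D.last (S.row t)) <;> simp
    simp only [far, if_true, h1, h4]
  | false =>
    obtain ⟨y, tl, h1, h2, h3⟩ := S.first_arc (rev (S.lo t) false).1 (rev (S.lo t) false).2
      (S.D.pos (N.src (S.row t))) (S.out_pos _) (by
        intro y hy
        have h5 : y.2 ∈ (rev (S.lo t) false).1.map Prod.snd := List.mem_map_of_mem hy
        rw [map_snd_rev, List.mem_reverse, List.mem_map] at h5
        obtain ⟨y', hy', h6⟩ := h5
        rw [← h6]
        exact S.lo_out t y' hy')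
    refine ⟨y, tl, fun z Q => ?_, h2, h3⟩
    have h4 : hd (rev (S.lo t) false).1 (rev (S.lo t) false).2 = false := by
      have h5 : rev (rev (S.lo t) false).1 (rev (S.lo t) false).2 = (S.lo t, false) := rev_rev _ _
      have h6 := congrArg Prod.snd h5
      rw [rev_snd] at h6
      exact h6
    have h7 := crL_rev_left (S.D.pos (N.src (S.row t))) (S.lo t) false z Q
    rw [h1, h4] at h7
    simp only [far, Bool.false_eq_true, if_false]
    exact h7.symm

theorem path_row (t : Fin S.n) :
    S.D.path (S.row t) = S.part (t, false) ++ S.part (t, true) := by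
  rw [Drawing.path, S.inner_eq t, arcs_append]
  simp [part]

theorem path_other {i : ι} (hi : ∀ t, S.row t ≠ i) {A : Arc L} (hA : A ∈ S.D.path i) :
    S.Out A.p ∧ S.Out A.q := by
  constructor
  · rcases mem_arcs_p hA with h | ⟨x, hx, h⟩
    · rw [h]; exact S.out_pos _
    · rw [h]; exact S.other i hi x hx
  · rcases mem_arcs_q hA with ⟨x, hx, h⟩ | h
    · rw [h]; exact S.other i hi x hx
    · rw [h]; exact S.out_pos _

/-- Arcs with both ends outside do not distinguish the points between `u` and `v`. -/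
theorem X_out {p q y : L} {s : Bool} {B : Arc L} (hp : S.D.pos u < p ∧ p < S.D.pos v)
    (hq : S.D.pos u < q ∧ q < S.D.pos v) (hB : S.Out B.p ∧ S.Out B.q) :
    X ⟨p, y, s⟩ B = X ⟨q, y, s⟩ B := by
  unfold Out at hB
  unfold X Ilv Btw Ots
  dsimp only
  grind

theorem X_in_out {p q : L} {s : Bool} {B : Arc L} (hp : S.D.pos u < p ∧ p < S.D.pos v)
    (hq : S.D.pos u < q ∧ q < S.D.pos v) (hB : S.Out B.p ∧ S.Out B.q) :
    X ⟨p, q, s⟩ B = 0 := by
  unfold Out at hB
  unfold X Ilv Btw Ots
  dsimp only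
  grind

theorem X_uv_out {s : Bool} {B : Arc L} (hB : S.Out B.p ∧ S.Out B.q) :
    X ⟨S.D.pos u, S.D.pos v, s⟩ B = 0 := by
  have huv := S.good.nf.1
  unfold Out at hB
  unfold X Ilv Btw Ots
  dsimp only
  grind

theorem X_row {p q y z : L} {s π : Bool} (hp : S.D.pos u < p ∧ p < S.D.pos v)
    (hq : S.D.pos u < q ∧ q < S.D.pos v)
    (hy : S.Out y) : X ⟨p, q, s⟩ ⟨z, y, π⟩ ≤ if π = s ∧ Btw p q z then 1 else 0 := by
  unfold Out at hy
  unfold X Ilv Btw Ots
  dsimp only
  grind

/-- A small arc meets the edge of row `r` at most once, and only if it spans the row. -/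
theorem crL_row {p q : L} {s : Bool} (hp : S.D.pos u < p ∧ p < S.D.pos v)
    (hq : S.D.pos u < q ∧ q < S.D.pos v) (r : Fin S.n) :
    crL [⟨p, q, s⟩] (S.D.path (S.row r)) ≤ if Btw p q (S.x r) then 1 else 0 := by
  have key : ∀ b, crL [⟨p, q, s⟩] (S.part (r, b)) ≤ if b = s ∧ Btw p q (S.x r) then 1 else 0 := by
    intro b
    obtain ⟨y, tl, h1, h2, h3⟩ := S.far_spec (r, b)
    rw [crL_comm, ← S.far_x (r, b), h1, crL_cons, crL_comm, crL_comm tl]
    rw [D6.crL_zero (P := [⟨p, q, s⟩]) (Q := tl), add_zero, crL_singleton]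
    · exact S.X_row hp hq h2
    · intro A hA B hB
      rw [List.mem_singleton] at hA
      subst hA
      exact S.X_in_out hp hq (h3 B hB)
  have h0 := key false
  have h1 := key true
  rw [S.path_row, crL_append_right]
  split_ifs at * with h <;> cases s <;> simp_all

theorem crL_other {p q : L} {s : Bool} (hp : S.D.pos u < p ∧ p < S.D.pos v)
    (hq : S.D.pos u < q ∧ q < S.D.pos v) {i : ι} (hi : ∀ t, S.row t ≠ i) :
    crL [⟨p, q, s⟩] (S.D.path i) = 0 := by
  refine D6.crL_zero fun A hA B hB => ?_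
  rw [List.mem_singleton] at hA
  subst hA
  exact S.X_in_out hp hq (S.path_other hi hB)

theorem crL_uv_far (a : Fin S.n × Bool) (z : L) (s : Bool) :
    crL [⟨S.D.pos u, S.D.pos v, s⟩] (S.far a z) ≤ if a.2 = s then 1 else 0 := by
  obtain ⟨y, tl, h1, h2, h3⟩ := S.far_spec a
  rw [crL_comm, h1, crL_cons, crL_comm, crL_comm tl]
  rw [D6.crL_zero (P := [⟨S.D.pos u, S.D.pos v, s⟩]) (Q := tl), add_zero, crL_singleton]
  · unfold X
    dsimp only
    grind
  · intro A hA B hB
    rw [List.mem_singleton] at hA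
    subst hA
    exact S.X_uv_out (h3 B hB)

theorem crL_uv_row (r : Fin S.n) (s : Bool) :
    crL [⟨S.D.pos u, S.D.pos v, s⟩] (S.D.path (S.row r)) ≤ 1 := by
  have h0 := S.crL_uv_far (r, false) (S.x r) s
  have h1 := S.crL_uv_far (r, true) (S.x r) s
  rw [S.path_row, crL_append_right, ← S.far_x (r, false), ← S.far_x (r, true)]
  dsimp only at *
  cases s <;> simp_all

theorem crL_uv_other {i : ι} (hi : ∀ t, S.row t ≠ i) (s : Bool) :
    crL [⟨S.D.pos u, S.D.pos v, s⟩] (S.D.path i) = 0 := by
  refine D6.crL_zero fun A hA B hB => ?_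
  rw [List.mem_singleton] at hA
  subst hA
  exact S.X_uv_out (S.path_other hi hB)

/-- The row point of an edge is not on the other edges. -/
theorem x_not_mem (t : Fin S.n) {j : ι} (hj : j ≠ S.row t) {A : Arc L} (hA : A ∈ S.D.path j) :
    S.x t ≠ A.p ∧ S.x t ≠ A.q := by
  have hmem : (false, S.x t) ∈ S.D.inner (S.row t) := by rw [S.inner_eq t]; simp
  constructor
  · rcases mem_arcs_p hA with h | ⟨x, hx, h⟩
    · rw [h]; exact S.D.avoid _ _ hmem _
    · rw [h]; exact S.D.disj _ _ hj.symm _ hmem _ hx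
  · rcases mem_arcs_q hA with ⟨x, hx, h⟩ | h
    · rw [h]; exact S.D.disj _ _ hj.symm _ hmem _ hx
    · rw [h]; exact S.D.avoid _ _ hmem _

/-- Moving the end of the far part to `z` costs at most the crossings of the small arc. -/
theorem far_le (a : Fin S.n × Bool) {z : L} {j : ι} (hj : j ≠ S.row a.1) :
    crL (S.far a z) (S.D.path j) ≤ crL (S.part a) (S.D.path j)
      + crL [⟨S.x a.1, z, a.2⟩] (S.D.path j) := by
  obtain ⟨y, tl, h1, h2, h3⟩ := S.far_spec a
  rw [← S.far_x a, h1, h1, crL_cons, crL_cons (⟨S.x a.1, y, a.2⟩)]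
  have key : crL [⟨z, y, a.2⟩] (S.D.path j) ≤ crL [⟨S.x a.1, y, a.2⟩] (S.D.path j)
      + crL [⟨S.x a.1, z, a.2⟩] (S.D.path j) := by
    rw [← crL_append_left]
    refine crL_le_of_forall fun B hB => ?_
    have h4 := S.x_not_mem a.1 hj hB
    rw [crL_append_left, crL_singleton, crL_singleton, crL_singleton]
    have h5 := X_merge (a := z) (b := S.x a.1) (c := y) (s := a.2) (B := B) h4.1 h4.2
    have h6 := X_swap_left ⟨S.x a.1, z, a.2⟩ B
    unfold Arc.swap at h6
    dsimp only at h6
    omega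
  omega

/-- Two moved ends do not cross. -/
theorem far_far {a a' : Fin S.n × Bool} {z : L} (hz : S.D.pos u < z ∧ z < S.D.pos v)
    (h : crL (S.part a) (S.part a') = 0) : crL (S.far a z) (S.far a' z) = 0 := by
  obtain ⟨y, tl, h1, h2, h3⟩ := S.far_spec a
  obtain ⟨y', tl', h1', h2', h3'⟩ := S.far_spec a'
  rw [← S.far_x a, ← S.far_x a', h1, crL_comm, h1', crL_eq_zero_iff] at h
  rw [h1, crL_comm, h1', crL_eq_zero_iff]
  intro A hA B hB
  rw [List.mem_cons] at hA hB
  rcases hA with rfl | hA
  · rcases hB with rfl | hB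
    · exact X_of_share (Or.inl rfl)
    · rw [S.X_out hz (S.x_btw a'.1) (h3 B hB)]
      exact h _ (by simp) B (by simp [hB])
  · rcases hB with rfl | hB
    · rw [X_comm, S.X_out hz (S.x_btw a.1) (h3' A hA), X_comm]
      exact h A (by simp [hA]) _ (by simp)
    · exact h A (by simp [hA]) B (by simp [hB])

theorem part_part {t t' : Fin S.n} (b b' : Bool)
    (h : crL (S.D.path (S.row t)) (S.D.path (S.row t')) = 0) :
    crL (S.part (t, b)) (S.part (t', b')) = 0 := by
  rw [S.path_row, S.path_row, crL_append_left, crL_append_right, crL_append_right] at h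
  cases b <;> cases b' <;> omega

/-- The data of a relocation: `T` is the set of rows of the edges at `w`, `β t` is the side of `w`. -/
structure Rel (w : V) where
  T : Finset (Fin S.n)
  β : Fin S.n → Bool
  hT : ∀ t ∈ T, S.e (t, β t) = w
  all : ∀ i, N.Inc i w → ∃ t ∈ T, S.row t = i

namespace Rel

variable {S} {w : V} (R : S.Rel w)

open Classical in
/-- The inner points after the relocation. -/
noncomputable def inner (i : ι) : List (Bool × L) :=
  if h : ∃ t ∈ R.T, S.row t = i then
    (if R.β h.choose then S.lo h.choose else S.hi h.choose) else S.D.inner i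

open Classical in
/-- The last page after the relocation. -/
noncomputable def last (i : ι) : Bool :=
  if h : ∃ t ∈ R.T, S.row t = i then
    (if R.β h.choose then false else S.D.last i) else S.D.last i

theorem inner_row {t : Fin S.n} (ht : t ∈ R.T) :
    R.inner (S.row t) = if R.β t then S.lo t else S.hi t := by
  have h : ∃ t' ∈ R.T, S.row t' = S.row t := ⟨t, ht, rfl⟩
  have h1 : h.choose = t := S.row_inj h.choose_spec.2
  unfold inner
  rw [dif_pos h, h1]

theorem last_row {t : Fin S.n} (ht : t ∈ R.T) :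
    R.last (S.row t) = if R.β t then false else S.D.last (S.row t) := by
  have h : ∃ t' ∈ R.T, S.row t' = S.row t := ⟨t, ht, rfl⟩
  have h1 : h.choose = t := S.row_inj h.choose_spec.2
  unfold last
  rw [dif_pos h, h1]

theorem inner_other {i : ι} (hi : ∀ t ∈ R.T, S.row t ≠ i) : R.inner i = S.D.inner i := by
  unfold inner
  rw [dif_neg]
  rintro ⟨t, ht, h⟩
  exact hi t ht h

theorem last_other {i : ι} (hi : ∀ t ∈ R.T, S.row t ≠ i) : R.last i = S.D.last i := by
  unfold last
  rw [dif_neg]
  rintro ⟨t, ht, h⟩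
  exact hi t ht h

theorem inner_sub (i : ι) : (R.inner i).Sublist (S.D.inner i) := by
  by_cases h : ∃ t ∈ R.T, S.row t = i
  · obtain ⟨t, ht, rfl⟩ := h
    rw [R.inner_row ht, S.inner_eq t]
    split
    · exact List.sublist_append_left _ _
    · exact (List.sublist_cons_self _ _).trans (List.sublist_append_right _ _)
  · rw [R.inner_other fun t ht h' => h ⟨t, ht, h'⟩]

theorem x_mem (t : Fin S.n) : (false, S.x t) ∈ S.D.inner (S.row t) := by
  rw [S.inner_eq t]; simp

theorem x_ne {m : Fin S.n} (hm : m ∈ R.T) (i : ι) : ∀ y ∈ R.inner i, y.2 ≠ S.x m := by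
  intro y hy h
  by_cases hi : S.row m = i
  · subst hi
    have h1 := S.D.nodup (S.row m)
    rw [S.inner_eq m, List.map_append, List.map_cons, List.nodup_append] at h1
    obtain ⟨-, h2, h3⟩ := h1
    rw [List.nodup_cons] at h2
    rw [R.inner_row hm] at hy
    split at hy
    · exact h3 y.2 (List.mem_map_of_mem hy) (S.x m) (by simp) h
    · have h4 := List.mem_map_of_mem (f := Prod.snd) hy
      rw [h] at h4
      exact h2.1 h4
  · exact S.D.disj _ _ hi _ (x_mem m) y ((R.inner_sub i).subset hy) h.symm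

/-- The drawing after the relocation of `w` to the row point `x m`. -/
noncomputable def draw [DecidableEq V] {m : Fin S.n} (hm : m ∈ R.T) : Drawing N L where
  pos := Function.update S.D.pos w (S.x m)
  inner := R.inner
  last := R.last
  pos_inj := by
    intro a b hab
    have hx : ∀ c, S.D.pos c ≠ S.x m := fun c h => S.D.avoid _ _ (x_mem m) c h.symm
    by_cases ha : a = w <;> by_cases hb : b = w
    · rw [ha, hb]
    · rw [ha, Function.update_self, Function.update_of_ne hb] at hab
      exact absurd hab.symm (hx b)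
    · rw [hb, Function.update_self, Function.update_of_ne ha] at hab
      exact absurd hab (hx a)
    · rw [Function.update_of_ne ha, Function.update_of_ne hb] at hab
      exact S.D.pos_inj hab
  nodup := fun i => (S.D.nodup i).sublist ((R.inner_sub i).map _)
  disj := fun i j hij x hx y hy =>
    S.D.disj i j hij x ((R.inner_sub i).subset hx) y ((R.inner_sub j).subset hy)
  avoid := fun i x hx c => by
    by_cases hc : c = w
    · rw [hc, Function.update_self]; exact R.x_ne hm i x hx
    · rw [Function.update_of_ne hc]; exact S.D.avoid i x ((R.inner_sub i).subset hx) c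

theorem path_row' [DecidableEq V] {m : Fin S.n} (hm : m ∈ R.T) {t : Fin S.n} (ht : t ∈ R.T) :
    (R.draw hm).path (S.row t) = S.far (t, !R.β t) (S.x m) := by
  have hw := R.hT t ht
  have hl := S.simple.loopless (S.row t)
  unfold Drawing.path
  change arcs (Function.update S.D.pos w (S.x m) (N.src (S.row t))) (R.inner (S.row t))
    (R.last (S.row t)) (Function.update S.D.pos w (S.x m) (N.tgt (S.row t))) = _
  rw [R.inner_row ht, R.last_row ht]
  unfold e at hw
  dsimp only at hw
  cases hβ : R.β t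
  · rw [hβ, if_neg (by simp)] at hw
    rw [← hw, Function.update_self, Function.update_of_ne hl.symm]
    simp [far]
  · rw [hβ, if_pos rfl] at hw
    rw [← hw, Function.update_self, Function.update_of_ne hl]
    simp [far]

theorem path_other' [DecidableEq V] {m : Fin S.n} (hm : m ∈ R.T) {i : ι}
    (hi : ∀ t ∈ R.T, S.row t ≠ i) : (R.draw hm).path i = S.D.path i := by
  have hinc : ¬ N.Inc i w := fun h => by
    obtain ⟨t, ht, h'⟩ := R.all i h
    exact hi t ht h'
  have h1 : N.src i ≠ w := fun h => hinc (Or.inl h)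
  have h2 : N.tgt i ≠ w := fun h => hinc (Or.inr h)
  unfold Drawing.path
  change arcs (Function.update S.D.pos w (S.x m) (N.src i)) (R.inner i)
    (R.last i) (Function.update S.D.pos w (S.x m) (N.tgt i)) = _
  rw [R.inner_other hi, R.last_other hi, Function.update_of_ne h1, Function.update_of_ne h2]

/-- Removed crossings. -/
noncomputable def Nr (i j : ι) : ℕ :=
  ∑ t ∈ R.T, if S.row t = i then
    (if j = S.row t then 0 else crL (S.part (t, R.β t)) (S.D.path j)) else 0

/-- Additional crossings. -/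
noncomputable def Ex (m : Fin S.n) (i j : ι) : ℕ :=
  ∑ t ∈ R.T, if S.row t = i then
    ∑ r ∈ univ.filter (fun r => r ∉ R.T ∧ Btw t m r), (if S.row r = j then 1 else 0) else 0

theorem Nr_row {t : Fin S.n} (ht : t ∈ R.T) (j : ι) : R.Nr (S.row t) j =
    if j = S.row t then 0 else crL (S.part (t, R.β t)) (S.D.path j) := by
  unfold Nr
  rw [Finset.sum_eq_single t]
  · rw [if_pos rfl]
  · intro t' _ hne
    rw [if_neg fun h => hne (S.row_inj h)]
  · exact fun h => absurd ht h

theorem Nr_other {i : ι} (hi : ∀ t ∈ R.T, S.row t ≠ i) (j : ι) : R.Nr i j = 0 :=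
  Finset.sum_eq_zero fun t ht => if_neg (hi t ht)

theorem Ex_row (m : Fin S.n) {t : Fin S.n} (ht : t ∈ R.T) (j : ι) : R.Ex m (S.row t) j =
    ∑ r ∈ univ.filter (fun r => r ∉ R.T ∧ Btw t m r), (if S.row r = j then 1 else 0) := by
  unfold Ex
  rw [Finset.sum_eq_single t]
  · rw [if_pos rfl]
  · intro t' _ hne
    rw [if_neg fun h => hne (S.row_inj h)]
  · exact fun h => absurd ht h

theorem sum_Nr : ∑ i, ∑ j, R.Nr i j = ∑ t ∈ R.T, S.c (t, R.β t) := by
  unfold Nr
  rw [Finset.sum_congr rfl fun i _ => Finset.sum_comm]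
  rw [Finset.sum_comm]
  refine Finset.sum_congr rfl fun t _ => ?_
  rw [Finset.sum_eq_single (S.row t)]
  · simp only [if_true]
    unfold c
    rfl
  · intro i _ hne
    simp [if_neg hne.symm]
  · simp

theorem sum_Ex (m : Fin S.n) : ∑ i, ∑ j, R.Ex m i j =
    ∑ t ∈ R.T, (univ.filter fun r => r ∉ R.T ∧ Btw t m r).card := by
  unfold Ex
  rw [Finset.sum_congr rfl fun i _ => Finset.sum_comm]
  rw [Finset.sum_comm]
  refine Finset.sum_congr rfl fun t _ => ?_
  rw [Finset.sum_eq_single (S.row t)]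
  · simp only [if_true]
    rw [Finset.sum_comm]
    simp
  · intro i _ hne
    simp [if_neg hne.symm]
  · simp

theorem adj0 {t t' : Fin S.n} (ht : t ∈ R.T) (ht' : t' ∈ R.T) (hne : t ≠ t') :
    crL (S.D.path (S.row t)) (S.D.path (S.row t')) = 0 := by
  have inc : ∀ t ∈ R.T, N.Inc (S.row t) w := by
    intro t ht
    have h := R.hT t ht
    unfold e at h
    split at h
    · exact Or.inr h
    · exact Or.inl h
  exact S.adj _ _ (fun h => hne (S.row_inj h)) ⟨w, inc t ht, inc t' ht'⟩

theorem pair_one [DecidableEq V] {m : Fin S.n} (hm : m ∈ R.T) {t : Fin S.n} (ht : t ∈ R.T) {j : ι}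
    (hj : ∀ t ∈ R.T, S.row t ≠ j) :
    crL ((R.draw hm).path (S.row t)) ((R.draw hm).path j) + R.Nr (S.row t) j
      ≤ crL (S.D.path (S.row t)) (S.D.path j) + R.Ex m (S.row t) j := by
  have hne : j ≠ S.row t := (hj t ht).symm
  rw [R.path_row' hm ht, R.path_other' hm hj, R.Nr_row ht, if_neg hne, R.Ex_row m ht]
  have h1 := S.far_le (t, !R.β t) (z := S.x m) hne
  have h2 : crL (S.D.path (S.row t)) (S.D.path j) =
      crL (S.part (t, !R.β t)) (S.D.path j) + crL (S.part (t, R.β t)) (S.D.path j) := by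
    rw [S.path_row, crL_append_left]
    cases R.β t
    · simp only [Bool.not_false]; omega
    · simp only [Bool.not_true]
  have h3 : crL [⟨S.x t, S.x m, !R.β t⟩] (S.D.path j) ≤
      ∑ r ∈ univ.filter (fun r => r ∉ R.T ∧ Btw t m r), (if S.row r = j then 1 else 0) := by
    by_cases hr : ∃ r, S.row r = j
    · obtain ⟨r, rfl⟩ := hr
      refine (S.crL_row (S.x_btw t) (S.x_btw m) r).trans ?_
      by_cases hb : Btw t m r
      · have hrT : r ∉ R.T := fun h => hj r h rfl
        have h4 : (1 : ℕ) ≤ ∑ r' ∈ univ.filter (fun r => r ∉ R.T ∧ Btw t m r),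
            (if S.row r' = S.row r then 1 else 0) := by
          refine le_trans (b := if S.row r = S.row r then 1 else 0) (by simp) ?_
          exact Finset.single_le_sum (f := fun r' => if S.row r' = S.row r then 1 else 0)
            (fun _ _ => Nat.zero_le _) (by simp [hrT, hb])
        split
        · exact h4
        · exact Nat.zero_le _
      · rw [if_neg]
        · exact Nat.zero_le _
        · intro h
          apply hb
          unfold Btw at h ⊢
          simpa only [S.x_mono.lt_iff_lt] using h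
    · rw [S.crL_other (S.x_btw t) (S.x_btw m) fun r hr' => hr ⟨r, hr'⟩]
      exact Nat.zero_le _
  dsimp only at h1
  omega

theorem dcr_le [DecidableEq V] {m : Fin S.n} (hm : m ∈ R.T) :
    (R.draw hm).dcr + 2 * ∑ t ∈ R.T, S.c (t, R.β t) ≤
      S.D.dcr + 2 * ∑ t ∈ R.T, (univ.filter fun r => r ∉ R.T ∧ Btw t m r).card := by
  have key : ∀ i j, (if i = j then 0 else crL ((R.draw hm).path i) ((R.draw hm).path j))
      + (R.Nr i j + R.Nr j i) ≤ (if i = j then 0 else crL (S.D.path i) (S.D.path j))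
        + (R.Ex m i j + R.Ex m j i) := by
    intro i j
    by_cases hij : i = j
    · subst hij
      rw [if_pos rfl, if_pos rfl]
      have h0 : R.Nr i i = 0 := by
        unfold Nr
        refine Finset.sum_eq_zero fun t _ => ?_
        split
        · rename_i h; rw [if_pos h.symm]
        · rfl
      omega
    · rw [if_neg hij, if_neg hij]
      by_cases hi : ∃ t ∈ R.T, S.row t = i
      · obtain ⟨t, ht, rfl⟩ := hi
        by_cases hj : ∃ t ∈ R.T, S.row t = j
        · obtain ⟨t', ht', rfl⟩ := hj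
          have hne : t ≠ t' := fun h => hij (h ▸ rfl)
          have h0 := R.adj0 ht ht' hne
          have h0' : crL (S.D.path (S.row t')) (S.D.path (S.row t)) = 0 := by rw [crL_comm]; exact h0
          have h1 : crL ((R.draw hm).path (S.row t)) ((R.draw hm).path (S.row t')) = 0 := by
            rw [R.path_row' hm ht, R.path_row' hm ht']
            exact S.far_far (S.x_btw m) (S.part_part _ _ h0)
          have h2 : crL (S.part (t, R.β t)) (S.D.path (S.row t')) = 0 := by
            rw [S.path_row, crL_append_right, S.part_part _ _ h0, S.part_part _ _ h0]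
          have h2' : crL (S.part (t', R.β t')) (S.D.path (S.row t)) = 0 := by
            rw [S.path_row, crL_append_right, S.part_part _ _ h0', S.part_part _ _ h0']
          rw [h1, R.Nr_row ht, R.Nr_row ht', h2, h2']
          simp
        · have hj' : ∀ t ∈ R.T, S.row t ≠ j := fun t ht h => hj ⟨t, ht, h⟩
          have h1 := R.pair_one hm ht hj'
          rw [R.Nr_other hj' (S.row t)]
          omega
      · have hi' : ∀ t ∈ R.T, S.row t ≠ i := fun t ht h => hi ⟨t, ht, h⟩
        by_cases hj : ∃ t ∈ R.T, S.row t = j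
        · obtain ⟨t', ht', rfl⟩ := hj
          have h1 := R.pair_one hm ht' hi'
          rw [crL_comm, crL_comm (S.D.path (S.row t'))] at h1
          rw [R.Nr_other hi' (S.row t')]
          omega
        · have hj' : ∀ t ∈ R.T, S.row t ≠ j := fun t ht h => hj ⟨t, ht, h⟩
          rw [R.Nr_other hi', R.Nr_other hj', R.path_other' hm hi', R.path_other' hm hj']
          omega
  have hsum := Finset.sum_le_sum fun i (_ : i ∈ univ) =>
    Finset.sum_le_sum fun j (_ : j ∈ univ) => key i j
  simp only [Finset.sum_add_distrib] at hsum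
  have e1 : ∑ i, ∑ j, R.Nr j i = ∑ i, ∑ j, R.Nr i j := Finset.sum_comm
  have e2 : ∑ i, ∑ j, R.Ex m j i = ∑ i, ∑ j, R.Ex m i j := Finset.sum_comm
  rw [e1, e2, R.sum_Nr, R.sum_Ex] at hsum
  unfold Drawing.dcr
  omega

end Rel

/-- D6 (relocation): every vertex at an end has an edge without a row. -/
theorem fdeg_pos [Fintype V] [DecidableEq V] (a : Fin S.n × Bool) : 1 ≤ S.fdeg (S.e a) := by
  classical
  by_contra hcon
  set w := S.e a with hw
  have h0 : ∀ i, N.Inc i w → ∃ t, S.row t = i := by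
    intro i hi
    by_contra h
    push Not at h
    apply hcon
    unfold fdeg
    exact Finset.card_pos.2 ⟨i, by simp [hi, h]⟩
  let T : Finset (Fin S.n) := univ.filter fun t => ∃ b, S.e (t, b) = w
  let β : Fin S.n → Bool := fun t => decide (S.e (t, true) = w)
  have hβ : ∀ t ∈ T, S.e (t, β t) = w := by
    intro t ht
    obtain ⟨b, hb⟩ := (Finset.mem_filter.1 ht).2
    by_cases h : S.e (t, true) = w
    · simp only [β, h, decide_true]
    · simp only [β, h, decide_false]
      cases b
      · exact hb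
      · exact absurd hb h
  have hinc : ∀ t, N.Inc (S.row t) w ↔ t ∈ T := by
    intro t
    simp only [T, Finset.mem_filter, Finset.mem_univ, true_and, e, Net.Inc]
    constructor
    · rintro (h | h)
      · exact ⟨false, by simpa using h⟩
      · exact ⟨true, by simpa using h⟩
    · rintro ⟨b, h⟩
      cases b
      · left; simpa using h
      · right; simpa using h
  let R : S.Rel w := ⟨T, β, hβ, fun i hi => by
    obtain ⟨t, rfl⟩ := h0 i hi
    exact ⟨t, (hinc t).1 hi, rfl⟩⟩
  have hdeg : N.deg w = T.card := by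
    unfold Net.deg
    rw [← Finset.card_image_of_injective T S.row_inj]
    congr 1
    ext i
    simp only [Finset.mem_filter, Finset.mem_univ, true_and, Finset.mem_image]
    constructor
    · intro hi
      obtain ⟨t, rfl⟩ := h0 i hi
      exact ⟨t, (hinc t).1 hi, rfl⟩
    · rintro ⟨t, ht, rfl⟩
      exact (hinc t).2 ht
  have ha : a.1 ∈ T := by
    simp only [T, Finset.mem_filter, Finset.mem_univ, true_and]
    exact ⟨a.2, rfl⟩
  have hcard : T.card ≤ 1 := by
    refine D6.comb T (fun t => S.c (t, β t)) ?_ ?_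
    · intro t ht t' ht' hlt
      have h1 := S.pcl (t, β t) (t', β t') (by rw [hβ t ht, hβ t' ht']) hlt
      rw [hβ t ht, hdeg] at h1
      exact h1
    · intro m hm
      have h1 := R.dcr_le hm
      have h2 := S.good.opt L (R.draw hm)
      have h3 : ∑ t ∈ R.T, S.c (t, R.β t) = ∑ t ∈ T, S.c (t, β t) := rfl
      have h4 : ∑ t ∈ R.T, (univ.filter fun r => r ∉ R.T ∧ Btw t m r).card
        = ∑ t ∈ T, (univ.filter fun r => r ∉ T ∧ Btw t m r).card := rfl
      omega
  -- only one row
  have hT1 : ∀ t ∈ T, t = a.1 := fun t ht => Finset.card_le_one.1 hcard t ht a.1 ha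
  have hm : a.1 ∈ R.T := ha
  have hdcr : (R.draw hm).dcr ≤ S.D.dcr := by
    have h1 := R.dcr_le hm
    have h2 : ∑ t ∈ R.T, (univ.filter fun r => r ∉ R.T ∧ Btw t a.1 r).card = 0 := by
      refine Finset.sum_eq_zero fun t ht => ?_
      rw [hT1 t ht, Finset.card_eq_zero, Finset.filter_eq_empty_iff]
      rintro r - ⟨-, h | h⟩ <;> exact absurd (h.1.trans h.2) (lt_irrefl _)
    omega
  have huv : u ≠ v := by
    intro h
    exact absurd (congrArg S.D.pos h) S.good.nf.1.ne
  have hwinc : N.Inc (S.row a.1) w := (hinc a.1).2 ha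
  have hkey : ∀ x, x = w → N.Inc (S.row a.1) x := fun x hx => by rw [hx]; exact hwinc
  have hwu : u ≠ w := fun h => (S.not_inc a.1).1 (hkey u h)
  have hwv : v ≠ w := fun h => (S.not_inc a.1).2 (hkey v h)
  obtain ⟨L', inst, D', h1, h2, h3⟩ := finger S.simple huv S.nadj (R.draw hm) [] (β a.1)
    (by simp) (by simp) (by simp)
  have h4 := S.good.row_min L' D' h1 (h2.trans hdcr)
  rw [S.pcl_rows] at h4
  have e1 : (R.draw hm).pos u = S.D.pos u := Function.update_of_ne hwu _ _
  have e2 : (R.draw hm).pos v = S.D.pos v := Function.update_of_ne hwv _ _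
  rw [e1, e2, arcs_nil] at h3
  have h5 : ∑ i, crL [⟨S.D.pos u, S.D.pos v, β a.1⟩] ((R.draw hm).path i) ≤
      ∑ i, if i ∈ (univ.erase a.1).image S.row then 1 else 0 := by
    refine Finset.sum_le_sum fun i _ => ?_
    by_cases hi : i = S.row a.1
    · subst hi
      rw [R.path_row' hm hm]
      refine (S.crL_uv_far _ _ _).trans ?_
      have : R.β a.1 = β a.1 := rfl
      rw [this]
      cases β a.1 <;> simp
    · have hi' : ∀ t ∈ R.T, S.row t ≠ i := by
        intro t ht h
        rw [hT1 t ht] at h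
        exact hi h.symm
      rw [R.path_other' hm hi']
      by_cases hr : ∃ r, S.row r = i
      · obtain ⟨r, rfl⟩ := hr
        have hra : r ≠ a.1 := fun h => hi (h ▸ rfl)
        rw [if_pos (Finset.mem_image.2 ⟨r, by simp [hra], rfl⟩)]
        exact S.crL_uv_row r _
      · rw [S.crL_uv_other fun r hr' => hr ⟨r, hr'⟩]
        exact Nat.zero_le _
  have h6 : ∑ i, (if i ∈ (univ.erase a.1).image S.row then 1 else 0) = S.n - 1 := by
    rw [← Finset.card_filter, Finset.filter_mem_eq_inter, Finset.univ_inter,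
      Finset.card_image_of_injective _ S.row_inj, Finset.card_erase_of_mem (Finset.mem_univ _),
      Finset.card_univ, Fintype.card_fin]
  have h7 := a.1.isLt
  omega

end Std

end MP60f107

end
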