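import Pool.Agent.Lib.MP_60f107_co.CrDraw2

section

/-!
D7: the snake drawing (helper48; counts `count_old`, `count_new` by helper52).
-/

set_option linter.unusedSimpArgs false
set_option linter.unusedSectionVars false
set_option linter.unusedVariables false

namespace MP60f107

open Finset

namespace Snk

/-! ### Crossings of arcs -/

section X

variable {L L' : Type} [LinearOrder L] [LinearOrder L']

theorem Ilv_symm {a b c d : L} : Ilv a b c d ↔ Ilv c d a b := by
  unfold Ilv Btw Ots
  grind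

theorem Ilv_swap {a b c d : L} : Ilv a b c d ↔ Ilv b a c d := by
  unfold Ilv Btw Ots
  grind

theorem not_Ilv {a b c d : L} (h1 : (a < c ∧ a < d) ∨ (c < a ∧ d < a))
    (h2 : (b < c ∧ b < d) ∨ (c < b ∧ d < b)) : ¬ Ilv a b c d := by
  unfold Ilv Btw Ots
  grind

/-- Same comparison. -/
def SC (a c : L) (a' c' : L') : Prop := (a < c ↔ a' < c') ∧ (c < a ↔ c' < a')

theorem SC.symm {a c : L} {a' c' : L'} (h : SC a c a' c') : SC c a c' a' := ⟨h.2, h.1⟩

theorem X_congr {A B : Arc L} {A' B' : Arc L'} (hA : A.up = A'.up) (hB : B.up = B'.up)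
    (h : A.up = B.up → SC A.p B.p A'.p B'.p ∧ SC A.p B.q A'.p B'.q ∧ SC A.q B.p A'.q B'.p ∧
      SC A.q B.q A'.q B'.q) : X A B = X A' B' := by
  unfold X
  rw [← hA, ← hB]
  refine if_congr ?_ rfl rfl
  by_cases hu : A.up = B.up
  · obtain ⟨⟨h1, h2⟩, ⟨h3, h4⟩, ⟨h5, h6⟩, ⟨h7, h8⟩⟩ := h hu
    unfold Ilv Btw Ots
    simp only [h1, h2, h3, h4, h5, h6, h7, h8]
  · simp [hu]

theorem X_zero {A B : Arc L} (h : A.up = B.up →
    ((A.p < B.p ∧ A.p < B.q) ∨ (B.p < A.p ∧ B.q < A.p)) ∧
    ((A.q < B.p ∧ A.q < B.q) ∨ (B.p < A.q ∧ B.q < A.q))) : X A B = 0 := by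
  unfold X
  rw [if_neg]
  rintro ⟨hu, hi⟩
  exact not_Ilv (h hu).1 (h hu).2 hi

theorem X_comm (A B : Arc L) : X A B = X B A := by
  unfold X
  refine if_congr ?_ rfl rfl
  rw [Ilv_symm]
  exact and_congr_left fun _ => eq_comm

theorem X_swap (A B : Arc L) : X A.swap B = X A B := by
  unfold X Arc.swap
  refine if_congr ?_ rfl rfl
  rw [Ilv_swap]

end X

/-! ### Lists of arcs -/

section crL

variable {L L' : Type} [LinearOrder L] [LinearOrder L']

theorem crL_nil_left (Q : List (Arc L)) : crL [] Q = 0 := rfl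

theorem crL_nil_right (P : List (Arc L)) : crL P [] = 0 := by
  unfold crL
  simp

theorem crL_append_left (P P' Q : List (Arc L)) : crL (P ++ P') Q = crL P Q + crL P' Q := by
  unfold crL
  simp

theorem crL_cons_left (A : Arc L) (P Q : List (Arc L)) :
    crL (A :: P) Q = (Q.map fun B => X A B).sum + crL P Q := by
  unfold crL
  simp

theorem crL_comm (P Q : List (Arc L)) : crL P Q = crL Q P := by
  induction P with
  | nil => rw [crL_nil_left, crL_nil_right]
  | cons A P ih =>
    rw [crL_cons_left, ih]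
    unfold crL
    simp only [List.map_cons, List.sum_cons]
    rw [List.sum_map_add]
    congr 2
    exact List.map_congr_left fun B _ => X_comm A B

theorem crL_append_right (P Q Q' : List (Arc L)) : crL P (Q ++ Q') = crL P Q + crL P Q' := by
  rw [crL_comm, crL_append_left, crL_comm Q, crL_comm Q']

theorem crL_eq_zero {P Q : List (Arc L)} (h : ∀ A ∈ P, ∀ B ∈ Q, X A B = 0) : crL P Q = 0 := by
  unfold crL
  rw [List.sum_eq_zero]
  intro n hn
  obtain ⟨A, hA, rfl⟩ := List.mem_map.mp hn
  rw [List.sum_eq_zero]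
  intro m hm
  obtain ⟨B, hB, rfl⟩ := List.mem_map.mp hm
  exact h A hA B hB

theorem X_eq_zero {P Q : List (Arc L)} (h : crL P Q = 0) {A B : Arc L} (hA : A ∈ P)
    (hB : B ∈ Q) : X A B = 0 := by
  unfold crL at h
  rw [List.sum_eq_zero_iff] at h
  have h1 := h _ (List.mem_map.mpr ⟨A, hA, rfl⟩)
  rw [List.sum_eq_zero_iff] at h1
  exact h1 _ (List.mem_map.mpr ⟨B, hB, rfl⟩)

theorem crL_congr {P Q : List (Arc L)} (f g : Arc L → Arc L')
    (h : ∀ A ∈ P, ∀ B ∈ Q, X (f A) (g B) = X A B) : crL (P.map f) (Q.map g) = crL P Q := by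
  unfold crL
  rw [List.map_map]
  congr 1
  refine List.map_congr_left fun A hA => ?_
  simp only [Function.comp]
  rw [List.map_map]
  congr 1
  exact List.map_congr_left fun B hB => h A hA B hB

theorem crL_perm_left {P P' : List (Arc L)} (h : P.Perm P') (Q : List (Arc L)) :
    crL P Q = crL P' Q := by
  unfold crL
  exact (h.map _).sum_eq

theorem crL_swap_left (P Q : List (Arc L)) : crL (P.map Arc.swap) Q = crL P Q := by
  unfold crL
  rw [List.map_map]
  congr 1
  refine List.map_congr_left fun A _ => ?_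
  simp only [Function.comp, X_swap]

theorem crL_rev_left (P Q : List (Arc L)) : crL ((P.map Arc.swap).reverse) Q = crL P Q := by
  rw [crL_perm_left (List.reverse_perm _), crL_swap_left]

theorem crL_rev_right (P Q : List (Arc L)) : crL P ((Q.map Arc.swap).reverse) = crL P Q := by
  rw [crL_comm, crL_rev_left, crL_comm]

end crL

/-! ### Chains -/

section arcs

variable {L L' : Type}

theorem arcs_append (a : L) (r : List (Bool × L)) (s' : Bool) (m : L) (r' : List (Bool × L))
    (s : Bool) (b : L) :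
    arcs a (r ++ (s', m) :: r') s b = arcs a r s' m ++ arcs m r' s b := by
  induction r generalizing a with
  | nil => rfl
  | cons x r ih =>
    obtain ⟨s₁, p⟩ := x
    simp only [List.cons_append, arcs, ih]

theorem arcs_map (φ : L → L') (a : L) (r : List (Bool × L)) (s : Bool) (b : L) :
    arcs (φ a) (mapPts φ r) s (φ b) = (arcs a r s b).map (Arc.map φ) := by
  induction r generalizing a with
  | nil => rfl
  | cons x r ih =>
    obtain ⟨s₁, p⟩ := x
    simp only [mapPts, List.map_cons, arcs]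
    rw [← ih]
    rfl

theorem arcs_rev (a : L) (r : List (Bool × L)) (s : Bool) (b : L) :
    arcs b (rev r s).1 (rev r s).2 a = ((arcs a r s b).map Arc.swap).reverse := by
  induction r generalizing a with
  | nil => rfl
  | cons x r ih =>
    obtain ⟨s₁, p⟩ := x
    simp only [rev, arcs, List.map_cons, List.reverse_cons]
    rw [← ih, arcs_append]
    rfl

theorem rev_pts (r : List (Bool × L)) (s : Bool) :
    (rev r s).1.map Prod.snd = (r.map Prod.snd).reverse := by
  induction r with
  | nil => rfl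
  | cons x r ih =>
    obtain ⟨s₁, p⟩ := x
    simp only [rev, List.map_append, ih, List.map_cons, List.map_nil, List.reverse_cons]

theorem rev_pages (r : List (Bool × L)) (s : Bool) :
    (rev r s).1.map Prod.fst ++ [(rev r s).2] = (r.map Prod.fst ++ [s]).reverse := by
  induction r with
  | nil => rfl
  | cons x r ih =>
    obtain ⟨s₁, p⟩ := x
    simp only [rev, List.map_append, List.map_cons, List.map_nil, List.cons_append,
      List.reverse_cons]
    rw [← ih]

theorem alt_iff (r : List (Bool × L)) (s : Bool) :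
    Alt r s ↔ (r.map Prod.fst ++ [s]).IsChain (· ≠ ·) := by
  induction r with
  | nil => simp [Alt]
  | cons x r ih =>
    obtain ⟨s₁, p⟩ := x
    cases r with
    | nil => simp [Alt]
    | cons y r =>
      obtain ⟨s₂, q⟩ := y
      simp only [Alt, List.map_cons, List.cons_append, List.isChain_cons_cons] at ih ⊢
      rw [ih]

theorem alt_rev {r : List (Bool × L)} {s : Bool} (h : Alt r s) : Alt (rev r s).1 (rev r s).2 := by
  rw [alt_iff] at h ⊢
  rw [rev_pages, List.isChain_reverse]
  refine h.imp fun a b hab => ?_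
  exact Ne.symm hab

/-- end points of the arcs of a chain -/
theorem arcs_ends {a b : L} {r : List (Bool × L)} {s : Bool} {A : Arc L}
    (h : A ∈ arcs a r s b) : (A.p = a ∨ A.p ∈ r.map Prod.snd) ∧
      (A.q = b ∨ A.q ∈ r.map Prod.snd) := by
  induction r generalizing a with
  | nil =>
    simp only [arcs, List.mem_singleton] at h
    subst h
    simp
  | cons x r ih =>
    obtain ⟨s₁, p⟩ := x
    simp only [arcs, List.mem_cons] at h
    rcases h with rfl | h
    · simp
    · have := ih h
      simp only [List.map_cons, List.mem_cons]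
      tauto

/-- the page of the first arc -/
def fp : List (Bool × L) → Bool → Bool
  | [], s => s
  | (s₁, _) :: _, _ => s₁

/-- only the first arc contains the starting point -/
theorem arcs_first {a b : L} {r : List (Bool × L)} {s : Bool} {A : Arc L}
    (h : A ∈ arcs a r s b) (hr : a ∉ r.map Prod.snd) (hab : a ≠ b) :
    A.q ≠ a ∧ (A.p = a → A.up = fp r s) := by
  have h2 : A.q ≠ a := by
    rcases (arcs_ends h).2 with h1 | h1
    · rw [h1]
      exact hab.symm
    · rintro rfl
      exact hr h1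
  refine ⟨h2, fun hp => ?_⟩
  cases r with
  | nil =>
    simp only [arcs, List.mem_singleton] at h
    subst h
    rfl
  | cons x r =>
    obtain ⟨s₁, p⟩ := x
    simp only [arcs, List.mem_cons] at h
    rcases h with rfl | h
    · rfl
    · exfalso
      simp only [List.map_cons, List.mem_cons, not_or] at hr
      rcases (arcs_ends h).1 with h1 | h1
      · exact hr.1 (hp.symm.trans h1)
      · rw [hp] at h1
        exact hr.2 h1

/-- only the last arc contains the end point -/
theorem arcs_last {a b : L} {r : List (Bool × L)} {s : Bool} {A : Arc L}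
    (h : A ∈ arcs a r s b) (hr : b ∉ r.map Prod.snd) (hab : a ≠ b) :
    A.p ≠ b ∧ (A.q = b → A.up = s) := by
  have h2 : A.p ≠ b := by
    rcases (arcs_ends h).1 with h1 | h1
    · rw [h1]
      exact hab
    · rintro rfl
      exact hr h1
  refine ⟨h2, fun hp => ?_⟩
  induction r generalizing a with
  | nil =>
    simp only [arcs, List.mem_singleton] at h
    subst h
    rfl
  | cons x r ih =>
    obtain ⟨s₁, p⟩ := x
    simp only [arcs, List.mem_cons] at h
    simp only [List.map_cons, List.mem_cons, not_or] at hr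
    rcases h with rfl | h
    · exact absurd hp (Ne.symm hr.1)
    · exact ih h hr.2 (Ne.symm hr.1)

end arcs

/-! ### The new spine -/

section spine

variable {L : Type} [LinearOrder L]

/-- The new spine: base point, lane, signed height. -/
def NL (L : Type) : Type := L ×ₗ (ℕ ×ₗ ℤ)

instance : LinearOrder (NL L) := inferInstanceAs (LinearOrder (L ×ₗ (ℕ ×ₗ ℤ)))

/-- A point of the new spine. -/
def mk (y : L) (k : ℕ) (h : ℤ) : NL L := toLex (y, toLex (k, h))

theorem mk_lt_mk {y y' : L} {k k' : ℕ} {h h' : ℤ} : mk y k h < mk y' k' h' ↔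
    y < y' ∨ (y = y' ∧ (k < k' ∨ (k = k' ∧ h < h'))) := by
  have h1 := @Prod.Lex.toLex_lt_toLex L (ℕ ×ₗ ℤ) _ _ (y, toLex (k, h)) (y', toLex (k', h'))
  have h2 := @Prod.Lex.toLex_lt_toLex ℕ ℤ _ _ (k, h) (k', h')
  refine h1.trans ?_
  simp only at h2 ⊢
  rw [h2]

omit [LinearOrder L] in
theorem mk_inj {y y' : L} {k k' : ℕ} {h h' : ℤ} : mk y k h = mk y' k' h' ↔
    y = y' ∧ k = k' ∧ h = h' := by
  have h1 := @toLex_inj (L × (ℕ ×ₗ ℤ)) (y, toLex (k, h)) (y', toLex (k', h'))
  refine h1.trans ?_
  simp only [toLex_inj, Prod.mk.injEq]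

/-- Old points. -/
def out (y : L) : NL L := mk y 0 0

/-- The point of lane `k` at height `h`. -/
def P (U : L) (k : ℕ) (h : ℤ) : NL L := mk U k (if k % 2 = 1 then h else -h)

/-- The page of gap `k` (between the lanes `k` and `k+1`). -/
def pg (k : ℕ) : Bool := decide (k % 2 = 1)

theorem out_lt_out {y z : L} : out y < out z ↔ y < z := by
  unfold out
  rw [mk_lt_mk]
  simp

omit [LinearOrder L] in
theorem out_inj {y z : L} : out y = out z ↔ y = z := by
  unfold out
  rw [mk_inj]
  simp

theorem P_lt_P {U : L} {k k' : ℕ} {h h' : ℤ} : P U k h < P U k' h' ↔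
    k < k' ∨ (k = k' ∧ (if k % 2 = 1 then h < h' else h' < h)) := by
  unfold P
  rw [mk_lt_mk]
  simp only [lt_self_iff_false, true_and, false_or]
  refine or_congr Iff.rfl ?_
  constructor
  · rintro ⟨rfl, h2⟩
    refine ⟨rfl, ?_⟩
    split_ifs at h2 ⊢ <;> omega
  · rintro ⟨rfl, h2⟩
    refine ⟨rfl, ?_⟩
    split_ifs at h2 ⊢ <;> omega

omit [LinearOrder L] in
theorem P_inj {U : L} {k k' : ℕ} {h h' : ℤ} : P U k h = P U k' h' ↔ k = k' ∧ h = h' := by
  unfold P
  rw [mk_inj]
  simp only [true_and]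
  constructor
  · rintro ⟨rfl, h2⟩
    refine ⟨rfl, ?_⟩
    split_ifs at h2 <;> omega
  · rintro ⟨rfl, rfl⟩
    exact ⟨rfl, rfl⟩

theorem out_lt_P {U y : L} {k : ℕ} {h : ℤ} (hk : 1 ≤ k) : out y < P U k h ↔ y ≤ U := by
  unfold P out
  rw [mk_lt_mk, le_iff_lt_or_eq]
  refine or_congr Iff.rfl ?_
  constructor
  · rintro ⟨rfl, _⟩
    rfl
  · rintro rfl
    exact ⟨rfl, Or.inl hk⟩

theorem P_lt_out {U y : L} {k : ℕ} {h : ℤ} (hk : 1 ≤ k) : P U k h < out y ↔ U < y := by
  unfold P out
  rw [mk_lt_mk]
  constructor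
  · rintro (h1 | ⟨_, h2⟩)
    · exact h1
    · exfalso
      omega
  · intro h1
    exact Or.inl h1

omit [LinearOrder L] in
theorem out_ne_P {U y : L} {k : ℕ} {h : ℤ} (hk : 1 ≤ k) : out y ≠ P U k h := by
  intro h1
  unfold P out at h1
  rw [mk_inj] at h1
  omega

end spine

section ladder

variable {L : Type} [LinearOrder L]

/-- Strictly between, for integers. -/
def Bt (a b c : ℤ) : Prop := (a < c ∧ c < b) ∨ (b < c ∧ c < a)

instance (a b c : ℤ) : Decidable (Bt a b c) := by unfold Bt; infer_instance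

/-- Height in lane `j` of the strand of height `H` from lane `lo` to lane `hi`. -/
def z (vh : ℕ → ℤ) (lo hi : ℕ) (H : ℤ) (j : ℕ) : ℤ :=
  if (j = lo ∨ j = hi) ∧ j % 2 = 0 then vh j else H

/-- An arc in gap `k`. -/
def gp (U : L) (k : ℕ) (h h' : ℤ) : Arc (NL L) := ⟨P U k h, P U (k + 1) h', pg k⟩

/-- The strand of height `H` from lane `lo` to lane `hi`. -/
def lad (U : L) (vh : ℕ → ℤ) (lo hi : ℕ) (H : ℤ) : List (Arc (NL L)) :=
  (List.range' lo (hi - lo)).map fun k => gp U k (z vh lo hi H k) (z vh lo hi H (k + 1))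

theorem X_gp (U : L) (k m : ℕ) (h h' g g' : ℤ) : X (gp U k h h') (gp U m g g') =
    if k = m ∧ ((h < g ∧ g' < h') ∨ (g < h ∧ h' < g')) then 1 else 0 := by
  by_cases hkm : k = m
  · subst hkm
    unfold X
    refine if_congr ?_ rfl rfl
    unfold gp Ilv Btw Ots
    dsimp only
    simp only [P_lt_P]
    rcases Nat.mod_two_eq_zero_or_one k with hk | hk
    · have hk' : (k + 1) % 2 = 1 := by omega
      simp [hk, hk']
      omega
    · have hk' : (k + 1) % 2 = 0 := by omega
      simp [hk, hk']
  · rw [if_neg (fun h => hkm h.1)]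
    refine X_zero fun hup => ?_
    unfold gp at hup ⊢
    simp only [pg, decide_eq_decide] at hup
    simp only [P_lt_P]
    have : k + 2 ≤ m ∨ m + 2 ≤ k := by omega
    rcases this with h1 | h1
    · refine ⟨Or.inl ⟨?_, ?_⟩, Or.inl ⟨?_, ?_⟩⟩ <;> left <;> omega
    · refine ⟨Or.inr ⟨?_, ?_⟩, Or.inr ⟨?_, ?_⟩⟩ <;> left <;> omega

theorem sum_range' (f : ℕ → ℕ) (lo n : ℕ) :
    ((List.range' lo n).map f).sum = ∑ k ∈ Ico lo (lo + n), f k := by
  induction n generalizing lo with
  | zero => simp
  | succ n ih =>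
    have h1 : ∑ k ∈ Ico lo (lo + (n + 1)), f k
        = f lo + ∑ k ∈ Ico (lo + 1) (lo + (n + 1)), f k :=
      Finset.sum_eq_sum_Ico_succ_bot (by omega) f
    have h2 : lo + 1 + n = lo + (n + 1) := by omega
    rw [List.range'_succ, List.map_cons, List.sum_cons, ih, h1, h2]

theorem crL_range' (f g : ℕ → Arc (NL L)) (lo n lo' n' : ℕ) :
    crL ((List.range' lo n).map f) ((List.range' lo' n').map g)
      = ∑ k ∈ Ico lo (lo + n), ∑ m ∈ Ico lo' (lo' + n'), X (f k) (g m) := by
  unfold crL
  rw [List.map_map, ← sum_range']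
  congr 1
  refine List.map_congr_left fun k _ => ?_
  simp only [Function.comp]
  rw [List.map_map, ← sum_range']
  rfl

theorem sum_ite_le {s : Finset ℕ} (q : ℕ → Prop) [DecidablePred q]
    (hq : ∀ k k', q k → q k' → k = k') (c : ℕ) : ∑ k ∈ s, (if q k then c else 0) ≤ c := by
  rw [← Finset.sum_filter, Finset.sum_const, smul_eq_mul]
  have : (s.filter q).card ≤ 1 := by
    rw [Finset.card_le_one]
    intro a ha b hb
    exact hq a b (Finset.mem_filter.mp ha).2 (Finset.mem_filter.mp hb).2
  nlinarith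

theorem ite_le {q : Prop} [Decidable q] {n : ℕ} (h : q → 1 ≤ n) : (if q then 1 else 0) ≤ n := by
  split_ifs with hq
  · exact h hq
  · exact Nat.zero_le _

/-- The fan at lane `j` of a strand of height `H` against the strand `(lo', hi', H')`. -/
def fan (vh : ℕ → ℤ) (j : ℕ) (H : ℤ) (lo' hi' : ℕ) (H' : ℤ) : ℕ :=
  if j % 2 = 0 ∧ lo' < j ∧ j < hi' ∧ Bt (vh j) H H' then 1 else 0

theorem crL_lad (U : L) (vh : ℕ → ℤ) (lo hi lo' hi' : ℕ) (H H' : ℤ) (h : lo < hi)
    (h' : lo' < hi') :
    crL (lad U vh lo hi H) (lad U vh lo' hi' H') ≤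
      fan vh lo H lo' hi' H' + fan vh hi H lo' hi' H' + fan vh lo' H' lo hi H
        + fan vh hi' H' lo hi H := by
  unfold lad
  rw [crL_range']
  have e1 : lo + (hi - lo) = hi := by omega
  have e2 : lo' + (hi' - lo') = hi' := by omega
  rw [e1, e2]
  have key : ∀ k ∈ Ico lo hi, ∑ m ∈ Ico lo' hi',
      X (gp U k (z vh lo hi H k) (z vh lo hi H (k + 1)))
        (gp U m (z vh lo' hi' H' m) (z vh lo' hi' H' (m + 1)))
      ≤ (if k = lo then fan vh lo H lo' hi' H' else 0)
        + (if k + 1 = hi then fan vh hi H lo' hi' H' else 0)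
        + (if k = lo' then fan vh lo' H' lo hi H else 0)
        + (if k + 1 = hi' then fan vh hi' H' lo hi H else 0) := by
    intro k hk
    rw [Finset.mem_Ico] at hk
    simp only [X_gp]
    by_cases hk' : k ∈ Ico lo' hi'
    · have hsum : ∑ m ∈ Ico lo' hi', (if k = m ∧
          ((z vh lo hi H k < z vh lo' hi' H' m ∧
              z vh lo' hi' H' (m + 1) < z vh lo hi H (k + 1)) ∨
            (z vh lo' hi' H' m < z vh lo hi H k ∧
              z vh lo hi H (k + 1) < z vh lo' hi' H' (m + 1))) then 1 else 0)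
          = (if ((z vh lo hi H k < z vh lo' hi' H' k ∧
              z vh lo' hi' H' (k + 1) < z vh lo hi H (k + 1)) ∨
            (z vh lo' hi' H' k < z vh lo hi H k ∧
              z vh lo hi H (k + 1) < z vh lo' hi' H' (k + 1))) then 1 else 0) := by
        rw [Finset.sum_eq_single k]
        · simp only [true_and]
        · intro m _ hm
          rw [if_neg]
          rintro ⟨h1, _⟩
          exact hm h1.symm
        · intro h1
          exact absurd hk' h1
      rw [hsum]
      rw [Finset.mem_Ico] at hk'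
      refine ite_le fun hrev => ?_
      rcases Nat.mod_two_eq_zero_or_one k with hp | hp
      · have z1 : z vh lo hi H (k + 1) = H := by
          unfold z
          rw [if_neg]
          omega
        have z2 : z vh lo' hi' H' (k + 1) = H' := by
          unfold z
          rw [if_neg]
          omega
        rw [z1, z2] at hrev
        by_cases c1 : k = lo
        · have z3 : z vh lo hi H k = vh k := by
            unfold z
            rw [if_pos ⟨Or.inl c1, hp⟩]
          by_cases c2 : k = lo'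
          · have z4 : z vh lo' hi' H' k = vh k := by
              unfold z
              rw [if_pos ⟨Or.inl c2, hp⟩]
            rw [z3, z4] at hrev
            omega
          · have z4 : z vh lo' hi' H' k = H' := by
              unfold z
              rw [if_neg]
              omega
            rw [z3, z4] at hrev
            rw [if_pos c1]
            have : fan vh lo H lo' hi' H' = 1 := by
              unfold fan Bt
              rw [← c1, if_pos]
              exact ⟨hp, by omega, hk'.2, by omega⟩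
            omega
        · have z3 : z vh lo hi H k = H := by
            unfold z
            rw [if_neg]
            omega
          by_cases c2 : k = lo'
          · have z4 : z vh lo' hi' H' k = vh k := by
              unfold z
              rw [if_pos ⟨Or.inl c2, hp⟩]
            rw [z3, z4] at hrev
            rw [if_pos c2]
            have : fan vh lo' H' lo hi H = 1 := by
              unfold fan Bt
              rw [← c2, if_pos]
              exact ⟨hp, by omega, hk.2, by omega⟩
            omega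
          · have z4 : z vh lo' hi' H' k = H' := by
              unfold z
              rw [if_neg]
              omega
            rw [z3, z4] at hrev
            omega
      · have z1 : z vh lo hi H k = H := by
          unfold z
          rw [if_neg]
          omega
        have z2 : z vh lo' hi' H' k = H' := by
          unfold z
          rw [if_neg]
          omega
        have hp1 : (k + 1) % 2 = 0 := by omega
        rw [z1, z2] at hrev
        by_cases c1 : k + 1 = hi
        · have z3 : z vh lo hi H (k + 1) = vh (k + 1) := by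
            unfold z
            rw [if_pos ⟨Or.inr c1, hp1⟩]
          by_cases c2 : k + 1 = hi'
          · have z4 : z vh lo' hi' H' (k + 1) = vh (k + 1) := by
              unfold z
              rw [if_pos ⟨Or.inr c2, hp1⟩]
            rw [z3, z4] at hrev
            omega
          · have z4 : z vh lo' hi' H' (k + 1) = H' := by
              unfold z
              rw [if_neg]
              omega
            rw [z3, z4] at hrev
            rw [if_pos c1]
            have : fan vh hi H lo' hi' H' = 1 := by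
              unfold fan Bt
              rw [← c1, if_pos]
              exact ⟨hp1, by omega, by omega, by omega⟩
            omega
        · have z3 : z vh lo hi H (k + 1) = H := by
            unfold z
            rw [if_neg]
            omega
          by_cases c2 : k + 1 = hi'
          · have z4 : z vh lo' hi' H' (k + 1) = vh (k + 1) := by
              unfold z
              rw [if_pos ⟨Or.inr c2, hp1⟩]
            rw [z3, z4] at hrev
            rw [if_pos c2]
            have : fan vh hi' H' lo hi H = 1 := by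
              unfold fan Bt
              rw [← c2, if_pos]
              exact ⟨hp1, by omega, by omega, by omega⟩
            omega
          · have z4 : z vh lo' hi' H' (k + 1) = H' := by
              unfold z
              rw [if_neg]
              omega
            rw [z3, z4] at hrev
            omega
    · have hsum : ∑ m ∈ Ico lo' hi', (if k = m ∧
          ((z vh lo hi H k < z vh lo' hi' H' m ∧
              z vh lo' hi' H' (m + 1) < z vh lo hi H (k + 1)) ∨
            (z vh lo' hi' H' m < z vh lo hi H k ∧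
              z vh lo hi H (k + 1) < z vh lo' hi' H' (m + 1))) then 1 else 0) = 0 := by
        refine Finset.sum_eq_zero fun m hm => ?_
        rw [if_neg]
        rintro ⟨rfl, _⟩
        exact hk' hm
      rw [hsum]
      omega
  refine (Finset.sum_le_sum key).trans ?_
  rw [Finset.sum_add_distrib, Finset.sum_add_distrib, Finset.sum_add_distrib]
  have b1 := sum_ite_le (s := Ico lo hi) (fun k => k = lo) (fun k k' h h' => h.trans h'.symm)
    (fan vh lo H lo' hi' H')
  have b2 := sum_ite_le (s := Ico lo hi) (fun k => k + 1 = hi) (fun k k' h h' => by omega)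
    (fan vh hi H lo' hi' H')
  have b3 := sum_ite_le (s := Ico lo hi) (fun k => k = lo') (fun k k' h h' => h.trans h'.symm)
    (fan vh lo' H' lo hi H)
  have b4 := sum_ite_le (s := Ico lo hi) (fun k => k + 1 = hi') (fun k k' h h' => by omega)
    (fan vh hi' H' lo hi H)
  omega

/-- a strand does not cross itself -/
theorem crL_lad_self (U : L) (vh : ℕ → ℤ) (lo hi : ℕ) (H : ℤ) (h : lo < hi) :
    crL (lad U vh lo hi H) (lad U vh lo hi H) = 0 := by
  have := crL_lad U vh lo hi lo hi H H h h
  have e1 : fan vh lo H lo hi H = 0 := by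
    unfold fan
    rw [if_neg]
    omega
  have e2 : fan vh hi H lo hi H = 0 := by
    unfold fan
    rw [if_neg]
    omega
  omega

/-- An outer arc of the new drawing. -/
def IsO (U : L) (p : ℕ) (A : Arc (NL L)) : Prop :=
  ((∃ y, A.p = out y) ∨ ∃ H, A.p = P U (if A.up then p else 1) H) ∧
  ((∃ y, A.q = out y) ∨ ∃ H, A.q = P U (if A.up then p else 1) H)

theorem X_out_gp {U : L} {p : ℕ} (hp : p % 2 = 1) {A : Arc (NL L)} (hA : IsO U p A) {k : ℕ}
    (hk1 : 1 ≤ k) (hkp : k < p) (h h' : ℤ) : X A (gp U k h h') = 0 := by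
  refine X_zero fun hup => ?_
  have hup' : A.up = decide (k % 2 = 1) := hup
  have aux : ∀ e : NL L, ((∃ y, e = out y) ∨ ∃ H, e = P U (if A.up then p else 1) H) →
      (e < P U k h ∧ e < P U (k + 1) h') ∨ (P U k h < e ∧ P U (k + 1) h' < e) := by
    rintro e (⟨y, rfl⟩ | ⟨H, rfl⟩)
    · rw [out_lt_P hk1, out_lt_P (by omega), P_lt_out hk1, P_lt_out (by omega)]
      rcases le_or_gt y U with h1 | h1
      · exact Or.inl ⟨h1, h1⟩
      · exact Or.inr ⟨h1, h1⟩
    · simp only [P_lt_P]
      rw [hup']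
      by_cases hk2 : k % 2 = 1
      · simp only [hk2, decide_true, if_true]
        right
        constructor <;> left <;> omega
      · simp only [hk2, decide_false]
        left
        constructor <;> left <;> simp <;> omega
  exact ⟨aux _ hA.1, aux _ hA.2⟩

theorem crL_out_lad {U : L} {p : ℕ} (hp : p % 2 = 1) {Q : List (Arc (NL L))}
    (hQ : ∀ A ∈ Q, IsO U p A) (vh : ℕ → ℤ) {lo hi : ℕ} (h1 : 1 ≤ lo) (h2 : hi ≤ p) (H : ℤ) :
    crL Q (lad U vh lo hi H) = 0 := by
  refine crL_eq_zero fun A hA B hB => ?_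
  unfold lad at hB
  obtain ⟨k, hk, rfl⟩ := List.mem_map.mp hB
  rw [List.mem_range'_1] at hk
  exact X_out_gp hp (hQ A hA) (by omega) (by omega) _ _

end ladder

section chain

variable {L : Type} [LinearOrder L]

omit [LinearOrder L] in
theorem arcs_mid (U : L) (zz : ℕ → ℤ) (lo n : ℕ) :
    arcs (P U lo (zz lo)) ((List.range' (lo + 1) n).map (fun j => (pg (j - 1), P U j (zz j))))
      (pg (lo + n)) (P U (lo + n + 1) (zz (lo + n + 1)))
      = (List.range' lo (n + 1)).map (fun k => gp U k (zz k) (zz (k + 1))) := by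
  induction n generalizing lo with
  | zero =>
    simp [arcs, gp]
  | succ n ih =>
    rw [List.range'_succ, List.map_cons, List.range'_succ (s := lo), List.map_cons]
    have := ih (lo + 1)
    have e1 : lo + 1 + n = lo + (n + 1) := by omega
    rw [e1] at this
    rw [← this]
    simp only [arcs, gp, Nat.add_sub_cancel]

/-- The inner points of the upward chain. -/
def upIn (U : L) (p lo hi : ℕ) (H : ℤ) (r0 r1 : List (Bool × L)) : List (Bool × NL L) :=
  mapPts out (if lo = 1 then r0 else [])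
    ++ (List.range' (if lo = 1 then 1 else lo + 1)
        ((if hi = p then p + 1 else hi) - (if lo = 1 then 1 else lo + 1))).map
        (fun j => (pg (j - 1), P U j H))
    ++ mapPts out (if hi = p then r1 else [])

/-- The last page of the upward chain. -/
def upLast (p hi : ℕ) (l1 : Bool) : Bool := if hi = p then l1 else pg (hi - 1)

/-- The start of the upward chain. -/
def upS (U : L) (vh : ℕ → ℤ) (lo : ℕ) (a0 : L) : NL L := if lo = 1 then out a0 else P U lo (vh lo)

/-- The end of the upward chain. -/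
def upF (U : L) (vh : ℕ → ℤ) (p hi : ℕ) (b0 : L) : NL L :=
  if hi = p then out b0 else P U hi (vh hi)

omit [LinearOrder L] in
theorem arcs_tail (U : L) (vh : ℕ → ℤ) {p lo hi : ℕ} (H : ℤ) (r1 : List (Bool × L)) (l1 : Bool)
    (b0 : L) (hp : p % 2 = 1) (h2 : hi = p ∨ (hi % 2 = 0 ∧ hi < p)) (h : lo < hi) :
    arcs (P U lo (z vh lo hi H lo))
      ((List.range' (lo + 1) ((if hi = p then p + 1 else hi) - (lo + 1))).map
        (fun j => (pg (j - 1), P U j H)) ++ mapPts out (if hi = p then r1 else []))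
      (upLast p hi l1) (upF U vh p hi b0)
      = lad U vh lo hi H
        ++ (if hi = p then arcs (P U p H) (mapPts out r1) l1 (out b0) else []) := by
  have hmid : ∀ n, lo + n + 1 = hi → (List.range' (lo + 1) n).map
      (fun j => (pg (j - 1), P U j H)) = (List.range' (lo + 1) n).map
      (fun j => (pg (j - 1), P U j (z vh lo hi H j))) := by
    intro n hn
    refine List.map_congr_left fun j hj => ?_
    rw [List.mem_range'_1] at hj
    have : z vh lo hi H j = H := by
      unfold z
      rw [if_neg]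
      omega
    rw [this]
  by_cases hh : hi = p
  · subst hh
    have hz : z vh lo hi H hi = H := by
      unfold z
      rw [if_neg]
      omega
    obtain ⟨n, hn⟩ : ∃ n, lo + n + 1 = hi := ⟨hi - lo - 1, by omega⟩
    have e1 : hi + 1 - (lo + 1) = n + 1 := by omega
    have e2 : lo + 1 + n = hi := by omega
    have e3 : hi - lo = n + 1 := by omega
    have e4 : lo + n = hi - 1 := by omega
    unfold upLast upF lad
    simp only [if_true, e1]
    rw [List.range'_1_concat, e2, List.map_append, List.map_cons, List.map_nil,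
      List.append_assoc, List.singleton_append, arcs_append, hmid n hn, e3]
    have key := arcs_mid U (z vh lo hi H) lo n
    rw [hn, hz, e4] at key
    rw [key]
  · have h2' := h2.resolve_left hh
    have hz : z vh lo hi H hi = vh hi := by
      unfold z
      rw [if_pos]
      omega
    obtain ⟨n, hn⟩ : ∃ n, lo + n + 1 = hi := ⟨hi - lo - 1, by omega⟩
    have e1 : hi - (lo + 1) = n := by omega
    have e3 : hi - lo = n + 1 := by omega
    have e4 : lo + n = hi - 1 := by omega
    unfold upLast upF lad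
    simp only [hh, if_false, e1, e3, List.append_nil, mapPts_nil]
    rw [hmid n hn]
    have key := arcs_mid U (z vh lo hi H) lo n
    rw [hn, hz, e4] at key
    rw [key]

omit [LinearOrder L] in
theorem arcs_up (U : L) (vh : ℕ → ℤ) {p lo hi : ℕ} (H : ℤ) (r0 r1 : List (Bool × L)) (l1 : Bool)
    (a0 b0 : L) (hp : p % 2 = 1) (h1 : lo = 1 ∨ (lo % 2 = 0 ∧ 2 ≤ lo))
    (h2 : hi = p ∨ (hi % 2 = 0 ∧ hi < p)) (h : lo < hi) :
    arcs (upS U vh lo a0) (upIn U p lo hi H r0 r1) (upLast p hi l1) (upF U vh p hi b0)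
      = (if lo = 1 then arcs (out a0) (mapPts out r0) false (P U 1 H) else [])
        ++ lad U vh lo hi H
        ++ (if hi = p then arcs (P U p H) (mapPts out r1) l1 (out b0) else []) := by
  rw [List.append_assoc, ← arcs_tail U vh H r1 l1 b0 hp h2 h]
  unfold upIn upS
  by_cases hl : lo = 1
  · subst hl
    have hz : z vh 1 hi H 1 = H := by
      unfold z
      rw [if_neg]
      omega
    simp only [if_true]
    have e1 : (if hi = p then p + 1 else hi) - 1
        = ((if hi = p then p + 1 else hi) - (1 + 1)) + 1 := by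
      split_ifs <;> omega
    rw [e1, List.range'_succ, List.map_cons, List.append_assoc, List.cons_append, arcs_append,
      hz]
    rfl
  · have h1' := h1.resolve_left hl
    have hz : z vh lo hi H lo = vh lo := by
      unfold z
      rw [if_pos]
      omega
    simp only [hl, if_false, mapPts_nil, List.nil_append, hz]

omit [LinearOrder L] in
/-- the inner points of the upward chain -/
theorem mem_upIn {U : L} {p lo hi : ℕ} {H : ℤ} {r0 r1 : List (Bool × L)} {x : Bool × NL L}
    (h1 : 1 ≤ lo) (h2 : hi ≤ p) (hx : x ∈ upIn U p lo hi H r0 r1) :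
    (lo = 1 ∧ ∃ y ∈ r0, x.2 = out y.2) ∨ (hi = p ∧ ∃ y ∈ r1, x.2 = out y.2) ∨
      ∃ j, 1 ≤ j ∧ j ≤ p ∧ x.2 = P U j H := by
  unfold upIn at hx
  rw [List.mem_append, List.mem_append] at hx
  rcases hx with (hx | hx) | hx
  · left
    split_ifs at hx with hl
    · obtain ⟨y, hy, rfl⟩ := List.mem_map.mp hx
      exact ⟨hl, y, hy, rfl⟩
    · simp [mapPts] at hx
  · right
    right
    obtain ⟨j, hj, rfl⟩ := List.mem_map.mp hx
    rw [List.mem_range'_1] at hj
    refine ⟨j, ?_, ?_, rfl⟩
    · split_ifs at hj <;> omega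
    · split_ifs at hj <;> omega
  · right
    left
    split_ifs at hx with hl
    · obtain ⟨y, hy, rfl⟩ := List.mem_map.mp hx
      exact ⟨hl, y, hy, rfl⟩
    · simp [mapPts] at hx

omit [LinearOrder L] in
theorem nodup_upIn {U : L} {p lo hi : ℕ} {H : ℤ} {r0 r1 : List (Bool × L)}
    (h1 : 1 ≤ lo) (hnd : ((r0 ++ r1).map Prod.snd).Nodup) :
    ((upIn U p lo hi H r0 r1).map Prod.snd).Nodup := by
  unfold upIn
  rw [List.map_append, List.map_append, List.map_map, map_snd_mapPts, map_snd_mapPts]
  rw [List.map_append, List.nodup_append'] at hnd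
  obtain ⟨n1, n2, n3⟩ := hnd
  have hout : Function.Injective (out : L → NL L) := fun a b hab => out_inj.mp hab
  rw [List.nodup_append', List.nodup_append']
  refine ⟨⟨?_, ?_, ?_⟩, ?_, ?_⟩
  · refine List.Nodup.map hout ?_
    split_ifs
    · exact n1
    · simp
  · refine List.Nodup.map ?_ (List.nodup_range')
    intro j j' hj
    exact (P_inj.mp hj).1
  · rw [List.disjoint_left]
    intro x hx hx'
    obtain ⟨y, _, rfl⟩ := List.mem_map.mp hx
    obtain ⟨j, hj, hj'⟩ := List.mem_map.mp hx'
    rw [List.mem_range'_1] at hj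
    exact out_ne_P (U := U) (k := j) (h := H) (by split_ifs at hj <;> omega) hj'.symm
  · refine List.Nodup.map hout ?_
    split_ifs
    · exact n2
    · simp
  · rw [List.disjoint_left]
    intro x hx hx'
    obtain ⟨y', hy', rfl⟩ := List.mem_map.mp hx'
    rw [List.mem_append] at hx
    rcases hx with hx | hx
    · obtain ⟨y, hy, hyy⟩ := List.mem_map.mp hx
      rw [out_inj] at hyy
      subst hyy
      split_ifs at hy hy' with c1 c2
      · exact (List.disjoint_left.mp n3) hy hy'
      all_goals simp at hy hy'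
    · obtain ⟨j, hj, hj'⟩ := List.mem_map.mp hx
      rw [List.mem_range'_1] at hj
      exact out_ne_P (U := U) (k := j) (h := H) (by split_ifs at hj <;> omega) hj'.symm

omit [LinearOrder L] in
theorem alt_mid (U : L) (a n : ℕ) (H : ℤ) (s : Bool) (hs : s = pg (a + n)) :
    Alt ((List.range' (a + 1) n).map (fun j => (pg (j - 1), P U j H))) s := by
  subst hs
  induction n generalizing a with
  | zero => simp
  | succ n ih =>
    rw [List.range'_succ, List.map_cons, Alt_cons]
    have e1 : a + (n + 1) = a + 1 + n := by omega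
    rw [e1]
    refine ⟨?_, ih (a + 1)⟩
    cases n with
    | zero =>
      simp [pg]
      omega
    | succ n =>
      rw [List.range'_succ, List.map_cons, hd_cons]
      simp [pg]
      omega

omit [LinearOrder L] in
/-- alternation of a chain that starts outside -/
theorem alt_up_lo {U : L} {p hi : ℕ} {H : ℤ} {r0 r1 : List (Bool × L)} {l1 : Bool}
    (h2 : hi % 2 = 0) (hp : hi < p) (h : 1 < hi) (ha : Alt r0 false) :
    Alt (upIn U p 1 hi H r0 r1) (upLast p hi l1) := by
  unfold upIn upLast
  have hne : ¬ hi = p := by omega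
  simp only [if_true, hne, if_false, mapPts_nil, List.append_nil]
  obtain ⟨n, hn⟩ : ∃ n, hi - 1 = n + 1 := ⟨hi - 2, by omega⟩
  rw [hn, List.range'_succ, List.map_cons, Alt_append, Alt_mapPts]
  refine ⟨ha, ?_, ?_⟩
  · cases n with
    | zero =>
      simp [pg]
    | succ n =>
      rw [List.range'_succ, List.map_cons, hd_cons]
      simp [pg]
  · refine alt_mid U 1 n H _ ?_
    congr 1
    omega

omit [LinearOrder L] in
/-- alternation of a chain that ends outside -/
theorem alt_up_hi {U : L} {p lo : ℕ} {H : ℤ} {r0 r1 : List (Bool × L)} {l1 : Bool}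
    (h2 : lo % 2 = 0) (hp : p % 2 = 1) (h : lo < p) (ha : Alt r1 l1) (hh : hd r1 l1 = true) :
    Alt (upIn U p lo p H r0 r1) (upLast p p l1) := by
  unfold upIn upLast
  have hne : ¬ lo = 1 := by omega
  simp only [if_true, hne, if_false, mapPts_nil, List.nil_append]
  obtain ⟨n, hn⟩ : ∃ n, p + 1 - (lo + 1) = n + 1 := ⟨p - lo - 1, by omega⟩
  rw [hn, List.range'_1_concat, List.map_append, List.map_cons, List.map_nil, List.append_assoc,
    List.singleton_append, Alt_append, Alt_mapPts]
  refine ⟨?_, ?_, ha⟩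
  · refine alt_mid U lo n H _ ?_
    simp only
    congr 1
    omega
  · have e1 : hd (mapPts (out : L → NL L) r1) l1 = hd r1 l1 := by
      cases r1 <;> rfl
    rw [e1, hh]
    have e2 : lo + 1 + n - 1 = p - 1 := by omega
    simp only [e2, pg]
    have e3 : ¬ (p - 1) % 2 = 1 := by omega
    simp [e3]

end chain

section outer

variable {V ι : Type} [Fintype ι] [DecidableEq ι] {N : Net V ι} {L : Type}
  [LinearOrder L] {u v : V} (S : Std N L u v)

open Classical in
/-- The place of an old point in the new drawing. -/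
noncomputable def om (p : ℕ) (δ : ℤ) (up : Bool) (y : L) : NL L :=
  if h : ∃ t, S.x t = y then
    P (S.D.pos u) (if up then p else 1) (4 * (h.choose.val : ℤ) + 2 + δ)
  else out y

/-- The place of an old arc in the new drawing. -/
noncomputable def oA (p : ℕ) (δ : ℤ) (A : Arc L) : Arc (NL L) :=
  ⟨om S p δ A.up A.p, om S p δ A.up A.q, A.up⟩

/-- Not in the open interval between `u` and `v`. -/
def Nr (y : L) : Prop := ¬ (S.D.pos u < y ∧ y < S.D.pos v)

theorem om_x (p : ℕ) (δ : ℤ) (up : Bool) (t : Fin S.n) :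
    om S p δ up (S.x t) = P (S.D.pos u) (if up then p else 1) (4 * (t.val : ℤ) + 2 + δ) := by
  unfold om
  have h : ∃ t', S.x t' = S.x t := ⟨t, rfl⟩
  rw [dif_pos h, S.x_mono.injective h.choose_spec]

theorem Nr.ne {y : L} (h : Nr S y) (t : Fin S.n) : S.x t ≠ y := by
  rintro rfl
  exact h (S.x_btw t)

theorem om_out (p : ℕ) (δ : ℤ) (up : Bool) {y : L} (h : Nr S y) : om S p δ up y = out y := by
  unfold om
  rw [dif_neg]
  rintro ⟨t, ht⟩
  exact h.ne S t ht

theorem isO_oA (p : ℕ) (δ : ℤ) (A : Arc L) : IsO (S.D.pos u) p (oA S p δ A) := by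
  have aux : ∀ y, (∃ y', om S p δ A.up y = out y') ∨
      ∃ H, om S p δ A.up y = P (S.D.pos u) (if A.up then p else 1) H := by
    intro y
    unfold om
    split_ifs
    all_goals first
      | exact Or.inl ⟨_, rfl⟩
      | exact Or.inr ⟨_, rfl⟩
  exact ⟨aux _, aux _⟩

theorem SC_x_out {p : ℕ} (hp : 1 ≤ p) (δ : ℤ) (up : Bool) (t : Fin S.n) {y : L} (h : Nr S y) :
    SC (S.x t) y (om S p δ up (S.x t)) (out y) := by
  rw [om_x]
  have hk : 1 ≤ (if up then p else 1) := by
    split_ifs
    · exact hp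
    · exact le_rfl
  obtain ⟨h1, h2⟩ := S.x_btw t
  unfold SC
  rw [P_lt_out hk, out_lt_P hk]
  refine ⟨⟨fun h3 => h1.trans h3, fun h3 => ?_⟩, ⟨fun h3 => ?_, fun h3 => h3.trans_lt h1⟩⟩
  · by_contra h4
    exact h ⟨h3, (not_lt.mp h4).trans_lt h2⟩
  · by_contra h4
    exact h ⟨not_le.mp h4, h3.trans h2⟩

/-- The arcs of `Q` only touch rows as prescribed by `o`. -/
def PL (Q : List (Arc L)) (o : Option (Fin S.n × Bool)) : Prop :=
  ∀ A ∈ Q, (Nr S A.p ∨ ∃ a, o = some a ∧ A.p = S.x a.1 ∧ A.up = a.2) ∧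
    (Nr S A.q ∨ ∃ a, o = some a ∧ A.q = S.x a.1 ∧ A.up = a.2)

theorem crL_oA {p : ℕ} (hp : p % 2 = 1) {δ δ' : ℤ} (hδ : -1 ≤ δ ∧ δ ≤ 1)
    (hδ' : -1 ≤ δ' ∧ δ' ≤ 1) {Q Q' : List (Arc L)}
    {o o' : Option (Fin S.n × Bool)} (hQ : PL S Q o) (hQ' : PL S Q' o')
    (ho : o = o' → o ≠ none → δ = δ') :
    crL (Q.map (oA S p δ)) (Q'.map (oA S p δ')) = crL Q Q' := by
  refine crL_congr _ _ fun A hA B hB => ?_
  refine X_congr rfl rfl fun hup => ?_
  change A.up = B.up at hup
  have aux : ∀ y y', (Nr S y ∨ ∃ a, o = some a ∧ y = S.x a.1 ∧ A.up = a.2) →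
      (Nr S y' ∨ ∃ a, o' = some a ∧ y' = S.x a.1 ∧ B.up = a.2) →
      SC (om S p δ A.up y) (om S p δ' B.up y') y y' := by
    rintro y y' (h | ⟨a, ha, rfl, ha2⟩) (h' | ⟨b, hb, rfl, hb2⟩)
    · rw [om_out S _ _ _ h, om_out S _ _ _ h']
      exact ⟨out_lt_out, out_lt_out⟩
    · rw [om_out S _ _ _ h]
      have := (SC_x_out S (p := p) (by omega) δ' B.up b.1 h)
      exact ⟨this.2.symm, this.1.symm⟩
    · rw [om_out S _ _ _ h']
      have := (SC_x_out S (p := p) (by omega) δ A.up a.1 h')
      exact ⟨this.1.symm, this.2.symm⟩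
    · rw [om_x, om_x, hup]
      have hodd : (if B.up = true then p else 1) % 2 = 1 := by
        split_ifs
        · exact hp
        · rfl
      unfold SC
      rw [P_lt_P, P_lt_P, S.x_mono.lt_iff_lt, S.x_mono.lt_iff_lt]
      simp only [lt_self_iff_false, true_and, false_or, hodd, if_true]
      rw [Fin.lt_def, Fin.lt_def]
      by_cases hab : a.1 = b.1
      · have h1 : a = b := Prod.ext hab (by rw [← ha2, ← hb2, hup])
        subst h1
        have h2 := ho (ha.trans hb.symm) (by rw [ha]; simp)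
        subst h2
        simp
      · have : a.1.val ≠ b.1.val := fun h => hab (Fin.ext h)
        constructor <;> omega
  exact ⟨aux _ _ (hQ A hA).1 (hQ' B hB).1, aux _ _ (hQ A hA).1 (hQ' B hB).2,
    aux _ _ (hQ A hA).2 (hQ' B hB).1, aux _ _ (hQ A hA).2 (hQ' B hB).2⟩

theorem nr_pos (w : V) : Nr S (S.D.pos w) := S.good.nf.2 w

theorem alt_lo (t : Fin S.n) : Alt (S.lo t) false := by
  have h := S.alt (S.row t)
  rw [S.inner_eq, Alt_append] at h
  exact h.1

theorem hd_hi (t : Fin S.n) : hd (S.hi t) (S.D.last (S.row t)) = true := by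
  have h := S.alt (S.row t)
  rw [S.inner_eq, Alt_append] at h
  have h2 := h.2.1
  simp only [ne_eq] at h2
  cases hc : hd (S.hi t) (S.D.last (S.row t))
  · exact absurd hc.symm h2
  · rfl

theorem alt_hi (t : Fin S.n) : Alt (S.hi t) (S.D.last (S.row t)) := by
  have h := S.alt (S.row t)
  rw [S.inner_eq, Alt_append] at h
  exact h.2.2

theorem nodup_lohi (t : Fin S.n) : ((S.lo t ++ S.hi t).map Prod.snd).Nodup := by
  have h := S.D.nodup (S.row t)
  rw [S.inner_eq] at h
  refine h.sublist ?_
  refine List.Sublist.map _ ?_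
  exact List.Sublist.append (List.Sublist.refl _) (List.sublist_cons_self _ _)

theorem PL_part (a : Fin S.n × Bool) : PL S (S.part a) (some a) := by
  obtain ⟨t, b⟩ := a
  intro A hA
  cases b
  · simp only [Std.part, Bool.false_eq_true, if_false] at hA
    have h0 : S.x t ∉ (S.lo t).map Prod.snd := by
      intro h
      obtain ⟨y, hy, hyx⟩ := List.mem_map.mp h
      exact S.lo_out t y hy (by rw [hyx]; exact S.x_btw t)
    have h1 := arcs_ends hA
    have h2 := arcs_last hA h0 ((nr_pos S _).ne S t).symm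
    refine ⟨Or.inl ?_, ?_⟩
    · rcases h1.1 with h | h
      · rw [h]
        exact nr_pos S _
      · obtain ⟨y, hy, hyx⟩ := List.mem_map.mp h
        rw [← hyx]
        exact S.lo_out t y hy
    · rcases h1.2 with h | h
      · exact Or.inr ⟨_, rfl, h, h2.2 h⟩
      · obtain ⟨y, hy, hyx⟩ := List.mem_map.mp h
        rw [← hyx]
        exact Or.inl (S.lo_out t y hy)
  · simp only [Std.part, if_true] at hA
    have h0 : S.x t ∉ (S.hi t).map Prod.snd := by
      intro h
      obtain ⟨y, hy, hyx⟩ := List.mem_map.mp h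
      exact S.hi_out t y hy (by rw [hyx]; exact S.x_btw t)
    have h1 := arcs_ends hA
    have h2 := arcs_first hA h0 ((nr_pos S _).ne S t)
    have h3 : fp (S.hi t) (S.D.last (S.row t)) = true := by
      rw [← hd_hi S t]
      cases S.hi t <;> rfl
    refine ⟨?_, Or.inl ?_⟩
    · rcases h1.1 with h | h
      · exact Or.inr ⟨_, rfl, h, (h2.2 h).trans h3⟩
      · obtain ⟨y, hy, hyx⟩ := List.mem_map.mp h
        rw [← hyx]
        exact Or.inl (S.hi_out t y hy)
    · rcases h1.2 with h | h
      · rw [h]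
        exact nr_pos S _
      · obtain ⟨y, hy, hyx⟩ := List.mem_map.mp h
        rw [← hyx]
        exact S.hi_out t y hy

theorem PL_path {i : ι} (hi : ∀ t, S.row t ≠ i) : PL S (S.D.path i) none := by
  intro A hA
  have h1 := arcs_ends hA
  refine ⟨Or.inl ?_, Or.inl ?_⟩
  · rcases h1.1 with h | h
    · rw [h]
      exact nr_pos S _
    · obtain ⟨y, hy, hyx⟩ := List.mem_map.mp h
      rw [← hyx]
      exact S.other i hi y hy
  · rcases h1.2 with h | h
    · rw [h]
      exact nr_pos S _
    · obtain ⟨y, hy, hyx⟩ := List.mem_map.mp h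
      rw [← hyx]
      exact S.other i hi y hy

theorem arcs_oA_last (p : ℕ) (δ : ℤ) {a : L} {r : List (Bool × L)} (s : Bool) (b : L)
    (ha : Nr S a) (hr : ∀ y ∈ r, Nr S y.2) :
    (arcs a r s b).map (oA S p δ) = arcs (out a) (mapPts out r) s (om S p δ s b) := by
  induction r generalizing a with
  | nil =>
    simp only [arcs, List.map_cons, List.map_nil, oA, mapPts_nil, om_out S p δ s ha]
  | cons x r ih =>
    obtain ⟨s₁, q⟩ := x
    have hq : Nr S q := hr _ (List.mem_cons_self)
    simp only [arcs, List.map_cons, mapPts_cons]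
    rw [ih hq (fun y hy => hr y (List.mem_cons_of_mem _ hy))]
    simp only [oA, om_out S p δ _ ha, om_out S p δ _ hq]

theorem arcs_oA_first (p : ℕ) (δ : ℤ) (a : L) {r : List (Bool × L)} (s : Bool) {b : L}
    (hb : Nr S b) (hr : ∀ y ∈ r, Nr S y.2) :
    (arcs a r s b).map (oA S p δ) = arcs (om S p δ (hd r s) a) (mapPts out r) s (out b) := by
  cases r with
  | nil =>
    simp only [arcs, List.map_cons, List.map_nil, oA, mapPts_nil, om_out S p δ s hb, hd_nil]
  | cons x r =>
    obtain ⟨s₁, q⟩ := x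
    have hq : Nr S q := hr _ (List.mem_cons_self)
    simp only [arcs, List.map_cons, mapPts_cons, hd_cons]
    rw [arcs_oA_last S p δ s b hq (fun y hy => hr y (List.mem_cons_of_mem _ hy)),
      om_out S p δ s hb]
    simp only [oA, om_out S p δ _ hq]

theorem part_false (p : ℕ) (δ : ℤ) (t : Fin S.n) :
    (S.part (t, false)).map (oA S p δ) = arcs (out (S.D.pos (N.src (S.row t))))
      (mapPts out (S.lo t)) false (P (S.D.pos u) 1 (4 * (t.val : ℤ) + 2 + δ)) := by
  simp only [Std.part, Bool.false_eq_true, if_false]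
  rw [arcs_oA_last S p δ false _ (nr_pos S _) (S.lo_out t), om_x]
  rfl

theorem part_true (p : ℕ) (δ : ℤ) (t : Fin S.n) :
    (S.part (t, true)).map (oA S p δ) = arcs (P (S.D.pos u) p (4 * (t.val : ℤ) + 2 + δ))
      (mapPts out (S.hi t)) (S.D.last (S.row t)) (out (S.D.pos (N.tgt (S.row t)))) := by
  simp only [Std.part, if_true]
  rw [arcs_oA_first S p δ _ _ (nr_pos S _) (S.hi_out t), om_x, hd_hi]
  rfl

theorem path_out (p : ℕ) (δ : ℤ) {i : ι} (hi : ∀ t, S.row t ≠ i) :
    (S.D.path i).map (oA S p δ) = arcs (out (S.D.pos (N.src i)))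
      (mapPts out (S.D.inner i)) (S.D.last i) (out (S.D.pos (N.tgt i))) := by
  unfold Drawing.path
  rw [arcs_oA_last S p δ _ _ (nr_pos S _) (S.other i hi), om_out S _ _ _ (nr_pos S _)]

theorem path_row (t : Fin S.n) : S.D.path (S.row t) = S.part (t, false) ++ S.part (t, true) := by
  unfold Drawing.path
  rw [S.inner_eq, MP60f107.arcs_append]
  rfl

end outer

section codes

variable {V ι : Type} [Fintype V] [DecidableEq V] [Fintype ι] [DecidableEq ι] {N : Net V ι}
  {L : Type} [LinearOrder L] {u v : V} (S : Std N L u v)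

/-- The lane of a moved vertex. -/
def ell (κ : V → ℕ) (w : V) : ℕ := 2 * κ w + 2

/-- The last lane. -/
def pp (κ : V → ℕ) : ℕ := 2 * (univ.sup κ + 1) + 1

open Classical in
/-- The height of the vertex in lane `j`. -/
noncomputable def vh (r κ : V → ℕ) (j : ℕ) : ℤ :=
  if h : ∃ w, ell κ w = j then 4 * (r h.choose : ℤ) else 0

/-- First lane of the strand of row `t`. -/
def loI (G : Finset (Fin S.n × Bool)) (κ : V → ℕ) (t : Fin S.n) : ℕ :=
  if (t, false) ∈ G then
    (if (t, true) ∈ G then min (ell κ (S.e (t, false))) (ell κ (S.e (t, true)))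
      else ell κ (S.e (t, false)))
  else 1

/-- Last lane of the strand of row `t`. -/
def hiI (G : Finset (Fin S.n × Bool)) (κ : V → ℕ) (t : Fin S.n) : ℕ :=
  if (t, true) ∈ G then
    (if (t, false) ∈ G then max (ell κ (S.e (t, false))) (ell κ (S.e (t, true)))
      else ell κ (S.e (t, true)))
  else pp κ

/-- A code for a new edge: an old edge without row, or (row, first lane, last lane, shift). -/
abbrev Code : Type := ι ⊕ (Fin S.n × ℕ × ℕ × ℤ)

open Classical in
/-- The code of an edge. -/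
noncomputable def codeI (G : Finset (Fin S.n × Bool)) (κ : V → ℕ) (i : ι) : Code S :=
  if h : ∃ t, S.row t = i then
    Sum.inr (h.choose, loI S G κ h.choose, hiI S G κ h.choose, 0)
  else Sum.inl i

/-- The code of a guide. -/
def codeW (κ : V → ℕ) (h : V → Fin S.n × Bool) (w : V) : Code S :=
  if (h w).2 then Sum.inr ((h w).1, ell κ w, pp κ, 1)
  else Sum.inr ((h w).1, 1, ell κ w, -1)

/-- The old arcs used by a new edge. -/
def OPc (κ : V → ℕ) : Code S → List (Arc L)
  | Sum.inl i => S.D.path i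
  | Sum.inr (t, lo, hi, _) => (if lo = 1 then S.part (t, false) else [])
      ++ (if hi = pp κ then S.part (t, true) else [])

/-- The strand of a new edge. -/
noncomputable def LAc (r κ : V → ℕ) : Code S → List (Arc (NL L))
  | Sum.inl _ => []
  | Sum.inr (t, lo, hi, δ) =>
      lad (S.D.pos u) (vh r κ) lo hi (4 * (t.val : ℤ) + 2 + δ)

theorem codeI_row (G : Finset (Fin S.n × Bool)) (κ : V → ℕ) (t : Fin S.n) :
    codeI S G κ (S.row t) = Sum.inr (t, loI S G κ t, hiI S G κ t, 0) := by
  unfold codeI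
  have h : ∃ t', S.row t' = S.row t := ⟨t, rfl⟩
  rw [dif_pos h, S.row_inj h.choose_spec]

theorem codeI_other (G : Finset (Fin S.n × Bool)) (κ : V → ℕ) {i : ι}
    (hi : ∀ t, S.row t ≠ i) : codeI S G κ i = Sum.inl i := by
  unfold codeI
  rw [dif_neg]
  rintro ⟨t, ht⟩
  exact hi t ht

omit [Fintype V] [DecidableEq V] in
theorem ell_inj {κ : V → ℕ} (hκ : Function.Injective κ) {w w' : V}
    (h : ell κ w = ell κ w') : w = w' := by
  unfold ell at h
  exact hκ (by omega)

omit [DecidableEq V] in
theorem ell_lt (κ : V → ℕ) (w : V) : ell κ w < pp κ := by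
  unfold ell pp
  have := Finset.le_sup (f := κ) (Finset.mem_univ w)
  omega

omit [Fintype V] [DecidableEq V] in
theorem ell_even (κ : V → ℕ) (w : V) : ell κ w % 2 = 0 := by
  unfold ell
  omega

omit [Fintype V] [DecidableEq V] in
theorem ell_ge (κ : V → ℕ) (w : V) : 2 ≤ ell κ w := by
  unfold ell
  omega

omit [DecidableEq V] in
theorem pp_odd (κ : V → ℕ) : pp κ % 2 = 1 := by
  unfold pp
  omega

theorem vh_ell {r κ : V → ℕ} (hκ : Function.Injective κ) (w : V) :
    vh r κ (ell κ w) = 4 * (r w : ℤ) := by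
  unfold vh
  have h : ∃ w', ell κ w' = ell κ w := ⟨w, rfl⟩
  rw [dif_pos h, ell_inj hκ h.choose_spec]

end codes

/-- A chain. -/
structure Ch (M : Type) where
  s : M
  r : List (Bool × M)
  l : Bool
  f : M

/-- The arcs of a chain. -/
def Ch.arcs {M : Type} (c : Ch M) : List (Arc M) := MP60f107.arcs c.s c.r c.l c.f

theorem exists_drawing {V' ι' M : Type} [LinearOrder M] (N' : Net V' ι') (pos : V' → M)
    (hinj : Function.Injective pos) (c : ι' → Ch M)
    (hends : ∀ e, ((c e).s = pos (N'.src e) ∧ (c e).f = pos (N'.tgt e)) ∨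
      ((c e).s = pos (N'.tgt e) ∧ (c e).f = pos (N'.src e)))
    (hnd : ∀ e, ((c e).r.map Prod.snd).Nodup)
    (hdisj : ∀ e e', e ≠ e' → ∀ x ∈ (c e).r, ∀ y ∈ (c e').r, x.2 ≠ y.2)
    (havoid : ∀ e, ∀ x ∈ (c e).r, ∀ w, x.2 ≠ pos w) :
    ∃ H : Drawing N' M, (∀ e e', crL (H.path e) (H.path e') = crL (c e).arcs (c e').arcs) ∧
      ∀ e, Alt (c e).r (c e).l → Alt (H.inner e) (H.last e) := by
  have key : ∀ e, ∃ (r' : List (Bool × M)) (l' : Bool),
      (∀ Q, crL (MP60f107.arcs (pos (N'.src e)) r' l' (pos (N'.tgt e))) Q = crL (c e).arcs Q) ∧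
      r'.map Prod.snd ∈ [(c e).r.map Prod.snd, ((c e).r.map Prod.snd).reverse] ∧
      (Alt (c e).r (c e).l → Alt r' l') := by
    intro e
    rcases hends e with ⟨h1, h2⟩ | ⟨h1, h2⟩
    · refine ⟨(c e).r, (c e).l, fun Q => ?_, by simp, fun h => h⟩
      rw [← h1, ← h2]
      rfl
    · refine ⟨(rev (c e).r (c e).l).1, (rev (c e).r (c e).l).2, fun Q => ?_, ?_, fun h => ?_⟩
      · rw [← h1, ← h2, MP60f107.arcs_rev, crL_rev_left]
        rfl
      · rw [MP60f107.map_snd_rev]
        simp
      · rw [Alt_rev]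
        exact h
  choose r' l' h1 h2 h3 using key
  have hmem : ∀ e x, x ∈ r' e → ∃ y ∈ (c e).r, y.2 = x.2 := by
    intro e x hx
    have hx' : x.2 ∈ (r' e).map Prod.snd := List.mem_map.mpr ⟨x, hx, rfl⟩
    have h := h2 e
    rw [List.mem_cons, List.mem_singleton] at h
    rcases h with h | h
    · rw [h] at hx'
      obtain ⟨y, hy, hyx⟩ := List.mem_map.mp hx'
      exact ⟨y, hy, hyx⟩
    · rw [h, List.mem_reverse] at hx'
      obtain ⟨y, hy, hyx⟩ := List.mem_map.mp hx'
      exact ⟨y, hy, hyx⟩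
  refine ⟨⟨pos, r', l', hinj, ?_, ?_, ?_⟩, ?_, ?_⟩
  · intro e
    have h := h2 e
    rw [List.mem_cons, List.mem_singleton] at h
    rcases h with h | h
    · rw [h]
      exact hnd e
    · rw [h, List.nodup_reverse]
      exact hnd e
  · intro e e' hee x hx y hy
    obtain ⟨x', hx', hxx⟩ := hmem e x hx
    obtain ⟨y', hy', hyy⟩ := hmem e' y hy
    rw [← hxx, ← hyy]
    exact hdisj e e' hee x' hx' y' hy'
  · intro e x hx w
    obtain ⟨x', hx', hxx⟩ := hmem e x hx
    rw [← hxx]
    exact havoid e x' hx' w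
  · intro e e'
    change crL (MP60f107.arcs (pos (N'.src e)) (r' e) (l' e) (pos (N'.tgt e)))
      (MP60f107.arcs (pos (N'.src e')) (r' e') (l' e') (pos (N'.tgt e'))) = _
    rw [h1 e, crL_comm, h1 e', crL_comm]
  · intro e h
    exact h3 e h

section codes

variable {V ι : Type} [Fintype V] [DecidableEq V] [Fintype ι] [DecidableEq ι] {N : Net V ι}
  {L : Type} [LinearOrder L] {u v : V} (S : Std N L u v)

/-- The chain of a code. -/
noncomputable def chOf (r κ : V → ℕ) : Code S → Ch (NL L)
  | Sum.inl i => ⟨out (S.D.pos (N.src i)), mapPts out (S.D.inner i), S.D.last i,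
      out (S.D.pos (N.tgt i))⟩
  | Sum.inr (t, lo, hi, δ) =>
      ⟨upS (S.D.pos u) (vh r κ) lo (S.D.pos (N.src (S.row t))),
        upIn (S.D.pos u) (pp κ) lo hi (4 * (t.val : ℤ) + 2 + δ) (S.lo t) (S.hi t),
        upLast (pp κ) hi (S.D.last (S.row t)),
        upF (S.D.pos u) (vh r κ) (pp κ) hi (S.D.pos (N.tgt (S.row t)))⟩

/-- Valid codes. -/
def Val (κ : V → ℕ) : Code S → Prop
  | Sum.inl i => ∀ t, S.row t ≠ i
  | Sum.inr (_, lo, hi, δ) => (lo = 1 ∨ (lo % 2 = 0 ∧ 2 ≤ lo)) ∧
      (hi = pp κ ∨ (hi % 2 = 0 ∧ hi < pp κ)) ∧ lo < hi ∧ (-1 ≤ δ ∧ δ ≤ 1)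

/-- Compatible codes. -/
def Comp (κ : V → ℕ) : Code S → Code S → Prop
  | Sum.inl i, Sum.inl j => i ≠ j
  | Sum.inl _, Sum.inr _ => True
  | Sum.inr _, Sum.inl _ => True
  | Sum.inr (t, lo, hi, δ), Sum.inr (t', lo', hi', δ') =>
      t = t' → δ ≠ δ' ∧ ¬ (lo = 1 ∧ lo' = 1) ∧ ¬ (hi = pp κ ∧ hi' = pp κ)

theorem Comp.symm {κ : V → ℕ} {c c' : Code S} (h : Comp S κ c c') : Comp S κ c' c := by
  match c, c', h with
  | Sum.inl i, Sum.inl j, h => exact Ne.symm h
  | Sum.inl _, Sum.inr _, _ => trivial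
  | Sum.inr _, Sum.inl _, _ => trivial
  | Sum.inr (t, lo, hi, δ), Sum.inr (t', lo', hi', δ'), h =>
    intro htt
    obtain ⟨h1, h2, h3⟩ := h htt.symm
    exact ⟨h1.symm, fun h => h2 h.symm, fun h => h3 h.symm⟩

/-- The shift of a code. -/
def dl : Code S → ℤ
  | Sum.inl _ => 0
  | Sum.inr (_, _, _, δ) => δ

theorem arcs_chOf (r κ : V → ℕ) {c : Code S} (hc : Val S κ c) :
    (chOf S r κ c).arcs.Perm ((OPc S κ c).map (oA S (pp κ) (dl S c)) ++ LAc S r κ c) := by
  match c, hc with
  | Sum.inl i, hc =>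
    simp only [chOf, Ch.arcs, OPc, LAc, dl, List.append_nil]
    rw [path_out S (pp κ) 0 hc]
  | Sum.inr (t, lo, hi, δ), hc =>
    obtain ⟨h1, h2, h3, h4⟩ := hc
    simp only [chOf, Ch.arcs, OPc, LAc, dl]
    rw [arcs_up _ _ _ _ _ _ _ _ (pp_odd κ) h1 h2 h3, ← part_false, ← part_true]
    have e1 : (if lo = 1 then (S.part (t, false)).map (oA S (pp κ) δ) else [])
        = (if lo = 1 then S.part (t, false) else []).map (oA S (pp κ) δ) := by
      split_ifs <;> rfl
    have e2 : (if hi = pp κ then (S.part (t, true)).map (oA S (pp κ) δ) else [])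
        = (if hi = pp κ then S.part (t, true) else []).map (oA S (pp κ) δ) := by
      split_ifs <;> rfl
    rw [e1, e2, List.map_append]
    simp only [List.append_assoc]
    exact List.Perm.append_left _ List.perm_append_comm

theorem mem_OPc {κ : V → ℕ} {c : Code S} (hc : Val S κ c) {A : Arc L} (hA : A ∈ OPc S κ c) :
    ∃ (Q : List (Arc L)) (o : Option (Fin S.n × Bool)), A ∈ Q ∧ PL S Q o ∧
      (∀ a, o = some a → ∃ lo hi δ, c = Sum.inr (a.1, lo, hi, δ) ∧ (a.2 = false → lo = 1) ∧
        (a.2 = true → hi = pp κ)) := by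
  match c, hc, hA with
  | Sum.inl i, hc, hA =>
    exact ⟨S.D.path i, none, hA, PL_path S hc, by simp⟩
  | Sum.inr (t, lo, hi, δ), hc, hA =>
    simp only [OPc, List.mem_append] at hA
    rcases hA with hA | hA
    · split_ifs at hA with h
      · refine ⟨_, _, hA, PL_part S _, ?_⟩
        rintro a ha
        rw [Option.some_inj] at ha
        subst ha
        exact ⟨lo, hi, δ, rfl, fun _ => h, by simp⟩
      · simp at hA
    · split_ifs at hA with h
      · refine ⟨_, _, hA, PL_part S _, ?_⟩
        rintro a ha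
        rw [Option.some_inj] at ha
        subst ha
        exact ⟨lo, hi, δ, rfl, by simp, fun _ => h⟩
      · simp at hA

theorem dl_bound {κ : V → ℕ} {c : Code S} (hc : Val S κ c) : -1 ≤ dl S c ∧ dl S c ≤ 1 := by
  match c, hc with
  | Sum.inl i, hc => simp [dl]
  | Sum.inr (t, lo, hi, δ), hc => exact hc.2.2.2

theorem isO_OPc (κ : V → ℕ) (c : Code S) :
    ∀ A ∈ (OPc S κ c).map (oA S (pp κ) (dl S c)), IsO (S.D.pos u) (pp κ) A := by
  intro A hA
  obtain ⟨B, _, rfl⟩ := List.mem_map.mp hA
  exact isO_oA S _ _ _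

theorem out_LAc {r κ : V → ℕ} {c : Code S} (hc : Val S κ c) {Q : List (Arc (NL L))}
    (hQ : ∀ A ∈ Q, IsO (S.D.pos u) (pp κ) A) : crL Q (LAc S r κ c) = 0 := by
  match c, hc with
  | Sum.inl i, hc => exact crL_nil_right _
  | Sum.inr (t, lo, hi, δ), hc =>
    obtain ⟨h1, h2, h3, h4⟩ := hc
    exact crL_out_lad (pp_odd κ) hQ _ (by omega) (by omega) _

theorem crL_chOf {r κ : V → ℕ} {c c' : Code S} (hc : Val S κ c) (hc' : Val S κ c')
    (hcc : Comp S κ c c' ∨ c = c') : crL (chOf S r κ c).arcs (chOf S r κ c').arcs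
      = crL (OPc S κ c) (OPc S κ c') + crL (LAc S r κ c) (LAc S r κ c') := by
  rw [crL_perm_left (arcs_chOf S r κ hc), crL_comm, crL_perm_left (arcs_chOf S r κ hc'),
    crL_comm, crL_append_left, crL_append_right, crL_append_right,
    out_LAc S hc' (isO_OPc S κ c), crL_comm (LAc S r κ c), out_LAc S hc (isO_OPc S κ c'),
    zero_add, add_zero]
  congr 1
  refine crL_congr _ _ fun A hA B hB => ?_
  obtain ⟨Q, o, hAQ, hQ, ho⟩ := mem_OPc S hc hA
  obtain ⟨Q', o', hBQ, hQ', ho'⟩ := mem_OPc S hc' hB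
  have h1 : PL S [A] o := by
    intro A' hA'
    rw [List.mem_singleton] at hA'
    subst hA'
    exact hQ _ hAQ
  have h2 : PL S [B] o' := by
    intro A' hA'
    rw [List.mem_singleton] at hA'
    subst hA'
    exact hQ' _ hBQ
  have := crL_oA S (pp_odd κ) (dl_bound S hc) (dl_bound S hc') h1 h2 (by
    intro hoo hno
    rcases hcc with hcc | rfl
    · exfalso
      obtain ⟨a, ha⟩ := Option.ne_none_iff_exists'.mp hno
      obtain ⟨lo, hi, δ, rfl, h3, h4⟩ := ho a ha
      obtain ⟨lo', hi', δ', rfl, h5, h6⟩ := ho' a (hoo ▸ ha)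
      obtain ⟨_, h7, h8⟩ := hcc rfl
      cases ha2 : a.2
      · exact h7 ⟨h3 ha2, h5 ha2⟩
      · exact h8 ⟨h4 ha2, h6 ha2⟩
    · rfl)
  simpa using this

theorem nodup_chOf {r κ : V → ℕ} {c : Code S} (hc : Val S κ c) :
    ((chOf S r κ c).r.map Prod.snd).Nodup := by
  match c, hc with
  | Sum.inl i, hc =>
    simp only [chOf]
    rw [map_snd_mapPts]
    exact (S.D.nodup i).map (fun a b hab => out_inj.mp hab)
  | Sum.inr (t, lo, hi, δ), hc =>
    obtain ⟨h1, h2, h3, h4⟩ := hc
    exact nodup_upIn (by omega) (nodup_lohi S t)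

theorem mem_chOf {r κ : V → ℕ} {c : Code S} (hc : Val S κ c) {x : Bool × NL L}
    (hx : x ∈ (chOf S r κ c).r) :
    (∃ i, c = Sum.inl i ∧ ∃ y ∈ S.D.inner i, x.2 = out y.2) ∨
    (∃ t lo hi δ, c = Sum.inr (t, lo, hi, δ) ∧
      ((lo = 1 ∧ ∃ y ∈ S.lo t, x.2 = out y.2) ∨ (hi = pp κ ∧ ∃ y ∈ S.hi t, x.2 = out y.2) ∨
        ∃ j, 1 ≤ j ∧ j ≤ pp κ ∧ x.2 = P (S.D.pos u) j (4 * (t.val : ℤ) + 2 + δ))) := by
  match c, hc, hx with
  | Sum.inl i, hc, hx =>
    left
    obtain ⟨y, hy, rfl⟩ := List.mem_map.mp hx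
    exact ⟨i, rfl, y, hy, rfl⟩
  | Sum.inr (t, lo, hi, δ), hc, hx =>
    right
    obtain ⟨h1, h2, h3, h4⟩ := hc
    exact ⟨t, lo, hi, δ, rfl, mem_upIn (by omega) (by omega) hx⟩

theorem lo_mem (t : Fin S.n) {y : Bool × L} (hy : y ∈ S.lo t) : y ∈ S.D.inner (S.row t) := by
  rw [S.inner_eq]
  exact List.mem_append_left _ hy

theorem hi_mem (t : Fin S.n) {y : Bool × L} (hy : y ∈ S.hi t) : y ∈ S.D.inner (S.row t) := by
  rw [S.inner_eq]
  exact List.mem_append_right _ (List.mem_cons_of_mem _ hy)

theorem lo_hi_ne (t : Fin S.n) {y y' : Bool × L} (hy : y ∈ S.lo t) (hy' : y' ∈ S.hi t) :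
    y.2 ≠ y'.2 := by
  have h := nodup_lohi S t
  rw [List.map_append, List.nodup_append'] at h
  intro hyy
  exact (List.disjoint_left.mp h.2.2) (List.mem_map.mpr ⟨y, hy, rfl⟩)
    (by rw [hyy]; exact List.mem_map.mpr ⟨y', hy', rfl⟩)

theorem disj_chOf {r κ : V → ℕ} {c c' : Code S} (hc : Val S κ c) (hc' : Val S κ c')
    (hcc : Comp S κ c c') :
    ∀ x ∈ (chOf S r κ c).r, ∀ y ∈ (chOf S r κ c').r, x.2 ≠ y.2 := by
  intro x hx x' hx' hxx
  rcases mem_chOf S hc hx with ⟨i, rfl, y, hy, hxy⟩ | ⟨t, lo, hi, δ, rfl, h⟩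
  · rcases mem_chOf S hc' hx' with ⟨i', rfl, y', hy', hxy'⟩ | ⟨t', lo', hi', δ', rfl, h'⟩
    · rw [hxy, hxy', out_inj] at hxx
      exact S.D.disj i i' hcc y hy y' hy' hxx
    · rcases h' with ⟨_, y', hy', hxy'⟩ | ⟨_, y', hy', hxy'⟩ | ⟨j, hj, _, hxy'⟩
      · rw [hxy, hxy', out_inj] at hxx
        exact S.D.disj i _ (Ne.symm (hc t')) y hy y' (lo_mem S t' hy') hxx
      · rw [hxy, hxy', out_inj] at hxx
        exact S.D.disj i _ (Ne.symm (hc t')) y hy y' (hi_mem S t' hy') hxx
      · rw [hxy, hxy'] at hxx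
        exact out_ne_P hj hxx
  · rcases mem_chOf S hc' hx' with ⟨i', rfl, y', hy', hxy'⟩ | ⟨t', lo', hi', δ', rfl, h'⟩
    · rcases h with ⟨_, y, hy, hxy⟩ | ⟨_, y, hy, hxy⟩ | ⟨j, hj, _, hxy⟩
      · rw [hxy, hxy', out_inj] at hxx
        exact S.D.disj _ i' (hc' t) y (lo_mem S t hy) y' hy' hxx
      · rw [hxy, hxy', out_inj] at hxx
        exact S.D.disj _ i' (hc' t) y (hi_mem S t hy) y' hy' hxx
      · rw [hxy, hxy'] at hxx
        exact out_ne_P hj hxx.symm
    · by_cases htt : t = t'
      · subst htt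
        obtain ⟨g1, g2, g3⟩ := hcc rfl
        rcases h with ⟨a1, y, hy, hxy⟩ | ⟨a1, y, hy, hxy⟩ | ⟨j, hj, _, hxy⟩ <;>
          rcases h' with ⟨a2, y', hy', hxy'⟩ | ⟨a2, y', hy', hxy'⟩ | ⟨j', hj', _, hxy'⟩ <;>
          rw [hxy, hxy'] at hxx
        · exact g2 ⟨a1, a2⟩
        · exact lo_hi_ne S t hy hy' (out_inj.mp hxx)
        · exact out_ne_P hj' hxx
        · exact lo_hi_ne S t hy' hy (out_inj.mp hxx).symm
        · exact g3 ⟨a1, a2⟩
        · exact out_ne_P hj' hxx
        · exact out_ne_P hj hxx.symm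
        · exact out_ne_P hj hxx.symm
        · have := (P_inj.mp hxx).2
          exact g1 (by omega)
      · have hne : S.row t ≠ S.row t' := fun h => htt (S.row_inj h)
        rcases h with ⟨a1, y, hy, hxy⟩ | ⟨a1, y, hy, hxy⟩ | ⟨j, hj, _, hxy⟩ <;>
          rcases h' with ⟨a2, y', hy', hxy'⟩ | ⟨a2, y', hy', hxy'⟩ | ⟨j', hj', _, hxy'⟩ <;>
          rw [hxy, hxy'] at hxx
        · exact S.D.disj _ _ hne _ (lo_mem S t hy) _ (lo_mem S t' hy') (out_inj.mp hxx)
        · exact S.D.disj _ _ hne _ (lo_mem S t hy) _ (hi_mem S t' hy') (out_inj.mp hxx)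
        · exact out_ne_P hj' hxx
        · exact S.D.disj _ _ hne _ (hi_mem S t hy) _ (lo_mem S t' hy') (out_inj.mp hxx)
        · exact S.D.disj _ _ hne _ (hi_mem S t hy) _ (hi_mem S t' hy') (out_inj.mp hxx)
        · exact out_ne_P hj' hxx
        · exact out_ne_P hj hxx.symm
        · exact out_ne_P hj hxx.symm
        · have := (P_inj.mp hxx).2
          have g4 := (dl_bound S hc)
          have g5 := (dl_bound S hc')
          simp only [dl] at g4 g5
          exact htt (Fin.ext (by omega))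

theorem avoid_chOf {r κ : V → ℕ} {c : Code S} (hc : Val S κ c) :
    ∀ x ∈ (chOf S r κ c).r, (∀ w, x.2 ≠ out (S.D.pos w)) ∧
      ∀ w, x.2 ≠ P (S.D.pos u) (ell κ w) (4 * (r w : ℤ)) := by
  intro x hx
  have g4 := dl_bound S hc
  rcases mem_chOf S hc hx with ⟨i, rfl, y, hy, hxy⟩ | ⟨t, lo, hi, δ, rfl, h⟩
  · rw [hxy]
    exact ⟨fun w h => S.D.avoid i y hy w (out_inj.mp h),
      fun w h => out_ne_P (by have := ell_ge κ w; omega) h⟩
  · rcases h with ⟨_, y, hy, hxy⟩ | ⟨_, y, hy, hxy⟩ | ⟨j, hj, _, hxy⟩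
    · rw [hxy]
      exact ⟨fun w h => S.D.avoid _ y (lo_mem S t hy) w (out_inj.mp h),
        fun w h => out_ne_P (by have := ell_ge κ w; omega) h⟩
    · rw [hxy]
      exact ⟨fun w h => S.D.avoid _ y (hi_mem S t hy) w (out_inj.mp h),
        fun w h => out_ne_P (by have := ell_ge κ w; omega) h⟩
    · rw [hxy]
      refine ⟨fun w h => out_ne_P hj h.symm, fun w h => ?_⟩
      have := (P_inj.mp h).2
      simp only [dl] at g4
      omega

end codes

section counts

variable {V ι : Type} [Fintype V] [DecidableEq V] [Fintype ι] [DecidableEq ι] {N : Net V ι}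
  {L : Type} [LinearOrder L] {u v : V} (S : Std N L u v)

theorem sum_rows (f : ι → ℕ) (hf : ∀ i, (∀ t, S.row t ≠ i) → f i = 0) :
    ∑ i, f i = ∑ t, f (S.row t) := by
  rw [← Finset.sum_image (f := f) (s := univ) (g := S.row) (fun a _ b _ h => S.row_inj h)]
  symm
  refine Finset.sum_subset (subset_univ _) fun i _ hi => hf i fun t ht => hi ?_
  exact mem_image.mpr ⟨t, mem_univ _, ht⟩

theorem loI_eq_one (G : Finset (Fin S.n × Bool)) (κ : V → ℕ) (t : Fin S.n) :
    loI S G κ t = 1 ↔ (t, false) ∉ G := by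
  unfold loI
  have h1 := ell_ge κ (S.e (t, false))
  have h2 := ell_ge κ (S.e (t, true))
  by_cases h : (t, false) ∈ G
  · simp only [h, if_true, not_true_eq_false, iff_false]
    split_ifs <;> omega
  · simp [h]

theorem hiI_eq_pp (G : Finset (Fin S.n × Bool)) (κ : V → ℕ) (t : Fin S.n) :
    hiI S G κ t = pp κ ↔ (t, true) ∉ G := by
  unfold hiI
  have h1 := ell_lt κ (S.e (t, false))
  have h2 := ell_lt κ (S.e (t, true))
  by_cases h : (t, true) ∈ G
  · simp only [h, if_true, not_true_eq_false, iff_false]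
    split_ifs <;> omega
  · simp [h]

/-- Crossings of the removed parts of the edge `i` with `Q`. -/
def RR (G : Finset (Fin S.n × Bool)) (i : ι) (Q : List (Arc L)) : ℕ :=
  ∑ a ∈ G, if S.row a.1 = i then crL (S.part a) Q else 0

theorem path_split (G : Finset (Fin S.n × Bool)) (κ : V → ℕ) (i : ι) (Q : List (Arc L)) :
    crL (S.D.path i) Q = crL (OPc S κ (codeI S G κ i)) Q + RR S G i Q := by
  by_cases hi : ∀ t, S.row t ≠ i
  · rw [codeI_other S G κ hi]
    have : RR S G i Q = 0 := by
      unfold RR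
      refine Finset.sum_eq_zero fun a _ => ?_
      rw [if_neg (hi a.1)]
    rw [this]
    rfl
  · push Not at hi
    obtain ⟨t, rfl⟩ := hi
    rw [codeI_row, path_row]
    unfold OPc
    simp only [loI_eq_one, hiI_eq_pp]
    rw [crL_append_left, crL_append_left]
    have : RR S G (S.row t) Q = (if (t, false) ∈ G then crL (S.part (t, false)) Q else 0)
        + (if (t, true) ∈ G then crL (S.part (t, true)) Q else 0) := by
      unfold RR
      rw [← Finset.sum_filter]
      have e1 : G.filter (fun a => S.row a.1 = S.row t)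
          = ({(t, false), (t, true)} : Finset (Fin S.n × Bool)).filter (fun a => a ∈ G) := by
        ext ⟨t', b⟩
        simp only [mem_filter, mem_insert, mem_singleton, Prod.mk.injEq, S.row_inj.eq_iff]
        cases b <;> simp <;> tauto
      rw [e1, Finset.sum_filter, Finset.sum_pair (by simp)]
    rw [this]
    by_cases h0 : (t, false) ∈ G <;> by_cases h1 : (t, true) ∈ G <;>
      simp only [h0, h1, not_true_eq_false, not_false_eq_true, if_true, if_false, crL_nil_left]
        <;> omega

theorem sum_RR (G : Finset (Fin S.n × Bool)) (F : ι → List (Arc L)) :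
    (∑ i, ∑ j, if i = j then 0 else RR S G i (F j))
      = ∑ a ∈ G, ∑ j, if j = S.row a.1 then 0 else crL (S.part a) (F j) := by
  unfold RR
  have h1 : ∀ i j, (if i = j then 0 else ∑ a ∈ G, if S.row a.1 = i then crL (S.part a) (F j) else 0)
      = ∑ a ∈ G, if S.row a.1 = i then (if j = S.row a.1 then 0 else crL (S.part a) (F j)) else 0 := by
    intro i j
    by_cases hij : i = j
    · subst hij
      rw [if_pos rfl]
      symm
      refine Finset.sum_eq_zero fun a _ => ?_
      split_ifs with h h'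
      · rfl
      · exact absurd h.symm h'
      · rfl
    · rw [if_neg hij]
      refine Finset.sum_congr rfl fun a _ => ?_
      split_ifs with h h'
      · exact absurd (h.symm.trans h'.symm) hij
      · rfl
      · rfl
  simp only [h1]
  have h2 : ∀ i, (∑ j, ∑ a ∈ G, if S.row a.1 = i then
      (if j = S.row a.1 then 0 else crL (S.part a) (F j)) else 0)
      = ∑ a ∈ G, if S.row a.1 = i then
        (∑ j, if j = S.row a.1 then 0 else crL (S.part a) (F j)) else 0 := by
    intro i
    rw [Finset.sum_comm]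
    refine Finset.sum_congr rfl fun a _ => ?_
    split_ifs with h
    · rfl
    · simp
  simp only [h2]
  rw [Finset.sum_comm]
  refine Finset.sum_congr rfl fun a _ => ?_
  rw [Finset.sum_ite_eq]
  simp

theorem sum_add3 (f g h : ι → ι → ℕ) (H : ∀ i j, f i j = g i j + h i j) :
    (∑ i, ∑ j, if i = j then 0 else f i j)
      = (∑ i, ∑ j, if i = j then 0 else g i j) + (∑ i, ∑ j, if i = j then 0 else h i j) := by
  rw [← Finset.sum_add_distrib]
  refine Finset.sum_congr rfl fun i _ => ?_
  rw [← Finset.sum_add_distrib]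
  refine Finset.sum_congr rfl fun j _ => ?_
  split_ifs
  · rfl
  · exact H i j

theorem sum_flip (f : ι → ι → ℕ) :
    (∑ i, ∑ j, if i = j then 0 else f i j) = ∑ i, ∑ j, if i = j then 0 else f j i := by
  rw [Finset.sum_comm]
  refine Finset.sum_congr rfl fun i _ => Finset.sum_congr rfl fun j _ => ?_
  by_cases h : i = j
  · simp [h]
  · simp [h, Ne.symm h]

/-- Old arcs, edges against edges. -/
theorem count_old (r : V → ℕ) (hr : ∀ w, r w ≤ S.n) (hf : ∀ a, 1 ≤ S.fdeg (S.e a))
    (G : Finset (Fin S.n × Bool)) (κ : V → ℕ) (hκ : Function.Injective κ) :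
    (∑ i, ∑ j, if i = j then 0 else
        crL (OPc S κ (codeI S G κ i)) (OPc S κ (codeI S G κ j))) + 2 * ∑ a ∈ G, S.c a
      ≤ S.D.dcr + ∑ a ∈ G, ∑ b ∈ G, S.xx a b := by
  set U : ι → List (Arc L) := fun i => OPc S κ (codeI S G κ i) with hU
  have hs : ∀ i Q, crL (S.D.path i) Q = crL (U i) Q + RR S G i Q := path_split S G κ
  -- dcr = S_UU + S_UR + Σ c
  have e1 : S.D.dcr = (∑ i, ∑ j, if i = j then 0 else crL (U i) (U j))
      + (∑ i, ∑ j, if i = j then 0 else RR S G j (U i))
      + (∑ i, ∑ j, if i = j then 0 else RR S G i (S.D.path j)) := by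
    unfold Drawing.dcr
    rw [sum_add3 (fun i j => crL (S.D.path i) (S.D.path j)) (fun i j => crL (U i) (S.D.path j))
      (fun i j => RR S G i (S.D.path j)) (fun i j => hs i _)]
    congr 1
    refine sum_add3 _ (fun i j => crL (U i) (U j)) (fun i j => RR S G j (U i)) (fun i j => ?_)
    rw [crL_comm, hs j, crL_comm]
  have e2 : (∑ i, ∑ j, if i = j then 0 else RR S G i (S.D.path j)) = ∑ a ∈ G, S.c a := by
    rw [sum_RR]
    rfl
  have e3 : (∑ i, ∑ j, if i = j then 0 else RR S G j (U i))
      + ∑ a ∈ G, ∑ b ∈ G, S.xx a b = ∑ a ∈ G, S.c a := by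
    rw [sum_flip, sum_RR]
    rw [← Finset.sum_add_distrib]
    refine Finset.sum_congr rfl fun a _ => ?_
    have h1 : ∑ b ∈ G, S.xx a b = ∑ j, if j = S.row a.1 then 0 else RR S G j (S.part a) := by
      unfold RR Std.xx
      have h2 : ∀ j, (if j = S.row a.1 then 0 else
          ∑ b ∈ G, if S.row b.1 = j then crL (S.part b) (S.part a) else 0)
          = ∑ b ∈ G, if S.row b.1 = j then
            (if a.1 = b.1 then 0 else crL (S.part a) (S.part b)) else 0 := by
        intro j
        by_cases hj : j = S.row a.1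
        · subst hj
          rw [if_pos rfl]
          symm
          refine Finset.sum_eq_zero fun b _ => ?_
          split_ifs with h h'
          · rfl
          · exact absurd (S.row_inj h).symm h'
          · rfl
        · rw [if_neg hj]
          refine Finset.sum_congr rfl fun b _ => ?_
          split_ifs with h h'
          · exact absurd (h' ▸ h.symm) hj
          · exact crL_comm _ _
          · rfl
      simp only [h2]
      rw [Finset.sum_comm]
      refine Finset.sum_congr rfl fun b _ => ?_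
      rw [Finset.sum_ite_eq]
      simp
    rw [h1, ← Finset.sum_add_distrib]
    unfold Std.c
    refine Finset.sum_congr rfl fun j _ => ?_
    by_cases hj : j = S.row a.1
    · simp [hj]
    · simp only [hj, if_false]
      rw [crL_comm (S.part a) (S.D.path j), hs j, crL_comm]
  change (∑ i, ∑ j, if i = j then 0 else crL (U i) (U j)) + 2 * ∑ a ∈ G, S.c a
      ≤ S.D.dcr + ∑ a ∈ G, ∑ b ∈ G, S.xx a b
  omega

theorem lo_lt_hi (G : Finset (Fin S.n × Bool)) (κ : V → ℕ) (hκ : Function.Injective κ)
    (t : Fin S.n) : loI S G κ t < hiI S G κ t := by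
  have h1 := ell_lt κ (S.e (t, false))
  have h2 := ell_lt κ (S.e (t, true))
  have h3 := ell_ge κ (S.e (t, false))
  have h4 := ell_ge κ (S.e (t, true))
  have h5 : ell κ (S.e (t, false)) ≠ ell κ (S.e (t, true)) := fun h => S.e_ne t (ell_inj hκ h)
  unfold loI hiI
  split_ifs <;> omega

/-- Fans of the ends of a strand. -/
theorem fan_ends (G : Finset (Fin S.n × Bool)) (κ : V → ℕ) (t : Fin S.n) (F : ℕ → ℕ)
    (h1 : F 1 = 0) (hp : F (pp κ) = 0) :
    F (loI S G κ t) + F (hiI S G κ t) = ∑ b : Bool, if (t, b) ∈ G then F (ell κ (S.e (t, b))) else 0 := by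
  rw [Fintype.sum_bool]
  unfold loI hiI
  by_cases h0 : (t, false) ∈ G <;> by_cases h1' : (t, true) ∈ G <;>
    simp only [h0, h1', if_true, if_false, h1, hp, zero_add, add_zero]
  rcases le_total (ell κ (S.e (t, false))) (ell κ (S.e (t, true))) with h | h
  · rw [min_eq_left h, max_eq_right h, add_comm]
  · rw [min_eq_right h, max_eq_left h]

/-- Strands, edges against edges. -/
theorem count_new (r : V → ℕ) (hr : ∀ w, r w ≤ S.n) (hf : ∀ a, 1 ≤ S.fdeg (S.e a))
    (G : Finset (Fin S.n × Bool)) (κ : V → ℕ) (hκ : Function.Injective κ) :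
    (∑ i, ∑ j, if i = j then 0 else
        crL (LAc S r κ (codeI S G κ i)) (LAc S r κ (codeI S G κ j)))
      ≤ 2 * (S.cfg r hr hf).T G κ := by
  -- only rows count
  have z1 : ∀ i, (∀ t, S.row t ≠ i) → LAc S r κ (codeI S G κ i) = [] := by
    intro i hi
    rw [codeI_other S G κ hi]
    rfl
  rw [sum_rows S _ (fun i hi => Finset.sum_eq_zero fun j _ => by
    rw [z1 i hi, crL_nil_left]
    split_ifs <;> rfl)]
  have z2 : ∀ t, (∑ j, if S.row t = j then 0 else
      crL (LAc S r κ (codeI S G κ (S.row t))) (LAc S r κ (codeI S G κ j)))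
      = ∑ t', if t = t' then 0 else
      crL (LAc S r κ (codeI S G κ (S.row t))) (LAc S r κ (codeI S G κ (S.row t'))) := by
    intro t
    rw [sum_rows S _ (fun j hj => by
      rw [z1 j hj, crL_nil_right]
      split_ifs <;> rfl)]
    refine Finset.sum_congr rfl fun t' _ => ?_
    simp only [S.row_inj.eq_iff]
  simp only [z2]
  simp only [codeI_row]
  -- fans
  set FF : ℕ → Fin S.n → Fin S.n → ℕ := fun j t t' =>
    fan (vh r κ) j (4 * (t.val : ℤ) + 2 + 0) (loI S G κ t') (hiI S G κ t')
      (4 * (t'.val : ℤ) + 2 + 0) with hFF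
  have b1 : ∀ t t', crL (LAc S r κ (Sum.inr (t, loI S G κ t, hiI S G κ t, 0)))
      (LAc S r κ (Sum.inr (t', loI S G κ t', hiI S G κ t', 0)))
      ≤ (FF (loI S G κ t) t t' + FF (hiI S G κ t) t t')
        + (FF (loI S G κ t') t' t + FF (hiI S G κ t') t' t) := by
    intro t t'
    have := crL_lad (S.D.pos u) (vh r κ) (loI S G κ t) (hiI S G κ t) (loI S G κ t')
      (hiI S G κ t') (4 * (t.val : ℤ) + 2 + 0) (4 * (t'.val : ℤ) + 2 + 0)
      (lo_lt_hi S G κ hκ t) (lo_lt_hi S G κ hκ t')
    unfold LAc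
    simp only [hFF]
    omega
  have b2 : ∀ t t', FF (loI S G κ t) t t' + FF (hiI S G κ t) t t'
      = ∑ b : Bool, if (t, b) ∈ G then FF (ell κ (S.e (t, b))) t t' else 0 := by
    intro t t'
    refine fan_ends S G κ t (fun j => FF j t t') ?_ ?_
    · simp only [hFF]
      unfold fan
      simp
    · simp only [hFF]
      unfold fan
      have := pp_odd κ
      rw [if_neg]
      omega
  set HH : Fin S.n → Fin S.n → ℕ := fun t t' =>
    ∑ b : Bool, if (t, b) ∈ G then FF (ell κ (S.e (t, b))) t t' else 0 with hHH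
  have b3 : (∑ t, ∑ t', if t = t' then 0 else
      crL (LAc S r κ (Sum.inr (t, loI S G κ t, hiI S G κ t, 0)))
      (LAc S r κ (Sum.inr (t', loI S G κ t', hiI S G κ t', 0))))
      ≤ (∑ t, ∑ t', if t = t' then 0 else HH t t')
        + (∑ t, ∑ t', if t = t' then 0 else HH t' t) := by
    rw [← Finset.sum_add_distrib]
    refine Finset.sum_le_sum fun t _ => ?_
    rw [← Finset.sum_add_distrib]
    refine Finset.sum_le_sum fun t' _ => ?_
    split_ifs
    · exact le_rfl
    · refine (b1 t t').trans ?_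
      rw [b2 t t', b2 t' t]
  rw [← sum_flip (fun t t' => HH t t')] at b3
  refine b3.trans ?_
  rw [← two_mul]
  refine Nat.mul_le_mul_left 2 ?_
  -- regroup over the ends
  have c1 : (∑ t, ∑ t', if t = t' then 0 else HH t t')
      = ∑ a ∈ G, ∑ t', if a.1 = t' then 0 else FF (ell κ (S.e a)) a.1 t' := by
    have d1 : ∀ t, (∑ t', if t = t' then 0 else HH t t')
        = ∑ b : Bool, if (t, b) ∈ G then
          (∑ t', if t = t' then 0 else FF (ell κ (S.e (t, b))) t t') else 0 := by
      intro t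
      have d2 : ∀ t', (if t = t' then 0 else HH t t')
          = ∑ b : Bool, if (t, b) ∈ G then
            (if t = t' then 0 else FF (ell κ (S.e (t, b))) t t') else 0 := by
        intro t'
        by_cases h : t = t'
        · simp [h]
        · simp only [h, if_false, hHH]
      simp only [d2]
      rw [Finset.sum_comm]
      refine Finset.sum_congr rfl fun b _ => ?_
      split_ifs
      · rfl
      · simp
    simp only [d1]
    rw [← Fintype.sum_prod_type' (f := fun (t : Fin S.n) (b : Bool) => if (t, b) ∈ G then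
          (∑ t', if t = t' then 0 else FF (ell κ (S.e (t, b))) t t') else 0)]
    rw [← Finset.sum_filter]
    refine Finset.sum_congr ?_ fun a _ => rfl
    ext a
    simp
  rw [c1]
  unfold Cfg.T
  refine Finset.sum_le_sum fun a ha => ?_
  rw [Finset.card_filter]
  refine Finset.sum_le_sum fun t' _ => ?_
  split_ifs with h1 h2 h2
  · omega
  · exact le_rfl
  · simp only [hFF]
    unfold fan
    split_ifs <;> omega
  · simp only [hFF]
    unfold fan
    rw [if_neg]
    rintro ⟨_, h4, h5, h6⟩
    apply h2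
    rw [vh_ell hκ] at h6
    refine ⟨?_, ?_⟩
    · unfold Cfg.Spans
      unfold Bt at h6
      simp only
      omega
    · by_cases hb : (S.cfg r hr hf).Bad G t'
      · exact Or.inl hb
      · right
        unfold Cfg.Bad at hb
        rw [not_not] at hb
        unfold loI at h4
        unfold hiI at h5
        simp only [hb.1, hb.2, if_true] at h4 h5
        unfold Cfg.NBtw
        unfold ell at h4 h5
        simp only
        omega

theorem OPc_codeW (κ : V → ℕ) (h : V → Fin S.n × Bool) (w : V) :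
    OPc S κ (codeW S κ h w) = S.part (h w) := by
  have g1 := ell_lt κ w
  have g3 := ell_ge κ w
  unfold codeW
  by_cases hb : (h w).2 = true
  · rw [if_pos hb]
    simp only [OPc]
    rw [if_neg (by omega), if_pos trivial, List.nil_append, ← hb]
  · rw [if_neg hb]
    simp only [OPc]
    rw [if_pos trivial, if_neg (by omega), List.append_nil]
    rw [Bool.not_eq_true] at hb
    rw [← hb]

theorem crL_part_path (a : Fin S.n × Bool) : crL (S.part a) (S.D.path (S.row a.1)) = 0 := by
  have h := S.nocross (S.row a.1)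
  obtain ⟨t, b⟩ := a
  simp only at h ⊢
  rw [path_row, crL_append_left] at h
  rw [path_row]
  cases b
  · omega
  · omega

theorem crL_part_part {a b : Fin S.n × Bool} (hab : a.1 = b.1) :
    crL (S.part a) (S.part b) = 0 := by
  have h := crL_part_path S a
  rw [path_row, crL_append_right, hab] at h
  obtain ⟨t, c⟩ := b
  simp only at h
  cases c
  · omega
  · omega

/-- The code of a guide. -/
theorem codeW_spec (κ : V → ℕ) (h : V → Fin S.n × Bool) (w : V) : ∃ lo hi δ,
    codeW S κ h w = Sum.inr ((h w).1, lo, hi, δ) ∧ (-1 ≤ δ ∧ δ ≤ 1) ∧ δ ≠ 0 ∧ lo < hi ∧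
      ∀ F : ℕ → ℕ, F 1 = 0 → F (pp κ) = 0 → F lo + F hi = F (ell κ w) := by
  have g1 := ell_lt κ w
  have g3 := ell_ge κ w
  unfold codeW
  by_cases hb : (h w).2 = true
  · rw [if_pos hb]
    exact ⟨_, _, _, rfl, by omega, by omega, g1, fun F h1 h2 => by omega⟩
  · rw [if_neg hb]
    exact ⟨_, _, _, rfl, by omega, by omega, by omega, fun F h1 h2 => by omega⟩

theorem fan_one (f : ℕ → ℤ) (H : ℤ) (lo' hi' : ℕ) (H' : ℤ) : fan f 1 H lo' hi' H' = 0 := by
  unfold fan
  simp

theorem fan_pp (f : ℕ → ℤ) (κ : V → ℕ) (H : ℤ) (lo' hi' : ℕ) (H' : ℤ) :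
    fan f (pp κ) H lo' hi' H' = 0 := by
  unfold fan
  have := pp_odd κ
  rw [if_neg]
  omega

/-- A fan at the vertex of the end `b` against a strand near the row `t`. -/
theorem fan_le (r : V → ℕ) (hr : ∀ w, r w ≤ S.n) (hf : ∀ a, 1 ≤ S.fdeg (S.e a))
    {κ : V → ℕ} (hκ : Function.Injective κ) (b : Fin S.n × Bool) (t : Fin S.n) {δ δ' : ℤ}
    (hδ : -1 ≤ δ ∧ δ ≤ 1) (hδ' : -1 ≤ δ' ∧ δ' ≤ 1) (lo' hi' : ℕ) :
    fan (vh r κ) (ell κ (S.e b)) (4 * (b.1.val : ℤ) + 2 + δ) lo' hi' (4 * (t.val : ℤ) + 2 + δ')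
      ≤ (if (S.cfg r hr hf).Spans b t then 1 else 0) + (if b.1 = t then 1 else 0) := by
  unfold fan
  refine ite_le ?_
  rintro ⟨_, _, _, h4⟩
  rw [vh_ell hκ] at h4
  unfold Bt at h4
  by_cases hbt : b.1 = t
  · rw [if_pos hbt]
    omega
  · have hbt' : b.1.val ≠ t.val := fun h => hbt (Fin.ext h)
    have : (S.cfg r hr hf).Spans b t := by
      unfold Cfg.Spans
      simp only
      omega
    rw [if_pos this]
    omega

/-- Guides against guides. -/
theorem count_guides (r : V → ℕ) (hr : ∀ w, r w ≤ S.n) (hf : ∀ a, 1 ≤ S.fdeg (S.e a))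
    (G : Finset (Fin S.n × Bool)) (κ : V → ℕ) (hκ : Function.Injective κ)
    (h : V → Fin S.n × Bool) (w w' : V) (hww : w ≠ w')
    (hw : h w ∈ (S.cfg r hr hf).endsAt G w) (hw' : h w' ∈ (S.cfg r hr hf).endsAt G w') :
    crL (OPc S κ (codeW S κ h w)) (OPc S κ (codeW S κ h w'))
        + crL (LAc S r κ (codeW S κ h w)) (LAc S r κ (codeW S κ h w'))
      ≤ S.xx (h w) (h w') + (if (S.cfg r hr hf).Spans (h w) (h w').1 then 1 else 0)
          + (if (S.cfg r hr hf).Spans (h w') (h w).1 then 1 else 0)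
          + 2 * (if (h w).1 = (h w').1 then 1 else 0) := by
  have hw1 : S.e (h w) = w := (Finset.mem_filter.mp hw).2
  have hw1' : S.e (h w') = w' := (Finset.mem_filter.mp hw').2
  obtain ⟨lo, hi, δ, e1, e2, e3, e4, e5⟩ := codeW_spec S κ h w
  obtain ⟨lo', hi', δ', e1', e2', e3', e4', e5'⟩ := codeW_spec S κ h w'
  rw [OPc_codeW, OPc_codeW, e1, e1']
  have b1 : crL (S.part (h w)) (S.part (h w')) ≤ S.xx (h w) (h w') := by
    unfold Std.xx
    split_ifs with hh
    · rw [crL_part_part S hh]
    · exact le_rfl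
  have b2 := crL_lad (S.D.pos u) (vh r κ) lo hi lo' hi' (4 * ((h w).1.val : ℤ) + 2 + δ)
    (4 * ((h w').1.val : ℤ) + 2 + δ') e4 e4'
  have b3 := e5 (fun j => fan (vh r κ) j (4 * ((h w).1.val : ℤ) + 2 + δ) lo' hi'
    (4 * ((h w').1.val : ℤ) + 2 + δ')) (fan_one _ _ _ _ _) (fan_pp _ _ _ _ _ _)
  have b4 := e5' (fun j => fan (vh r κ) j (4 * ((h w').1.val : ℤ) + 2 + δ') lo hi
    (4 * ((h w).1.val : ℤ) + 2 + δ)) (fan_one _ _ _ _ _) (fan_pp _ _ _ _ _ _)
  have b5 := fan_le S r hr hf hκ (h w) (h w').1 e2 e2' lo' hi'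
  have b6 := fan_le S r hr hf hκ (h w') (h w).1 e2' e2 lo hi
  rw [hw1] at b5
  rw [hw1'] at b6
  have b7 : (if (h w').1 = (h w).1 then 1 else 0) = (if (h w).1 = (h w').1 then 1 else 0) :=
    if_congr eq_comm rfl rfl
  rw [b7] at b6
  simp only [LAc]
  omega

/-- Guides against edges. -/
theorem count_guide (r : V → ℕ) (hr : ∀ w, r w ≤ S.n) (hf : ∀ a, 1 ≤ S.fdeg (S.e a))
    (G : Finset (Fin S.n × Bool)) (κ : V → ℕ) (hκ : Function.Injective κ)
    (h : V → Fin S.n × Bool) (w : V) (hw : h w ∈ (S.cfg r hr hf).endsAt G w) :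
    ∑ j, (crL (OPc S κ (codeW S κ h w)) (OPc S κ (codeI S G κ j))
        + crL (LAc S r κ (codeW S κ h w)) (LAc S r κ (codeI S G κ j)))
      ≤ (S.cfg r hr hf).len (h w) + S.c (h w) + (S.cfg r hr hf).A G (h w).1 + 3 := by
  have hw1 : S.e (h w) = w := (Finset.mem_filter.mp hw).2
  obtain ⟨lo, hi, δ, e1, e2, e3, e4, e5⟩ := codeW_spec S κ h w
  rw [OPc_codeW, e1, Finset.sum_add_distrib]
  have b1 : ∑ j, crL (S.part (h w)) (OPc S κ (codeI S G κ j)) ≤ S.c (h w) := by
    unfold Std.c
    refine Finset.sum_le_sum fun j _ => ?_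
    have h1 := path_split S G κ j (S.part (h w))
    rw [crL_comm (S.D.path j), crL_comm (OPc S κ (codeI S G κ j))] at h1
    split_ifs with hj
    · subst hj
      rw [crL_part_path] at h1
      omega
    · omega
  have b2 : ∑ j, crL (LAc S r κ (Sum.inr ((h w).1, lo, hi, δ))) (LAc S r κ (codeI S G κ j))
      = ∑ t, crL (LAc S r κ (Sum.inr ((h w).1, lo, hi, δ)))
        (LAc S r κ (codeI S G κ (S.row t))) := by
    refine sum_rows S _ fun i hi => ?_
    rw [codeI_other S G κ hi]
    exact crL_nil_right _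
  have b3 : ∀ t, crL (LAc S r κ (Sum.inr ((h w).1, lo, hi, δ)))
        (LAc S r κ (codeI S G κ (S.row t)))
      ≤ ((if (S.cfg r hr hf).Spans (h w) t then 1 else 0) + (if (h w).1 = t then 1 else 0))
        + ∑ b : Bool, (if (t, b) ∈ G then ((if (S.cfg r hr hf).Spans (t, b) (h w).1 then 1 else 0)
          + (if t = (h w).1 then 1 else 0)) else 0) := by
    intro t
    rw [codeI_row]
    have c1 := crL_lad (S.D.pos u) (vh r κ) lo hi (loI S G κ t) (hiI S G κ t)
      (4 * ((h w).1.val : ℤ) + 2 + δ) (4 * (t.val : ℤ) + 2 + 0) e4 (lo_lt_hi S G κ hκ t)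
    have c2 := e5 (fun j => fan (vh r κ) j (4 * ((h w).1.val : ℤ) + 2 + δ) (loI S G κ t)
      (hiI S G κ t) (4 * (t.val : ℤ) + 2 + 0)) (fan_one _ _ _ _ _) (fan_pp _ _ _ _ _ _)
    have c3 := fan_ends S G κ t (fun j => fan (vh r κ) j (4 * (t.val : ℤ) + 2 + 0) lo hi
      (4 * ((h w).1.val : ℤ) + 2 + δ)) (fan_one _ _ _ _ _) (fan_pp _ _ _ _ _ _)
    have c4 := fan_le S r hr hf hκ (h w) t e2 (δ' := 0) (by omega) (loI S G κ t) (hiI S G κ t)
    rw [hw1] at c4
    have c5 : (∑ b : Bool, if (t, b) ∈ G then fan (vh r κ) (ell κ (S.e (t, b)))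
        (4 * (t.val : ℤ) + 2 + 0) lo hi (4 * ((h w).1.val : ℤ) + 2 + δ) else 0)
        ≤ ∑ b : Bool, (if (t, b) ∈ G then
          ((if (S.cfg r hr hf).Spans (t, b) (h w).1 then 1 else 0)
          + (if t = (h w).1 then 1 else 0)) else 0) := by
      refine Finset.sum_le_sum fun b _ => ?_
      split_ifs with hb
      all_goals try exact le_rfl
      all_goals
        have c6 := fan_le S r hr hf hκ (t, b) (h w).1 (δ := 0) (by omega) e2 lo hi
        simp_all
    simp only [LAc]
    omega
  have b4 : ∑ t, (((if (S.cfg r hr hf).Spans (h w) t then 1 else 0)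
        + (if (h w).1 = t then 1 else 0))
        + ∑ b : Bool, (if (t, b) ∈ G then ((if (S.cfg r hr hf).Spans (t, b) (h w).1 then 1 else 0)
          + (if t = (h w).1 then 1 else 0)) else 0))
      ≤ (S.cfg r hr hf).len (h w) + 1 + ((S.cfg r hr hf).A G (h w).1 + 2) := by
    rw [Finset.sum_add_distrib, Finset.sum_add_distrib]
    have d1 : ∑ t, (if (S.cfg r hr hf).Spans (h w) t then 1 else 0)
        = (S.cfg r hr hf).len (h w) := by
      unfold Cfg.len
      rw [Finset.card_filter]
    have d2 : ∑ t, (if (h w).1 = t then 1 else 0) = 1 := by simp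
    have d3 : ∑ t, ∑ b : Bool, (if (t, b) ∈ G then
          ((if (S.cfg r hr hf).Spans (t, b) (h w).1 then 1 else 0)
          + (if t = (h w).1 then 1 else 0)) else 0)
        = ∑ a ∈ G, ((if (S.cfg r hr hf).Spans a (h w).1 then 1 else 0)
          + (if a.1 = (h w).1 then 1 else 0)) := by
      rw [← Fintype.sum_prod_type' (f := fun (t : Fin S.n) (b : Bool) => if (t, b) ∈ G then
          ((if (S.cfg r hr hf).Spans (t, b) (h w).1 then 1 else 0)
          + (if t = (h w).1 then 1 else 0)) else 0)]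
      rw [← Finset.sum_filter]
      refine Finset.sum_congr ?_ fun a _ => rfl
      ext a
      simp
    have d4 : ∑ a ∈ G, (if (S.cfg r hr hf).Spans a (h w).1 then 1 else 0)
        = (S.cfg r hr hf).A G (h w).1 := by
      unfold Cfg.A
      rw [Finset.card_filter]
    have d5 : ∑ a ∈ G, (if a.1 = (h w).1 then 1 else 0) ≤ 2 := by
      rw [← Finset.card_filter]
      have : G.filter (fun a => a.1 = (h w).1)
          ⊆ ({((h w).1, false), ((h w).1, true)} : Finset (Fin S.n × Bool)) := by
        intro a ha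
        obtain ⟨_, ha⟩ := Finset.mem_filter.mp ha
        obtain ⟨t', b⟩ := a
        simp only at ha
        subst ha
        cases b <;> simp
      exact (Finset.card_le_card this).trans Finset.card_le_two
    rw [d1, d2, d3, Finset.sum_add_distrib, d4]
    omega
  rw [b2]
  have b5 := (Finset.sum_le_sum fun t (_ : t ∈ univ) => b3 t).trans b4
  omega

end counts


section final

variable {V ι : Type} [Fintype V] [DecidableEq V] [Fintype ι] [DecidableEq ι] {N : Net V ι}
  {L : Type} [LinearOrder L] {u v : V} (S : Std N L u v)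

theorem loI_cases (G : Finset (Fin S.n × Bool)) (κ : V → ℕ) (t : Fin S.n) :
    ((t, false) ∉ G ∧ loI S G κ t = 1) ∨
      ((t, false) ∈ G ∧ ∃ w, loI S G κ t = ell κ w) := by
  unfold loI
  by_cases h1 : (t, false) ∈ G
  · right
    refine ⟨h1, ?_⟩
    simp only [h1, if_true]
    by_cases h2 : (t, true) ∈ G
    · simp only [h2, if_true]
      rcases le_total (ell κ (S.e (t, false))) (ell κ (S.e (t, true))) with h | h
      · exact ⟨_, min_eq_left h⟩
      · exact ⟨_, min_eq_right h⟩
    · simp only [h2, if_false]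
      exact ⟨_, rfl⟩
  · left
    exact ⟨h1, by simp only [h1, if_false]⟩

theorem hiI_cases (G : Finset (Fin S.n × Bool)) (κ : V → ℕ) (t : Fin S.n) :
    ((t, true) ∉ G ∧ hiI S G κ t = pp κ) ∨
      ((t, true) ∈ G ∧ ∃ w, hiI S G κ t = ell κ w) := by
  unfold hiI
  by_cases h1 : (t, true) ∈ G
  · right
    refine ⟨h1, ?_⟩
    simp only [h1, if_true]
    by_cases h2 : (t, false) ∈ G
    · simp only [h2, if_true]
      rcases le_total (ell κ (S.e (t, false))) (ell κ (S.e (t, true))) with h | h
      · exact ⟨_, max_eq_right h⟩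
      · exact ⟨_, max_eq_left h⟩
    · simp only [h2, if_false]
      exact ⟨_, rfl⟩
  · left
    exact ⟨h1, by simp only [h1, if_false]⟩

theorem loI_lt_hiI (G : Finset (Fin S.n × Bool)) {κ : V → ℕ} (hκ : Function.Injective κ)
    (t : Fin S.n) : loI S G κ t < hiI S G κ t := by
  have h0 := ell_lt κ (S.e (t, false))
  have h1 := ell_lt κ (S.e (t, true))
  have h2 := ell_ge κ (S.e (t, false))
  have h3 := ell_ge κ (S.e (t, true))
  have h4 : ell κ (S.e (t, false)) ≠ ell κ (S.e (t, true)) := fun h =>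
    S.e_ne t (ell_inj hκ h)
  unfold loI hiI
  split_ifs <;> omega

theorem val_codeI (G : Finset (Fin S.n × Bool)) {κ : V → ℕ} (hκ : Function.Injective κ) (i : ι) :
    Val S κ (codeI S G κ i) := by
  by_cases hi : ∃ t, S.row t = i
  · obtain ⟨t, rfl⟩ := hi
    rw [codeI_row]
    refine ⟨?_, ?_, loI_lt_hiI S G hκ t, by omega⟩
    · rcases loI_cases S G κ t with ⟨_, h⟩ | ⟨_, w, h⟩
      · exact Or.inl h
      · exact Or.inr ⟨h ▸ ell_even κ w, h ▸ ell_ge κ w⟩
    · rcases hiI_cases S G κ t with ⟨_, h⟩ | ⟨_, w, h⟩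
      · exact Or.inl h
      · exact Or.inr ⟨h ▸ ell_even κ w, h ▸ ell_lt κ w⟩
  · rw [codeI_other S G κ (fun t ht => hi ⟨t, ht⟩)]
    exact fun t ht => hi ⟨t, ht⟩

theorem val_codeW (κ : V → ℕ) (h : V → Fin S.n × Bool) (w : V) : Val S κ (codeW S κ h w) := by
  have h1 := ell_lt κ w
  have h2 := ell_ge κ w
  have h3 := ell_even κ w
  unfold codeW
  split_ifs
  · exact ⟨Or.inr ⟨h3, h2⟩, Or.inl rfl, h1, by omega⟩
  · exact ⟨Or.inl rfl, Or.inr ⟨h3, h1⟩, by omega, by omega⟩

theorem comp_II (G : Finset (Fin S.n × Bool)) (κ : V → ℕ) {i j : ι} (hij : i ≠ j) :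
    Comp S κ (codeI S G κ i) (codeI S G κ j) := by
  by_cases hi : ∃ t, S.row t = i
  · obtain ⟨t, rfl⟩ := hi
    rw [codeI_row]
    by_cases hj : ∃ t, S.row t = j
    · obtain ⟨t', rfl⟩ := hj
      rw [codeI_row]
      intro htt
      subst htt
      exact absurd rfl hij
    · rw [codeI_other S G κ (fun t ht => hj ⟨t, ht⟩)]
      trivial
  · rw [codeI_other S G κ (fun t ht => hi ⟨t, ht⟩)]
    by_cases hj : ∃ t, S.row t = j
    · obtain ⟨t', rfl⟩ := hj
      rw [codeI_row]
      trivial
    · rw [codeI_other S G κ (fun t ht => hj ⟨t, ht⟩)]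
      exact hij

theorem comp_IW (G : Finset (Fin S.n × Bool)) (κ : V → ℕ) (h : V → Fin S.n × Bool) (i : ι)
    {w : V} (hw : h w ∈ G) : Comp S κ (codeI S G κ i) (codeW S κ h w) := by
  have h1 := ell_lt κ w
  have h2 := ell_ge κ w
  by_cases hi : ∃ t, S.row t = i
  · obtain ⟨t, rfl⟩ := hi
    rw [codeI_row]
    unfold codeW
    split_ifs with hb
    · intro htt
      refine ⟨by omega, fun hh => by omega, fun hh => ?_⟩
      rcases hiI_cases S G κ t with ⟨h3, _⟩ | ⟨_, w', h4⟩
      · refine h3 ?_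
        rw [htt, ← hb]
        exact hw
      · have := ell_lt κ w'
        omega
    · intro htt
      refine ⟨by omega, fun hh => ?_, fun hh => by omega⟩
      rcases loI_cases S G κ t with ⟨h3, _⟩ | ⟨_, w', h4⟩
      · refine h3 ?_
        have hb' : (h w).2 = false := by simpa using hb
        rw [htt, ← hb']
        exact hw
      · have := ell_ge κ w'
        omega
  · rw [codeI_other S G κ (fun t ht => hi ⟨t, ht⟩)]
    unfold codeW
    split_ifs <;> trivial

theorem comp_WW (κ : V → ℕ) (h : V → Fin S.n × Bool) {w w' : V} (hww : w ≠ w')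
    (hw : S.e (h w) = w) (hw' : S.e (h w') = w') :
    Comp S κ (codeW S κ h w) (codeW S κ h w') := by
  have h1 := ell_lt κ w
  have h2 := ell_ge κ w
  have h1' := ell_lt κ w'
  have h2' := ell_ge κ w'
  have hne : h w ≠ h w' := by
    intro hh
    rw [hh] at hw
    exact hww (hw.symm.trans hw')
  unfold codeW
  by_cases hb : (h w).2 = true <;> by_cases hb' : (h w').2 = true <;>
    simp only [hb, hb', if_true, if_false] <;> intro htt
  · exact absurd (Prod.ext htt (hb.trans hb'.symm)) hne
  · exact ⟨by omega, by omega, by omega⟩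
  · exact ⟨by omega, by omega, by omega⟩
  · exact absurd (Prod.ext htt (by
      rw [Bool.not_eq_true] at hb hb'
      exact hb.trans hb'.symm)) hne

/-- The positions of the vertices. -/
noncomputable def ps (r : V → ℕ) (hr : ∀ w, r w ≤ S.n) (hf : ∀ a, 1 ≤ S.fdeg (S.e a))
    (G : Finset (Fin S.n × Bool)) (κ : V → ℕ) :
    V ⊕ {w : V // (S.cfg r hr hf).k G w ≠ 0} → NL L
  | Sum.inl w => if (S.cfg r hr hf).k G w ≠ 0 then P (S.D.pos u) (ell κ w) (4 * (r w : ℤ))
      else out (S.D.pos w)
  | Sum.inr w => out (S.D.pos w.1)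

theorem ps_inj (r : V → ℕ) (hr : ∀ w, r w ≤ S.n) (hf : ∀ a, 1 ≤ S.fdeg (S.e a))
    (G : Finset (Fin S.n × Bool)) {κ : V → ℕ} (hκ : Function.Injective κ) :
    Function.Injective (ps S r hr hf G κ) := by
  have hg : ∀ w, 1 ≤ ell κ w := fun w => by
    have := ell_ge κ w
    omega
  rintro (w | w) (w' | w') hww
  · simp only [ps] at hww
    split_ifs at hww with h1 h2 h2
    · rw [ell_inj hκ (P_inj.mp hww).1]
    · exact absurd hww.symm (out_ne_P (hg w))
    · exact absurd hww (out_ne_P (hg w'))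
    · rw [S.D.pos_inj (out_inj.mp hww)]
  · simp only [ps] at hww
    split_ifs at hww with h1
    · exact absurd hww.symm (out_ne_P (hg w))
    · exact absurd (S.D.pos_inj (out_inj.mp hww)) (fun h => w'.2 (by rw [← h]; simpa using h1))
  · simp only [ps] at hww
    split_ifs at hww with h1
    · exact absurd hww (out_ne_P (hg w'))
    · exact absurd (S.D.pos_inj (out_inj.mp hww)) (fun h => w.2 (by rw [h]; simpa using h1))
  · simp only [ps] at hww
    rw [Subtype.ext (S.D.pos_inj (out_inj.mp hww))]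

theorem ps_cases (r : V → ℕ) (hr : ∀ w, r w ≤ S.n) (hf : ∀ a, 1 ≤ S.fdeg (S.e a))
    (G : Finset (Fin S.n × Bool)) (κ : V → ℕ) (y) :
    (∃ w, ps S r hr hf G κ y = out (S.D.pos w)) ∨
      ∃ w, ps S r hr hf G κ y = P (S.D.pos u) (ell κ w) (4 * (r w : ℤ)) := by
  rcases y with w | w
  · simp only [ps]
    split_ifs
    · exact Or.inr ⟨_, rfl⟩
    · exact Or.inl ⟨_, rfl⟩
  · exact Or.inl ⟨_, rfl⟩

/-- The position where the side `b` of edge `i` is attached. -/
theorem ps_att (r : V → ℕ) (hr : ∀ w, r w ≤ S.n) (hf : ∀ a, 1 ≤ S.fdeg (S.e a))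
    (G : Finset (Fin S.n × Bool)) (κ : V → ℕ) (b : Bool) (i : ι) :
    ps S r hr hf G κ (S.att G Subtype.val b i)
      = if ∃ t, S.row t = i ∧ (t, b) ∈ G then
          P (S.D.pos u) (ell κ (if b then N.tgt i else N.src i))
            (4 * (r (if b then N.tgt i else N.src i) : ℤ))
        else out (S.D.pos (if b then N.tgt i else N.src i)) := by
  unfold Std.att
  by_cases h1 : ∃ t, S.row t = i ∧ (t, b) ∈ G
  · rw [if_pos h1, if_pos h1]
    have h2 : (S.cfg r hr hf).k G (if b then N.tgt i else N.src i) ≠ 0 := by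
      obtain ⟨t, rfl, ht⟩ := h1
      unfold Cfg.k Cfg.endsAt
      rw [Finset.card_ne_zero]
      exact ⟨(t, b), Finset.mem_filter.mpr ⟨ht, rfl⟩⟩
    simp only [ps]
    rw [if_pos h2]
  · rw [if_neg h1, if_neg h1]
    generalize (if b = true then N.tgt i else N.src i) = y
    by_cases h2 : ∃ w : {w : V // (S.cfg r hr hf).k G w ≠ 0}, w.1 = y
    · rw [dif_pos h2]
      simp only [ps]
      rw [h2.choose_spec]
    · rw [dif_neg h2]
      simp only [ps]
      rw [if_neg]
      intro h3
      exact h2 ⟨⟨_, h3⟩, rfl⟩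

theorem ends_I (r : V → ℕ) (hr : ∀ w, r w ≤ S.n) (hf : ∀ a, 1 ≤ S.fdeg (S.e a))
    (G : Finset (Fin S.n × Bool)) {κ : V → ℕ} (hκ : Function.Injective κ) (i : ι) :
    ((chOf S r κ (codeI S G κ i)).s = ps S r hr hf G κ (S.att G Subtype.val false i) ∧
      (chOf S r κ (codeI S G κ i)).f = ps S r hr hf G κ (S.att G Subtype.val true i)) ∨
    ((chOf S r κ (codeI S G κ i)).s = ps S r hr hf G κ (S.att G Subtype.val true i) ∧
      (chOf S r κ (codeI S G κ i)).f = ps S r hr hf G κ (S.att G Subtype.val false i)) := by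
  rw [ps_att, ps_att]
  by_cases hi : ∃ t, S.row t = i
  · obtain ⟨t, rfl⟩ := hi
    rw [codeI_row]
    have hm : ∀ b, (∃ t', S.row t' = S.row t ∧ (t', b) ∈ G) ↔ (t, b) ∈ G := by
      intro b
      constructor
      · rintro ⟨t', h1, h2⟩
        rw [S.row_inj h1] at h2
        exact h2
      · intro h
        exact ⟨t, rfl, h⟩
    simp only [hm, chOf, upS, upF, Bool.false_eq_true, if_false, if_true]
    have g1 := ell_lt κ (S.e (t, false))
    have g2 := ell_lt κ (S.e (t, true))
    have g3 := ell_ge κ (S.e (t, false))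
    have g4 := ell_ge κ (S.e (t, true))
    have g5 : ell κ (S.e (t, false)) ≠ ell κ (S.e (t, true)) := fun h =>
      S.e_ne t (ell_inj hκ h)
    have v1 := vh_ell (r := r) hκ (S.e (t, false))
    have v2 := vh_ell (r := r) hκ (S.e (t, true))
    have n1 : ¬ ell κ (S.e (t, false)) = 1 := by omega
    have n2 : ¬ ell κ (S.e (t, true)) = 1 := by omega
    have n3 : ¬ ell κ (S.e (t, false)) = pp κ := by omega
    have n4 : ¬ ell κ (S.e (t, true)) = pp κ := by omega
    by_cases h1 : (t, false) ∈ G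
    · by_cases h2 : (t, true) ∈ G
      · rcases lt_or_gt_of_ne g5 with h3 | h3
        · left
          have y1 : loI S G κ t = ell κ (S.e (t, false)) := by
            unfold loI
            simp only [h1, h2, if_true]
            exact min_eq_left h3.le
          have y2 : hiI S G κ t = ell κ (S.e (t, true)) := by
            unfold hiI
            simp only [h1, h2, if_true]
            exact max_eq_right h3.le
          simp only [y1, y2, n1, n2, n3, n4, h1, h2, v1, v2, if_true, if_false]
          exact ⟨rfl, rfl⟩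
        · right
          have y1 : loI S G κ t = ell κ (S.e (t, true)) := by
            unfold loI
            simp only [h1, h2, if_true]
            exact min_eq_right h3.le
          have y2 : hiI S G κ t = ell κ (S.e (t, false)) := by
            unfold hiI
            simp only [h1, h2, if_true]
            exact max_eq_left h3.le
          simp only [y1, y2, n1, n2, n3, n4, h1, h2, v1, v2, if_true, if_false]
          exact ⟨rfl, rfl⟩
      · left
        have y1 : loI S G κ t = ell κ (S.e (t, false)) := by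
          unfold loI
          simp only [h1, h2, if_true, if_false]
        have y2 : hiI S G κ t = pp κ := by
          unfold hiI
          simp only [h1, h2, if_true, if_false]
        simp only [y1, y2, n1, n2, n3, n4, h1, h2, v1, v2, if_true, if_false]
        exact ⟨rfl, trivial⟩
    · left
      by_cases h2 : (t, true) ∈ G
      · have y1 : loI S G κ t = 1 := by
          unfold loI
          simp only [h1, h2, if_true, if_false]
        have y2 : hiI S G κ t = ell κ (S.e (t, true)) := by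
          unfold hiI
          simp only [h1, h2, if_true, if_false]
        simp only [y1, y2, n1, n2, n3, n4, h1, h2, v1, v2, if_true, if_false]
        exact ⟨trivial, rfl⟩
      · have y1 : loI S G κ t = 1 := by
          unfold loI
          simp only [h1, h2, if_true, if_false]
        have y2 : hiI S G κ t = pp κ := by
          unfold hiI
          simp only [h1, h2, if_true, if_false]
        simp only [y1, y2, n1, n2, n3, n4, h1, h2, v1, v2, if_true, if_false]
        exact ⟨trivial, trivial⟩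
  · have hi' : ∀ t, S.row t ≠ i := fun t ht => hi ⟨t, ht⟩
    rw [codeI_other S G κ hi']
    left
    have hn : ∀ b, ¬ ∃ t, S.row t = i ∧ (t, b) ∈ G := by
      rintro b ⟨t, ht, _⟩
      exact hi' t ht
    rw [if_neg (hn false), if_neg (hn true)]
    exact ⟨rfl, rfl⟩

theorem ends_W (r : V → ℕ) (hr : ∀ w, r w ≤ S.n) (hf : ∀ a, 1 ≤ S.fdeg (S.e a))
    (G : Finset (Fin S.n × Bool)) {κ : V → ℕ} (hκ : Function.Injective κ)
    (h : V → Fin S.n × Bool) (w : {w : V // (S.cfg r hr hf).k G w ≠ 0})
    (hw : S.e (h w.1) = w.1) :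
    ((chOf S r κ (codeW S κ h w.1)).s = ps S r hr hf G κ (Sum.inl w.1) ∧
      (chOf S r κ (codeW S κ h w.1)).f = ps S r hr hf G κ (Sum.inr w)) ∨
    ((chOf S r κ (codeW S κ h w.1)).s = ps S r hr hf G κ (Sum.inr w) ∧
      (chOf S r κ (codeW S κ h w.1)).f = ps S r hr hf G κ (Sum.inl w.1)) := by
  have g1 := ell_lt κ w.1
  have g3 := ell_ge κ w.1
  have v1 := vh_ell (r := r) hκ w.1
  simp only [ps]
  rw [if_pos w.2]
  unfold codeW
  by_cases hb : (h w.1).2 = true
  · left
    rw [if_pos hb]
    simp only [chOf, upS, upF]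
    rw [if_neg (by omega), if_pos trivial, v1]
    refine ⟨rfl, ?_⟩
    unfold Std.e at hw
    rw [if_pos hb] at hw
    rw [hw]
  · right
    rw [if_neg hb]
    simp only [chOf, upS, upF]
    rw [if_pos trivial, if_neg (by omega), v1]
    refine ⟨?_, rfl⟩
    unfold Std.e at hw
    rw [if_neg hb] at hw
    rw [hw]

theorem LAc_self (r κ : V → ℕ) {c : Code S} (hc : Val S κ c) :
    crL (LAc S r κ c) (LAc S r κ c) = 0 := by
  match c, hc with
  | Sum.inl i, hc => exact crL_nil_right _
  | Sum.inr (t, lo, hi, δ), hc => exact crL_lad_self _ _ _ _ _ hc.2.2.1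

theorem alt_codeW (r κ : V → ℕ) (h : V → Fin S.n × Bool) (w : V) :
    Alt (chOf S r κ (codeW S κ h w)).r (chOf S r κ (codeW S κ h w)).l := by
  have g1 := ell_lt κ w
  have g2 := ell_even κ w
  have g3 := ell_ge κ w
  unfold codeW
  by_cases hb : (h w).2 = true
  · rw [if_pos hb]
    simp only [chOf]
    exact alt_up_hi g2 (pp_odd κ) g1 (alt_hi S _) (hd_hi S _)
  · rw [if_neg hb]
    simp only [chOf]
    exact alt_up_lo g2 g1 (by omega) (alt_lo S _)

end final

end Snk

namespace Std

variable {V ι : Type} [Fintype V] [DecidableEq V] [Fintype ι] [DecidableEq ι] {N : Net V ι}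
  {L : Type} [LinearOrder L] {u v : V} (S : Std N L u v)

open Snk in
/-- D7 (snake). -/
theorem snake (r : V → ℕ) (hr : ∀ w, r w ≤ S.n) (hf : ∀ a, 1 ≤ S.fdeg (S.e a))
    (G : Finset (Fin S.n × Bool)) (κ : V → ℕ)
    (hκ : Function.Injective κ) (h : V → Fin S.n × Bool)
    (hh : ∀ w, (S.cfg r hr hf).k G w ≠ 0 → h w ∈ (S.cfg r hr hf).endsAt G w) :
    ∃ (L' : Type) (_ : LinearOrder L')
      (H : Drawing (splitNet (Subtype.val : {w : V // (S.cfg r hr hf).k G w ≠ 0} → V)
        (S.att G Subtype.val false) (S.att G Subtype.val true)) L'),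
      (∀ w, Alt (H.inner (Sum.inr w)) (H.last (Sum.inr w))) ∧
      (∀ w, crL (H.path (Sum.inr w)) (H.path (Sum.inr w)) = 0) ∧
      ((∑ i, ∑ j, if i = j then 0 else crL (H.path (Sum.inl i)) (H.path (Sum.inl j)))
          + 2 * ∑ a ∈ G, S.c a ≤ S.D.dcr + (∑ a ∈ G, ∑ b ∈ G, S.xx a b)
            + 2 * (S.cfg r hr hf).T G κ) ∧
      (∀ w, ∑ j, crL (H.path (Sum.inr w)) (H.path (Sum.inl j)) ≤
        (S.cfg r hr hf).len (h w) + S.c (h w) + (S.cfg r hr hf).A G (h w).1 + 3) ∧
      (∀ w w', w ≠ w' → crL (H.path (Sum.inr w)) (H.path (Sum.inr w')) ≤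
        S.xx (h w) (h w') + (if (S.cfg r hr hf).Spans (h w) (h w').1 then 1 else 0)
          + (if (S.cfg r hr hf).Spans (h w') (h w).1 then 1 else 0)
          + 2 * (if (h w).1 = (h w').1 then 1 else 0)) := by
  let cd : ι ⊕ {w : V // (S.cfg r hr hf).k G w ≠ 0} → Code S :=
    Sum.elim (codeI S G κ) (fun w => codeW S κ h w.1)
  have hmem : ∀ w : {w : V // (S.cfg r hr hf).k G w ≠ 0}, h w.1 ∈ G ∧ S.e (h w.1) = w.1 :=
    fun w => Finset.mem_filter.mp (hh w.1 w.2)
  have hval : ∀ e, Val S κ (cd e) := by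
    rintro (i | w)
    · exact val_codeI S G hκ i
    · exact val_codeW S κ h w.1
  have hcomp : ∀ e e', e ≠ e' → Comp S κ (cd e) (cd e') := by
    rintro (i | w) (j | w') hne
    · exact comp_II S G κ (fun hij => hne (by rw [hij]))
    · exact comp_IW S G κ h i (hmem w').1
    · exact (comp_IW S G κ h j (hmem w).1).symm S
    · exact comp_WW S κ h (fun hij => hne (by rw [Subtype.ext hij])) (hmem w).2 (hmem w').2
  obtain ⟨H, h1, h2⟩ := exists_drawing
    (splitNet (Subtype.val : {w : V // (S.cfg r hr hf).k G w ≠ 0} → V)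
        (S.att G Subtype.val false) (S.att G Subtype.val true))
    (ps S r hr hf G κ) (ps_inj S r hr hf G hκ) (fun e => chOf S r κ (cd e))
    (by
      rintro (i | w)
      · exact ends_I S r hr hf G hκ i
      · exact ends_W S r hr hf G hκ h w (hmem w).2)
    (fun e => nodup_chOf S (hval e))
    (fun e e' hee => disj_chOf S (hval e) (hval e') (hcomp e e' hee))
    (by
      intro e x hx y
      obtain ⟨a1, a2⟩ := avoid_chOf S (hval e) x hx
      rcases ps_cases S r hr hf G κ y with ⟨w, hw⟩ | ⟨w, hw⟩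
      · rw [hw]
        exact a1 w
      · rw [hw]
        exact a2 w)
  have h3 : ∀ e e', crL (H.path e) (H.path e')
      = crL (OPc S κ (cd e)) (OPc S κ (cd e')) + crL (LAc S r κ (cd e)) (LAc S r κ (cd e')) := by
    intro e e'
    rw [h1]
    refine crL_chOf S (hval e) (hval e') ?_
    by_cases hee : e = e'
    · exact Or.inr (by rw [hee])
    · exact Or.inl (hcomp e e' hee)
  refine ⟨NL L, inferInstance, H, ?_, ?_, ?_, ?_, ?_⟩
  · intro w
    exact h2 _ (alt_codeW S r κ h w.1)
  · intro w
    rw [h3, LAc_self S r κ (hval _), add_zero]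
    change crL (OPc S κ (codeW S κ h w.1)) (OPc S κ (codeW S κ h w.1)) = 0
    rw [OPc_codeW, crL_part_part S rfl]
  · have c1 := count_old S r hr hf G κ hκ
    have c2 := count_new S r hr hf G κ hκ
    have c3 : (∑ i, ∑ j, if i = j then 0 else crL (H.path (Sum.inl i)) (H.path (Sum.inl j)))
        = (∑ i, ∑ j, if i = j then 0 else
            crL (OPc S κ (codeI S G κ i)) (OPc S κ (codeI S G κ j)))
          + (∑ i, ∑ j, if i = j then 0 else
            crL (LAc S r κ (codeI S G κ i)) (LAc S r κ (codeI S G κ j))) := by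
      simp only [← Finset.sum_add_distrib]
      refine Finset.sum_congr rfl fun i _ => Finset.sum_congr rfl fun j _ => ?_
      by_cases hij : i = j
      · simp [hij]
      · rw [if_neg hij, if_neg hij, if_neg hij, h3]
        rfl
    rw [c3]
    omega
  · intro w
    have c1 := count_guide S r hr hf G κ hκ h w.1 (hh w.1 w.2)
    refine le_trans (le_of_eq ?_) c1
    refine Finset.sum_congr rfl fun j _ => ?_
    rw [h3]
    rfl
  · intro w w' hww
    have c1 := count_guides S r hr hf G κ hκ h w.1 w'.1 (fun hij => hww (Subtype.ext hij))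
      (hh w.1 w.2) (hh w'.1 w'.2)
    rw [h3]
    exact c1

end Std

end MP60f107

end

section

/-!
Assembly of the drawing part: the move inequality, the bound for the number of rows, adding the
edge `uv`, and the final theorem.
-/

namespace MP60f107

open Finset

namespace Std

variable {V ι : Type} [Fintype V] [DecidableEq V] [Fintype ι] [DecidableEq ι] {N : Net V ι}
  {L : Type} [LinearOrder L] {u v : V} (S : Std N L u v)

/-! ### The attachment map -/

omit [Fintype V] [DecidableEq V] in
theorem att_elim (G : Finset (Fin S.n × Bool)) {W : Type} (ω : W → V) (b : Bool) (i : ι) :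
    Sum.elim id ω (S.att G ω b i) = if b then N.tgt i else N.src i := by
  unfold att
  by_cases h1 : ∃ t, S.row t = i ∧ (t, b) ∈ G
  · rw [if_pos h1]; rfl
  · rw [if_neg h1]
    by_cases h2 : ∃ w : W, ω w = (if b then N.tgt i else N.src i)
    · rw [dif_pos h2]
      exact h2.choose_spec
    · rw [dif_neg h2]; rfl

omit [Fintype V] [DecidableEq V] in
theorem att_inr {G : Finset (Fin S.n × Bool)} {W : Type} {ω : W → V} {b : Bool} {i : ι} {w : W}
    (h : S.att G ω b i = Sum.inr w) :
    (∀ t, S.row t = i → (t, b) ∉ G) ∧ ω w = if b then N.tgt i else N.src i := by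
  refine ⟨fun t ht hG => ?_, ?_⟩
  · unfold att at h
    rw [if_pos ⟨t, ht, hG⟩] at h
    cases h
  · rw [← S.att_elim G ω b i, h]
    rfl

theorem gg_le (r : V → ℕ) (hr : ∀ w, r w ≤ S.n) (hf : ∀ a, 1 ≤ S.fdeg (S.e a))
    (G : Finset (Fin S.n × Bool)) {W : Type} [DecidableEq W] (ω : W → V) (w : W) :
    (univ.filter fun i => S.att G ω false i = Sum.inr w).card
      + (univ.filter fun i => S.att G ω true i = Sum.inr w).card
      ≤ (S.cfg r hr hf).g G (ω w) := by
  classical
  set P : Bool → Finset ι := fun b => univ.filter fun i => S.att G ω b i = Sum.inr w with hP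
  set T : Bool → Finset (Fin S.n) := fun b => univ.filter fun t => (t, b) ∉ G ∧ S.e (t, b) = ω w
    with hT
  have e1 : ∀ b, ((P b).filter fun i => ¬ ∀ t, S.row t ≠ i).card ≤ (T b).card := by
    intro b
    have : (P b).filter (fun i => ¬ ∀ t, S.row t ≠ i) ⊆ (T b).image S.row := by
      intro i hi
      simp only [hP, mem_filter, mem_univ, true_and, not_forall, not_not] at hi
      obtain ⟨hi, t, rfl⟩ := hi
      obtain ⟨h1, h2⟩ := S.att_inr hi
      refine mem_image.2 ⟨t, ?_, rfl⟩
      simp only [hT, mem_filter, mem_univ, true_and]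
      refine ⟨h1 t rfl, ?_⟩
      rw [h2]
      rfl
    exact (card_le_card this).trans card_image_le
  have e2 : ((P false).filter fun i => ∀ t, S.row t ≠ i).card
      + ((P true).filter fun i => ∀ t, S.row t ≠ i).card ≤ S.fdeg (ω w) := by
    rw [← card_union_of_disjoint]
    · unfold fdeg
      refine card_le_card ?_
      intro i hi
      simp only [hP, mem_union, mem_filter, mem_univ, true_and] at hi ⊢
      rcases hi with ⟨hi, hr⟩ | ⟨hi, hr⟩
      · refine ⟨Or.inl ?_, hr⟩
        simpa using (S.att_inr hi).2.symm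
      · refine ⟨Or.inr ?_, hr⟩
        simpa using (S.att_inr hi).2.symm
    · rw [disjoint_left]
      intro i h1 h2
      simp only [hP, mem_filter, mem_univ, true_and] at h1 h2
      have h3 := (S.att_inr h1.1).2
      have h4 := (S.att_inr h2.1).2
      simp at h3 h4
      exact S.simple.loopless i (h3.symm.trans h4)
  have e3 : (T false).card + (T true).card = (S.cfg r hr hf).k (univ \ G) (ω w) := by
    unfold Cfg.k Cfg.endsAt
    rw [← card_image_of_injective (T false) (f := fun t => (t, false)) (fun a b h => by simpa using h),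
      ← card_image_of_injective (T true) (f := fun t => (t, true)) (fun a b h => by simpa using h),
      ← card_union_of_disjoint]
    · congr 1
      ext ⟨t, b⟩
      cases b <;> simp [hT]
    · rw [disjoint_left]
      intro i h1 h2
      simp only [mem_image] at h1 h2
      obtain ⟨t, -, rfl⟩ := h1
      obtain ⟨t', -, h⟩ := h2
      simp at h
  have e4 : ∀ b, ((P b).filter fun i => ∀ t, S.row t ≠ i).card
      + ((P b).filter fun i => ¬ ∀ t, S.row t ≠ i).card = (P b).card := by
    intro b
    exact card_filter_add_card_filter_not _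
  have e5 := e4 false
  have e6 := e4 true
  have e7 := e1 false
  have e8 := e1 true
  unfold Cfg.g
  rw [← e3]
  change (P false).card + (P true).card ≤ S.fdeg (ω w) + _
  omega

theorem g_le_deg (r : V → ℕ) (hr : ∀ w, r w ≤ S.n) (hf : ∀ a, 1 ≤ S.fdeg (S.e a))
    (G : Finset (Fin S.n × Bool)) (w : V) :
    (S.cfg r hr hf).g G w ≤ (S.cfg r hr hf).deg w := by
  unfold Cfg.g Cfg.deg Cfg.k Cfg.endsAt
  exact Nat.add_le_add_left (card_le_card (filter_subset_filter _ (subset_univ _))) _

/-- D9 (the move inequality). -/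
theorem move (r : V → ℕ) (hr : ∀ w, r w ≤ S.n) (hf : ∀ a, 1 ≤ S.fdeg (S.e a)) :
    (S.cfg r hr hf).Move 4 S.c S.xx := by
  intro G κ hκ h hh
  change Finset (Fin S.n × Bool) at G
  change V → Fin S.n × Bool at h
  obtain ⟨L', _, H, halt, hsim, h1, h2, h3⟩ := S.snake r hr hf G κ hκ h hh
  obtain ⟨L'', _, D, hD⟩ := contract N (Subtype.val : {w : V // (S.cfg r hr hf).k G w ≠ 0} → V)
    Subtype.val_injective (S.att G Subtype.val false) (S.att G Subtype.val true)
    (fun i => by simpa using S.att_elim G Subtype.val false i)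
    (fun i => by simpa using S.att_elim G Subtype.val true i) S.simple H halt hsim
  have hopt := S.good.opt L'' D
  have hgg := S.gg_le r hr hf G (Subtype.val : {w : V // (S.cfg r hr hf).k G w ≠ 0} → V)
  set gg : {w : V // (S.cfg r hr hf).k G w ≠ 0} → ℕ := fun w =>
    (univ.filter fun i => S.att G Subtype.val false i = Sum.inr w).card
      + (univ.filter fun i => S.att G Subtype.val true i = Sum.inr w).card with hggdef
  have b1 : ∑ w, gg w * ∑ j, crL (H.path (Sum.inr w)) (H.path (Sum.inl j))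
      ≤ ∑ w ∈ univ.filter (fun w => (S.cfg r hr hf).k G w ≠ 0),
          (S.cfg r hr hf).g G w * ((S.cfg r hr hf).len (h w) + S.c (h w)
            + (S.cfg r hr hf).A G (h w).1 + 3) := by
    rw [sum_subtype (univ.filter (fun w => (S.cfg r hr hf).k G w ≠ 0))
      (p := fun w => (S.cfg r hr hf).k G w ≠ 0) (by simp)]
    exact sum_le_sum fun w _ => Nat.mul_le_mul (hgg w) (h2 w)
  have b3 : ∑ w, gg w ^ 2 ≤ ∑ w ∈ univ.filter (fun w => (S.cfg r hr hf).k G w ≠ 0),
      (S.cfg r hr hf).deg w ^ 2 := by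
    rw [sum_subtype (univ.filter (fun w => (S.cfg r hr hf).k G w ≠ 0))
      (p := fun w => (S.cfg r hr hf).k G w ≠ 0) (by simp)]
    exact sum_le_sum fun w _ => Nat.pow_le_pow_left ((hgg w).trans (S.g_le_deg r hr hf G w.1)) 2
  set Φ : V → V → ℕ := fun w w' => (S.cfg r hr hf).g G w * (S.cfg r hr hf).g G w' *
      (S.xx (h w) (h w') + (if (S.cfg r hr hf).Spans (h w) (h w').1 then 1 else 0)
            + (if (h w).1 = (h w').1 then 1 else 0)) with hΦ
  have b2 : ∑ w, ∑ w', (if w = w' then 0 else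
            gg w * gg w' * crL (H.path (Sum.inr w)) (H.path (Sum.inr w')))
      ≤ 2 * ∑ w ∈ univ.filter (fun w => (S.cfg r hr hf).k G w ≠ 0),
          ∑ w' ∈ univ.filter (fun w' => (S.cfg r hr hf).k G w' ≠ 0 ∧ w' ≠ w), Φ w w' := by
    have c1 : ∑ w : {w : V // (S.cfg r hr hf).k G w ≠ 0},
        ∑ w' : {w : V // (S.cfg r hr hf).k G w ≠ 0}, (if w = w' then 0 else Φ w.1 w'.1)
        = ∑ w ∈ univ.filter (fun w => (S.cfg r hr hf).k G w ≠ 0),
          ∑ w' ∈ univ.filter (fun w' => (S.cfg r hr hf).k G w' ≠ 0 ∧ w' ≠ w), Φ w w' := by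
      rw [sum_subtype (univ.filter (fun w => (S.cfg r hr hf).k G w ≠ 0))
        (p := fun w => (S.cfg r hr hf).k G w ≠ 0) (by simp)]
      refine sum_congr rfl fun w _ => ?_
      rw [← filter_filter, sum_filter, sum_subtype (univ.filter (fun w => (S.cfg r hr hf).k G w ≠ 0))
        (p := fun w => (S.cfg r hr hf).k G w ≠ 0) (by simp)]
      refine sum_congr rfl fun w' _ => ?_
      by_cases hw : w = w'
      · simp [hw]
      · have : (w' : V) ≠ w := fun h => hw (Subtype.ext h.symm)
        simp [hw, this]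
    have c2 : ∑ w : {w : V // (S.cfg r hr hf).k G w ≠ 0},
        ∑ w' : {w : V // (S.cfg r hr hf).k G w ≠ 0}, (if w = w' then 0 else Φ w'.1 w.1)
        = ∑ w : {w : V // (S.cfg r hr hf).k G w ≠ 0},
        ∑ w' : {w : V // (S.cfg r hr hf).k G w ≠ 0}, (if w = w' then 0 else Φ w.1 w'.1) := by
      rw [sum_comm]
      refine sum_congr rfl fun w _ => sum_congr rfl fun w' _ => ?_
      simp only [eq_comm]
    rw [two_mul, ← c1]
    nth_rewrite 2 [← c2]
    rw [← sum_add_distrib]
    refine sum_le_sum fun w _ => ?_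
    rw [← sum_add_distrib]
    refine sum_le_sum fun w' _ => ?_
    split_ifs with hw
    · exact le_refl _
    · have hq := h3 w w' hw
      have hm : gg w * gg w' ≤ (S.cfg r hr hf).g G w * (S.cfg r hr hf).g G w' :=
        Nat.mul_le_mul (hgg w) (hgg w')
      refine (Nat.mul_le_mul hm hq).trans ?_
      simp only [hΦ]
      have hs : (if (h w.1).1 = (h w'.1).1 then 1 else 0) = (if (h w'.1).1 = (h w.1).1 then 1 else 0)
        := by simp only [eq_comm]
      rw [mul_comm ((S.cfg r hr hf).g G w'.1) ((S.cfg r hr hf).g G w.1), ← mul_add]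
      refine Nat.mul_le_mul_left _ ?_
      rw [← hs]
      omega
  have e1 : S.D.dcr ≤ _ := hopt.trans hD
  change S.D.dcr ≤ (∑ i, ∑ j, if i = j then 0 else crL (H.path (Sum.inl i)) (H.path (Sum.inl j)))
        + 2 * (∑ w, gg w * ∑ j, crL (H.path (Sum.inr w)) (H.path (Sum.inl j)))
        + (∑ w, ∑ w', if w = w' then 0 else gg w * gg w'
            * crL (H.path (Sum.inr w)) (H.path (Sum.inr w')))
        + 4 * ∑ w, gg w ^ 2 at e1
  change 2 * ∑ a ∈ G, S.c a ≤ (∑ a ∈ G, ∑ b ∈ G, S.xx a b) + 2 * (S.cfg r hr hf).T G κ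
      + 2 * ∑ w ∈ univ.filter (fun w => (S.cfg r hr hf).k G w ≠ 0),
          (S.cfg r hr hf).g G w * ((S.cfg r hr hf).len (h w) + S.c (h w)
            + (S.cfg r hr hf).A G (h w).1 + 3)
      + 2 * ∑ w ∈ univ.filter (fun w => (S.cfg r hr hf).k G w ≠ 0),
          ∑ w' ∈ univ.filter (fun w' => (S.cfg r hr hf).k G w' ≠ 0 ∧ w' ≠ w), Φ w w'
      + 4 * ∑ w ∈ univ.filter (fun w => (S.cfg r hr hf).k G w ≠ 0), ((S.cfg r hr hf).deg w) ^ 2
  omega


/-! ### The bound for the number of rows -/

/-- The heights of the vertices. -/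
noncomputable def rr (w : V) : ℕ :=
  (univ.filter fun a : Fin S.n × Bool => S.e a = w).sup fun a => a.1.val - (S.c a + N.deg w)

omit [Fintype V] in
theorem rr_le (w : V) : S.rr w ≤ S.n := by
  unfold rr
  refine Finset.sup_le fun a _ => ?_
  have := a.1.2
  omega

theorem deg_le (r : V → ℕ) (hr : ∀ w, r w ≤ S.n) (hf : ∀ a, 1 ≤ S.fdeg (S.e a)) (w : V) :
    N.deg w ≤ (S.cfg r hr hf).deg w := by
  classical
  have h1 : ((univ.filter fun i => N.Inc i w).filter fun i => ∀ t, S.row t ≠ i).card
      + ((univ.filter fun i => N.Inc i w).filter fun i => ¬ ∀ t, S.row t ≠ i).card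
      = (univ.filter fun i => N.Inc i w).card := card_filter_add_card_filter_not _
  have h2 : ((univ.filter fun i => N.Inc i w).filter fun i => ∀ t, S.row t ≠ i).card
      = S.fdeg w := by
    unfold fdeg
    rw [filter_filter]
  have h3 : ((univ.filter fun i => N.Inc i w).filter fun i => ¬ ∀ t, S.row t ≠ i).card
      ≤ (S.cfg r hr hf).k univ w := by
    unfold Cfg.k Cfg.endsAt
    have : (univ.filter fun i => N.Inc i w).filter (fun i => ¬ ∀ t, S.row t ≠ i)
        ⊆ (univ.filter fun a => S.e a = w).image fun a => S.row a.1 := by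
      intro i hi
      simp only [mem_filter, mem_univ, true_and, not_forall, not_not] at hi
      obtain ⟨hi, t, rfl⟩ := hi
      rcases hi with hi | hi
      · refine mem_image.2 ⟨(t, false), ?_, rfl⟩
        simp [e, hi]
      · refine mem_image.2 ⟨(t, true), ?_, rfl⟩
        simp [e, hi]
    exact (card_le_card this).trans card_image_le
  unfold Cfg.deg
  change _ ≤ S.fdeg w + _
  unfold Net.deg
  omega

omit [Fintype V] [DecidableEq V] in
theorem card_Ico_le (n a b : ℕ) : (univ.filter fun t : Fin n => a ≤ t.val ∧ t.val < b).card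
    ≤ b - a := by
  rw [← Nat.card_Ico]
  refine card_le_card_of_injOn (fun t => t.val) ?_ (fun x _ y _ h => Fin.ext h)
  intro t ht
  simpa using ht

theorem len_le (hf : ∀ a, 1 ≤ S.fdeg (S.e a)) (a : Fin S.n × Bool) :
    (S.cfg S.rr S.rr_le hf).len a ≤ S.c a + 3 * (S.cfg S.rr S.rr_le hf).deg (S.e a) := by
  classical
  have hd := S.deg_le S.rr S.rr_le hf (S.e a)
  suffices h : (S.cfg S.rr S.rr_le hf).len a ≤ S.c a + N.deg (S.e a) by omega
  unfold Cfg.len Cfg.Spans
  change (univ.filter fun t : Fin S.n => (S.rr (S.e a) ≤ t.val ∧ t.val < a.1.val) ∨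
    (a.1.val < t.val ∧ t.val < S.rr (S.e a))).card ≤ _
  rcases le_or_gt (S.rr (S.e a)) a.1.val with h | h
  · have h1 : (univ.filter fun t : Fin S.n => (S.rr (S.e a) ≤ t.val ∧ t.val < a.1.val) ∨
        (a.1.val < t.val ∧ t.val < S.rr (S.e a)))
        ⊆ univ.filter fun t : Fin S.n => S.rr (S.e a) ≤ t.val ∧ t.val < a.1.val := by
      intro t ht
      simp only [mem_filter, mem_univ, true_and] at ht ⊢
      omega
    have h2 : a.1.val - (S.c a + N.deg (S.e a)) ≤ S.rr (S.e a) := by
      unfold rr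
      exact Finset.le_sup (f := fun a' : Fin S.n × Bool => a'.1.val - (S.c a' + N.deg (S.e a)))
        (by simp)
    have h3 := (card_le_card h1).trans (card_Ico_le _ _ _)
    omega
  · have hne : (univ.filter fun a' : Fin S.n × Bool => S.e a' = S.e a).Nonempty := ⟨a, by simp⟩
    obtain ⟨b, hb, hb'⟩ := Finset.exists_mem_eq_sup _ hne
      fun a' => a'.1.val - (S.c a' + N.deg (S.e a))
    change S.rr (S.e a) = _ at hb'
    simp only [mem_filter, mem_univ, true_and] at hb
    have hlt : a.1 < b.1 := by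
      rw [Fin.lt_def]; omega
    have hp := S.pcl a b hb.symm hlt
    have h1 : (univ.filter fun t : Fin S.n => (S.rr (S.e a) ≤ t.val ∧ t.val < a.1.val) ∨
        (a.1.val < t.val ∧ t.val < S.rr (S.e a)))
        ⊆ univ.filter fun t : Fin S.n => a.1.val + 1 ≤ t.val ∧ t.val < S.rr (S.e a) := by
      intro t ht
      simp only [mem_filter, mem_univ, true_and] at ht ⊢
      omega
    have h3 := (card_le_card h1).trans (card_Ico_le _ _ _)
    rw [Fin.lt_def] at hlt
    omega

omit [Fintype V] [DecidableEq V] in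
theorem path_row_split (t : Fin S.n) :
    S.D.path (S.row t) = S.part (t, false) ++ S.part (t, true) := by
  unfold Drawing.path
  rw [S.inner_eq, arcs_append]
  simp [part]

omit [Fintype V] [DecidableEq V] in
theorem sum_xx_le (a : Fin S.n × Bool) : ∑ b, S.xx a b ≤ S.c a := by
  rw [Fintype.sum_prod_type]
  have h1 : ∀ t : Fin S.n, ∑ b : Bool, S.xx a (t, b)
      = if S.row t = S.row a.1 then 0 else crL (S.part a) (S.D.path (S.row t)) := by
    intro t
    rw [Fintype.sum_bool]
    unfold xx
    by_cases h : a.1 = t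
    · simp [h]
    · have h' : S.row t ≠ S.row a.1 := fun h2 => h (S.row_inj h2).symm
      simp only [h, h', if_false]
      rw [S.path_row_split, crL_append_right]
      omega
  simp only [h1]
  unfold c
  calc ∑ t, (if S.row t = S.row a.1 then 0 else crL (S.part a) (S.D.path (S.row t)))
      = ∑ j ∈ univ.image S.row, (if j = S.row a.1 then 0 else crL (S.part a) (S.D.path j)) := by
        rw [sum_image (fun x _ y _ h => S.row_inj h)]
    _ ≤ _ := sum_le_sum_of_subset (subset_univ _)

theorem sum_fdeg_le : ∑ w, S.fdeg w ≤ 2 * (Fintype.card ι - S.n) := by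
  classical
  have h1 : (univ.filter fun i => ∀ t, S.row t ≠ i).card = Fintype.card ι - S.n := by
    have : (univ.filter fun i => ∀ t, S.row t ≠ i) = univ \ univ.image S.row := by
      ext i; simp
    rw [this, card_sdiff_of_subset (subset_univ _), card_image_of_injective _ S.row_inj]
    simp
  have h2 : ∀ w, S.fdeg w = ∑ i ∈ univ.filter (fun i => ∀ t, S.row t ≠ i),
      if N.Inc i w then 1 else 0 := by
    intro w
    unfold fdeg
    rw [card_filter, sum_filter]
    refine sum_congr rfl fun i _ => ?_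
    by_cases h3 : N.Inc i w <;> by_cases h4 : ∀ t, S.row t ≠ i <;> simp [h3, h4]
  simp only [h2]
  rw [sum_comm, ← h1, mul_comm, ← smul_eq_mul]
  refine sum_le_card_nsmul _ _ _ fun i _ => ?_
  rw [← card_filter]
  have : (univ.filter fun w => N.Inc i w) ⊆ {N.src i, N.tgt i} := by
    intro w hw
    simp only [mem_filter, mem_univ, true_and, Net.Inc] at hw
    simp only [mem_insert, mem_singleton]
    tauto
  exact (card_le_card this).trans card_le_two

/-- D10: the number of rows is at most a constant times the number of edges without a row. -/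
theorem exists_bound : ∃ M : ℕ, ∀ (V ι : Type) [Fintype V] [DecidableEq V] [Fintype ι]
    [DecidableEq ι] (N : Net V ι) (L : Type) [LinearOrder L] (u v : V) (S : Std N L u v),
    S.n ≤ M * (Fintype.card ι - S.n) := by
  obtain ⟨M, hM⟩ := Cfg.core 4
  refine ⟨2 * M, fun V ι _ _ _ _ N L _ u v S => ?_⟩
  have hf := S.fdeg_pos
  have h1 := hM V (S.cfg S.rr S.rr_le hf) S.c S.xx S.sum_xx_le (S.len_le hf) (S.move _ _ hf)
  change S.n ≤ M * ∑ w, S.fdeg w at h1
  have h2 := Nat.mul_le_mul_left M S.sum_fdeg_le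
  calc S.n ≤ _ := h1
    _ ≤ _ := h2
    _ = _ := by ring

/-! ### Adding the edge -/


omit [Fintype V] [DecidableEq V] in
/-- An arc without end points strictly between `u` and `v` does not cross the arc `(u,v)`. -/
theorem X_uv_eq_zero {a b : L} {s : Bool} {A : Arc L}
    (hp : ¬ (a < A.p ∧ A.p < b)) (hq : ¬ (a < A.q ∧ A.q < b)) (hab : a < b) :
    X ⟨a, b, s⟩ A = 0 := by
  refine X_of_not_ilv ?_
  unfold Ilv Btw Ots
  dsimp only
  grind

omit [Fintype V] [DecidableEq V] in
theorem crL_uv_le_of_chain {a b c d : L} {r : List (Bool × L)} {s' : Bool} (hab : a < b)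
    (hc : ¬ (a < c ∧ c < b)) (hd : ¬ (a < d ∧ d < b)) (hr : ∀ x ∈ r, ¬ (a < x.2 ∧ x.2 < b)) :
    crL [⟨a, b, true⟩] (arcs c r s' d) = 0 := by
  rw [crL_eq_zero_iff]
  intro A hA B hB
  rw [List.mem_singleton] at hA
  subst hA
  refine X_uv_eq_zero ?_ ?_ hab
  · rcases mem_arcs_p hB with h | ⟨x, hx, h⟩
    · rw [h]; exact hc
    · rw [h]; exact hr x hx
  · rcases mem_arcs_q hB with ⟨x, hx, h⟩ | h
    · rw [h]; exact hr x hx
    · rw [h]; exact hd

omit [Fintype V] [DecidableEq V] in
/-- The arc `(u,v)` in the upper page crosses an edge at most once, and only if it has a row. -/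
theorem crL_uv (i : ι) : crL [⟨S.D.pos u, S.D.pos v, true⟩] (S.D.path i)
    ≤ if ∃ t, S.row t = i then 1 else 0 := by
  have hnf := S.good.nf
  have hv : ∀ w, ¬ (S.D.pos u < S.D.pos w ∧ S.D.pos w < S.D.pos v) := hnf.2
  by_cases h : ∃ t, S.row t = i
  · obtain ⟨t, rfl⟩ := h
    rw [if_pos ⟨t, rfl⟩, S.path_row_split, crL_append_right]
    have halt := S.alt (S.row t)
    rw [S.inner_eq, Alt_append] at halt
    have h1 : crL [⟨S.D.pos u, S.D.pos v, true⟩] (S.part (t, false)) = 0 := by
      rw [crL_eq_zero_iff]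
      intro A hA B hB
      rw [List.mem_singleton] at hA
      subst hA
      simp only [part, Bool.false_eq_true, if_false] at hB
      rcases mem_arcs_split hB with ⟨h, rfl⟩ | ⟨x, r', h, rfl⟩ | ⟨r', x, h, rfl⟩ |
        ⟨r', x, y, r'', h, rfl⟩
      · exact X_of_page_ne (by simp)
      · exact X_uv_eq_zero (hv _) (S.lo_out t x (by rw [h]; simp)) hnf.1
      · exact X_of_page_ne (by simp)
      · exact X_uv_eq_zero (S.lo_out t x (by rw [h]; simp)) (S.lo_out t y (by rw [h]; simp)) hnf.1
    have h2 : crL [⟨S.D.pos u, S.D.pos v, true⟩] (S.part (t, true)) ≤ 1 := by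
      simp only [part, if_true]
      cases hh : S.hi t with
      | nil =>
        rw [arcs_nil, crL_singleton]
        exact X_le_one _ _
      | cons y r =>
        rw [arcs_cons, crL_cons', crL_singleton, crL_uv_le_of_chain hnf.1
          (S.hi_out t y (by rw [hh]; simp)) (hv _) (fun x hx => S.hi_out t x (by rw [hh]; simp [hx]))]
        exact X_le_one _ _
    omega
  · rw [if_neg h]
    refine (crL_uv_le_of_chain hnf.1 (hv _) (hv _) ?_).le
    exact S.other i (fun t ht => h ⟨t, ht⟩)

/-- The drawing with the edge `uv` added as an arc in the upper page. -/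
def addD : Drawing (N.add u v) L where
  pos := S.D.pos
  inner := fun o => o.elim [] S.D.inner
  last := fun o => o.elim true S.D.last
  pos_inj := S.D.pos_inj
  nodup := by
    rintro (_ | i)
    · exact List.nodup_nil
    · exact S.D.nodup i
  disj := by
    rintro (_ | i) (_ | j) hij x hx y hy
    · exact absurd rfl hij
    · simp at hx
    · simp at hy
    · exact S.D.disj i j (fun h => hij (by rw [h])) x hx y hy
  avoid := by
    rintro (_ | i) x hx w
    · simp at hx
    · exact S.D.avoid i x hx w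

/-- D11: adding the edge `uv` costs at most the number of rows. -/
theorem exists_add : ∃ D' : Drawing (N.add u v) L, D'.dcr ≤ S.D.dcr + 2 * S.n ∧
    (∀ i, crL (D'.path i) (D'.path i) = 0) ∧ ∀ i, Alt (D'.inner i) (D'.last i) := by
  classical
  refine ⟨S.addD, ?_, ?_, ?_⟩
  · have h0 : ∀ i, S.addD.path (some i) = S.D.path i := fun i => rfl
    have h1 : S.addD.path none = [⟨S.D.pos u, S.D.pos v, true⟩] := rfl
    unfold Drawing.dcr
    rw [Fintype.sum_option]
    simp only [Fintype.sum_option, h0, h1, if_true, reduceCtorEq, if_false, Option.some.injEq,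
      zero_add]
    rw [sum_add_distrib]
    have h2 : ∑ i, crL [⟨S.D.pos u, S.D.pos v, true⟩] (S.D.path i) ≤ S.n := by
      calc _ ≤ ∑ i, (if ∃ t, S.row t = i then 1 else 0) := sum_le_sum fun i _ => S.crL_uv i
        _ = (univ.image S.row).card := by
          rw [← card_filter]
          congr 1
          ext i; simp
        _ = S.n := by rw [card_image_of_injective _ S.row_inj]; simp
    have h3 : ∑ i, crL (S.D.path i) [⟨S.D.pos u, S.D.pos v, true⟩] ≤ S.n := by
      simp only [crL_comm (S.D.path _)]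
      exact h2
    omega
  · rintro (_ | i)
    · change crL [_] [_] = 0
      rw [crL_singleton, X_self]
    · exact S.nocross i
  · rintro (_ | i)
    · trivial
    · exact S.alt i

end Std

end MP60f107

end
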