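import Pool.Agent.Lib.MP_60f107_co.CrPlane

section

/-!
T1. A weak polygonal drawing of a net gives a spine drawing with at most as many crossings.
-/

namespace MP60f107

namespace T1

open P1 (phi phi_lineMap Elem pg sp sp_inj arc cross exists_generic Dj Mid mid mid_spec rfi
  consec_rfi mem_rfi enc lst arcs_enc enc_snd mem_enc crL_le overlap mem_consec consec_ne)

/-! ### Lists -/

/-- The two segments have the same end points. -/
def Same (s t : Plane × Plane) : Prop := (s.1 = t.1 ∧ s.2 = t.2) ∨ (s.1 = t.2 ∧ s.2 = t.1)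

theorem consec_pairwise {l : List Plane} (hl : l.Nodup) :
    (consec l).Pairwise (fun s t => ¬ Same s t) := by
  induction l with
  | nil => simp [consec]
  | cons a l ih =>
    cases l with
    | nil => simp [consec]
    | cons b l =>
      simp only [consec]
      rw [List.nodup_cons] at hl
      rw [List.pairwise_cons]
      refine ⟨?_, ih hl.2⟩
      rintro t ht (⟨h, -⟩ | ⟨h, -⟩)
      · have h' : a = t.1 := h
        exact hl.1 (h' ▸ (mem_consec ht).1)
      · have h' : a = t.2 := h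
        exact hl.1 (h' ▸ (mem_consec ht).2)

/-- No common point of the two open segments lies on a lane. -/
def Dz (Z : Finset ℝ) (e : ℝ) (s t : Plane × Plane) : Prop :=
  ∀ x, x ∈ openSegment ℝ s.1 s.2 → x ∈ openSegment ℝ t.1 t.2 → phi e x ∉ Z

theorem nodup_rfi {Z : Finset ℝ} {e : ℝ} {p : Plane} {r : List Plane} {q : Plane}
    (hr : r.Nodup) (hm : ∀ s ∈ consec (p :: (r ++ [q])), Mid Z e s.1 s.2 (mid Z e s.1 s.2))
    (hd : (consec (p :: (r ++ [q]))).Pairwise (Dz Z e))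
    (ha : ∀ s ∈ consec (p :: (r ++ [q])), ∀ x ∈ r, x ∉ openSegment ℝ s.1 s.2) :
    (rfi Z e p r q).Nodup := by
  induction r generalizing p with
  | nil => exact (hm (p, q) (by simp [consec])).nodup
  | cons y r ih =>
    have hcs : consec (p :: ((y :: r) ++ [q])) = (p, y) :: consec (y :: (r ++ [q])) := by
      simp [consec]
    rw [hcs] at hm hd ha
    rw [List.nodup_cons] at hr
    rw [List.pairwise_cons] at hd
    have ih' := ih hr.2 (fun s hs => hm s (List.mem_cons_of_mem _ hs)) hd.2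
      (fun s hs x hx => ha s (List.mem_cons_of_mem _ hs) x (List.mem_cons_of_mem _ hx))
    simp only [rfi]
    rw [List.nodup_append, List.nodup_cons]
    have hmp := hm (p, y) (by simp)
    refine ⟨hmp.nodup, ⟨fun h => ?_, ih'⟩, ?_⟩
    · rcases mem_rfi h with h | ⟨s, hs, h⟩
      · exact hr.1 h
      · exact ha s (List.mem_cons_of_mem _ hs) y (by simp) ((hm s (List.mem_cons_of_mem _ hs)).mem y h).1
    · intro a ha1 b hb hab
      subst hab
      have hao := hmp.mem a ha1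
      rw [List.mem_cons] at hb
      rcases hb with rfl | hb
      · exact ha (p, a) (by simp) a (by simp) hao.1
      · rcases mem_rfi hb with h | ⟨s, hs, h⟩
        · exact ha (p, y) (by simp) a (List.mem_cons_of_mem _ h) hao.1
        · exact hd.1 s hs a hao.1 ((hm s (List.mem_cons_of_mem _ hs)).mem a h).1 hao.2

/-! ### Overlaps -/

theorem unique_of_not_same {e : ℝ} {F : Set Plane}
    (he : ∀ p ∈ F, ∀ q ∈ F, phi e p = phi e q → p = q) {p q p' q' x y : Plane}
    (hp : p ∈ F) (hq : q ∈ F) (hp' : p' ∈ F) (hq' : q' ∈ F) (hpq : p ≠ q) (hpq' : p' ≠ q')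
    (a1 : p ∉ openSegment ℝ p' q') (a2 : q ∉ openSegment ℝ p' q')
    (a3 : p' ∉ openSegment ℝ p q) (a4 : q' ∉ openSegment ℝ p q)
    (hs : ¬ Same (p, q) (p', q'))
    (hx : x ∈ openSegment ℝ p q) (hx' : x ∈ openSegment ℝ p' q')
    (hy : y ∈ openSegment ℝ p q) (hy' : y ∈ openSegment ℝ p' q') : x = y := by
  by_contra hxy
  have hphi : phi e p ≠ phi e q := fun h => hpq (he _ hp _ hq h)
  have hphi' : phi e p' ≠ phi e q' := fun h => hpq' (he _ hp' _ hq' h)
  apply hs
  rcases lt_or_gt_of_ne hphi with h1 | h1 <;> rcases lt_or_gt_of_ne hphi' with h2 | h2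
  · obtain ⟨h3, h4⟩ := overlap h1 h2 hx hx' hy hy' hxy a1 a3 a2 a4
    exact Or.inl ⟨h3, h4⟩
  · rw [openSegment_symm ℝ p' q'] at hx' hy' a1 a2
    obtain ⟨h3, h4⟩ := overlap h1 h2 hx hx' hy hy' hxy a1 a4 a2 a3
    exact Or.inr ⟨h3, h4⟩
  · rw [openSegment_symm ℝ p q] at hx hy a3 a4
    obtain ⟨h3, h4⟩ := overlap h1 h2 hx hx' hy hy' hxy a2 a3 a1 a4
    exact Or.inr ⟨h4, h3⟩
  · rw [openSegment_symm ℝ p q] at hx hy a3 a4
    rw [openSegment_symm ℝ p' q'] at hx' hy' a1 a2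
    obtain ⟨h3, h4⟩ := overlap h1 h2 hx hx' hy hy' hxy a2 a4 a1 a3
    exact Or.inl ⟨h4, h3⟩

/-! ### Counting -/

section count

variable {L : Type} [LinearOrder L]

theorem crL_append_right (A B C : List (Arc L)) : crL A (B ++ C) = crL A B + crL A C := by
  unfold crL
  induction A with
  | nil => simp
  | cons a A ih =>
    simp only [List.map_cons, List.sum_cons, List.map_append, List.sum_append] at ih ⊢
    omega

theorem crL_flatMap_left {α : Type} (P : List α) (f : α → List (Arc L)) (B : List (Arc L)) :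
    crL (P.flatMap f) B = (P.map fun s => crL (f s) B).sum := by
  induction P with
  | nil => simp [crL]
  | cons a P ih =>
    rw [List.flatMap_cons, List.map_cons, List.sum_cons, ← ih]
    simp [crL]

theorem crL_flatMap_right {α : Type} (A : List (Arc L)) (Q : List α) (g : α → List (Arc L)) :
    crL A (Q.flatMap g) = (Q.map fun t => crL A (g t)).sum := by
  induction Q with
  | nil => simp [crL]
  | cons a P ih =>
    rw [List.flatMap_cons, List.map_cons, List.sum_cons, ← ih, crL_append_right]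

end count

theorem sum_le_countP {α : Type} (Q : List α) (h : α → ℕ) (p : α → Bool)
    (h1 : ∀ t ∈ Q, h t ≤ 1) (h2 : ∀ t ∈ Q, p t = false → h t = 0) :
    (Q.map h).sum ≤ Q.countP p := by
  induction Q with
  | nil => simp
  | cons a Q ih =>
    rw [List.map_cons, List.sum_cons, List.countP_cons]
    have := ih (fun t ht => h1 t (List.mem_cons_of_mem _ ht))
      (fun t ht => h2 t (List.mem_cons_of_mem _ ht))
    have h3 := h1 a (by simp)
    have h4 := h2 a (by simp)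
    cases hp : p a
    · have := h4 hp
      simp
      omega
    · simp
      omega

section WP

variable {V ι : Type} {N : Net V ι} (W : WeakPoly N)

/-- The points of an edge. -/
def line (i : ι) : List Plane := W.pos (N.src i) :: (W.bends i ++ [W.pos (N.tgt i)])

theorem mem_line {i : ι} {x : Plane} (h : x ∈ line W i) :
    x = W.pos (N.src i) ∨ x = W.pos (N.tgt i) ∨ x ∈ W.bends i := by
  simp only [line, List.mem_cons, List.mem_append, List.not_mem_nil, or_false] at h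
  tauto

theorem line_nodup (hN : N.Simple) (i : ι) : (line W i).Nodup := by
  rw [line, List.nodup_cons, List.nodup_append]
  refine ⟨?_, W.nodup i, by simp, ?_⟩
  · intro hm
    rw [List.mem_append, List.mem_singleton] at hm
    rcases hm with hm | hm
    · exact W.avoid i _ hm _ rfl
    · exact hN.loopless i (W.pos_inj hm)
  · intro x hx y hy hxy
    rw [List.mem_singleton] at hy
    exact W.avoid i x hx _ (hxy.trans hy)

/-- The vertices and bends. -/
def nodes : Set Plane := {x | (∃ v, x = W.pos v) ∨ ∃ i, x ∈ W.bends i}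

theorem nodes_finite [Finite V] [Finite ι] : (nodes W).Finite := by
  have h1 : (Set.range W.pos).Finite := Set.finite_range _
  have h2 : (⋃ i : ι, {x | x ∈ W.bends i}).Finite :=
    Set.finite_iUnion fun i => List.finite_toSet _
  refine (h1.union h2).subset ?_
  rintro x (⟨v, rfl⟩ | ⟨i, h⟩)
  · left
    exact ⟨v, rfl⟩
  · right
    simp only [Set.mem_iUnion]
    exact ⟨i, h⟩

theorem line_nodes {i : ι} {x : Plane} (h : x ∈ line W i) : x ∈ nodes W := by
  rcases mem_line W h with h | h | h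
  · exact Or.inl ⟨_, h⟩
  · exact Or.inl ⟨_, h⟩
  · exact Or.inr ⟨i, h⟩

theorem node_avoid {i : ι} {s : Plane × Plane} (hs : s ∈ W.segs i) {x : Plane}
    (hx : x ∈ nodes W) : x ∉ openSegment ℝ s.1 s.2 := by
  rcases hx with ⟨v, rfl⟩ | ⟨j, h⟩
  · exact W.pos_avoid i s hs v
  · exact W.bend_avoid i j s hs x h

theorem seg_line {i : ι} {s : Plane × Plane} (hs : s ∈ W.segs i) :
    s.1 ∈ line W i ∧ s.2 ∈ line W i := mem_consec hs

theorem seg_nodes {i : ι} {s : Plane × Plane} (hs : s ∈ W.segs i) :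
    s.1 ∈ nodes W ∧ s.2 ∈ nodes W :=
  ⟨line_nodes W (seg_line W hs).1, line_nodes W (seg_line W hs).2⟩

theorem seg_ne (hN : N.Simple) {i : ι} {s : Plane × Plane} (hs : s ∈ W.segs i) : s.1 ≠ s.2 :=
  consec_ne (line_nodup W hN i) hs

/-- A node on two different edges is a common end. -/
theorem common {i j : ι} (hne : i ≠ j) {x : Plane} (h1 : x ∈ line W i) (h2 : x ∈ line W j) :
    (x = W.pos (N.src i) ∨ x = W.pos (N.tgt i)) ∧
      (x = W.pos (N.src j) ∨ x = W.pos (N.tgt j)) := by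
  rcases mem_line W h1 with h1 | h1 | h1 <;> rcases mem_line W h2 with h2 | h2 | h2
  · exact ⟨Or.inl h1, Or.inl h2⟩
  · exact ⟨Or.inl h1, Or.inr h2⟩
  · exact absurd h1 (W.avoid j x h2 _)
  · exact ⟨Or.inr h1, Or.inl h2⟩
  · exact ⟨Or.inr h1, Or.inr h2⟩
  · exact absurd h1 (W.avoid j x h2 _)
  · exact absurd h2 (W.avoid i x h1 _)
  · exact absurd h2 (W.avoid i x h1 _)
  · exact absurd h2 (W.disj i j hne x h1)

theorem no_common_seg (hN : N.Simple) {i j : ι} (hne : i ≠ j) {p q : Plane} (hpq : p ≠ q)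
    (h1 : p ∈ line W i) (h2 : p ∈ line W j) (h3 : q ∈ line W i) (h4 : q ∈ line W j) : False := by
  obtain ⟨e1, e2⟩ := common W hne h1 h2
  obtain ⟨e3, e4⟩ := common W hne h3 h4
  apply hne
  apply hN.inj
  rw [Sym2.eq_iff]
  have hinj := W.pos_inj
  rcases e1 with e1 | e1 <;> rcases e3 with e3 | e3 <;> rcases e2 with e2 | e2 <;>
    rcases e4 with e4 | e4
  all_goals first
    | exact absurd (e1.trans e3.symm) hpq
    | exact absurd (e2.trans e4.symm) hpq
    | exact Or.inl ⟨hinj (e1.symm.trans e2), hinj (e3.symm.trans e4)⟩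
    | exact Or.inr ⟨hinj (e1.symm.trans e2), hinj (e3.symm.trans e4)⟩
    | exact Or.inl ⟨hinj (e3.symm.trans e4), hinj (e1.symm.trans e2)⟩
    | exact Or.inr ⟨hinj (e3.symm.trans e4), hinj (e1.symm.trans e2)⟩

theorem not_same (hN : N.Simple) {i j : ι} (hne : i ≠ j) {s t : Plane × Plane}
    (hs : s ∈ W.segs i) (ht : t ∈ W.segs j) : ¬ Same s t := by
  have h1 := seg_line W hs
  have h2 := seg_line W ht
  rintro (⟨h3, h4⟩ | ⟨h3, h4⟩)
  · exact no_common_seg W hN hne (seg_ne W hN hs) h1.1 (h3 ▸ h2.1) h1.2 (h4 ▸ h2.2)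
  · exact no_common_seg W hN hne (seg_ne W hN hs) h1.1 (h3 ▸ h2.2) h1.2 (h4 ▸ h2.1)

theorem unique {e : ℝ} (he : ∀ p ∈ nodes W, ∀ q ∈ nodes W, phi e p = phi e q → p = q)
    (hN : N.Simple) {i j : ι} {s t : Plane × Plane} (hs : s ∈ W.segs i) (ht : t ∈ W.segs j)
    (hst : ¬ Same s t) {x y : Plane}
    (hx : x ∈ openSegment ℝ s.1 s.2) (hx' : x ∈ openSegment ℝ t.1 t.2)
    (hy : y ∈ openSegment ℝ s.1 s.2) (hy' : y ∈ openSegment ℝ t.1 t.2) : x = y :=
  unique_of_not_same he (seg_nodes W hs).1 (seg_nodes W hs).2 (seg_nodes W ht).1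
    (seg_nodes W ht).2 (seg_ne W hN hs) (seg_ne W hN ht)
    (node_avoid W ht (seg_nodes W hs).1) (node_avoid W ht (seg_nodes W hs).2)
    (node_avoid W hs (seg_nodes W ht).1) (node_avoid W hs (seg_nodes W ht).2) hst hx hx' hy hy'

/-- The crossing points, self crossings included. -/
def cpts : Set Plane := {x | ∃ i j, ∃ s ∈ W.segs i, ∃ t ∈ W.segs j, ¬ Same s t ∧
  x ∈ openSegment ℝ s.1 s.2 ∧ x ∈ openSegment ℝ t.1 t.2}

theorem cpts_finite [Finite V] [Finite ι] (hN : N.Simple) : (cpts W).Finite := by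
  obtain ⟨e, he⟩ := exists_generic (nodes_finite W)
  have h : (⋃ i : ι, ⋃ j : ι, ⋃ s ∈ {s | s ∈ W.segs i}, ⋃ t ∈ {t | t ∈ W.segs j},
      {x : Plane | ¬ Same s t ∧ x ∈ openSegment ℝ s.1 s.2 ∧ x ∈ openSegment ℝ t.1 t.2}).Finite := by
    refine Set.finite_iUnion fun i => Set.finite_iUnion fun j =>
      (List.finite_toSet _).biUnion fun s hs =>
      (List.finite_toSet _).biUnion fun t ht => Set.Subsingleton.finite ?_
    rintro x ⟨hst, hx1, hx2⟩ y ⟨-, hy1, hy2⟩
    exact unique W he hN hs ht hst hx1 hx2 hy1 hy2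
  refine h.subset ?_
  rintro x ⟨i, j, s, hs, t, ht, h⟩
  simp only [Set.mem_iUnion]
  exact ⟨i, j, s, hs, t, ht, h⟩

variable {e : ℝ} {Z : Finset ℝ}

/-- The lanes contain all nodes, and the functional is generic. -/
structure Gen (W : WeakPoly N) (e : ℝ) (Z : Finset ℝ) : Prop where
  inj : ∀ p ∈ nodes W, ∀ q ∈ nodes W, phi e p = phi e q → p = q
  mem : ∀ p ∈ nodes W, phi e p ∈ Z
  out : ∀ x ∈ cpts W, phi e x ∉ Z

theorem exists_gen [Finite V] [Finite ι] (hN : N.Simple) :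
    ∃ (e : ℝ) (Z : Finset ℝ), Gen W e Z := by
  classical
  have hF : (nodes W ∪ cpts W).Finite := (nodes_finite W).union (cpts_finite W hN)
  obtain ⟨e, he⟩ := exists_generic hF
  refine ⟨e, (nodes_finite W).toFinset.image (phi e), ⟨?_, ?_, ?_⟩⟩
  · exact fun p hp q hq h => he p (Or.inl hp) q (Or.inl hq) h
  · intro p hp
    rw [Finset.mem_image]
    exact ⟨p, by simpa using hp, rfl⟩
  · intro z hz hZ
    rw [Finset.mem_image] at hZ
    obtain ⟨p, hp, hpz⟩ := hZ
    have hp' : p ∈ nodes W := by simpa using hp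
    have := he p (Or.inl hp') z (Or.inr hz) hpz
    rw [this] at hp'
    obtain ⟨i, j, s, hs, t, ht, -, e1, e2⟩ := hz
    exact node_avoid W hs hp' e1

theorem Gen.mid {W : WeakPoly N} (h : Gen W e Z) (hN : N.Simple) {i : ι}
    {s : Plane × Plane} (hs : s ∈ W.segs i) : Mid Z e s.1 s.2 (mid Z e s.1 s.2) := by
  have hn := seg_nodes W hs
  exact mid_spec (fun hh => seg_ne W hN hs (h.inj _ hn.1 _ hn.2 hh)) (h.mem _ hn.1) (h.mem _ hn.2)

/-- The inner points of the refined edge. -/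
noncomputable def inn (Z : Finset ℝ) (e : ℝ) (i : ι) : List Plane :=
  rfi Z e (W.pos (N.src i)) (W.bends i) (W.pos (N.tgt i))

theorem mem_inn {W : WeakPoly N} (h : Gen W e Z) (hN : N.Simple) {i : ι}
    {x : Plane} (hx : x ∈ inn W Z e i) : x ∈ W.bends i ∨
      (phi e x ∈ Z ∧ ∃ s ∈ W.segs i, x ∈ openSegment ℝ s.1 s.2) := by
  rcases mem_rfi hx with hx | ⟨s, hs, hx⟩
  · exact Or.inl hx
  · have := (h.mid hN (i := i) hs).mem x hx
    exact Or.inr ⟨this.2, s, hs, this.1⟩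

theorem inn_nodup {W : WeakPoly N} (h : Gen W e Z) (hN : N.Simple) (i : ι) :
    (inn W Z e i).Nodup := by
  refine nodup_rfi (W.nodup i) (fun _ hs => h.mid hN (i := i) hs) ?_
    (fun s hs x hx => W.bend_avoid i i s hs x hx)
  refine List.Pairwise.imp_of_mem ?_ (consec_pairwise (line_nodup W hN i))
  intro s t hs ht hst x hx hx'
  exact h.out x ⟨i, i, s, hs, t, ht, hst, hx, hx'⟩

theorem inn_avoid {W : WeakPoly N} (h : Gen W e Z) (hN : N.Simple) {i : ι}
    {x : Plane} (hx : x ∈ inn W Z e i) (w : V) : x ≠ W.pos w := by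
  rcases mem_inn h hN hx with hx | ⟨-, s, hs, hx⟩
  · exact W.avoid i x hx w
  · rintro rfl
    exact W.pos_avoid i s hs w hx

theorem inn_disj {W : WeakPoly N} (h : Gen W e Z) (hN : N.Simple) {i j : ι} (hne : i ≠ j)
    {x : Plane} (hx : x ∈ inn W Z e i) (hx' : x ∈ inn W Z e j) : False := by
  rcases mem_inn h hN hx with hx | ⟨hZ, s, hs, hx⟩ <;>
    rcases mem_inn h hN hx' with hx' | ⟨-, t, ht, hx'⟩
  · exact W.disj i j hne x hx hx'
  · exact W.bend_avoid j i t ht x hx hx'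
  · exact W.bend_avoid i j s hs x hx' hx
  · exact h.out x ⟨i, j, s, hs, t, ht, not_same W hN hne hs ht, hx, hx'⟩ hZ

/-- The pieces of a segment. -/
noncomputable def pcs (Z : Finset ℝ) (e : ℝ) (s : Plane × Plane) : List (Plane × Plane) :=
  consec (s.1 :: (mid Z e s.1 s.2 ++ [s.2]))

theorem crL_pcs {W : WeakPoly N} (h : Gen W e Z) (hN : N.Simple) {i j : ι} (hne : i ≠ j)
    {s t : Plane × Plane} (hs : s ∈ W.segs i) (ht : t ∈ W.segs j) :
    crL ((pcs Z e s).map (arc Z e)) ((pcs Z e t).map (arc Z e)) ≤ 1 ∧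
      (Disjoint (openSegment ℝ s.1 s.2) (openSegment ℝ t.1 t.2) →
        crL ((pcs Z e s).map (arc Z e)) ((pcs Z e t).map (arc Z e)) = 0) := by
  have m1 := h.mid hN hs
  have m2 := h.mid hN ht
  have key : ∀ s' ∈ pcs Z e s, ∀ t' ∈ pcs Z e t, X (arc Z e s') (arc Z e t') ≠ 0 →
      ∃ x, x ∈ openSegment ℝ s'.1 s'.2 ∧ x ∈ openSegment ℝ t'.1 t'.2 ∧
        x ∈ openSegment ℝ s.1 s.2 ∧ x ∈ openSegment ℝ t.1 t.2 := by
    intro s' hs' t' ht' hX
    obtain ⟨x, h1, h2, -⟩ := cross (m1.elem s' hs') (m2.elem t' ht') hX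
    exact ⟨x, h1, h2, m1.sub s' hs' h1, m2.sub t' ht' h2⟩
  by_cases hd : Disjoint (openSegment ℝ s.1 s.2) (openSegment ℝ t.1 t.2)
  · have h0 : crL ((pcs Z e s).map (arc Z e)) ((pcs Z e t).map (arc Z e)) ≤
        (∅ : Finset Plane).card := by
      refine crL_le _ _ m1.disj m2.disj ?_
      intro s' hs' t' ht' hX
      obtain ⟨x, -, -, h3, h4⟩ := key s' hs' t' ht' hX
      exact absurd h4 (Set.disjoint_left.1 hd h3)
    rw [Finset.card_empty, Nat.le_zero] at h0
    exact ⟨by omega, fun _ => h0⟩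
  · refine ⟨?_, fun h' => absurd h' hd⟩
    rw [Set.not_disjoint_iff] at hd
    obtain ⟨y, hy, hy'⟩ := hd
    have h0 : crL ((pcs Z e s).map (arc Z e)) ((pcs Z e t).map (arc Z e)) ≤
        ({y} : Finset Plane).card := by
      refine crL_le _ _ m1.disj m2.disj ?_
      intro s' hs' t' ht' hX
      obtain ⟨x, h1, h2, h3, h4⟩ := key s' hs' t' ht' hX
      have : x = y := unique W h.inj hN hs ht (not_same W hN hne hs ht) h3 h4 hy hy'
      subst this
      exact ⟨x, by simp, h1, h2⟩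
    simpa using h0

end WP

end T1

open T1 P1 in
/-- T1. A weak polygonal drawing gives a spine drawing with at most as many crossings. -/
theorem exists_spine_of_weakPoly' {V ι : Type} [Fintype V] [Fintype ι] [DecidableEq ι]
    {N : Net V ι} (hN : N.Simple) (W : WeakPoly N) :
    ∃ (L : Type) (_ : LinearOrder L) (D' : Drawing N L),
      D'.dcr ≤ ∑ i, ∑ j, if i = j then 0 else W.cr i j := by
  classical
  obtain ⟨e, Z, hG⟩ := T1.exists_gen W hN
  let D' : Drawing N (ℝ ×ₗ ℝ) :=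
    { pos := fun v => sp Z e (W.pos v)
      inner := fun i => enc Z e (W.pos (N.src i)) (T1.inn W Z e i)
      last := fun i => lst Z e (W.pos (N.src i)) (T1.inn W Z e i) (W.pos (N.tgt i))
      pos_inj := (sp_inj Z e).comp W.pos_inj
      nodup := by
        intro i
        rw [enc_snd]
        exact (T1.inn_nodup hG hN i).map (sp_inj Z e)
      disj := by
        intro i j hij x hx y hy hxy
        obtain ⟨x', hx', hx2⟩ := mem_enc hx
        obtain ⟨y', hy', hy2⟩ := mem_enc hy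
        rw [hx2, hy2] at hxy
        have := sp_inj Z e hxy
        subst this
        exact T1.inn_disj hG hN hij hx' hy'
      avoid := by
        intro i x hx w hxw
        obtain ⟨x', hx', hx2⟩ := mem_enc hx
        rw [hx2] at hxw
        exact T1.inn_avoid hG hN hx' w (sp_inj Z e hxw) }
  refine ⟨ℝ ×ₗ ℝ, inferInstance, D', ?_⟩
  have hpath : ∀ i, D'.path i = (W.segs i).flatMap fun s => (T1.pcs Z e s).map (arc Z e) := by
    intro i
    have h1 : D'.path i = (consec (W.pos (N.src i) :: (T1.inn W Z e i ++ [W.pos (N.tgt i)]))).map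
        (arc Z e) := arcs_enc _ _ _ _ _
    rw [h1, T1.inn, consec_rfi, List.map_flatMap]
    rfl
  unfold Drawing.dcr
  apply Finset.sum_le_sum
  intro i _
  apply Finset.sum_le_sum
  intro j _
  split_ifs with hij
  · exact le_refl _
  · rw [hpath, hpath, T1.crL_flatMap_left]
    unfold WeakPoly.cr
    apply List.sum_le_sum
    intro s hs
    rw [T1.crL_flatMap_right]
    apply T1.sum_le_countP
    · intro t ht
      exact (T1.crL_pcs hG hN hij hs ht).1
    · intro t ht hp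
      apply (T1.crL_pcs hG hN hij hs ht).2
      simpa using hp

end MP60f107

end

section

/-!
T2: every topological drawing gives a weak polygonal drawing with at most as many crossings.
-/

namespace MP60f107

namespace T2

open Finset

/-! ### General position -/

/-- Twice the signed area of the triangle `p q r`. -/
def det (p q r : Plane) : ℝ := (q.1 - p.1) * (r.2 - p.2) - (q.2 - p.2) * (r.1 - p.1)

lemma det_swap (p q r : Plane) : det q p r = - det p q r := by unfold det; ring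

lemma det_rot (p q r : Plane) : det q r p = det p q r := by unfold det; ring

/-- A point of the open segment is collinear with the end points. -/
lemma det_of_mem {p q r : Plane} (h : r ∈ openSegment ℝ p q) : det p q r = 0 := by
  obtain ⟨a, b, ha, hb, hab, rfl⟩ := h
  have : a = 1 - b := by linarith
  subst this
  simp [det]
  ring

lemma det_swap' (p q r : Plane) : det p r q = - det p q r := by unfold det; ring

lemma finite_quadratic (A B C : ℝ) (h : A ≠ 0 ∨ B ≠ 0) :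
    {s : ℝ | A * s ^ 2 + B * s + C = 0}.Finite := by
  classical
  let P : Polynomial ℝ := Polynomial.C A * Polynomial.X ^ 2
    + Polynomial.C B * Polynomial.X + Polynomial.C C
  have hP : P ≠ 0 := by
    intro h0
    have h2 : P.coeff 2 = 0 := by rw [h0]; simp
    have h1 : P.coeff 1 = 0 := by rw [h0]; simp
    simp [P, Polynomial.coeff_X, Polynomial.coeff_C] at h1 h2
    exact h.elim (fun h => h h2) (fun h => h h1)
  refine (Polynomial.finite_setOfPred_isRoot hP).subset ?_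
  intro s hs
  have hs' : A * s ^ 2 + B * s + C = 0 := hs
  show P.IsRoot s
  simp [Polynomial.IsRoot, P, hs']

/-- Every line contains only finitely many points of the parabola. -/
lemma finite_parabola (c p q : Plane) (hpq : p ≠ q) :
    {s : ℝ | det p q (c.1 + s, c.2 + s ^ 2) = 0}.Finite := by
  have h : q.1 - p.1 ≠ 0 ∨ -(q.2 - p.2) ≠ 0 := by
    by_contra h
    push Not at h
    exact hpq (Prod.ext (by linarith [h.1]) (by linarith [h.2]))
  refine (finite_quadratic (q.1 - p.1) (-(q.2 - p.2))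
    ((q.1 - p.1) * (c.2 - p.2) - (q.2 - p.2) * (c.1 - p.1)) h).subset ?_
  intro s hs
  have hs' : det p q (c.1 + s, c.2 + s ^ 2) = 0 := hs
  unfold det at hs'
  show (q.1 - p.1) * s ^ 2 + -(q.2 - p.2) * s +
    ((q.1 - p.1) * (c.2 - p.2) - (q.2 - p.2) * (c.1 - p.1)) = 0
  simp only at hs'
  linarith

/-- A new point near `c` avoiding the finite set `F` and all lines through two of its points. -/
lemma exists_new (F : Finset Plane) (c : Plane) {δ : ℝ} (hδ : 0 < δ) :
    ∃ n : Plane, dist n c < δ ∧ n ∉ F ∧ ∀ p ∈ F, ∀ q ∈ F, p ≠ q → det p q n ≠ 0 := by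
  classical
  let n : ℝ → Plane := fun s => (c.1 + s, c.2 + s ^ 2)
  have hn : Function.Injective n := by
    intro s t h
    have := congrArg Prod.fst h
    simpa [n] using this
  let B : Set ℝ := {s | n s ∈ F} ∪
    ⋃ x ∈ F ×ˢ F, {s | x.1 ≠ x.2 ∧ det x.1 x.2 (n s) = 0}
  have hB : B.Finite := by
    refine Set.Finite.union ?_ ?_
    · exact Set.Finite.preimage (hn.injOn) F.finite_toSet
    · refine Set.Finite.biUnion (F ×ˢ F).finite_toSet ?_
      intro x _
      by_cases hx : x.1 = x.2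
      · simp [hx]
      · refine (finite_parabola c x.1 x.2 hx).subset ?_
        intro s hs
        exact hs.2
  have hI : (Set.Ioo (0 : ℝ) (min δ 1)).Infinite := Set.Ioo_infinite (lt_min hδ one_pos)
  obtain ⟨s, hs, hsB⟩ := (hI.sdiff hB).nonempty
  refine ⟨n s, ?_, ?_, ?_⟩
  · have h1 : s < δ := hs.2.trans_le (min_le_left _ _)
    have h2 : s < 1 := hs.2.trans_le (min_le_right _ _)
    have h0 : 0 < s := hs.1
    rw [Prod.dist_eq]
    simp only [n, max_lt_iff, Real.dist_eq, add_sub_cancel_left]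
    rw [abs_of_pos h0, abs_of_pos (by positivity)]
    exact ⟨h1, by nlinarith⟩
  · intro h
    exact hsB (Or.inl h)
  · intro p hp q hq hpq h
    apply hsB
    right
    simp only [Set.mem_iUnion]
    exact ⟨(p, q), Finset.mem_product.mpr ⟨hp, hq⟩, hpq, h⟩

/-- Perturb finitely many points so that they are in general position, also with respect to the
finite set `P0`. -/
lemma exists_generic {J : Type*} [DecidableEq J] (s : Finset J) (c : J → Plane) (P0 : Finset Plane)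
    {δ : ℝ} (hδ : 0 < δ) :
    ∃ v : J → Plane, (∀ j ∈ s, dist (v j) (c j) < δ) ∧ Set.InjOn v s ∧ (∀ j ∈ s, v j ∉ P0) ∧
      ∀ j ∈ s, ∀ p q : Plane, (p ∈ P0 ∨ ∃ k ∈ s, v k = p) → (q ∈ P0 ∨ ∃ k ∈ s, v k = q) →
        p ≠ q → p ≠ v j → q ≠ v j → det p q (v j) ≠ 0 := by
  classical
  induction s using Finset.induction_on with
  | empty => exact ⟨c, by simp⟩
  | insert j₀ s hj₀ ih =>
    obtain ⟨v, h1, h2, h3, h4⟩ := ih
    obtain ⟨n, hn, hnF, hnl⟩ := exists_new (P0 ∪ s.image v) (c j₀) hδ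
    have hne : ∀ j ∈ s, j ≠ j₀ := fun j hj h => hj₀ (h ▸ hj)
    have hv : ∀ j ∈ s, Function.update v j₀ n j = v j := fun j hj =>
      Function.update_of_ne (hne j hj) _ _
    have hv0 : Function.update v j₀ n j₀ = n := Function.update_self _ _ _
    have hmem : ∀ p : Plane, (p ∈ P0 ∨ ∃ k ∈ insert j₀ s, Function.update v j₀ n k = p) →
        p ≠ n → p ∈ P0 ∪ s.image v := by
      intro p hp hpn
      rcases hp with hp | ⟨k, hk, hp⟩
      · exact Finset.mem_union_left _ hp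
      · rcases Finset.mem_insert.mp hk with rfl | hk
        · exact absurd (hp.symm.trans hv0) hpn
        · rw [hv k hk] at hp
          exact Finset.mem_union_right _ (Finset.mem_image.mpr ⟨k, hk, hp⟩)
    have hmem' : ∀ p : Plane, p ∈ P0 ∪ s.image v → (p ∈ P0 ∨ ∃ k ∈ s, v k = p) := by
      intro p hp
      rcases Finset.mem_union.mp hp with hp | hp
      · exact Or.inl hp
      · exact Or.inr (Finset.mem_image.mp hp)
    have hvn : ∀ j ∈ s, v j ≠ n := fun j hj h =>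
      hnF (Finset.mem_union_right _ (Finset.mem_image.mpr ⟨j, hj, h⟩))
    refine ⟨Function.update v j₀ n, ?_, ?_, ?_, ?_⟩
    · intro j hj
      rcases Finset.mem_insert.mp hj with rfl | hj
      · rw [hv0]; exact hn
      · rw [hv j hj]; exact h1 j hj
    · intro a ha b hb hab
      rw [Finset.mem_coe, Finset.mem_insert] at ha hb
      rcases ha with rfl | ha <;> rcases hb with rfl | hb
      · rfl
      · rw [hv0, hv b hb] at hab
        exact absurd hab.symm (hvn b hb)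
      · rw [hv0, hv a ha] at hab
        exact absurd hab (hvn a ha)
      · rw [hv a ha, hv b hb] at hab
        exact h2 ha hb hab
    · intro j hj
      rcases Finset.mem_insert.mp hj with rfl | hj
      · rw [hv0]; exact fun h => hnF (Finset.mem_union_left _ h)
      · rw [hv j hj]; exact h3 j hj
    · intro j hj p q hp hq hpq hpj hqj
      rcases Finset.mem_insert.mp hj with rfl | hj
      · rw [hv0] at hpj hqj ⊢
        exact hnl p (hmem p hp hpj) q (hmem q hq hqj) hpq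
      · rw [hv j hj] at hpj hqj ⊢
        by_cases hpn : p = n
        · subst hpn
          have hq' := hmem q hq hpq.symm
          have := hnl q hq' (v j) (Finset.mem_union_right _ (Finset.mem_image.mpr ⟨j, hj, rfl⟩)) hqj
          rw [← det_rot]
          exact this
        · by_cases hqn : q = n
          · subst hqn
            have hp' := hmem p hp hpq
            have := hnl p hp' (v j) (Finset.mem_union_right _ (Finset.mem_image.mpr ⟨j, hj, rfl⟩)) hpj
            rw [det_swap']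
            exact neg_ne_zero.mpr this
          · exact h4 j hj p q (hmem' p (hmem p hp hpn)) (hmem' q (hmem q hq hqn)) hpq hpj hqj

/-! ### Discs -/

/-- The square of the Euclidean distance. -/
def sq (x p : Plane) : ℝ := (p.1 - x.1) ^ 2 + (p.2 - x.2) ^ 2

lemma continuous_sq (x : Plane) : Continuous (sq x) := by unfold sq; fun_prop

lemma sq_self (x : Plane) : sq x x = 0 := by simp [sq]

lemma sq_pos {x p : Plane} (h : p ≠ x) : 0 < sq x p := by
  unfold sq
  by_contra hn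
  push Not at hn
  apply h
  have h1 : (p.1 - x.1) ^ 2 = 0 := le_antisymm (by nlinarith [sq_nonneg (p.2 - x.2)]) (sq_nonneg _)
  have h2 : (p.2 - x.2) ^ 2 = 0 := le_antisymm (by nlinarith [sq_nonneg (p.1 - x.1)]) (sq_nonneg _)
  exact Prod.ext (by linarith [pow_eq_zero_iff (two_ne_zero) |>.mp h1])
    (by linarith [pow_eq_zero_iff (two_ne_zero) |>.mp h2])

lemma sq_tri {x x' p : Plane} {ρ : ℝ} (h : sq x p ≤ ρ) (h' : sq x' p ≤ ρ) : sq x x' ≤ 4 * ρ := by
  unfold sq at *
  nlinarith [sq_nonneg (p.1 - x.1 + (p.1 - x'.1)), sq_nonneg (p.2 - x.2 + (p.2 - x'.2))]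

lemma sq_lt {x p q r : Plane} {ρ : ℝ} (hpq : p ≠ q) (hp : sq x p ≤ ρ) (hq : sq x q ≤ ρ)
    (hr : r ∈ openSegment ℝ p q) : sq x r < ρ := by
  obtain ⟨a, b, ha, hb, hab, rfl⟩ := hr
  have hd := sq_pos (x := p) (p := q) hpq.symm
  have ha' : a = 1 - b := by linarith
  have key : sq x (a • p + b • q) = a * sq x p + b * sq x q - a * b * sq p q := by
    unfold sq
    simp only [Prod.fst_add, Prod.smul_fst, smul_eq_mul, Prod.snd_add, Prod.smul_snd]
    subst ha'
    ring
  rw [key]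
  have h1 : a * sq x p ≤ a * ρ := mul_le_mul_of_nonneg_left hp ha.le
  have h2 : b * sq x q ≤ b * ρ := mul_le_mul_of_nonneg_left hq hb.le
  have h3 : 0 < a * b * sq p q := by positivity
  have h4 : a * ρ + b * ρ = ρ := by rw [← add_mul, hab, one_mul]
  linarith

lemma sq_le {x p q r : Plane} {ρ : ℝ} (hp : sq x p ≤ ρ) (hq : sq x q ≤ ρ)
    (hr : r ∈ segment ℝ p q) : sq x r ≤ ρ := by
  by_cases hpq : p = q
  · subst hpq
    rw [segment_same, Set.mem_singleton_iff] at hr
    rw [hr]; exact hp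
  · rw [← insert_endpoints_openSegment] at hr
    rcases hr with rfl | rfl | hr
    · exact hp
    · exact hq
    · exact (sq_lt hpq hp hq hr).le

/-! ### Choice of the radius -/

open Filter Topology

/-- The unit interval. -/
abbrev I : Type := unitInterval

lemma pos_min {C : Set I} (hC : IsCompact C) {f : I → ℝ} (hf : Continuous f)
    (h : ∀ s ∈ C, 0 < f s) : ∀ᶠ ρ in 𝓝[>] (0 : ℝ), ∀ s ∈ C, ρ < f s := by
  by_cases hne : C.Nonempty
  · obtain ⟨m, hm, hmin⟩ := hC.exists_isMinOn hne hf.continuousOn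
    have : Set.Ioo (0 : ℝ) (f m) ∈ 𝓝[>] (0 : ℝ) := Ioo_mem_nhdsGT (h m hm)
    filter_upwards [this] with ρ hρ s hs
    exact hρ.2.trans_le (hmin hs)
  · rw [Set.not_nonempty_iff_eq_empty] at hne
    subst hne
    exact Filter.Eventually.of_forall fun ρ s hs => absurd hs (Set.notMem_empty s)

section radius

variable {ι : Type} [Fintype ι] (γ : ι → I → Plane) (X : Finset Plane)

/-- The conditions on the (squared) radius of the discs. -/
structure Rad (ρ : ℝ) : Prop where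
  pos : 0 < ρ
  sep : ∀ x ∈ X, ∀ x' ∈ X, x ≠ x' → 4 * ρ < sq x x'
  avoid : ∀ i, ∀ x ∈ X, (∀ t, γ i t ≠ x) → ∀ t, ρ < sq x (γ i t)
  order : ∀ i, ∀ x ∈ X, ∀ x' ∈ X, ∀ t t', γ i t = x → γ i t' = x' → t < t' →
    ∀ s s', sq x (γ i s) ≤ ρ → sq x' (γ i s') ≤ ρ → s < s'

lemma exists_rad (hc : ∀ i, Continuous (γ i)) (hi : ∀ i, Function.Injective (γ i)) :
    ∃ ρ, Rad γ X ρ := by
  have h1 : ∀ᶠ ρ in 𝓝[>] (0 : ℝ), 0 < ρ := self_mem_nhdsWithin
  have h2 : ∀ᶠ ρ in 𝓝[>] (0 : ℝ), ∀ x ∈ X, ∀ x' ∈ X, x ≠ x' → 4 * ρ < sq x x' := by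
    rw [Filter.eventually_all_finset]
    intro x hx
    rw [Filter.eventually_all_finset]
    intro x' hx'
    by_cases h : x = x'
    · exact Filter.Eventually.of_forall fun ρ hn => absurd h hn
    · have hs := sq_pos (x := x) (p := x') (Ne.symm h)
      have : Set.Ioo (0 : ℝ) (sq x x' / 4) ∈ 𝓝[>] (0 : ℝ) := Ioo_mem_nhdsGT (by positivity)
      filter_upwards [this] with ρ hρ _
      linarith [hρ.2]
  have h3 : ∀ᶠ ρ in 𝓝[>] (0 : ℝ), ∀ i, ∀ x ∈ X, (∀ t, γ i t ≠ x) → ∀ t, ρ < sq x (γ i t) := by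
    rw [Filter.eventually_all]
    intro i
    rw [Filter.eventually_all_finset]
    intro x hx
    by_cases h : ∀ t, γ i t ≠ x
    · have := pos_min (C := Set.univ) isCompact_univ ((continuous_sq x).comp (hc i))
        (fun s _ => sq_pos (h s))
      filter_upwards [this] with ρ hρ _ t
      exact hρ t (Set.mem_univ t)
    · exact Filter.Eventually.of_forall fun ρ hn => absurd hn h
  have h4 : ∀ᶠ ρ in 𝓝[>] (0 : ℝ), ∀ i, ∀ x ∈ X, ∀ x' ∈ X, ∀ t t', γ i t = x → γ i t' = x' →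
      t < t' → ∀ s s', sq x (γ i s) ≤ ρ → sq x' (γ i s') ≤ ρ → s < s' := by
    rw [Filter.eventually_all]
    intro i
    rw [Filter.eventually_all_finset]
    intro x hx
    rw [Filter.eventually_all_finset]
    intro x' hx'
    by_cases h : ∃ t t', γ i t = x ∧ γ i t' = x' ∧ t < t'
    · obtain ⟨t, t', rfl, rfl, htt⟩ := h
      obtain ⟨m, hm, hm'⟩ := exists_between htt
      have e1 := pos_min (C := Set.Ici m) isClosed_Ici.isCompact
        ((continuous_sq (γ i t)).comp (hc i)) (fun s hs => sq_pos (fun h => by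
          have := hi i h
          subst this
          exact absurd hs (not_le.mpr hm)))
      have e2 := pos_min (C := Set.Iic m) isClosed_Iic.isCompact
        ((continuous_sq (γ i t')).comp (hc i)) (fun s hs => sq_pos (fun h => by
          have := hi i h
          subst this
          exact absurd hs (not_le.mpr hm')))
      filter_upwards [e1, e2] with ρ hρ hρ' _ _ _ _ _ s s' hs hs'
      have k1 : s < m := by
        by_contra hn
        exact absurd hs (not_le.mpr (hρ s (not_lt.mp hn)))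
      have k2 : m < s' := by
        by_contra hn
        exact absurd hs' (not_le.mpr (hρ' s' (not_lt.mp hn)))
      exact k1.trans k2
    · push Not at h
      exact Filter.Eventually.of_forall fun ρ t t' e e' hlt => absurd hlt (not_lt.mpr (h t t' e e'))
  obtain ⟨ρ, ha, hb, hc, hd⟩ := (h1.and (h2.and (h3.and h4))).exists
  exact ⟨ρ, ha, hb, hc, hd⟩

/-- First and last time in a disc. -/
structure Times (ρ : ℝ) (lo hi : ι → I → I) : Prop where
  lo_mem : ∀ i τ, sq (γ i τ) (γ i (lo i τ)) ≤ ρ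
  hi_mem : ∀ i τ, sq (γ i τ) (γ i (hi i τ)) ≤ ρ
  lo_le : ∀ i τ s, sq (γ i τ) (γ i s) ≤ ρ → lo i τ ≤ s
  le_hi : ∀ i τ s, sq (γ i τ) (γ i s) ≤ ρ → s ≤ hi i τ
  lt : ∀ i τ, lo i τ < hi i τ

lemma exists_times (hc : ∀ i, Continuous (γ i)) {ρ : ℝ} (hρ : 0 < ρ) :
    ∃ lo hi, Times γ ρ lo hi := by
  have main : ∀ i τ, ∃ a b : I, sq (γ i τ) (γ i a) ≤ ρ ∧ sq (γ i τ) (γ i b) ≤ ρ ∧
      (∀ s, sq (γ i τ) (γ i s) ≤ ρ → a ≤ s) ∧ (∀ s, sq (γ i τ) (γ i s) ≤ ρ → s ≤ b) ∧ a < b := by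
    intro i τ
    have hf : Continuous fun s => sq (γ i τ) (γ i s) := (continuous_sq _).comp (hc i)
    have hE : IsCompact {s : I | sq (γ i τ) (γ i s) ≤ ρ} :=
      (isClosed_le hf continuous_const).isCompact
    have hne : {s : I | sq (γ i τ) (γ i s) ≤ ρ}.Nonempty :=
      ⟨τ, by show sq (γ i τ) (γ i τ) ≤ ρ; rw [sq_self]; exact hρ.le⟩
    obtain ⟨a, ha, ha'⟩ := hE.exists_isLeast hne
    obtain ⟨b, hb, hb'⟩ := hE.exists_isGreatest hne
    refine ⟨a, b, ha, hb, fun s hs => ha' hs, fun s hs => hb' hs, ?_⟩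
    have hab : a ≤ b := ha' hb
    refine lt_of_le_of_ne hab ?_
    intro hab'
    have hsub : ∀ s, sq (γ i τ) (γ i s) ≤ ρ → s = τ := by
      intro s hs
      have h1 := ha' hs
      have h2 := hb' hs
      have h3 : a ≤ τ := ha' (by show sq (γ i τ) (γ i τ) ≤ ρ; rw [sq_self]; exact hρ.le)
      have h4 : τ ≤ b := hb' (by show sq (γ i τ) (γ i τ) ≤ ρ; rw [sq_self]; exact hρ.le)
      rw [← hab'] at h2 h4
      exact (le_antisymm h2 h1).trans (le_antisymm h3 h4)
    have hopen : IsOpen ({τ} : Set I) := by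
      have : ({τ} : Set I) = {s | sq (γ i τ) (γ i s) < ρ} := by
        ext s
        constructor
        · rintro rfl
          show sq (γ i s) (γ i s) < ρ
          rw [sq_self]; exact hρ
        · intro hs
          exact hsub s (le_of_lt hs)
      rw [this]
      exact isOpen_lt hf continuous_const
    have hclopen : IsClopen ({τ} : Set I) := ⟨isClosed_singleton, hopen⟩
    rcases isClopen_iff.mp hclopen with h | h
    · exact Set.singleton_ne_empty τ h
    · have h0 : (0 : I) ∈ ({τ} : Set I) := by rw [h]; trivial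
      have h1 : (1 : I) ∈ ({τ} : Set I) := by rw [h]; trivial
      rw [Set.mem_singleton_iff] at h0 h1
      exact zero_ne_one (h0.trans h1.symm)
  choose lo hi h1 h2 h3 h4 h5 using main
  exact ⟨lo, hi, h1, h2, h3, h4, h5⟩

variable {γ X} in
lemma Times.lo_le_self {ρ : ℝ} (hρ : 0 < ρ) {lo hi : ι → I → I} (h : Times γ ρ lo hi) (i : ι)
    (τ : I) : lo i τ ≤ τ :=
  h.lo_le i τ τ (by rw [sq_self]; exact hρ.le)

variable {γ X} in
lemma Times.self_le_hi {ρ : ℝ} (hρ : 0 < ρ) {lo hi : ι → I → I} (h : Times γ ρ lo hi) (i : ι)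
    (τ : I) : τ ≤ hi i τ :=
  h.le_hi i τ τ (by rw [sq_self]; exact hρ.le)

/-- The part of the arc `i` outside the open discs. -/
def K (ρ : ℝ) (i : ι) : Set Plane := γ i '' {t | ∀ x ∈ X, ρ ≤ sq x (γ i t)}

/-- The chord of the arc `i` in the disc around `γ i τ`. -/
def chord (lo hi : ι → I → I) (i : ι) (τ : I) : Set Plane :=
  segment ℝ (γ i (lo i τ)) (γ i (hi i τ))

omit [Fintype ι] in
lemma isCompact_K (hc : ∀ i, Continuous (γ i)) (ρ : ℝ) (i : ι) : IsCompact (K γ X ρ i) := by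
  refine IsCompact.image ?_ (hc i)
  refine IsClosed.isCompact ?_
  have : {t : I | ∀ x ∈ X, ρ ≤ sq x (γ i t)} = ⋂ x ∈ X, {t | ρ ≤ sq x (γ i t)} := by
    ext t; simp
  rw [this]
  refine isClosed_biInter fun x _ => ?_
  exact isClosed_le continuous_const ((continuous_sq x).comp (hc i))

omit [Fintype ι] in
lemma isCompact_chord (lo hi : ι → I → I) (i : ι) (τ : I) : IsCompact (chord γ lo hi i τ) := by
  unfold chord
  rw [segment_eq_image_lineMap]
  exact isCompact_Icc.image (by fun_prop)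

omit [Fintype ι] in
lemma K_disjoint (hX : ∀ i j, i ≠ j → ∀ s t, γ i s = γ j t → γ i s ∈ X) {ρ : ℝ} (hρ : 0 < ρ)
    {i j : ι} (hij : i ≠ j) : Disjoint (K γ X ρ i) (K γ X ρ j) := by
  rw [Set.disjoint_left]
  rintro p ⟨s, hs, rfl⟩ ⟨t, ht, h⟩
  have := hs _ (hX i j hij s t h.symm)
  rw [sq_self] at this
  linarith

lemma chord_K_disjoint (hi : ∀ i, Function.Injective (γ i))
    (hX : ∀ i j, i ≠ j → ∀ s t, γ i s = γ j t → γ i s ∈ X) {ρ : ℝ} (hρ : 0 < ρ)
    {lo hi' : ι → I → I} (hT : Times γ ρ lo hi') {i j : ι} (hij : i ≠ j) {τ : I} (hτ : γ i τ ∈ X) :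
    Disjoint (chord γ lo hi' i τ) (K γ X ρ j) := by
  rw [Set.disjoint_left]
  rintro p hp ⟨t, ht, rfl⟩
  have h1 := ht _ hτ
  have key : ∀ s, γ i s = γ j t → False := by
    intro s hs
    have := ht _ (hX j i hij.symm t s hs.symm)
    rw [sq_self] at this
    linarith
  unfold chord at hp
  rw [← insert_endpoints_openSegment] at hp
  rcases hp with hp | hp | hp
  · exact key _ hp.symm
  · exact key _ hp.symm
  · have hne : γ i (lo i τ) ≠ γ i (hi' i τ) := fun h => (hT.lt i τ).ne (hi i h)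
    have := sq_lt hne (hT.lo_mem i τ) (hT.hi_mem i τ) hp
    linarith

lemma chord_disjoint {ρ : ℝ} (hR : Rad γ X ρ)
    {lo hi' : ι → I → I} (hT : Times γ ρ lo hi') {i j : ι} {τ τ' : I} (hτ : γ i τ ∈ X)
    (hτ' : γ j τ' ∈ X) (hne : γ i τ ≠ γ j τ') :
    Disjoint (chord γ lo hi' i τ) (chord γ lo hi' j τ') := by
  rw [Set.disjoint_left]
  intro p hp hp'
  have h1 := sq_le (hT.lo_mem i τ) (hT.hi_mem i τ) hp
  have h2 := sq_le (hT.lo_mem j τ') (hT.hi_mem j τ') hp'
  have h3 := sq_tri h1 h2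
  have h4 := hR.sep _ hτ _ hτ' hne
  linarith

lemma eventually_disjoint {A B : Set Plane} (hA : IsCompact A) (hB : IsCompact B)
    (h : Disjoint A B) :
    ∀ᶠ δ in 𝓝[>] (0 : ℝ), Disjoint (Metric.thickening δ A) (Metric.thickening δ B) := by
  obtain ⟨δ₀, hδ₀, h0⟩ := h.exists_thickenings hA hB.isClosed
  have : Set.Ioo (0 : ℝ) δ₀ ∈ 𝓝[>] (0 : ℝ) := Ioo_mem_nhdsGT hδ₀
  filter_upwards [this] with δ hδ
  exact h0.mono (Metric.thickening_mono hδ.2.le _) (Metric.thickening_mono hδ.2.le _)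

/-- The conditions on the size of the perturbation. -/
structure Del (ρ : ℝ) (lo hi : ι → I → I) (δ : ℝ) : Prop where
  pos : 0 < δ
  kk : ∀ i j, i ≠ j → Disjoint (Metric.thickening δ (K γ X ρ i)) (Metric.thickening δ (K γ X ρ j))
  ck : ∀ i j, i ≠ j → ∀ τ, γ i τ ∈ X →
    Disjoint (Metric.thickening δ (chord γ lo hi i τ)) (Metric.thickening δ (K γ X ρ j))
  cc : ∀ i j τ τ', γ i τ ∈ X → γ j τ' ∈ X → γ i τ ≠ γ j τ' →
    Disjoint (Metric.thickening δ (chord γ lo hi i τ)) (Metric.thickening δ (chord γ lo hi j τ'))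

lemma exists_del (hc : ∀ i, Continuous (γ i)) (hi : ∀ i, Function.Injective (γ i))
    (hX : ∀ i j, i ≠ j → ∀ s t, γ i s = γ j t → γ i s ∈ X) {ρ : ℝ} (hR : Rad γ X ρ)
    {lo hi' : ι → I → I} (hT : Times γ ρ lo hi') : ∃ δ, Del γ X ρ lo hi' δ := by
  have hfin : ∀ i, {τ | γ i τ ∈ X}.Finite := fun i =>
    Set.Finite.preimage ((hi i).injOn) X.finite_toSet
  have h1 : ∀ᶠ δ in 𝓝[>] (0 : ℝ), 0 < δ := self_mem_nhdsWithin
  have h2 : ∀ᶠ δ in 𝓝[>] (0 : ℝ), ∀ i j, i ≠ j →
      Disjoint (Metric.thickening δ (K γ X ρ i)) (Metric.thickening δ (K γ X ρ j)) := by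
    rw [Filter.eventually_all]
    intro i
    rw [Filter.eventually_all]
    intro j
    by_cases hij : i = j
    · exact Filter.Eventually.of_forall fun δ hn => absurd hij hn
    · filter_upwards [eventually_disjoint (isCompact_K γ X hc ρ i) (isCompact_K γ X hc ρ j)
        (K_disjoint γ X hX hR.pos hij)] with δ hδ _
      exact hδ
  have h3 : ∀ᶠ δ in 𝓝[>] (0 : ℝ), ∀ i j, i ≠ j → ∀ τ ∈ (hfin i).toFinset,
      Disjoint (Metric.thickening δ (chord γ lo hi' i τ)) (Metric.thickening δ (K γ X ρ j)) := by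
    rw [Filter.eventually_all]
    intro i
    rw [Filter.eventually_all]
    intro j
    by_cases hij : i = j
    · exact Filter.Eventually.of_forall fun δ hn => absurd hij hn
    · have : ∀ᶠ δ in 𝓝[>] (0 : ℝ), ∀ τ ∈ (hfin i).toFinset,
          Disjoint (Metric.thickening δ (chord γ lo hi' i τ))
            (Metric.thickening δ (K γ X ρ j)) := by
        rw [Filter.eventually_all_finset]
        intro τ hτ
        rw [Set.Finite.mem_toFinset] at hτ
        exact eventually_disjoint (isCompact_chord γ lo hi' i τ) (isCompact_K γ X hc ρ j)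
          (chord_K_disjoint γ X hi hX hR.pos hT hij hτ)
      filter_upwards [this] with δ hδ _
      exact hδ
  have h4 : ∀ᶠ δ in 𝓝[>] (0 : ℝ), ∀ i j, ∀ τ ∈ (hfin i).toFinset, ∀ τ' ∈ (hfin j).toFinset,
      γ i τ ≠ γ j τ' → Disjoint (Metric.thickening δ (chord γ lo hi' i τ))
        (Metric.thickening δ (chord γ lo hi' j τ')) := by
    rw [Filter.eventually_all]
    intro i
    rw [Filter.eventually_all]
    intro j
    rw [Filter.eventually_all_finset]
    intro τ hτ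
    rw [Filter.eventually_all_finset]
    intro τ' hτ'
    rw [Set.Finite.mem_toFinset] at hτ hτ'
    by_cases hne : γ i τ = γ j τ'
    · exact Filter.Eventually.of_forall fun δ hn => absurd hne hn
    · filter_upwards [eventually_disjoint (isCompact_chord γ lo hi' i τ)
        (isCompact_chord γ lo hi' j τ') (chord_disjoint γ X hR hT hτ hτ' hne)] with δ hδ _
      exact hδ
  obtain ⟨δ, k1, k2, k3, k4⟩ := (h1.and (h2.and (h3.and h4))).exists
  refine ⟨δ, k1, k2, ?_, ?_⟩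
  · intro i j hij τ hτ
    exact k3 i j hij τ ((hfin i).mem_toFinset.mpr hτ)
  · intro i j τ τ' hτ hτ' hne
    exact k4 i j τ ((hfin i).mem_toFinset.mpr hτ) τ' ((hfin j).mem_toFinset.mpr hτ') hne

/-- A finite set of times such that all arcs move little between consecutive times. -/
lemma exists_grid (hc : ∀ i, Continuous (γ i)) {ε : ℝ} (hε : 0 < ε) :
    ∃ Gd : Finset I, ∀ i, ∀ a b : I, a < b → (∀ g ∈ Gd, ¬ (a < g ∧ g < b)) →
      ∀ s ∈ Set.Icc a b, ∀ t ∈ Set.Icc a b, dist (γ i s) (γ i t) < ε := by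
  classical
  have hu : ∀ i, ∃ η > 0, ∀ s t : I, dist s t < η → dist (γ i s) (γ i t) < ε := fun i =>
    Metric.uniformContinuous_iff.mp (CompactSpace.uniformContinuous_of_continuous (hc i)) ε hε
  choose η hη hηc using hu
  have : ∃ η₀ > 0, ∀ i, η₀ ≤ η i := by
    by_cases hne : (univ : Finset ι).Nonempty
    · obtain ⟨i, -, hi⟩ := (univ : Finset ι).exists_min_image η hne
      exact ⟨η i, hη i, fun j => hi j (mem_univ j)⟩
    · refine ⟨1, one_pos, fun i => absurd ⟨i, mem_univ i⟩ hne⟩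
  obtain ⟨η₀, hη₀, hle⟩ := this
  obtain ⟨n, hn⟩ := exists_nat_one_div_lt hη₀
  have hn1 : (0 : ℝ) < n + 1 := by positivity
  let g : ℕ → I := fun k => Set.projIcc (0 : ℝ) 1 zero_le_one (k / (n + 1))
  refine ⟨(Finset.range (n + 2)).image g, ?_⟩
  intro i a b hab hg s hs t ht
  have hba : (b : ℝ) - a ≤ 1 / (n + 1) := by
    by_contra hlt
    push Not at hlt
    have ha0 : (0 : ℝ) ≤ a := a.2.1
    have hb1 : (b : ℝ) ≤ 1 := b.2.2
    let k := ⌊(a : ℝ) * (n + 1)⌋₊ + 1
    have hk1 : (a : ℝ) * (n + 1) < k := by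
      have := Nat.lt_floor_add_one ((a : ℝ) * (n + 1))
      push_cast [k]
      exact this
    have hk2 : (k : ℝ) ≤ a * (n + 1) + 1 := by
      have := Nat.floor_le (a := (a : ℝ) * (n + 1)) (by positivity)
      push_cast [k]
      linarith
    have h1 : (a : ℝ) < k / (n + 1) := by rw [lt_div_iff₀ hn1]; exact hk1
    have h2 : (k : ℝ) / (n + 1) < b := by
      rw [div_lt_iff₀ hn1]
      have : 1 < ((b : ℝ) - a) * (n + 1) := by
        rw [div_lt_iff₀ hn1] at hlt
        exact hlt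
      nlinarith
    have h3 : (k : ℝ) / (n + 1) ∈ Set.Icc (0 : ℝ) 1 := ⟨by positivity, by linarith⟩
    have hgk : ((g k : I) : ℝ) = k / (n + 1) := by
      show ((Set.projIcc (0 : ℝ) 1 zero_le_one (k / (n + 1)) : I) : ℝ) = _
      rw [Set.projIcc_of_mem zero_le_one h3]
    refine hg (g k) ?_ ?_
    · refine Finset.mem_image.mpr ⟨k, Finset.mem_range.mpr ?_, rfl⟩
      have : (k : ℝ) < n + 1 := by
        have := h2.trans_le hb1
        rwa [div_lt_one hn1] at this
      have : k < n + 1 := by exact_mod_cast this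
      omega
    · constructor
      · rw [← Subtype.coe_lt_coe, hgk]; exact h1
      · rw [← Subtype.coe_lt_coe, hgk]; exact h2
  apply hηc
  refine lt_of_lt_of_le (lt_of_le_of_lt ?_ hn) (hle i)
  rw [Subtype.dist_eq, Real.dist_eq]
  refine le_trans ?_ hba
  have e1 : (a : ℝ) ≤ s := hs.1
  have e2 : (s : ℝ) ≤ b := hs.2
  have e3 : (a : ℝ) ≤ t := ht.1
  have e4 : (t : ℝ) ≤ b := ht.2
  rw [abs_le]
  constructor <;> linarith

/-! ### The times of the nodes -/

variable {γ X}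

/-- The conditions on the finite set of times of the nodes of the arc `i`. -/
structure Nodes (lo hi : ι → I → I) (Gd : Finset I) (γ : ι → I → Plane) (X : Finset Plane) (i : ι)
    (S : Finset I) : Prop where
  lo_mem : ∀ τ, γ i τ ∈ X → lo i τ ∈ S
  hi_mem : ∀ τ, γ i τ ∈ X → hi i τ ∈ S
  out : ∀ s ∈ S, ∀ τ, γ i τ ∈ X → s ≤ lo i τ ∨ hi i τ ≤ s
  grid : ∀ g ∈ Gd, (∀ τ, γ i τ ∈ X → g ≤ lo i τ ∨ hi i τ ≤ g) → g ∈ S

omit [Fintype ι] in
lemma order_times [Fintype ι] {ρ : ℝ} (hR : Rad γ X ρ) {lo hi' : ι → I → I} (hT : Times γ ρ lo hi')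
    {i : ι} {τ τ' : I} (hτ : γ i τ ∈ X) (hτ' : γ i τ' ∈ X) (h : τ < τ') : hi' i τ < lo i τ' :=
  hR.order i _ hτ _ hτ' τ τ' rfl rfl h _ _ (hT.hi_mem i τ) (hT.lo_mem i τ')

lemma exists_nodes (hi : ∀ i, Function.Injective (γ i)) {ρ : ℝ} (hR : Rad γ X ρ)
    {lo hi' : ι → I → I} (hT : Times γ ρ lo hi') (Gd : Finset I) (i : ι) :
    ∃ S, Nodes lo hi' Gd γ X i S := by
  classical
  have hfin : {τ | γ i τ ∈ X}.Finite := Set.Finite.preimage ((hi i).injOn) X.finite_toSet
  have hmem : ∀ τ, τ ∈ hfin.toFinset ↔ γ i τ ∈ X := fun τ => hfin.mem_toFinset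
  refine ⟨hfin.toFinset.image (lo i) ∪ hfin.toFinset.image (hi' i) ∪
    Gd.filter (fun t => ∀ τ, γ i τ ∈ X → t ≤ lo i τ ∨ hi' i τ ≤ t), ?_, ?_, ?_, ?_⟩
  · intro τ hτ
    exact mem_union_left _ (mem_union_left _ (mem_image_of_mem _ ((hmem τ).mpr hτ)))
  · intro τ hτ
    exact mem_union_left _ (mem_union_right _ (mem_image_of_mem _ ((hmem τ).mpr hτ)))
  · intro s hs τ hτ
    rcases mem_union.mp hs with hs | hs
    · rcases mem_union.mp hs with hs | hs
      · obtain ⟨τ', hτ', rfl⟩ := mem_image.mp hs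
        rw [hmem] at hτ'
        rcases lt_trichotomy τ' τ with h | rfl | h
        · exact Or.inl ((hT.lt i τ').le.trans (order_times hR hT hτ' hτ h).le)
        · exact Or.inl le_rfl
        · exact Or.inr (order_times hR hT hτ hτ' h).le
      · obtain ⟨τ', hτ', rfl⟩ := mem_image.mp hs
        rw [hmem] at hτ'
        rcases lt_trichotomy τ' τ with h | rfl | h
        · exact Or.inl (order_times hR hT hτ' hτ h).le
        · exact Or.inr le_rfl
        · exact Or.inr ((order_times hR hT hτ hτ' h).le.trans (hT.lt i τ').le)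
    · exact (mem_filter.mp hs).2 τ hτ
  · intro g hg h
    exact mem_union_right _ (mem_filter.mpr ⟨hg, h⟩)

lemma consec_cases {ρ : ℝ} (hR : Rad γ X ρ)
    {lo hi' : ι → I → I} (hT : Times γ ρ lo hi') {Gd : Finset I} {i : ι} {S : Finset I}
    (hS : Nodes lo hi' Gd γ X i S) {a b : I} (ha : a ∈ S) (hb : b ∈ S) (hab : a < b)
    (hcons : ∀ c ∈ S, c ≤ a ∨ b ≤ c) :
    (∃ τ, γ i τ ∈ X ∧ a = lo i τ ∧ b = hi' i τ) ∨
      ∀ t, a < t → t < b → (∀ x ∈ X, ρ ≤ sq x (γ i t)) ∧ t ∉ Gd := by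
  by_cases h : ∃ τ, γ i τ ∈ X ∧ ∃ t, a < t ∧ t < b ∧ lo i τ < t ∧ t < hi' i τ
  · left
    obtain ⟨τ, hτ, t, h1, h2, h3, h4⟩ := h
    have e1 : lo i τ ≤ a := by
      rcases hcons _ (hS.lo_mem τ hτ) with h | h
      · exact h
      · exact absurd (h.trans_lt h3) (not_lt.mpr h2.le)
    have e2 : b ≤ hi' i τ := by
      rcases hcons _ (hS.hi_mem τ hτ) with h | h
      · exact absurd (h4.trans_le h) (not_lt.mpr h1.le)
      · exact h
    refine ⟨τ, hτ, le_antisymm ?_ e1, le_antisymm e2 ?_⟩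
    · rcases hS.out a ha τ hτ with h | h
      · exact h
      · exact absurd (h1.trans h4) (not_lt.mpr h)
    · rcases hS.out b hb τ hτ with h | h
      · exact absurd (h3.trans h2) (not_lt.mpr h)
      · exact h
  · right
    push Not at h
    intro t h1 h2
    have hout : ∀ τ, γ i τ ∈ X → t < lo i τ ∨ hi' i τ < t := by
      intro τ hτ
      have hl : t ≠ lo i τ := by
        rintro rfl
        rcases hcons _ (hS.lo_mem τ hτ) with h | h
        · exact absurd h1 (not_lt.mpr h)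
        · exact absurd h2 (not_lt.mpr h)
      have hr : t ≠ hi' i τ := by
        rintro rfl
        rcases hcons _ (hS.hi_mem τ hτ) with h | h
        · exact absurd h1 (not_lt.mpr h)
        · exact absurd h2 (not_lt.mpr h)
      rcases lt_or_ge t (lo i τ) with h3 | h3
      · exact Or.inl h3
      · have h3' := lt_of_le_of_ne h3 hl.symm
        exact Or.inr (lt_of_le_of_ne (h τ hτ t h1 h2 h3') hr.symm)
    constructor
    · intro x hx
      by_cases hh : ∃ τ, γ i τ = x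
      · obtain ⟨τ, rfl⟩ := hh
        by_contra hn
        push Not at hn
        have h3 := hT.lo_le i τ t hn.le
        have h4 := hT.le_hi i τ t hn.le
        rcases hout τ hx with h | h
        · exact absurd h (not_lt.mpr h3)
        · exact absurd h (not_lt.mpr h4)
      · push Not at hh
        exact (hR.avoid i x hx hh t).le
    · intro hg
      have := hS.grid t hg (fun τ hτ => (hout τ hτ).imp le_of_lt le_of_lt)
      rcases hcons t this with h | h
      · exact absurd h1 (not_lt.mpr h)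
      · exact absurd h2 (not_lt.mpr h)

/-- Every segment between consecutive nodes is near the corresponding part. -/
lemma near {ρ : ℝ} (hR : Rad γ X ρ) {lo hi' : ι → I → I} (hT : Times γ ρ lo hi') {Gd : Finset I}
    {i : ι} {S : Finset I} (hS : Nodes lo hi' Gd γ X i S) {δ : ℝ} (hδ : 0 < δ)
    (hG : ∀ a b : I, a < b → (∀ g ∈ Gd, ¬ (a < g ∧ g < b)) →
      ∀ s ∈ Set.Icc a b, ∀ t ∈ Set.Icc a b, dist (γ i s) (γ i t) < δ / 2)
    {v : I → Plane} (hv : ∀ t ∈ S, dist (v t) (γ i t) < δ / 2) {a b : I} (ha : a ∈ S) (hb : b ∈ S)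
    (hab : a < b) (hcons : ∀ c ∈ S, c ≤ a ∨ b ≤ c) :
    (∃ τ, γ i τ ∈ X ∧ a = lo i τ ∧ b = hi' i τ ∧
      openSegment ℝ (v a) (v b) ⊆ Metric.thickening δ (chord γ lo hi' i τ)) ∨
      openSegment ℝ (v a) (v b) ⊆ Metric.thickening δ (K γ X ρ i) := by
  rcases consec_cases hR hT hS ha hb hab hcons with ⟨τ, hτ, rfl, rfl⟩ | h
  · left
    refine ⟨τ, hτ, rfl, rfl, ?_⟩
    rintro p ⟨α, β, hα, hβ, hαβ, rfl⟩
    rw [Metric.mem_thickening_iff]
    refine ⟨α • γ i (lo i τ) + β • γ i (hi' i τ), ⟨α, β, hα.le, hβ.le, hαβ, rfl⟩, ?_⟩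
    have e1 := hv _ ha
    have e2 := hv _ hb
    calc dist (α • v (lo i τ) + β • v (hi' i τ)) (α • γ i (lo i τ) + β • γ i (hi' i τ))
        ≤ dist (α • v (lo i τ)) (α • γ i (lo i τ)) + dist (β • v (hi' i τ)) (β • γ i (hi' i τ)) :=
          dist_add_add_le _ _ _ _
      _ = α * dist (v (lo i τ)) (γ i (lo i τ)) + β * dist (v (hi' i τ)) (γ i (hi' i τ)) := by
          rw [dist_smul₀, dist_smul₀, Real.norm_of_nonneg hα.le, Real.norm_of_nonneg hβ.le]
      _ < δ := by nlinarith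
  · right
    obtain ⟨t, h1, h2⟩ := exists_between hab
    obtain ⟨hK, -⟩ := h t h1 h2
    have hg : ∀ g ∈ Gd, ¬ (a < g ∧ g < b) := fun g hg h3 => (h g h3.1 h3.2).2 hg
    have d1 := hG a b hab hg a ⟨le_rfl, hab.le⟩ t ⟨h1.le, h2.le⟩
    have d2 := hG a b hab hg b ⟨hab.le, le_rfl⟩ t ⟨h1.le, h2.le⟩
    have e1 := hv _ ha
    have e2 := hv _ hb
    have b1 : v a ∈ Metric.ball (γ i t) δ := by
      rw [Metric.mem_ball]
      calc dist (v a) (γ i t) ≤ dist (v a) (γ i a) + dist (γ i a) (γ i t) := dist_triangle _ _ _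
        _ < δ := by linarith
    have b2 : v b ∈ Metric.ball (γ i t) δ := by
      rw [Metric.mem_ball]
      calc dist (v b) (γ i t) ≤ dist (v b) (γ i b) + dist (γ i b) (γ i t) := dist_triangle _ _ _
        _ < δ := by linarith
    refine (openSegment_subset_segment ℝ _ _).trans ?_
    refine ((convex_ball (γ i t) δ).segment_subset b1 b2).trans ?_
    have hmem : γ i t ∈ K γ X ρ i := ⟨t, hK, rfl⟩
    exact Metric.ball_subset_thickening hmem δ

end radius

/-! ### Lists -/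

lemma consec_map {P Q : Type} (f : P → Q) : ∀ l : List P,
    consec (l.map f) = (consec l).map (Prod.map f f)
  | [] => rfl
  | [_] => rfl
  | a :: b :: r => by
    have := consec_map f (b :: r)
    simp only [List.map_cons, consec] at this ⊢
    rw [this]
    rfl

lemma mem_consec {P : Type} : ∀ {l : List P} {p : P × P}, p ∈ consec l → p.1 ∈ l ∧ p.2 ∈ l.tail
  | [], p, h => by simp [consec] at h
  | [_], p, h => by simp [consec] at h
  | a :: b :: r, p, h => by
    simp only [consec, List.mem_cons] at h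
    rcases h with rfl | h
    · simp
    · have := mem_consec (l := b :: r) h
      exact ⟨List.mem_cons_of_mem _ this.1, List.mem_of_mem_tail this.2⟩

lemma consec_sorted : ∀ {l : List I}, l.Pairwise (· < ·) → ∀ {p : I × I}, p ∈ consec l →
    p.1 ∈ l ∧ p.2 ∈ l ∧ p.1 < p.2 ∧ ∀ c ∈ l, c ≤ p.1 ∨ p.2 ≤ c
  | [], _, p, h => by simp [consec] at h
  | [_], _, p, h => by simp [consec] at h
  | a :: b :: r, hl, p, h => by
    rw [List.pairwise_cons] at hl
    simp only [consec, List.mem_cons] at h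
    rcases h with rfl | h
    · refine ⟨by simp, by simp, hl.1 b (by simp), ?_⟩
      intro c hc
      rcases List.mem_cons.mp hc with rfl | hc
      · exact Or.inl le_rfl
      · right
        rcases List.mem_cons.mp hc with rfl | hc
        · exact le_rfl
        · exact ((List.pairwise_cons.mp hl.2).1 c hc).le
    · obtain ⟨h1, h2, h3, h4⟩ := consec_sorted hl.2 h
      refine ⟨List.mem_cons_of_mem _ h1, List.mem_cons_of_mem _ h2, h3, ?_⟩
      intro c hc
      rcases List.mem_cons.mp hc with rfl | hc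
      · exact Or.inl (hl.1 _ h1).le
      · exact h4 c hc

lemma consec_nodup : ∀ {l : List I}, l.Pairwise (· < ·) → (consec l).Nodup
  | [], _ => by simp [consec]
  | [_], _ => by simp [consec]
  | a :: b :: r, hl => by
    rw [List.pairwise_cons] at hl
    simp only [consec, List.nodup_cons]
    refine ⟨?_, consec_nodup hl.2⟩
    intro h
    exact lt_irrefl _ (hl.1 _ (mem_consec h).1)

lemma exists_mid {l : List I} (hl : l.Pairwise (· < ·)) (h0 : (0 : I) ∈ l) (h1 : (1 : I) ∈ l) :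
    ∃ M, l = 0 :: (M ++ [1]) := by
  cases l with
  | nil => simp at h0
  | cons x l =>
    rw [List.pairwise_cons] at hl
    have hx : x = 0 := by
      rcases List.mem_cons.mp h0 with h | h
      · exact h.symm
      · exact absurd (hl.1 0 h) (not_lt.mpr x.2.1)
    subst hx
    have h1' : (1 : I) ∈ l := by
      rcases List.mem_cons.mp h1 with h | h
      · exact absurd h.symm zero_ne_one
      · exact h
    rcases List.eq_nil_or_concat l with h | ⟨M, y, h⟩
    · rw [h] at h1'; simp at h1'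
    · subst h
      refine ⟨M, ?_⟩
      have hl2 := hl.2
      rw [List.concat_eq_append, List.pairwise_append] at hl2
      rw [List.concat_eq_append, List.mem_append] at h1'
      rcases h1' with h | h
      · have := hl2.2.2 1 h y (by simp)
        exact absurd this (not_lt.mpr y.2.2)
      · rw [List.mem_singleton] at h
        rw [← h, List.concat_eq_append]

/-- Counting pairs. -/
lemma count_le {α β : Type} {A : List α} {B : List β} (hA : A.Nodup) (hB : B.Nodup)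
    (P : α → β → Prop) [∀ a b, Decidable (P a b)] (Z : Finset Plane) (R : α → β → Plane → Prop)
    (h : ∀ a ∈ A, ∀ b ∈ B, P a b → ∃ x ∈ Z, R a b x)
    (hR : ∀ a a' b b' x, R a b x → R a' b' x → a = a' ∧ b = b') :
    (A.map fun a => B.countP fun b => P a b).sum ≤ Z.card := by
  classical
  have h1 : (A.map fun a => B.countP fun b => P a b).sum =
      ∑ a ∈ A.toFinset, (B.toFinset.filter fun b => P a b).card := by
    rw [List.sum_toFinset _ hA]
    congr 1
    refine List.map_congr_left fun a _ => ?_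
    rw [List.countP_eq_length_filter, ← List.toFinset_card_of_nodup (hB.filter _),
      List.toFinset_filter]
    simp
  rw [h1, ← Finset.card_sigma]
  have h2 : ∀ p ∈ A.toFinset.sigma fun a => B.toFinset.filter fun b => P a b,
      ∃ x ∈ Z, R p.1 p.2 x := by
    intro p hp
    rw [Finset.mem_sigma, Finset.mem_filter, List.mem_toFinset, List.mem_toFinset] at hp
    exact h _ hp.1 _ hp.2.1 hp.2.2
  choose! f hf1 hf2 using h2
  refine Finset.card_le_card_of_injOn f (fun p hp => hf1 p hp) ?_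
  intro p hp q hq hpq
  have k1 := hf2 p hp
  have k2 := hf2 q hq
  rw [hpq] at k1
  obtain ⟨e1, e2⟩ := hR _ _ _ _ _ k1 k2
  cases p; cases q
  simp only at e1 e2
  subst e1; subst e2
  rfl

/-- Segments with a common end point. -/
lemma det_of_common {x p q z : Plane} (h : z ∈ openSegment ℝ x p) (h' : z ∈ openSegment ℝ x q) :
    det x p q = 0 := by
  obtain ⟨a, b, ha, hb, hab, rfl⟩ := h
  obtain ⟨a', b', ha', hb', hab', he⟩ := h'
  have e1 : a = 1 - b := by linarith
  have e2 : a' = 1 - b' := by linarith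
  subst e1; subst e2
  have k1 := congrArg Prod.fst he
  have k2 := congrArg Prod.snd he
  simp only [Prod.fst_add, Prod.smul_fst, smul_eq_mul, Prod.snd_add, Prod.smul_snd] at k1 k2
  have k1' : b' * (q.1 - x.1) = b * (p.1 - x.1) := by linarith
  have k2' : b' * (q.2 - x.2) = b * (p.2 - x.2) := by linarith
  have : b' * det x p q = 0 := by
    unfold det
    calc b' * ((p.1 - x.1) * (q.2 - x.2) - (p.2 - x.2) * (q.1 - x.1))
        = (p.1 - x.1) * (b' * (q.2 - x.2)) - (p.2 - x.2) * (b' * (q.1 - x.1)) := by ring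
      _ = 0 := by rw [k1', k2']; ring
  rcases mul_eq_zero.mp this with h | h
  · exact absurd h hb'.ne'
  · exact h

/-! ### The polygonal drawing -/

section final

variable {V ι : Type} [Fintype V] [Fintype ι]

/-- All the data. -/
structure Setup (N : Net V ι) (pos : V → Plane) where
  γ : ι → I → Plane
  X : Finset Plane
  ρ : ℝ
  lo : ι → I → I
  hi : ι → I → I
  δ : ℝ
  Gd : Finset I
  S : ι → Finset I
  v : ι × I → Plane
  cont : ∀ i, Continuous (γ i)
  inj : ∀ i, Function.Injective (γ i)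
  common : ∀ i j, i ≠ j → ∀ s t, γ i s = γ j t → γ i s ∈ X
  pos_inj : Function.Injective pos
  vert : ∀ w, pos w ∈ X
  zero : ∀ i, γ i 0 = pos (N.src i)
  one : ∀ i, γ i 1 = pos (N.tgt i)
  inner : ∀ i t w, γ i t = pos w → t = 0 ∨ t = 1
  rad : Rad γ X ρ
  times : Times γ ρ lo hi
  del : Del γ X ρ lo hi δ
  grid : ∀ i, ∀ a b : I, a < b → (∀ g ∈ Gd, ¬ (a < g ∧ g < b)) →
    ∀ s ∈ Set.Icc a b, ∀ t ∈ Set.Icc a b, dist (γ i s) (γ i t) < δ / 2
  nodes : ∀ i, Nodes lo hi Gd γ X i (S i)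
  near : ∀ i, ∀ t ∈ S i, t ≠ 0 → t ≠ 1 → dist (v (i, t)) (γ i t) < δ / 2
  v_inj : ∀ i j s t, s ∈ S i → s ≠ 0 → s ≠ 1 → t ∈ S j → t ≠ 0 → t ≠ 1 → v (i, s) = v (j, t) →
    i = j ∧ s = t
  v_pos : ∀ i, ∀ t ∈ S i, t ≠ 0 → t ≠ 1 → ∀ w, v (i, t) ≠ pos w
  gen : ∀ i, ∀ t ∈ S i, t ≠ 0 → t ≠ 1 → ∀ p q : Plane,
    ((∃ w, pos w = p) ∨ ∃ j, ∃ s ∈ S j, s ≠ 0 ∧ s ≠ 1 ∧ v (j, s) = p) →
    ((∃ w, pos w = q) ∨ ∃ j, ∃ s ∈ S j, s ≠ 0 ∧ s ≠ 1 ∧ v (j, s) = q) →
    p ≠ q → p ≠ v (i, t) → q ≠ v (i, t) → det p q (v (i, t)) ≠ 0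

namespace Setup

variable {N : Net V ι} {pos : V → Plane} (Q : Setup N pos)

open Classical in
/-- The nodes, including the end points. -/
noncomputable def vv (i : ι) (t : I) : Plane := if t = 0 ∨ t = 1 then Q.γ i t else Q.v (i, t)

lemma vv_zero (i : ι) : Q.vv i 0 = pos (N.src i) := by simp [vv, Q.zero]

lemma vv_one (i : ι) : Q.vv i 1 = pos (N.tgt i) := by simp [vv, Q.one]

lemma vv_of_ne {i : ι} {t : I} (h0 : t ≠ 0) (h1 : t ≠ 1) : Q.vv i t = Q.v (i, t) := by
  simp [vv, h0, h1]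

lemma vv_near (i : ι) {t : I} (ht : t ∈ Q.S i) : dist (Q.vv i t) (Q.γ i t) < Q.δ / 2 := by
  by_cases h : t = 0 ∨ t = 1
  · have : Q.vv i t = Q.γ i t := by unfold vv; rw [if_pos h]
    rw [this, dist_self]
    exact half_pos Q.del.pos
  · push Not at h
    rw [Q.vv_of_ne h.1 h.2]
    exact Q.near i t ht h.1 h.2

/-- Vertices and nodes. -/
def Pt (p : Plane) : Prop :=
  (∃ w, pos w = p) ∨ ∃ j, ∃ s ∈ Q.S j, s ≠ 0 ∧ s ≠ 1 ∧ Q.v (j, s) = p

lemma vv_pt (i : ι) {t : I} (ht : t ∈ Q.S i) : Q.Pt (Q.vv i t) := by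
  by_cases h0 : t = 0
  · subst h0
    exact Or.inl ⟨_, (Q.vv_zero i).symm⟩
  · by_cases h1 : t = 1
    · subst h1
      exact Or.inl ⟨_, (Q.vv_one i).symm⟩
    · exact Or.inr ⟨i, t, ht, h0, h1, (Q.vv_of_ne h0 h1).symm⟩

lemma vv_inj (hN : N.Simple) (i : ι) {s t : I} (hs : s ∈ Q.S i) (ht : t ∈ Q.S i)
    (h : Q.vv i s = Q.vv i t) : s = t := by
  by_cases hs' : s = 0 ∨ s = 1 <;> by_cases ht' : t = 0 ∨ t = 1
  · have e1 : Q.vv i s = Q.γ i s := by unfold vv; rw [if_pos hs']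
    have e2 : Q.vv i t = Q.γ i t := by unfold vv; rw [if_pos ht']
    rw [e1, e2] at h
    exact Q.inj i h
  · push Not at ht'
    rw [Q.vv_of_ne ht'.1 ht'.2] at h
    rcases hs' with rfl | rfl
    · rw [Q.vv_zero] at h
      exact absurd h.symm (Q.v_pos i t ht ht'.1 ht'.2 _)
    · rw [Q.vv_one] at h
      exact absurd h.symm (Q.v_pos i t ht ht'.1 ht'.2 _)
  · push Not at hs'
    rw [Q.vv_of_ne hs'.1 hs'.2] at h
    rcases ht' with rfl | rfl
    · rw [Q.vv_zero] at h
      exact absurd h (Q.v_pos i s hs hs'.1 hs'.2 _)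
    · rw [Q.vv_one] at h
      exact absurd h (Q.v_pos i s hs hs'.1 hs'.2 _)
  · push Not at hs' ht'
    rw [Q.vv_of_ne hs'.1 hs'.2, Q.vv_of_ne ht'.1 ht'.2] at h
    exact (Q.v_inj i i s t hs hs'.1 hs'.2 ht ht'.1 ht'.2 h).2

lemma zero_mem_X (i : ι) : Q.γ i 0 ∈ Q.X := by rw [Q.zero]; exact Q.vert _

lemma one_mem_X (i : ι) : Q.γ i 1 ∈ Q.X := by rw [Q.one]; exact Q.vert _

lemma lo_zero (i : ι) : Q.lo i 0 = 0 :=
  le_antisymm (Q.times.lo_le_self Q.rad.pos i 0) (Q.lo i 0).2.1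

lemma hi_one (i : ι) : Q.hi i 1 = 1 :=
  le_antisymm (Q.hi i 1).2.2 (Q.times.self_le_hi Q.rad.pos i 1)

lemma zero_mem (i : ι) : (0 : I) ∈ Q.S i := by
  have := (Q.nodes i).lo_mem 0 (Q.zero_mem_X i)
  rwa [Q.lo_zero] at this

lemma one_mem (i : ι) : (1 : I) ∈ Q.S i := by
  have := (Q.nodes i).hi_mem 1 (Q.one_mem_X i)
  rwa [Q.hi_one] at this

lemma hi_zero_lt (i : ι) : Q.hi i 0 < Q.lo i 1 :=
  order_times Q.rad Q.times (Q.zero_mem_X i) (Q.one_mem_X i) (by exact zero_lt_one)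

lemma hi_zero_pos (i : ι) : 0 < Q.hi i 0 := by
  have := Q.times.lt i 0
  rwa [Q.lo_zero] at this

lemma hi_zero_lt_one (i : ι) : Q.hi i 0 < 1 := (Q.hi_zero_lt i).trans_le (Q.lo i 1).2.2

lemma lo_one_pos (i : ι) : 0 < Q.lo i 1 := (Q.hi_zero_pos i).trans (Q.hi_zero_lt i)

lemma lo_one_lt_one (i : ι) : Q.lo i 1 < 1 := by
  have := Q.times.lt i 1
  rwa [Q.hi_one] at this

/-- The sorted list of times. -/
noncomputable def L (i : ι) : List I := (Q.S i).sort

lemma L_sorted (i : ι) : (Q.L i).Pairwise (· < ·) :=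
  (Finset.sortedLT_sort (Q.S i)).pairwise

lemma mem_L {i : ι} {t : I} : t ∈ Q.L i ↔ t ∈ Q.S i := Finset.mem_sort _

lemma exists_M (i : ι) : ∃ M, Q.L i = 0 :: (M ++ [1]) :=
  exists_mid (Q.L_sorted i) (Q.mem_L.mpr (Q.zero_mem i)) (Q.mem_L.mpr (Q.one_mem i))

/-- The times of the bends. -/
noncomputable def M (i : ι) : List I := (Q.exists_M i).choose

lemma L_eq (i : ι) : Q.L i = 0 :: (Q.M i ++ [1]) := (Q.exists_M i).choose_spec

lemma mem_M {i : ι} {t : I} (ht : t ∈ Q.M i) : t ∈ Q.S i ∧ t ≠ 0 ∧ t ≠ 1 := by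
  have hs := Q.L_sorted i
  have hm : t ∈ Q.L i := by rw [Q.L_eq]; simp [ht]
  refine ⟨Q.mem_L.mp hm, ?_, ?_⟩
  · rw [Q.L_eq, List.pairwise_cons] at hs
    exact (hs.1 t (by simp [ht])).ne'
  · rw [Q.L_eq, List.pairwise_cons, List.pairwise_append] at hs
    exact (hs.2.2.2 t ht 1 (by simp)).ne

lemma nodup_M (i : ι) : (Q.M i).Nodup := by
  have hs := Q.L_sorted i
  rw [Q.L_eq, List.pairwise_cons, List.pairwise_append] at hs
  exact hs.2.1.imp fun h => h.ne

lemma consec_L {i : ι} {p : I × I} (hp : p ∈ consec (Q.L i)) :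
    p.1 ∈ Q.S i ∧ p.2 ∈ Q.S i ∧ p.1 < p.2 ∧ ∀ c ∈ Q.S i, c ≤ p.1 ∨ p.2 ≤ c := by
  obtain ⟨h1, h2, h3, h4⟩ := consec_sorted (Q.L_sorted i) hp
  exact ⟨Q.mem_L.mp h1, Q.mem_L.mp h2, h3, fun c hc => h4 c (Q.mem_L.mpr hc)⟩

/-- The bends. -/
noncomputable def bends (i : ι) : List Plane := (Q.M i).map (Q.vv i)

lemma full_eq (i : ι) : pos (N.src i) :: (Q.bends i ++ [pos (N.tgt i)]) =
    (Q.L i).map (Q.vv i) := by
  rw [Q.L_eq]
  simp [bends, Q.vv_zero, Q.vv_one]

lemma consec_full (i : ι) : consec (pos (N.src i) :: (Q.bends i ++ [pos (N.tgt i)])) =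
    (consec (Q.L i)).map (Prod.map (Q.vv i) (Q.vv i)) := by
  rw [Q.full_eq, consec_map]

/-- One end of a segment is a node. -/
lemma node_end {i : ι} {p : I × I} (hp : p ∈ consec (Q.L i)) :
    (p.1 ≠ 0 ∧ p.1 ≠ 1) ∨ (p.2 ≠ 0 ∧ p.2 ≠ 1) := by
  obtain ⟨h1, h2, h3, h4⟩ := Q.consec_L hp
  have hp1 : p.1 ≠ 1 := (h3.trans_le p.2.2.2).ne
  have hp2 : p.2 ≠ 0 := by
    intro h
    rw [h] at h3
    exact absurd h3 (not_lt.mpr p.1.2.1)
  by_contra hn
  push Not at hn
  have e1 : p.1 = 0 := by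
    by_contra h
    exact hp1 (hn.1 h)
  have e2 : p.2 = 1 := hn.2 hp2
  have := h4 _ ((Q.nodes i).hi_mem 0 (Q.zero_mem_X i))
  rw [e1, e2] at this
  rcases this with h | h
  · exact absurd (Q.hi_zero_pos i) (not_lt.mpr h)
  · exact absurd (Q.hi_zero_lt_one i) (not_lt.mpr h)

/-- No vertex and no node in the interior of a segment. -/
lemma not_mem_seg (hN : N.Simple) {i : ι} {p : I × I} (hp : p ∈ consec (Q.L i)) {x : Plane}
    (hx : Q.Pt x) : x ∉ openSegment ℝ (Q.vv i p.1) (Q.vv i p.2) := by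
  intro hmem
  obtain ⟨h1, h2, h3, -⟩ := Q.consec_L hp
  have hne : Q.vv i p.1 ≠ Q.vv i p.2 := fun h => h3.ne (Q.vv_inj hN i h1 h2 h)
  have hx1 : x ≠ Q.vv i p.1 := by
    rintro rfl
    exact hne (left_mem_openSegment_iff.mp hmem)
  have hx2 : x ≠ Q.vv i p.2 := by
    rintro rfl
    exact hne (right_mem_openSegment_iff.mp hmem)
  have hd := det_of_mem hmem
  rcases Q.node_end hp with h | h
  · have k := Q.gen i p.1 h1 h.1 h.2 (Q.vv i p.2) x (Q.vv_pt i h2) hx hx2.symm
    rw [← Q.vv_of_ne h.1 h.2] at k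
    apply k hne.symm hx1
    rw [det_rot]
    exact hd
  · have k := Q.gen i p.2 h2 h.1 h.2 (Q.vv i p.1) x (Q.vv_pt i h1) hx hx1.symm
    rw [← Q.vv_of_ne h.1 h.2] at k
    apply k hne hx2
    rw [det_swap', hd, neg_zero]

/-- The weak polygonal drawing. -/
noncomputable def weak (hN : N.Simple) : WeakPoly N where
  pos := pos
  bends := Q.bends
  pos_inj := Q.pos_inj
  nodup i := by
    unfold bends
    refine (List.nodup_map_iff_inj_on (Q.nodup_M i)).mpr ?_
    intro s hs t ht h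
    exact Q.vv_inj hN i (Q.mem_M hs).1 (Q.mem_M ht).1 h
  avoid i x hx w := by
    obtain ⟨t, ht, rfl⟩ := List.mem_map.mp hx
    obtain ⟨h1, h2, h3⟩ := Q.mem_M ht
    rw [Q.vv_of_ne h2 h3]
    exact Q.v_pos i t h1 h2 h3 w
  disj i j hij x hx hx' := by
    obtain ⟨t, ht, rfl⟩ := List.mem_map.mp hx
    obtain ⟨s, hs, h⟩ := List.mem_map.mp hx'
    obtain ⟨h1, h2, h3⟩ := Q.mem_M ht
    obtain ⟨k1, k2, k3⟩ := Q.mem_M hs
    rw [Q.vv_of_ne h2 h3, Q.vv_of_ne k2 k3] at h
    exact hij (Q.v_inj j i s t k1 k2 k3 h1 h2 h3 h).1.symm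
  pos_avoid i s hs w := by
    rw [Q.consec_full] at hs
    obtain ⟨p, hp, rfl⟩ := List.mem_map.mp hs
    exact Q.not_mem_seg hN hp (Or.inl ⟨w, rfl⟩)
  bend_avoid i j s hs x hx := by
    rw [Q.consec_full] at hs
    obtain ⟨p, hp, rfl⟩ := List.mem_map.mp hs
    obtain ⟨t, ht, rfl⟩ := List.mem_map.mp hx
    exact Q.not_mem_seg hN hp (Q.vv_pt j (Q.mem_M ht).1)

/-- A segment near a vertex. -/
lemma chord_vertex (hN : N.Simple) {i : ι} {τ : I} {w : V} (hw : Q.γ i τ = pos w) {z : Plane}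
    (hz : z ∈ openSegment ℝ (Q.vv i (Q.lo i τ)) (Q.vv i (Q.hi i τ))) :
    ∃ t ∈ Q.S i, t ≠ 0 ∧ t ≠ 1 ∧ z ∈ openSegment ℝ (pos w) (Q.v (i, t)) := by
  rcases Q.inner i τ w hw with rfl | rfl
  · refine ⟨Q.hi i 0, (Q.nodes i).hi_mem 0 (Q.zero_mem_X i), (Q.hi_zero_pos i).ne',
      (Q.hi_zero_lt_one i).ne, ?_⟩
    rw [Q.lo_zero, Q.vv_zero, Q.vv_of_ne (Q.hi_zero_pos i).ne' (Q.hi_zero_lt_one i).ne,
      ← Q.zero, hw] at hz
    exact hz
  · refine ⟨Q.lo i 1, (Q.nodes i).lo_mem 1 (Q.one_mem_X i), (Q.lo_one_pos i).ne',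
      (Q.lo_one_lt_one i).ne, ?_⟩
    rw [Q.hi_one, Q.vv_one, Q.vv_of_ne (Q.lo_one_pos i).ne' (Q.lo_one_lt_one i).ne,
      ← Q.one, hw, openSegment_symm] at hz
    exact hz

/-- Crossing segments belong to a common crossing point. -/
lemma crossing (hN : N.Simple) {i j : ι} (hij : i ≠ j) {p q : I × I} (hp : p ∈ consec (Q.L i))
    (hq : q ∈ consec (Q.L j))
    (h : ¬ Disjoint (openSegment ℝ (Q.vv i p.1) (Q.vv i p.2))
      (openSegment ℝ (Q.vv j q.1) (Q.vv j q.2))) :
    ∃ τ τ', Q.γ i τ ∈ Q.X ∧ Q.γ i τ = Q.γ j τ' ∧ (∀ w, Q.γ i τ ≠ pos w) ∧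
      p = (Q.lo i τ, Q.hi i τ) ∧ q = (Q.lo j τ', Q.hi j τ') := by
  obtain ⟨z, hz, hz'⟩ := Set.not_disjoint_iff.mp h
  obtain ⟨h1, h2, h3, h4⟩ := Q.consec_L hp
  obtain ⟨k1, k2, k3, k4⟩ := Q.consec_L hq
  have n1 := T2.near Q.rad Q.times (Q.nodes i) Q.del.pos (Q.grid i) (fun t ht => Q.vv_near i ht)
    h1 h2 h3 h4
  have n2 := T2.near Q.rad Q.times (Q.nodes j) Q.del.pos (Q.grid j) (fun t ht => Q.vv_near j ht)
    k1 k2 k3 k4
  rcases n1 with ⟨τ, hτ, e1, e2, n1⟩ | n1 <;> rcases n2 with ⟨τ', hτ', e1', e2', n2⟩ | n2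
  · by_cases hne : Q.γ i τ = Q.γ j τ'
    · refine ⟨τ, τ', hτ, hne, ?_, Prod.ext e1 e2, Prod.ext e1' e2'⟩
      intro w hw
      rw [e1, e2] at hz
      rw [e1', e2'] at hz'
      obtain ⟨s, hs, hs0, hs1, m1⟩ := Q.chord_vertex hN hw hz
      obtain ⟨t, ht, ht0, ht1, m2⟩ := Q.chord_vertex hN (hne ▸ hw) hz'
      have hd := det_of_common m1 m2
      refine Q.gen j t ht ht0 ht1 (pos w) (Q.v (i, s)) (Or.inl ⟨w, rfl⟩)
        (Or.inr ⟨i, s, hs, hs0, hs1, rfl⟩) (Q.v_pos i s hs hs0 hs1 w).symm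
        (Q.v_pos j t ht ht0 ht1 w).symm ?_ hd
      intro h
      exact hij (Q.v_inj i j s t hs hs0 hs1 ht ht0 ht1 h).1
    · exact absurd (n2 hz') (Set.disjoint_left.mp (Q.del.cc i j τ τ' hτ hτ' hne) (n1 hz))
  · exact absurd (n2 hz') (Set.disjoint_left.mp (Q.del.ck i j hij τ hτ) (n1 hz))
  · exact absurd (n1 hz) (Set.disjoint_left.mp (Q.del.ck j i hij.symm τ' hτ') (n2 hz'))
  · exact absurd (n2 hz') (Set.disjoint_left.mp (Q.del.kk i j hij) (n1 hz))

open Classical in
lemma cr_le (hN : N.Simple) {i j : ι} (hij : i ≠ j) :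
    (Q.weak hN).cr i j ≤ (Q.X.filter fun x => (∃ τ, Q.γ i τ = x) ∧ (∃ τ, Q.γ j τ = x) ∧
      ∀ w, x ≠ pos w).card := by
  have h1 : (Q.weak hN).segs i = (consec (Q.L i)).map (Prod.map (Q.vv i) (Q.vv i)) :=
    Q.consec_full i
  have h2 : (Q.weak hN).segs j = (consec (Q.L j)).map (Prod.map (Q.vv j) (Q.vv j)) :=
    Q.consec_full j
  unfold WeakPoly.cr
  rw [h1, h2, List.map_map]
  have h3 : ∀ s : Plane × Plane,
      List.countP (fun t : Plane × Plane => decide
        (¬ Disjoint (openSegment ℝ s.1 s.2) (openSegment ℝ t.1 t.2)))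
        (List.map (Prod.map (Q.vv j) (Q.vv j)) (consec (Q.L j))) =
      List.countP (fun q : I × I => decide (¬ Disjoint (openSegment ℝ s.1 s.2)
        (openSegment ℝ (Q.vv j q.1) (Q.vv j q.2)))) (consec (Q.L j)) := by
    intro s
    rw [List.countP_map]
    rfl
  simp_rw [h3]
  refine T2.count_le (A := consec (Q.L i)) (B := consec (Q.L j))
    (consec_nodup (Q.L_sorted i)) (consec_nodup (Q.L_sorted j))
    (fun p q => ¬ Disjoint (openSegment ℝ (Q.vv i p.1) (Q.vv i p.2))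
      (openSegment ℝ (Q.vv j q.1) (Q.vv j q.2))) _
    (fun p q x => ∃ τ τ', Q.γ i τ = x ∧ Q.γ j τ' = x ∧ p = (Q.lo i τ, Q.hi i τ) ∧
      q = (Q.lo j τ', Q.hi j τ')) ?_ ?_
  · intro p hp q hq h
    obtain ⟨τ, τ', m1, m2, m3, m4, m5⟩ := Q.crossing hN hij hp hq h
    exact ⟨Q.γ i τ, Finset.mem_filter.mpr ⟨m1, ⟨τ, rfl⟩, ⟨τ', m2.symm⟩, m3⟩, τ, τ', rfl, m2.symm,
      m4, m5⟩
  · rintro p p' q q' x ⟨τ, τ', m1, m2, m3, m4⟩ ⟨σ, σ', n1, n2, n3, n4⟩
    have e1 := Q.inj i (m1.trans n1.symm)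
    have e2 := Q.inj j (m2.trans n2.symm)
    subst e1; subst e2
    exact ⟨m3.trans n3.symm, m4.trans n4.symm⟩

end Setup

/-- The setup exists. -/
lemma exists_setup {N : Net V ι} (hN : N.Simple) {pos : V → Plane}
    (hpos : Function.Injective pos) (γ : ι → I → Plane) (hc : ∀ i, Continuous (γ i))
    (hi : ∀ i, Function.Injective (γ i)) (h0 : ∀ i, γ i 0 = pos (N.src i))
    (h1 : ∀ i, γ i 1 = pos (N.tgt i)) (hin : ∀ i t w, γ i t = pos w → t = 0 ∨ t = 1)
    (X : Finset Plane) (hX : ∀ i j, i ≠ j → ∀ s t, γ i s = γ j t → γ i s ∈ X)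
    (hv : ∀ w, pos w ∈ X) : ∃ Q : Setup N pos, Q.γ = γ ∧ Q.X = X := by
  classical
  obtain ⟨ρ, hR⟩ := exists_rad γ X hc hi
  obtain ⟨lo, hi', hT⟩ := exists_times γ hc hR.pos
  obtain ⟨δ, hD⟩ := exists_del γ X hc hi hX hR hT
  obtain ⟨Gd, hG⟩ := exists_grid γ hc (half_pos hD.pos)
  choose S hS using fun i => exists_nodes hi hR hT Gd i
  let J : Finset (ι × I) := (univ : Finset ι).biUnion fun i =>
    (((S i).erase 0).erase 1).image fun t => (i, t)
  have hJ : ∀ i t, (i, t) ∈ J ↔ t ∈ S i ∧ t ≠ 0 ∧ t ≠ 1 := by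
    intro i t
    simp only [J, mem_biUnion, mem_univ, true_and, mem_image, mem_erase]
    constructor
    · rintro ⟨j, s, ⟨h1, h2, h3⟩, h⟩
      obtain ⟨rfl, rfl⟩ := Prod.mk.inj h
      exact ⟨h3, h2, h1⟩
    · rintro ⟨h1, h2, h3⟩
      exact ⟨i, t, ⟨h3, h2, h1⟩, rfl⟩
  obtain ⟨v, v1, v2, v3, v4⟩ := exists_generic J (fun p => γ p.1 p.2) ((univ : Finset V).image pos)
    (half_pos hD.pos)
  have conv : ∀ p : Plane, ((∃ w, pos w = p) ∨ ∃ j, ∃ s ∈ S j, s ≠ 0 ∧ s ≠ 1 ∧ v (j, s) = p) →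
      (p ∈ (univ : Finset V).image pos ∨ ∃ k ∈ J, v k = p) := by
    rintro p (⟨w, rfl⟩ | ⟨j, s, m1, m2, m3, rfl⟩)
    · exact Or.inl (mem_image_of_mem _ (mem_univ w))
    · exact Or.inr ⟨(j, s), (hJ j s).mpr ⟨m1, m2, m3⟩, rfl⟩
  refine ⟨{ γ := γ, X := X, ρ := ρ, lo := lo, hi := hi', δ := δ, Gd := Gd, S := S, v := v,
            cont := hc, inj := hi, common := hX, pos_inj := hpos, vert := hv, zero := h0,
            one := h1, inner := hin, rad := hR, times := hT, del := hD, grid := hG, nodes := hS,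
            near := ?_, v_inj := ?_, v_pos := ?_, gen := ?_ }, rfl, rfl⟩
  · intro i t ht ht0 ht1
    exact v1 (i, t) ((hJ i t).mpr ⟨ht, ht0, ht1⟩)
  · intro i j s t hs hs0 hs1 ht ht0 ht1 h
    have := @v2 (i, s) ((hJ i s).mpr ⟨hs, hs0, hs1⟩) (j, t)
      ((hJ j t).mpr ⟨ht, ht0, ht1⟩) h
    exact Prod.mk.inj this
  · intro i t ht ht0 ht1 w h
    exact v3 (i, t) ((hJ i t).mpr ⟨ht, ht0, ht1⟩) (h ▸ mem_image_of_mem _ (mem_univ w))
  · intro i t ht ht0 ht1 p q hp hq
    exact v4 (i, t) ((hJ i t).mpr ⟨ht, ht0, ht1⟩) p q (conv p hp) (conv q hq)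

end final

end T2

open Finset in
/-- T2. Every topological drawing gives a weak polygonal drawing with at most as many crossings. -/
theorem exists_weakPoly_of_top_proof {V ι : Type} [Fintype V] [Fintype ι] [DecidableEq ι]
    {N : Net V ι} {G : SimpleGraph V} (hN : N.Rep G) (D : TopDrawing G) :
    ∃ W : WeakPoly N, (∑ i, ∑ j, if i = j then 0 else W.cr i j) ≤ 2 * D.crossings := by
  classical
  have hadj : ∀ i, G.Adj (N.src i) (N.tgt i) := fun i => (hN.adj _ _).mpr ⟨i, rfl⟩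
  have hedge : ∀ i, s(N.src i, N.tgt i) ∈ G.edgeSet := fun i => hadj i
  have hne : ∀ i j, i ≠ j → s(N.src i, N.tgt i) ≠ s(N.src j, N.tgt j) := fun i j h h' =>
    h (hN.simple.inj i j h')
  choose p hpi hpr using fun i => D.isArc _ _ (hadj i)
  have harc : ∀ i t, p i t ∈ D.arc s(N.src i, N.tgt i) := fun i t => by
    rw [← hpr i]; exact ⟨t, rfl⟩
  let XS : Set Plane := Set.range D.pos ∪ ⋃ i, ⋃ j, ⋃ (_ : i ≠ j),
    (D.arc s(N.src i, N.tgt i) ∩ D.arc s(N.src j, N.tgt j))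
  have hXS : XS.Finite := by
    refine (Set.finite_range _).union ?_
    refine Set.finite_iUnion fun i => Set.finite_iUnion fun j => Set.finite_iUnion fun h => ?_
    exact D.finite _ (hedge i) _ (hedge j) (hne i j h)
  have hcommon : ∀ i j, i ≠ j → ∀ x, x ∈ D.arc s(N.src i, N.tgt i) →
      x ∈ D.arc s(N.src j, N.tgt j) → x ∈ hXS.toFinset := by
    intro i j hij x hx hx'
    rw [Set.Finite.mem_toFinset]
    right
    simp only [Set.mem_iUnion]
    exact ⟨i, j, hij, hx, hx'⟩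
  have hin : ∀ i t w, p i t = D.pos w → t = 0 ∨ t = 1 := by
    intro i t w h
    have h1 := D.avoid _ (hedge i) w (h ▸ harc i t)
    rcases Sym2.mem_iff.mp h1 with rfl | rfl
    · left
      apply hpi i
      rw [h, (p i).source]
    · right
      apply hpi i
      rw [h, (p i).target]
  obtain ⟨Q, hQ, hQX⟩ := T2.exists_setup hN.simple D.pos_inj (fun i t => p i t)
    (fun i => (p i).continuous) (fun i => hpi i) (fun i => (p i).source) (fun i => (p i).target)
    hin hXS.toFinset (fun i j hij s t h => hcommon i j hij _ (harc i s) (by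
      have : p i s = p j t := h
      rw [this]; exact harc j t))
    (fun w => by rw [Set.Finite.mem_toFinset]; exact Or.inl ⟨w, rfl⟩)
  refine ⟨Q.weak hN.simple, ?_⟩
  -- the common points of two edges that are not vertices
  let Z : ι × ι → Finset Plane := fun q => hXS.toFinset.filter fun x =>
    x ∈ D.arc s(N.src q.1, N.tgt q.1) ∧ x ∈ D.arc s(N.src q.2, N.tgt q.2) ∧ ∀ w, x ≠ D.pos w
  have hcr : ∀ i j, i ≠ j → (Q.weak hN.simple).cr i j ≤ (Z (i, j)).card := by
    intro i j hij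
    refine (Q.cr_le hN.simple hij).trans (Finset.card_le_card ?_)
    intro x hx
    rw [Finset.mem_filter, hQX, hQ] at hx
    obtain ⟨h1, ⟨τ, h2⟩, ⟨τ', h3⟩, h4⟩ := hx
    have h2' : p i τ = x := h2
    have h3' : p j τ' = x := h3
    exact Finset.mem_filter.mpr ⟨h1, h2' ▸ harc i τ, h3' ▸ harc j τ', h4⟩
  have hsum : (∑ i, ∑ j, if i = j then 0 else (Q.weak hN.simple).cr i j) ≤
      ((univ.filter fun q : ι × ι => q.1 ≠ q.2).sigma Z).card := by
    rw [Finset.card_sigma, Finset.sum_filter, ← Finset.univ_product_univ, Finset.sum_product]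
    refine Finset.sum_le_sum fun i _ => Finset.sum_le_sum fun j _ => ?_
    by_cases hij : i = j
    · simp [hij]
    · simp only [hij, if_false, ne_eq, not_false_eq_true, if_true]
      exact hcr i j hij
  refine hsum.trans ?_
  let f : (Σ _ : ι × ι, Plane) → Plane × Sym2 (Sym2 V) := fun q =>
    (q.2, s(s(N.src q.1.1, N.tgt q.1.1), s(N.src q.1.2, N.tgt q.1.2)))
  have hfib : ∀ a ∈ ((univ.filter fun q : ι × ι => q.1 ≠ q.2).sigma Z).image f,
      (((univ.filter fun q : ι × ι => q.1 ≠ q.2).sigma Z).filter fun q => f q = a).card ≤ 2 := by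
    intro a ha
    obtain ⟨⟨⟨i, j⟩, x⟩, -, rfl⟩ := Finset.mem_image.mp ha
    refine (Finset.card_le_card ?_).trans (Finset.card_le_two (a := (⟨(i, j), x⟩ : Σ _ : ι × ι, Plane))
      (b := ⟨(j, i), x⟩))
    rintro ⟨⟨k, l⟩, y⟩ hy
    have h := (Finset.mem_filter.mp hy).2
    simp only [f, Prod.mk.injEq, Sym2.eq_iff (α := Sym2 V)] at h
    obtain ⟨rfl, ⟨h1, h2⟩ | ⟨h1, h2⟩⟩ := h
    · rw [hN.simple.inj _ _ h1, hN.simple.inj _ _ h2]
      simp
    · rw [hN.simple.inj _ _ h1, hN.simple.inj _ _ h2]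
      simp
  refine (Finset.card_le_mul_card_image _ 2 hfib).trans ?_
  refine Nat.mul_le_mul_left 2 ?_
  have hsub : (((univ.filter fun q : ι × ι => q.1 ≠ q.2).sigma Z).image f : Set _) ⊆
      D.crossingSet := by
    intro a ha
    obtain ⟨⟨⟨i, j⟩, x⟩, hq, rfl⟩ := Finset.mem_image.mp (Finset.mem_coe.mp ha)
    rw [Finset.mem_sigma, Finset.mem_filter] at hq
    obtain ⟨⟨-, hij⟩, hx⟩ := hq
    obtain ⟨-, h1, h2, h3⟩ := Finset.mem_filter.mp hx
    exact ⟨h3, _, _, hedge i, hedge j, hne i j hij, rfl, h1, h2⟩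
  have hfin : D.crossingSet.Finite := by
    refine (hXS.prod (Set.finite_univ (α := Sym2 (Sym2 V)))).subset ?_
    rintro ⟨x, e⟩ ⟨-, e1, e2, h1, h2, h3, -, h4, h5⟩
    refine ⟨?_, trivial⟩
    obtain ⟨a, b⟩ := e1
    obtain ⟨c, d⟩ := e2
    obtain ⟨i, hi⟩ := (hN.adj a b).mp h1
    obtain ⟨j, hj⟩ := (hN.adj c d).mp h2
    have h4' : x ∈ D.arc s(a, b) := h4
    have h5' : x ∈ D.arc s(c, d) := h5
    have h3' : s(a, b) ≠ s(c, d) := h3
    rw [← hi] at h4' h3'
    rw [← hj] at h5' h3'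
    have hij : i ≠ j := fun h => h3' (by rw [h])
    exact (Set.Finite.mem_toFinset hXS).mp (hcommon i j hij x h4' h5')
  unfold TopDrawing.crossings
  rw [← Set.ncard_coe_finset]
  exact Set.ncard_le_ncard hsub hfin

end MP60f107

end
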