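import Pool.Agent.Lib.MP_60f107_co.CrDraw3
import Pool.Agent.Lib.MP_60f107_co.CrWeak

section

/-!
Final assembly (from the skeletons).
-/

namespace MP60f107

open Finset

theorem Net.Rep.flip {V ι : Type} {N : Net V ι} {G : SimpleGraph V} (hN : N.Rep G) (S : ι → Bool) :
    (N.flip S).Rep G := by
  refine ⟨hN.simple.flip S, fun a b => ?_⟩
  rw [hN.adj]
  have key : ∀ i, s((N.flip S).src i, (N.flip S).tgt i) = s(N.src i, N.tgt i) := by
    intro i
    unfold Net.flip
    dsimp only
    split
    · exact Sym2.eq_swap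
    · rfl
  simp only [key]

theorem Net.Rep.add {V ι : Type} {N : Net V ι} {G : SimpleGraph V} (hN : N.Rep G) {u v : V}
    (huv : u ≠ v) (h : ¬ G.Adj u v) : (N.add u v).Rep (G ⊔ SimpleGraph.edge u v) := by
  have hno : ∀ i, s(N.src i, N.tgt i) ≠ s(u, v) := fun i hi => h ((hN.adj u v).2 ⟨i, hi⟩)
  refine ⟨⟨?_, ?_⟩, ?_⟩
  · rintro (_ | i)
    · exact huv
    · exact hN.simple.loopless i
  · rintro (_ | i) (_ | j) hij
    · rfl
    · exact absurd hij.symm (hno j)
    · exact absurd hij (hno i)
    · exact congrArg some (hN.simple.inj i j hij)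
  · intro a b
    rw [SimpleGraph.sup_adj, hN.adj, SimpleGraph.edge_adj]
    constructor
    · rintro (⟨i, hi⟩ | ⟨h1 | h1, -⟩)
      · exact ⟨some i, hi⟩
      · exact ⟨none, by rw [h1.1, h1.2]; rfl⟩
      · exact ⟨none, by rw [h1.1, h1.2]; exact Sym2.eq_swap⟩
    · rintro ⟨_ | i, hi⟩
      · right
        have hi' : s(u, v) = s(a, b) := hi
        rw [Sym2.eq_iff] at hi'
        refine ⟨?_, ?_⟩
        · rcases hi' with ⟨rfl, rfl⟩ | ⟨rfl, rfl⟩
          · exact Or.inl ⟨rfl, rfl⟩
          · exact Or.inr ⟨rfl, rfl⟩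
        · rcases hi' with ⟨rfl, rfl⟩ | ⟨rfl, rfl⟩
          · exact huv
          · exact huv.symm
      · exact Or.inl ⟨i, hi⟩

/-- Every finite simple graph has an orientation indexed by its edges. -/
theorem exists_rep {V : Type} (G : SimpleGraph V) : ∃ N : Net V G.edgeSet, N.Rep G := by
  classical
  refine ⟨⟨fun e => (Quot.out e.1).1, fun e => (Quot.out e.1).2⟩, ⟨⟨?_, ?_⟩, ?_⟩⟩
  · rintro ⟨e, he⟩ h
    have h1 : s((Quot.out e).1, (Quot.out e).2) = e := Quot.out_eq e
    dsimp only at h
    rw [h] at h1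
    rw [← h1] at he
    exact G.loopless.irrefl _ ((SimpleGraph.mem_edgeSet G).1 he)
  · rintro ⟨e, he⟩ ⟨f, hf⟩ h
    have h1 : s((Quot.out e).1, (Quot.out e).2) = e := Quot.out_eq e
    have h2 : s((Quot.out f).1, (Quot.out f).2) = f := Quot.out_eq f
    dsimp only at h
    rw [h1, h2] at h
    exact Subtype.ext h
  · intro a b
    rw [← SimpleGraph.mem_edgeSet]
    constructor
    · intro h
      exact ⟨⟨s(a, b), h⟩, Quot.out_eq _⟩
    · rintro ⟨⟨e, he⟩, h⟩
      have h1 : s((Quot.out e).1, (Quot.out e).2) = e := Quot.out_eq e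
      dsimp only at h
      rw [h1] at h
      rw [← h]; exact he

/-- A trivial drawing: every edge is one arc. -/
noncomputable def trivialDrawing {V ι : Type} [Fintype V] (N : Net V ι) : Drawing N ℕ where
  pos := fun w => (Fintype.equivFin V w).val
  inner := fun _ => []
  last := fun _ => true
  pos_inj := fun _ _ h => (Fintype.equivFin V).injective (Fin.ext h)
  nodup := fun _ => by simp
  disj := fun _ _ _ x hx => by simp at hx
  avoid := fun _ x hx => by simp at hx

/-- The set of polygonal drawings of a finite graph is not empty. -/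
theorem exists_polyDrawing {V : Type} [Fintype V] (G : SimpleGraph V) : Nonempty (PolyDrawing G) := by
  classical
  obtain ⟨N, hN⟩ := exists_rep G
  have : Fintype G.edgeSet := Fintype.ofFinite _
  obtain ⟨D, -⟩ := exists_poly_of_spine_proof hN (trivialDrawing N)
    (fun i => by simp [Drawing.path, trivialDrawing]) (fun i => by simp [trivialDrawing])
  exact ⟨D⟩

theorem crossingNumber_le {V : Type} {G : SimpleGraph V} (D : PolyDrawing G) :
    crossingNumber G ≤ D.crossings := Nat.sInf_le ⟨D, rfl⟩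

theorem exists_crossingNumber {V : Type} [Fintype V] (G : SimpleGraph V) :
    ∃ D : PolyDrawing G, D.crossings = crossingNumber G := by
  have _ := exists_polyDrawing G
  exact Nat.sInf_mem (Set.range_nonempty _)

theorem exists_topCrossingNumber {V : Type} [Fintype V] (G : SimpleGraph V) :
    ∃ D : TopDrawing G, D.crossings = topCrossingNumber G := by
  obtain ⟨D⟩ := exists_polyDrawing G
  obtain ⟨D', -⟩ := exists_top_of_poly' D
  have : Nonempty (TopDrawing G) := ⟨D'⟩
  exact Nat.sInf_mem (Set.range_nonempty _)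

theorem topCrossingNumber_le {V : Type} [Fintype V] {G : SimpleGraph V} (D : PolyDrawing G) :
    topCrossingNumber G ≤ D.crossings := by
  obtain ⟨D', h⟩ := exists_top_of_poly' D
  rw [← h]
  exact Nat.sInf_le ⟨D', rfl⟩

/-- The core of the final theorem. -/
theorem exists_key : ∃ M : ℕ, ∀ (V : Type) [Fintype V] [DecidableEq V] (G : SimpleGraph V)
    (u v : V), u ≠ v → ¬ G.Adj u v → ∃ (D' : PolyDrawing (G ⊔ SimpleGraph.edge u v)) (n : ℕ),
      n ≤ M * (G.edgeSet.ncard - n) ∧ n ≤ G.edgeSet.ncard ∧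
      D'.crossings ≤ topCrossingNumber G + n ∧ D'.crossings ≤ crossingNumber G + n := by
  classical
  obtain ⟨M, hM⟩ := Std.exists_bound
  refine ⟨M, fun V _ _ G u v huv huv' => ?_⟩
  obtain ⟨N, hN⟩ := exists_rep G
  have hfin : Fintype G.edgeSet := Fintype.ofFinite _
  have hadj : ∀ i, s(N.src i, N.tgt i) ≠ s(u, v) := fun i hi => huv' ((hN.adj u v).2 ⟨i, hi⟩)
  obtain ⟨F, L, _, ⟨S⟩⟩ := exists_std hN.simple huv hadj
  obtain ⟨D₁, h1, h2, h3⟩ := S.exists_add
  obtain ⟨D', hD'⟩ := exists_poly_of_spine_proof ((hN.flip F).add huv huv') D₁ h2 h3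
  have hcard : Fintype.card G.edgeSet = G.edgeSet.ncard := by
    rw [← Nat.card_coe_set_eq, Nat.card_eq_fintype_card]
  refine ⟨D', S.n, ?_, ?_, ?_, ?_⟩
  · rw [← hcard]; exact hM V _ _ L u v S
  · rw [← hcard]
    simpa using Fintype.card_le_of_injective S.row S.row_inj
  · obtain ⟨E, hE⟩ := exists_topCrossingNumber G
    obtain ⟨W, hW⟩ := exists_weakPoly_of_top_proof (hN.flip F) E
    obtain ⟨L', _, D₂, hD₂⟩ := exists_spine_of_weakPoly' (hN.flip F).simple W
    have := S.good.opt L' D₂
    omega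
  · obtain ⟨E, hE⟩ := exists_crossingNumber G
    obtain ⟨L', _, D₂, hD₂⟩ := exists_spine_of_poly' (hN.flip F) E
    have := S.good.opt L' D₂
    omega

theorem frac_bound (M m n : ℕ) (h1 : n ≤ M * (m - n)) (h2 : n ≤ m) :
    (n : ℝ) ≤ (M : ℝ) / (M + 1) * m := by
  have h3 : n * (M + 1) ≤ M * m := by
    obtain ⟨k, rfl⟩ := Nat.exists_eq_add_of_le h2
    rw [Nat.add_sub_cancel_left] at h1
    nlinarith
  rw [div_mul_eq_mul_div, le_div_iff₀ (by positivity)]
  exact_mod_cast h3

/-- Main theorem (topological drawings). -/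
theorem main_top : ∃ c : ℝ, c < 1 ∧ ∀ (V : Type) [Fintype V] (G : SimpleGraph V) (u v : V),
    u ≠ v → ¬ G.Adj u v →
    (topCrossingNumber (G ⊔ SimpleGraph.edge u v) : ℝ) ≤ topCrossingNumber G
      + c * G.edgeSet.ncard := by
  classical
  obtain ⟨M, hM⟩ := exists_key
  refine ⟨M / (M + 1), by rw [div_lt_one (by positivity)]; linarith, ?_⟩
  intro V _ G u v huv huv'
  obtain ⟨D', n, h1, h2, h3, -⟩ := hM V G u v huv huv'
  have h4 := frac_bound M _ n h1 h2
  have h5 : (topCrossingNumber (G ⊔ SimpleGraph.edge u v) : ℝ) ≤ topCrossingNumber G + n := by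
    exact_mod_cast (topCrossingNumber_le D').trans h3
  linarith

/-- Main theorem (polygonal drawings). -/
theorem main_poly : ∃ c : ℝ, c < 1 ∧ ∀ (V : Type) [Fintype V] (G : SimpleGraph V) (u v : V),
    u ≠ v → ¬ G.Adj u v →
    (crossingNumber (G ⊔ SimpleGraph.edge u v) : ℝ) ≤ crossingNumber G
      + c * G.edgeSet.ncard := by
  classical
  obtain ⟨M, hM⟩ := exists_key
  refine ⟨M / (M + 1), by rw [div_lt_one (by positivity)]; linarith, ?_⟩
  intro V _ G u v huv huv'
  obtain ⟨D', n, h1, h2, -, h3⟩ := hM V G u v huv huv'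
  have h4 := frac_bound M _ n h1 h2
  have h5 : (crossingNumber (G ⊔ SimpleGraph.edge u v) : ℝ) ≤ crossingNumber G + n := by
    exact_mod_cast (crossingNumber_le D').trans h3
  linarith

/-- Every spine drawing can be replaced by one with alternating edges without self crossings and at
most as many crossings. -/
theorem exists_normal_drawing {V ι : Type} [Fintype ι] [DecidableEq ι] {N : Net V ι} {L : Type}
    [LinearOrder L] (D : Drawing N L) : ∃ D' : Drawing N L, D'.dcr ≤ D.dcr ∧
      (∀ i, crL (D'.path i) (D'.path i) = 0) ∧ ∀ i, Alt (D'.inner i) (D'.last i) := by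
  have key := fun i : ι => Nrm.exists_normal (D.pos (N.src i)) (D.pos (N.tgt i)) (D.last i)
    (D.inner i)
  choose r hsub halt hself hQ using key
  have hmem : ∀ i, ∀ x ∈ r i, x ∈ D.inner i := fun i x hx => (hsub i).subset hx
  let D' : Drawing N L :=
    { pos := D.pos
      inner := r
      last := D.last
      pos_inj := D.pos_inj
      nodup := fun i => ((hsub i).map Prod.snd).nodup (D.nodup i)
      disj := fun i j hij x hx y hy => D.disj i j hij x (hmem i x hx) y (hmem j y hy)
      avoid := fun i x hx w => D.avoid i x (hmem i x hx) w }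
  have hends : ∀ (E : Drawing N L) (j : ι) (B : Arc L), B ∈ E.path j →
      (∀ p, p = B.p ∨ p = B.q → (∃ w, p = E.pos w) ∨ ∃ y ∈ E.inner j, p = y.2) := by
    intro E j B hB p hp
    rcases hp with rfl | rfl
    · rcases mem_arcs_p hB with h | h
      · exact Or.inl ⟨_, h⟩
      · exact Or.inr h
    · rcases mem_arcs_q hB with h | h
      · exact Or.inr h
      · exact Or.inl ⟨_, h⟩
  have hfresh : ∀ (E : Drawing N L) (i j : ι), i ≠ j → (∀ x ∈ D.inner i, ∀ w, x.2 ≠ E.pos w) →
      (∀ x ∈ D.inner i, ∀ y ∈ E.inner j, x.2 ≠ y.2) →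
      ∀ B ∈ E.path j, ∀ x ∈ D.inner i, x.2 ≠ B.p ∧ x.2 ≠ B.q := by
    intro E i j hij h1 h2 B hB x hx
    constructor
    · intro h
      rcases hends E j B hB _ (Or.inl rfl) with ⟨w, hw⟩ | ⟨y, hy, hy'⟩
      · exact h1 x hx w (h.trans hw)
      · exact h2 x hx y hy (h.trans hy')
    · intro h
      rcases hends E j B hB _ (Or.inr rfl) with ⟨w, hw⟩ | ⟨y, hy, hy'⟩
      · exact h1 x hx w (h.trans hw)
      · exact h2 x hx y hy (h.trans hy')
  refine ⟨D', ?_, hself, halt⟩
  unfold Drawing.dcr
  refine Finset.sum_le_sum fun i _ => Finset.sum_le_sum fun j _ => ?_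
  split
  · exact le_rfl
  · rename_i hij
    have h1 : crL (D'.path i) (D'.path j) ≤ crL (D.path i) (D'.path j) :=
      hQ i _ (hfresh D' i j hij (fun x hx w => D.avoid i x hx w)
        (fun x hx y hy => D.disj i j hij x hx y (hmem j y hy)))
    have h2 : crL (D'.path j) (D.path i) ≤ crL (D.path j) (D.path i) :=
      hQ j _ (hfresh D j i (Ne.symm hij) (fun x hx w => D.avoid j x hx w)
        (fun x hx y hy => D.disj j i (Ne.symm hij) x hx y hy))
    rw [crL_comm (D'.path j), crL_comm (D.path j)] at h2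
    exact h1.trans h2

/-- The topological and the polygonal crossing number of a finite graph agree. -/
theorem topCrossingNumber_eq {V : Type} [Fintype V] (G : SimpleGraph V) :
    topCrossingNumber G = crossingNumber G := by
  classical
  apply le_antisymm
  · obtain ⟨E, hE⟩ := exists_crossingNumber G
    rw [← hE]
    exact topCrossingNumber_le E
  · obtain ⟨E, hE⟩ := exists_topCrossingNumber G
    obtain ⟨N, hN⟩ := exists_rep G
    have hfin : Fintype G.edgeSet := Fintype.ofFinite _
    obtain ⟨W, hW⟩ := exists_weakPoly_of_top_proof hN E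
    obtain ⟨L', _, D₂, hD₂⟩ := exists_spine_of_weakPoly' hN.simple W
    obtain ⟨D₃, h1, h2, h3⟩ := exists_normal_drawing D₂
    obtain ⟨D', hD'⟩ := exists_poly_of_spine_proof hN D₃ h2 h3
    have := crossingNumber_le D'
    omega

end MP60f107

end

section

/-!
The final theorem for drawings with crossings only.
-/

namespace MP60f107

theorem exists_crossDrawing {V : Type} [Fintype V] (G : SimpleGraph V) :
    Nonempty (CrossDrawing G) := by
  obtain ⟨D⟩ := exists_polyDrawing G
  obtain ⟨D', -⟩ := exists_cross_of_poly D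
  exact ⟨D'⟩

theorem exists_cr {V : Type} [Fintype V] (G : SimpleGraph V) :
    ∃ D : CrossDrawing G, D.toTopDrawing.crossings = cr G := by
  have _ := exists_crossDrawing G
  exact Nat.sInf_mem (Set.range_nonempty _)

theorem cr_le {V : Type} [Fintype V] {G : SimpleGraph V} (D : PolyDrawing G) :
    cr G ≤ D.crossings := by
  obtain ⟨D', h⟩ := exists_cross_of_poly D
  rw [← h]
  exact Nat.sInf_le ⟨D', rfl⟩

theorem topCrossingNumber_le_cr {V : Type} [Fintype V] (G : SimpleGraph V) :
    topCrossingNumber G ≤ cr G := by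
  obtain ⟨D, h⟩ := exists_cr G
  rw [← h]
  exact Nat.sInf_le ⟨D.toTopDrawing, rfl⟩

/-- The three crossing numbers agree: touching edges do not help, and polygonal drawings suffice. -/
theorem cr_eq {V : Type} [Fintype V] (G : SimpleGraph V) :
    cr G = topCrossingNumber G ∧ cr G = crossingNumber G := by
  have h1 := topCrossingNumber_eq G
  have h2 := topCrossingNumber_le_cr G
  obtain ⟨D, h3⟩ := exists_crossingNumber G
  have h4 := cr_le D
  omega

/-- Main theorem. -/
theorem main_cr : ∃ c : ℝ, c < 1 ∧ ∀ (V : Type) [Fintype V] (G : SimpleGraph V) (u v : V),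
    u ≠ v → ¬ G.Adj u v →
    (cr (G ⊔ SimpleGraph.edge u v) : ℝ) ≤ cr G + c * G.edgeSet.ncard := by
  classical
  obtain ⟨M, hM⟩ := exists_key
  refine ⟨M / (M + 1), by rw [div_lt_one (by positivity)]; linarith, ?_⟩
  intro V _ G u v huv huv'
  obtain ⟨D', n, h1, h2, h3, -⟩ := hM V G u v huv huv'
  have h4 := frac_bound M _ n h1 h2
  have h5 : (cr (G ⊔ SimpleGraph.edge u v) : ℝ) ≤ cr G + n := by
    exact_mod_cast (cr_le D').trans (h3.trans (Nat.add_le_add_right (topCrossingNumber_le_cr G) n))
  linarith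

end MP60f107

end
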