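import Pool.Agent.Lib.MP_60f107_co.CrStatement

section

/-!
Spine drawings: definitions.

The spine is a linear order `L` (think of the x-axis).  A vertex is a point of the spine.  An edge is
a chain of half circles (arcs), each in the upper or the lower page, joining consecutive points of
the spine.  Two arcs cross iff they are in the same page and their end points interleave.
-/

namespace MP60f107

/-- A half circle in the upper (`up = true`) or lower page joining the points `p` and `q`. -/
structure Arc (L : Type) where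
  p : L
  q : L
  up : Bool

section order

variable {L : Type} [LinearOrder L]

/-- `c` lies strictly between `a` and `b`. -/
def Btw (a b c : L) : Prop := (a < c ∧ c < b) ∨ (b < c ∧ c < a)

/-- `c` lies strictly outside the interval between `a` and `b`. -/
def Ots (a b c : L) : Prop := (c < a ∧ c < b) ∨ (a < c ∧ b < c)

/-- The pairs `{a,b}` and `{c,d}` interleave. -/
def Ilv (a b c d : L) : Prop := (Btw a b c ∧ Ots a b d) ∨ (Ots a b c ∧ Btw a b d)

instance (a b c : L) : Decidable (Btw a b c) := by unfold Btw; infer_instance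
instance (a b c : L) : Decidable (Ots a b c) := by unfold Ots; infer_instance
instance (a b c d : L) : Decidable (Ilv a b c d) := by unfold Ilv; infer_instance

/-- The number of crossings (0 or 1) of two arcs. -/
def X (A B : Arc L) : ℕ := if A.up = B.up ∧ Ilv A.p A.q B.p B.q then 1 else 0

/-- The number of crossings of two lists of arcs. -/
def crL (P Q : List (Arc L)) : ℕ := (P.map fun A => (Q.map fun B => X A B).sum).sum

end order

/-- The arcs of the chain that starts at `a`, passes through the points of `r` (each entry of `r` is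
the page of the arc leading to the point, and the point) and ends at `b` with an arc in page `s`. -/
def arcs {L : Type} : L → List (Bool × L) → Bool → L → List (Arc L)
  | a, [], s, b => [⟨a, b, s⟩]
  | a, (s₁, p) :: r, s, b => ⟨a, p, s₁⟩ :: arcs p r s b

/-- The pages alternate along the chain. -/
def Alt {L : Type} : List (Bool × L) → Bool → Prop
  | [], _ => True
  | [(s₁, _)], s => s₁ ≠ s
  | (s₁, _) :: (s₂, p) :: r, s => s₁ ≠ s₂ ∧ Alt ((s₂, p) :: r) s

/-- An (oriented) multigraph: vertices `V`, edges `ι`. -/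
structure Net (V ι : Type) where
  src : ι → V
  tgt : ι → V

/-- No loops, no parallel edges. -/
structure Net.Simple {V ι : Type} (N : Net V ι) : Prop where
  loopless : ∀ i, N.src i ≠ N.tgt i
  inj : ∀ i j, s(N.src i, N.tgt i) = s(N.src j, N.tgt j) → i = j

/-- The edge `i` is incident with the vertex `w`. -/
def Net.Inc {V ι : Type} (N : Net V ι) (i : ι) (w : V) : Prop := N.src i = w ∨ N.tgt i = w

/-- A drawing of `N` on the spine `L`: the inner points of the edges are distinct from each other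
and from the vertices. -/
structure Drawing {V ι : Type} (N : Net V ι) (L : Type) [LinearOrder L] where
  pos : V → L
  inner : ι → List (Bool × L)
  last : ι → Bool
  pos_inj : Function.Injective pos
  nodup : ∀ i, ((inner i).map Prod.snd).Nodup
  disj : ∀ i j, i ≠ j → ∀ x ∈ inner i, ∀ y ∈ inner j, x.2 ≠ y.2
  avoid : ∀ i, ∀ x ∈ inner i, ∀ w, x.2 ≠ pos w

namespace Drawing

variable {V ι : Type} {N : Net V ι} {L : Type} [LinearOrder L]

/-- The list of arcs of the edge `i`. -/
def path (D : Drawing N L) (i : ι) : List (Arc L) :=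
  arcs (D.pos (N.src i)) (D.inner i) (D.last i) (D.pos (N.tgt i))

/-- Twice the number of crossings (sum over ordered pairs of distinct edges). -/
def dcr [Fintype ι] [DecidableEq ι] (D : Drawing N L) : ℕ :=
  ∑ i, ∑ j, if i = j then 0 else crL (D.path i) (D.path j)

/-- `u` is to the left of `v` and no vertex lies between them. -/
def NF (D : Drawing N L) (u v : V) : Prop :=
  D.pos u < D.pos v ∧ ∀ w, ¬ (D.pos u < D.pos w ∧ D.pos w < D.pos v)

/-- Number of inner points of `i` strictly between `u` and `v`. -/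
def rowsOf (D : Drawing N L) (u v : V) (i : ι) : ℕ :=
  (D.inner i).countP (fun x => D.pos u < x.2 ∧ x.2 < D.pos v)

/-- Number of inner points strictly between `u` and `v`. -/
def rows [Fintype ι] (D : Drawing N L) (u v : V) : ℕ := ∑ i, D.rowsOf u v i

/-- Total number of inner points. -/
def size [Fintype ι] (D : Drawing N L) : ℕ := ∑ i, (D.inner i).length

/-- The drawing is optimal for `N`. -/
def Opt [Fintype ι] [DecidableEq ι] (D : Drawing N L) : Prop :=
  ∀ (L' : Type) [LinearOrder L'] (D' : Drawing N L'), D.dcr ≤ D'.dcr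

/-- Optimal, in normal form for `u,v`, with the least number of rows, and then with the least number
of inner points. -/
structure Good [Fintype ι] [DecidableEq ι] (D : Drawing N L) (u v : V) : Prop where
  nf : D.NF u v
  opt : D.Opt
  row_min : ∀ (L' : Type) [LinearOrder L'] (D' : Drawing N L'), D'.NF u v → D'.dcr ≤ D.dcr →
    D.rows u v ≤ D'.rows u v
  pt_min : ∀ (L' : Type) [LinearOrder L'] (D' : Drawing N L'), D'.NF u v → D'.dcr ≤ D.dcr →
    D'.rows u v ≤ D.rows u v → D.size ≤ D'.size

end Drawing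

end MP60f107

end

section

/-!
Polygonal drawings in the plane and the crossing number of a simple graph.
-/

namespace MP60f107

/-- Consecutive pairs of a list of points. -/
def consec {P : Type} : List P → List (P × P)
  | [] => []
  | [_] => []
  | a :: b :: r => (a, b) :: consec (b :: r)

/-- A polygonal drawing of the graph `G` in the plane, in general position.  The vertex `a` is the
point `pos a`; the edge `ab` is the polygonal arc from `pos a` through the bends `bends a b` to
`pos b`. -/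
structure PolyDrawing {V : Type} (G : SimpleGraph V) where
  pos : V → Plane
  bends : V → V → List Plane
  bends_symm : ∀ a b, bends b a = (bends a b).reverse
  /-- vertices are distinct points -/
  pos_inj : Function.Injective pos
  /-- the bends of an edge are distinct points -/
  nodup : ∀ a b, G.Adj a b → (bends a b).Nodup
  /-- bends are not vertices -/
  avoid : ∀ a b, G.Adj a b → ∀ x ∈ bends a b, ∀ w, x ≠ pos w
  /-- bends of different edges are distinct points -/
  disj : ∀ a b c d, G.Adj a b → G.Adj c d → s(a, b) ≠ s(c, d) →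
    ∀ x ∈ bends a b, x ∉ bends c d
  /-- no vertex lies in the interior of a segment -/
  pos_avoid : ∀ a b, G.Adj a b → ∀ s ∈ consec (pos a :: (bends a b ++ [pos b])),
    ∀ w, pos w ∉ openSegment ℝ s.1 s.2
  /-- no bend lies in the interior of a segment -/
  bend_avoid : ∀ a b c d, G.Adj a b → G.Adj c d →
    ∀ s ∈ consec (pos a :: (bends a b ++ [pos b])), ∀ x ∈ bends c d, x ∉ openSegment ℝ s.1 s.2
  /-- every edge is a simple arc: different segments of an edge do not cross -/
  simple : ∀ a b, G.Adj a b →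
    (consec (pos a :: (bends a b ++ [pos b]))).Pairwise
      (fun s t => Disjoint (openSegment ℝ s.1 s.2) (openSegment ℝ t.1 t.2))

namespace PolyDrawing

variable {V : Type} {G : SimpleGraph V} (D : PolyDrawing G)

/-- The polygonal arc from `a` to `b`, as a set of points. -/
def arcSet (a b : V) : Set Plane :=
  {x | ∃ s ∈ consec (D.pos a :: (D.bends a b ++ [D.pos b])), x ∈ segment ℝ s.1 s.2}

/-- The crossings of the drawing: a point that is not a vertex, together with an unordered pair of
different edges passing through this point. -/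
def crossingSet : Set (Plane × Sym2 (Sym2 V)) :=
  {z | (∀ w, z.1 ≠ D.pos w) ∧ ∃ a b c d, G.Adj a b ∧ G.Adj c d ∧ s(a, b) ≠ s(c, d) ∧
    z.2 = s(s(a, b), s(c, d)) ∧ z.1 ∈ D.arcSet a b ∧ z.1 ∈ D.arcSet c d}

/-- The number of crossings. -/
noncomputable def crossings : ℕ := D.crossingSet.ncard

end PolyDrawing

/-- The crossing number of a graph: the least number of crossings of a drawing. -/
noncomputable def crossingNumber {V : Type} (G : SimpleGraph V) : ℕ :=
  sInf (Set.range fun D : PolyDrawing G => D.crossings)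

/-- The net `N` is an orientation of the simple graph `G`. -/
structure Net.Rep {V ι : Type} (N : Net V ι) (G : SimpleGraph V) : Prop where
  simple : N.Simple
  adj : ∀ a b, G.Adj a b ↔ ∃ i, s(N.src i, N.tgt i) = s(a, b)



end MP60f107

end

section

namespace MP60f107

/-- A weak polygonal drawing of a net: polygonal edges with at least one bend, all nodes distinct, no node in
the interior of a segment (self crossings allowed). -/
structure WeakPoly {V ι : Type} (N : Net V ι) where
  pos : V → Plane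
  bends : ι → List Plane
  pos_inj : Function.Injective pos
  nodup : ∀ i, (bends i).Nodup
  avoid : ∀ i, ∀ x ∈ bends i, ∀ w, x ≠ pos w
  disj : ∀ i j, i ≠ j → ∀ x ∈ bends i, x ∉ bends j
  pos_avoid : ∀ i, ∀ s ∈ consec (pos (N.src i) :: (bends i ++ [pos (N.tgt i)])),
    ∀ w, pos w ∉ openSegment ℝ s.1 s.2
  bend_avoid : ∀ i j, ∀ s ∈ consec (pos (N.src i) :: (bends i ++ [pos (N.tgt i)])),
    ∀ x ∈ bends j, x ∉ openSegment ℝ s.1 s.2

namespace WeakPoly

variable {V ι : Type} {N : Net V ι} (W : WeakPoly N)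

/-- The segments of an edge. -/
def segs (i : ι) : List (Plane × Plane) := consec (W.pos (N.src i) :: (W.bends i ++ [W.pos (N.tgt i)]))

open Classical in
/-- Number of crossing pairs of segments of two edges. -/
noncomputable def cr (i j : ι) : ℕ :=
  ((W.segs i).map fun s => (W.segs j).countP
    (fun t => ¬ Disjoint (openSegment ℝ s.1 s.2) (openSegment ℝ t.1 t.2))).sum

end WeakPoly




end MP60f107

end

section

/-!
P1. Every polygonal drawing gives a spine drawing with at most as many crossings.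
-/

namespace MP60f107

namespace P1

/-- The generic linear functional. -/
def phi (e : ℝ) (p : Plane) : ℝ := p.1 + e * p.2

/-- Rank of a real number among the lanes. -/
noncomputable def rk (Z : Finset ℝ) (c : ℝ) : ℕ := (Z.filter (· < c)).card

/-- Elementary piece: a segment between two neighbouring lanes. -/
def Elem (Z : Finset ℝ) (e : ℝ) (s : Plane × Plane) : Prop :=
  phi e s.1 ∈ Z ∧ phi e s.2 ∈ Z ∧ phi e s.1 ≠ phi e s.2 ∧
    ∀ z ∈ Z, ¬ Btw (phi e s.1) (phi e s.2) z

/-- The page of a piece. -/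
noncomputable def pg (Z : Finset ℝ) (e : ℝ) (s : Plane × Plane) : Bool :=
  decide (Even (rk Z (min (phi e s.1) (phi e s.2))))

/-- The position on the spine of a point. -/
noncomputable def sp (Z : Finset ℝ) (e : ℝ) (p : Plane) : ℝ ×ₗ ℝ :=
  toLex (phi e p, if Even (rk Z (phi e p)) then p.2 else - p.2)

/-- The arc of a piece. -/
noncomputable def arc (Z : Finset ℝ) (e : ℝ) (s : Plane × Plane) : Arc (ℝ ×ₗ ℝ) :=
  ⟨sp Z e s.1, sp Z e s.2, pg Z e s⟩

theorem phi_lineMap (e : ℝ) (p q : Plane) (t : ℝ) :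
    phi e (AffineMap.lineMap p q t) = (1 - t) * phi e p + t * phi e q := by
  simp [phi, AffineMap.lineMap_apply]
  ring

theorem lineMap_snd (p q : Plane) (t : ℝ) :
    (AffineMap.lineMap p q t : Plane).2 = (1 - t) * p.2 + t * q.2 := by
  simp [AffineMap.lineMap_apply]
  ring

theorem ext_phi {e : ℝ} {p q : Plane} (h : phi e p = phi e q) (h2 : p.2 = q.2) : p = q := by
  have : p.1 = q.1 := by
    unfold phi at h
    rw [h2] at h
    linarith only [h]
  exact Prod.ext this h2

theorem sp_inj (Z : Finset ℝ) (e : ℝ) : Function.Injective (sp Z e) := by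
  intro p q h
  have h' : (phi e p, if Even (rk Z (phi e p)) then p.2 else - p.2)
      = (phi e q, if Even (rk Z (phi e q)) then q.2 else - q.2) := toLex.injective h
  rw [Prod.ext_iff] at h'
  obtain ⟨h1, h2⟩ := h'
  simp only at h1 h2
  rw [h1] at h2
  apply ext_phi h1
  split_ifs at h2
  · exact h2
  · linarith only [h2]

theorem rk_succ {Z : Finset ℝ} {c d : ℝ} (hc : c ∈ Z) (hcd : c < d)
    (h : ∀ z ∈ Z, ¬ (c < z ∧ z < d)) : rk Z d = rk Z c + 1 := by
  unfold rk
  have : Z.filter (· < d) = insert c (Z.filter (· < c)) := by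
    ext z
    simp only [Finset.mem_filter, Finset.mem_insert]
    constructor
    · rintro ⟨hz, hzd⟩
      rcases lt_trichotomy z c with h1 | h1 | h1
      · exact Or.inr ⟨hz, h1⟩
      · exact Or.inl h1
      · exact absurd ⟨h1, hzd⟩ (h z hz)
    · rintro (h1 | ⟨hz, h1⟩)
      · subst h1
        exact ⟨hc, hcd⟩
      · exact ⟨hz, h1.trans hcd⟩
  rw [this, Finset.card_insert_of_notMem]
  simp

theorem Btw_symm {L : Type} [LinearOrder L] {a b c : L} : Btw a b c ↔ Btw b a c := by
  unfold Btw
  tauto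

theorem Ots_symm {L : Type} [LinearOrder L] {a b c : L} : Ots a b c ↔ Ots b a c := by
  unfold Ots
  tauto

theorem Ilv_symm_left {L : Type} [LinearOrder L] {a b c d : L} : Ilv a b c d ↔ Ilv b a c d := by
  unfold Ilv
  rw [Btw_symm (a := a), Btw_symm (a := a), Ots_symm (a := a), Ots_symm (a := a)]

theorem Ilv_symm_right {L : Type} [LinearOrder L] {a b c d : L} : Ilv a b c d ↔ Ilv a b d c := by
  unfold Ilv
  tauto

theorem Elem.swap {Z : Finset ℝ} {e : ℝ} {p q : Plane} (h : Elem Z e (p, q)) : Elem Z e (q, p) := by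
  obtain ⟨h1, h2, h3, h4⟩ := h
  exact ⟨h2, h1, h3.symm, fun z hz hb => h4 z hz (Btw_symm.1 hb)⟩

theorem lt_sp {Z : Finset ℝ} {e : ℝ} {p q : Plane} (h : phi e p < phi e q) : sp Z e p < sp Z e q := by
  unfold sp
  rw [Prod.Lex.toLex_lt_toLex]
  exact Or.inl h

/-- main case -/
theorem cross_aux {Z : Finset ℝ} {e : ℝ} {p q p' q' : Plane} (hs : Elem Z e (p, q))
    (ht : Elem Z e (p', q')) (h1 : phi e p < phi e q) (h2 : phi e p' < phi e q')
    (hpg : pg Z e (p, q) = pg Z e (p', q'))
    (hI : Ilv (sp Z e p) (sp Z e q) (sp Z e p') (sp Z e q')) :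
    ∃ x, x ∈ openSegment ℝ p q ∧ x ∈ openSegment ℝ p' q' ∧ phi e x ∉ Z := by
  obtain ⟨hs1, hs2, -, hs4⟩ := hs
  obtain ⟨ht1, ht2, -, ht4⟩ := ht
  simp only at hs1 hs2 hs4 ht1 ht2 ht4
  have hpar : (Even (rk Z (phi e p)) ↔ Even (rk Z (phi e p'))) := by
    unfold pg at hpg
    simp only [min_eq_left h1.le, min_eq_left h2.le] at hpg
    simpa using hpg
  have hb1 : ∀ z ∈ Z, ¬ (phi e p < z ∧ z < phi e q) := fun z hz h => hs4 z hz (Or.inl h)
  have hb2 : ∀ z ∈ Z, ¬ (phi e p' < z ∧ z < phi e q') := fun z hz h => ht4 z hz (Or.inl h)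
  have hr1 := rk_succ hs1 h1 hb1
  have hr2 := rk_succ ht1 h2 hb2
  have s1 : sp Z e p < sp Z e q := lt_sp h1
  have s2 : sp Z e p' < sp Z e q' := lt_sp h2
  -- same left lane
  have hl : phi e p = phi e p' := by
    rcases lt_trichotomy (phi e p) (phi e p') with h | h | h
    · exfalso
      have h3 : phi e q ≤ phi e p' := by
        by_contra hc
        exact hb1 _ ht1 ⟨h, not_le.1 hc⟩
      rcases h3.lt_or_eq with h3 | h3
      · have s3 : sp Z e q < sp Z e p' := lt_sp h3
        rcases hI with ⟨hB, hO⟩ | ⟨hO, hB⟩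
        · rcases hB with hB | hB
          · exact absurd (hB.2.trans s3) (lt_irrefl _)
          · exact absurd (hB.1.trans (hB.2.trans s1)) (lt_irrefl _)
        · rcases hB with hB | hB
          · exact absurd (hB.2.trans (s3.trans s2)) (lt_irrefl _)
          · exact absurd (hB.1.trans (hB.2.trans s1)) (lt_irrefl _)
      · rw [← h3, hr1] at hpar
        rw [Nat.even_add_one] at hpar
        tauto
    · exact h
    · exfalso
      have h3 : phi e q' ≤ phi e p := by
        by_contra hc
        exact hb2 _ hs1 ⟨h, not_le.1 hc⟩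
      rcases h3.lt_or_eq with h3 | h3
      · have s3 : sp Z e q' < sp Z e p := lt_sp h3
        rcases hI with ⟨hB, hO⟩ | ⟨hO, hB⟩
        · rcases hB with hB | hB
          · exact absurd (hB.1.trans (s2.trans s3)) (lt_irrefl _)
          · exact absurd (hB.1.trans (s2.trans (s3.trans s1))) (lt_irrefl _)
        · rcases hB with hB | hB
          · exact absurd (hB.1.trans s3) (lt_irrefl _)
          · exact absurd (hB.1.trans (s3.trans s1)) (lt_irrefl _)
      · rw [← h3, hr2] at hpar
        rw [Nat.even_add_one] at hpar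
        tauto
  have hr : phi e q = phi e q' := by
    rcases lt_trichotomy (phi e q) (phi e q') with h | h | h
    · exact absurd ⟨hl ▸ h1, h⟩ (hb2 _ hs2)
    · exact h
    · exact absurd ⟨hl ▸ h2, h⟩ (hb1 _ ht2)
  -- order reversal
  have hrev : (p.2 - p'.2) * (q.2 - q'.2) < 0 := by
    have e1 : rk Z (phi e p') = rk Z (phi e p) := by rw [hl]
    have e2 : rk Z (phi e q') = rk Z (phi e q) := by rw [hr]
    have key : ∀ {a b : Plane}, phi e a = phi e b → (sp Z e a < sp Z e b ↔
        (if Even (rk Z (phi e a)) then a.2 else -a.2) < (if Even (rk Z (phi e a)) then b.2 else -b.2)) := by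
      intro a b hab
      unfold sp
      rw [Prod.Lex.toLex_lt_toLex, ← hab]
      simp
    have kp := key hl
    have kp' := key hl.symm
    have kq := key hr
    have kq' := key hr.symm
    rw [e1] at kp'
    rw [e2] at kq'
    rw [hr1] at kq kq'
    have s3 : sp Z e p < sp Z e q' := lt_sp (hr ▸ h1)
    have s4 : sp Z e p' < sp Z e q := lt_sp (hr ▸ h2)
    rcases hI with ⟨hB, hO⟩ | ⟨hO, hB⟩
    · have a1 : sp Z e p < sp Z e p' := by
        rcases hB with hB | hB
        · exact hB.1
        · exact absurd (hB.1.trans (hB.2.trans s1)) (lt_irrefl _)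
      have a2 : sp Z e q < sp Z e q' := by
        rcases hO with hO | hO
        · exact absurd (hO.1.trans s3) (lt_irrefl _)
        · exact hO.2
      rw [kp] at a1
      rw [kq] at a2
      by_cases hev : Even (rk Z (phi e p))
      · simp only [hev, if_true, Nat.even_add_one, not_true, if_false] at a1 a2
        nlinarith only [a1, a2]
      · simp only [hev, if_false, Nat.even_add_one, not_false_iff, if_true] at a1 a2
        nlinarith only [a1, a2]
    · have a1 : sp Z e p' < sp Z e p := by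
        rcases hO with hO | hO
        · exact hO.1
        · exact absurd (hO.2.trans s4) (lt_irrefl _)
      have a2 : sp Z e q' < sp Z e q := by
        rcases hB with hB | hB
        · exact hB.2
        · exact absurd (hB.1.trans (hB.2.trans s1)) (lt_irrefl _)
      rw [kp'] at a1
      rw [kq'] at a2
      by_cases hev : Even (rk Z (phi e p))
      · simp only [hev, if_true, Nat.even_add_one, not_true, if_false] at a1 a2
        nlinarith only [a1, a2]
      · simp only [hev, if_false, Nat.even_add_one, not_false_iff, if_true] at a1 a2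
        nlinarith only [a1, a2]
  -- the crossing point
  set u := p.2 - p'.2 with hu
  set v := q.2 - q'.2 with hv
  have huv : u - v ≠ 0 := by
    intro h
    have : u = v := by linarith only [h]
    rw [this] at hrev
    nlinarith [mul_self_nonneg v]
  set t := u / (u - v) with ht'
  have ht0 : 0 < t := by
    rw [ht']
    rcases lt_or_gt_of_ne huv with h | h
    · apply div_pos_of_neg_of_neg _ h
      by_contra hc
      push Not at hc
      have : 0 < v := by linarith only [h, hc]
      nlinarith only [hrev, hc, this]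
    · apply div_pos _ h
      by_contra hc
      push Not at hc
      have : v < 0 := by linarith only [h, hc]
      nlinarith only [hrev, hc, this]
  have ht1' : t < 1 := by
    rw [ht']
    rcases lt_or_gt_of_ne huv with h | h
    · rw [div_lt_one_of_neg h]
      by_contra hc
      push Not at hc
      have : u ≤ v := by linarith only [h]
      have h3 : v ≤ 0 := by linarith only [hc]
      nlinarith only [hrev, this, h3]
    · rw [div_lt_one h]
      by_contra hc
      push Not at hc
      have h3 : 0 ≤ v := by linarith only [hc]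
      nlinarith only [hrev, h, h3]
  have hmem : ∀ a b : Plane, (AffineMap.lineMap a b t : Plane) ∈ openSegment ℝ a b := by
    intro a b
    rw [openSegment_eq_image_lineMap]
    exact ⟨t, ⟨ht0, ht1'⟩, rfl⟩
  refine ⟨AffineMap.lineMap p q t, hmem p q, ?_, ?_⟩
  · have : (AffineMap.lineMap p q t : Plane) = AffineMap.lineMap p' q' t := by
      apply ext_phi (e := e)
      · rw [phi_lineMap, phi_lineMap, hl, hr]
      · rw [lineMap_snd, lineMap_snd]
        have : (1 - t) * u + t * v = 0 := by
          rw [ht']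
          field_simp
          ring
        rw [hu, hv] at this
        linarith only [this]
    rw [this]
    exact hmem p' q'
  · intro hZ
    apply hb1 _ hZ
    rw [phi_lineMap]
    constructor <;> nlinarith only [h1, ht0, ht1']

theorem cross {Z : Finset ℝ} {e : ℝ} {s t : Plane × Plane} (hs : Elem Z e s) (ht : Elem Z e t)
    (hX : X (arc Z e s) (arc Z e t) ≠ 0) :
    ∃ x, x ∈ openSegment ℝ s.1 s.2 ∧ x ∈ openSegment ℝ t.1 t.2 ∧ phi e x ∉ Z := by
  obtain ⟨p, q⟩ := s
  obtain ⟨p', q'⟩ := t
  simp only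
  unfold X arc at hX
  simp only [ne_eq, ite_eq_right_iff, one_ne_zero, imp_false, not_not] at hX
  obtain ⟨hpg, hI⟩ := hX
  have hpgs : ∀ a b : Plane, pg Z e (a, b) = pg Z e (b, a) := by
    intro a b
    unfold pg
    rw [min_comm]
  rcases lt_or_gt_of_ne hs.2.2.1 with h1 | h1 <;> rcases lt_or_gt_of_ne ht.2.2.1 with h2 | h2
  · exact cross_aux hs ht h1 h2 hpg hI
  · obtain ⟨x, hx1, hx2, hx3⟩ := cross_aux hs ht.swap h1 h2 (hpg.trans (hpgs _ _)) (Ilv_symm_right.1 hI)
    exact ⟨x, hx1, by rwa [openSegment_symm], hx3⟩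
  · obtain ⟨x, hx1, hx2, hx3⟩ := cross_aux hs.swap ht h1 h2 ((hpgs _ _).trans hpg) (Ilv_symm_left.1 hI)
    exact ⟨x, by rwa [openSegment_symm], hx2, hx3⟩
  · obtain ⟨x, hx1, hx2, hx3⟩ := cross_aux hs.swap ht.swap h1 h2 ((hpgs _ _).trans (hpg.trans (hpgs _ _)))
      (Ilv_symm_left.1 (Ilv_symm_right.1 hI))
    exact ⟨x, by rwa [openSegment_symm], by rwa [openSegment_symm], hx3⟩

/-! ### Generic functional -/

theorem exists_generic {F : Set Plane} (hF : F.Finite) :
    ∃ e : ℝ, ∀ p ∈ F, ∀ q ∈ F, phi e p = phi e q → p = q := by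
  have hfin : (⋃ p ∈ F, ⋃ q ∈ F, {e : ℝ | p ≠ q ∧ phi e p = phi e q}).Finite := by
    refine hF.biUnion fun p _ => hF.biUnion fun q _ => Set.Subsingleton.finite ?_
    rintro e ⟨hne, he⟩ e' ⟨-, he'⟩
    unfold phi at he he'
    have h2 : p.2 ≠ q.2 := by
      intro h
      rw [h] at he
      exact hne (Prod.ext (by linarith only [he]) h)
    have h3 : (e - e') * (p.2 - q.2) = 0 := by linarith only [he, he']
    rcases mul_eq_zero.1 h3 with h | h
    · linarith only [h]
    · exact absurd (sub_eq_zero.1 h) h2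
  obtain ⟨e, he⟩ := hfin.infinite_compl.nonempty
  refine ⟨e, fun p hp q hq h => ?_⟩
  by_contra hne
  apply he
  simp only [Set.mem_iUnion]
  exact ⟨p, hp, q, hq, hne, h⟩

/-! ### Points of a segment -/

theorem phi_btw {e : ℝ} {p q x : Plane} (h : phi e p ≠ phi e q) (hx : x ∈ openSegment ℝ p q) :
    Btw (phi e p) (phi e q) (phi e x) := by
  rw [openSegment_eq_image_lineMap] at hx
  obtain ⟨t, ⟨h0, h1⟩, rfl⟩ := hx
  rw [phi_lineMap]
  rcases lt_or_gt_of_ne h with h | h
  · left
    constructor <;> nlinarith only [h0, h, h1]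
  · right
    constructor <;> nlinarith only [h1, h, h0]

theorem openSegment_left {p q x : Plane} (hx : x ∈ openSegment ℝ p q) :
    openSegment ℝ p x ⊆ openSegment ℝ p q := by
  rw [openSegment_eq_image_lineMap] at hx
  obtain ⟨t, ⟨h0, h1⟩, rfl⟩ := hx
  intro y hy
  rw [openSegment_eq_image_lineMap] at hy ⊢
  obtain ⟨s, ⟨hs0, hs1⟩, rfl⟩ := hy
  refine ⟨s * t, ⟨by positivity, by nlinarith only [h1, hs0, hs1]⟩, ?_⟩
  simp [AffineMap.lineMap_apply, mul_smul]

theorem openSegment_right {p q x : Plane} (hx : x ∈ openSegment ℝ p q) :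
    openSegment ℝ x q ⊆ openSegment ℝ p q := by
  rw [openSegment_symm ℝ x q, openSegment_symm ℝ p q]
  rw [openSegment_symm] at hx
  exact openSegment_left hx

/-! ### Refinement -/

theorem consec_append {P : Type} (l : List P) (m : P) (r : List P) :
    consec (l ++ m :: r) = consec (l ++ [m]) ++ consec (m :: r) := by
  induction l with
  | nil => simp [consec]
  | cons a l ih =>
    cases l with
    | nil => simp [consec]
    | cons b l =>
      simp only [List.cons_append, consec]
      rw [← List.cons_append, ih]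
      simp

/-- The relation of having disjoint interiors. -/
def Dj (s t : Plane × Plane) : Prop := Disjoint (openSegment ℝ s.1 s.2) (openSegment ℝ t.1 t.2)

/-- `M` is the list of the points on lanes of the segment from `p` to `q`. -/
structure Mid (Z : Finset ℝ) (e : ℝ) (p q : Plane) (M : List Plane) : Prop where
  mem : ∀ x ∈ M, x ∈ openSegment ℝ p q ∧ phi e x ∈ Z
  elem : ∀ s ∈ consec (p :: (M ++ [q])), Elem Z e s
  sub : ∀ s ∈ consec (p :: (M ++ [q])), openSegment ℝ s.1 s.2 ⊆ openSegment ℝ p q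
  disj : (consec (p :: (M ++ [q]))).Pairwise Dj
  nodup : M.Nodup

theorem exists_mid (Z : Finset ℝ) (e : ℝ) : ∀ (n : ℕ) (p q : Plane), phi e p ≠ phi e q →
    phi e p ∈ Z → phi e q ∈ Z → (Z.filter (fun z => Btw (phi e p) (phi e q) z)).card = n →
    ∃ M, Mid Z e p q M := by
  intro n
  induction n using Nat.strong_induction_on with
  | _ n ih =>
    intro p q hpq hp hq hn
    by_cases hz : ∀ z ∈ Z, ¬ Btw (phi e p) (phi e q) z
    · refine ⟨[], ⟨by simp, ?_, ?_, ?_, by simp⟩⟩
      · simp only [List.nil_append, consec, List.mem_singleton, forall_eq]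
        exact ⟨hp, hq, hpq, hz⟩
      · simp [consec]
      · simp [consec]
    · push Not at hz
      obtain ⟨z, hzZ, hzb⟩ := hz
      obtain ⟨m, hm, hmz⟩ : ∃ m ∈ openSegment ℝ p q, phi e m = z := by
        have hne : phi e q - phi e p ≠ 0 := sub_ne_zero.2 hpq.symm
        refine ⟨AffineMap.lineMap p q ((z - phi e p) / (phi e q - phi e p)), ?_, ?_⟩
        · rw [openSegment_eq_image_lineMap]
          refine ⟨_, ?_, rfl⟩
          rcases hzb with h | h
          · have : 0 < phi e q - phi e p := by linarith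
            constructor
            · exact div_pos (by linarith) this
            · rw [div_lt_one this]
              linarith
          · have : phi e q - phi e p < 0 := by linarith
            constructor
            · exact div_pos_of_neg_of_neg (by linarith) this
            · rw [div_lt_one_of_neg this]
              linarith
        · rw [phi_lineMap]
          field_simp
          ring
      have hbm : Btw (phi e p) (phi e q) (phi e m) := hmz ▸ hzb
      have h1 : phi e p ≠ phi e m := by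
        rcases hbm with h | h
        · exact h.1.ne
        · exact h.2.ne'
      have h2 : phi e m ≠ phi e q := by
        rcases hbm with h | h
        · exact h.2.ne
        · exact h.1.ne'
      have hmZ : phi e m ∈ Z := hmz ▸ hzZ
      have c1 : (Z.filter (fun z => Btw (phi e p) (phi e m) z)).card < n := by
        rw [← hn]
        apply Finset.card_lt_card
        rw [Finset.ssubset_iff_of_subset]
        · refine ⟨phi e m, ?_, ?_⟩
          · simp [hmZ, hbm]
          · rw [Finset.mem_filter]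
            rintro ⟨-, h | h⟩
            · exact lt_irrefl _ h.2
            · exact lt_irrefl _ h.1
        · intro w hw
          simp only [Finset.mem_filter] at hw ⊢
          refine ⟨hw.1, ?_⟩
          rcases hbm with h | h <;> rcases hw.2 with h' | h'
          · exact Or.inl ⟨h'.1, h'.2.trans h.2⟩
          · exact absurd (h'.1.trans (h'.2.trans h.1)) (lt_irrefl _)
          · exact absurd (h'.1.trans (h'.2.trans h.2)) (lt_irrefl _)
          · exact Or.inr ⟨h.1.trans h'.1, h'.2⟩
      have c2 : (Z.filter (fun z => Btw (phi e m) (phi e q) z)).card < n := by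
        rw [← hn]
        apply Finset.card_lt_card
        rw [Finset.ssubset_iff_of_subset]
        · refine ⟨phi e m, ?_, ?_⟩
          · simp [hmZ, hbm]
          · rw [Finset.mem_filter]
            rintro ⟨-, h | h⟩
            · exact lt_irrefl _ h.1
            · exact lt_irrefl _ h.2
        · intro w hw
          simp only [Finset.mem_filter] at hw ⊢
          refine ⟨hw.1, ?_⟩
          rcases hbm with h | h <;> rcases hw.2 with h' | h'
          · exact Or.inl ⟨h.1.trans h'.1, h'.2⟩
          · exact absurd (h'.1.trans (h'.2.trans h.2)) (lt_irrefl _)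
          · exact absurd (h'.1.trans (h'.2.trans h.1)) (lt_irrefl _)
          · exact Or.inr ⟨h'.1, h'.2.trans h.2⟩
      obtain ⟨M1, hM1⟩ := ih _ c1 p m h1 hp hmZ rfl
      obtain ⟨M2, hM2⟩ := ih _ c2 m q h2 hmZ hq rfl
      have hl := openSegment_left hm
      have hr := openSegment_right hm
      have hcs : consec (p :: ((M1 ++ m :: M2) ++ [q])) =
          consec (p :: (M1 ++ [m])) ++ consec (m :: (M2 ++ [q])) := by
        have := consec_append (p :: M1) m (M2 ++ [q])
        simpa using this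
      have hdd : Disjoint (openSegment ℝ p m) (openSegment ℝ m q) := by
        rw [Set.disjoint_left]
        intro x hx1 hx2
        have b1 := phi_btw h1 hx1
        have b2 := phi_btw h2 hx2
        rcases hbm with h | h <;> rcases b1 with b1 | b1 <;> rcases b2 with b2 | b2 <;> linarith
      refine ⟨M1 ++ m :: M2, ⟨?_, ?_, ?_, ?_, ?_⟩⟩
      · intro x hx
        rw [List.mem_append, List.mem_cons] at hx
        rcases hx with hx | rfl | hx
        · exact ⟨hl (hM1.mem x hx).1, (hM1.mem x hx).2⟩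
        · exact ⟨hm, hmZ⟩
        · exact ⟨hr (hM2.mem x hx).1, (hM2.mem x hx).2⟩
      · intro s hs
        rw [hcs, List.mem_append] at hs
        rcases hs with hs | hs
        · exact hM1.elem s hs
        · exact hM2.elem s hs
      · intro s hs
        rw [hcs, List.mem_append] at hs
        rcases hs with hs | hs
        · exact (hM1.sub s hs).trans hl
        · exact (hM2.sub s hs).trans hr
      · rw [hcs, List.pairwise_append]
        refine ⟨hM1.disj, hM2.disj, fun s hs t ht => ?_⟩
        exact Set.disjoint_of_subset (hM1.sub s hs) (hM2.sub t ht) hdd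
      · rw [List.nodup_append]
        refine ⟨hM1.nodup, ?_, ?_⟩
        · rw [List.nodup_cons]
          refine ⟨fun h => ?_, hM2.nodup⟩
          have := phi_btw h2 (hM2.mem m h).1
          rcases this with h | h
          · exact lt_irrefl _ h.1
          · exact lt_irrefl _ h.2
        · intro x hx y hy hxy
          subst hxy
          rw [List.mem_cons] at hy
          rcases hy with rfl | hy
          · have := phi_btw h1 (hM1.mem x hx).1
            rcases this with h | h
            · exact lt_irrefl _ h.2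
            · exact lt_irrefl _ h.1
          · exact Set.disjoint_left.1 hdd (hM1.mem x hx).1 (hM2.mem x hy).1

open scoped Classical in
/-- The chosen list of intermediate points. -/
noncomputable def mid (Z : Finset ℝ) (e : ℝ) (p q : Plane) : List Plane :=
  if h : ∃ M, Mid Z e p q M then h.choose else []

theorem mid_spec {Z : Finset ℝ} {e : ℝ} {p q : Plane} (h : phi e p ≠ phi e q) (hp : phi e p ∈ Z)
    (hq : phi e q ∈ Z) : Mid Z e p q (mid Z e p q) := by
  have := exists_mid Z e _ p q h hp hq rfl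
  unfold mid
  rw [dif_pos this]
  exact this.choose_spec

/-- The inner points of the refinement of the polyline `p, r, q`. -/
noncomputable def rfi (Z : Finset ℝ) (e : ℝ) : Plane → List Plane → Plane → List Plane
  | p, [], q => mid Z e p q
  | p, x :: r, q => mid Z e p x ++ x :: rfi Z e x r q

theorem consec_rfi (Z : Finset ℝ) (e : ℝ) (p : Plane) (r : List Plane) (q : Plane) :
    consec (p :: (rfi Z e p r q ++ [q])) =
      (consec (p :: (r ++ [q]))).flatMap fun s => consec (s.1 :: (mid Z e s.1 s.2 ++ [s.2])) := by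
  induction r generalizing p with
  | nil => simp [rfi, consec]
  | cons x r ih =>
    have := consec_append (p :: mid Z e p x) x (rfi Z e x r q ++ [q])
    simp only [List.cons_append] at this
    simp only [rfi, List.append_assoc, List.cons_append, consec, List.flatMap_cons]
    rw [this, ih]

theorem mem_rfi {Z : Finset ℝ} {e : ℝ} {p : Plane} {r : List Plane} {q x : Plane}
    (hx : x ∈ rfi Z e p r q) : x ∈ r ∨ ∃ s ∈ consec (p :: (r ++ [q])), x ∈ mid Z e s.1 s.2 := by
  induction r generalizing p with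
  | nil =>
    right
    exact ⟨(p, q), by simp [consec], hx⟩
  | cons y r ih =>
    simp only [rfi, List.mem_append, List.mem_cons] at hx
    rcases hx with hx | rfl | hx
    · right
      exact ⟨(p, y), by simp [consec], hx⟩
    · left
      simp
    · rcases ih hx with h | ⟨s, hs, h⟩
      · left
        simp [h]
      · right
        exact ⟨s, by simp [consec, hs], h⟩

theorem nodup_rfi {Z : Finset ℝ} {e : ℝ} {p : Plane} {r : List Plane} {q : Plane}
    (hr : r.Nodup) (hm : ∀ s ∈ consec (p :: (r ++ [q])), Mid Z e s.1 s.2 (mid Z e s.1 s.2))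
    (hd : (consec (p :: (r ++ [q]))).Pairwise Dj)
    (ha : ∀ s ∈ consec (p :: (r ++ [q])), ∀ x ∈ r, x ∉ openSegment ℝ s.1 s.2) :
    (rfi Z e p r q).Nodup := by
  induction r generalizing p with
  | nil => exact (hm (p, q) (by simp [consec])).nodup
  | cons y r ih =>
    have hcs : consec (p :: ((y :: r) ++ [q])) = (p, y) :: consec (y :: (r ++ [q])) := by
      simp [consec]
    rw [hcs] at hm hd ha
    rw [List.nodup_cons] at hr
    rw [List.pairwise_cons] at hd
    have ih' := ih hr.2 (fun s hs => hm s (List.mem_cons_of_mem _ hs)) hd.2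
      (fun s hs x hx => ha s (List.mem_cons_of_mem _ hs) x (List.mem_cons_of_mem _ hx))
    simp only [rfi]
    rw [List.nodup_append, List.nodup_cons]
    have hmp := hm (p, y) (by simp)
    refine ⟨hmp.nodup, ⟨fun h => ?_, ih'⟩, ?_⟩
    · rcases mem_rfi h with h | ⟨s, hs, h⟩
      · exact hr.1 h
      · exact ha s (List.mem_cons_of_mem _ hs) y (by simp) ((hm s (List.mem_cons_of_mem _ hs)).mem y h).1
    · intro a ha1 b hb hab
      subst hab
      have hao := (hmp.mem a ha1).1
      rw [List.mem_cons] at hb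
      rcases hb with rfl | hb
      · exact ha (p, a) (by simp) a (by simp) hao
      · rcases mem_rfi hb with h | ⟨s, hs, h⟩
        · exact ha (p, y) (by simp) a (List.mem_cons_of_mem _ h) hao
        · exact Set.disjoint_left.1 (hd.1 s hs) hao
            ((hm s (List.mem_cons_of_mem _ hs)).mem a h).1

/-! ### Encoding as a chain of arcs -/

/-- The inner list of the spine path. -/
noncomputable def enc (Z : Finset ℝ) (e : ℝ) : Plane → List Plane → List (Bool × (ℝ ×ₗ ℝ))
  | _, [] => []
  | p, x :: r => (pg Z e (p, x), sp Z e x) :: enc Z e x r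

/-- The last page. -/
noncomputable def lst (Z : Finset ℝ) (e : ℝ) : Plane → List Plane → Plane → Bool
  | p, [], q => pg Z e (p, q)
  | _, x :: r, q => lst Z e x r q

theorem arcs_enc (Z : Finset ℝ) (e : ℝ) (p : Plane) (r : List Plane) (q : Plane) :
    arcs (sp Z e p) (enc Z e p r) (lst Z e p r q) (sp Z e q) =
      (consec (p :: (r ++ [q]))).map (arc Z e) := by
  induction r generalizing p with
  | nil => simp [enc, lst, arcs, consec, arc]
  | cons x r ih =>
    simp only [enc, lst, arcs, List.cons_append, consec, List.map_cons]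
    rw [ih]
    rfl

theorem enc_snd (Z : Finset ℝ) (e : ℝ) (p : Plane) (r : List Plane) :
    (enc Z e p r).map Prod.snd = r.map (sp Z e) := by
  induction r generalizing p with
  | nil => simp [enc]
  | cons x r ih => simp [enc, ih]

theorem mem_enc {Z : Finset ℝ} {e : ℝ} {p : Plane} {r : List Plane} {y : Bool × (ℝ ×ₗ ℝ)}
    (h : y ∈ enc Z e p r) : ∃ x ∈ r, y.2 = sp Z e x := by
  have : y.2 ∈ (enc Z e p r).map Prod.snd := List.mem_map_of_mem h
  rw [enc_snd, List.mem_map] at this
  obtain ⟨x, hx, h⟩ := this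
  exact ⟨x, hx, h.symm⟩

/-! ### Counting -/

theorem sum_inter_le {S : Finset Plane} (P : List (Plane × Plane)) (hP : P.Pairwise Dj) :
    (open scoped Classical in
      (P.map fun s => (S.filter (fun x => x ∈ openSegment ℝ s.1 s.2)).card).sum) ≤ S.card := by
  classical
  induction P generalizing S with
  | nil => simp
  | cons s P ih =>
    rw [List.pairwise_cons] at hP
    rw [List.map_cons, List.sum_cons]
    have h1 := ih (S := S.filter (fun x => x ∉ openSegment ℝ s.1 s.2)) hP.2
    have h2 := Finset.card_filter_add_card_filter_not (s := S) (fun x => x ∈ openSegment ℝ s.1 s.2)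
    have h3 : (P.map fun t => (S.filter (fun x => x ∈ openSegment ℝ t.1 t.2)).card)
        = (P.map fun t => ((S.filter (fun x => x ∉ openSegment ℝ s.1 s.2)).filter
          (fun x => x ∈ openSegment ℝ t.1 t.2)).card) := by
      apply List.map_congr_left
      intro t ht
      congr 1
      ext x
      simp only [Finset.mem_filter]
      constructor
      · rintro ⟨h, h'⟩
        exact ⟨⟨h, fun h'' => Set.disjoint_left.1 (hP.1 t ht) h'' h'⟩, h'⟩
      · rintro ⟨⟨h, -⟩, h'⟩
        exact ⟨h, h'⟩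
    rw [h3]
    omega

theorem crL_le {Z : Finset ℝ} {e : ℝ} {S : Finset Plane} (P Q : List (Plane × Plane))
    (hP : P.Pairwise Dj) (hQ : Q.Pairwise Dj)
    (hS : ∀ s ∈ P, ∀ t ∈ Q, X (arc Z e s) (arc Z e t) ≠ 0 →
      ∃ x ∈ S, x ∈ openSegment ℝ s.1 s.2 ∧ x ∈ openSegment ℝ t.1 t.2) :
    crL (P.map (arc Z e)) (Q.map (arc Z e)) ≤ S.card := by
  classical
  unfold crL
  rw [List.map_map]
  refine le_trans ?_ (sum_inter_le P hP)
  apply List.sum_le_sum
  intro s hs
  simp only [Function.comp, List.map_map]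
  refine le_trans ?_ (sum_inter_le Q hQ)
  apply List.sum_le_sum
  intro t ht
  simp only [Function.comp]
  by_cases hX : X (arc Z e s) (arc Z e t) = 0
  · rw [hX]
    exact Nat.zero_le _
  · have h1 : X (arc Z e s) (arc Z e t) ≤ 1 := by
      unfold X
      split_ifs <;> simp
    obtain ⟨x, hx, h, h'⟩ := hS s hs t ht hX
    refine h1.trans ?_
    rw [Nat.one_le_iff_ne_zero, Ne, Finset.card_eq_zero, ← Ne, ← Finset.nonempty_iff_ne_empty]
    exact ⟨x, by simp [hx, h, h']⟩

/-! ### Overlapping segments -/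

theorem mem_openSegment_iff {e : ℝ} {p q x : Plane} (h : phi e p < phi e q) :
    x ∈ openSegment ℝ p q ↔ phi e p < phi e x ∧ phi e x < phi e q ∧
      x.2 = p.2 + (q.2 - p.2) / (phi e q - phi e p) * (phi e x - phi e p) := by
  have hne : phi e q - phi e p ≠ 0 := by linarith only [h]
  have hpos : 0 < phi e q - phi e p := by linarith only [h]
  constructor
  · intro hx
    rw [openSegment_eq_image_lineMap] at hx
    obtain ⟨t, ⟨h0, h1⟩, rfl⟩ := hx
    rw [phi_lineMap, lineMap_snd]
    refine ⟨by nlinarith only [hpos, h0], by nlinarith only [hpos, h1], ?_⟩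
    field_simp
    ring
  · rintro ⟨h1, h2, h3⟩
    rw [openSegment_eq_image_lineMap]
    refine ⟨(phi e x - phi e p) / (phi e q - phi e p), ⟨div_pos (by linarith only [h1]) hpos, ?_⟩, ?_⟩
    · rw [div_lt_one hpos]
      linarith only [h2]
    · apply ext_phi (e := e)
      · rw [phi_lineMap]
        field_simp
        ring
      · rw [lineMap_snd, h3]
        field_simp
        ring

theorem overlap {e : ℝ} {p q p' q' x y : Plane} (h1 : phi e p < phi e q)
    (h2 : phi e p' < phi e q') (hx : x ∈ openSegment ℝ p q) (hx' : x ∈ openSegment ℝ p' q')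
    (hy : y ∈ openSegment ℝ p q) (hy' : y ∈ openSegment ℝ p' q') (hxy : x ≠ y)
    (hp : p ∉ openSegment ℝ p' q') (hp' : p' ∉ openSegment ℝ p q)
    (hq : q ∉ openSegment ℝ p' q') (hq' : q' ∉ openSegment ℝ p q) : p = p' ∧ q = q' := by
  rw [mem_openSegment_iff h1] at hx hy hp' hq'
  rw [mem_openSegment_iff h2] at hx' hy' hp hq
  have hq2 : q.2 = p.2 + (q.2 - p.2) / (phi e q - phi e p) * (phi e q - phi e p) := by
    have : phi e q - phi e p ≠ 0 := by linarith only [h1]
    field_simp
    ring
  have hq2' : q'.2 = p'.2 + (q'.2 - p'.2) / (phi e q' - phi e p') * (phi e q' - phi e p') := by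
    have : phi e q' - phi e p' ≠ 0 := by linarith only [h2]
    field_simp
    ring
  set k := (q.2 - p.2) / (phi e q - phi e p) with hk
  set k' := (q'.2 - p'.2) / (phi e q' - phi e p') with hk'
  have hphi : phi e x ≠ phi e y := by
    intro h
    apply hxy
    apply ext_phi h
    rw [hx.2.2, hy.2.2, h]
  have hkk : k = k' := by
    have h3 : (k - k') * (phi e x - phi e y) = 0 := by
      have a1 := hx.2.2
      have a2 := hx'.2.2
      have a3 := hy.2.2
      have a4 := hy'.2.2
      linear_combination a2 - a1 + a3 - a4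
    rcases mul_eq_zero.1 h3 with h | h
    · linarith only [h]
    · exact absurd (sub_eq_zero.1 h) hphi
  have hpp : p'.2 = p.2 + k * (phi e p' - phi e p) := by
    have a1 := hx.2.2
    have a2 := hx'.2.2
    rw [← hkk] at a2
    linear_combination a1 - a2
  rw [← hkk] at hp hq hq2'
  have e1 : phi e p = phi e p' := by
    rcases lt_trichotomy (phi e p) (phi e p') with h | h | h
    · exact absurd ⟨h, hx'.1.trans hx.2.1, hpp⟩ hp'
    · exact h
    · exact absurd ⟨h, hx.1.trans hx'.2.1, by linear_combination -hpp⟩ hp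
  have e2 : phi e q = phi e q' := by
    rcases lt_trichotomy (phi e q) (phi e q') with h | h | h
    · exact absurd ⟨hx'.1.trans hx.2.1, h, by linear_combination hq2 - hpp⟩ hq
    · exact h
    · exact absurd ⟨hx.1.trans hx'.2.1, h, by linear_combination hq2' + hpp⟩ hq'
  constructor
  · apply ext_phi e1
    rw [hpp, e1]
    ring
  · apply ext_phi e2
    rw [hq2, hq2', hpp, e2, e1]
    ring

/-! ### Polylines of a polygonal drawing -/

theorem mem_consec {P : Type} {l : List P} {s : P × P} (h : s ∈ consec l) : s.1 ∈ l ∧ s.2 ∈ l := by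
  induction l with
  | nil => simp [consec] at h
  | cons a l ih =>
    cases l with
    | nil => simp [consec] at h
    | cons b l =>
      simp only [consec, List.mem_cons] at h
      rcases h with rfl | h
      · simp
      · have := ih h
        exact ⟨List.mem_cons_of_mem _ this.1, List.mem_cons_of_mem _ this.2⟩

theorem consec_ne {P : Type} {l : List P} (hl : l.Nodup) {s : P × P} (h : s ∈ consec l) :
    s.1 ≠ s.2 := by
  induction l with
  | nil => simp [consec] at h
  | cons a l ih =>
    cases l with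
    | nil => simp [consec] at h
    | cons b l =>
      simp only [consec, List.mem_cons] at h
      rw [List.nodup_cons] at hl
      rcases h with rfl | h
      · simp only
        rintro rfl
        exact hl.1 (by simp)
      · exact ih hl.2 h

section PD

variable {V : Type} {G : SimpleGraph V} (D : PolyDrawing G)

/-- The segments of an edge. -/
def segs (a b : V) : List (Plane × Plane) := consec (D.pos a :: (D.bends a b ++ [D.pos b]))

theorem mem_line {a b : V} {x : Plane} (h : x ∈ D.pos a :: (D.bends a b ++ [D.pos b])) :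
    x = D.pos a ∨ x = D.pos b ∨ x ∈ D.bends a b := by
  simp only [List.mem_cons, List.mem_append, List.not_mem_nil, or_false] at h
  tauto

theorem line_nodup {a b : V} (h : G.Adj a b) :
    (D.pos a :: (D.bends a b ++ [D.pos b])).Nodup := by
  rw [List.nodup_cons, List.nodup_append]
  refine ⟨?_, D.nodup a b h, by simp, ?_⟩
  · intro hm
    rw [List.mem_append, List.mem_singleton] at hm
    rcases hm with hm | hm
    · exact D.avoid a b h _ hm a rfl
    · exact h.ne (D.pos_inj hm)
  · intro x hx y hy hxy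
    rw [List.mem_singleton] at hy
    exact D.avoid a b h x hx b (hxy.trans hy)

/-- The vertices and bends. -/
def nodes : Set Plane := {x | (∃ v, x = D.pos v) ∨ ∃ a b, G.Adj a b ∧ x ∈ D.bends a b}

theorem nodes_finite [Finite V] : (nodes D).Finite := by
  have h1 : (Set.range D.pos).Finite := Set.finite_range _
  have h2 : (⋃ a : V, ⋃ b : V, {x | x ∈ D.bends a b}).Finite :=
    Set.finite_iUnion fun a => Set.finite_iUnion fun b => List.finite_toSet _
  refine (h1.union h2).subset ?_
  rintro x (⟨v, rfl⟩ | ⟨a, b, -, h⟩)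
  · left
    exact ⟨v, rfl⟩
  · right
    simp only [Set.mem_iUnion]
    exact ⟨a, b, h⟩

theorem line_nodes {a b : V} (hab : G.Adj a b) {x : Plane}
    (h : x ∈ D.pos a :: (D.bends a b ++ [D.pos b])) : x ∈ nodes D := by
  rcases mem_line D h with h | h | h
  · exact Or.inl ⟨a, h⟩
  · exact Or.inl ⟨b, h⟩
  · exact Or.inr ⟨a, b, hab, h⟩

theorem node_avoid {a b : V} (hab : G.Adj a b) {s : Plane × Plane} (hs : s ∈ segs D a b)
    {x : Plane} (hx : x ∈ nodes D) : x ∉ openSegment ℝ s.1 s.2 := by
  rcases hx with ⟨v, rfl⟩ | ⟨c, d, hcd, h⟩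
  · exact D.pos_avoid a b hab s hs v
  · exact D.bend_avoid a b c d hab hcd s hs x h

theorem seg_nodes {a b : V} (hab : G.Adj a b) {s : Plane × Plane} (hs : s ∈ segs D a b) :
    s.1 ∈ nodes D ∧ s.2 ∈ nodes D :=
  ⟨line_nodes D hab (mem_consec hs).1, line_nodes D hab (mem_consec hs).2⟩

/-- A node on two different edges is a common end. -/
theorem common {a b c d : V} (hab : G.Adj a b) (hcd : G.Adj c d) (hne : s(a, b) ≠ s(c, d))
    {x : Plane} (h1 : x ∈ D.pos a :: (D.bends a b ++ [D.pos b]))
    (h2 : x ∈ D.pos c :: (D.bends c d ++ [D.pos d])) :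
    (x = D.pos a ∨ x = D.pos b) ∧ (x = D.pos c ∨ x = D.pos d) := by
  rcases mem_line D h1 with h1 | h1 | h1 <;> rcases mem_line D h2 with h2 | h2 | h2
  · exact ⟨Or.inl h1, Or.inl h2⟩
  · exact ⟨Or.inl h1, Or.inr h2⟩
  · exact absurd h1 (D.avoid c d hcd x h2 a)
  · exact ⟨Or.inr h1, Or.inl h2⟩
  · exact ⟨Or.inr h1, Or.inr h2⟩
  · exact absurd h1 (D.avoid c d hcd x h2 b)
  · exact absurd h2 (D.avoid a b hab x h1 c)
  · exact absurd h2 (D.avoid a b hab x h1 d)
  · exact absurd h2 (D.disj a b c d hab hcd hne x h1)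

theorem no_common_seg {a b c d : V} (hab : G.Adj a b) (hcd : G.Adj c d)
    (hne : s(a, b) ≠ s(c, d)) {p q : Plane} (hpq : p ≠ q)
    (h1 : p ∈ D.pos a :: (D.bends a b ++ [D.pos b]))
    (h2 : p ∈ D.pos c :: (D.bends c d ++ [D.pos d]))
    (h3 : q ∈ D.pos a :: (D.bends a b ++ [D.pos b]))
    (h4 : q ∈ D.pos c :: (D.bends c d ++ [D.pos d])) : False := by
  obtain ⟨e1, e2⟩ := common D hab hcd hne h1 h2
  obtain ⟨e3, e4⟩ := common D hab hcd hne h3 h4
  apply hne
  rw [Sym2.eq_iff]
  rcases e1 with rfl | rfl <;> rcases e2 with e2 | e2 <;> rcases e3 with rfl | rfl <;>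
    rcases e4 with e4 | e4 <;> simp only [ne_eq, not_true] at hpq <;>
    have f2 := D.pos_inj e2 <;> have f4 := D.pos_inj e4 <;> subst f2 <;>
    first
      | exact Or.inl ⟨rfl, f4⟩
      | exact Or.inr ⟨rfl, f4⟩
      | exact Or.inl ⟨f4, rfl⟩
      | exact Or.inr ⟨f4, rfl⟩
      | (subst f4; exact absurd rfl hpq)

theorem cross_unique {e : ℝ} (he : ∀ p ∈ nodes D, ∀ q ∈ nodes D, phi e p = phi e q → p = q)
    {a b c d : V} (hab : G.Adj a b) (hcd : G.Adj c d) (hne : s(a, b) ≠ s(c, d))
    {s t : Plane × Plane} (hs : s ∈ segs D a b) (ht : t ∈ segs D c d) {x y : Plane}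
    (hx : x ∈ openSegment ℝ s.1 s.2) (hx' : x ∈ openSegment ℝ t.1 t.2)
    (hy : y ∈ openSegment ℝ s.1 s.2) (hy' : y ∈ openSegment ℝ t.1 t.2) : x = y := by
  by_contra hxy
  obtain ⟨p, q⟩ := s
  obtain ⟨p', q'⟩ := t
  simp only at hx hx' hy hy'
  have hs1 := seg_nodes D hab hs
  have ht1 := seg_nodes D hcd ht
  have ms := mem_consec hs
  have mt := mem_consec ht
  simp only at hs1 ht1 ms mt
  have hpq : p ≠ q := consec_ne (line_nodup D hab) hs
  have hpq' : p' ≠ q' := consec_ne (line_nodup D hcd) ht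
  have hphi : phi e p ≠ phi e q := fun h => hpq (he _ hs1.1 _ hs1.2 h)
  have hphi' : phi e p' ≠ phi e q' := fun h => hpq' (he _ ht1.1 _ ht1.2 h)
  have a1 : p ∉ openSegment ℝ p' q' := node_avoid D hcd ht hs1.1
  have a2 : q ∉ openSegment ℝ p' q' := node_avoid D hcd ht hs1.2
  have a3 : p' ∉ openSegment ℝ p q := node_avoid D hab hs ht1.1
  have a4 : q' ∉ openSegment ℝ p q := node_avoid D hab hs ht1.2
  rcases lt_or_gt_of_ne hphi with h1 | h1 <;> rcases lt_or_gt_of_ne hphi' with h2 | h2
  · obtain ⟨rfl, rfl⟩ := overlap h1 h2 hx hx' hy hy' hxy a1 a3 a2 a4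
    exact no_common_seg D hab hcd hne hpq ms.1 mt.1 ms.2 mt.2
  · rw [openSegment_symm ℝ p' q'] at hx' hy' a1 a2
    obtain ⟨rfl, rfl⟩ := overlap h1 h2 hx hx' hy hy' hxy a1 a4 a2 a3
    exact no_common_seg D hab hcd hne hpq ms.1 mt.2 ms.2 mt.1
  · rw [openSegment_symm ℝ p q] at hx hy a3 a4
    obtain ⟨rfl, rfl⟩ := overlap h1 h2 hx hx' hy hy' hxy a2 a3 a1 a4
    exact no_common_seg D hab hcd hne hpq ms.1 mt.2 ms.2 mt.1
  · rw [openSegment_symm ℝ p q] at hx hy a3 a4
    rw [openSegment_symm ℝ p' q'] at hx' hy' a1 a2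
    obtain ⟨rfl, rfl⟩ := overlap h1 h2 hx hx' hy hy' hxy a2 a4 a1 a3
    exact no_common_seg D hab hcd hne hpq ms.1 mt.1 ms.2 mt.2

theorem mem_segment_cases {p q x : Plane} (h : x ∈ segment ℝ p q) :
    x = p ∨ x = q ∨ x ∈ openSegment ℝ p q := by
  rw [← insert_endpoints_openSegment] at h
  simpa using h

theorem cross_open {a b c d : V} (hab : G.Adj a b) (hcd : G.Adj c d) (hne : s(a, b) ≠ s(c, d))
    {x : Plane} (hx : ∀ w, x ≠ D.pos w) (h1 : x ∈ D.arcSet a b) (h2 : x ∈ D.arcSet c d) :
    ∃ s ∈ segs D a b, ∃ t ∈ segs D c d, x ∈ openSegment ℝ s.1 s.2 ∧ x ∈ openSegment ℝ t.1 t.2 := by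
  obtain ⟨s, hs, hxs⟩ := h1
  obtain ⟨t, ht, hxt⟩ := h2
  have ms := mem_consec hs
  have mt := mem_consec ht
  have nope : x ∈ D.pos a :: (D.bends a b ++ [D.pos b]) →
      x ∈ D.pos c :: (D.bends c d ++ [D.pos d]) → False := by
    intro e1 e2
    rcases (common D hab hcd hne e1 e2).1 with h | h
    · exact hx _ h
    · exact hx _ h
  rcases mem_segment_cases hxs with h | h | h
  · exfalso
    have e1 : x ∈ D.pos a :: (D.bends a b ++ [D.pos b]) := h ▸ ms.1
    rcases mem_segment_cases hxt with h' | h' | h'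
    · exact nope e1 (h' ▸ mt.1)
    · exact nope e1 (h' ▸ mt.2)
    · exact node_avoid D hcd ht (line_nodes D hab e1) h'
  · exfalso
    have e1 : x ∈ D.pos a :: (D.bends a b ++ [D.pos b]) := h ▸ ms.2
    rcases mem_segment_cases hxt with h' | h' | h'
    · exact nope e1 (h' ▸ mt.1)
    · exact nope e1 (h' ▸ mt.2)
    · exact node_avoid D hcd ht (line_nodes D hab e1) h'
  · rcases mem_segment_cases hxt with h' | h' | h'
    · exfalso
      have e2 : x ∈ D.pos c :: (D.bends c d ++ [D.pos d]) := h' ▸ mt.1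
      exact node_avoid D hab hs (line_nodes D hcd e2) h
    · exfalso
      have e2 : x ∈ D.pos c :: (D.bends c d ++ [D.pos d]) := h' ▸ mt.2
      exact node_avoid D hab hs (line_nodes D hcd e2) h
    · exact ⟨s, hs, t, ht, h, h'⟩

theorem crossingSet_finite [Finite V] : D.crossingSet.Finite := by
  obtain ⟨e, he⟩ := exists_generic (nodes_finite D)
  have h : (⋃ a : V, ⋃ b : V, ⋃ c : V, ⋃ d : V, ⋃ s ∈ {s | s ∈ segs D a b},
      ⋃ t ∈ {t | t ∈ segs D c d},
      {z : Plane × Sym2 (Sym2 V) | G.Adj a b ∧ G.Adj c d ∧ s(a, b) ≠ s(c, d) ∧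
        z.2 = s(s(a, b), s(c, d)) ∧ z.1 ∈ openSegment ℝ s.1 s.2 ∧
        z.1 ∈ openSegment ℝ t.1 t.2}).Finite := by
    refine Set.finite_iUnion fun a => Set.finite_iUnion fun b => Set.finite_iUnion fun c =>
      Set.finite_iUnion fun d => (List.finite_toSet _).biUnion fun s hs =>
      (List.finite_toSet _).biUnion fun t ht => Set.Subsingleton.finite ?_
    rintro ⟨x, z⟩ ⟨hab, hcd, hne, hz, hx1, hx2⟩ ⟨y, w⟩ ⟨-, -, -, hw, hy1, hy2⟩
    simp only at hz hx1 hx2 hw hy1 hy2
    have := cross_unique D he hab hcd hne hs ht hx1 hx2 hy1 hy2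
    rw [this, hz, hw]
  refine h.subset ?_
  rintro ⟨x, z⟩ ⟨hx, a, b, c, d, hab, hcd, hne, hz, h1, h2⟩
  obtain ⟨s, hs, t, ht, e1, e2⟩ := cross_open D hab hcd hne hx h1 h2
  simp only [Set.mem_iUnion]
  exact ⟨a, b, c, d, s, hs, t, ht, hab, hcd, hne, hz, e1, e2⟩

/-! ### The refined polylines -/

variable {e : ℝ} {Z : Finset ℝ}

/-- The lanes contain all nodes, and the functional is generic. -/
structure Gen (D : PolyDrawing G) (e : ℝ) (Z : Finset ℝ) : Prop where
  inj : ∀ p ∈ nodes D, ∀ q ∈ nodes D, phi e p = phi e q → p = q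
  mem : ∀ p ∈ nodes D, phi e p ∈ Z

theorem Gen.mid {D : PolyDrawing G} (h : Gen D e Z) {a b : V} (hab : G.Adj a b)
    {s : Plane × Plane} (hs : s ∈ segs D a b) : Mid Z e s.1 s.2 (mid Z e s.1 s.2) := by
  have hn := seg_nodes D hab hs
  refine mid_spec (fun hh => consec_ne (line_nodup D hab) hs (h.inj _ hn.1 _ hn.2 hh))
    (h.mem _ hn.1) (h.mem _ hn.2)

/-- The inner points of the refined edge. -/
noncomputable def inn (Z : Finset ℝ) (e : ℝ) (a b : V) : List Plane :=
  rfi Z e (D.pos a) (D.bends a b) (D.pos b)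

/-- The pieces of the refined edge. -/
noncomputable def pcs (Z : Finset ℝ) (e : ℝ) (a b : V) : List (Plane × Plane) :=
  consec (D.pos a :: (inn D Z e a b ++ [D.pos b]))

theorem pcs_eq (a b : V) : pcs D Z e a b =
    (segs D a b).flatMap fun s => consec (s.1 :: (mid Z e s.1 s.2 ++ [s.2])) :=
  consec_rfi _ _ _ _ _

theorem mem_pcs {D : PolyDrawing G} (h : Gen D e Z) {a b : V} (hab : G.Adj a b)
    {t : Plane × Plane} (ht : t ∈ pcs D Z e a b) : Elem Z e t ∧ ∃ s ∈ segs D a b,
      openSegment ℝ t.1 t.2 ⊆ openSegment ℝ s.1 s.2 := by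
  rw [pcs_eq, List.mem_flatMap] at ht
  obtain ⟨s, hs, ht⟩ := ht
  exact ⟨(h.mid hab hs).elem t ht, s, hs, (h.mid hab hs).sub t ht⟩

theorem pcs_pairwise {D : PolyDrawing G} (h : Gen D e Z) {a b : V} (hab : G.Adj a b) :
    (pcs D Z e a b).Pairwise Dj := by
  rw [pcs_eq, List.pairwise_flatMap]
  refine ⟨fun s hs => (h.mid hab hs).disj, ?_⟩
  have h1 := D.simple a b hab
  refine List.Pairwise.imp_of_mem ?_ h1
  intro s t hs ht hd x hx y hy
  exact Set.disjoint_of_subset ((h.mid hab hs).sub x hx) ((h.mid hab ht).sub y hy) hd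

theorem mem_inn {D : PolyDrawing G} (h : Gen D e Z) {a b : V} (hab : G.Adj a b)
    {x : Plane} (hx : x ∈ inn D Z e a b) : x ∈ D.bends a b ∨
      (phi e x ∈ Z ∧ ∃ s ∈ segs D a b, x ∈ openSegment ℝ s.1 s.2) := by
  rcases mem_rfi hx with hx | ⟨s, hs, hx⟩
  · exact Or.inl hx
  · have := (h.mid hab hs).mem x hx
    exact Or.inr ⟨this.2, s, hs, this.1⟩

theorem inn_nodup {D : PolyDrawing G} (h : Gen D e Z) {a b : V} (hab : G.Adj a b) :
    (inn D Z e a b).Nodup :=
  nodup_rfi (D.nodup a b hab) (fun _ hs => h.mid hab hs) (D.simple a b hab)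
    (fun s hs x hx => D.bend_avoid a b a b hab hab s hs x hx)

theorem inn_avoid {D : PolyDrawing G} (h : Gen D e Z) {a b : V} (hab : G.Adj a b)
    {x : Plane} (hx : x ∈ inn D Z e a b) (w : V) : x ≠ D.pos w := by
  rcases mem_inn h hab hx with hx | ⟨-, s, hs, hx⟩
  · exact D.avoid a b hab x hx w
  · rintro rfl
    exact D.pos_avoid a b hab s hs w hx

theorem seg_arcSet {a b : V} {s : Plane × Plane} (hs : s ∈ segs D a b) {x : Plane}
    (hx : x ∈ openSegment ℝ s.1 s.2) : x ∈ D.arcSet a b :=
  ⟨s, hs, openSegment_subset_segment ℝ _ _ hx⟩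

theorem inn_disj {D : PolyDrawing G} (h : Gen D e Z)
    (hcr : ∀ z ∈ D.crossingSet, phi e z.1 ∉ Z)
    {a b c d : V} (hab : G.Adj a b) (hcd : G.Adj c d) (hne : s(a, b) ≠ s(c, d))
    {x : Plane} (hx : x ∈ inn D Z e a b) (hx' : x ∈ inn D Z e c d) : False := by
  have hw := inn_avoid h hab hx
  rcases mem_inn h hab hx with hx | ⟨hZ, s, hs, hx⟩ <;>
    rcases mem_inn h hcd hx' with hx' | ⟨-, t, ht, hx'⟩
  · exact D.disj a b c d hab hcd hne x hx hx'
  · exact D.bend_avoid c d a b hcd hab t ht x hx hx'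
  · exact D.bend_avoid a b c d hab hcd s hs x hx' hx
  · exact hcr (x, s(s(a, b), s(c, d))) ⟨hw, a, b, c, d, hab, hcd, hne, rfl,
      seg_arcSet D hs hx, seg_arcSet D ht hx'⟩ hZ

theorem exists_gen [Finite V] : ∃ (e : ℝ) (Z : Finset ℝ), Gen D e Z ∧
    ∀ z ∈ D.crossingSet, phi e z.1 ∉ Z := by
  classical
  have hF : (nodes D ∪ Prod.fst '' D.crossingSet).Finite :=
    (nodes_finite D).union ((crossingSet_finite D).image _)
  obtain ⟨e, he⟩ := exists_generic hF
  refine ⟨e, (nodes_finite D).toFinset.image (phi e), ⟨?_, ?_⟩, ?_⟩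
  · exact fun p hp q hq h => he p (Or.inl hp) q (Or.inl hq) h
  · intro p hp
    rw [Finset.mem_image]
    exact ⟨p, by simpa using hp, rfl⟩
  · intro z hz hZ
    rw [Finset.mem_image] at hZ
    obtain ⟨p, hp, hpz⟩ := hZ
    have hp' : p ∈ nodes D := by simpa using hp
    have := he p (Or.inl hp') z.1 (Or.inr ⟨z, hz, rfl⟩) hpz
    rw [this] at hp'
    obtain ⟨hx, a, b, c, d, hab, hcd, hne, -, h1, h2⟩ := hz
    obtain ⟨s, hs, t, ht, e1, e2⟩ := cross_open D hab hcd hne hx h1 h2
    exact node_avoid D hab hs hp' e1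

end PD

end P1

open P1 in
/-- P1. Every polygonal drawing gives a spine drawing with at most as many crossings. -/
theorem exists_spine_of_poly' {V ι : Type} [Fintype V] [Fintype ι] [DecidableEq ι]
    {N : Net V ι} {G : SimpleGraph V} (hN : N.Rep G) (D : PolyDrawing G) :
    ∃ (L : Type) (_ : LinearOrder L) (D' : Drawing N L), D'.dcr ≤ 2 * D.crossings := by
  classical
  obtain ⟨e, Z, hG, hcr⟩ := exists_gen D
  have hadj : ∀ i, G.Adj (N.src i) (N.tgt i) := fun i => (hN.adj _ _).2 ⟨i, rfl⟩
  have hne : ∀ i j, i ≠ j → s(N.src i, N.tgt i) ≠ s(N.src j, N.tgt j) := fun i j h h' =>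
    h (hN.simple.inj i j h')
  let D' : Drawing N (ℝ ×ₗ ℝ) :=
    { pos := fun v => sp Z e (D.pos v)
      inner := fun i => enc Z e (D.pos (N.src i)) (inn D Z e (N.src i) (N.tgt i))
      last := fun i => lst Z e (D.pos (N.src i)) (inn D Z e (N.src i) (N.tgt i)) (D.pos (N.tgt i))
      pos_inj := (sp_inj Z e).comp D.pos_inj
      nodup := by
        intro i
        rw [enc_snd]
        exact (inn_nodup hG (hadj i)).map (sp_inj Z e)
      disj := by
        intro i j hij x hx y hy hxy
        obtain ⟨x', hx', hx2⟩ := mem_enc hx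
        obtain ⟨y', hy', hy2⟩ := mem_enc hy
        rw [hx2, hy2] at hxy
        have := sp_inj Z e hxy
        subst this
        exact inn_disj hG hcr (hadj i) (hadj j) (hne i j hij) hx' hy'
      avoid := by
        intro i x hx w hxw
        obtain ⟨x', hx', hx2⟩ := mem_enc hx
        rw [hx2] at hxw
        exact inn_avoid hG (hadj i) hx' w (sp_inj Z e hxw) }
  refine ⟨ℝ ×ₗ ℝ, inferInstance, D', ?_⟩
  have hpath : ∀ i, D'.path i = (pcs D Z e (N.src i) (N.tgt i)).map (arc Z e) := fun i =>
    arcs_enc _ _ _ _ _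
  set C : Finset (Plane × Sym2 (Sym2 V)) := (crossingSet_finite D).toFinset with hC
  have hCc : D.crossings = C.card := by
    unfold PolyDrawing.crossings
    rw [hC, Set.ncard_eq_toFinset_card _ (crossingSet_finite D)]
  let key : ι → ι → Sym2 (Sym2 V) := fun i j => s(s(N.src i, N.tgt i), s(N.src j, N.tgt j))
  have hpair : ∀ i j, i ≠ j →
      crL (D'.path i) (D'.path j) ≤ (C.filter (fun z => z.2 = key i j)).card := by
    intro i j hij
    rw [hpath, hpath]
    refine le_trans (crL_le (S := (C.filter (fun z => z.2 = key i j)).image Prod.fst) _ _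
      (pcs_pairwise hG (hadj i)) (pcs_pairwise hG (hadj j)) ?_) Finset.card_image_le
    intro s hs t ht hX
    obtain ⟨es, s', hs', hss⟩ := mem_pcs hG (hadj i) hs
    obtain ⟨et, t', ht', htt⟩ := mem_pcs hG (hadj j) ht
    obtain ⟨x, h1, h2, h3⟩ := cross es et hX
    refine ⟨x, ?_, h1, h2⟩
    rw [Finset.mem_image]
    refine ⟨(x, key i j), ?_, rfl⟩
    rw [Finset.mem_filter, hC, Set.Finite.mem_toFinset]
    refine ⟨⟨?_, N.src i, N.tgt i, N.src j, N.tgt j, hadj i, hadj j, hne i j hij, rfl,
      seg_arcSet D hs' (hss h1), seg_arcSet D ht' (htt h2)⟩, rfl⟩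
    intro w hw
    apply h3
    simp only at hw
    rw [hw]
    exact hG.mem _ (Or.inl ⟨w, rfl⟩)
  unfold Drawing.dcr
  rw [hCc]
  calc (∑ i, ∑ j, if i = j then 0 else crL (D'.path i) (D'.path j))
      ≤ ∑ i, ∑ j, (∑ z ∈ C, if i ≠ j ∧ z.2 = key i j then 1 else 0) := by
        apply Finset.sum_le_sum
        intro i _
        apply Finset.sum_le_sum
        intro j _
        split_ifs with hij
        · exact Nat.zero_le _
        · refine (hpair i j hij).trans (le_of_eq ?_)
          rw [Finset.card_filter]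
          apply Finset.sum_congr rfl
          intro z _
          simp [hij]
    _ = ∑ z ∈ C, ∑ i, ∑ j, (if i ≠ j ∧ z.2 = key i j then 1 else 0) := by
        symm
        rw [Finset.sum_comm]
        apply Finset.sum_congr rfl
        intro i _
        rw [Finset.sum_comm]
    _ ≤ ∑ z ∈ C, 2 := by
        apply Finset.sum_le_sum
        intro z _
        rw [← Finset.sum_product', Finset.univ_product_univ, ← Finset.card_filter]
        by_cases hem : ∃ i j : ι, i ≠ j ∧ z.2 = key i j
        · obtain ⟨i, j, hij, hz⟩ := hem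
          refine le_trans (Finset.card_le_card (t := {(i, j), (j, i)}) ?_) Finset.card_le_two
          rintro ⟨i', j'⟩ h
          simp only [Finset.mem_filter, Finset.mem_univ, true_and] at h
          have h2 := h.2
          rw [hz] at h2
          simp only [key] at h2
          rw [Sym2.eq_iff] at h2
          simp only [Finset.mem_insert, Finset.mem_singleton, Prod.mk.injEq]
          rcases h2 with ⟨h2, h3⟩ | ⟨h2, h3⟩
          · left
            exact ⟨(hN.simple.inj _ _ h2).symm, (hN.simple.inj _ _ h3).symm⟩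
          · right
            exact ⟨(hN.simple.inj _ _ h3).symm, (hN.simple.inj _ _ h2).symm⟩
        · push Not at hem
          rw [Finset.card_eq_zero.2]
          · exact Nat.zero_le _
          · rw [Finset.filter_eq_empty_iff]
            rintro ⟨i, j⟩ -
            rintro ⟨h1, h2⟩
            exact hem i j h1 h2
    _ = 2 * C.card := by rw [Finset.sum_const, smul_eq_mul, mul_comm]

end MP60f107

end

section

/-!
T3. A polygonal drawing is a topological drawing.
-/

namespace MP60f107

namespace T3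

open P1 (mem_consec consec_ne segs mem_line line_nodup line_nodes node_avoid seg_nodes
  mem_segment_cases crossingSet_finite consec_append)

/-! ### Arcs -/

theorem isArc_segment {p q : Plane} (h : p ≠ q) : IsArc (segment ℝ p q) p q := by
  refine ⟨⟨⟨fun t => AffineMap.lineMap p q (t : ℝ), by fun_prop⟩, by simp, by simp⟩, ?_, ?_⟩
  · intro s t hst
    have h1 : AffineMap.lineMap p q (s : ℝ) = (AffineMap.lineMap p q (t : ℝ) : Plane) := hst
    exact Subtype.ext (AffineMap.lineMap_injective ℝ h h1)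
  · rw [segment_eq_image_lineMap]
    ext x
    constructor
    · rintro ⟨t, rfl⟩
      exact ⟨t, t.2, rfl⟩
    · rintro ⟨t, ht, rfl⟩
      exact ⟨⟨t, ht⟩, rfl⟩

theorem IsArc.symm {A : Set Plane} {p q : Plane} (h : IsArc A p q) : IsArc A q p := by
  obtain ⟨γ, hi, hr⟩ := h
  refine ⟨γ.symm, ?_, ?_⟩
  · intro s t hst
    exact unitInterval.symm_bijective.injective (hi hst)
  · rw [Path.symm_range, hr]

theorem IsArc.trans {A B : Set Plane} {p q r : Plane} (h1 : IsArc A p q) (h2 : IsArc B q r)
    (h : ∀ x ∈ A, x ∈ B → x = q) : IsArc (A ∪ B) p r := by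
  obtain ⟨γ, hi, hr⟩ := h1
  obtain ⟨δ, hj, hs⟩ := h2
  have key : ∀ s t : unitInterval, (s : ℝ) ≤ 1 / 2 → ¬ ((t : ℝ) ≤ 1 / 2) →
      (γ.trans δ) s = (γ.trans δ) t → False := by
    intro s t h3 h4 hst
    rw [Path.trans_apply, Path.trans_apply, dif_pos h3, dif_neg h4] at hst
    have h5 := h _ (hr ▸ Set.mem_range_self _) (hst ▸ (hs ▸ Set.mem_range_self _))
    rw [hst] at h5
    have h6 : δ 0 = q := δ.source
    have h7 := hj (h5.trans h6.symm)
    have h8 := congrArg Subtype.val h7
    simp only [Set.Icc.coe_zero] at h8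
    apply h4
    linarith only [h8]
  refine ⟨γ.trans δ, ?_, ?_⟩
  · intro s t hst
    by_cases h3 : (s : ℝ) ≤ 1 / 2 <;> by_cases h4 : (t : ℝ) ≤ 1 / 2
    · rw [Path.trans_apply, Path.trans_apply, dif_pos h3, dif_pos h4] at hst
      have := congrArg Subtype.val (hi hst)
      simp only at this
      exact Subtype.ext (by linarith only [this])
    · exact (key s t h3 h4 hst).elim
    · exact (key t s h4 h3 hst.symm).elim
    · rw [Path.trans_apply, Path.trans_apply, dif_neg h3, dif_neg h4] at hst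
      have := congrArg Subtype.val (hj hst)
      simp only at this
      exact Subtype.ext (by linarith only [this])
  · rw [Path.trans_range, hr, hs]

/-! ### Polygons -/

/-- The polygon through a list of points. -/
def poly (l : List Plane) : Set Plane := {x | ∃ s ∈ consec l, x ∈ segment ℝ s.1 s.2}

theorem isArc_poly (m : List Plane) (p q : Plane) (hn : (p :: (m ++ [q])).Nodup)
    (ha : ∀ s ∈ consec (p :: (m ++ [q])), ∀ x ∈ p :: (m ++ [q]), x ∉ openSegment ℝ s.1 s.2)
    (hd : (consec (p :: (m ++ [q]))).Pairwise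
      (fun s t => Disjoint (openSegment ℝ s.1 s.2) (openSegment ℝ t.1 t.2))) :
    IsArc (poly (p :: (m ++ [q]))) p q := by
  induction m generalizing p with
  | nil =>
    have : poly (p :: ([] ++ [q])) = segment ℝ p q := by
      ext x
      simp [poly, consec]
    rw [this]
    apply isArc_segment
    rintro rfl
    simp at hn
  | cons b m ih =>
    simp only [List.cons_append, consec] at hn ha hd ⊢
    have h1 : poly (p :: b :: (m ++ [q])) = segment ℝ p b ∪ poly (b :: (m ++ [q])) := by
      ext x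
      simp [poly, consec]
    rw [h1]
    rw [List.nodup_cons] at hn
    rw [List.pairwise_cons] at hd
    have hpb : p ≠ b := by
      rintro rfl
      exact hn.1 (by simp)
    refine IsArc.trans (isArc_segment hpb) (ih b hn.2 ?_ hd.2) ?_
    · intro s hs x hx
      exact ha s (List.mem_cons_of_mem _ hs) x (List.mem_cons_of_mem _ hx)
    · rintro x hx ⟨s, hs, hxs⟩
      have ms := mem_consec hs
      rcases mem_segment_cases hx with h | h | h
      · subst h
        exfalso
        rcases mem_segment_cases hxs with h' | h' | h'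
        · exact hn.1 (h' ▸ ms.1)
        · exact hn.1 (h' ▸ ms.2)
        · exact ha s (List.mem_cons_of_mem _ hs) _ (by simp) h'
      · exact h
      · exfalso
        rcases mem_segment_cases hxs with h' | h' | h'
        · exact ha (p, b) (by simp) s.1 (List.mem_cons_of_mem _ ms.1) (h' ▸ h)
        · exact ha (p, b) (by simp) s.2 (List.mem_cons_of_mem _ ms.2) (h' ▸ h)
        · exact Set.disjoint_left.1 (hd.1 s hs) h h'

theorem poly_reverse (l : List Plane) : poly l.reverse = poly l := by
  induction l with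
  | nil => rfl
  | cons a l ih =>
    cases l with
    | nil => rfl
    | cons b l =>
      have h1 : poly (a :: b :: l) = segment ℝ a b ∪ poly (b :: l) := by
        ext x
        simp [poly, consec]
      rw [h1, ← ih]
      have h2 : (a :: b :: l).reverse = l.reverse ++ b :: [a] := by simp
      have h3 : (b :: l).reverse = l.reverse ++ [b] := by simp
      rw [h2, h3]
      ext x
      simp only [poly, Set.mem_union, Set.mem_ofPred_eq]
      rw [consec_append]
      simp only [List.mem_append, consec, List.mem_singleton]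
      constructor
      · rintro ⟨s, hs | rfl, hx⟩
        · exact Or.inr ⟨s, hs, hx⟩
        · left
          rw [segment_symm]
          exact hx
      · rintro (hx | ⟨s, hs, hx⟩)
        · exact ⟨(b, a), Or.inr rfl, by rw [segment_symm]; exact hx⟩
        · exact ⟨s, Or.inl hs, hx⟩

section PD

variable {V : Type} {G : SimpleGraph V} (D : PolyDrawing G)

theorem arcSet_symm (a b : V) : D.arcSet b a = D.arcSet a b := by
  have h : D.pos b :: (D.bends b a ++ [D.pos a]) =
      (D.pos a :: (D.bends a b ++ [D.pos b])).reverse := by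
    rw [D.bends_symm]
    simp
  have h1 : D.arcSet b a = poly (D.pos b :: (D.bends b a ++ [D.pos a])) := rfl
  have h2 : D.arcSet a b = poly (D.pos a :: (D.bends a b ++ [D.pos b])) := rfl
  rw [h1, h2, h, poly_reverse]

theorem mem_arcSet_pos {a b : V} (hab : G.Adj a b) {w : V} (h : D.pos w ∈ D.arcSet a b) :
    w = a ∨ w = b := by
  obtain ⟨s, hs, hx⟩ := h
  have ms := mem_consec hs
  have h1 : D.pos w ∈ D.pos a :: (D.bends a b ++ [D.pos b]) := by
    rcases mem_segment_cases hx with h | h | h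
    · exact h ▸ ms.1
    · exact h ▸ ms.2
    · exact absurd h (D.pos_avoid a b hab s hs w)
  rcases mem_line D h1 with h | h | h
  · exact Or.inl (D.pos_inj h)
  · exact Or.inr (D.pos_inj h)
  · exact absurd rfl (D.avoid a b hab _ h w)

theorem arcSet_inter_finite [Finite V] {a b c d : V} (hab : G.Adj a b) (hcd : G.Adj c d)
    (hne : s(a, b) ≠ s(c, d)) : (D.arcSet a b ∩ D.arcSet c d).Finite := by
  refine (((crossingSet_finite D).image Prod.fst).union (Set.finite_range D.pos)).subset ?_
  rintro x ⟨h1, h2⟩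
  by_cases h : ∃ w, D.pos w = x
  · exact Or.inr h
  · left
    push Not at h
    exact ⟨(x, s(s(a, b), s(c, d))), ⟨fun w => (h w).symm, a, b, c, d, hab, hcd, hne, rfl, h1, h2⟩,
      rfl⟩

/-- The topological drawing. -/
def top [Finite V] : TopDrawing G where
  pos := D.pos
  arc := Sym2.lift ⟨fun a b => D.arcSet a b, fun a b => (arcSet_symm D a b).symm⟩
  pos_inj := D.pos_inj
  isArc := by
    intro a b hab
    rw [Sym2.lift_mk]
    refine isArc_poly _ _ _ (line_nodup D hab) ?_ (D.simple a b hab)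
    intro s hs x hx
    exact node_avoid D hab hs (line_nodes D hab hx)
  avoid := by
    intro e
    induction e using Sym2.ind with
    | _ a b =>
      intro he w hw
      rw [Sym2.lift_mk] at hw
      rcases mem_arcSet_pos D he hw with rfl | rfl <;> simp
  finite := by
    intro e he f hf hne
    induction e using Sym2.ind with
    | _ a b =>
      induction f using Sym2.ind with
      | _ c d =>
        rw [Sym2.lift_mk, Sym2.lift_mk]
        exact arcSet_inter_finite D he hf hne

theorem top_crossingSet [Finite V] : (top D).crossingSet = D.crossingSet := by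
  ext z
  constructor
  · rintro ⟨h1, e, f, he, hf, hne, hz, h2, h3⟩
    induction e using Sym2.ind with
    | _ a b =>
      induction f using Sym2.ind with
      | _ c d => exact ⟨h1, a, b, c, d, he, hf, hne, hz, h2, h3⟩
  · rintro ⟨h1, a, b, c, d, hab, hcd, hne, hz, h2, h3⟩
    exact ⟨h1, s(a, b), s(c, d), hab, hcd, hne, hz, h2, h3⟩

end PD

end T3

/-- T3. A polygonal drawing is a topological drawing. -/
theorem exists_top_of_poly' {V : Type} [Fintype V] {G : SimpleGraph V} (D : PolyDrawing G) :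
    ∃ D' : TopDrawing G, D'.crossings = D.crossings :=
  ⟨T3.top D, by rw [TopDrawing.crossings, PolyDrawing.crossings, T3.top_crossingSet]⟩

end MP60f107

end

section

namespace MP60f107

namespace T4

open P1 (mem_consec consec_ne segs mem_line line_nodup line_nodes node_avoid seg_nodes
  mem_segment_cases cross_unique cross_open exists_generic nodes_finite)

def det (a b : Plane) : ℝ := a.1 * b.2 - a.2 * b.1

theorem aux1 {x m n d a b y : ℝ} (h : d ≠ 0) (h2 : m * a + n * b = (y - x) * d) :
    x + m / d * a + n / d * b = y := by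
  have h3 : m / d * a + n / d * b = (m * a + n * b) / d := by ring
  rw [add_assoc, h3, h2, mul_div_cancel_right₀ _ h]
  ring

/-- Affine coordinates at `x` with the axes `a`, `b`. -/
noncomputable def coord (x a b : Plane) (h : det a b ≠ 0) : Plane ≃ₜ Plane where
  toFun y := (det (y - x) b / det a b, det a (y - x) / det a b)
  invFun z := x + z.1 • a + z.2 • b
  left_inv y := by
    ext
    · simp only [Prod.fst_add, Prod.smul_fst, smul_eq_mul]
      apply aux1 h
      unfold det
      simp only [Prod.fst_sub, Prod.snd_sub]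
      ring
    · simp only [Prod.snd_add, Prod.smul_snd, smul_eq_mul]
      apply aux1 h
      unfold det
      simp only [Prod.fst_sub, Prod.snd_sub]
      ring
  right_inv z := by
    ext
    · simp only
      rw [div_eq_iff h]
      unfold det
      simp only [Prod.fst_add, Prod.smul_fst, Prod.fst_sub, Prod.snd_sub, smul_eq_mul,
        Prod.snd_add, Prod.smul_snd]
      ring
    · simp only
      rw [div_eq_iff h]
      unfold det
      simp only [Prod.fst_add, Prod.smul_fst, Prod.fst_sub, Prod.snd_sub, smul_eq_mul,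
        Prod.snd_add, Prod.smul_snd]
      ring
  continuous_toFun := by
    unfold det
    fun_prop
  continuous_invFun := by fun_prop

theorem coord_apply (x a b y : Plane) (h : det a b ≠ 0) :
    coord x a b h y = (det (y - x) b / det a b, det a (y - x) / det a b) := rfl

theorem coord_spec (x a b y : Plane) (h : det a b ≠ 0) :
    y = x + (coord x a b h y).1 • a + (coord x a b h y).2 • b :=
  ((coord x a b h).left_inv y).symm

theorem crossAt_of_segments {A B A' B' : Set Plane} {x p q p' q' : Plane}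
    (hx : x ∈ openSegment ℝ p q) (hx' : x ∈ openSegment ℝ p' q')
    (hdet : det (q - p) (q' - p') ≠ 0) (hA' : IsClosed A') (hB' : IsClosed B')
    (hA : A = segment ℝ p q ∪ A') (hB : B = segment ℝ p' q' ∪ B') (h1 : x ∉ A') (h2 : x ∉ B') :
    CrossAt A B x := by
  rw [openSegment_eq_image_lineMap] at hx hx'
  obtain ⟨τ, ⟨hτ0, hτ1⟩, hτ⟩ := hx
  obtain ⟨σ, ⟨hσ0, hσ1⟩, hσ⟩ := hx'
  rw [AffineMap.lineMap_apply_module'] at hτ hσ
  set φ := coord x (q - p) (q' - p') hdet with hφ
  have hcont : Continuous φ := φ.continuous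
  have hcont1 : Continuous fun y => (φ y).1 := hcont.fst
  have hcont2 : Continuous fun y => (φ y).2 := hcont.snd
  let U : Set Plane := (((fun y => (φ y).1) ⁻¹' Set.Ioo (-τ) (1 - τ)) ∩
    ((fun y => (φ y).2) ⁻¹' Set.Ioo (-σ) (1 - σ))) ∩ (A'ᶜ ∩ B'ᶜ)
  have hU : IsOpen U := ((isOpen_Ioo.preimage hcont1).inter (isOpen_Ioo.preimage hcont2)).inter
    (hA'.isOpen_compl.inter hB'.isOpen_compl)
  have hφx : φ x = (0, 0) := by
    rw [hφ, coord_apply]
    simp [det]
  refine ⟨φ.toOpenPartialHomeomorph.restrOpen U hU, ?_, hφx, ?_⟩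
  · rw [OpenPartialHomeomorph.restrOpen_source]
    refine ⟨trivial, ⟨⟨?_, ?_⟩, h1, h2⟩⟩
    · simp only [Set.mem_preimage, hφx, Set.mem_Ioo]
      constructor <;> linarith only [hτ0, hτ1]
    · simp only [Set.mem_preimage, hφx, Set.mem_Ioo]
      constructor <;> linarith only [hσ0, hσ1]
  · intro y hy
    rw [OpenPartialHomeomorph.restrOpen_source] at hy
    obtain ⟨-, ⟨⟨⟨hy1, hy2⟩, hy3, hy4⟩, hyA, hyB⟩⟩ := hy
    have hys := coord_spec x (q - p) (q' - p') y hdet
    rw [← hφ] at hys
    have e1 : (φ.toOpenPartialHomeomorph.restrOpen U hU) y = φ y := rfl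
    rw [e1, hA, hB]
    simp only at hy1 hy2 hy3 hy4
    have hyA' : y ∉ A' := hyA
    have hyB' : y ∉ B' := hyB
    constructor
    · rw [Set.mem_union, or_iff_left hyA', segment_eq_image_lineMap]
      constructor
      · rintro ⟨ρ, -, hρ⟩
        rw [AffineMap.lineMap_apply_module'] at hρ
        rw [hφ, coord_apply, ← hρ, ← hτ]
        simp only [det, Prod.fst_add, Prod.smul_fst, Prod.fst_sub, Prod.snd_sub, smul_eq_mul,
          Prod.snd_add, Prod.smul_snd]
        rw [div_eq_zero_iff]
        left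
        ring
      · intro h0
        refine ⟨τ + (φ y).1, ⟨by linarith only [hy1], by linarith only [hy2]⟩, ?_⟩
        rw [AffineMap.lineMap_apply_module']
        conv_rhs => rw [hys, h0, ← hτ]
        module
    · rw [Set.mem_union, or_iff_left hyB', segment_eq_image_lineMap]
      constructor
      · rintro ⟨ρ, -, hρ⟩
        rw [AffineMap.lineMap_apply_module'] at hρ
        rw [hφ, coord_apply, ← hρ, ← hσ]
        simp only [det, Prod.fst_add, Prod.smul_fst, Prod.fst_sub, Prod.snd_sub, smul_eq_mul,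
          Prod.snd_add, Prod.smul_snd]
        rw [div_eq_zero_iff]
        left
        ring
      · intro h0
        refine ⟨σ + (φ y).2, ⟨by linarith only [hy3], by linarith only [hy4]⟩, ?_⟩
        rw [AffineMap.lineMap_apply_module']
        conv_rhs => rw [hys, h0, ← hσ]
        module

theorem isClosed_segment' (p q : Plane) : IsClosed (segment ℝ p q) := by
  rw [segment_eq_image_lineMap]
  exact (isCompact_Icc.image (by fun_prop)).isClosed

/-- Two segments through `x` on parallel lines have a second common point. -/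
theorem exists_second {x p q p' q' : Plane} (hpq : p ≠ q) (hpq' : p' ≠ q')
    (hx : x ∈ openSegment ℝ p q) (hx' : x ∈ openSegment ℝ p' q')
    (hdet : det (q - p) (q' - p') = 0) :
    ∃ y, y ≠ x ∧ y ∈ openSegment ℝ p q ∧ y ∈ openSegment ℝ p' q' := by
  have hne : q - p ≠ 0 := sub_ne_zero.2 hpq.symm
  have hne' : q' - p' ≠ 0 := sub_ne_zero.2 hpq'.symm
  have hpar : ∃ c : ℝ, q' - p' = c • (q - p) := by
    unfold det at hdet
    by_cases h : (q - p).1 = 0
    · have h2 : (q - p).2 ≠ 0 := fun h2 => hne (Prod.ext h h2)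
      refine ⟨(q' - p').2 / (q - p).2, ?_⟩
      ext
      · simp only [Prod.smul_fst, smul_eq_mul]
        rw [h] at hdet ⊢
        have : (q - p).2 * (q' - p').1 = 0 := by linarith only [hdet]
        rcases mul_eq_zero.1 this with h3 | h3
        · exact absurd h3 h2
        · rw [h3]; ring
      · simp only [Prod.smul_snd, smul_eq_mul]
        field_simp
    · refine ⟨(q' - p').1 / (q - p).1, ?_⟩
      ext
      · simp only [Prod.smul_fst, smul_eq_mul]
        field_simp
      · simp only [Prod.smul_snd, smul_eq_mul]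
        field_simp
        linarith only [hdet]
  obtain ⟨c, hc⟩ := hpar
  rw [openSegment_eq_image_lineMap] at hx hx'
  obtain ⟨τ, ⟨hτ0, hτ1⟩, hτ⟩ := hx
  obtain ⟨σ, ⟨hσ0, hσ1⟩, hσ⟩ := hx'
  rw [AffineMap.lineMap_apply_module'] at hτ hσ
  have hc0 : c ≠ 0 := by
    rintro rfl
    rw [zero_smul] at hc
    exact hne' hc
  -- move by `ε c` in the first and by `ε` in the second segment
  obtain ⟨ε, hε, h3, h4⟩ : ∃ ε : ℝ, 0 < ε ∧ ε * |c| < min τ (1 - τ) ∧ ε < min σ (1 - σ) := by
    have hm : 0 < min τ (1 - τ) := lt_min hτ0 (by linarith only [hτ1])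
    have hm' : 0 < min σ (1 - σ) := lt_min hσ0 (by linarith only [hσ1])
    have hcpos : 0 < |c| := abs_pos.2 hc0
    refine ⟨min (min τ (1 - τ) / |c|) (min σ (1 - σ)) / 2, ?_, ?_, ?_⟩
    · have : 0 < min τ (1 - τ) / |c| := div_pos hm hcpos
      have := lt_min this hm'
      linarith only [this]
    · have h5 : min (min τ (1 - τ) / |c|) (min σ (1 - σ)) ≤ min τ (1 - τ) / |c| := min_le_left _ _
      have h6 : min (min τ (1 - τ) / |c|) (min σ (1 - σ)) * |c| ≤ min τ (1 - τ) := by
        calc _ ≤ min τ (1 - τ) / |c| * |c| := by gcongr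
          _ = min τ (1 - τ) := by field_simp
      linarith only [hm, h6]
    · have h5 : min (min τ (1 - τ) / |c|) (min σ (1 - σ)) ≤ min σ (1 - σ) := min_le_right _ _
      linarith only [hm', h5]
  have h3a : ε * |c| < τ := h3.trans_le (min_le_left _ _)
  have h3b : ε * |c| < 1 - τ := h3.trans_le (min_le_right _ _)
  have h4a : ε < σ := h4.trans_le (min_le_left _ _)
  have h4b : ε < 1 - σ := h4.trans_le (min_le_right _ _)
  have h5 : -(ε * |c|) ≤ ε * c := by nlinarith [neg_abs_le c]
  have h6 : ε * c ≤ ε * |c| := by nlinarith [le_abs_self c]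
  refine ⟨x + ε • (q' - p'), ?_, ?_, ?_⟩
  · intro h
    have : ε • (q' - p') = 0 := by simpa using h
    rcases smul_eq_zero.1 this with h7 | h7
    · exact hε.ne' h7
    · exact hne' h7
  · rw [openSegment_eq_image_lineMap]
    refine ⟨τ + ε * c, ⟨by linarith only [h3a, h5], by linarith only [h3b, h6]⟩, ?_⟩
    rw [AffineMap.lineMap_apply_module', hc, ← hτ]
    module
  · rw [openSegment_eq_image_lineMap]
    refine ⟨σ + ε, ⟨by linarith only [hε, h4a], by linarith only [h4b]⟩, ?_⟩
    rw [AffineMap.lineMap_apply_module']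
    conv_rhs => rw [← hσ]
    module

section PD

variable {V : Type} {G : SimpleGraph V} (D : PolyDrawing G)

/-- The edge minus one of its segments. -/
def rest (a b : V) (s : Plane × Plane) : Set Plane :=
  ⋃ s' ∈ {s' | s' ∈ segs D a b ∧ s' ≠ s}, segment ℝ s'.1 s'.2

theorem rest_closed (a b : V) (s : Plane × Plane) : IsClosed (rest D a b s) := by
  refine Set.Finite.isClosed_biUnion ((List.finite_toSet (segs D a b)).subset fun s' h => h.1) ?_
  intro s' _
  exact isClosed_segment' _ _

theorem arcSet_eq {a b : V} {s : Plane × Plane} (hs : s ∈ segs D a b) :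
    D.arcSet a b = segment ℝ s.1 s.2 ∪ rest D a b s := by
  ext x
  simp only [rest, Set.mem_union, Set.mem_iUnion, exists_prop]
  constructor
  · rintro ⟨s', hs', hx⟩
    by_cases h : s' = s
    · exact Or.inl (h ▸ hx)
    · exact Or.inr ⟨s', ⟨hs', h⟩, hx⟩
  · rintro (hx | ⟨s', ⟨hs', -⟩, hx⟩)
    · exact ⟨s, hs, hx⟩
    · exact ⟨s', hs', hx⟩

theorem not_mem_rest {a b : V} (hab : G.Adj a b) {s : Plane × Plane} (hs : s ∈ segs D a b)
    {x : Plane} (hx : x ∈ openSegment ℝ s.1 s.2) : x ∉ rest D a b s := by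
  simp only [rest, Set.mem_iUnion, exists_prop, not_exists, not_and]
  rintro s' ⟨hs', hne⟩ hx'
  have ms' := seg_nodes D hab hs'
  rcases mem_segment_cases hx' with h | h | h
  · exact node_avoid D hab hs ms'.1 (h ▸ hx)
  · exact node_avoid D hab hs ms'.2 (h ▸ hx)
  · have hp := D.simple a b hab
    have : Std.Symm (fun s t : Plane × Plane => Disjoint (openSegment ℝ s.1 s.2)
      (openSegment ℝ t.1 t.2)) := ⟨fun s t h => h.symm⟩
    exact Set.disjoint_left.1 (hp.forall hs' hs hne) h hx

theorem crossAt [Finite V] {a b c d : V} (hab : G.Adj a b) (hcd : G.Adj c d)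
    (hne : s(a, b) ≠ s(c, d)) {x : Plane} (hx : ∀ w, x ≠ D.pos w) (h1 : x ∈ D.arcSet a b)
    (h2 : x ∈ D.arcSet c d) : CrossAt (D.arcSet a b) (D.arcSet c d) x := by
  obtain ⟨e, he⟩ := exists_generic (nodes_finite D)
  obtain ⟨s, hs, t, ht, hxs, hxt⟩ := cross_open D hab hcd hne hx h1 h2
  refine crossAt_of_segments hxs hxt ?_ (rest_closed D a b s) (rest_closed D c d t)
    (arcSet_eq D hs) (arcSet_eq D ht) (not_mem_rest D hab hs hxs) (not_mem_rest D hcd ht hxt)
  intro hdet
  obtain ⟨y, hy, hy1, hy2⟩ := exists_second (consec_ne (line_nodup D hab) hs)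
    (consec_ne (line_nodup D hcd) ht) hxs hxt hdet
  exact hy (cross_unique D he hab hcd hne hs ht hy1 hy2 hxs hxt)

end PD

end T4

/-- T4. A polygonal drawing is a drawing with crossings only. -/
theorem exists_cross_of_poly {V : Type} [Fintype V] {G : SimpleGraph V} (D : PolyDrawing G) :
    ∃ D' : CrossDrawing G, D'.toTopDrawing.crossings = D.crossings := by
  refine ⟨⟨T3.top D, ?_⟩, by
    rw [TopDrawing.crossings, PolyDrawing.crossings, T3.top_crossingSet]⟩
  intro e he f hf hne x hx hx'
  induction e using Sym2.ind with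
  | _ a b =>
    induction f using Sym2.ind with
    | _ c d => exact T4.crossAt D he hf hne hx' hx.1 hx.2

end MP60f107

end

section

/-!
P2: from spine drawings to polygonal drawings.  The arc joining the spine points of ranks `a` and `b`
becomes a roof (two segments) of slope `M + |b - a|`, `M` large.
-/

namespace MP60f107

namespace P2

open Finset

/-! ### Geometry of roofs -/

/-- The point of rank `a` on the axis. -/
noncomputable def ptZ (a : ℤ) : Plane := ((a : ℝ), 0)

/-- `±1` -/
def sg (s : Bool) : ℝ := if s then 1 else -1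

lemma sg_ne (s : Bool) : sg s ≠ 0 := by cases s <;> simp [sg]

/-- The peak of the roof over `a, b`. -/
noncomputable def pkZ (M : ℝ) (a b : ℤ) (s : Bool) : Plane :=
  (((a : ℝ) + b) / 2, sg s * ((M + |(b : ℝ) - a|) * (|(b : ℝ) - a| / 2)))

lemma pkZ_symm (M : ℝ) (a b : ℤ) (s : Bool) : pkZ M b a s = pkZ M a b s := by
  unfold pkZ
  rw [abs_sub_comm (a : ℝ) (b : ℝ), add_comm (b : ℝ) (a : ℝ)]

/-- The half of the roof that starts at `a`. -/
lemma mem_half {M : ℝ} {a b : ℤ} (hab : a ≠ b) {s : Bool} {z : Plane}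
    (hz : z ∈ openSegment ℝ (ptZ a) (pkZ M a b s)) :
    ∃ u : ℝ, 0 < u ∧ 2 * u < |(b : ℝ) - a| ∧
      ((a < b ∧ z.1 = a + u) ∨ (b < a ∧ z.1 = a - u)) ∧
      z.2 = sg s * ((M + |(b : ℝ) - a|) * u) := by
  obtain ⟨α, β, hα, hβ, hαβ, rfl⟩ := hz
  have hab' : (b : ℝ) - a ≠ 0 := by
    intro h
    apply hab
    have : (b : ℝ) = a := by linarith only [h]
    exact_mod_cast this.symm
  have hl : 0 < |(b : ℝ) - a| := abs_pos.mpr hab'
  refine ⟨β * (|(b : ℝ) - a| / 2), by positivity, ?_, ?_, ?_⟩
  · have : β < 1 := by linarith only [hα, hαβ]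
    nlinarith only [hl, this]
  · rcases lt_or_gt_of_ne hab with h | h
    · left
      refine ⟨h, ?_⟩
      have h' : (a : ℝ) < b := by exact_mod_cast h
      have : |(b : ℝ) - a| = b - a := abs_of_pos (by linarith only [h'])
      simp only [ptZ, pkZ, Prod.smul_mk, Prod.mk_add_mk, smul_eq_mul, this]
      have hα' : α = 1 - β := by linarith only [hαβ]
      rw [hα']; ring
    · right
      refine ⟨h, ?_⟩
      have h' : (b : ℝ) < a := by exact_mod_cast h
      have : |(b : ℝ) - a| = a - b := by rw [abs_of_neg (by linarith only [h'])]; ring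
      simp only [ptZ, pkZ, Prod.smul_mk, Prod.mk_add_mk, smul_eq_mul, this]
      have hα' : α = 1 - β := by linarith only [hαβ]
      rw [hα']; ring
  · simp only [ptZ, pkZ, Prod.smul_mk, Prod.mk_add_mk, smul_eq_mul]
    ring

lemma half_y_ne {M : ℝ} (hM : 0 < M) {a b : ℤ} (hab : a ≠ b) {s : Bool} {z : Plane}
    (hz : z ∈ openSegment ℝ (ptZ a) (pkZ M a b s)) : z.2 ≠ 0 := by
  obtain ⟨u, hu, -, -, h2⟩ := mem_half hab hz
  rw [h2]
  have := sg_ne s
  positivity

lemma pkZ_y_ne {M : ℝ} (hM : 0 < M) {a b : ℤ} (hab : a ≠ b) {s : Bool} :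
    (pkZ M a b s).2 ≠ 0 := by
  have hab' : (b : ℝ) - a ≠ 0 := by
    intro h
    apply hab
    have : (b : ℝ) = a := by linarith only [h]
    exact_mod_cast this.symm
  have hl : 0 < |(b : ℝ) - a| := abs_pos.mpr hab'
  have := sg_ne s
  unfold pkZ
  positivity

/-- signs agree -/
lemma sg_eq {s s' : Bool} {x y : ℝ} (hx : 0 < x) (hy : 0 < y) (h : sg s * x = sg s' * y) :
    s = s' ∧ x = y := by
  cases s <;> cases s' <;> simp [sg] at h ⊢ <;> linarith only [h, hx, hy]

/-- Numerical core: nearly equal slopes force nearly equal distances. -/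
lemma close_uw {n : ℕ} {M : ℝ} (hM : (2 * (n : ℝ) ^ 2 + 1) ≤ M) {u w l1 l2 : ℝ}
    (hu : 0 < u) (hw : 0 < w) (hu' : 2 * u < l1) (hw' : 2 * w < l2) (h1 : l1 ≤ n) (h2 : l2 ≤ n)
    (h : (M + l1) * u = (M + l2) * w) : -(1 / 2) < u - w ∧ u - w < 1 / 2 := by
  have hn : (0 : ℝ) ≤ n := Nat.cast_nonneg n
  have hl1 : 0 < l1 := by linarith only [hu, hu']
  have hl2 : 0 < l2 := by linarith only [hw, hw']
  have e1 : l1 * u ≤ n ^ 2 := by nlinarith only [hu, hu', h1]
  have e2 : l2 * w ≤ n ^ 2 := by nlinarith only [hw', h2, hl2]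
  have e3 : 0 < l1 * u := by positivity
  have e4 : 0 < l2 * w := by positivity
  have e5 : M * (u - w) = l2 * w - l1 * u := by linarith only [h]
  have hM0 : 0 < M := by linarith only [hM, e2, e4]
  constructor
  · by_contra hc
    push Not at hc
    nlinarith only [hM, e1, e4, e5, hc]
  · by_contra hc
    push Not at hc
    nlinarith only [hM, e2, e3, e5, hc]

/-- Two halves heading towards each other. -/
lemma meet_aux {n : ℕ} {M : ℝ} (hM : (2 * (n : ℝ) ^ 2 + 1) ≤ M) {a b c d : ℤ} {u w : ℝ}
    (hb : b ≤ n) (ha : 0 ≤ a) (hc : c ≤ n) (hd : 0 ≤ d) (hab : a < b) (hdc : d < c)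
    (hu : 0 < u) (hw : 0 < w) (hu' : 2 * u < (b : ℝ) - a) (hw' : 2 * w < (c : ℝ) - d)
    (h : (M + ((b : ℝ) - a)) * u = (M + ((c : ℝ) - d)) * w) (hz : (a : ℝ) + u = c - w) :
    d < a ∧ a < c ∧ c < b := by
  have hb' : (b : ℝ) ≤ n := by exact_mod_cast hb
  have ha' : (0 : ℝ) ≤ a := by exact_mod_cast ha
  have hc' : (c : ℝ) ≤ n := by exact_mod_cast hc
  have hd' : (0 : ℝ) ≤ d := by exact_mod_cast hd
  have hab' : (a : ℝ) < b := by exact_mod_cast hab
  have hdc' : (d : ℝ) < c := by exact_mod_cast hdc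
  obtain ⟨k1, k2⟩ := close_uw hM hu hw hu' hw' (by linarith only [hb', ha']) (by linarith only [hc', hd']) h
  have hn : (0 : ℝ) ≤ n := Nat.cast_nonneg n
  have hM0 : 0 < M := by nlinarith only [hM]
  have hac : a < c := by
    have : (a : ℝ) < c := by linarith only [hu, hw, hz]
    exact_mod_cast this
  have hcb : c ≤ b := by
    by_contra hx
    have : b + 1 ≤ c := by omega
    have : (b : ℝ) + 1 ≤ c := by exact_mod_cast this
    linarith only [hu', hz, k1, this]
  have hda : d ≤ a := by
    by_contra hx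
    have : a + 1 ≤ d := by omega
    have : (a : ℝ) + 1 ≤ d := by exact_mod_cast this
    linarith only [hw', hz, k2, this]
  refine ⟨?_, hac, ?_⟩
  · rcases lt_or_eq_of_le hda with hx | hx
    · exact hx
    · exfalso
      subst hx
      have hcb' : (c : ℝ) ≤ b := by exact_mod_cast hcb
      have k3 : w < u := by linarith only [hw', hz]
      nlinarith only [hdc', hM0, hu', h, hz, k3]
  · rcases lt_or_eq_of_le hcb with hx | hx
    · exact hx
    · exfalso
      subst hx
      have hda' : (d : ℝ) ≤ a := by exact_mod_cast hda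
      have k3 : u < w := by linarith only [hz, hu']
      nlinarith only [hw', hz, hM0, hu', h, hab']

lemma abs_int_le {n : ℕ} {a b : ℤ} (ha : 0 ≤ a ∧ a ≤ n) (hb : 0 ≤ b ∧ b ≤ n) :
    |(b : ℝ) - a| ≤ n := by
  have h1 : (0 : ℝ) ≤ a := by exact_mod_cast ha.1
  have h2 : (a : ℝ) ≤ n := by exact_mod_cast ha.2
  have h3 : (0 : ℝ) ≤ b := by exact_mod_cast hb.1
  have h4 : (b : ℝ) ≤ n := by exact_mod_cast hb.2
  rw [abs_le]; constructor <;> linarith only [h2, h3, h1, h4]

/-- Two half roofs that meet: same page, and either equal or heading towards each other. -/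
lemma half_meet {n : ℕ} {M : ℝ} (hM : (2 * (n : ℝ) ^ 2 + 1) ≤ M) {a b c d : ℤ}
    (ha : 0 ≤ a ∧ a ≤ n) (hb : 0 ≤ b ∧ b ≤ n) (hc : 0 ≤ c ∧ c ≤ n) (hd : 0 ≤ d ∧ d ≤ n)
    (hab : a ≠ b) (hcd : c ≠ d) {s s' : Bool} {z : Plane}
    (hz : z ∈ openSegment ℝ (ptZ a) (pkZ M a b s)) (hz' : z ∈ openSegment ℝ (ptZ c) (pkZ M c d s')) :
    s = s' ∧ ((a = c ∧ b = d) ∨ (d < a ∧ a < c ∧ c < b) ∨ (b < c ∧ c < a ∧ a < d)) := by
  obtain ⟨u, hu, hu', hx, hy⟩ := mem_half hab hz
  obtain ⟨w, hw, hw', hx', hy'⟩ := mem_half hcd hz'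
  have hn : (0 : ℝ) ≤ n := Nat.cast_nonneg n
  have hM0 : 0 < M := by nlinarith only [hM]
  have hl1 : 0 < |(b : ℝ) - a| := by linarith only [hu, hu']
  have hl2 : 0 < |(d : ℝ) - c| := by linarith only [hw, hw']
  obtain ⟨hs, he⟩ := sg_eq (x := (M + |(b : ℝ) - a|) * u) (y := (M + |(d : ℝ) - c|) * w)
    (by positivity) (by positivity) (hy.symm.trans hy')
  refine ⟨hs, ?_⟩
  obtain ⟨k1, k2⟩ := close_uw hM hu hw hu' hw' (abs_int_le ha hb) (abs_int_le hc hd) he
  rcases hx with ⟨h1, hx⟩ | ⟨h1, hx⟩ <;> rcases hx' with ⟨h2, hx'⟩ | ⟨h2, hx'⟩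
  · -- both to the right
    left
    have h1' : (a : ℝ) < b := by exact_mod_cast h1
    have h2' : (c : ℝ) < d := by exact_mod_cast h2
    rw [abs_of_pos (by linarith only [h1'])] at he hu'
    rw [abs_of_pos (by linarith only [h2'])] at he hw'
    have e1 : (c : ℝ) - a = u - w := by linarith only [hx, hx']
    have e2 : a = c := by
      have h3 : ((c - a : ℤ) : ℝ) < 1 := by push_cast; linarith only [k2, e1]
      have h4 : (-1 : ℝ) < ((c - a : ℤ) : ℝ) := by push_cast; linarith only [k1, e1]
      have h3' : c - a < 1 := by exact_mod_cast h3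
      have h4' : -1 < c - a := by exact_mod_cast h4
      omega
    subst e2
    have e3 : u = w := by linarith only [e1]
    subst e3
    have e4 : M + ((b : ℝ) - a) = M + ((d : ℝ) - a) := mul_right_cancel₀ hu.ne' he
    refine ⟨rfl, ?_⟩
    have : (b : ℝ) = d := by linarith only [e4]
    exact_mod_cast this
  · right; left
    have h1' : (a : ℝ) < b := by exact_mod_cast h1
    have h2' : (d : ℝ) < c := by exact_mod_cast h2
    rw [abs_of_pos (by linarith only [h1'])] at he hu'
    have e0 : |(d : ℝ) - c| = c - d := by rw [abs_of_neg (by linarith only [h2'])]; ring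
    rw [e0] at he hw'
    exact meet_aux hM hb.2 ha.1 hc.2 hd.1 h1 h2 hu hw hu' hw' he (by linarith only [hx, hx'])
  · right; right
    have h1' : (b : ℝ) < a := by exact_mod_cast h1
    have h2' : (c : ℝ) < d := by exact_mod_cast h2
    have e0 : |(b : ℝ) - a| = a - b := by rw [abs_of_neg (by linarith only [h1'])]; ring
    rw [e0] at he hu'
    rw [abs_of_pos (by linarith only [h2'])] at he hw'
    exact meet_aux hM hd.2 hc.1 ha.2 hb.1 h2 h1 hw hu hw' hu' he.symm (by linarith only [hx, hx'])
  · -- both to the left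
    left
    have h1' : (b : ℝ) < a := by exact_mod_cast h1
    have h2' : (d : ℝ) < c := by exact_mod_cast h2
    have e0 : |(b : ℝ) - a| = a - b := by rw [abs_of_neg (by linarith only [h1'])]; ring
    have e0' : |(d : ℝ) - c| = c - d := by rw [abs_of_neg (by linarith only [h2'])]; ring
    rw [e0] at he hu'
    rw [e0'] at he hw'
    have e1 : (a : ℝ) - c = u - w := by linarith only [hx, hx']
    have e2 : a = c := by
      have h3 : ((a - c : ℤ) : ℝ) < 1 := by push_cast; linarith only [k2, e1]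
      have h4 : (-1 : ℝ) < ((a - c : ℤ) : ℝ) := by push_cast; linarith only [k1, hx, hx']
      have h3' : a - c < 1 := by exact_mod_cast h3
      have h4' : -1 < a - c := by exact_mod_cast h4
      omega
    subst e2
    have e3 : u = w := by linarith only [e1]
    subst e3
    have e4 : M + ((a : ℝ) - b) = M + ((a : ℝ) - d) := mul_right_cancel₀ hu.ne' he
    refine ⟨rfl, ?_⟩
    have : (b : ℝ) = d := by linarith only [e4]
    exact_mod_cast this

/-- Two different half roofs meet in at most one point. -/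
lemma half_unique {M : ℝ} (hM : 0 < M) {a b c d : ℤ}
    (hab : a ≠ b) (hcd : c ≠ d) (hopp : (a < b ∧ d < c) ∨ (b < a ∧ c < d)) {s s' : Bool}
    {z z' : Plane}
    (h1 : z ∈ openSegment ℝ (ptZ a) (pkZ M a b s)) (h2 : z ∈ openSegment ℝ (ptZ c) (pkZ M c d s'))
    (h1' : z' ∈ openSegment ℝ (ptZ a) (pkZ M a b s))
    (h2' : z' ∈ openSegment ℝ (ptZ c) (pkZ M c d s')) : z = z' := by
  obtain ⟨u, hu, hu', hx, hy⟩ := mem_half hab h1
  obtain ⟨w, hw, hw', hx', hy'⟩ := mem_half hcd h2
  obtain ⟨v, hv, hv', kx, ky⟩ := mem_half hab h1'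
  obtain ⟨t, ht, ht', kx', ky'⟩ := mem_half hcd h2'
  have hl1 : 0 < |(b : ℝ) - a| := by linarith only [hv, hv']
  have hl2 : 0 < |(d : ℝ) - c| := by linarith only [ht, ht']
  obtain ⟨-, he⟩ := sg_eq (x := (M + |(b : ℝ) - a|) * u) (y := (M + |(d : ℝ) - c|) * w)
    (by positivity) (by positivity) (hy.symm.trans hy')
  obtain ⟨-, he'⟩ := sg_eq (x := (M + |(b : ℝ) - a|) * v) (y := (M + |(d : ℝ) - c|) * t)
    (by positivity) (by positivity) (ky.symm.trans ky')
  have hsum : u + w = v + t := by
    rcases hopp with ⟨o1, o2⟩ | ⟨o1, o2⟩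
    · rcases hx with ⟨q1, hx⟩ | ⟨q1, hx⟩ <;> rcases hx' with ⟨q2, hx'⟩ | ⟨q2, hx'⟩ <;>
        rcases kx with ⟨q3, kx⟩ | ⟨q3, kx⟩ <;> rcases kx' with ⟨q4, kx'⟩ | ⟨q4, kx'⟩ <;>
        first | (exfalso; omega) | linarith only [hx, hx', kx, kx']
    · rcases hx with ⟨q1, hx⟩ | ⟨q1, hx⟩ <;> rcases hx' with ⟨q2, hx'⟩ | ⟨q2, hx'⟩ <;>
        rcases kx with ⟨q3, kx⟩ | ⟨q3, kx⟩ <;> rcases kx' with ⟨q4, kx'⟩ | ⟨q4, kx'⟩ <;>
        first | (exfalso; omega) | linarith only [hx, hx', kx, kx']
  have huv : u = v := by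
    have e : (M + |(b : ℝ) - a| + (M + |(d : ℝ) - c|)) * (u - v) = 0 := by
      have : w - t = v - u := by linarith only [hsum]
      have e1 : (M + |(b : ℝ) - a|) * (u - v) = (M + |(d : ℝ) - c|) * (w - t) := by linarith only [he, he']
      rw [this] at e1
      linarith only [e1]
    have e2 : M + |(b : ℝ) - a| + (M + |(d : ℝ) - c|) ≠ 0 := by positivity
    have := (mul_eq_zero.mp e).resolve_left e2
    linarith only [this]
  subst huv
  ext
  · rcases hx with ⟨q1, hx⟩ | ⟨q1, hx⟩ <;> rcases kx with ⟨q3, kx⟩ | ⟨q3, kx⟩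
    · rw [hx, kx]
    · exfalso; omega
    · exfalso; omega
    · rw [hx, kx]
  · rw [hy, ky]

/-- Peaks do not lie on half roofs. -/
lemma pk_not_mem_half {n : ℕ} {M : ℝ} (hM : (2 * (n : ℝ) ^ 2 + 1) ≤ M) {a b c d : ℤ}
    (ha : 0 ≤ a ∧ a ≤ n) (hb : 0 ≤ b ∧ b ≤ n) (hc : 0 ≤ c ∧ c ≤ n) (hd : 0 ≤ d ∧ d ≤ n)
    (hab : a ≠ b) (hcd : c ≠ d) {s s' : Bool} :
    pkZ M c d s' ∉ openSegment ℝ (ptZ a) (pkZ M a b s) := by
  intro hz
  obtain ⟨u, hu, hu', hx, hy⟩ := mem_half hab hz
  have hn : (0 : ℝ) ≤ n := Nat.cast_nonneg n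
  have hM0 : 0 < M := by nlinarith only [hM]
  have hcd' : (d : ℝ) - c ≠ 0 := by
    intro h
    apply hcd
    have : (d : ℝ) = c := by linarith only [h]
    exact_mod_cast this.symm
  have hl2 : 0 < |(d : ℝ) - c| := abs_pos.mpr hcd'
  have hl1 : 0 < |(b : ℝ) - a| := by linarith only [hu, hu']
  simp only [pkZ] at hx hy
  obtain ⟨-, he⟩ := sg_eq (x := (M + |(d : ℝ) - c|) * (|(d : ℝ) - c| / 2))
    (y := (M + |(b : ℝ) - a|) * u) (by positivity) (by positivity) hy
  have l1 := abs_int_le ha hb
  have l2 := abs_int_le hc hd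
  -- `|c + d - 2a| = 2u`
  have e1 : |((c + d - 2 * a : ℤ) : ℝ)| = 2 * u := by
    push_cast
    rcases hx with ⟨q, hx⟩ | ⟨q, hx⟩
    · rw [show (c : ℝ) + d - 2 * a = 2 * u by linarith only [hx], abs_of_pos (by linarith only [hu])]
    · rw [show (c : ℝ) + d - 2 * a = -(2 * u) by linarith only [hx], abs_neg, abs_of_pos (by linarith only [hu])]
  have e2 : |((d - c : ℤ) : ℝ)| = |(d : ℝ) - c| := by push_cast; rfl
  set x : ℤ := |c + d - 2 * a| with hxdef
  set y : ℤ := |d - c| with hydef
  have ex : (x : ℝ) = 2 * u := by rw [hxdef, Int.cast_abs, e1]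
  have ey : (y : ℝ) = |(d : ℝ) - c| := by rw [hydef, Int.cast_abs, e2]
  rw [← ey] at he l2 hl2
  have he2 : (M + y) * y = (M + |(b : ℝ) - a|) * x := by rw [ex]; linarith only [he]
  have hxn : (x : ℝ) ≤ n := by rw [ex]; linarith only [hu', l1]
  have hx0 : 0 < (x : ℝ) := by rw [ex]; linarith only [hu]
  have e5 : M * ((y : ℝ) - x) = |(b : ℝ) - a| * x - y * y := by linarith only [he2]
  have b1 : |(b : ℝ) - a| * x ≤ n ^ 2 := by nlinarith only [hl1, l1, hxn]
  have b2 : (y : ℝ) * y ≤ n ^ 2 := by nlinarith only [hl2, l2]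
  have b3 : 0 < |(b : ℝ) - a| * x := by positivity
  have b4 : 0 < (y : ℝ) * y := by positivity
  have hxy : x = y := by
    have h3 : (y : ℝ) - x < 1 := by
      by_contra hcc; push Not at hcc; nlinarith only [hM, e5, b1, hcc]
    have h4 : (-1 : ℝ) < (y : ℝ) - x := by
      by_contra hcc; push Not at hcc; nlinarith only [hM, e5, b2, b3, hcc]
    have h3' : y - x < 1 := by exact_mod_cast h3
    have h4' : -1 < y - x := by exact_mod_cast h4
    omega
  rw [hxy] at he2 ex
  have : M + (y : ℝ) = M + |(b : ℝ) - a| := mul_right_cancel₀ hl2.ne' he2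
  linarith only [hu', ex, this]

/-- Peaks determine the pair. -/
lemma pk_inj {M : ℝ} (hM : 0 < M) {a b c d : ℤ} (hab : a ≠ b) (hcd : c ≠ d) {s s' : Bool}
    (h : pkZ M a b s = pkZ M c d s') : s = s' ∧ ((a = c ∧ b = d) ∨ (a = d ∧ b = c)) := by
  have hl : ∀ {a b : ℤ}, a ≠ b → 0 < |(b : ℝ) - a| := by
    intro a b hab
    apply abs_pos.mpr
    intro h
    apply hab
    have : (b : ℝ) = a := by linarith only [h]
    exact_mod_cast this.symm
  have h1 := congrArg Prod.fst h
  have h2 := congrArg Prod.snd h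
  simp only [pkZ] at h1 h2
  have p1 := hl hab
  have p2 := hl hcd
  obtain ⟨hs, he⟩ := sg_eq (x := (M + |(b : ℝ) - a|) * (|(b : ℝ) - a| / 2))
    (y := (M + |(d : ℝ) - c|) * (|(d : ℝ) - c| / 2)) (by positivity) (by positivity) h2
  refine ⟨hs, ?_⟩
  have he2 : |(b : ℝ) - a| = |(d : ℝ) - c| := by
    have e : (|(b : ℝ) - a| - |(d : ℝ) - c|) * (M + |(b : ℝ) - a| + |(d : ℝ) - c|) = 0 := by
      linarith only [he]
    have := (mul_eq_zero.mp e).resolve_right (by positivity)
    linarith only [this]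
  have h3 : (a : ℝ) + b = c + d := by linarith only [h1]
  rcases abs_eq_abs.mp he2 with h4 | h4
  · left
    constructor
    · have : (a : ℝ) = c := by linarith only [h3, h4]
      exact_mod_cast this
    · have : (b : ℝ) = d := by linarith only [h3, h4]
      exact_mod_cast this
  · right
    constructor
    · have : (a : ℝ) = d := by linarith only [h3, h4]
      exact_mod_cast this
    · have : (b : ℝ) = c := by linarith only [h3, h4]
      exact_mod_cast this

/-! ### Lists -/

section lists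

variable {L : Type}

lemma arcs_end {a : L} {r : List (Bool × L)} {s : Bool} {b : L} {A : Arc L}
    (h : A ∈ arcs a r s b) :
    (A.p = a ∨ A.p ∈ r.map Prod.snd) ∧ (A.q = b ∨ A.q ∈ r.map Prod.snd) := by
  induction r generalizing a with
  | nil =>
    simp only [arcs, List.mem_singleton] at h
    subst h
    simp
  | cons x r ih =>
    obtain ⟨s₁, p⟩ := x
    simp only [arcs, List.mem_cons] at h
    rcases h with rfl | h
    · simp
    · obtain ⟨h1, h2⟩ := ih h
      constructor
      · right
        rcases h1 with h1 | h1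
        · rw [List.map_cons, h1]; exact List.mem_cons_self
        · rw [List.map_cons]; exact List.mem_cons_of_mem _ h1
      · rcases h2 with h2 | h2
        · left; exact h2
        · right
          rw [List.map_cons]; exact List.mem_cons_of_mem _ h2

lemma arcs_ne {a : L} {r : List (Bool × L)} {s : Bool} {b : L}
    (hn : (a :: (r.map Prod.snd ++ [b])).Nodup) : ∀ A ∈ arcs a r s b, A.p ≠ A.q := by
  induction r generalizing a with
  | nil =>
    intro A hA
    simp only [arcs, List.mem_singleton] at hA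
    subst hA
    simpa using hn
  | cons x r ih =>
    obtain ⟨s₁, p⟩ := x
    intro A hA
    simp only [arcs, List.mem_cons] at hA
    rcases hA with rfl | hA
    · intro h
      simp only at h
      subst h
      simp at hn
    · refine ih ?_ A hA
      simp only [List.map_cons, List.cons_append] at hn
      exact hn.of_cons

lemma arcs_pairwise {a : L} {r : List (Bool × L)} {s : Bool} {b : L}
    (hn : (a :: (r.map Prod.snd ++ [b])).Nodup) :
    (arcs a r s b).Pairwise (fun A B => A.p ≠ B.p ∧ A.p ≠ B.q) := by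
  induction r generalizing a with
  | nil => simp [arcs]
  | cons x r ih =>
    obtain ⟨s₁, p⟩ := x
    simp only [arcs, List.pairwise_cons]
    have hn' : (p :: (r.map Prod.snd ++ [b])).Nodup := by
      simp only [List.map_cons, List.cons_append] at hn
      exact hn.of_cons
    refine ⟨?_, ih hn'⟩
    intro B hB
    obtain ⟨h1, h2⟩ := arcs_end hB
    have hna : a ∉ p :: (r.map Prod.snd ++ [b]) := by
      simp only [List.map_cons, List.cons_append] at hn
      exact (List.nodup_cons.mp hn).1
    simp only [List.mem_cons, List.mem_append, List.mem_singleton, not_or, List.not_mem_nil] at hna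
    constructor
    · rcases h1 with h1 | h1
      · rw [h1]; exact hna.1
      · intro h; rw [← h] at h1; exact hna.2.1 h1
    · rcases h2 with h2 | h2
      · rw [h2]; exact hna.2.2.1
      · intro h; rw [← h] at h2; exact hna.2.1 h2

variable (pt : L → Plane) (pk : L → L → Bool → Plane)

/-- The bends of the polygonal arc. -/
def bendsOf : L → List (Bool × L) → Bool → L → List Plane
  | a, [], s, b => [pk a b s]
  | a, (s₁, p) :: r, s, b => pk a p s₁ :: pt p :: bendsOf p r s b

/-- The two segments of an arc. -/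
def segsOf (A : Arc L) : List (Plane × Plane) :=
  [(pt A.p, pk A.p A.q A.up), (pk A.p A.q A.up, pt A.q)]

lemma consec_bends (a : L) (r : List (Bool × L)) (s : Bool) (b : L) :
    consec (pt a :: (bendsOf pt pk a r s b ++ [pt b])) = (arcs a r s b).flatMap (segsOf pt pk) := by
  induction r generalizing a with
  | nil => rfl
  | cons x r ih =>
    obtain ⟨s₁, p⟩ := x
    simp only [arcs, List.flatMap_cons]
    rw [← ih p]
    rfl

lemma mem_bends {a : L} {r : List (Bool × L)} {s : Bool} {b : L} {z : Plane}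
    (h : z ∈ bendsOf pt pk a r s b) :
    (∃ A ∈ arcs a r s b, z = pk A.p A.q A.up) ∨ ∃ p ∈ r.map Prod.snd, z = pt p := by
  induction r generalizing a with
  | nil =>
    simp only [bendsOf, List.mem_singleton] at h
    left
    exact ⟨⟨a, b, s⟩, by simp [arcs], h⟩
  | cons x r ih =>
    obtain ⟨s₁, p⟩ := x
    simp only [bendsOf, List.mem_cons] at h
    rcases h with h | h | h
    · left
      exact ⟨⟨a, p, s₁⟩, by simp [arcs], h⟩
    · right
      exact ⟨p, by simp, h⟩
    · rcases ih h with ⟨A, hA, hz⟩ | ⟨q, hq, hz⟩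
      · left
        exact ⟨A, by simp [arcs, hA], hz⟩
      · right
        exact ⟨q, by simp only [List.map_cons, List.mem_cons]; right; exact hq, hz⟩

lemma nodup_bends {a : L} {r : List (Bool × L)} {s : Bool} {b : L}
    (h1 : ∀ A ∈ arcs a r s b, ∀ p ∈ r.map Prod.snd, pk A.p A.q A.up ≠ pt p)
    (h2 : (arcs a r s b).Pairwise (fun A B => pk A.p A.q A.up ≠ pk B.p B.q B.up))
    (h3 : (r.map Prod.snd).Pairwise (fun p q => pt p ≠ pt q)) :
    (bendsOf pt pk a r s b).Nodup := by
  induction r generalizing a with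
  | nil => simp [bendsOf]
  | cons x r ih =>
    obtain ⟨s₁, p⟩ := x
    simp only [arcs, List.pairwise_cons, List.map_cons] at h2 h3
    simp only [arcs, List.map_cons, List.mem_cons] at h1
    simp only [bendsOf]
    rw [List.nodup_cons, List.nodup_cons]
    refine ⟨?_, ?_, ih ?_ h2.2 h3.2⟩
    · simp only [List.mem_cons, not_or]
      refine ⟨h1 _ (Or.inl rfl) p (Or.inl rfl), ?_⟩
      intro h
      rcases mem_bends pt pk h with ⟨A, hA, hz⟩ | ⟨q, hq, hz⟩
      · exact h2.1 A hA hz
      · exact h1 _ (Or.inl rfl) q (Or.inr hq) hz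
    · intro h
      rcases mem_bends pt pk h with ⟨A, hA, hz⟩ | ⟨q, hq, hz⟩
      · exact h1 A (Or.inr hA) p (Or.inl rfl) hz.symm
      · exact h3.1 q hq hz
    · intro A hA q hq
      exact h1 A (Or.inr hA) q (Or.inr hq)

end lists

lemma consec_append {P : Type} (l : List P) (a b : P) :
    consec (l ++ [a, b]) = consec (l ++ [a]) ++ [(a, b)] := by
  induction l with
  | nil => rfl
  | cons x l ih =>
    cases l with
    | nil => rfl
    | cons y l =>
      simp only [List.cons_append, consec] at ih ⊢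
      rw [ih]

lemma consec_reverse {P : Type} (l : List P) :
    consec l.reverse = ((consec l).reverse).map Prod.swap := by
  induction l with
  | nil => rfl
  | cons x l ih =>
    cases l with
    | nil => rfl
    | cons y l =>
      simp only [List.reverse_cons, List.append_assoc, List.cons_append, List.nil_append] at ih ⊢
      rw [consec_append, ih]
      simp [consec]

/-! ### The polygonal drawing -/

section main

variable {V ι : Type} [Fintype V] [Fintype ι] {N : Net V ι} {G : SimpleGraph V}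
  {L : Type} [LinearOrder L] (D : Drawing N L)

/-- The points of the drawing on the spine. -/
def used : Finset L :=
  (univ.image D.pos) ∪ univ.biUnion fun i => ((D.inner i).map Prod.snd).toFinset

lemma pos_mem_used (w : V) : D.pos w ∈ used D := by simp [used]

lemma inner_mem_used (i : ι) {p : L} (hp : p ∈ (D.inner i).map Prod.snd) : p ∈ used D := by
  simp only [used, mem_union, mem_biUnion, mem_univ, true_and, List.mem_toFinset]
  exact Or.inr ⟨i, hp⟩

/-- The rank of a point. -/
def rk (x : L) : ℤ := ((used D).filter (· < x)).card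

lemma rk_nonneg (x : L) : 0 ≤ rk D x := by unfold rk; positivity

lemma rk_le (x : L) : rk D x ≤ ((used D).card : ℕ) := by
  unfold rk
  exact_mod_cast card_filter_le _ _

lemma rk_lt {x y : L} (hx : x ∈ used D) (h : x < y) : rk D x < rk D y := by
  unfold rk
  have : ((used D).filter (· < x)).card < ((used D).filter (· < y)).card := by
    apply card_lt_card
    rw [ssubset_iff_of_subset]
    · exact ⟨x, by simp [hx, h], by simp⟩
    · intro z hz
      simp only [mem_filter] at hz ⊢
      exact ⟨hz.1, hz.2.trans h⟩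
  exact_mod_cast this

lemma rk_lt_iff {x y : L} (hx : x ∈ used D) (hy : y ∈ used D) : rk D x < rk D y ↔ x < y := by
  constructor
  · intro h
    by_contra hc
    rcases eq_or_lt_of_le (not_lt.mp hc) with h1 | h1
    · rw [h1] at h; exact lt_irrefl _ h
    · exact lt_asymm h (rk_lt D hy h1)
  · exact rk_lt D hx

lemma rk_inj {x y : L} (hx : x ∈ used D) (hy : y ∈ used D) (h : rk D x = rk D y) : x = y := by
  rcases lt_trichotomy x y with h1 | h1 | h1
  · have := rk_lt D hx h1; omega
  · exact h1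
  · have := rk_lt D hy h1; omega

/-- The slope parameter. -/
noncomputable def slope : ℝ := 2 * ((used D).card : ℝ) ^ 2 + 1

lemma slope_pos : 0 < slope D := by unfold slope; positivity

/-- the plane point of a spine point -/
noncomputable def pt (x : L) : Plane := ptZ (rk D x)

/-- the peak -/
noncomputable def pk (x y : L) (s : Bool) : Plane := pkZ (slope D) (rk D x) (rk D y) s

lemma rk_rng (x : L) : 0 ≤ rk D x ∧ rk D x ≤ ((used D).card : ℕ) := ⟨rk_nonneg D x, rk_le D x⟩

lemma pt_inj {x y : L} (hx : x ∈ used D) (hy : y ∈ used D) (h : pt D x = pt D y) : x = y := by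
  apply rk_inj D hx hy
  have := congrArg Prod.fst h
  simp only [pt, ptZ] at this
  exact_mod_cast this

lemma path_mem_used {i : ι} {A : Arc L} (hA : A ∈ D.path i) : A.p ∈ used D ∧ A.q ∈ used D := by
  obtain ⟨h1, h2⟩ := arcs_end hA
  constructor
  · rcases h1 with h1 | h1
    · rw [h1]; exact pos_mem_used D _
    · exact inner_mem_used D i h1
  · rcases h2 with h2 | h2
    · rw [h2]; exact pos_mem_used D _
    · exact inner_mem_used D i h2

omit [Fintype V] [Fintype ι] in
lemma nodup_full (hN : N.Simple) (i : ι) :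
    (D.pos (N.src i) :: ((D.inner i).map Prod.snd ++ [D.pos (N.tgt i)])).Nodup := by
  rw [List.nodup_cons, List.nodup_append]
  refine ⟨?_, D.nodup i, by simp, ?_⟩
  · simp only [List.mem_append, List.mem_singleton, not_or]
    constructor
    · intro h
      obtain ⟨x, hx, hx'⟩ := List.mem_map.mp h
      exact D.avoid i x hx _ hx'
    · intro h
      exact hN.loopless i (D.pos_inj h)
  · intro x hx y hy
    simp only [List.mem_singleton] at hy
    subst hy
    obtain ⟨z, hz, rfl⟩ := List.mem_map.mp hx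
    exact D.avoid i z hz _

lemma path_ne (hN : N.Simple) {i : ι} {A : Arc L} (hA : A ∈ D.path i) : A.p ≠ A.q :=
  arcs_ne (nodup_full D hN i) A hA

lemma path_rk_ne (hN : N.Simple) {i : ι} {A : Arc L} (hA : A ∈ D.path i) :
    rk D A.p ≠ rk D A.q := fun h =>
  path_ne D hN hA (rk_inj D (path_mem_used D hA).1 (path_mem_used D hA).2 h)

omit [Fintype V] [Fintype ι] in
/-- Arcs of different edges do not have the same end points. -/
lemma no_parallel (hN : N.Simple) {i j : ι} (hij : i ≠ j) {A B : Arc L} (hA : A ∈ D.path i)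
    (hB : B ∈ D.path j) : ¬ ((A.p = B.p ∧ A.q = B.q) ∨ (A.p = B.q ∧ A.q = B.p)) := by
  have key : ∀ x : L, (x = D.pos (N.src i) ∨ x = D.pos (N.tgt i) ∨ x ∈ (D.inner i).map Prod.snd) →
      (x = D.pos (N.src j) ∨ x = D.pos (N.tgt j) ∨ x ∈ (D.inner j).map Prod.snd) →
      x ∉ (D.inner i).map Prod.snd ∧ x ∉ (D.inner j).map Prod.snd := by
    intro x h1 h2
    constructor
    · intro h
      obtain ⟨y, hy, rfl⟩ := List.mem_map.mp h
      rcases h2 with h2 | h2 | h2
      · exact D.avoid i y hy _ h2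
      · exact D.avoid i y hy _ h2
      · obtain ⟨z, hz, hz'⟩ := List.mem_map.mp h2
        exact D.disj i j hij y hy z hz hz'.symm
    · intro h
      obtain ⟨y, hy, rfl⟩ := List.mem_map.mp h
      rcases h1 with h1 | h1 | h1
      · exact D.avoid j y hy _ h1
      · exact D.avoid j y hy _ h1
      · obtain ⟨z, hz, hz'⟩ := List.mem_map.mp h1
        exact D.disj i j hij z hz y hy hz'
  obtain ⟨a1, a2⟩ := arcs_end hA
  obtain ⟨b1, b2⟩ := arcs_end hB
  intro h
  have hap : A.p ∉ (D.inner i).map Prod.snd ∧ A.p ∉ (D.inner j).map Prod.snd := by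
    apply key
    · exact a1.imp_right Or.inr
    · rcases h with ⟨h, -⟩ | ⟨h, -⟩
      · rw [h]; exact b1.imp_right Or.inr
      · rw [h]; exact Or.inr b2
  have haq : A.q ∉ (D.inner i).map Prod.snd ∧ A.q ∉ (D.inner j).map Prod.snd := by
    apply key
    · exact Or.inr a2
    · rcases h with ⟨-, h⟩ | ⟨-, h⟩
      · rw [h]; exact Or.inr b2
      · rw [h]; exact b1.imp_right Or.inr
  have e1 : A.p = D.pos (N.src i) := a1.resolve_right hap.1
  have e2 : A.q = D.pos (N.tgt i) := a2.resolve_right haq.1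
  apply hij
  apply hN.inj
  rcases h with ⟨h1, h2⟩ | ⟨h1, h2⟩
  · have e3 : B.p = D.pos (N.src j) := b1.resolve_right (by rw [← h1]; exact hap.2)
    have e4 : B.q = D.pos (N.tgt j) := b2.resolve_right (by rw [← h2]; exact haq.2)
    have k1 : N.src i = N.src j := D.pos_inj (by rw [← e1, ← e3, h1])
    have k2 : N.tgt i = N.tgt j := D.pos_inj (by rw [← e2, ← e4, h2])
    rw [k1, k2]
  · have e3 : B.p = D.pos (N.src j) := b1.resolve_right (by rw [← h2]; exact haq.2)
    have e4 : B.q = D.pos (N.tgt j) := b2.resolve_right (by rw [← h1]; exact hap.2)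
    have k1 : N.src i = N.tgt j := D.pos_inj (by rw [← e1, ← e4, h1])
    have k2 : N.tgt i = N.src j := D.pos_inj (by rw [← e2, ← e3, h2])
    rw [k1, k2, Sym2.eq_swap]

/-- The two halves of the roof of an arc. -/
def Half (A : Arc L) (x y : L) : Prop := (x = A.p ∧ y = A.q) ∨ (x = A.q ∧ y = A.p)

/-- A point of the open half roof from `x` towards `y`. -/
def OnHalf (x y : L) (s : Bool) (z : Plane) : Prop := z ∈ openSegment ℝ (pt D x) (pk D x y s)

lemma seg_onHalf {A : Arc L} {σ : Plane × Plane} (hσ : σ ∈ segsOf (pt D) (pk D) A) {z : Plane}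
    (hz : z ∈ openSegment ℝ σ.1 σ.2) : ∃ x y, Half A x y ∧ OnHalf D x y A.up z := by
  simp only [segsOf, List.mem_cons, List.not_mem_nil, or_false] at hσ
  rcases hσ with rfl | rfl
  · exact ⟨A.p, A.q, Or.inl ⟨rfl, rfl⟩, hz⟩
  · refine ⟨A.q, A.p, Or.inr ⟨rfl, rfl⟩, ?_⟩
    unfold OnHalf pk
    rw [openSegment_symm, pkZ_symm] at *
    rw [openSegment_symm]
    exact hz

lemma onHalf_y {A : Arc L} (h : rk D A.p ≠ rk D A.q) {x y : L} (hA : Half A x y) {s : Bool}
    {z : Plane} (hz : OnHalf D x y s z) : z.2 ≠ 0 := by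
  have hxy : rk D x ≠ rk D y := by
    rcases hA with ⟨rfl, rfl⟩ | ⟨rfl, rfl⟩
    · exact h
    · exact h.symm
  exact half_y_ne (slope_pos D) hxy hz

/-- Half roofs that meet. -/
lemma onHalf_meet {A B : Arc L} (hA : A.p ∈ used D ∧ A.q ∈ used D) (hB : B.p ∈ used D ∧ B.q ∈ used D)
    (hAn : rk D A.p ≠ rk D A.q) (hBn : rk D B.p ≠ rk D B.q) {x y x' y' : L} (h : Half A x y)
    (h' : Half B x' y') {s s' : Bool} {z : Plane} (hz : OnHalf D x y s z)
    (hz' : OnHalf D x' y' s' z) : s = s' ∧ ((x = x' ∧ y = y') ∨ (y' < x ∧ x < x' ∧ x' < y) ∨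
      (y < x' ∧ x' < x ∧ x < y')) := by
  have ux : x ∈ used D ∧ y ∈ used D ∧ rk D x ≠ rk D y := by
    rcases h with ⟨rfl, rfl⟩ | ⟨rfl, rfl⟩
    · exact ⟨hA.1, hA.2, hAn⟩
    · exact ⟨hA.2, hA.1, hAn.symm⟩
  have ux' : x' ∈ used D ∧ y' ∈ used D ∧ rk D x' ≠ rk D y' := by
    rcases h' with ⟨rfl, rfl⟩ | ⟨rfl, rfl⟩
    · exact ⟨hB.1, hB.2, hBn⟩
    · exact ⟨hB.2, hB.1, hBn.symm⟩
  obtain ⟨h1, h2⟩ := half_meet (n := (used D).card) (M := slope D) (by unfold slope; exact le_rfl)
    (rk_rng D x) (rk_rng D y) (rk_rng D x') (rk_rng D y') ux.2.2 ux'.2.2 hz hz'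
  refine ⟨h1, ?_⟩
  rcases h2 with ⟨e1, e2⟩ | ⟨e1, e2, e3⟩ | ⟨e1, e2, e3⟩
  · exact Or.inl ⟨rk_inj D ux.1 ux'.1 e1, rk_inj D ux.2.1 ux'.2.1 e2⟩
  · exact Or.inr (Or.inl ⟨(rk_lt_iff D ux'.2.1 ux.1).mp e1, (rk_lt_iff D ux.1 ux'.1).mp e2,
      (rk_lt_iff D ux'.1 ux.2.1).mp e3⟩)
  · exact Or.inr (Or.inr ⟨(rk_lt_iff D ux.2.1 ux'.1).mp e1, (rk_lt_iff D ux'.1 ux.1).mp e2,
      (rk_lt_iff D ux.1 ux'.2.1).mp e3⟩)

/-- If the roofs meet, the arcs have the same ends or cross. -/
lemma meet_X {A B : Arc L} (hA : A.p ∈ used D ∧ A.q ∈ used D) (hB : B.p ∈ used D ∧ B.q ∈ used D)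
    (hAn : rk D A.p ≠ rk D A.q) (hBn : rk D B.p ≠ rk D B.q) {x y x' y' : L} (h : Half A x y)
    (h' : Half B x' y') {z : Plane} (hz : OnHalf D x y A.up z)
    (hz' : OnHalf D x' y' B.up z) : (x = x' ∧ y = y') ∨ X A B = 1 := by
  obtain ⟨h1, h2⟩ := onHalf_meet D hA hB hAn hBn h h' hz hz'
  rcases h2 with h2 | h2
  · exact Or.inl h2
  · right
    have : Ilv A.p A.q B.p B.q := by
      unfold Ilv Btw Ots
      rcases h with ⟨rfl, rfl⟩ | ⟨rfl, rfl⟩ <;> rcases h' with ⟨rfl, rfl⟩ | ⟨rfl, rfl⟩ <;>
        rcases h2 with ⟨a, b, c⟩ | ⟨a, b, c⟩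
      · left; exact ⟨Or.inl ⟨b, c⟩, Or.inl ⟨a, a.trans (b.trans c)⟩⟩
      · left; exact ⟨Or.inr ⟨a, b⟩, Or.inr ⟨c, (a.trans b).trans c⟩⟩
      · right; exact ⟨Or.inl ⟨a, a.trans (b.trans c)⟩, Or.inl ⟨b, c⟩⟩
      · right; exact ⟨Or.inr ⟨c, (a.trans b).trans c⟩, Or.inr ⟨a, b⟩⟩
      · left; exact ⟨Or.inr ⟨b, c⟩, Or.inl ⟨a.trans (b.trans c), a⟩⟩
      · left; exact ⟨Or.inl ⟨a, b⟩, Or.inr ⟨(a.trans b).trans c, c⟩⟩
      · right; exact ⟨Or.inl ⟨a.trans (b.trans c), a⟩, Or.inr ⟨b, c⟩⟩
      · right; exact ⟨Or.inr ⟨(a.trans b).trans c, c⟩, Or.inl ⟨a, b⟩⟩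
    simp [X, h1, this]


/-- The bends of the net edge `i`. -/
noncomputable def ebends (i : ι) : List Plane :=
  bendsOf (pt D) (pk D) (D.pos (N.src i)) (D.inner i) (D.last i) (D.pos (N.tgt i))

/-- All points of the polygonal arc of the net edge `i`. -/
noncomputable def full (i : ι) : List Plane :=
  pt D (D.pos (N.src i)) :: (ebends D i ++ [pt D (D.pos (N.tgt i))])

open Classical in
/-- The bends of the edge `ab`. -/
noncomputable def gbends (a b : V) : List Plane :=
  if h : ∃ i, N.src i = a ∧ N.tgt i = b then ebends D h.choose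
  else if h : ∃ i, N.src i = b ∧ N.tgt i = a then (ebends D h.choose).reverse
  else []

lemma gbends_fwd (hN : N.Simple) (i : ι) : gbends D (N.src i) (N.tgt i) = ebends D i := by
  have h : ∃ j, N.src j = N.src i ∧ N.tgt j = N.tgt i := ⟨i, rfl, rfl⟩
  have e : h.choose = i := hN.inj _ _ (by rw [h.choose_spec.1, h.choose_spec.2])
  unfold gbends
  rw [dif_pos h, e]

lemma gbends_bwd (hN : N.Simple) (i : ι) : gbends D (N.tgt i) (N.src i) = (ebends D i).reverse := by
  have h0 : ¬ ∃ j, N.src j = N.tgt i ∧ N.tgt j = N.src i := by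
    rintro ⟨j, h1, h2⟩
    have : j = i := hN.inj _ _ (by rw [h1, h2, Sym2.eq_swap])
    subst this
    exact hN.loopless j h1
  have h : ∃ j, N.src j = N.src i ∧ N.tgt j = N.tgt i := ⟨i, rfl, rfl⟩
  have e : h.choose = i := hN.inj _ _ (by rw [h.choose_spec.1, h.choose_spec.2])
  unfold gbends
  rw [dif_neg h0, dif_pos h, e]

lemma gbends_symm (hN : N.Simple) (a b : V) : gbends D b a = (gbends D a b).reverse := by
  by_cases h : ∃ i, N.src i = a ∧ N.tgt i = b
  · obtain ⟨i, rfl, rfl⟩ := h
    rw [gbends_fwd D hN, gbends_bwd D hN]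
  · by_cases h' : ∃ i, N.src i = b ∧ N.tgt i = a
    · obtain ⟨i, rfl, rfl⟩ := h'
      rw [gbends_fwd D hN, gbends_bwd D hN, List.reverse_reverse]
    · unfold gbends
      rw [dif_neg h, dif_neg h', dif_neg h', dif_neg h]
      rfl

/-- The polygonal arc of `ab` is that of a net edge, possibly reversed. -/
lemma glist (hN : N.Rep G) {a b : V} (hab : G.Adj a b) :
    ∃ i, s(N.src i, N.tgt i) = s(a, b) ∧
      (gbends D a b = ebends D i ∨ gbends D a b = (ebends D i).reverse) ∧
      (pt D (D.pos a) :: (gbends D a b ++ [pt D (D.pos b)]) = full D i ∨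
      pt D (D.pos a) :: (gbends D a b ++ [pt D (D.pos b)]) = (full D i).reverse) := by
  obtain ⟨i, hi⟩ := (hN.adj a b).mp hab
  refine ⟨i, hi, ?_⟩
  rw [Sym2.eq_iff] at hi
  rcases hi with ⟨rfl, rfl⟩ | ⟨rfl, rfl⟩
  · constructor
    · left; exact gbends_fwd D hN.simple i
    · left; rw [gbends_fwd D hN.simple]; rfl
  · constructor
    · right; exact gbends_bwd D hN.simple i
    · right; rw [gbends_bwd D hN.simple]; simp [full]

lemma full_seg {i : ι} {σ : Plane × Plane} (hσ : σ ∈ consec (full D i)) :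
    ∃ A ∈ D.path i, σ ∈ segsOf (pt D) (pk D) A := by
  unfold full ebends at hσ
  rw [consec_bends] at hσ
  exact List.mem_flatMap.mp hσ

/-- Points of the open segments of a list or its reverse. -/
lemma glist_seg {i : ι} {l : List Plane} (hl : l = full D i ∨ l = (full D i).reverse)
    {σ : Plane × Plane} (hσ : σ ∈ consec l) {z : Plane} (hz : z ∈ openSegment ℝ σ.1 σ.2) :
    ∃ A ∈ D.path i, ∃ x y, Half A x y ∧ OnHalf D x y A.up z := by
  rcases hl with rfl | rfl
  · obtain ⟨A, hA, h⟩ := full_seg D hσ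
    exact ⟨A, hA, seg_onHalf D h hz⟩
  · rw [consec_reverse, List.mem_map] at hσ
    obtain ⟨τ, hτ, rfl⟩ := hσ
    obtain ⟨A, hA, h⟩ := full_seg D (List.mem_reverse.mp hτ)
    refine ⟨A, hA, seg_onHalf D h ?_⟩
    rw [openSegment_symm]
    exact hz

lemma bend_cases {i : ι} {l : List Plane} (hl : l = ebends D i ∨ l = (ebends D i).reverse)
    {z : Plane} (hz : z ∈ l) :
    (∃ A ∈ D.path i, z = pk D A.p A.q A.up) ∨ ∃ p ∈ (D.inner i).map Prod.snd, z = pt D p := by
  have : z ∈ ebends D i := by
    rcases hl with rfl | rfl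
    · exact hz
    · exact List.mem_reverse.mp hz
  exact mem_bends (pt D) (pk D) this

lemma pk_y_ne (hN : N.Simple) {i : ι} {A : Arc L} (hA : A ∈ D.path i) :
    (pk D A.p A.q A.up).2 ≠ 0 := pkZ_y_ne (slope_pos D) (path_rk_ne D hN hA)

lemma pt_y (x : L) : (pt D x).2 = 0 := rfl

lemma pk_eq {A B : Arc L} (hA : A.p ∈ used D ∧ A.q ∈ used D) (hB : B.p ∈ used D ∧ B.q ∈ used D)
    (hAn : rk D A.p ≠ rk D A.q) (hBn : rk D B.p ≠ rk D B.q)
    (h : pk D A.p A.q A.up = pk D B.p B.q B.up) :
    (A.p = B.p ∧ A.q = B.q) ∨ (A.p = B.q ∧ A.q = B.p) := by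
  rcases (pk_inj (slope_pos D) hAn hBn h).2 with ⟨h1, h2⟩ | ⟨h1, h2⟩
  · exact Or.inl ⟨rk_inj D hA.1 hB.1 h1, rk_inj D hA.2 hB.2 h2⟩
  · exact Or.inr ⟨rk_inj D hA.1 hB.2 h1, rk_inj D hA.2 hB.1 h2⟩

lemma ebends_nodup (hN : N.Simple) (i : ι) : (ebends D i).Nodup := by
  unfold ebends
  apply nodup_bends
  · intro A hA p _ h
    have h1 := pk_y_ne D hN (A := A) (i := i) hA
    rw [h] at h1
    exact h1 (pt_y D p)
  · have h1 := arcs_pairwise (s := D.last i) (nodup_full D hN i)
    refine List.Pairwise.imp_of_mem ?_ h1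
    intro A B hA hB h h'
    rcases pk_eq D (path_mem_used D (i := i) hA) (path_mem_used D (i := i) hB)
      (path_rk_ne D hN (i := i) hA) (path_rk_ne D hN (i := i) hB) h' with h2 | h2
    · exact h.1 h2.1
    · exact h.2 h2.1
  · refine List.Pairwise.imp_of_mem ?_ (D.nodup i)
    intro p q hp hq hpq h
    exact hpq (pt_inj D (inner_mem_used D i hp) (inner_mem_used D i hq) h)

lemma crL_eq_zero {P Q : List (Arc L)} (h : crL P Q = 0) {A B : Arc L} (hA : A ∈ P) (hB : B ∈ Q) :
    X A B = 0 := by
  unfold crL at h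
  rw [List.sum_eq_zero_iff] at h
  have h1 := h _ (List.mem_map.mpr ⟨A, hA, rfl⟩)
  rw [List.sum_eq_zero_iff] at h1
  exact h1 _ (List.mem_map.mpr ⟨B, hB, rfl⟩)

lemma full_simple (hN : N.Simple) (hs : ∀ i, crL (D.path i) (D.path i) = 0) (i : ι) :
    (consec (full D i)).Pairwise
      (fun s t => Disjoint (openSegment ℝ s.1 s.2) (openSegment ℝ t.1 t.2)) := by
  unfold full ebends
  rw [consec_bends, List.pairwise_flatMap]
  constructor
  · intro A hA
    have hA' : A ∈ D.path i := hA
    simp only [segsOf, List.pairwise_cons, List.mem_singleton, forall_eq, List.not_mem_nil,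
      false_imp_iff, implies_true, List.Pairwise.nil, and_true]
    rw [Set.disjoint_left]
    intro z hz hz'
    rw [openSegment_symm] at hz'
    have h1 : OnHalf D A.p A.q A.up z := hz
    have h2 : OnHalf D A.q A.p A.up z := by
      unfold OnHalf pk; rw [pkZ_symm]; exact hz'
    have h3 := onHalf_meet D (path_mem_used D hA') (path_mem_used D hA') (path_rk_ne D hN hA')
      (path_rk_ne D hN hA') (Or.inl ⟨rfl, rfl⟩) (Or.inr ⟨rfl, rfl⟩) h1 h2
    rcases h3.2 with h | h | h
    · exact path_ne D hN hA' h.1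
    · exact lt_irrefl _ h.1
    · exact lt_irrefl _ h.1
  · have h1 := arcs_pairwise (s := D.last i) (nodup_full D hN i)
    refine List.Pairwise.imp_of_mem ?_ h1
    intro A B hA hB h σ hσ τ hτ
    rw [Set.disjoint_left]
    intro z hz hz'
    obtain ⟨x, y, hxy, k1⟩ := seg_onHalf D hσ hz
    obtain ⟨x', y', hxy', k2⟩ := seg_onHalf D hτ hz'
    rcases meet_X D (path_mem_used D (i := i) hA) (path_mem_used D (i := i) hB)
      (path_rk_ne D hN (i := i) hA) (path_rk_ne D hN (i := i) hB) hxy hxy' k1 k2 with h2 | h2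
    · obtain ⟨rfl, rfl⟩ := h2
      rcases hxy with ⟨rfl, rfl⟩ | ⟨rfl, rfl⟩ <;> rcases hxy' with ⟨h3, h4⟩ | ⟨h3, h4⟩
      · exact h.1 h3
      · exact h.2 h3
      · exact h.2 h4
      · exact h.1 h4
    · have := crL_eq_zero (hs i) (A := A) (B := B) hA hB
      omega

/-- The polygonal drawing. -/
noncomputable def poly (hN : N.Rep G) (hs : ∀ i, crL (D.path i) (D.path i) = 0) :
    PolyDrawing G where
  pos w := pt D (D.pos w)
  bends := gbends D
  bends_symm a b := gbends_symm D hN.simple a b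
  pos_inj a b h := D.pos_inj (pt_inj D (pos_mem_used D a) (pos_mem_used D b) h)
  nodup a b hab := by
    obtain ⟨i, -, h | h, -⟩ := glist D hN hab <;> rw [h]
    · exact ebends_nodup D hN.simple i
    · exact List.nodup_reverse.mpr (ebends_nodup D hN.simple i)
  avoid a b hab x hx w h := by
    obtain ⟨i, -, hb, -⟩ := glist D hN hab
    rcases bend_cases D hb hx with ⟨A, hA, e⟩ | ⟨p, hp, e⟩
    · apply pk_y_ne D hN.simple hA
      rw [← e, h]; rfl
    · have h1 := pt_inj D (inner_mem_used D i hp) (pos_mem_used D w) (e.symm.trans h)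
      obtain ⟨y, hy, rfl⟩ := List.mem_map.mp hp
      exact D.avoid i y hy w h1
  disj a b c d hab hcd hne x hx hx' := by
    obtain ⟨i, hi, hb, -⟩ := glist D hN hab
    obtain ⟨j, hj, hb', -⟩ := glist D hN hcd
    have hij : i ≠ j := by
      rintro rfl
      exact hne (hi.symm.trans hj)
    rcases bend_cases D hb hx with ⟨A, hA, e⟩ | ⟨p, hp, e⟩ <;>
      rcases bend_cases D hb' hx' with ⟨B, hB, e'⟩ | ⟨q, hq, e'⟩
    · exact no_parallel D hN.simple hij hA hB (pk_eq D (path_mem_used D hA) (path_mem_used D hB)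
        (path_rk_ne D hN.simple hA) (path_rk_ne D hN.simple hB) (e.symm.trans e'))
    · apply pk_y_ne D hN.simple hA
      rw [← e, e']; rfl
    · apply pk_y_ne D hN.simple hB
      rw [← e', e]; rfl
    · have h1 := pt_inj D (inner_mem_used D i hp) (inner_mem_used D j hq) (e.symm.trans e')
      obtain ⟨y, hy, rfl⟩ := List.mem_map.mp hp
      obtain ⟨y', hy', h2⟩ := List.mem_map.mp hq
      exact D.disj i j hij y hy y' hy' (h1.trans h2.symm)
  pos_avoid a b hab σ hσ w hw := by
    obtain ⟨i, -, -, hl⟩ := glist D hN hab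
    obtain ⟨A, hA, x, y, hxy, h⟩ := glist_seg D hl hσ hw
    exact onHalf_y D (path_rk_ne D hN.simple hA) hxy h rfl
  bend_avoid a b c d hab hcd σ hσ x hx hxs := by
    obtain ⟨i, -, -, hl⟩ := glist D hN hab
    obtain ⟨j, -, hb, -⟩ := glist D hN hcd
    obtain ⟨A, hA, p, q, hpq, h⟩ := glist_seg D hl hσ hxs
    rcases bend_cases D hb hx with ⟨B, hB, e⟩ | ⟨r, hr, e⟩
    · subst e
      have h1 := path_rk_ne D hN.simple hA
      have h2 := path_rk_ne D hN.simple hB
      have hpq' : rk D p ≠ rk D q := by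
        rcases hpq with ⟨rfl, rfl⟩ | ⟨rfl, rfl⟩
        · exact h1
        · exact h1.symm
      exact pk_not_mem_half (n := (used D).card) (M := slope D) (by unfold slope; exact le_rfl)
        (rk_rng D p) (rk_rng D q) (rk_rng D B.p) (rk_rng D B.q) hpq' h2 h
    · refine onHalf_y D (path_rk_ne D hN.simple hA) hpq h ?_
      rw [e]; rfl
  simple a b hab := by
    obtain ⟨i, -, -, hl | hl⟩ := glist D hN hab <;> rw [hl]
    · exact full_simple D hN.simple hs i
    · rw [consec_reverse, List.pairwise_map, List.pairwise_reverse]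
      refine (full_simple D hN.simple hs i).imp ?_
      intro s t h
      simp only [Prod.fst_swap, Prod.snd_swap]
      rw [openSegment_symm ℝ t.2, openSegment_symm ℝ s.2]
      exact h.symm


/-! ### Counting the crossings -/

/-- A point of the roof of `A`, off the axis and not the peak. -/
def OnTent (A : Arc L) (z : Plane) : Prop := ∃ x y, Half A x y ∧ OnHalf D x y A.up z

lemma tent_unique {A B : Arc L} (hA : A.p ∈ used D ∧ A.q ∈ used D)
    (hB : B.p ∈ used D ∧ B.q ∈ used D)
    (hAn : rk D A.p ≠ rk D A.q) (hBn : rk D B.p ≠ rk D B.q)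
    (hne : ¬ ((A.p = B.p ∧ A.q = B.q) ∨ (A.p = B.q ∧ A.q = B.p))) {z z' : Plane}
    (h1 : OnTent D A z) (h2 : OnTent D B z) (h1' : OnTent D A z') (h2' : OnTent D B z') :
    z = z' := by
  obtain ⟨x, y, hxy, a1⟩ := h1
  obtain ⟨x', y', hxy', a2⟩ := h2
  obtain ⟨p, q, hpq, a3⟩ := h1'
  obtain ⟨p', q', hpq', a4⟩ := h2'
  obtain ⟨-, k1⟩ := onHalf_meet D hA hB hAn hBn hxy hxy' a1 a2
  obtain ⟨-, k2⟩ := onHalf_meet D hA hB hAn hBn hpq hpq' a3 a4
  have e1 : ¬ (x = x' ∧ y = y') := by
    rintro ⟨rfl, rfl⟩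
    apply hne
    rcases hxy with ⟨h4, h5⟩ | ⟨h4, h5⟩ <;> rcases hxy' with ⟨h6, h7⟩ | ⟨h6, h7⟩
    · exact Or.inl ⟨h4.symm.trans h6, h5.symm.trans h7⟩
    · exact Or.inr ⟨h4.symm.trans h6, h5.symm.trans h7⟩
    · exact Or.inr ⟨h5.symm.trans h7, h4.symm.trans h6⟩
    · exact Or.inl ⟨h5.symm.trans h7, h4.symm.trans h6⟩
  have e2 : ¬ (p = p' ∧ q = q') := by
    rintro ⟨rfl, rfl⟩
    apply hne
    rcases hpq with ⟨h4, h5⟩ | ⟨h4, h5⟩ <;> rcases hpq' with ⟨h6, h7⟩ | ⟨h6, h7⟩
    · exact Or.inl ⟨h4.symm.trans h6, h5.symm.trans h7⟩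
    · exact Or.inr ⟨h4.symm.trans h6, h5.symm.trans h7⟩
    · exact Or.inr ⟨h5.symm.trans h7, h4.symm.trans h6⟩
    · exact Or.inl ⟨h5.symm.trans h7, h4.symm.trans h6⟩
  have k1' := k1.resolve_left e1
  have k2' := k2.resolve_left e2
  -- the halves are the same
  have hsame : x = p ∧ y = q ∧ x' = p' ∧ y' = q' := by
    have c1 : (p = x ∧ q = y) ∨ (p = y ∧ q = x) := by
      rcases hxy with ⟨h3, h4⟩ | ⟨h3, h4⟩ <;> rcases hpq with ⟨h5, h6⟩ | ⟨h5, h6⟩
      · exact Or.inl ⟨h5.trans h3.symm, h6.trans h4.symm⟩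
      · exact Or.inr ⟨h5.trans h4.symm, h6.trans h3.symm⟩
      · exact Or.inr ⟨h5.trans h4.symm, h6.trans h3.symm⟩
      · exact Or.inl ⟨h5.trans h3.symm, h6.trans h4.symm⟩
    have c2 : (p' = x' ∧ q' = y') ∨ (p' = y' ∧ q' = x') := by
      rcases hxy' with ⟨h3, h4⟩ | ⟨h3, h4⟩ <;> rcases hpq' with ⟨h5, h6⟩ | ⟨h5, h6⟩
      · exact Or.inl ⟨h5.trans h3.symm, h6.trans h4.symm⟩
      · exact Or.inr ⟨h5.trans h4.symm, h6.trans h3.symm⟩
      · exact Or.inr ⟨h5.trans h4.symm, h6.trans h3.symm⟩
      · exact Or.inl ⟨h5.trans h3.symm, h6.trans h4.symm⟩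
    rcases c1 with ⟨rfl, rfl⟩ | ⟨rfl, rfl⟩ <;> rcases c2 with ⟨rfl, rfl⟩ | ⟨rfl, rfl⟩
    · exact ⟨rfl, rfl, rfl, rfl⟩
    all_goals
      exfalso
      clear * - k1' k2'
      rcases k1' with ⟨l1, l2, l3⟩ | ⟨l1, l2, l3⟩ <;> rcases k2' with ⟨m1, m2, m3⟩ | ⟨m1, m2, m3⟩ <;>
        first
        | exact lt_asymm l2 m2
        | exact lt_asymm l2 m1
        | exact lt_asymm l2 m3
        | exact lt_asymm l1 m1
        | exact lt_asymm l3 m3
        | exact lt_asymm l1 m3
        | exact lt_asymm l3 m1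
        | exact lt_asymm (l1.trans (l2.trans l3)) m1
        | exact lt_asymm (l1.trans (l2.trans l3)) m2
        | exact lt_asymm (l1.trans (l2.trans l3)) m3
        | exact lt_asymm (l1.trans l2) m1
        | exact lt_asymm (l1.trans l2) m2
        | exact lt_asymm (l1.trans l2) m3
        | exact lt_asymm (l2.trans l3) m1
        | exact lt_asymm (l2.trans l3) m2
        | exact lt_asymm (l2.trans l3) m3
        | order
  obtain ⟨rfl, rfl, rfl, rfl⟩ := hsame
  have ux : x ∈ used D ∧ y ∈ used D ∧ rk D x ≠ rk D y := by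
    rcases hxy with ⟨rfl, rfl⟩ | ⟨rfl, rfl⟩
    · exact ⟨hA.1, hA.2, hAn⟩
    · exact ⟨hA.2, hA.1, hAn.symm⟩
  have ux' : x' ∈ used D ∧ y' ∈ used D ∧ rk D x' ≠ rk D y' := by
    rcases hxy' with ⟨rfl, rfl⟩ | ⟨rfl, rfl⟩
    · exact ⟨hB.1, hB.2, hBn⟩
    · exact ⟨hB.2, hB.1, hBn.symm⟩
  refine half_unique (slope_pos D) ux.2.2 ux'.2.2 ?_ a1 a2 a3 a4
  rcases k1' with ⟨l1, l2, l3⟩ | ⟨l1, l2, l3⟩
  · left
    exact ⟨(rk_lt_iff D ux.1 ux.2.1).mpr (l2.trans l3), (rk_lt_iff D ux'.2.1 ux'.1).mpr (l1.trans l2)⟩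
  · right
    exact ⟨(rk_lt_iff D ux.2.1 ux.1).mpr (l1.trans l2), (rk_lt_iff D ux'.1 ux'.2.1).mpr (l2.trans l3)⟩

/-- Points of a closed roof. -/
lemma closed_cases {i : ι} {l : List Plane} (hl : l = full D i ∨ l = (full D i).reverse)
    {σ : Plane × Plane} (hσ : σ ∈ consec l) {z : Plane} (hz : z ∈ segment ℝ σ.1 σ.2) :
    ∃ A ∈ D.path i, (z = pt D A.p ∨ z = pt D A.q) ∨ z = pk D A.p A.q A.up ∨ OnTent D A z := by
  -- reduce to a segment of `full`
  have hred : ∃ τ ∈ consec (full D i), z ∈ segment ℝ τ.1 τ.2 := by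
    rcases hl with rfl | rfl
    · exact ⟨σ, hσ, hz⟩
    · rw [consec_reverse, List.mem_map] at hσ
      obtain ⟨τ, hτ, rfl⟩ := hσ
      refine ⟨τ, List.mem_reverse.mp hτ, ?_⟩
      rw [segment_symm]
      exact hz
  obtain ⟨τ, hτ, hz⟩ := hred
  obtain ⟨A, hA, h⟩ := full_seg D hτ
  refine ⟨A, hA, ?_⟩
  rw [← insert_endpoints_openSegment] at hz
  have h' := h
  simp only [segsOf, List.mem_cons, List.not_mem_nil, or_false] at h'
  rcases hz with hz | hz | hz
  · rcases h' with rfl | rfl
    · left; left; exact hz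
    · right; left; exact hz
  · rcases h' with rfl | rfl
    · right; left; exact hz
    · left; right; exact hz
  · right; right
    exact seg_onHalf D h hz

omit [Fintype V] [Fintype ι] in
/-- A common end point of arcs of different edges is a vertex. -/
lemma common_vertex {i j : ι} (hij : i ≠ j) {A B : Arc L} (hA : A ∈ D.path i)
    (hB : B ∈ D.path j) {x : L} (hx : x = A.p ∨ x = A.q) (hx' : x = B.p ∨ x = B.q) :
    ∃ w, x = D.pos w := by
  obtain ⟨a1, a2⟩ := arcs_end hA
  obtain ⟨b1, b2⟩ := arcs_end hB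
  have h1 : (∃ w, x = D.pos w) ∨ x ∈ (D.inner i).map Prod.snd := by
    rcases hx with rfl | rfl
    · rcases a1 with a1 | a1
      · exact Or.inl ⟨_, a1⟩
      · exact Or.inr a1
    · rcases a2 with a2 | a2
      · exact Or.inl ⟨_, a2⟩
      · exact Or.inr a2
  have h2 : (∃ w, x = D.pos w) ∨ x ∈ (D.inner j).map Prod.snd := by
    rcases hx' with rfl | rfl
    · rcases b1 with b1 | b1
      · exact Or.inl ⟨_, b1⟩
      · exact Or.inr b1
    · rcases b2 with b2 | b2
      · exact Or.inl ⟨_, b2⟩
      · exact Or.inr b2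
  rcases h1 with h1 | h1
  · exact h1
  · rcases h2 with h2 | h2
    · exact h2
    · obtain ⟨y, hy, rfl⟩ := List.mem_map.mp h1
      obtain ⟨y', hy', h3⟩ := List.mem_map.mp h2
      exact absurd h3.symm (D.disj i j hij y hy y' hy')

/-- Indices of arcs. -/
abbrev AIx : Type _ := Σ i, Fin (D.path i).length

/-- The arc with a given index. -/
def arcAt (a : AIx D) : Arc L := (D.path a.1)[a.2]

omit [Fintype V] [Fintype ι] in
lemma arcAt_mem (a : AIx D) : arcAt D a ∈ D.path a.1 := List.getElem_mem _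

omit [Fintype V] in
lemma dcr_eq [DecidableEq ι] :
    D.dcr = ∑ a : AIx D, ∑ b : AIx D, if a.1 = b.1 then 0 else X (arcAt D a) (arcAt D b) := by
  unfold Drawing.dcr
  rw [Fintype.sum_sigma]
  refine sum_congr rfl fun i _ => ?_
  simp_rw [Fintype.sum_sigma]
  rw [sum_comm]
  refine sum_congr rfl fun j _ => ?_
  by_cases h : i = j
  · simp [h]
  · simp only [h, if_false]
    unfold crL
    rw [← Fin.sum_univ_fun_getElem]
    refine sum_congr rfl fun m _ => ?_
    rw [← Fin.sum_univ_fun_getElem]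
    rfl

lemma crossing_spec (hN : N.Rep G) (hs : ∀ i, crL (D.path i) (D.path i) = 0)
    {z : Plane × Sym2 (Sym2 V)} (hz : z ∈ (poly D hN hs).crossingSet) :
    ∃ a b : AIx D, a.1 ≠ b.1 ∧ X (arcAt D a) (arcAt D b) = 1 ∧ X (arcAt D b) (arcAt D a) = 1 ∧
      z.2 = s(s(N.src a.1, N.tgt a.1), s(N.src b.1, N.tgt b.1)) ∧ OnTent D (arcAt D a) z.1 ∧
      OnTent D (arcAt D b) z.1 := by
  obtain ⟨hv, a, b, c, d, hab, hcd, hne, hz2, ⟨σ, hσ, hzσ⟩, ⟨τ, hτ, hzτ⟩⟩ := hz
  obtain ⟨i, hi, -, hl⟩ := glist D hN hab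
  obtain ⟨j, hj, -, hl'⟩ := glist D hN hcd
  have hij : i ≠ j := by
    rintro rfl
    exact hne (hi.symm.trans hj)
  obtain ⟨A, hA, hA'⟩ := closed_cases D hl hσ hzσ
  obtain ⟨B, hB, hB'⟩ := closed_cases D hl' hτ hzτ
  have uA := path_mem_used D hA
  have uB := path_mem_used D hB
  have nA := path_rk_ne D hN.simple hA
  have nB := path_rk_ne D hN.simple hB
  have np := no_parallel D hN.simple hij hA hB
  have yA : (pk D A.p A.q A.up).2 ≠ 0 := pk_y_ne D hN.simple hA
  have yB : (pk D B.p B.q B.up).2 ≠ 0 := pk_y_ne D hN.simple hB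
  have tA : OnTent D A z.1 → z.1.2 ≠ 0 := fun ⟨x, y, h, h'⟩ => onHalf_y D nA h h'
  have tB : OnTent D B z.1 → z.1.2 ≠ 0 := fun ⟨x, y, h, h'⟩ => onHalf_y D nB h h'
  have axA : (z.1 = pt D A.p ∨ z.1 = pt D A.q) → z.1.2 = 0 := by
    rintro (h | h) <;> rw [h] <;> rfl
  have axB : (z.1 = pt D B.p ∨ z.1 = pt D B.q) → z.1.2 = 0 := by
    rintro (h | h) <;> rw [h] <;> rfl
  have pkt : ∀ {A B : Arc L}, rk D A.p ≠ rk D A.q → rk D B.p ≠ rk D B.q →
      z.1 = pk D A.p A.q A.up → OnTent D B z.1 → False := by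
    intro A B nA nB h ⟨x, y, hxy, h'⟩
    have hxy' : rk D x ≠ rk D y := by
      rcases hxy with ⟨rfl, rfl⟩ | ⟨rfl, rfl⟩
      · exact nB
      · exact nB.symm
    rw [h] at h'
    exact pk_not_mem_half (n := (used D).card) (M := slope D) (by unfold slope; exact le_rfl)
      (rk_rng D x) (rk_rng D y) (rk_rng D A.p) (rk_rng D A.q) hxy' nA h'
  have main : OnTent D A z.1 ∧ OnTent D B z.1 := by
    rcases hA' with hA' | hA' | hA' <;> rcases hB' with hB' | hB' | hB'
    · exfalso
      obtain ⟨x, hx, hx'⟩ : ∃ x, (x = A.p ∨ x = A.q) ∧ z.1 = pt D x := by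
        rcases hA' with h | h
        · exact ⟨_, Or.inl rfl, h⟩
        · exact ⟨_, Or.inr rfl, h⟩
      obtain ⟨y, hy, hy'⟩ : ∃ y, (y = B.p ∨ y = B.q) ∧ z.1 = pt D y := by
        rcases hB' with h | h
        · exact ⟨_, Or.inl rfl, h⟩
        · exact ⟨_, Or.inr rfl, h⟩
      have ux : x ∈ used D := by rcases hx with rfl | rfl; exacts [uA.1, uA.2]
      have uy : y ∈ used D := by rcases hy with rfl | rfl; exacts [uB.1, uB.2]
      have hxy : x = y := pt_inj D ux uy (hx'.symm.trans hy')
      subst hxy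
      obtain ⟨w, rfl⟩ := common_vertex D hij hA hB hx hy
      exact hv w hx'
    · exfalso; apply yB; rw [← hB']; exact axA hA'
    · exfalso; exact tB hB' (axA hA')
    · exfalso; apply yA; rw [← hA']; exact axB hB'
    · exfalso; exact np (pk_eq D uA uB nA nB (hA'.symm.trans hB'))
    · exfalso; exact pkt nA nB hA' hB'
    · exfalso; exact tA hA' (axB hB')
    · exfalso; exact pkt nB nA hB' hA'
    · exact ⟨hA', hB'⟩
  obtain ⟨m, hm, rfl⟩ := List.getElem_of_mem hA
  obtain ⟨n, hn, rfl⟩ := List.getElem_of_mem hB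
  refine ⟨⟨i, ⟨m, hm⟩⟩, ⟨j, ⟨n, hn⟩⟩, hij, ?_, ?_, ?_, main.1, main.2⟩
  · obtain ⟨⟨x, y, hxy, h1⟩, ⟨x', y', hxy', h2⟩⟩ := main
    rcases meet_X D uA uB nA nB hxy hxy' h1 h2 with h3 | h3
    · exfalso
      obtain ⟨rfl, rfl⟩ := h3
      apply np
      rcases hxy with ⟨h4, h5⟩ | ⟨h4, h5⟩ <;> rcases hxy' with ⟨h6, h7⟩ | ⟨h6, h7⟩
      · exact Or.inl ⟨h4.symm.trans h6, h5.symm.trans h7⟩
      · exact Or.inr ⟨h4.symm.trans h6, h5.symm.trans h7⟩
      · exact Or.inr ⟨h5.symm.trans h7, h4.symm.trans h6⟩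
      · exact Or.inl ⟨h5.symm.trans h7, h4.symm.trans h6⟩
    · exact h3
  · obtain ⟨⟨x, y, hxy, h1⟩, ⟨x', y', hxy', h2⟩⟩ := main
    rcases meet_X D uB uA nB nA hxy' hxy h2 h1 with h3 | h3
    · exfalso
      obtain ⟨rfl, rfl⟩ := h3
      apply np
      rcases hxy with ⟨h4, h5⟩ | ⟨h4, h5⟩ <;> rcases hxy' with ⟨h6, h7⟩ | ⟨h6, h7⟩
      · exact Or.inl ⟨h4.symm.trans h6, h5.symm.trans h7⟩
      · exact Or.inr ⟨h4.symm.trans h6, h5.symm.trans h7⟩
      · exact Or.inr ⟨h5.symm.trans h7, h4.symm.trans h6⟩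
      · exact Or.inl ⟨h5.symm.trans h7, h4.symm.trans h6⟩
    · exact h3
  · simp only
    rw [hz2, hi, hj]

lemma two_crossings_le [DecidableEq ι] (hN : N.Rep G)
    (hs : ∀ i, crL (D.path i) (D.path i) = 0) :
    2 * (poly D hN hs).crossings ≤ D.dcr := by
  classical
  let K := {k : AIx D × AIx D // k.1.1 ≠ k.2.1 ∧ X (arcAt D k.1) (arcAt D k.2) = 1}
  have hK : Nat.card K ≤ D.dcr := by
    rw [dcr_eq, Nat.card_eq_fintype_card, Fintype.card_subtype, ← Fintype.sum_prod_type']
    rw [card_eq_sum_ones, sum_filter]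
    refine sum_le_sum fun k _ => ?_
    split_ifs with h1 h2
    · exact absurd h2 h1.1
    · exact h1.2.ge
    · exact le_rfl
    · exact Nat.zero_le _
  let S := (poly D hN hs).crossingSet
  choose f g h1 h2 h3 h4 h5 h6 using fun z : S => crossing_spec D hN hs z.2
  let F : S × Bool → K := fun w => if w.2 then ⟨(f w.1, g w.1), h1 w.1, h2 w.1⟩
    else ⟨(g w.1, f w.1), (h1 w.1).symm, h3 w.1⟩
  have hF : Function.Injective F := by
    have inj1 : ∀ z z' : S, f z = f z' → g z = g z' → z = z' := by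
      intro z z' e1 e2
      have k2 : (z : Plane × Sym2 (Sym2 V)).2 = (z' : Plane × Sym2 (Sym2 V)).2 := by
        rw [h4, h4, e1, e2]
      have k1 : (z : Plane × Sym2 (Sym2 V)).1 = (z' : Plane × Sym2 (Sym2 V)).1 := by
        refine tent_unique D (path_mem_used D (arcAt_mem D (f z)))
          (path_mem_used D (arcAt_mem D (g z))) (path_rk_ne D hN.simple (arcAt_mem D (f z)))
          (path_rk_ne D hN.simple (arcAt_mem D (g z)))
          (no_parallel D hN.simple (h1 z) (arcAt_mem D (f z)) (arcAt_mem D (g z)))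
          (h5 z) (h6 z) ?_ ?_
        · rw [e1]; exact h5 z'
        · rw [e2]; exact h6 z'
      exact Subtype.ext (Prod.ext k1 k2)
    have inj2 : ∀ z z' : S, f z = g z' → g z = f z' → z = z' := by
      intro z z' e1 e2
      have k2 : (z : Plane × Sym2 (Sym2 V)).2 = (z' : Plane × Sym2 (Sym2 V)).2 := by
        rw [h4, h4, e1, e2, Sym2.eq_swap]
      have k1 : (z : Plane × Sym2 (Sym2 V)).1 = (z' : Plane × Sym2 (Sym2 V)).1 := by
        refine tent_unique D (path_mem_used D (arcAt_mem D (f z)))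
          (path_mem_used D (arcAt_mem D (g z))) (path_rk_ne D hN.simple (arcAt_mem D (f z)))
          (path_rk_ne D hN.simple (arcAt_mem D (g z)))
          (no_parallel D hN.simple (h1 z) (arcAt_mem D (f z)) (arcAt_mem D (g z)))
          (h5 z) (h6 z) ?_ ?_
        · rw [e1]; exact h6 z'
        · rw [e2]; exact h5 z'
      exact Subtype.ext (Prod.ext k1 k2)
    rintro ⟨z, b⟩ ⟨z', b'⟩ h
    have h' : (F (z, b)).1 = (F (z', b')).1 := congrArg Subtype.val h
    cases b <;> cases b'
    · have h7 : (g z, f z) = (g z', f z') := h'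
      rw [inj1 z z' (congrArg Prod.snd h7) (congrArg Prod.fst h7)]
    · exfalso
      have h7 : (g z, f z) = (f z', g z') := h'
      have := inj2 z z' (congrArg Prod.snd h7) (congrArg Prod.fst h7)
      subst this
      exact h1 z (congrArg Sigma.fst (congrArg Prod.snd h7))
    · exfalso
      have h7 : (f z, g z) = (g z', f z') := h'
      have := inj2 z z' (congrArg Prod.fst h7) (congrArg Prod.snd h7)
      subst this
      exact h1 z (congrArg Sigma.fst (congrArg Prod.fst h7))
    · have h7 : (f z, g z) = (f z', g z') := h'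
      rw [inj1 z z' (congrArg Prod.fst h7) (congrArg Prod.snd h7)]
  have hcard := Nat.card_le_card_of_injective F hF
  have hfin : Finite S := by
    have : Finite (S × Bool) := Finite.of_injective F hF
    exact Finite.of_injective (fun z : S => ((z, true) : S × Bool)) (fun a b h => by simpa using h)
  rw [Nat.card_prod, Nat.card_eq_fintype_card (α := Bool), Fintype.card_bool] at hcard
  have : (poly D hN hs).crossings = Nat.card S := rfl
  rw [this]
  omega

end main

end P2

/-- P2. Every spine drawing with simple alternating edges gives a polygonal drawing with at most as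
many crossings. -/
theorem exists_poly_of_spine_proof {V ι : Type} [Fintype V] [Fintype ι] [DecidableEq ι]
    {N : Net V ι} {G : SimpleGraph V} (hN : N.Rep G) {L : Type} [LinearOrder L]
    (D : Drawing N L) (hs : ∀ i, crL (D.path i) (D.path i) = 0)
    (_ : ∀ i, Alt (D.inner i) (D.last i)) :
    ∃ D' : PolyDrawing G, 2 * D'.crossings ≤ D.dcr :=
  ⟨P2.poly D hN hs, P2.two_crossings_le D hN hs⟩

end MP60f107

end
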