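import Mathlib

/-!
Drawings of a graph in the plane and the crossing number: the definitions used by the statement.
-/

namespace MP60f107

/-- The plane. -/
abbrev Plane : Type := ℝ × ℝ

/-- `A` is a simple arc in the plane with the end points `p` and `q`: the image of an injective
continuous path from `p` to `q`. -/
def IsArc (A : Set Plane) (p q : Plane) : Prop :=
  ∃ γ : Path p q, Function.Injective γ ∧ Set.range γ = A

/-- A drawing of the graph `G` in the plane: vertices are distinct points, the edge `ab` is a simple
arc from `a` to `b` containing no other vertex, and two arcs have finitely many common points. -/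
structure TopDrawing {V : Type} (G : SimpleGraph V) where
  pos : V → Plane
  arc : Sym2 V → Set Plane
  pos_inj : Function.Injective pos
  isArc : ∀ a b, G.Adj a b → IsArc (arc s(a, b)) (pos a) (pos b)
  avoid : ∀ e ∈ G.edgeSet, ∀ w, pos w ∈ arc e → w ∈ e
  finite : ∀ e ∈ G.edgeSet, ∀ f ∈ G.edgeSet, e ≠ f → (arc e ∩ arc f).Finite

namespace TopDrawing

variable {V : Type} {G : SimpleGraph V} (D : TopDrawing G)

/-- The crossings: a point that is not a vertex together with an unordered pair of different edges
passing through this point. -/
def crossingSet : Set (Plane × Sym2 (Sym2 V)) :=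
  {z | (∀ w, z.1 ≠ D.pos w) ∧ ∃ e f, e ∈ G.edgeSet ∧ f ∈ G.edgeSet ∧ e ≠ f ∧ z.2 = s(e, f) ∧
    z.1 ∈ D.arc e ∧ z.1 ∈ D.arc f}

/-- The number of crossings. -/
noncomputable def crossings : ℕ := D.crossingSet.ncard

end TopDrawing

/-- The crossing number: the least number of crossings of a drawing. -/
noncomputable def topCrossingNumber {V : Type} (G : SimpleGraph V) : ℕ :=
  sInf (Set.range fun D : TopDrawing G => D.crossings)

/-- The sets `A` and `B` cross at the point `x`: there is a homeomorphism `φ` from an open
neighbourhood of `x` onto an open set that takes `x` to the origin, `A` to the first axis and `B` to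
the second axis. -/
def CrossAt (A B : Set Plane) (x : Plane) : Prop :=
  ∃ φ : OpenPartialHomeomorph Plane Plane, x ∈ φ.source ∧ φ x = (0, 0) ∧
    ∀ y ∈ φ.source, (y ∈ A ↔ (φ y).2 = 0) ∧ (y ∈ B ↔ (φ y).1 = 0)

/-- A drawing in which two edges cross at every common point that is not a vertex. -/
structure CrossDrawing {V : Type} (G : SimpleGraph V) extends TopDrawing G where
  cross : ∀ e ∈ G.edgeSet, ∀ f ∈ G.edgeSet, e ≠ f → ∀ x ∈ arc e ∩ arc f, (∀ w, x ≠ pos w) →
    CrossAt (arc e) (arc f) x

/-- The crossing number: the least number of crossings of a drawing. -/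
noncomputable def cr {V : Type} (G : SimpleGraph V) : ℕ :=
  sInf (Set.range fun D : CrossDrawing G => D.toTopDrawing.crossings)

end MP60f107
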